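import Pool.Agent.TSE.D7
import Pool.Agent.TSE.D8
import Pool.Agent.TSE.D9
import Pool.Agent.TSE.D0
import Pool.Agent.TSE.D10
import Pool.Agent.TSE.D11
import Pool.Agent.TSE.D12
import Pool.Agent.TSE.D13
import Pool.Agent.TSE.D1
import Pool.Agent.TSE.D14
import Pool.Agent.TSE.D15
import Pool.Agent.TSE.D16
import Pool.Agent.TSE.D17
import Pool.Agent.TSE.D24
import Pool.Agent.TSE.D25
import Pool.Agent.TSE.D2
import Pool.Agent.TSE.D19
import Pool.Agent.TSE.D20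
import Pool.Agent.TSE.D21
import Pool.Agent.TSE.D22
import Pool.Agent.TSE.D23
import Pool.Agent.TSE.D3
import Pool.Agent.TSE.D4
import Pool.Agent.TSE.D5
import Pool.Agent.TSE.D6

set_option autoImplicit false

/-! # The lists of the intervals (MP_d27362_co) -/

namespace Pool.Agent.TSE

open Pool.Agent.TSC
open Pool.Agent.TSC.Dec
open Pool.Agent.TSG


/-- interval 0 of `t` -/
def t0 : TC := ⟨⟨0,0,0⟩, ⟨4,0,2⟩, ⟨1,0,0⟩, ⟨25955,0,4⟩, 0, [v0_0, v0_1, v0_2, v0_3, v0_4, v0_5, v0_6, v0_7, v0_8, v0_9, v0_10, v0_11, v0_12, v0_13, v0_14, v0_15, v0_16, v0_17, (zV, zV), v0_19, v0_20, v0_21, v0_22, v0_23, v0_24, v0_25]⟩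

/-- interval 1 of `t` -/
def t1 : TC := ⟨⟨4,0,2⟩, ⟨4,0,2⟩, ⟨9494,0,4⟩, ⟨28962,0,4⟩, 0, [v1_0, v1_1, v1_2, v1_3, v1_4, v1_5, v1_6, v1_7, v1_8, v1_9, v1_10, v1_11, v1_12, v1_13, v1_14, v1_15, v1_16, v1_17, (zV, zV), v1_19, v1_20, v1_21, v1_22, v1_23, v1_24, v1_25]⟩

/-- interval 2 of `t` -/
def t2 : TC := ⟨⟨8,0,2⟩, ⟨3,0,2⟩, ⟨8959,0,4⟩, ⟨32228,0,4⟩, 0, [v2_0, v2_1, v2_2, v2_3, v2_4, v2_5, v2_6, v2_7, v2_8, v2_9, v2_10, v2_11, v2_12, v2_13, v2_14, v2_15, v2_16, v2_17, (zV, zV), v2_19, v2_20, v2_21, v2_22, v2_23, v2_24, v2_25]⟩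

/-- interval 3 of `t` -/
def t3 : TC := ⟨⟨11,0,2⟩, ⟨2,0,2⟩, ⟨8536,0,4⟩, ⟨35053,0,4⟩, 0, [v3_0, v3_1, v3_2, v3_3, v3_4, v3_5, v3_6, v3_7, v3_8, v3_9, v3_10, v3_11, v3_12, v3_13, v3_14, v3_15, v3_16, v3_17, (zV, zV), v3_19, v3_20, v3_21, v3_22, v3_23, v3_24, v3_25]⟩

/-- interval 4 of `t` -/
def t4 : TC := ⟨⟨13,0,2⟩, ⟨2,0,2⟩, ⟨8242,0,4⟩, ⟨37695,0,4⟩, 0, [v4_0, v4_1, v4_2, v4_3, v4_4, v4_5, v4_6, v4_7, v4_8, v4_9, v4_10, v4_11, v4_12, v4_13, v4_14, v4_15, v4_16, v4_17, (zV, zV), v4_19, v4_20, v4_21, v4_22, v4_23, v4_24, v4_25]⟩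

/-- interval 5 of `t` -/
def t5 : TC := ⟨⟨15,0,2⟩, ⟨1,0,2⟩, ⟨7937,0,4⟩, ⟨39954,0,4⟩, 0, [v5_0, v5_1, v5_2, v5_3, v5_4, v5_5, v5_6, v5_7, v5_8, v5_9, v5_10, v5_11, v5_12, v5_13, v5_14, v5_15, v5_16, v5_17, (zV, zV), v5_19, v5_20, v5_21, v5_22, v5_23, v5_24, v5_25]⟩

/-- interval 6 of `t` -/
def t6 : TC := ⟨⟨16,0,2⟩, ⟨1,0,2⟩, ⟨778,0,3⟩, ⟨41617,0,4⟩, 0, [v6_0, v6_1, v6_2, v6_3, v6_4, v6_5, v6_6, v6_7, v6_8, v6_9, v6_10, v6_11, v6_12, v6_13, v6_14, v6_15, v6_16, v6_17, (zV, zV), v6_19, v6_20, v6_21, v6_22, v6_23, v6_24, v6_25]⟩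

/-- interval 7 of `t` -/
def t7 : TC := ⟨⟨17,0,2⟩, ⟨1,0,2⟩, ⟨762,0,3⟩, ⟨43424,0,4⟩, 0, [v7_0, v7_1, v7_2, v7_3, v7_4, v7_5, v7_6, v7_7, v7_8, v7_9, v7_10, v7_11, v7_12, v7_13, v7_14, v7_15, v7_16, v7_17, (zV, zV), v7_19, v7_20, v7_21, v7_22, v7_23, v7_24, v7_25]⟩

/-- interval 8 of `t` -/
def t8 : TC := ⟨⟨18,0,2⟩, ⟨1,0,2⟩, ⟨7456,0,4⟩, ⟨45396,0,4⟩, 0, [v8_0, v8_1, v8_2, v8_3, v8_4, v8_5, v8_6, v8_7, v8_8, v8_9, v8_10, v8_11, v8_12, v8_13, v8_14, v8_15, v8_16, v8_17, (zV, zV), v8_19, v8_20, v8_21, v8_22, v8_23, v8_24, v8_25]⟩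

/-- interval 9 of `t` -/
def t9 : TC := ⟨⟨19,0,2⟩, ⟨1,0,2⟩, ⟨7289,0,4⟩, ⟨47555,0,4⟩, 0, [v9_0, v9_1, v9_2, v9_3, v9_4, v9_5, v9_6, v9_7, v9_8, v9_9, v9_10, v9_11, v9_12, v9_13, v9_14, v9_15, v9_16, v9_17, (zV, zV), v9_19, v9_20, v9_21, v9_22, v9_23, v9_24, v9_25]⟩

/-- interval 10 of `t` -/
def t10 : TC := ⟨⟨2,0,1⟩, ⟨1,0,2⟩, ⟨7118,0,4⟩, ⟨49929,0,4⟩, 0, [v10_0, v10_1, v10_2, v10_3, v10_4, v10_5, (zV, zV), v10_7, v10_8, v10_9, v10_10, v10_11, v10_12, v10_13, v10_14, v10_15, v10_16, v10_17, (zV, zV), v10_19, v10_20, v10_21, v10_22, v10_23, v10_24, v10_25]⟩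

/-- interval 11 of `t` -/
def t11 : TC := ⟨⟨21,0,2⟩, ⟨1,0,2⟩, ⟨6942,0,4⟩, ⟨52553,0,4⟩, 0, [v11_0, v11_1, v11_2, v11_3, v11_4, v11_5, (zV, zV), v11_7, v11_8, v11_9, v11_10, v11_11, v11_12, v11_13, v11_14, v11_15, v11_16, v11_17, (zV, zV), v11_19, v11_20, v11_21, v11_22, v11_23, v11_24, v11_25]⟩

/-- interval 12 of `t` -/
def t12 : TC := ⟨⟨22,0,2⟩, ⟨1,0,2⟩, ⟨6762,0,4⟩, ⟨55468,0,4⟩, 0, [v12_0, v12_1, v12_2, v12_3, v12_4, v12_5, (zV, zV), v12_7, v12_8, v12_9, v12_10, v12_11, v12_12, v12_13, v12_14, v12_15, v12_16, v12_17, (zV, zV), v12_19, v12_20, v12_21, v12_22, v12_23, v12_24, v12_25]⟩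

/-- interval 13 of `t` -/
def t13 : TC := ⟨⟨23,0,2⟩, ⟨1,0,2⟩, ⟨6577,0,4⟩, ⟨58725,0,4⟩, 0, [v13_0, v13_1, v13_2, v13_3, v13_4, (zV, zV), (zV, zV), v13_7, v13_8, v13_9, v13_10, v13_11, v13_12, v13_13, v13_14, v13_15, v13_16, v13_17, (zV, zV), v13_19, v13_20, v13_21, v13_22, v13_23, v13_24, v13_25]⟩

/-- interval 14 of `t` -/
def t14 : TC := ⟨⟨24,0,2⟩, ⟨1,0,2⟩, ⟨6387,0,4⟩, ⟨62389,0,4⟩, 0, [v14_0, v14_1, v14_2, v14_3, v14_4, (zV, zV), (zV, zV), v14_7, v14_8, v14_9, v14_10, v14_11, v14_12, v14_13, v14_14, v14_15, v14_16, v14_17, (zV, zV), v14_19, v14_20, v14_21, v14_22, v14_23, v14_24, v14_25]⟩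

/-- interval 15 of `t` -/
def t15 : TC := ⟨⟨25,0,2⟩, ⟨5,0,3⟩, ⟨619,0,3⟩, ⟨65451,0,4⟩, 0, [v15_0, v15_1, v15_2, v15_3, v15_4, (zV, zV), (zV, zV), v15_7, v15_8, v15_9, v15_10, v15_11, v15_12, v15_13, v15_14, v15_15, v15_16, v15_17, (zV, zV), v15_19, v15_20, v15_21, v15_22, v15_23, v15_24, v15_25]⟩

/-- interval 16 of `t` -/
def t16 : TC := ⟨⟨255,0,3⟩, ⟨5,0,3⟩, ⟨609,0,3⟩, ⟨67666,0,4⟩, 0, [v16_0, v16_1, v16_2, v16_3, v16_4, (zV, zV), (zV, zV), v16_7, v16_8, v16_9, v16_10, v16_11, v16_12, v16_13, v16_14, v16_15, v16_16, v16_17, (zV, zV), v16_19, v16_20, v16_21, v16_22, v16_23, v16_24, v16_25]⟩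

/-- interval 17 of `t` -/
def t17 : TC := ⟨⟨26,0,2⟩, ⟨5,0,3⟩, ⟨5988,0,4⟩, ⟨70035,0,4⟩, 0, [v17_0, v17_1, v17_2, v17_3, (zV, zV), (zV, zV), (zV, zV), v17_7, v17_8, v17_9, v17_10, v17_11, v17_12, v17_13, v17_14, v17_15, v17_16, v17_17, (zV, zV), v17_19, v17_20, v17_21, v17_22, v17_23, v17_24, v17_25]⟩

/-- interval 18 of `t` -/
def t18 : TC := ⟨⟨265,0,3⟩, ⟨5,0,3⟩, ⟨5884,0,4⟩, ⟨72577,0,4⟩, 0, [v18_0, v18_1, v18_2, v18_3, (zV, zV), (zV, zV), (zV, zV), v18_7, v18_8, v18_9, v18_10, v18_11, v18_12, v18_13, v18_14, v18_15, v18_16, v18_17, (zV, zV), v18_19, v18_20, v18_21, v18_22, v18_23, v18_24, v18_25]⟩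

/-- interval 19 of `t` -/
def t19 : TC := ⟨⟨27,0,2⟩, ⟨5,0,3⟩, ⟨5778,0,4⟩, ⟨7531,0,3⟩, 0, [v19_0, v19_1, v19_2, v19_3, (zV, zV), (zV, zV), (zV, zV), v19_7, v19_8, v19_9, v19_10, v19_11, v19_12, v19_13, v19_14, v19_15, v19_16, v19_17, (zV, zV), v19_19, v19_20, v19_21, v19_22, v19_23, v19_24, v19_25]⟩

/-- interval 20 of `t` -/
def t20 : TC := ⟨⟨275,0,3⟩, ⟨5,0,3⟩, ⟨567,0,3⟩, ⟨78256,0,4⟩, 0, [v20_0, v20_1, v20_2, v20_3, (zV, zV), (zV, zV), (zV, zV), v20_7, v20_8, v20_9, v20_10, v20_11, v20_12, v20_13, v20_14, v20_15, v20_16, v20_17, (zV, zV), v20_19, v20_20, v20_21, v20_22, v20_23, v20_24, v20_25]⟩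

/-- interval 21 of `t` -/
def t21 : TC := ⟨⟨28,0,2⟩, ⟨5,0,3⟩, ⟨556,0,3⟩, ⟨81443,0,4⟩, 0, [v21_0, v21_1, v21_2, (zV, zV), (zV, zV), (zV, zV), (zV, zV), v21_7, v21_8, v21_9, v21_10, v21_11, v21_12, v21_13, v21_14, v21_15, v21_16, v21_17, (zV, zV), v21_19, v21_20, v21_21, v21_22, v21_23, v21_24, v21_25]⟩

/-- interval 22 of `t` -/
def t22 : TC := ⟨⟨285,0,3⟩, ⟨5,0,3⟩, ⟨5448,0,4⟩, ⟨849,0,2⟩, 0, [v22_0, v22_1, v22_2, (zV, zV), (zV, zV), (zV, zV), (zV, zV), v22_7, v22_8, v22_9, v22_10, v22_11, v22_12, v22_13, v22_14, v22_15, v22_16, v22_17, (zV, zV), v22_19, v22_20, v22_21, v22_22, v22_23, v22_24, v22_25]⟩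

/-- interval 23 of `t` -/
def t23 : TC := ⟨⟨29,0,2⟩, ⟨5,0,3⟩, ⟨5334,0,4⟩, ⟨88664,0,4⟩, 0, [v23_0, v23_1, v23_2, (zV, zV), (zV, zV), (zV, zV), (zV, zV), v23_7, v23_8, v23_9, v23_10, v23_11, v23_12, v23_13, v23_14, v23_15, v23_16, v23_17, (zV, zV), v23_19, v23_20, v23_21, v23_22, v23_23, v23_24, v23_25]⟩

/-- interval 24 of `t` -/
def t24 : TC := ⟨⟨295,0,3⟩, ⟨5,0,3⟩, ⟨5217,0,4⟩, ⟨92777,0,4⟩, 0, [v24_0, v24_1, v24_2, (zV, zV), (zV, zV), (zV, zV), (zV, zV), v24_7, v24_8, v24_9, v24_10, v24_11, v24_12, v24_13, v24_14, v24_15, v24_16, v24_17, (zV, zV), v24_19, v24_20, v24_21, v24_22, v24_23, v24_24, v24_25]⟩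

/-- interval 25 of `t` -/
def t25 : TC := ⟨⟨3,0,1⟩, ⟨5,0,3⟩, ⟨5097,0,4⟩, ⟨9729,0,3⟩, 0, [v25_0, v25_1, v25_2, (zV, zV), (zV, zV), (zV, zV), (zV, zV), v25_7, v25_8, v25_9, v25_10, v25_11, v25_12, v25_13, v25_14, v25_15, v25_16, v25_17, (zV, zV), v25_19, v25_20, v25_21, v25_22, v25_23, v25_24, v25_25]⟩

/-- interval 26 of `t` -/
def t26 : TC := ⟨⟨305,0,3⟩, ⟨5,0,3⟩, ⟨4975,0,4⟩, ⟨102265,0,4⟩, 0, [v26_0, v26_1, v26_2, (zV, zV), (zV, zV), (zV, zV), (zV, zV), v26_7, v26_8, v26_9, v26_10, v26_11, v26_12, v26_13, v26_14, v26_15, v26_16, v26_17, (zV, zV), v26_19, v26_20, v26_21, v26_22, v26_23, v26_24, v26_25]⟩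

/-- interval 27 of `t` -/
def t27 : TC := ⟨⟨31,0,2⟩, ⟨5,0,3⟩, ⟨4849,0,4⟩, ⟨107776,0,4⟩, 0, [v27_0, v27_1, v27_2, (zV, zV), (zV, zV), (zV, zV), (zV, zV), v27_7, v27_8, v27_9, v27_10, v27_11, v27_12, v27_13, v27_14, v27_15, v27_16, v27_17, (zV, zV), v27_19, v27_20, v27_21, v27_22, (zV, zV), v27_24, v27_25]⟩

/-- interval 28 of `t` -/
def t28 : TC := ⟨⟨315,0,3⟩, ⟨5,0,3⟩, ⟨472,0,3⟩, ⟨113915,0,4⟩, 0, [v28_0, v28_1, v28_2, (zV, zV), (zV, zV), (zV, zV), (zV, zV), v28_7, v28_8, v28_9, v28_10, v28_11, v28_12, v28_13, v28_14, v28_15, v28_16, v28_17, (zV, zV), v28_19, v28_20, v28_21, v28_22, (zV, zV), v28_24, v28_25]⟩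

/-- interval 29 of `t` -/
def t29 : TC := ⟨⟨32,0,2⟩, ⟨5,0,3⟩, ⟨4588,0,4⟩, ⟨120795,0,4⟩, 0, [v29_0, v29_1, v29_2, (zV, zV), (zV, zV), (zV, zV), (zV, zV), v29_7, v29_8, v29_9, v29_10, v29_11, v29_12, v29_13, v29_14, v29_15, v29_16, v29_17, (zV, zV), v29_19, v29_20, v29_21, v29_22, (zV, zV), v29_24, v29_25]⟩

/-- interval 30 of `t` -/
def t30 : TC := ⟨⟨325,0,3⟩, ⟨5,0,3⟩, ⟨4451,0,4⟩, ⟨128559,0,4⟩, 0, [v30_0, v30_1, v30_2, (zV, zV), (zV, zV), (zV, zV), (zV, zV), v30_7, v30_8, v30_9, v30_10, v30_11, v30_12, v30_13, v30_14, v30_15, v30_16, v30_17, (zV, zV), v30_19, v30_20, v30_21, v30_22, (zV, zV), v30_24, v30_25]⟩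

/-- interval 31 of `t` -/
def t31 : TC := ⟨⟨33,0,2⟩, ⟨5,0,3⟩, ⟨431,0,3⟩, ⟨137391,0,4⟩, 0, [v31_0, v31_1, v31_2, (zV, zV), (zV, zV), (zV, zV), (zV, zV), v31_7, v31_8, v31_9, v31_10, v31_11, v31_12, v31_13, v31_14, v31_15, v31_16, v31_17, (zV, zV), v31_19, v31_20, v31_21, (zV, zV), (zV, zV), v31_24, v31_25]⟩

/-- interval 32 of `t` -/
def t32 : TC := ⟨⟨335,0,3⟩, ⟨5,0,3⟩, ⟨4165,0,4⟩, ⟨147525,0,4⟩, 0, [v32_0, v32_1, v32_2, (zV, zV), (zV, zV), (zV, zV), (zV, zV), v32_7, v32_8, v32_9, v32_10, v32_11, v32_12, v32_13, v32_14, v32_15, v32_16, v32_17, (zV, zV), v32_19, v32_20, v32_21, (zV, zV), (zV, zV), v32_24, v32_25]⟩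

/-- interval 33 of `t` -/
def t33 : TC := ⟨⟨34,0,2⟩, ⟨5,0,3⟩, ⟨4014,0,4⟩, ⟨159274,0,4⟩, 0, [v33_0, v33_1, v33_2, (zV, zV), (zV, zV), (zV, zV), (zV, zV), v33_7, v33_8, v33_9, v33_10, v33_11, v33_12, v33_13, v33_14, v33_15, v33_16, v33_17, (zV, zV), v33_19, v33_20, v33_21, (zV, zV), (zV, zV), v33_24, v33_25]⟩

/-- interval 34 of `t` -/
def t34 : TC := ⟨⟨345,0,3⟩, ⟨5,0,3⟩, ⟨3857,0,4⟩, ⟨173055,0,4⟩, 0, [v34_0, v34_1, v34_2, (zV, zV), (zV, zV), (zV, zV), (zV, zV), v34_7, v34_8, v34_9, v34_10, v34_11, v34_12, v34_13, v34_14, v34_15, v34_16, v34_17, (zV, zV), v34_19, v34_20, v34_21, (zV, zV), (zV, zV), v34_24, v34_25]⟩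

/-- interval 35 of `t` -/
def t35 : TC := ⟨⟨35,0,2⟩, ⟨5,0,3⟩, ⟨3694,0,4⟩, ⟨189448,0,4⟩, 0, [v35_0, v35_1, v35_2, (zV, zV), (zV, zV), (zV, zV), (zV, zV), v35_7, v35_8, v35_9, v35_10, v35_11, v35_12, v35_13, v35_14, v35_15, v35_16, v35_17, (zV, zV), v35_19, v35_20, (zV, zV), (zV, zV), (zV, zV), v35_24, v35_25]⟩

/-- interval 36 of `t` -/
def t36 : TC := ⟨⟨355,0,3⟩, ⟨5,0,3⟩, ⟨3523,0,4⟩, ⟨209271,0,4⟩, 0, [v36_0, v36_1, v36_2, (zV, zV), (zV, zV), (zV, zV), (zV, zV), v36_7, v36_8, v36_9, v36_10, v36_11, v36_12, v36_13, v36_14, v36_15, v36_16, v36_17, (zV, zV), v36_19, v36_20, (zV, zV), (zV, zV), (zV, zV), v36_24, v36_25]⟩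

/-- interval 37 of `t` -/
def t37 : TC := ⟨⟨36,0,2⟩, ⟨5,0,3⟩, ⟨3343,0,4⟩, ⟨233727,0,4⟩, 0, [v37_0, v37_1, v37_2, (zV, zV), (zV, zV), (zV, zV), (zV, zV), v37_7, v37_8, v37_9, v37_10, v37_11, v37_12, v37_13, v37_14, v37_15, v37_16, v37_17, (zV, zV), v37_19, (zV, zV), (zV, zV), (zV, zV), (zV, zV), v37_24, v37_25]⟩

/-- interval 38 of `t` -/
def t38 : TC := ⟨⟨365,0,3⟩, ⟨5,0,3⟩, ⟨3153,0,4⟩, ⟨264655,0,4⟩, 0, [v38_0, v38_1, v38_2, (zV, zV), (zV, zV), (zV, zV), (zV, zV), v38_7, v38_8, v38_9, v38_10, v38_11, v38_12, v38_13, v38_14, v38_15, v38_16, v38_17, (zV, zV), v38_19, (zV, zV), (zV, zV), (zV, zV), (zV, zV), v38_24, v38_25]⟩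

/-- interval 39 of `t` -/
def t39 : TC := ⟨⟨37,0,2⟩, ⟨5,0,3⟩, ⟨2951,0,4⟩, ⟨305018,0,4⟩, 0, [v39_0, v39_1, v39_2, (zV, zV), (zV, zV), (zV, zV), (zV, zV), v39_7, v39_8, v39_9, v39_10, v39_11, v39_12, v39_13, v39_14, v39_15, v39_16, v39_17, (zV, zV), (zV, zV), (zV, zV), (zV, zV), (zV, zV), (zV, zV), v39_24, v39_25]⟩

/-- interval 40 of `t` -/
def t40 : TC := ⟨⟨375,0,3⟩, ⟨5,0,3⟩, ⟨2734,0,4⟩, ⟨359906,0,4⟩, 0, [v40_0, v40_1, v40_2, (zV, zV), (zV, zV), (zV, zV), (zV, zV), v40_7, v40_8, v40_9, v40_10, v40_11, v40_12, v40_13, v40_14, v40_15, v40_16, v40_17, (zV, zV), (zV, zV), (zV, zV), (zV, zV), (zV, zV), (zV, zV), v40_24, v40_25]⟩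

/-- interval 41 of `t` -/
def t41 : TC := ⟨⟨38,0,2⟩, ⟨5,0,3⟩, ⟨2498,0,4⟩, ⟨438885,0,4⟩, 0, [v41_0, v41_1, v41_2, (zV, zV), (zV, zV), (zV, zV), (zV, zV), v41_7, v41_8, v41_9, v41_10, v41_11, v41_12, v41_13, v41_14, v41_15, v41_16, v41_17, (zV, zV), (zV, zV), (zV, zV), (zV, zV), (zV, zV), (zV, zV), v41_24, v41_25]⟩

/-- interval 42 of `t` -/
def t42 : TC := ⟨⟨385,0,3⟩, ⟨5,0,3⟩, ⟨2238,0,4⟩, ⟨562272,0,4⟩, 0, [v42_0, v42_1, (zV, zV), (zV, zV), (zV, zV), (zV, zV), (zV, zV), v42_7, v42_8, v42_9, v42_10, v42_11, v42_12, v42_13, v42_14, v42_15, v42_16, v42_17, (zV, zV), (zV, zV), (zV, zV), (zV, zV), (zV, zV), (zV, zV), v42_24, v42_25]⟩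

/-- interval 43 of `t` -/
def t43 : TC := ⟨⟨39,0,2⟩, ⟨5,0,3⟩, ⟨1943,0,4⟩, ⟨57,0,0⟩, 0, [v43_0, v43_1, (zV, zV), (zV, zV), (zV, zV), (zV, zV), (zV, zV), v43_7, v43_8, v43_9, v43_10, v43_11, v43_12, v43_13, v43_14, v43_15, v43_16, v43_17, (zV, zV), (zV, zV), (zV, zV), (zV, zV), (zV, zV), (zV, zV), v43_24, v43_25]⟩

/-- interval 44 of `t` -/
def t44 : TC := ⟨⟨395,0,3⟩, ⟨5,0,3⟩, ⟨1594,0,4⟩, ⟨57,0,0⟩, 0, [v44_0, v44_1, (zV, zV), (zV, zV), (zV, zV), (zV, zV), (zV, zV), v44_7, v44_8, v44_9, v44_10, v44_11, v44_12, v44_13, v44_14, v44_15, v44_16, v44_17, (zV, zV), (zV, zV), (zV, zV), (zV, zV), (zV, zV), (zV, zV), v44_24]⟩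

/-- interval 45 of `t` -/
def t45 : TC := ⟨⟨4,0,1⟩, ⟨3,0,3⟩, ⟨1142,0,4⟩, ⟨57,0,0⟩, 0, [v45_0, v45_1, (zV, zV), (zV, zV), (zV, zV), (zV, zV), (zV, zV), v45_7, v45_8, v45_9, v45_10, v45_11, v45_12, v45_13, v45_14, v45_15, v45_16, v45_17]⟩

/-- interval 46 of `t` -/
def t46 : TC := ⟨⟨403,0,3⟩, ⟨23,0,4⟩, ⟨751,0,4⟩, ⟨57,0,0⟩, 0, [v46_0, v46_1, (zV, zV), (zV, zV), (zV, zV), (zV, zV), (zV, zV), v46_7, v46_8, v46_9, v46_10, v46_11, v46_12, v46_13, v46_14, v46_15, v46_16, v46_17]⟩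

/-- the intervals of `t` -/
def tl : List TC := [t0, t1, t2, t3, t4, t5, t6, t7, t8, t9, t10, t11, t12, t13, t14, t15, t16, t17, t18, t19, t20, t21, t22, t23, t24, t25, t26, t27, t28, t29, t30, t31, t32, t33, t34, t35, t36, t37, t38, t39, t40, t41, t42, t43, t44, t45, t46]

theorem tl_forall {P : TC → Prop} (h0 : P t0) (h1 : P t1) (h2 : P t2) (h3 : P t3) (h4 : P t4) (h5 : P t5) (h6 : P t6) (h7 : P t7) (h8 : P t8) (h9 : P t9) (h10 : P t10) (h11 : P t11) (h12 : P t12) (h13 : P t13) (h14 : P t14) (h15 : P t15) (h16 : P t16) (h17 : P t17) (h18 : P t18) (h19 : P t19) (h20 : P t20) (h21 : P t21) (h22 : P t22) (h23 : P t23) (h24 : P t24) (h25 : P t25) (h26 : P t26) (h27 : P t27) (h28 : P t28) (h29 : P t29) (h30 : P t30) (h31 : P t31) (h32 : P t32) (h33 : P t33) (h34 : P t34) (h35 : P t35) (h36 : P t36) (h37 : P t37) (h38 : P t38) (h39 : P t39) (h40 : P t40) (h41 : P t41) (h42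 : P t42) (h43 : P t43) (h44 : P t44) (h45 : P t45) (h46 : P t46) :
    ∀ tc ∈ tl, P tc := by
  intro tc ht
  simp only [tl, List.mem_cons, List.not_mem_nil, or_false] at ht
  rcases ht with rfl | rfl | rfl | rfl | rfl | rfl | rfl | rfl | rfl | rfl | rfl | rfl | rfl | rfl | rfl | rfl | rfl | rfl | rfl | rfl | rfl | rfl | rfl | rfl | rfl | rfl | rfl | rfl | rfl | rfl | rfl | rfl | rfl | rfl | rfl | rfl | rfl | rfl | rfl | rfl | rfl | rfl | rfl | rfl | rfl | rfl | rfl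
  · exact h0
  · exact h1
  · exact h2
  · exact h3
  · exact h4
  · exact h5
  · exact h6
  · exact h7
  · exact h8
  · exact h9
  · exact h10
  · exact h11
  · exact h12
  · exact h13
  · exact h14
  · exact h15
  · exact h16
  · exact h17
  · exact h18
  · exact h19
  · exact h20
  · exact h21
  · exact h22
  · exact h23
  · exact h24
  · exact h25
  · exact h26
  · exact h27
  · exact h28
  · exact h29
  · exact h30
  · exact h31
  · exact h32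
  · exact h33
  · exact h34
  · exact h35
  · exact h36
  · exact h37
  · exact h38
  · exact h39
  · exact h40
  · exact h41
  · exact h42
  · exact h43
  · exact h44
  · exact h45
  · exact h46

/-- the intervals of `D` -/
def dl : List (Seg (Kn Dec)) := [d7, d8, d9, d0, d10, d11, d12, d13, d1, d14, d15, d16, d17, d24, d25, d2, d19, d20, d21, d22, d23, d3, d4, d5, d6]

theorem dl_forall {P : Seg (Kn Dec) → Prop} (h7 : P d7) (h8 : P d8) (h9 : P d9) (h0 : P d0) (h10 : P d10) (h11 : P d11) (h12 : P d12) (h13 : P d13) (h1 : P d1) (h14 : P d14) (h15 : P d15) (h16 : P d16) (h17 : P d17) (h24 : P d24) (h25 : P d25) (h2 : P d2) (h19 : P d19) (h20 : P d20) (h21 : P d21) (h22 : P d22) (h23 : P d23) (h3 : P d3) (h4 : P d4) (h5 : P d5) (h6 : P d6) :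
    ∀ dc ∈ dl, P dc := by
  intro dc hd
  simp only [dl, List.mem_cons, List.not_mem_nil, or_false] at hd
  rcases hd with rfl | rfl | rfl | rfl | rfl | rfl | rfl | rfl | rfl | rfl | rfl | rfl | rfl | rfl | rfl | rfl | rfl | rfl | rfl | rfl | rfl | rfl | rfl | rfl | rfl
  · exact h7
  · exact h8
  · exact h9
  · exact h0
  · exact h10
  · exact h11
  · exact h12
  · exact h13
  · exact h1
  · exact h14
  · exact h15
  · exact h16
  · exact h17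
  · exact h24
  · exact h25
  · exact h2
  · exact h19
  · exact h20
  · exact h21
  · exact h22
  · exact h23
  · exact h3
  · exact h4
  · exact h5
  · exact h6

/-- auxiliary numbers -/
def al : List Aux := [
  ⟨⟨7142,0,5⟩, ⟨3288,0,5⟩, [⟨15377,0,5⟩,⟨20666,0,5⟩,⟨23146,0,5⟩,⟨1,0,0⟩], ⟨3449,0,5⟩, [⟨15518,0,5⟩,⟨20799,0,5⟩,⟨22037,0,5⟩,⟨24474,0,5⟩,⟨1,0,0⟩], ⟨⟨30352,0,4⟩, [⟨625,0,4⟩,⟨1211,0,4⟩,⟨1,0,0⟩]⟩, ⟨⟨99608,0,4⟩, [⟨625,0,4⟩,⟨1211,0,4⟩,⟨1,0,0⟩]⟩, ⟨⟨16187,0,4⟩, [⟨625,0,4⟩,⟨1211,0,4⟩,⟨1,0,0⟩]⟩,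
   ⟨⟨393,0,3⟩, ⟨109,0,2⟩, ⟨pos 9 2, pos 7142 5, pos 2245 4, [(pos 29 4, false), (pos 57 4, true), (pos 113 4, true), (pos 225 4, true), (pos 45 3, true), (pos 9 2, true)], [pos 1 0], pos 9 2, [pos 2038 4, pos 2322 4, pos 2606 4, pos 3175 4, pos 545 3, pos 1 0]⟩, ⟨1166,0,3⟩, ⟨pos 75 3, pos 7142 5, pos 2613 4, [(pos 24 4, false), (pos 3 3, false), (pos 36 4, true), (pos 47 4, true), (pos 94 4, true), (pos 188 4, true), (pos 375 4, true), (pos 75 3, true)], [pos 1 0], pos 75 3, [pos 1907 4, pos 2196 4, pos 2485 4, pos 3063 4, pos 5375 4, pos 1 0]⟩, ⟨1,0,0⟩, ⟨pos 81 3, pos 7142 5, pos 2244 4, [(pos 26 4, false), (pos 51 4, true), (pos 102 4, true), (pos 203 4, true), (pos 405 4, true), (pos 81 3, true)], [pos 1 0], pos 81 3, [pos 1959 4, pos 2247 4, pos 2534 4, pos 3108 4, pos 5405 4, pos 1 0]⟩, ⟨1,0,0⟩, ⟨pos 81 3, pos 7142 5, pos 2612 4, [(pos 26 4, false), (pos 51 4, true),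 (pos 102 4, true), (pos 203 4, true), (pos 405 4, true), (pos 81 3, true)], [pos 1 0], pos 81 3, [pos 1959 4, pos 2247 4, pos 2534 4, pos 3108 4, pos 5405 4, pos 1 0]⟩⟩⟩,
  ⟨⟨1005,0,4⟩, ⟨4076,0,5⟩, [⟨16067,0,5⟩,⟨21313,0,5⟩,⟨23772,0,5⟩,⟨26155,0,5⟩,⟨1,0,0⟩], ⟨4338,0,5⟩, [⟨16296,0,5⟩,⟨21528,0,5⟩,⟨23981,0,5⟩,⟨25169,0,5⟩,⟨1,0,0⟩], ⟨⟨17725,0,4⟩, [⟨125,0,3⟩,⟨17969,0,5⟩,⟨1,0,0⟩]⟩, ⟨⟨52292,0,4⟩, [⟨125,0,3⟩,⟨17969,0,5⟩,⟨1,0,0⟩]⟩, ⟨⟨10578,0,4⟩, [⟨125,0,3⟩,⟨17969,0,5⟩,⟨1,0,0⟩]⟩,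
   ⟨⟨393,0,3⟩, ⟨109,0,2⟩, ⟨pos 141 3, pos 1005 4, pos 1946 4, [(pos 44 4, false), (pos 55 4, false), (pos 66 4, true), (pos 88 4, true), (pos 176 4, true), (pos 352 4, true), (pos 705 4, true), (pos 141 3, true)], [pos 1 0], pos 141 3, [pos 2484 4, pos 3558 4, pos 5705 4, pos 1 0]⟩, ⟨1166,0,3⟩, ⟨pos 126 3, pos 1005 4, pos 2421 4, [(pos 4 3, false), (pos 59 4, false), (pos 79 4, true), (pos 157 4, true), (pos 315 4, true), (pos 63 3, true), (pos 126 3, true)], [pos 1 0], pos 126 3, [pos 2353 4, pos 2899 4, pos 3445 4, pos 563 3, pos 1 0]⟩, ⟨1,0,0⟩, ⟨pos 165 3, pos 1005 4, pos 1945 4, [(pos 52 4, false), (pos 103 4, true), (pos 207 4, true), (pos 413 4, true), (pos 825 4, true), (pos 165 3, true)], [pos 1 0], pos 165 3, [pos 2172 4, pos 2433 4, pos 2694 4, pos 3738 4, pos 5825 4, pos 1 0]⟩, ⟨1,0,0⟩, ⟨pos 108 3, pos 1005 4, pos 2418 4, [(pos 34 4, false), (pos 51 4, false),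 (pos 68 4, true), (pos 135 4, true), (pos 27 3, true), (pos 54 3, true), (pos 108 3, true)], [pos 1 0], pos 108 3, [pos 2195 4, pos 2474 4, pos 2753 4, pos 331 3, pos 554 3, pos 1 0]⟩⟩⟩,
  ⟨⟨12289,0,5⟩, ⟨4185,0,5⟩, [⟨16162,0,5⟩,⟨26642,0,5⟩,⟨28935,0,5⟩,⟨1,0,0⟩], ⟨4054,0,5⟩, [⟨28041,0,5⟩,⟨32539,0,5⟩,⟨1,0,0⟩], ⟨⟨1476,0,3⟩, [⟨25,0,2⟩,⟨29688,0,5⟩,⟨1,0,0⟩]⟩, ⟨⟨33903,0,4⟩, [⟨25,0,2⟩,⟨29688,0,5⟩,⟨1,0,0⟩]⟩, ⟨⟨44251,0,4⟩, [⟨25,0,2⟩,⟨29688,0,5⟩,⟨1,0,0⟩]⟩,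
   ⟨⟨25,0,2⟩, ⟨1,0,0⟩, ⟨pos 294 3, pos 12289 5, pos 1343 4, [(pos 46 4, false), (pos 69 4, false), (pos 75 4, false), (pos 81 4, true), (pos 92 4, true), (pos 184 4, true), (pos 368 4, true), (pos 735 4, true), (pos 147 3, true), (pos 294 3, true)], [pos 1 0], pos 294 3, [pos 3381 4, pos 3822 4, pos 4705 4, pos 647 3, pos 1 0]⟩, ⟨1,0,0⟩, ⟨pos 192 3, pos 12289 5, pos 2053 4, [(pos 6 3, false), (pos 75 4, false), (pos 9 3, true), (pos 12 3, true), (pos 24 3, true), (pos 48 3, true), (pos 96 3, true), (pos 192 3, true)], [pos 1 0], pos 192 3, [pos 293 3, pos 3183 4, pos 3435 4, pos 394 3, pos 596 3, pos 1 0]⟩, ⟨1,0,0⟩, ⟨pos 294 3, pos 12289 5, pos 1343 4, [(pos 46 4, false), (pos 69 4, false), (pos 75 4, false), (pos 81 4, true), (pos 92 4, true), (pos 184 4, true), (pos 368 4, true), (pos 735 4, true), (pos 147 3, true), (pos 294 3, true)], [pos 1 0], pos 294 3, [pos 3381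 4, pos 3822 4, pos 4705 4, pos 647 3, pos 1 0]⟩, ⟨1,0,0⟩, ⟨pos 192 3, pos 12289 5, pos 2053 4, [(pos 6 3, false), (pos 75 4, false), (pos 9 3, true), (pos 12 3, true), (pos 24 3, true), (pos 48 3, true), (pos 96 3, true), (pos 192 3, true)], [pos 1 0], pos 192 3, [pos 293 3, pos 3183 4, pos 3435 4, pos 394 3, pos 596 3, pos 1 0]⟩⟩⟩,
  ⟨⟨14178,0,5⟩, ⟨4967,0,5⟩, [⟨16847,0,5⟩,⟨22045,0,5⟩,⟨26918,0,5⟩,⟨1,0,0⟩], ⟨4995,0,5⟩, [⟨28747,0,5⟩,⟨30974,0,5⟩,⟨1,0,0⟩], ⟨⟨17647,0,4⟩, [⟨125,0,3⟩,⟨23438,0,5⟩,⟨24635,0,5⟩,⟨1,0,0⟩]⟩, ⟨⟨28263,0,4⟩, [⟨125,0,3⟩,⟨23438,0,5⟩,⟨24635,0,5⟩,⟨1,0,0⟩]⟩, ⟨⟨10465,0,4⟩, [⟨125,0,3⟩,⟨23438,0,5⟩,⟨24635,0,5⟩,⟨1,0,0⟩]⟩,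
   ⟨⟨393,0,3⟩, ⟨109,0,2⟩, ⟨pos 264 3, pos 14178 5, pos 1477 4, [(pos 83 4, false), (pos 103 4, false), (pos 109 4, false), (pos 114 4, true), (pos 124 4, true), (pos 165 4, true), (pos 33 3, true), (pos 66 3, true), (pos 132 3, true), (pos 264 3, true)], [pos 1 0], pos 264 3, [pos 31 2, pos 356 3, pos 448 3, pos 632 3, pos 1 0]⟩, ⟨1166,0,3⟩, ⟨pos 198 3, pos 14178 5, pos 2147 4, [(pos 62 4, false), (pos 93 4, false), (pos 109 4, false), (pos 116 4, false), (pos 124 4, true), (pos 248 4, true), (pos 495 4, true), (pos 99 3, true), (pos 198 3, true)], [pos 1 0], pos 198 3, [pos 2482 4, pos 2983 4, pos 3985 4, pos 599 3, pos 1 0]⟩, ⟨1,0,0⟩, ⟨pos 255 3, pos 14178 5, pos 1475 4, [(pos 8 3, false), (pos 1 2, false), (pos 12 3, true), (pos 16 3, true), (pos 319 4, true), (pos 638 4, true), (pos 1275 4, true), (pos 255 3, true)], [pos 1 0], pos 255 3, [pos 3016 4, pos 3482 4,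 pos 4413 4, pos 6275 4, pos 1 0]⟩, ⟨1,0,0⟩, ⟨pos 195 3, pos 14178 5, pos 2143 4, [(pos 61 4, false), (pos 92 4, false), (pos 1 2, false), (pos 107 4, true), (pos 122 4, true), (pos 244 4, true), (pos 487 4, true), (pos 975 4, true), (pos 195 3, true)], [pos 1 0], pos 195 3, [pos 2956 4, pos 3963 4, pos 5975 4, pos 1 0]⟩⟩⟩,
  ⟨⟨1735,0,4⟩, ⟨5531,0,5⟩, [⟨1734,0,4⟩,⟨27673,0,5⟩,⟨32194,0,5⟩,⟨1,0,0⟩], ⟨6076,0,5⟩, [⟨29557,0,5⟩,⟨30658,0,5⟩,⟨1,0,0⟩], ⟨⟨14948,0,4⟩, [⟨25,0,2⟩,⟨29688,0,5⟩,⟨1,0,0⟩]⟩, ⟨⟨20184,0,4⟩, [⟨25,0,2⟩,⟨29688,0,5⟩,⟨1,0,0⟩]⟩, ⟨⟨866,0,3⟩, [⟨25,0,2⟩,⟨29688,0,5⟩,⟨1,0,0⟩]⟩,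
   ⟨⟨393,0,3⟩, ⟨109,0,2⟩, ⟨pos 267 3, pos 1735 4, pos 146 3, [(pos 84 4, false), (pos 126 4, false), (pos 147 4, false), (pos 157 4, false), (pos 162 4, false), (pos 167 4, true), (pos 334 4, true), (pos 668 4, true), (pos 1335 4, true), (pos 267 3, true)], [pos 1 0], pos 267 3, [pos 3129 4, pos 3587 4, pos 4503 4, pos 6335 4, pos 1 0]⟩, ⟨1166,0,3⟩, ⟨pos 201 3, pos 1735 4, pos 2173 4, [(pos 126 4, false), (pos 157 4, false), (pos 173 4, false), (pos 189 4, true), (pos 252 4, true), (pos 503 4, true), (pos 1005 4, true), (pos 201 3, true)], [pos 1 0], pos 201 3, [pos 251 3, pos 3009 4, pos 4008 4, pos 6005 4, pos 1 0]⟩, ⟨1,0,0⟩, ⟨pos 255 3, pos 1735 4, pos 1458 4, [(pos 8 3, false), (pos 12 3, false), (pos 14 3, false), (pos 15 3, false), (pos 16 3, true), (pos 319 4, true), (pos 638 4, true), (pos 1275 4, true), (pos 255 3, true)], [pos 1 0], pos 255 3, [pos 3016 4,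 pos 3482 4, pos 4413 4, pos 6275 4, pos 1 0]⟩, ⟨1,0,0⟩, ⟨pos 189 3, pos 1735 4, pos 2166 4, [(pos 119 4, false), (pos 149 4, false), (pos 178 4, true), (pos 237 4, true), (pos 473 4, true), (pos 945 4, true), (pos 189 3, true)], [pos 1 0], pos 189 3, [pos 2397 4, pos 2904 4, pos 3918 4, pos 5945 4, pos 1 0]⟩⟩⟩,
  ⟨⟨20025,0,5⟩, ⟨5939,0,5⟩, [⟨17697,0,5⟩,⟨27985,0,5⟩,⟨29111,0,5⟩,⟨30219,0,5⟩,⟨1,0,0⟩], ⟨6505,0,5⟩, [⟨29879,0,5⟩,⟨32071,0,5⟩,⟨1,0,0⟩], ⟨⟨14283,0,4⟩, [⟨25,0,2⟩,⟨29688,0,5⟩,⟨30787,0,5⟩,⟨1,0,0⟩]⟩, ⟨⟨7187,0,4⟩, [⟨25,0,2⟩,⟨29688,0,5⟩,⟨30787,0,5⟩,⟨1,0,0⟩]⟩, ⟨⟨17063,0,4⟩, [⟨25,0,2⟩,⟨29688,0,5⟩,⟨30787,0,5⟩,⟨1,0,0⟩]⟩,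
   ⟨⟨4,0,1⟩, ⟨1027,0,3⟩, ⟨pos 312 3, pos 20025 5, pos 1304 4, [(pos 195 4, false), (pos 202 4, false), (pos 208 4, true), (pos 22 3, true), (pos 244 4, true), (pos 293 4, true), (pos 39 3, true), (pos 78 3, true), (pos 156 3, true), (pos 312 3, true)], [pos 1 0], pos 312 3, [pos 1 0]⟩, ⟨1006,0,3⟩, ⟨pos 219 3, pos 20025 5, pos 2103 4, [(pos 137 4, false), (pos 172 4, false), (pos 189 4, false), (pos 198 4, false), (pos 206 4, true), (pos 274 4, true), (pos 548 4, true), (pos 1095 4, true), (pos 219 3, true)], [pos 1 0], pos 219 3, [pos 2678 4, pos 2922 4, pos 3166 4, pos 4143 4, pos 6095 4, pos 1 0]⟩, ⟨1,0,0⟩, ⟨pos 315 3, pos 20025 5, pos 1303 4, [(pos 197 4, false), (pos 394 4, true), (pos 788 4, true), (pos 1575 4, true), (pos 315 3, true)], [pos 1 0], pos 315 3, [pos 1 0]⟩, ⟨1,0,0⟩, ⟨pos 228 3, pos 20025 5, pos 2103 4, [(pos 143 4, false), (pos 179 4, false), (pos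 197 4, false), (pos 214 4, true), (pos 285 4, true), (pos 57 3, true), (pos 114 3, true), (pos 228 3, true)], [pos 1 0], pos 228 3, [pos 2763 4, pos 3245 4, pos 421 3, pos 614 3, pos 1 0]⟩⟩⟩,
  ⟨⟨22384,0,5⟩, ⟨6267,0,5⟩, [⟨29701,0,5⟩,⟨34095,0,5⟩,⟨1,0,0⟩], ⟨7018,0,5⟩, [⟨30264,0,5⟩,⟨32444,0,5⟩,⟨1,0,0⟩], ⟨⟨12137,0,4⟩, [⟨25,0,2⟩,⟨29688,0,5⟩,⟨34083,0,5⟩,⟨1,0,0⟩]⟩, ⟨⟨7737,0,4⟩, [⟨25,0,2⟩,⟨29688,0,5⟩,⟨34083,0,5⟩,⟨1,0,0⟩]⟩, ⟨⟨14983,0,4⟩, [⟨25,0,2⟩,⟨29688,0,5⟩,⟨34083,0,5⟩,⟨1,0,0⟩]⟩,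
   ⟨⟨4,0,1⟩, ⟨1027,0,3⟩, ⟨pos 321 3, pos 22384 5, pos 1234 4, [(pos 201 4, false), (pos 251 4, false), (pos 301 4, true), (pos 401 4, true), (pos 802 4, true), (pos 1605 4, true), (pos 321 3, true)], [pos 1 0], pos 321 3, [pos 1 0]⟩, ⟨1024,0,3⟩, ⟨pos 237 3, pos 22384 5, pos 2096 4, [(pos 149 4, false), (pos 223 4, false), (pos 242 4, false), (pos 251 4, false), (pos 26 3, true), (pos 297 4, true), (pos 593 4, true), (pos 1185 4, true), (pos 237 3, true)], [pos 1 0], pos 237 3, [pos 2847 4, pos 3324 4, pos 4278 4, pos 6185 4, pos 1 0]⟩, ⟨1,0,0⟩, ⟨pos 33 2, pos 22384 5, pos 1232 4, [(pos 207 4, false), (pos 233 4, false), (pos 246 4, false), (pos 259 4, true), (pos 31 3, true), (pos 413 4, true), (pos 825 4, true), (pos 165 3, true), (pos 33 2, true)], [pos 1 0], pos 33 2, [pos 1 0]⟩, ⟨1,0,0⟩, ⟨pos 201 3, pos 22384 5, pos 2094 4, [(pos 126 4, false), (pos 189 4, false),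 (pos 221 4, false), (pos 237 4, false), (pos 245 4, false), (pos 252 4, true), (pos 503 4, true), (pos 1005 4, true), (pos 201 3, true)], [pos 1 0], pos 201 3, [pos 251 3, pos 3009 4, pos 4008 4, pos 6005 4, pos 1 0]⟩⟩⟩,
  ⟨⟨24516,0,5⟩, ⟨6535,0,5⟩, [⟨29902,0,5⟩,⟨34284,0,5⟩,⟨1,0,0⟩], ⟨7303,0,5⟩, [⟨30478,0,5⟩,⟨32651,0,5⟩,⟨36861,0,5⟩,⟨1,0,0⟩], ⟨⟨8506,0,4⟩, [⟨25,0,2⟩,⟨34375,0,5⟩,⟨38477,0,5⟩,⟨1,0,0⟩]⟩, ⟨⟨12028,0,4⟩, [⟨25,0,2⟩,⟨34375,0,5⟩,⟨38477,0,5⟩,⟨1,0,0⟩]⟩, ⟨⟨14201,0,4⟩, [⟨25,0,2⟩,⟨34375,0,5⟩,⟨38477,0,5⟩,⟨1,0,0⟩]⟩,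
   ⟨⟨393,0,3⟩, ⟨109,0,2⟩, ⟨pos 318 3, pos 24516 5, pos 1143 4, [(pos 199 4, false), (pos 299 4, false), (pos 312 4, false), (pos 318 4, false), (pos 324 4, true), (pos 349 4, true), (pos 398 4, true), (pos 795 4, true), (pos 159 3, true), (pos 318 3, true)], [pos 1 0], pos 318 3, [pos 1 0]⟩, ⟨1166,0,3⟩, ⟨pos 255 3, pos 24516 5, pos 2086 4, [(pos 319 4, false), (pos 339 4, false), (pos 359 4, true), (pos 399 4, true), (pos 479 4, true), (pos 638 4, true), (pos 1275 4, true), (pos 255 3, true)], [pos 1 0], pos 255 3, [pos 3016 4, pos 3482 4, pos 4413 4, pos 6275 4, pos 1 0]⟩, ⟨1,0,0⟩, ⟨pos 33 2, pos 24516 5, pos 1138 4, [(pos 207 4, false), (pos 259 4, false), (pos 285 4, false), (pos 292 4, false), (pos 298 4, true), (pos 31 3, true), (pos 413 4, true), (pos 825 4, true), (pos 165 3, true), (pos 33 2, true)], [pos 1 0], pos 33 2, [pos 1 0]⟩, ⟨1,0,0⟩, ⟨pos 219 3, pos 24516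 5, pos 2071 4, [(pos 274 4, false), (pos 292 4, false), (pos 309 4, true), (pos 343 4, true), (pos 411 4, true), (pos 548 4, true), (pos 1095 4, true), (pos 219 3, true)], [pos 1 0], pos 219 3, [pos 2678 4, pos 3166 4, pos 4143 4, pos 6095 4, pos 1 0]⟩⟩⟩,
  ⟨⟨26477,0,5⟩, ⟨6762,0,5⟩, [⟨30072,0,5⟩,⟨31165,0,5⟩,⟨33317,0,5⟩,⟨1,0,0⟩], ⟨7677,0,5⟩, [⟨30758,0,5⟩,⟨32922,0,5⟩,⟨37115,0,5⟩,⟨1,0,0⟩], ⟨⟨7678,0,4⟩, [⟨25,0,2⟩,⟨34375,0,5⟩,⟨38477,0,5⟩,⟨404,0,3⟩,⟨1,0,0⟩]⟩, ⟨⟨1089,0,3⟩, [⟨25,0,2⟩,⟨34375,0,5⟩,⟨38477,0,5⟩,⟨404,0,3⟩,⟨1,0,0⟩]⟩, ⟨⟨12721,0,4⟩, [⟨25,0,2⟩,⟨34375,0,5⟩,⟨38477,0,5⟩,⟨404,0,3⟩,⟨1,0,0⟩]⟩,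
   ⟨⟨393,0,3⟩, ⟨109,0,2⟩, ⟨pos 318 3, pos 26477 5, pos 1094 4, [(pos 199 4, false), (pos 299 4, false), (pos 349 4, false), (pos 361 4, false), (pos 368 4, false), (pos 374 4, true), (pos 398 4, true), (pos 795 4, true), (pos 159 3, true), (pos 318 3, true)], [pos 1 0], pos 318 3, [pos 1 0]⟩, ⟨1128,0,3⟩, ⟨pos 249 3, pos 26477 5, pos 209 3, [(pos 312 4, false), (pos 351 4, false), (pos 371 4, false), (pos 381 4, false), (pos 39 3, true), (pos 468 4, true), (pos 623 4, true), (pos 1245 4, true), (pos 249 3, true)], [pos 1 0], pos 249 3, [pos 296 3, pos 3429 4, pos 4368 4, pos 6245 4, pos 1 0]⟩, ⟨1,0,0⟩, ⟨pos 333 3, pos 26477 5, pos 1089 4, [(pos 209 4, false), (pos 313 4, false), (pos 339 4, false), (pos 365 4, true), (pos 417 4, true), (pos 833 4, true), (pos 1665 4, true), (pos 333 3, true)], [pos 1 0], pos 333 3, [pos 1 0]⟩, ⟨1,0,0⟩, ⟨pos 255 3, pos 26477 5, pos 2075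 4, [(pos 319 4, false), (pos 339 4, false), (pos 359 4, true), (pos 399 4, true), (pos 479 4, true), (pos 638 4, true), (pos 1275 4, true), (pos 255 3, true)], [pos 1 0], pos 255 3, [pos 3016 4, pos 3482 4, pos 4413 4, pos 6275 4, pos 1 0]⟩⟩⟩,
  ⟨⟨27857,0,5⟩, ⟨6914,0,5⟩, [⟨30186,0,5⟩,⟨32368,0,5⟩,⟨1,0,0⟩], ⟨7803,0,5⟩, [⟨30853,0,5⟩,⟨33014,0,5⟩,⟨34061,0,5⟩,⟨36122,0,5⟩,⟨1,0,0⟩], ⟨⟨7854,0,4⟩, [⟨25,0,2⟩,⟨34375,0,5⟩,⟨38477,0,5⟩,⟨42323,0,5⟩,⟨1,0,0⟩]⟩, ⟨⟨10182,0,4⟩, [⟨25,0,2⟩,⟨34375,0,5⟩,⟨38477,0,5⟩,⟨42323,0,5⟩,⟨1,0,0⟩]⟩, ⟨⟨12883,0,4⟩, [⟨25,0,2⟩,⟨34375,0,5⟩,⟨38477,0,5⟩,⟨42323,0,5⟩,⟨1,0,0⟩]⟩,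
   ⟨⟨393,0,3⟩, ⟨109,0,2⟩, ⟨pos 33 2, pos 27857 5, pos 1035 4, [(pos 207 4, false), (pos 31 3, false), (pos 362 4, false), (pos 388 4, false), (pos 401 4, false), (pos 407 4, false), (pos 413 4, true), (pos 825 4, true), (pos 165 3, true), (pos 33 2, true)], [pos 1 0], pos 33 2, [pos 1 0]⟩, ⟨1166,0,3⟩, ⟨pos 27 2, pos 27857 5, pos 2089 4, [(pos 338 4, false), (pos 422 4, false), (pos 433 4, false), (pos 443 4, true), (pos 465 4, true), (pos 507 4, true), (pos 675 4, true), (pos 135 3, true), (pos 27 2, true)], [pos 1 0], pos 27 2, [pos 3612 4, pos 4525 4, pos 635 3, pos 1 0]⟩, ⟨1,0,0⟩, ⟨pos 324 3, pos 27857 5, pos 103 3, [(pos 203 4, false), (pos 304 4, false), (pos 354 4, false), (pos 367 4, false), (pos 374 4, false), (pos 38 3, true), (pos 405 4, true), (pos 81 3, true), (pos 162 3, true), (pos 324 3, true)], [pos 1 0], pos 324 3, [pos 1 0]⟩, ⟨1,0,0⟩, ⟨pos 261 3, pos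 27857 5, pos 2068 4, [(pos 327 4, false), (pos 368 4, false), (pos 374 4, false), (pos 379 4, true), (pos 389 4, true), (pos 409 4, true), (pos 49 3, true), (pos 653 4, true), (pos 1305 4, true), (pos 261 3, true)], [pos 1 0], pos 261 3, [pos 3072 4, pos 3534 4, pos 4458 4, pos 6305 4, pos 1 0]⟩⟩⟩,
  ⟨⟨29172,0,5⟩, ⟨7053,0,5⟩, [⟨3029,0,4⟩,⟨34647,0,5⟩,⟨1,0,0⟩], ⟨807,0,4⟩, [⟨31053,0,5⟩,⟨33208,0,5⟩,⟨35296,0,5⟩,⟨1,0,0⟩], ⟨⟨7559,0,4⟩, [⟨25,0,2⟩,⟨34375,0,5⟩,⟨42579,0,5⟩,⟨49757,0,5⟩,⟨1,0,0⟩]⟩, ⟨⟨9608,0,4⟩, [⟨25,0,2⟩,⟨34375,0,5⟩,⟨42579,0,5⟩,⟨49757,0,5⟩,⟨1,0,0⟩]⟩, ⟨⟨12297,0,4⟩, [⟨25,0,2⟩,⟨34375,0,5⟩,⟨42579,0,5⟩,⟨49757,0,5⟩,⟨1,0,0⟩]⟩,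
   ⟨⟨393,0,3⟩, ⟨109,0,2⟩, ⟨pos 315 3, pos 29172 5, pos 1014 4, [(pos 394 4, false), (pos 444 4, false), (pos 493 4, true), (pos 591 4, true), (pos 788 4, true), (pos 1575 4, true), (pos 315 3, true)], [pos 1 0], pos 315 3, [pos 4863 4, pos 6575 4, pos 1 0]⟩, ⟨1166,0,3⟩, ⟨pos 237 3, pos 29172 5, pos 2106 4, [(pos 297 4, false), (pos 445 4, false), (pos 463 4, false), (pos 473 4, false), (pos 482 4, true), (pos 519 4, true), (pos 593 4, true), (pos 1185 4, true), (pos 237 3, true)], [pos 1 0], pos 237 3, [pos 2847 4, pos 3324 4, pos 4278 4, pos 6185 4, pos 1 0]⟩, ⟨1,0,0⟩, ⟨pos 327 3, pos 29172 5, pos 1008 4, [(pos 409 4, false), (pos 818 4, true), (pos 1635 4, true), (pos 327 3, true)], [pos 1 0], pos 327 3, [pos 1 0]⟩, ⟨1,0,0⟩, ⟨pos 261 3, pos 29172 5, pos 2081 4, [(pos 327 4, false), (pos 409 4, false), (pos 49 3, true), (pos 653 4, true), (pos 1305 4, true), (pos 261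 3, true)], [pos 1 0], pos 261 3, [pos 3072 4, pos 3534 4, pos 4458 4, pos 6305 4, pos 1 0]⟩⟩⟩,
  ⟨⟨30431,0,5⟩, ⟨7175,0,5⟩, [⟨30382,0,5⟩,⟨32558,0,5⟩,⟨1,0,0⟩], ⟨8116,0,5⟩, [⟨31087,0,5⟩,⟨35395,0,5⟩,⟨1,0,0⟩], ⟨⟨7803,0,4⟩, [⟨25,0,2⟩,⟨4375,0,4⟩,⟨47266,0,5⟩,⟨1,0,0⟩]⟩, ⟨⟨8974,0,4⟩, [⟨25,0,2⟩,⟨4375,0,4⟩,⟨47266,0,5⟩,⟨1,0,0⟩]⟩, ⟨⟨10797,0,4⟩, [⟨25,0,2⟩,⟨4375,0,4⟩,⟨47266,0,5⟩,⟨1,0,0⟩]⟩,
   ⟨⟨393,0,3⟩, ⟨109,0,2⟩, ⟨pos 327 3, pos 30431 5, pos 953 4, [(pos 409 4, false), (pos 461 4, false), (pos 474 4, false), (pos 481 4, false), (pos 487 4, true), (pos 512 4, true), (pos 614 4, true), (pos 818 4, true), (pos 1635 4, true), (pos 327 3, true)], [pos 1 0], pos 327 3, [pos 1 0]⟩, ⟨1166,0,3⟩, ⟨pos 285 3, pos 30431 5, pos 2102 4, [(pos 357 4, false), (pos 446 4, false), (pos 491 4, false), (pos 513 4, false), (pos 535 4, true), (pos 713 4, true), (pos 1425 4, true), (pos 285 3, true)], [pos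 1 0], pos 285 3, [pos 1 0]⟩, ⟨1,0,0⟩, ⟨pos 333 3, pos 30431 5, pos 947 4, [(pos 417 4, false), (pos 443 4, false), (pos 469 4, true), (pos 521 4, true), (pos 625 4, true), (pos 833 4, true), (pos 1665 4, true), (pos 333 3, true)], [pos 1 0], pos 333 3, [pos 1 0]⟩, ⟨1,0,0⟩, ⟨pos 276 3, pos 30431 5, pos 2075 4, [(pos 345 4, false), (pos 432 4, false), (pos 443 4, false), (pos 453 4, true), (pos 475 4, true), (pos 518 4, true), (pos 69 3, true), (pos 138 3, true), (pos 276 3, true)], [pos 1 0], pos 276 3, [pos 3213 4, pos 3665 4, pos 457 3, pos 638 3, pos 1 0]⟩⟩⟩,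
  ⟨⟨31639,0,5⟩, ⟨7295,0,5⟩, [⟨30472,0,5⟩,⟨34818,0,5⟩,⟨1,0,0⟩], ⟨8404,0,5⟩, [⟨31303,0,5⟩,⟨3345,0,4⟩,⟨3553,0,4⟩,⟨1,0,0⟩], ⟨⟨7458,0,4⟩, [⟨25,0,2⟩,⟨4375,0,4⟩,⟨47266,0,5⟩,⟨1,0,0⟩]⟩, ⟨⟨871,0,3⟩, [⟨25,0,2⟩,⟨4375,0,4⟩,⟨47266,0,5⟩,⟨1,0,0⟩]⟩, ⟨⟨10063,0,4⟩, [⟨25,0,2⟩,⟨4375,0,4⟩,⟨47266,0,5⟩,⟨1,0,0⟩]⟩,
   ⟨⟨393,0,3⟩, ⟨109,0,2⟩, ⟨pos 315 3, pos 31639 5, pos 947 4, [(pos 394 4, false), (pos 493 4, false), (pos 518 4, false), (pos 542 4, true), (pos 591 4, true), (pos 788 4, true), (pos 1575 4, true), (pos 315 3, true)], [pos 1 0], pos 315 3, [pos 4007 4, pos 4863 4, pos 6575 4, pos 1 0]⟩, ⟨1166,0,3⟩, ⟨pos 279 3, pos 31639 5, pos 213 3, [(pos 349 4, false), (pos 524 4, false), (pos 546 4, false), (pos 552 4, false), (pos 557 4, true), (pos 568 4, true), (pos 611 4, true), (pos 698 4, true), (pos 1395 4, true), (pos 279 3, true)], [pos 1 0], pos 279 3, [pos 1 0]⟩, ⟨1,0,0⟩, ⟨pos 33 2,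 pos 31639 5, pos 941 4, [(pos 413 4, false), (pos 465 4, false), (pos 478 4, false), (pos 491 4, true), (pos 516 4, true), (pos 619 4, true), (pos 825 4, true), (pos 165 3, true), (pos 33 2, true)], [pos 1 0], pos 33 2, [pos 1 0]⟩, ⟨1,0,0⟩, ⟨pos 252 3, pos 31639 5, pos 2099 4, [(pos 315 4, false), (pos 472 4, false), (pos 477 4, false), (pos 482 4, true), (pos 491 4, true), (pos 511 4, true), (pos 551 4, true), (pos 63 3, true), (pos 126 3, true), (pos 252 3, true)], [pos 1 0], pos 252 3, [pos 2987 4, pos 3455 4, pos 439 3, pos 626 3, pos 1 0]⟩⟩⟩,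
  ⟨⟨32803,0,5⟩, ⟨74,0,3⟩, [⟨3055,0,4⟩,⟨32721,0,5⟩,⟨41131,0,5⟩,⟨1,0,0⟩], ⟨8556,0,5⟩, [⟨31417,0,5⟩,⟨35704,0,5⟩,⟨1,0,0⟩], ⟨⟨7999,0,4⟩, [⟨25,0,2⟩,⟨4375,0,4⟩,⟨47266,0,5⟩,⟨50562,0,5⟩,⟨1,0,0⟩]⟩, ⟨⟨8246,0,4⟩, [⟨25,0,2⟩,⟨4375,0,4⟩,⟨47266,0,5⟩,⟨50562,0,5⟩,⟨1,0,0⟩]⟩, ⟨⟨995,0,3⟩, [⟨25,0,2⟩,⟨4375,0,4⟩,⟨47266,0,5⟩,⟨50562,0,5⟩,⟨1,0,0⟩]⟩,
   ⟨⟨393,0,3⟩, ⟨109,0,2⟩, ⟨pos 333 3, pos 32803 5, pos 918 4, [(pos 417 4, false), (pos 521 4, false), (pos 547 4, false), (pos 554 4, false), (pos 56 3, true), (pos 573 4, true), (pos 625 4, true), (pos 833 4, true), (pos 1665 4, true), (pos 333 3, true)], [pos 1 0], pos 333 3, [pos 1 0]⟩, ⟨1166,0,3⟩, ⟨pos 288 3, pos 32803 5, pos 2143 4, [(pos 36 3, false), (pos 54 3, false), (pos 585 4, false), (pos 591 4, false), (pos 597 4, true), (pos 608 4, true), (pos 63 3, true), (pos 72 3, true), (pos 144 3, true), (pos 288 3, true)], [pos 1 0], pos 288 3,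 [pos 1 0]⟩, ⟨1,0,0⟩, ⟨pos 327 3, pos 32803 5, pos 912 4, [(pos 409 4, false), (pos 512 4, false), (pos 614 4, true), (pos 818 4, true), (pos 1635 4, true), (pos 327 3, true)], [pos 1 0], pos 327 3, [pos 1 0]⟩, ⟨1,0,0⟩, ⟨pos 267 3, pos 32803 5, pos 2113 4, [(pos 334 4, false), (pos 501 4, false), (pos 511 4, false), (pos 522 4, true), (pos 543 4, true), (pos 585 4, true), (pos 668 4, true), (pos 1335 4, true), (pos 267 3, true)], [pos 1 0], pos 267 3, [pos 1 0]⟩⟩⟩,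
  ⟨⟨33927,0,5⟩, ⟨7504,0,5⟩, [⟨30628,0,5⟩,⟨34964,0,5⟩,⟨1,0,0⟩], ⟨8697,0,5⟩, [⟨31523,0,5⟩,⟨35803,0,5⟩,⟨36305,0,5⟩,⟨1,0,0⟩], ⟨⟨7757,0,4⟩, [⟨5,0,1⟩,⟨53125,0,5⟩,⟨1,0,0⟩]⟩, ⟨⟨7939,0,4⟩, [⟨5,0,1⟩,⟨53125,0,5⟩,⟨1,0,0⟩]⟩, ⟨⟨9528,0,4⟩, [⟨5,0,1⟩,⟨53125,0,5⟩,⟨1,0,0⟩]⟩,
   ⟨⟨393,0,3⟩, ⟨109,0,2⟩, ⟨pos 318 3, pos 33927 5, pos 892 4, [(pos 398 4, false), (pos 498 4, false), (pos 548 4, false), (pos 573 4, false), (pos 585 4, false), (pos 591 4, false), (pos 597 4, true), (pos 795 4, true), (pos 159 3, true), (pos 318 3, true)], [pos 1 0], pos 318 3, [pos 1 0]⟩, ⟨1166,0,3⟩, ⟨pos 264 3, pos 33927 5, pos 2174 4, [(pos 33 3, false), (pos 495 4, false), (pos 578 4, false), (pos 619 4, false), (pos 629 4, false), (pos 639 4, true), (pos 66 3, true), (pos 132 3, true), (pos 264 3, true)], [pos 1 0], pos 264 3, [pos 1 0]⟩, ⟨1,0,0⟩, ⟨pos 327 3, pos 33927 5, pos 885 4, [(pos 409 4, false), (pos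 512 4, false), (pos 538 4, false), (pos 545 4, false), (pos 551 4, true), (pos 563 4, true), (pos 614 4, true), (pos 818 4, true), (pos 1635 4, true), (pos 327 3, true)], [pos 1 0], pos 327 3, [pos 1 0]⟩, ⟨1,0,0⟩, ⟨pos 258 3, pos 33927 5, pos 2132 4, [(pos 323 4, false), (pos 484 4, false), (pos 525 4, false), (pos 545 4, false), (pos 565 4, true), (pos 645 4, true), (pos 129 3, true), (pos 258 3, true)], [pos 1 0], pos 258 3, [pos 1 0]⟩⟩⟩,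
  ⟨⟨3607,0,4⟩, ⟨7682,0,5⟩, [⟨30762,0,5⟩,⟨32926,0,5⟩,⟨37119,0,5⟩,⟨1,0,0⟩], ⟨896,0,4⟩, [⟨3172,0,4⟩,⟨35988,0,5⟩,⟨39989,0,5⟩,⟨1,0,0⟩], ⟨⟨7626,0,4⟩, [⟨5,0,1⟩,⟨53125,0,5⟩,⟨5459,0,4⟩,⟨1,0,0⟩]⟩, ⟨⟨7361,0,4⟩, [⟨5,0,1⟩,⟨53125,0,5⟩,⟨5459,0,4⟩,⟨1,0,0⟩]⟩, ⟨⟨8481,0,4⟩, [⟨5,0,1⟩,⟨53125,0,5⟩,⟨5459,0,4⟩,⟨1,0,0⟩]⟩,
   ⟨⟨383,0,3⟩, ⟨109,0,2⟩, ⟨pos 3 1, pos 3607 4, pos 844 4, [(pos 375 4, false), (pos 563 4, false), (pos 657 4, false), (pos 663 4, false), (pos 669 4, true), (pos 681 4, true), (pos 704 4, true), (pos 75 3, true), (pos 15 2, true), (pos 3 1, true)], [pos 1 0], pos 3 1, [pos 3875 4, pos 475 3, pos 65 2, pos 1 0]⟩, ⟨1149,0,3⟩, ⟨pos 294 3, pos 3607 4, pos 2193 4, [(pos 368 4, false), (pos 552 4, false), (pos 644 4, false), (pos 69 3, false), (pos 696 4, false), (pos 702 4, true), (pos 713 4, true), (pos 735 4, true), (pos 147 3, true), (pos 294 3, true)], [pos 1 0], pos 294 3,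 [pos 1 0]⟩, ⟨1,0,0⟩, ⟨pos 303 3, pos 3607 4, pos 836 4, [(pos 379 4, false), (pos 569 4, false), (pos 593 4, false), (pos 605 4, false), (pos 611 4, false), (pos 617 4, true), (pos 664 4, true), (pos 758 4, true), (pos 1515 4, true), (pos 303 3, true)], [pos 1 0], pos 303 3, [pos 3902 4, pos 4773 4, pos 6515 4, pos 1 0]⟩, ⟨1,0,0⟩, ⟨pos 303 3, pos 3607 4, pos 2152 4, [(pos 379 4, false), (pos 569 4, false), (pos 593 4, false), (pos 605 4, false), (pos 611 4, false), (pos 617 4, true), (pos 664 4, true), (pos 758 4, true), (pos 1515 4, true), (pos 303 3, true)], [pos 1 0], pos 303 3, [pos 1 0]⟩⟩⟩,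
  ⟨⟨3743,0,4⟩, ⟨7792,0,5⟩, [⟨30844,0,5⟩,⟨35167,0,5⟩,⟨1,0,0⟩], ⟨9119,0,5⟩, [⟨3184,0,4⟩,⟨361,0,3⟩,⟨40094,0,5⟩,⟨1,0,0⟩], ⟨⟨7756,0,4⟩, [⟨5,0,1⟩,⟨5625,0,4⟩,⟨1,0,0⟩]⟩, ⟨⟨7762,0,4⟩, [⟨5,0,1⟩,⟨5625,0,4⟩,⟨1,0,0⟩]⟩, ⟨⟨7575,0,4⟩, [⟨5,0,1⟩,⟨5625,0,4⟩,⟨1,0,0⟩]⟩,
   ⟨⟨375,0,3⟩, ⟨125,0,2⟩, ⟨pos 33 2, pos 3743 4, pos 829 4, [(pos 413 4, false), (pos 619 4, false), (pos 722 4, false), (pos 774 4, false), (pos 8 2, false), (pos 806 4, false), (pos 813 4, true), (pos 825 4, true), (pos 165 3, true), (pos 33 2, true)], [pos 1 0], pos 33 2, [pos 1 0]⟩, ⟨741,0,3⟩, ⟨pos 297 3, pos 3743 4, pos 2113 4, [(pos 372 4, false), (pos 465 4, false), (pos 488 4, false), (pos 494 4, false), (pos 5 2, true), (pos 511 4, true), (pos 558 4, true), (pos 743 4, true), (pos 1485 4, true), (pos 297 3, true)], [pos 1 0], pos 297 3, [pos 1 0]⟩, ⟨1,0,0⟩, ⟨pos 291 3, pos 3743 4, pos 807 4, [(pos 364 4, false),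 (pos 546 4, false), (pos 637 4, false), (pos 649 4, false), (pos 655 4, false), (pos 66 3, true), (pos 683 4, true), (pos 728 4, true), (pos 1455 4, true), (pos 291 3, true)], [pos 1 0], pos 291 3, [pos 3354 4, pos 3797 4, pos 4683 4, pos 6455 4, pos 1 0]⟩, ⟨1,0,0⟩, ⟨pos 291 3, pos 3743 4, pos 2184 4, [(pos 364 4, false), (pos 546 4, false), (pos 637 4, false), (pos 649 4, false), (pos 655 4, false), (pos 66 3, true), (pos 683 4, true), (pos 728 4, true), (pos 1455 4, true), (pos 291 3, true)], [pos 1 0], pos 291 3, [pos 1 0]⟩⟩⟩,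
  ⟨⟨38743,0,5⟩, ⟨7895,0,5⟩, [⟨30922,0,5⟩,⟨3524,0,4⟩,⟨1,0,0⟩], ⟨9269,0,5⟩, [⟨31952,0,5⟩,⟨36205,0,5⟩,⟨40193,0,5⟩,⟨1,0,0⟩], ⟨⟨7686,0,4⟩, [⟨5,0,1⟩,⟨5625,0,4⟩,⟨58985,0,5⟩,⟨1,0,0⟩]⟩, ⟨⟨7627,0,4⟩, [⟨5,0,1⟩,⟨5625,0,4⟩,⟨58985,0,5⟩,⟨1,0,0⟩]⟩, ⟨⟨7599,0,4⟩, [⟨5,0,1⟩,⟨5625,0,4⟩,⟨58985,0,5⟩,⟨1,0,0⟩]⟩,
   ⟨⟨375,0,3⟩, ⟨125,0,2⟩, ⟨pos 309 3, pos 38743 5, pos 807 4, [(pos 773 4, false), (pos 822 4, false), (pos 846 4, false), (pos 858 4, false), (pos 87 3, true), (pos 966 4, true), (pos 1159 4, true), (pos 1545 4, true), (pos 309 3, true)], [pos 1 0], pos 309 3, [pos 1 0]⟩, ⟨748,0,3⟩, ⟨pos 309 3, pos 38743 5, pos 2134 4, [(pos 387 4, false), (pos 484 4, false), (pos 532 4, false), (pos 58 3, true), (pos 773 4, true), (pos 1545 4, true), (pos 309 3, true)], [pos 1 0], pos 309 3, [pos 1 0]⟩, ⟨1,0,0⟩, ⟨pos 303 3, pos 38743 5, pos 781 4, [(pos 379 4, false), (pos 569 4, false), (pos 664 4,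 false), (pos 687 4, false), (pos 699 4, false), (pos 711 4, true), (pos 758 4, true), (pos 1515 4, true), (pos 303 3, true)], [pos 1 0], pos 303 3, [pos 3902 4, pos 4773 4, pos 6515 4, pos 1 0]⟩, ⟨1,0,0⟩, ⟨pos 303 3, pos 38743 5, pos 2204 4, [(pos 379 4, false), (pos 569 4, false), (pos 664 4, false), (pos 687 4, false), (pos 699 4, false), (pos 711 4, true), (pos 758 4, true), (pos 1515 4, true), (pos 303 3, true)], [pos 1 0], pos 303 3, [pos 1 0]⟩⟩⟩,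
  ⟨⟨41244,0,5⟩, ⟨8075,0,5⟩, [⟨31057,0,5⟩,⟨35366,0,5⟩,⟨1,0,0⟩], ⟨9537,0,5⟩, [⟨32153,0,5⟩,⟨36394,0,5⟩,⟨37388,0,5⟩,⟨38367,0,5⟩,⟨1,0,0⟩], ⟨⟨7258,0,4⟩, [⟨5,0,1⟩,⟨5625,0,4⟩,⟨61719,0,5⟩,⟨7129,0,4⟩,⟨1,0,0⟩]⟩, ⟨⟨7096,0,4⟩, [⟨5,0,1⟩,⟨5625,0,4⟩,⟨61719,0,5⟩,⟨7129,0,4⟩,⟨1,0,0⟩]⟩, ⟨⟨7101,0,4⟩, [⟨5,0,1⟩,⟨5625,0,4⟩,⟨61719,0,5⟩,⟨7129,0,4⟩,⟨1,0,0⟩]⟩,
   ⟨⟨375,0,3⟩, ⟨125,0,2⟩, ⟨pos 315 3, pos 41244 5, pos 763 4, [(pos 788 4, false), (pos 887 4, false), (pos 936 4, false), (pos 961 4, false), (pos 985 4, true), (pos 1182 4, true), (pos 1575 4, true), (pos 315 3, true)], [pos 1 0], pos 315 3, [pos 1 0]⟩, ⟨748,0,3⟩, ⟨pos 303 3, pos 41244 5, pos 2185 4, [(pos 379 4, false), (pos 569 4, false), (pos 593 4, false), (pos 599 4, false), (pos 605 4, true), (pos 617 4, true), (pos 664 4, true), (pos 758 4, true), (pos 1515 4, true), (pos 303 3, true)], [pos 1 0], pos 303 3, [pos 1 0]⟩, ⟨1,0,0⟩,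 ⟨pos 321 3, pos 41244 5, pos 734 4, [(pos 401 4, false), (pos 602 4, false), (pos 702 4, false), (pos 752 4, false), (pos 777 4, false), (pos 784 4, false), (pos 79 3, true), (pos 802 4, true), (pos 1605 4, true), (pos 321 3, true)], [pos 1 0], pos 321 3, [pos 1 0]⟩, ⟨1,0,0⟩, ⟨pos 297 3, pos 41244 5, pos 2273 4, [(pos 743 4, false), (pos 767 4, false), (pos 778 4, false), (pos 784 4, false), (pos 79 3, true), (pos 836 4, true), (pos 929 4, true), (pos 1114 4, true), (pos 1485 4, true), (pos 297 3, true)], [pos 1 0], pos 297 3, [pos 1 0]⟩⟩⟩,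
  ⟨⟨44057,0,5⟩, ⟨7621,0,5⟩, [⟨30716,0,5⟩,⟨35047,0,5⟩,⟨39107,0,5⟩,⟨1,0,0⟩], ⟨9828,0,5⟩, [⟨32371,0,5⟩,⟨36598,0,5⟩,⟨3858,0,4⟩,⟨1,0,0⟩], ⟨⟨6768,0,4⟩, [⟨5,0,1⟩,⟨625,0,3⟩,⟨64844,0,5⟩,⟨65943,0,5⟩,⟨67008,0,5⟩,⟨1,0,0⟩]⟩, ⟨⟨6635,0,4⟩, [⟨5,0,1⟩,⟨625,0,3⟩,⟨64844,0,5⟩,⟨65943,0,5⟩,⟨67008,0,5⟩,⟨1,0,0⟩]⟩, ⟨⟨6662,0,4⟩, [⟨5,0,1⟩,⟨625,0,3⟩,⟨64844,0,5⟩,⟨65943,0,5⟩,⟨67008,0,5⟩,⟨1,0,0⟩]⟩,
   ⟨⟨414,0,3⟩, ⟨1028,0,3⟩, ⟨pos 327 3, pos 44057 5, pos 688 4, [(pos 818 4, false), (pos 87 3, false), (pos 896 4, false), (pos 908 4, false), (pos 921 4, true), (pos 1023 4, true), (pos 1227 4, true), (pos 1635 4, true), (pos 327 3, true)], [pos 1 0], pos 327 3, [pos 1 0]⟩, ⟨739,0,3⟩, ⟨pos 333 3, pos 44057 5, pos 2227 4, [(pos 417 4, false), (pos 625 4, false), (pos 651 4, false), (pos 664 4, false), (pos 67 3, false), (pos 677 4, true), (pos 729 4, true), (pos 833 4, true), (pos 1665 4, true), (pos 333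 3, true)], [pos 1 0], pos 333 3, [pos 1 0]⟩, ⟨1,0,0⟩, ⟨pos 333 3, pos 44057 5, pos 684 4, [(pos 833 4, false), (pos 885 4, false), (pos 937 4, true), (pos 1041 4, true), (pos 1249 4, true), (pos 1665 4, true), (pos 333 3, true)], [pos 1 0], pos 333 3, [pos 1 0]⟩, ⟨1,0,0⟩, ⟨pos 321 3, pos 44057 5, pos 2326 4, [(pos 802 4, false), (pos 853 4, false), (pos 878 4, false), (pos 885 4, false), (pos 891 4, true), (pos 903 4, true), (pos 1003 4, true), (pos 1204 4, true), (pos 1605 4, true), (pos 321 3, true)], [pos 1 0], pos 321 3, [pos 1 0]⟩⟩⟩,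
  ⟨⟨46915,0,5⟩, ⟨7637,0,5⟩, [⟨30728,0,5⟩,⟨35058,0,5⟩,⟨39117,0,5⟩,⟨1,0,0⟩], ⟨10106,0,5⟩, [⟨3258,0,4⟩,⟨36794,0,5⟩,⟨3877,0,4⟩,⟨46424,0,5⟩,⟨1,0,0⟩], ⟨⟨6432,0,4⟩, [⟨5,0,1⟩,⟨625,0,3⟩,⟨71875,0,5⟩,⟨1,0,0⟩]⟩, ⟨⟨6367,0,4⟩, [⟨5,0,1⟩,⟨625,0,3⟩,⟨71875,0,5⟩,⟨1,0,0⟩]⟩, ⟨⟨6334,0,4⟩, [⟨5,0,1⟩,⟨625,0,3⟩,⟨71875,0,5⟩,⟨1,0,0⟩]⟩,
   ⟨⟨435,0,3⟩, ⟨1028,0,3⟩, ⟨pos 327 3, pos 46915 5, pos 643 4, [(pos 818 4, false), (pos 921 4, false), (pos 972 4, false), (pos 998 4, false), (pos 1011 4, false), (pos 1017 4, false), (pos 1023 4, true), (pos 1227 4, true), (pos 1635 4, true), (pos 327 3, true)], [pos 1 0], pos 327 3, [pos 1 0]⟩, ⟨608,0,3⟩, ⟨pos 324 3, pos 46915 5, pos 2259 4, [(pos 405 4, false), (pos 608 4, false), (pos 621 4, false), (pos 628 4, false), (pos 634 4, true), (pos 659 4, true), (pos 709 4, true), (pos 81 3, true), (pos 162 3, true), (pos 324 3, true)], [pos 1 0], pos 324 3, [pos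 1 0]⟩, ⟨1,0,0⟩, ⟨pos 327 3, pos 46915 5, pos 64 3, [(pos 818 4, false), (pos 921 4, false), (pos 972 4, false), (pos 985 4, false), (pos 992 4, false), (pos 998 4, true), (pos 1023 4, true), (pos 1227 4, true), (pos 1635 4, true), (pos 327 3, true)], [pos 1 0], pos 327 3, [pos 1 0]⟩, ⟨1,0,0⟩, ⟨pos 327 3, pos 46915 5, pos 2414 4, [(pos 818 4, false), (pos 921 4, false), (pos 972 4, false), (pos 985 4, false), (pos 992 4, false), (pos 998 4, true), (pos 1023 4, true), (pos 1227 4, true), (pos 1635 4, true), (pos 327 3, true)], [pos 1 0], pos 327 3, [pos 1 0]⟩⟩⟩,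
  ⟨⟨49,0,2⟩, ⟨8516,0,5⟩, [⟨31387,0,5⟩,⟨35676,0,5⟩,⟨1,0,0⟩], ⟨103,0,3⟩, [⟨32725,0,5⟩,⟨3693,0,4⟩,⟨38901,0,5⟩,⟨4272,0,4⟩,⟨1,0,0⟩], ⟨⟨5986,0,4⟩, [⟨5,0,1⟩,⟨75,0,2⟩,⟨76563,0,5⟩,⟨1,0,0⟩]⟩, ⟨⟨5816,0,4⟩, [⟨5,0,1⟩,⟨75,0,2⟩,⟨76563,0,5⟩,⟨1,0,0⟩]⟩, ⟨⟨5741,0,4⟩, [⟨5,0,1⟩,⟨75,0,2⟩,⟨76563,0,5⟩,⟨1,0,0⟩]⟩,
   ⟨⟨352,0,3⟩, ⟨783,0,3⟩, ⟨pos 321 3, pos 49001 5, pos 582 4, [(pos 802 4, false), (pos 853 4, false), (pos 86 3, false), (pos 866 4, true), (pos 878 4, true), (pos 903 4, true), (pos 1003 4, true), (pos 1204 4, true), (pos 1605 4, true), (pos 321 3, true)], [pos 1 0], pos 321 3, [pos 1 0]⟩, ⟨761,0,3⟩, ⟨pos 33 2, pos 49001 5, pos 2392 4, [(pos 825 4, false), (pos 838 4, false), (pos 851 4, true), (pos 877 4, true), (pos 929 4, true), (pos 1032 4, true), (pos 1238 4, true), (pos 165 3, true), (pos 33 2, true)], [pos 1 0], pos 33 2, [pos 1 0]⟩, ⟨1,0,0⟩, ⟨pos 315 3, pos 49001 5, pos 613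 4, [(pos 788 4, false), (pos 985 4, false), (pos 1035 4, false), (pos 106 3, false), (pos 1072 4, false), (pos 1084 4, true), (pos 1182 4, true), (pos 1575 4, true), (pos 315 3, true)], [pos 1 0], pos 315 3, [pos 1 0]⟩, ⟨1,0,0⟩, ⟨pos 315 3, pos 49001 5, pos 2528 4, [(pos 788 4, false), (pos 985 4, false), (pos 1035 4, false), (pos 106 3, false), (pos 1072 4, false), (pos 1084 4, true), (pos 1182 4, true), (pos 1575 4, true), (pos 315 3, true)], [pos 1 0], pos 315 3, [pos 1 0]⟩⟩⟩,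
  ⟨⟨51972,0,5⟩, ⟨8232,0,5⟩, [⟨31174,0,5⟩,⟨35476,0,5⟩,⟨37493,0,5⟩,⟨1,0,0⟩], ⟨10563,0,5⟩, [⟨32923,0,5⟩,⟨37116,0,5⟩,⟨39082,0,5⟩,⟨4289,0,4⟩,⟨1,0,0⟩], ⟨⟨5891,0,4⟩, [⟨5,0,1⟩,⟨75,0,2⟩,⟨8125,0,4⟩,⟨1,0,0⟩]⟩, ⟨⟨5332,0,4⟩, [⟨5,0,1⟩,⟨75,0,2⟩,⟨8125,0,4⟩,⟨1,0,0⟩]⟩, ⟨⟨5271,0,4⟩, [⟨5,0,1⟩,⟨75,0,2⟩,⟨8125,0,4⟩,⟨1,0,0⟩]⟩,
   ⟨⟨344,0,3⟩, ⟨896,0,3⟩, ⟨pos 333 3, pos 51972 5, pos 555 4, [(pos 833 4, false), (pos 1041 4, false), (pos 1067 4, false), (pos 108 3, false), (pos 1093 4, true), (pos 1145 4, true), (pos 1249 4, true), (pos 1665 4, true), (pos 333 3, true)], [pos 1 0], pos 333 3, [pos 1 0]⟩, ⟨646,0,3⟩, ⟨pos 3 1, pos 51972 5, pos 249 3, [(pos 75 3, false), (pos 797 4, false), (pos 803 4, false), (pos 809 4, true), (pos 82 3, true), (pos 844 4, true), (pos 938 4, true), (pos 1125 4, true), (pos 15 2, true), (pos 3 1, true)], [pos 1 0], pos 3 1, [pos 1 0]⟩, ⟨1,0,0⟩, ⟨pos 324 3, pos 51972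 5, pos 571 4, [(pos 81 3, false), (pos 1013 4, false), (pos 1114 4, false), (pos 1165 4, false), (pos 119 3, false), (pos 1215 4, true), (pos 162 3, true), (pos 324 3, true)], [pos 1 0], pos 324 3, [pos 1 0]⟩, ⟨1,0,0⟩, ⟨pos 324 3, pos 51972 5, pos 2651 4, [(pos 81 3, false), (pos 1013 4, false), (pos 1114 4, false), (pos 1165 4, false), (pos 119 3, false), (pos 1215 4, true), (pos 162 3, true), (pos 324 3, true)], [pos 1 0], pos 324 3, [pos 1 0]⟩⟩⟩,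
  ⟨⟨55236,0,5⟩, ⟨8086,0,5⟩, [⟨31065,0,5⟩,⟨35374,0,5⟩,⟨39414,0,5⟩,⟨1,0,0⟩], ⟨10834,0,5⟩, [⟨33126,0,5⟩,⟨37306,0,5⟩,⟨39266,0,5⟩,⟨41164,0,5⟩,⟨1,0,0⟩], ⟨⟨6061,0,4⟩, [⟨5,0,1⟩,⟨75,0,2⟩,⟨875,0,3⟩,⟨1,0,0⟩]⟩, ⟨⟨5273,0,4⟩, [⟨5,0,1⟩,⟨75,0,2⟩,⟨875,0,3⟩,⟨1,0,0⟩]⟩, ⟨⟨5114,0,4⟩, [⟨5,0,1⟩,⟨75,0,2⟩,⟨875,0,3⟩,⟨1,0,0⟩]⟩,
   ⟨⟨393,0,3⟩, ⟨1294,0,3⟩, ⟨pos 321 3, pos 55236 5, pos 591 4, [(pos 1605 4, false), (pos 163 3, false), (pos 1643 4, false), (pos 1649 4, false), (pos 1655 4, true), (pos 1705 4, true), (pos 1806 4, true), (pos 2007 4, true), (pos 2408 4, true), (pos 321 3, true)], [pos 1 0], pos 321 3, [pos 1 0]⟩, ⟨744,0,3⟩, ⟨pos 33 2, pos 55236 5, pos 2655 4, [(pos 825 4, false), (pos 929 4, false), (pos 981 4, false), (pos 1007 4, false), (pos 102 3, false), (pos 1032 4, true), (pos 1238 4, true), (pos 165 3, true), (pos 33 2, true)], [pos 1 0], pos 33 2, [pos 1 0]⟩, ⟨1,0,0⟩, ⟨pos 324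 3, pos 55236 5, pos 532 4, [(pos 81 3, false), (pos 1215 4, false), (pos 1317 4, false), (pos 1324 4, false), (pos 133 3, true), (pos 1343 4, true), (pos 1368 4, true), (pos 1418 4, true), (pos 162 3, true), (pos 324 3, true)], [pos 1 0], pos 324 3, [pos 1 0]⟩, ⟨1,0,0⟩, ⟨pos 324 3, pos 55236 5, pos 2848 4, [(pos 81 3, false), (pos 1215 4, false), (pos 1317 4, false), (pos 1324 4, false), (pos 133 3, true), (pos 1343 4, true), (pos 1368 4, true), (pos 1418 4, true), (pos 162 3, true), (pos 324 3, true)], [pos 1 0], pos 324 3, [pos 1 0]⟩⟩⟩,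
  ⟨⟨57736,0,5⟩, ⟨7517,0,5⟩, [⟨30638,0,5⟩,⟨39309,0,5⟩,⟨1,0,0⟩], ⟨11034,0,5⟩, [⟨33276,0,5⟩,⟨37447,0,5⟩,⟨41357,0,5⟩,⟨1,0,0⟩], ⟨⟨5536,0,4⟩, [⟨5,0,1⟩,⟨75,0,2⟩,⟨875,0,3⟩,⟨90625,0,5⟩,⟨92969,0,5⟩,⟨1,0,0⟩]⟩, ⟨⟨5082,0,4⟩, [⟨5,0,1⟩,⟨75,0,2⟩,⟨875,0,3⟩,⟨90625,0,5⟩,⟨92969,0,5⟩,⟨1,0,0⟩]⟩, ⟨⟨4923,0,4⟩, [⟨5,0,1⟩,⟨75,0,2⟩,⟨875,0,3⟩,⟨90625,0,5⟩,⟨92969,0,5⟩,⟨1,0,0⟩]⟩,
   ⟨⟨35,0,2⟩, ⟨15,0,1⟩, ⟨pos 321 3, pos 57736 5, pos 621 4, [(pos 1605 4, false), (pos 1806 4, false), (pos 1907 4, false), (pos 1957 4, false), (pos 1982 4, false), (pos 1995 4, false), (pos 2001 4, false), (pos 2007 4, true), (pos 2408 4, true), (pos 321 3, true)], [pos 1 0], pos 321 3, [pos 1 0]⟩, ⟨638,0,3⟩, ⟨pos 33 2, pos 57736 5, pos 2722 4, [(pos 825 4, false), (pos 929 4, false), (pos 955 4, false), (pos 962 4, false), (pos 968 4, true), (pos 981 4, true), (pos 1032 4, true), (pos 1238 4, true), (pos 165 3, true), (pos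 33 2, true)], [pos 1 0], pos 33 2, [pos 1 0]⟩, ⟨1,0,0⟩, ⟨pos 306 3, pos 57736 5, pos 514 4, [(pos 765 4, false), (pos 1148 4, false), (pos 1339 4, false), (pos 1387 4, false), (pos 1411 4, false), (pos 1423 4, false), (pos 1429 4, false), (pos 1435 4, true), (pos 153 3, true), (pos 306 3, true)], [pos 1 0], pos 306 3, [pos 1 0]⟩, ⟨1,0,0⟩, ⟨pos 306 3, pos 57736 5, pos 3148 4, [(pos 765 4, false), (pos 1148 4, false), (pos 1339 4, false), (pos 1387 4, false), (pos 1411 4, false), (pos 1423 4, false), (pos 1429 4, false), (pos 1435 4, true), (pos 153 3, true), (pos 306 3, true)], [pos 1 0], pos 306 3, [pos 1 0]⟩⟩⟩]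

theorem kAll_ok : kAll al dl = true := by decide +kernel

theorem covers_ok : covers tl dl = true := by decide +kernel

theorem kOk : ∀ D, Pool.Agent.TSM.RD D → KOk (knAt dl d7 D) D := hk_of covers_ok kAll_ok d7

theorem q0_7 : sel t0.x.x 7 = v0_7 := rfl

theorem q1_7 : sel t1.x.x 7 = v1_7 := rfl

theorem q2_7 : sel t2.x.x 7 = v2_7 := rfl

theorem q3_7 : sel t3.x.x 7 = v3_7 := rfl

theorem q4_7 : sel t4.x.x 7 = v4_7 := rfl

theorem q5_7 : sel t5.x.x 7 = v5_7 := rfl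

theorem q6_7 : sel t6.x.x 7 = v6_7 := rfl

theorem q7_7 : sel t7.x.x 7 = v7_7 := rfl

theorem q8_7 : sel t8.x.x 7 = v8_7 := rfl

theorem q9_7 : sel t9.x.x 7 = v9_7 := rfl

theorem q10_7 : sel t10.x.x 7 = v10_7 := rfl

theorem q11_7 : sel t11.x.x 7 = v11_7 := rfl

theorem q12_7 : sel t12.x.x 7 = v12_7 := rfl

theorem q13_7 : sel t13.x.x 7 = v13_7 := rfl

theorem q14_7 : sel t14.x.x 7 = v14_7 := rfl

theorem q15_7 : sel t15.x.x 7 = v15_7 := rfl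

theorem q16_7 : sel t16.x.x 7 = v16_7 := rfl

theorem q17_7 : sel t17.x.x 7 = v17_7 := rfl

theorem q18_7 : sel t18.x.x 7 = v18_7 := rfl

theorem q19_7 : sel t19.x.x 7 = v19_7 := rfl

theorem q20_7 : sel t20.x.x 7 = v20_7 := rfl

theorem q21_7 : sel t21.x.x 7 = v21_7 := rfl

theorem q22_7 : sel t22.x.x 7 = v22_7 := rfl

theorem q23_7 : sel t23.x.x 7 = v23_7 := rfl

theorem q24_7 : sel t24.x.x 7 = v24_7 := rfl

theorem q25_7 : sel t25.x.x 7 = v25_7 := rfl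

theorem q26_7 : sel t26.x.x 7 = v26_7 := rfl

theorem q27_7 : sel t27.x.x 7 = v27_7 := rfl

theorem q28_7 : sel t28.x.x 7 = v28_7 := rfl

theorem q29_7 : sel t29.x.x 7 = v29_7 := rfl

theorem q30_7 : sel t30.x.x 7 = v30_7 := rfl

theorem q31_7 : sel t31.x.x 7 = v31_7 := rfl

theorem q32_7 : sel t32.x.x 7 = v32_7 := rfl

theorem q33_7 : sel t33.x.x 7 = v33_7 := rfl

theorem q34_7 : sel t34.x.x 7 = v34_7 := rfl

theorem q35_7 : sel t35.x.x 7 = v35_7 := rfl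

theorem q36_7 : sel t36.x.x 7 = v36_7 := rfl

theorem q37_7 : sel t37.x.x 7 = v37_7 := rfl

theorem q38_7 : sel t38.x.x 7 = v38_7 := rfl

theorem q39_7 : sel t39.x.x 7 = v39_7 := rfl

theorem q40_7 : sel t40.x.x 7 = v40_7 := rfl

theorem q41_7 : sel t41.x.x 7 = v41_7 := rfl

theorem q42_7 : sel t42.x.x 7 = v42_7 := rfl

theorem q43_7 : sel t43.x.x 7 = v43_7 := rfl

theorem q44_7 : sel t44.x.x 7 = v44_7 := rfl

theorem q45_7 : sel t45.x.x 7 = v45_7 := rfl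

theorem q46_7 : sel t46.x.x 7 = v46_7 := rfl

theorem q0_8 : sel t0.x.x 8 = v0_8 := rfl

theorem q1_8 : sel t1.x.x 8 = v1_8 := rfl

theorem q2_8 : sel t2.x.x 8 = v2_8 := rfl

theorem q3_8 : sel t3.x.x 8 = v3_8 := rfl

theorem q4_8 : sel t4.x.x 8 = v4_8 := rfl

theorem q5_8 : sel t5.x.x 8 = v5_8 := rfl

theorem q6_8 : sel t6.x.x 8 = v6_8 := rfl

theorem q7_8 : sel t7.x.x 8 = v7_8 := rfl

theorem q8_8 : sel t8.x.x 8 = v8_8 := rfl

theorem q9_8 : sel t9.x.x 8 = v9_8 := rfl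

theorem q10_8 : sel t10.x.x 8 = v10_8 := rfl

theorem q11_8 : sel t11.x.x 8 = v11_8 := rfl

theorem q12_8 : sel t12.x.x 8 = v12_8 := rfl

theorem q13_8 : sel t13.x.x 8 = v13_8 := rfl

theorem q14_8 : sel t14.x.x 8 = v14_8 := rfl

theorem q15_8 : sel t15.x.x 8 = v15_8 := rfl

theorem q16_8 : sel t16.x.x 8 = v16_8 := rfl

theorem q17_8 : sel t17.x.x 8 = v17_8 := rfl

theorem q18_8 : sel t18.x.x 8 = v18_8 := rfl

theorem q19_8 : sel t19.x.x 8 = v19_8 := rfl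

theorem q20_8 : sel t20.x.x 8 = v20_8 := rfl

theorem q21_8 : sel t21.x.x 8 = v21_8 := rfl

theorem q22_8 : sel t22.x.x 8 = v22_8 := rfl

theorem q23_8 : sel t23.x.x 8 = v23_8 := rfl

theorem q24_8 : sel t24.x.x 8 = v24_8 := rfl

theorem q25_8 : sel t25.x.x 8 = v25_8 := rfl

theorem q26_8 : sel t26.x.x 8 = v26_8 := rfl

theorem q27_8 : sel t27.x.x 8 = v27_8 := rfl

theorem q28_8 : sel t28.x.x 8 = v28_8 := rfl

theorem q29_8 : sel t29.x.x 8 = v29_8 := rfl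

theorem q30_8 : sel t30.x.x 8 = v30_8 := rfl

theorem q31_8 : sel t31.x.x 8 = v31_8 := rfl

theorem q32_8 : sel t32.x.x 8 = v32_8 := rfl

theorem q33_8 : sel t33.x.x 8 = v33_8 := rfl

theorem q34_8 : sel t34.x.x 8 = v34_8 := rfl

theorem q35_8 : sel t35.x.x 8 = v35_8 := rfl

theorem q36_8 : sel t36.x.x 8 = v36_8 := rfl

theorem q37_8 : sel t37.x.x 8 = v37_8 := rfl

theorem q38_8 : sel t38.x.x 8 = v38_8 := rfl

theorem q39_8 : sel t39.x.x 8 = v39_8 := rfl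

theorem q40_8 : sel t40.x.x 8 = v40_8 := rfl

theorem q41_8 : sel t41.x.x 8 = v41_8 := rfl

theorem q42_8 : sel t42.x.x 8 = v42_8 := rfl

theorem q43_8 : sel t43.x.x 8 = v43_8 := rfl

theorem q44_8 : sel t44.x.x 8 = v44_8 := rfl

theorem q45_8 : sel t45.x.x 8 = v45_8 := rfl

theorem q46_8 : sel t46.x.x 8 = v46_8 := rfl

theorem q0_9 : sel t0.x.x 9 = v0_9 := rfl

theorem q1_9 : sel t1.x.x 9 = v1_9 := rfl

theorem q2_9 : sel t2.x.x 9 = v2_9 := rfl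

theorem q3_9 : sel t3.x.x 9 = v3_9 := rfl

theorem q4_9 : sel t4.x.x 9 = v4_9 := rfl

theorem q5_9 : sel t5.x.x 9 = v5_9 := rfl

theorem q6_9 : sel t6.x.x 9 = v6_9 := rfl

theorem q7_9 : sel t7.x.x 9 = v7_9 := rfl

theorem q8_9 : sel t8.x.x 9 = v8_9 := rfl

theorem q9_9 : sel t9.x.x 9 = v9_9 := rfl

theorem q10_9 : sel t10.x.x 9 = v10_9 := rfl

theorem q11_9 : sel t11.x.x 9 = v11_9 := rfl

theorem q12_9 : sel t12.x.x 9 = v12_9 := rfl

theorem q13_9 : sel t13.x.x 9 = v13_9 := rfl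

theorem q14_9 : sel t14.x.x 9 = v14_9 := rfl

theorem q15_9 : sel t15.x.x 9 = v15_9 := rfl

theorem q16_9 : sel t16.x.x 9 = v16_9 := rfl

theorem q17_9 : sel t17.x.x 9 = v17_9 := rfl

theorem q18_9 : sel t18.x.x 9 = v18_9 := rfl

theorem q19_9 : sel t19.x.x 9 = v19_9 := rfl

theorem q20_9 : sel t20.x.x 9 = v20_9 := rfl

theorem q21_9 : sel t21.x.x 9 = v21_9 := rfl

theorem q22_9 : sel t22.x.x 9 = v22_9 := rfl

theorem q23_9 : sel t23.x.x 9 = v23_9 := rfl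

theorem q24_9 : sel t24.x.x 9 = v24_9 := rfl

theorem q25_9 : sel t25.x.x 9 = v25_9 := rfl

theorem q26_9 : sel t26.x.x 9 = v26_9 := rfl

theorem q27_9 : sel t27.x.x 9 = v27_9 := rfl

theorem q28_9 : sel t28.x.x 9 = v28_9 := rfl

theorem q29_9 : sel t29.x.x 9 = v29_9 := rfl

theorem q30_9 : sel t30.x.x 9 = v30_9 := rfl

theorem q31_9 : sel t31.x.x 9 = v31_9 := rfl

theorem q32_9 : sel t32.x.x 9 = v32_9 := rfl

theorem q33_9 : sel t33.x.x 9 = v33_9 := rfl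

theorem q34_9 : sel t34.x.x 9 = v34_9 := rfl

theorem q35_9 : sel t35.x.x 9 = v35_9 := rfl

theorem q36_9 : sel t36.x.x 9 = v36_9 := rfl

theorem q37_9 : sel t37.x.x 9 = v37_9 := rfl

theorem q38_9 : sel t38.x.x 9 = v38_9 := rfl

theorem q39_9 : sel t39.x.x 9 = v39_9 := rfl

theorem q40_9 : sel t40.x.x 9 = v40_9 := rfl

theorem q41_9 : sel t41.x.x 9 = v41_9 := rfl

theorem q42_9 : sel t42.x.x 9 = v42_9 := rfl

theorem q43_9 : sel t43.x.x 9 = v43_9 := rfl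

theorem q44_9 : sel t44.x.x 9 = v44_9 := rfl

theorem q45_9 : sel t45.x.x 9 = v45_9 := rfl

theorem q46_9 : sel t46.x.x 9 = v46_9 := rfl

theorem q0_0 : sel t0.x.x 0 = v0_0 := rfl

theorem q1_0 : sel t1.x.x 0 = v1_0 := rfl

theorem q2_0 : sel t2.x.x 0 = v2_0 := rfl

theorem q3_0 : sel t3.x.x 0 = v3_0 := rfl

theorem q4_0 : sel t4.x.x 0 = v4_0 := rfl

theorem q5_0 : sel t5.x.x 0 = v5_0 := rfl

theorem q6_0 : sel t6.x.x 0 = v6_0 := rfl

theorem q7_0 : sel t7.x.x 0 = v7_0 := rfl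

theorem q8_0 : sel t8.x.x 0 = v8_0 := rfl

theorem q9_0 : sel t9.x.x 0 = v9_0 := rfl

theorem q10_0 : sel t10.x.x 0 = v10_0 := rfl

theorem q11_0 : sel t11.x.x 0 = v11_0 := rfl

theorem q12_0 : sel t12.x.x 0 = v12_0 := rfl

theorem q13_0 : sel t13.x.x 0 = v13_0 := rfl

theorem q14_0 : sel t14.x.x 0 = v14_0 := rfl

theorem q15_0 : sel t15.x.x 0 = v15_0 := rfl

theorem q16_0 : sel t16.x.x 0 = v16_0 := rfl

theorem q17_0 : sel t17.x.x 0 = v17_0 := rfl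

theorem q18_0 : sel t18.x.x 0 = v18_0 := rfl

theorem q19_0 : sel t19.x.x 0 = v19_0 := rfl

theorem q20_0 : sel t20.x.x 0 = v20_0 := rfl

theorem q21_0 : sel t21.x.x 0 = v21_0 := rfl

theorem q22_0 : sel t22.x.x 0 = v22_0 := rfl

theorem q23_0 : sel t23.x.x 0 = v23_0 := rfl

theorem q24_0 : sel t24.x.x 0 = v24_0 := rfl

theorem q25_0 : sel t25.x.x 0 = v25_0 := rfl

theorem q26_0 : sel t26.x.x 0 = v26_0 := rfl

theorem q27_0 : sel t27.x.x 0 = v27_0 := rfl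

theorem q28_0 : sel t28.x.x 0 = v28_0 := rfl

theorem q29_0 : sel t29.x.x 0 = v29_0 := rfl

theorem q30_0 : sel t30.x.x 0 = v30_0 := rfl

theorem q31_0 : sel t31.x.x 0 = v31_0 := rfl

theorem q32_0 : sel t32.x.x 0 = v32_0 := rfl

theorem q33_0 : sel t33.x.x 0 = v33_0 := rfl

theorem q34_0 : sel t34.x.x 0 = v34_0 := rfl

theorem q35_0 : sel t35.x.x 0 = v35_0 := rfl

theorem q36_0 : sel t36.x.x 0 = v36_0 := rfl

theorem q37_0 : sel t37.x.x 0 = v37_0 := rfl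

theorem q38_0 : sel t38.x.x 0 = v38_0 := rfl

theorem q39_0 : sel t39.x.x 0 = v39_0 := rfl

theorem q40_0 : sel t40.x.x 0 = v40_0 := rfl

theorem q41_0 : sel t41.x.x 0 = v41_0 := rfl

theorem q42_0 : sel t42.x.x 0 = v42_0 := rfl

theorem q43_0 : sel t43.x.x 0 = v43_0 := rfl

theorem q44_0 : sel t44.x.x 0 = v44_0 := rfl

theorem q45_0 : sel t45.x.x 0 = v45_0 := rfl

theorem q46_0 : sel t46.x.x 0 = v46_0 := rfl

theorem q0_10 : sel t0.x.x 10 = v0_10 := rfl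

theorem q1_10 : sel t1.x.x 10 = v1_10 := rfl

theorem q2_10 : sel t2.x.x 10 = v2_10 := rfl

theorem q3_10 : sel t3.x.x 10 = v3_10 := rfl

theorem q4_10 : sel t4.x.x 10 = v4_10 := rfl

theorem q5_10 : sel t5.x.x 10 = v5_10 := rfl

theorem q6_10 : sel t6.x.x 10 = v6_10 := rfl

theorem q7_10 : sel t7.x.x 10 = v7_10 := rfl

theorem q8_10 : sel t8.x.x 10 = v8_10 := rfl

theorem q9_10 : sel t9.x.x 10 = v9_10 := rfl

theorem q10_10 : sel t10.x.x 10 = v10_10 := rfl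

theorem q11_10 : sel t11.x.x 10 = v11_10 := rfl

theorem q12_10 : sel t12.x.x 10 = v12_10 := rfl

theorem q13_10 : sel t13.x.x 10 = v13_10 := rfl

theorem q14_10 : sel t14.x.x 10 = v14_10 := rfl

theorem q15_10 : sel t15.x.x 10 = v15_10 := rfl

theorem q16_10 : sel t16.x.x 10 = v16_10 := rfl

theorem q17_10 : sel t17.x.x 10 = v17_10 := rfl

theorem q18_10 : sel t18.x.x 10 = v18_10 := rfl

theorem q19_10 : sel t19.x.x 10 = v19_10 := rfl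

theorem q20_10 : sel t20.x.x 10 = v20_10 := rfl

theorem q21_10 : sel t21.x.x 10 = v21_10 := rfl

theorem q22_10 : sel t22.x.x 10 = v22_10 := rfl

theorem q23_10 : sel t23.x.x 10 = v23_10 := rfl

theorem q24_10 : sel t24.x.x 10 = v24_10 := rfl

theorem q25_10 : sel t25.x.x 10 = v25_10 := rfl

theorem q26_10 : sel t26.x.x 10 = v26_10 := rfl

theorem q27_10 : sel t27.x.x 10 = v27_10 := rfl

theorem q28_10 : sel t28.x.x 10 = v28_10 := rfl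

theorem q29_10 : sel t29.x.x 10 = v29_10 := rfl

theorem q30_10 : sel t30.x.x 10 = v30_10 := rfl

theorem q31_10 : sel t31.x.x 10 = v31_10 := rfl

theorem q32_10 : sel t32.x.x 10 = v32_10 := rfl

theorem q33_10 : sel t33.x.x 10 = v33_10 := rfl

theorem q34_10 : sel t34.x.x 10 = v34_10 := rfl

theorem q35_10 : sel t35.x.x 10 = v35_10 := rfl

theorem q36_10 : sel t36.x.x 10 = v36_10 := rfl

theorem q37_10 : sel t37.x.x 10 = v37_10 := rfl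

theorem q38_10 : sel t38.x.x 10 = v38_10 := rfl

theorem q39_10 : sel t39.x.x 10 = v39_10 := rfl

theorem q40_10 : sel t40.x.x 10 = v40_10 := rfl

theorem q41_10 : sel t41.x.x 10 = v41_10 := rfl

theorem q42_10 : sel t42.x.x 10 = v42_10 := rfl

theorem q43_10 : sel t43.x.x 10 = v43_10 := rfl

theorem q44_10 : sel t44.x.x 10 = v44_10 := rfl

theorem q45_10 : sel t45.x.x 10 = v45_10 := rfl

theorem q46_10 : sel t46.x.x 10 = v46_10 := rfl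

theorem q0_11 : sel t0.x.x 11 = v0_11 := rfl

theorem q1_11 : sel t1.x.x 11 = v1_11 := rfl

theorem q2_11 : sel t2.x.x 11 = v2_11 := rfl

theorem q3_11 : sel t3.x.x 11 = v3_11 := rfl

theorem q4_11 : sel t4.x.x 11 = v4_11 := rfl

theorem q5_11 : sel t5.x.x 11 = v5_11 := rfl

theorem q6_11 : sel t6.x.x 11 = v6_11 := rfl

theorem q7_11 : sel t7.x.x 11 = v7_11 := rfl

theorem q8_11 : sel t8.x.x 11 = v8_11 := rfl

theorem q9_11 : sel t9.x.x 11 = v9_11 := rfl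

theorem q10_11 : sel t10.x.x 11 = v10_11 := rfl

theorem q11_11 : sel t11.x.x 11 = v11_11 := rfl

theorem q12_11 : sel t12.x.x 11 = v12_11 := rfl

theorem q13_11 : sel t13.x.x 11 = v13_11 := rfl

theorem q14_11 : sel t14.x.x 11 = v14_11 := rfl

theorem q15_11 : sel t15.x.x 11 = v15_11 := rfl

theorem q16_11 : sel t16.x.x 11 = v16_11 := rfl

theorem q17_11 : sel t17.x.x 11 = v17_11 := rfl

theorem q18_11 : sel t18.x.x 11 = v18_11 := rfl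

theorem q19_11 : sel t19.x.x 11 = v19_11 := rfl

theorem q20_11 : sel t20.x.x 11 = v20_11 := rfl

theorem q21_11 : sel t21.x.x 11 = v21_11 := rfl

theorem q22_11 : sel t22.x.x 11 = v22_11 := rfl

theorem q23_11 : sel t23.x.x 11 = v23_11 := rfl

theorem q24_11 : sel t24.x.x 11 = v24_11 := rfl

theorem q25_11 : sel t25.x.x 11 = v25_11 := rfl

theorem q26_11 : sel t26.x.x 11 = v26_11 := rfl

theorem q27_11 : sel t27.x.x 11 = v27_11 := rfl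

theorem q28_11 : sel t28.x.x 11 = v28_11 := rfl

theorem q29_11 : sel t29.x.x 11 = v29_11 := rfl

theorem q30_11 : sel t30.x.x 11 = v30_11 := rfl

theorem q31_11 : sel t31.x.x 11 = v31_11 := rfl

theorem q32_11 : sel t32.x.x 11 = v32_11 := rfl

theorem q33_11 : sel t33.x.x 11 = v33_11 := rfl

theorem q34_11 : sel t34.x.x 11 = v34_11 := rfl

theorem q35_11 : sel t35.x.x 11 = v35_11 := rfl

theorem q36_11 : sel t36.x.x 11 = v36_11 := rfl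

theorem q37_11 : sel t37.x.x 11 = v37_11 := rfl

theorem q38_11 : sel t38.x.x 11 = v38_11 := rfl

theorem q39_11 : sel t39.x.x 11 = v39_11 := rfl

theorem q40_11 : sel t40.x.x 11 = v40_11 := rfl

theorem q41_11 : sel t41.x.x 11 = v41_11 := rfl

theorem q42_11 : sel t42.x.x 11 = v42_11 := rfl

theorem q43_11 : sel t43.x.x 11 = v43_11 := rfl

theorem q44_11 : sel t44.x.x 11 = v44_11 := rfl

theorem q45_11 : sel t45.x.x 11 = v45_11 := rfl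

theorem q46_11 : sel t46.x.x 11 = v46_11 := rfl

theorem q0_12 : sel t0.x.x 12 = v0_12 := rfl

theorem q1_12 : sel t1.x.x 12 = v1_12 := rfl

theorem q2_12 : sel t2.x.x 12 = v2_12 := rfl

theorem q3_12 : sel t3.x.x 12 = v3_12 := rfl

theorem q4_12 : sel t4.x.x 12 = v4_12 := rfl

theorem q5_12 : sel t5.x.x 12 = v5_12 := rfl

theorem q6_12 : sel t6.x.x 12 = v6_12 := rfl

theorem q7_12 : sel t7.x.x 12 = v7_12 := rfl

theorem q8_12 : sel t8.x.x 12 = v8_12 := rfl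

theorem q9_12 : sel t9.x.x 12 = v9_12 := rfl

theorem q10_12 : sel t10.x.x 12 = v10_12 := rfl

theorem q11_12 : sel t11.x.x 12 = v11_12 := rfl

theorem q12_12 : sel t12.x.x 12 = v12_12 := rfl

theorem q13_12 : sel t13.x.x 12 = v13_12 := rfl

theorem q14_12 : sel t14.x.x 12 = v14_12 := rfl

theorem q15_12 : sel t15.x.x 12 = v15_12 := rfl

theorem q16_12 : sel t16.x.x 12 = v16_12 := rfl

theorem q17_12 : sel t17.x.x 12 = v17_12 := rfl

theorem q18_12 : sel t18.x.x 12 = v18_12 := rfl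

theorem q19_12 : sel t19.x.x 12 = v19_12 := rfl

theorem q20_12 : sel t20.x.x 12 = v20_12 := rfl

theorem q21_12 : sel t21.x.x 12 = v21_12 := rfl

theorem q22_12 : sel t22.x.x 12 = v22_12 := rfl

theorem q23_12 : sel t23.x.x 12 = v23_12 := rfl

theorem q24_12 : sel t24.x.x 12 = v24_12 := rfl

theorem q25_12 : sel t25.x.x 12 = v25_12 := rfl

theorem q26_12 : sel t26.x.x 12 = v26_12 := rfl

theorem q27_12 : sel t27.x.x 12 = v27_12 := rfl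

theorem q28_12 : sel t28.x.x 12 = v28_12 := rfl

theorem q29_12 : sel t29.x.x 12 = v29_12 := rfl

theorem q30_12 : sel t30.x.x 12 = v30_12 := rfl

theorem q31_12 : sel t31.x.x 12 = v31_12 := rfl

theorem q32_12 : sel t32.x.x 12 = v32_12 := rfl

theorem q33_12 : sel t33.x.x 12 = v33_12 := rfl

theorem q34_12 : sel t34.x.x 12 = v34_12 := rfl

theorem q35_12 : sel t35.x.x 12 = v35_12 := rfl

theorem q36_12 : sel t36.x.x 12 = v36_12 := rfl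

theorem q37_12 : sel t37.x.x 12 = v37_12 := rfl

theorem q38_12 : sel t38.x.x 12 = v38_12 := rfl

theorem q39_12 : sel t39.x.x 12 = v39_12 := rfl

theorem q40_12 : sel t40.x.x 12 = v40_12 := rfl

theorem q41_12 : sel t41.x.x 12 = v41_12 := rfl

theorem q42_12 : sel t42.x.x 12 = v42_12 := rfl

theorem q43_12 : sel t43.x.x 12 = v43_12 := rfl

theorem q44_12 : sel t44.x.x 12 = v44_12 := rfl

theorem q45_12 : sel t45.x.x 12 = v45_12 := rfl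

theorem q46_12 : sel t46.x.x 12 = v46_12 := rfl

theorem q0_13 : sel t0.x.x 13 = v0_13 := rfl

theorem q1_13 : sel t1.x.x 13 = v1_13 := rfl

theorem q2_13 : sel t2.x.x 13 = v2_13 := rfl

theorem q3_13 : sel t3.x.x 13 = v3_13 := rfl

theorem q4_13 : sel t4.x.x 13 = v4_13 := rfl

theorem q5_13 : sel t5.x.x 13 = v5_13 := rfl

theorem q6_13 : sel t6.x.x 13 = v6_13 := rfl

theorem q7_13 : sel t7.x.x 13 = v7_13 := rfl

theorem q8_13 : sel t8.x.x 13 = v8_13 := rfl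

theorem q9_13 : sel t9.x.x 13 = v9_13 := rfl

theorem q10_13 : sel t10.x.x 13 = v10_13 := rfl

theorem q11_13 : sel t11.x.x 13 = v11_13 := rfl

theorem q12_13 : sel t12.x.x 13 = v12_13 := rfl

theorem q13_13 : sel t13.x.x 13 = v13_13 := rfl

theorem q14_13 : sel t14.x.x 13 = v14_13 := rfl

theorem q15_13 : sel t15.x.x 13 = v15_13 := rfl

theorem q16_13 : sel t16.x.x 13 = v16_13 := rfl

theorem q17_13 : sel t17.x.x 13 = v17_13 := rfl

theorem q18_13 : sel t18.x.x 13 = v18_13 := rfl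

theorem q19_13 : sel t19.x.x 13 = v19_13 := rfl

theorem q20_13 : sel t20.x.x 13 = v20_13 := rfl

theorem q21_13 : sel t21.x.x 13 = v21_13 := rfl

theorem q22_13 : sel t22.x.x 13 = v22_13 := rfl

theorem q23_13 : sel t23.x.x 13 = v23_13 := rfl

theorem q24_13 : sel t24.x.x 13 = v24_13 := rfl

theorem q25_13 : sel t25.x.x 13 = v25_13 := rfl

theorem q26_13 : sel t26.x.x 13 = v26_13 := rfl

theorem q27_13 : sel t27.x.x 13 = v27_13 := rfl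

theorem q28_13 : sel t28.x.x 13 = v28_13 := rfl

theorem q29_13 : sel t29.x.x 13 = v29_13 := rfl

theorem q30_13 : sel t30.x.x 13 = v30_13 := rfl

theorem q31_13 : sel t31.x.x 13 = v31_13 := rfl

theorem q32_13 : sel t32.x.x 13 = v32_13 := rfl

theorem q33_13 : sel t33.x.x 13 = v33_13 := rfl

theorem q34_13 : sel t34.x.x 13 = v34_13 := rfl

theorem q35_13 : sel t35.x.x 13 = v35_13 := rfl

theorem q36_13 : sel t36.x.x 13 = v36_13 := rfl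

theorem q37_13 : sel t37.x.x 13 = v37_13 := rfl

theorem q38_13 : sel t38.x.x 13 = v38_13 := rfl

theorem q39_13 : sel t39.x.x 13 = v39_13 := rfl

theorem q40_13 : sel t40.x.x 13 = v40_13 := rfl

theorem q41_13 : sel t41.x.x 13 = v41_13 := rfl

theorem q42_13 : sel t42.x.x 13 = v42_13 := rfl

theorem q43_13 : sel t43.x.x 13 = v43_13 := rfl

theorem q44_13 : sel t44.x.x 13 = v44_13 := rfl

theorem q45_13 : sel t45.x.x 13 = v45_13 := rfl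

theorem q46_13 : sel t46.x.x 13 = v46_13 := rfl

theorem q0_1 : sel t0.x.x 1 = v0_1 := rfl

theorem q1_1 : sel t1.x.x 1 = v1_1 := rfl

theorem q2_1 : sel t2.x.x 1 = v2_1 := rfl

theorem q3_1 : sel t3.x.x 1 = v3_1 := rfl

theorem q4_1 : sel t4.x.x 1 = v4_1 := rfl

theorem q5_1 : sel t5.x.x 1 = v5_1 := rfl

theorem q6_1 : sel t6.x.x 1 = v6_1 := rfl

theorem q7_1 : sel t7.x.x 1 = v7_1 := rfl

theorem q8_1 : sel t8.x.x 1 = v8_1 := rfl

theorem q9_1 : sel t9.x.x 1 = v9_1 := rfl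

theorem q10_1 : sel t10.x.x 1 = v10_1 := rfl

theorem q11_1 : sel t11.x.x 1 = v11_1 := rfl

theorem q12_1 : sel t12.x.x 1 = v12_1 := rfl

theorem q13_1 : sel t13.x.x 1 = v13_1 := rfl

theorem q14_1 : sel t14.x.x 1 = v14_1 := rfl

theorem q15_1 : sel t15.x.x 1 = v15_1 := rfl

theorem q16_1 : sel t16.x.x 1 = v16_1 := rfl

theorem q17_1 : sel t17.x.x 1 = v17_1 := rfl

theorem q18_1 : sel t18.x.x 1 = v18_1 := rfl

theorem q19_1 : sel t19.x.x 1 = v19_1 := rfl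

theorem q20_1 : sel t20.x.x 1 = v20_1 := rfl

theorem q21_1 : sel t21.x.x 1 = v21_1 := rfl

theorem q22_1 : sel t22.x.x 1 = v22_1 := rfl

theorem q23_1 : sel t23.x.x 1 = v23_1 := rfl

theorem q24_1 : sel t24.x.x 1 = v24_1 := rfl

theorem q25_1 : sel t25.x.x 1 = v25_1 := rfl

theorem q26_1 : sel t26.x.x 1 = v26_1 := rfl

theorem q27_1 : sel t27.x.x 1 = v27_1 := rfl

theorem q28_1 : sel t28.x.x 1 = v28_1 := rfl

theorem q29_1 : sel t29.x.x 1 = v29_1 := rfl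

theorem q30_1 : sel t30.x.x 1 = v30_1 := rfl

theorem q31_1 : sel t31.x.x 1 = v31_1 := rfl

theorem q32_1 : sel t32.x.x 1 = v32_1 := rfl

theorem q33_1 : sel t33.x.x 1 = v33_1 := rfl

theorem q34_1 : sel t34.x.x 1 = v34_1 := rfl

theorem q35_1 : sel t35.x.x 1 = v35_1 := rfl

theorem q36_1 : sel t36.x.x 1 = v36_1 := rfl

theorem q37_1 : sel t37.x.x 1 = v37_1 := rfl

theorem q38_1 : sel t38.x.x 1 = v38_1 := rfl

theorem q39_1 : sel t39.x.x 1 = v39_1 := rfl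

theorem q40_1 : sel t40.x.x 1 = v40_1 := rfl

theorem q41_1 : sel t41.x.x 1 = v41_1 := rfl

theorem q42_1 : sel t42.x.x 1 = v42_1 := rfl

theorem q43_1 : sel t43.x.x 1 = v43_1 := rfl

theorem q44_1 : sel t44.x.x 1 = v44_1 := rfl

theorem q45_1 : sel t45.x.x 1 = v45_1 := rfl

theorem q46_1 : sel t46.x.x 1 = v46_1 := rfl

theorem q0_14 : sel t0.x.x 14 = v0_14 := rfl

theorem q1_14 : sel t1.x.x 14 = v1_14 := rfl

theorem q2_14 : sel t2.x.x 14 = v2_14 := rfl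

theorem q3_14 : sel t3.x.x 14 = v3_14 := rfl

theorem q4_14 : sel t4.x.x 14 = v4_14 := rfl

theorem q5_14 : sel t5.x.x 14 = v5_14 := rfl

theorem q6_14 : sel t6.x.x 14 = v6_14 := rfl

theorem q7_14 : sel t7.x.x 14 = v7_14 := rfl

theorem q8_14 : sel t8.x.x 14 = v8_14 := rfl

theorem q9_14 : sel t9.x.x 14 = v9_14 := rfl

theorem q10_14 : sel t10.x.x 14 = v10_14 := rfl

theorem q11_14 : sel t11.x.x 14 = v11_14 := rfl

theorem q12_14 : sel t12.x.x 14 = v12_14 := rfl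

theorem q13_14 : sel t13.x.x 14 = v13_14 := rfl

theorem q14_14 : sel t14.x.x 14 = v14_14 := rfl

theorem q15_14 : sel t15.x.x 14 = v15_14 := rfl

theorem q16_14 : sel t16.x.x 14 = v16_14 := rfl

theorem q17_14 : sel t17.x.x 14 = v17_14 := rfl

theorem q18_14 : sel t18.x.x 14 = v18_14 := rfl

theorem q19_14 : sel t19.x.x 14 = v19_14 := rfl

theorem q20_14 : sel t20.x.x 14 = v20_14 := rfl

theorem q21_14 : sel t21.x.x 14 = v21_14 := rfl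

theorem q22_14 : sel t22.x.x 14 = v22_14 := rfl

theorem q23_14 : sel t23.x.x 14 = v23_14 := rfl

theorem q24_14 : sel t24.x.x 14 = v24_14 := rfl

theorem q25_14 : sel t25.x.x 14 = v25_14 := rfl

theorem q26_14 : sel t26.x.x 14 = v26_14 := rfl

theorem q27_14 : sel t27.x.x 14 = v27_14 := rfl

theorem q28_14 : sel t28.x.x 14 = v28_14 := rfl

theorem q29_14 : sel t29.x.x 14 = v29_14 := rfl

theorem q30_14 : sel t30.x.x 14 = v30_14 := rfl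

theorem q31_14 : sel t31.x.x 14 = v31_14 := rfl

theorem q32_14 : sel t32.x.x 14 = v32_14 := rfl

theorem q33_14 : sel t33.x.x 14 = v33_14 := rfl

theorem q34_14 : sel t34.x.x 14 = v34_14 := rfl

theorem q35_14 : sel t35.x.x 14 = v35_14 := rfl

theorem q36_14 : sel t36.x.x 14 = v36_14 := rfl

theorem q37_14 : sel t37.x.x 14 = v37_14 := rfl

theorem q38_14 : sel t38.x.x 14 = v38_14 := rfl

theorem q39_14 : sel t39.x.x 14 = v39_14 := rfl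

theorem q40_14 : sel t40.x.x 14 = v40_14 := rfl

theorem q41_14 : sel t41.x.x 14 = v41_14 := rfl

theorem q42_14 : sel t42.x.x 14 = v42_14 := rfl

theorem q43_14 : sel t43.x.x 14 = v43_14 := rfl

theorem q44_14 : sel t44.x.x 14 = v44_14 := rfl

theorem q45_14 : sel t45.x.x 14 = v45_14 := rfl

theorem q46_14 : sel t46.x.x 14 = v46_14 := rfl

theorem q0_15 : sel t0.x.x 15 = v0_15 := rfl

theorem q1_15 : sel t1.x.x 15 = v1_15 := rfl

theorem q2_15 : sel t2.x.x 15 = v2_15 := rfl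

theorem q3_15 : sel t3.x.x 15 = v3_15 := rfl

theorem q4_15 : sel t4.x.x 15 = v4_15 := rfl

theorem q5_15 : sel t5.x.x 15 = v5_15 := rfl

theorem q6_15 : sel t6.x.x 15 = v6_15 := rfl

theorem q7_15 : sel t7.x.x 15 = v7_15 := rfl

theorem q8_15 : sel t8.x.x 15 = v8_15 := rfl

theorem q9_15 : sel t9.x.x 15 = v9_15 := rfl

theorem q10_15 : sel t10.x.x 15 = v10_15 := rfl

theorem q11_15 : sel t11.x.x 15 = v11_15 := rfl

theorem q12_15 : sel t12.x.x 15 = v12_15 := rfl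

theorem q13_15 : sel t13.x.x 15 = v13_15 := rfl

theorem q14_15 : sel t14.x.x 15 = v14_15 := rfl

theorem q15_15 : sel t15.x.x 15 = v15_15 := rfl

theorem q16_15 : sel t16.x.x 15 = v16_15 := rfl

theorem q17_15 : sel t17.x.x 15 = v17_15 := rfl

theorem q18_15 : sel t18.x.x 15 = v18_15 := rfl

theorem q19_15 : sel t19.x.x 15 = v19_15 := rfl

theorem q20_15 : sel t20.x.x 15 = v20_15 := rfl

theorem q21_15 : sel t21.x.x 15 = v21_15 := rfl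

theorem q22_15 : sel t22.x.x 15 = v22_15 := rfl

theorem q23_15 : sel t23.x.x 15 = v23_15 := rfl

theorem q24_15 : sel t24.x.x 15 = v24_15 := rfl

theorem q25_15 : sel t25.x.x 15 = v25_15 := rfl

theorem q26_15 : sel t26.x.x 15 = v26_15 := rfl

theorem q27_15 : sel t27.x.x 15 = v27_15 := rfl

theorem q28_15 : sel t28.x.x 15 = v28_15 := rfl

theorem q29_15 : sel t29.x.x 15 = v29_15 := rfl

theorem q30_15 : sel t30.x.x 15 = v30_15 := rfl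

theorem q31_15 : sel t31.x.x 15 = v31_15 := rfl

theorem q32_15 : sel t32.x.x 15 = v32_15 := rfl

theorem q33_15 : sel t33.x.x 15 = v33_15 := rfl

theorem q34_15 : sel t34.x.x 15 = v34_15 := rfl

theorem q35_15 : sel t35.x.x 15 = v35_15 := rfl

theorem q36_15 : sel t36.x.x 15 = v36_15 := rfl

theorem q37_15 : sel t37.x.x 15 = v37_15 := rfl

theorem q38_15 : sel t38.x.x 15 = v38_15 := rfl

theorem q39_15 : sel t39.x.x 15 = v39_15 := rfl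

theorem q40_15 : sel t40.x.x 15 = v40_15 := rfl

theorem q41_15 : sel t41.x.x 15 = v41_15 := rfl

theorem q42_15 : sel t42.x.x 15 = v42_15 := rfl

theorem q43_15 : sel t43.x.x 15 = v43_15 := rfl

theorem q44_15 : sel t44.x.x 15 = v44_15 := rfl

theorem q45_15 : sel t45.x.x 15 = v45_15 := rfl

theorem q46_15 : sel t46.x.x 15 = v46_15 := rfl

theorem q0_16 : sel t0.x.x 16 = v0_16 := rfl

theorem q1_16 : sel t1.x.x 16 = v1_16 := rfl

theorem q2_16 : sel t2.x.x 16 = v2_16 := rfl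

theorem q3_16 : sel t3.x.x 16 = v3_16 := rfl

theorem q4_16 : sel t4.x.x 16 = v4_16 := rfl

theorem q5_16 : sel t5.x.x 16 = v5_16 := rfl

theorem q6_16 : sel t6.x.x 16 = v6_16 := rfl

theorem q7_16 : sel t7.x.x 16 = v7_16 := rfl

theorem q8_16 : sel t8.x.x 16 = v8_16 := rfl

theorem q9_16 : sel t9.x.x 16 = v9_16 := rfl

theorem q10_16 : sel t10.x.x 16 = v10_16 := rfl

theorem q11_16 : sel t11.x.x 16 = v11_16 := rfl

theorem q12_16 : sel t12.x.x 16 = v12_16 := rfl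

theorem q13_16 : sel t13.x.x 16 = v13_16 := rfl

theorem q14_16 : sel t14.x.x 16 = v14_16 := rfl

theorem q15_16 : sel t15.x.x 16 = v15_16 := rfl

theorem q16_16 : sel t16.x.x 16 = v16_16 := rfl

theorem q17_16 : sel t17.x.x 16 = v17_16 := rfl

theorem q18_16 : sel t18.x.x 16 = v18_16 := rfl

theorem q19_16 : sel t19.x.x 16 = v19_16 := rfl

theorem q20_16 : sel t20.x.x 16 = v20_16 := rfl

theorem q21_16 : sel t21.x.x 16 = v21_16 := rfl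

theorem q22_16 : sel t22.x.x 16 = v22_16 := rfl

theorem q23_16 : sel t23.x.x 16 = v23_16 := rfl

theorem q24_16 : sel t24.x.x 16 = v24_16 := rfl

theorem q25_16 : sel t25.x.x 16 = v25_16 := rfl

theorem q26_16 : sel t26.x.x 16 = v26_16 := rfl

theorem q27_16 : sel t27.x.x 16 = v27_16 := rfl

theorem q28_16 : sel t28.x.x 16 = v28_16 := rfl

theorem q29_16 : sel t29.x.x 16 = v29_16 := rfl

theorem q30_16 : sel t30.x.x 16 = v30_16 := rfl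

theorem q31_16 : sel t31.x.x 16 = v31_16 := rfl

theorem q32_16 : sel t32.x.x 16 = v32_16 := rfl

theorem q33_16 : sel t33.x.x 16 = v33_16 := rfl

theorem q34_16 : sel t34.x.x 16 = v34_16 := rfl

theorem q35_16 : sel t35.x.x 16 = v35_16 := rfl

theorem q36_16 : sel t36.x.x 16 = v36_16 := rfl

theorem q37_16 : sel t37.x.x 16 = v37_16 := rfl

theorem q38_16 : sel t38.x.x 16 = v38_16 := rfl

theorem q39_16 : sel t39.x.x 16 = v39_16 := rfl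

theorem q40_16 : sel t40.x.x 16 = v40_16 := rfl

theorem q41_16 : sel t41.x.x 16 = v41_16 := rfl

theorem q42_16 : sel t42.x.x 16 = v42_16 := rfl

theorem q43_16 : sel t43.x.x 16 = v43_16 := rfl

theorem q44_16 : sel t44.x.x 16 = v44_16 := rfl

theorem q45_16 : sel t45.x.x 16 = v45_16 := rfl

theorem q46_16 : sel t46.x.x 16 = v46_16 := rfl

theorem q0_17 : sel t0.x.x 17 = v0_17 := rfl

theorem q1_17 : sel t1.x.x 17 = v1_17 := rfl

theorem q2_17 : sel t2.x.x 17 = v2_17 := rfl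

theorem q3_17 : sel t3.x.x 17 = v3_17 := rfl

theorem q4_17 : sel t4.x.x 17 = v4_17 := rfl

theorem q5_17 : sel t5.x.x 17 = v5_17 := rfl

theorem q6_17 : sel t6.x.x 17 = v6_17 := rfl

theorem q7_17 : sel t7.x.x 17 = v7_17 := rfl

theorem q8_17 : sel t8.x.x 17 = v8_17 := rfl

theorem q9_17 : sel t9.x.x 17 = v9_17 := rfl

theorem q10_17 : sel t10.x.x 17 = v10_17 := rfl

theorem q11_17 : sel t11.x.x 17 = v11_17 := rfl

theorem q12_17 : sel t12.x.x 17 = v12_17 := rfl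

theorem q13_17 : sel t13.x.x 17 = v13_17 := rfl

theorem q14_17 : sel t14.x.x 17 = v14_17 := rfl

theorem q15_17 : sel t15.x.x 17 = v15_17 := rfl

theorem q16_17 : sel t16.x.x 17 = v16_17 := rfl

theorem q17_17 : sel t17.x.x 17 = v17_17 := rfl

theorem q18_17 : sel t18.x.x 17 = v18_17 := rfl

theorem q19_17 : sel t19.x.x 17 = v19_17 := rfl

theorem q20_17 : sel t20.x.x 17 = v20_17 := rfl

theorem q21_17 : sel t21.x.x 17 = v21_17 := rfl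

theorem q22_17 : sel t22.x.x 17 = v22_17 := rfl

theorem q23_17 : sel t23.x.x 17 = v23_17 := rfl

theorem q24_17 : sel t24.x.x 17 = v24_17 := rfl

theorem q25_17 : sel t25.x.x 17 = v25_17 := rfl

theorem q26_17 : sel t26.x.x 17 = v26_17 := rfl

theorem q27_17 : sel t27.x.x 17 = v27_17 := rfl

theorem q28_17 : sel t28.x.x 17 = v28_17 := rfl

theorem q29_17 : sel t29.x.x 17 = v29_17 := rfl

theorem q30_17 : sel t30.x.x 17 = v30_17 := rfl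

theorem q31_17 : sel t31.x.x 17 = v31_17 := rfl

theorem q32_17 : sel t32.x.x 17 = v32_17 := rfl

theorem q33_17 : sel t33.x.x 17 = v33_17 := rfl

theorem q34_17 : sel t34.x.x 17 = v34_17 := rfl

theorem q35_17 : sel t35.x.x 17 = v35_17 := rfl

theorem q36_17 : sel t36.x.x 17 = v36_17 := rfl

theorem q37_17 : sel t37.x.x 17 = v37_17 := rfl

theorem q38_17 : sel t38.x.x 17 = v38_17 := rfl

theorem q39_17 : sel t39.x.x 17 = v39_17 := rfl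

theorem q40_17 : sel t40.x.x 17 = v40_17 := rfl

theorem q41_17 : sel t41.x.x 17 = v41_17 := rfl

theorem q42_17 : sel t42.x.x 17 = v42_17 := rfl

theorem q43_17 : sel t43.x.x 17 = v43_17 := rfl

theorem q44_17 : sel t44.x.x 17 = v44_17 := rfl

theorem q45_17 : sel t45.x.x 17 = v45_17 := rfl

theorem q46_17 : sel t46.x.x 17 = v46_17 := rfl

theorem q0_24 : sel t0.x.x 24 = v0_24 := rfl

theorem q1_24 : sel t1.x.x 24 = v1_24 := rfl

theorem q2_24 : sel t2.x.x 24 = v2_24 := rfl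

theorem q3_24 : sel t3.x.x 24 = v3_24 := rfl

theorem q4_24 : sel t4.x.x 24 = v4_24 := rfl

theorem q5_24 : sel t5.x.x 24 = v5_24 := rfl

theorem q6_24 : sel t6.x.x 24 = v6_24 := rfl

theorem q7_24 : sel t7.x.x 24 = v7_24 := rfl

theorem q8_24 : sel t8.x.x 24 = v8_24 := rfl

theorem q9_24 : sel t9.x.x 24 = v9_24 := rfl

theorem q10_24 : sel t10.x.x 24 = v10_24 := rfl

theorem q11_24 : sel t11.x.x 24 = v11_24 := rfl

theorem q12_24 : sel t12.x.x 24 = v12_24 := rfl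

theorem q13_24 : sel t13.x.x 24 = v13_24 := rfl

theorem q14_24 : sel t14.x.x 24 = v14_24 := rfl

theorem q15_24 : sel t15.x.x 24 = v15_24 := rfl

theorem q16_24 : sel t16.x.x 24 = v16_24 := rfl

theorem q17_24 : sel t17.x.x 24 = v17_24 := rfl

theorem q18_24 : sel t18.x.x 24 = v18_24 := rfl

theorem q19_24 : sel t19.x.x 24 = v19_24 := rfl

theorem q20_24 : sel t20.x.x 24 = v20_24 := rfl

theorem q21_24 : sel t21.x.x 24 = v21_24 := rfl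

theorem q22_24 : sel t22.x.x 24 = v22_24 := rfl

theorem q23_24 : sel t23.x.x 24 = v23_24 := rfl

theorem q24_24 : sel t24.x.x 24 = v24_24 := rfl

theorem q25_24 : sel t25.x.x 24 = v25_24 := rfl

theorem q26_24 : sel t26.x.x 24 = v26_24 := rfl

theorem q27_24 : sel t27.x.x 24 = v27_24 := rfl

theorem q28_24 : sel t28.x.x 24 = v28_24 := rfl

theorem q29_24 : sel t29.x.x 24 = v29_24 := rfl

theorem q30_24 : sel t30.x.x 24 = v30_24 := rfl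

theorem q31_24 : sel t31.x.x 24 = v31_24 := rfl

theorem q32_24 : sel t32.x.x 24 = v32_24 := rfl

theorem q33_24 : sel t33.x.x 24 = v33_24 := rfl

theorem q34_24 : sel t34.x.x 24 = v34_24 := rfl

theorem q35_24 : sel t35.x.x 24 = v35_24 := rfl

theorem q36_24 : sel t36.x.x 24 = v36_24 := rfl

theorem q37_24 : sel t37.x.x 24 = v37_24 := rfl

theorem q38_24 : sel t38.x.x 24 = v38_24 := rfl

theorem q39_24 : sel t39.x.x 24 = v39_24 := rfl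

theorem q40_24 : sel t40.x.x 24 = v40_24 := rfl

theorem q41_24 : sel t41.x.x 24 = v41_24 := rfl

theorem q42_24 : sel t42.x.x 24 = v42_24 := rfl

theorem q43_24 : sel t43.x.x 24 = v43_24 := rfl

theorem q44_24 : sel t44.x.x 24 = v44_24 := rfl

theorem g45_24 : far t45 d24 = true := by decide +kernel

theorem g46_24 : far t46 d24 = true := by decide +kernel

theorem q0_25 : sel t0.x.x 25 = v0_25 := rfl

theorem q1_25 : sel t1.x.x 25 = v1_25 := rfl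

theorem q2_25 : sel t2.x.x 25 = v2_25 := rfl

theorem q3_25 : sel t3.x.x 25 = v3_25 := rfl

theorem q4_25 : sel t4.x.x 25 = v4_25 := rfl

theorem q5_25 : sel t5.x.x 25 = v5_25 := rfl

theorem q6_25 : sel t6.x.x 25 = v6_25 := rfl

theorem q7_25 : sel t7.x.x 25 = v7_25 := rfl

theorem q8_25 : sel t8.x.x 25 = v8_25 := rfl

theorem q9_25 : sel t9.x.x 25 = v9_25 := rfl

theorem q10_25 : sel t10.x.x 25 = v10_25 := rfl

theorem q11_25 : sel t11.x.x 25 = v11_25 := rfl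

theorem q12_25 : sel t12.x.x 25 = v12_25 := rfl

theorem q13_25 : sel t13.x.x 25 = v13_25 := rfl

theorem q14_25 : sel t14.x.x 25 = v14_25 := rfl

theorem q15_25 : sel t15.x.x 25 = v15_25 := rfl

theorem q16_25 : sel t16.x.x 25 = v16_25 := rfl

theorem q17_25 : sel t17.x.x 25 = v17_25 := rfl

theorem q18_25 : sel t18.x.x 25 = v18_25 := rfl

theorem q19_25 : sel t19.x.x 25 = v19_25 := rfl

theorem q20_25 : sel t20.x.x 25 = v20_25 := rfl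

theorem q21_25 : sel t21.x.x 25 = v21_25 := rfl

theorem q22_25 : sel t22.x.x 25 = v22_25 := rfl

theorem q23_25 : sel t23.x.x 25 = v23_25 := rfl

theorem q24_25 : sel t24.x.x 25 = v24_25 := rfl

theorem q25_25 : sel t25.x.x 25 = v25_25 := rfl

theorem q26_25 : sel t26.x.x 25 = v26_25 := rfl

theorem q27_25 : sel t27.x.x 25 = v27_25 := rfl

theorem q28_25 : sel t28.x.x 25 = v28_25 := rfl

theorem q29_25 : sel t29.x.x 25 = v29_25 := rfl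

theorem q30_25 : sel t30.x.x 25 = v30_25 := rfl

theorem q31_25 : sel t31.x.x 25 = v31_25 := rfl

theorem q32_25 : sel t32.x.x 25 = v32_25 := rfl

theorem q33_25 : sel t33.x.x 25 = v33_25 := rfl

theorem q34_25 : sel t34.x.x 25 = v34_25 := rfl

theorem q35_25 : sel t35.x.x 25 = v35_25 := rfl

theorem q36_25 : sel t36.x.x 25 = v36_25 := rfl

theorem q37_25 : sel t37.x.x 25 = v37_25 := rfl

theorem q38_25 : sel t38.x.x 25 = v38_25 := rfl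

theorem q39_25 : sel t39.x.x 25 = v39_25 := rfl

theorem q40_25 : sel t40.x.x 25 = v40_25 := rfl

theorem q41_25 : sel t41.x.x 25 = v41_25 := rfl

theorem q42_25 : sel t42.x.x 25 = v42_25 := rfl

theorem q43_25 : sel t43.x.x 25 = v43_25 := rfl

theorem g44_25 : far t44 d25 = true := by decide +kernel

theorem g45_25 : far t45 d25 = true := by decide +kernel

theorem g46_25 : far t46 d25 = true := by decide +kernel

theorem q0_2 : sel t0.x.x 2 = v0_2 := rfl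

theorem q1_2 : sel t1.x.x 2 = v1_2 := rfl

theorem q2_2 : sel t2.x.x 2 = v2_2 := rfl

theorem q3_2 : sel t3.x.x 2 = v3_2 := rfl

theorem q4_2 : sel t4.x.x 2 = v4_2 := rfl

theorem q5_2 : sel t5.x.x 2 = v5_2 := rfl

theorem q6_2 : sel t6.x.x 2 = v6_2 := rfl

theorem q7_2 : sel t7.x.x 2 = v7_2 := rfl

theorem q8_2 : sel t8.x.x 2 = v8_2 := rfl

theorem q9_2 : sel t9.x.x 2 = v9_2 := rfl

theorem q10_2 : sel t10.x.x 2 = v10_2 := rfl

theorem q11_2 : sel t11.x.x 2 = v11_2 := rfl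

theorem q12_2 : sel t12.x.x 2 = v12_2 := rfl

theorem q13_2 : sel t13.x.x 2 = v13_2 := rfl

theorem q14_2 : sel t14.x.x 2 = v14_2 := rfl

theorem q15_2 : sel t15.x.x 2 = v15_2 := rfl

theorem q16_2 : sel t16.x.x 2 = v16_2 := rfl

theorem q17_2 : sel t17.x.x 2 = v17_2 := rfl

theorem q18_2 : sel t18.x.x 2 = v18_2 := rfl

theorem q19_2 : sel t19.x.x 2 = v19_2 := rfl

theorem q20_2 : sel t20.x.x 2 = v20_2 := rfl

theorem q21_2 : sel t21.x.x 2 = v21_2 := rfl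

theorem q22_2 : sel t22.x.x 2 = v22_2 := rfl

theorem q23_2 : sel t23.x.x 2 = v23_2 := rfl

theorem q24_2 : sel t24.x.x 2 = v24_2 := rfl

theorem q25_2 : sel t25.x.x 2 = v25_2 := rfl

theorem q26_2 : sel t26.x.x 2 = v26_2 := rfl

theorem q27_2 : sel t27.x.x 2 = v27_2 := rfl

theorem q28_2 : sel t28.x.x 2 = v28_2 := rfl

theorem q29_2 : sel t29.x.x 2 = v29_2 := rfl

theorem q30_2 : sel t30.x.x 2 = v30_2 := rfl

theorem q31_2 : sel t31.x.x 2 = v31_2 := rfl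

theorem q32_2 : sel t32.x.x 2 = v32_2 := rfl

theorem q33_2 : sel t33.x.x 2 = v33_2 := rfl

theorem q34_2 : sel t34.x.x 2 = v34_2 := rfl

theorem q35_2 : sel t35.x.x 2 = v35_2 := rfl

theorem q36_2 : sel t36.x.x 2 = v36_2 := rfl

theorem q37_2 : sel t37.x.x 2 = v37_2 := rfl

theorem q38_2 : sel t38.x.x 2 = v38_2 := rfl

theorem q39_2 : sel t39.x.x 2 = v39_2 := rfl

theorem q40_2 : sel t40.x.x 2 = v40_2 := rfl

theorem q41_2 : sel t41.x.x 2 = v41_2 := rfl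

theorem g42_2 : far t42 d2 = true := by decide +kernel

theorem g43_2 : far t43 d2 = true := by decide +kernel

theorem g44_2 : far t44 d2 = true := by decide +kernel

theorem g45_2 : far t45 d2 = true := by decide +kernel

theorem g46_2 : far t46 d2 = true := by decide +kernel

theorem q0_19 : sel t0.x.x 19 = v0_19 := rfl

theorem q1_19 : sel t1.x.x 19 = v1_19 := rfl

theorem q2_19 : sel t2.x.x 19 = v2_19 := rfl

theorem q3_19 : sel t3.x.x 19 = v3_19 := rfl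

theorem q4_19 : sel t4.x.x 19 = v4_19 := rfl

theorem q5_19 : sel t5.x.x 19 = v5_19 := rfl

theorem q6_19 : sel t6.x.x 19 = v6_19 := rfl

theorem q7_19 : sel t7.x.x 19 = v7_19 := rfl

theorem q8_19 : sel t8.x.x 19 = v8_19 := rfl

theorem q9_19 : sel t9.x.x 19 = v9_19 := rfl

theorem q10_19 : sel t10.x.x 19 = v10_19 := rfl

theorem q11_19 : sel t11.x.x 19 = v11_19 := rfl

theorem q12_19 : sel t12.x.x 19 = v12_19 := rfl

theorem q13_19 : sel t13.x.x 19 = v13_19 := rfl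

theorem q14_19 : sel t14.x.x 19 = v14_19 := rfl

theorem q15_19 : sel t15.x.x 19 = v15_19 := rfl

theorem q16_19 : sel t16.x.x 19 = v16_19 := rfl

theorem q17_19 : sel t17.x.x 19 = v17_19 := rfl

theorem q18_19 : sel t18.x.x 19 = v18_19 := rfl

theorem q19_19 : sel t19.x.x 19 = v19_19 := rfl

theorem q20_19 : sel t20.x.x 19 = v20_19 := rfl

theorem q21_19 : sel t21.x.x 19 = v21_19 := rfl

theorem q22_19 : sel t22.x.x 19 = v22_19 := rfl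

theorem q23_19 : sel t23.x.x 19 = v23_19 := rfl

theorem q24_19 : sel t24.x.x 19 = v24_19 := rfl

theorem q25_19 : sel t25.x.x 19 = v25_19 := rfl

theorem q26_19 : sel t26.x.x 19 = v26_19 := rfl

theorem q27_19 : sel t27.x.x 19 = v27_19 := rfl

theorem q28_19 : sel t28.x.x 19 = v28_19 := rfl

theorem q29_19 : sel t29.x.x 19 = v29_19 := rfl

theorem q30_19 : sel t30.x.x 19 = v30_19 := rfl

theorem q31_19 : sel t31.x.x 19 = v31_19 := rfl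

theorem q32_19 : sel t32.x.x 19 = v32_19 := rfl

theorem q33_19 : sel t33.x.x 19 = v33_19 := rfl

theorem q34_19 : sel t34.x.x 19 = v34_19 := rfl

theorem q35_19 : sel t35.x.x 19 = v35_19 := rfl

theorem q36_19 : sel t36.x.x 19 = v36_19 := rfl

theorem q37_19 : sel t37.x.x 19 = v37_19 := rfl

theorem q38_19 : sel t38.x.x 19 = v38_19 := rfl

theorem g39_19 : far t39 d19 = true := by decide +kernel

theorem g40_19 : far t40 d19 = true := by decide +kernel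

theorem g41_19 : far t41 d19 = true := by decide +kernel

theorem g42_19 : far t42 d19 = true := by decide +kernel

theorem g43_19 : far t43 d19 = true := by decide +kernel

theorem g44_19 : far t44 d19 = true := by decide +kernel

theorem g45_19 : far t45 d19 = true := by decide +kernel

theorem g46_19 : far t46 d19 = true := by decide +kernel

theorem q0_20 : sel t0.x.x 20 = v0_20 := rfl

theorem q1_20 : sel t1.x.x 20 = v1_20 := rfl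

theorem q2_20 : sel t2.x.x 20 = v2_20 := rfl

theorem q3_20 : sel t3.x.x 20 = v3_20 := rfl

theorem q4_20 : sel t4.x.x 20 = v4_20 := rfl

theorem q5_20 : sel t5.x.x 20 = v5_20 := rfl

theorem q6_20 : sel t6.x.x 20 = v6_20 := rfl

theorem q7_20 : sel t7.x.x 20 = v7_20 := rfl

theorem q8_20 : sel t8.x.x 20 = v8_20 := rfl

theorem q9_20 : sel t9.x.x 20 = v9_20 := rfl

theorem q10_20 : sel t10.x.x 20 = v10_20 := rfl

theorem q11_20 : sel t11.x.x 20 = v11_20 := rfl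

theorem q12_20 : sel t12.x.x 20 = v12_20 := rfl

theorem q13_20 : sel t13.x.x 20 = v13_20 := rfl

theorem q14_20 : sel t14.x.x 20 = v14_20 := rfl

theorem q15_20 : sel t15.x.x 20 = v15_20 := rfl

theorem q16_20 : sel t16.x.x 20 = v16_20 := rfl

theorem q17_20 : sel t17.x.x 20 = v17_20 := rfl

theorem q18_20 : sel t18.x.x 20 = v18_20 := rfl

theorem q19_20 : sel t19.x.x 20 = v19_20 := rfl

theorem q20_20 : sel t20.x.x 20 = v20_20 := rfl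

theorem q21_20 : sel t21.x.x 20 = v21_20 := rfl

theorem q22_20 : sel t22.x.x 20 = v22_20 := rfl

theorem q23_20 : sel t23.x.x 20 = v23_20 := rfl

theorem q24_20 : sel t24.x.x 20 = v24_20 := rfl

theorem q25_20 : sel t25.x.x 20 = v25_20 := rfl

theorem q26_20 : sel t26.x.x 20 = v26_20 := rfl

theorem q27_20 : sel t27.x.x 20 = v27_20 := rfl

theorem q28_20 : sel t28.x.x 20 = v28_20 := rfl

theorem q29_20 : sel t29.x.x 20 = v29_20 := rfl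

theorem q30_20 : sel t30.x.x 20 = v30_20 := rfl

theorem q31_20 : sel t31.x.x 20 = v31_20 := rfl

theorem q32_20 : sel t32.x.x 20 = v32_20 := rfl

theorem q33_20 : sel t33.x.x 20 = v33_20 := rfl

theorem q34_20 : sel t34.x.x 20 = v34_20 := rfl

theorem q35_20 : sel t35.x.x 20 = v35_20 := rfl

theorem q36_20 : sel t36.x.x 20 = v36_20 := rfl

theorem g37_20 : far t37 d20 = true := by decide +kernel

theorem g38_20 : far t38 d20 = true := by decide +kernel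

theorem g39_20 : far t39 d20 = true := by decide +kernel

theorem g40_20 : far t40 d20 = true := by decide +kernel

theorem g41_20 : far t41 d20 = true := by decide +kernel

theorem g42_20 : far t42 d20 = true := by decide +kernel

theorem g43_20 : far t43 d20 = true := by decide +kernel

theorem g44_20 : far t44 d20 = true := by decide +kernel

theorem g45_20 : far t45 d20 = true := by decide +kernel

theorem g46_20 : far t46 d20 = true := by decide +kernel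

theorem q0_21 : sel t0.x.x 21 = v0_21 := rfl

theorem q1_21 : sel t1.x.x 21 = v1_21 := rfl

theorem q2_21 : sel t2.x.x 21 = v2_21 := rfl

theorem q3_21 : sel t3.x.x 21 = v3_21 := rfl

theorem q4_21 : sel t4.x.x 21 = v4_21 := rfl

theorem q5_21 : sel t5.x.x 21 = v5_21 := rfl

theorem q6_21 : sel t6.x.x 21 = v6_21 := rfl

theorem q7_21 : sel t7.x.x 21 = v7_21 := rfl

theorem q8_21 : sel t8.x.x 21 = v8_21 := rfl

theorem q9_21 : sel t9.x.x 21 = v9_21 := rfl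

theorem q10_21 : sel t10.x.x 21 = v10_21 := rfl

theorem q11_21 : sel t11.x.x 21 = v11_21 := rfl

theorem q12_21 : sel t12.x.x 21 = v12_21 := rfl

theorem q13_21 : sel t13.x.x 21 = v13_21 := rfl

theorem q14_21 : sel t14.x.x 21 = v14_21 := rfl

theorem q15_21 : sel t15.x.x 21 = v15_21 := rfl

theorem q16_21 : sel t16.x.x 21 = v16_21 := rfl

theorem q17_21 : sel t17.x.x 21 = v17_21 := rfl

theorem q18_21 : sel t18.x.x 21 = v18_21 := rfl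

theorem q19_21 : sel t19.x.x 21 = v19_21 := rfl

theorem q20_21 : sel t20.x.x 21 = v20_21 := rfl

theorem q21_21 : sel t21.x.x 21 = v21_21 := rfl

theorem q22_21 : sel t22.x.x 21 = v22_21 := rfl

theorem q23_21 : sel t23.x.x 21 = v23_21 := rfl

theorem q24_21 : sel t24.x.x 21 = v24_21 := rfl

theorem q25_21 : sel t25.x.x 21 = v25_21 := rfl

theorem q26_21 : sel t26.x.x 21 = v26_21 := rfl

theorem q27_21 : sel t27.x.x 21 = v27_21 := rfl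

theorem q28_21 : sel t28.x.x 21 = v28_21 := rfl

theorem q29_21 : sel t29.x.x 21 = v29_21 := rfl

theorem q30_21 : sel t30.x.x 21 = v30_21 := rfl

theorem q31_21 : sel t31.x.x 21 = v31_21 := rfl

theorem q32_21 : sel t32.x.x 21 = v32_21 := rfl

theorem q33_21 : sel t33.x.x 21 = v33_21 := rfl

theorem q34_21 : sel t34.x.x 21 = v34_21 := rfl

theorem g35_21 : far t35 d21 = true := by decide +kernel

theorem g36_21 : far t36 d21 = true := by decide +kernel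

theorem g37_21 : far t37 d21 = true := by decide +kernel

theorem g38_21 : far t38 d21 = true := by decide +kernel

theorem g39_21 : far t39 d21 = true := by decide +kernel

theorem g40_21 : far t40 d21 = true := by decide +kernel

theorem g41_21 : far t41 d21 = true := by decide +kernel

theorem g42_21 : far t42 d21 = true := by decide +kernel

theorem g43_21 : far t43 d21 = true := by decide +kernel

theorem g44_21 : far t44 d21 = true := by decide +kernel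

theorem g45_21 : far t45 d21 = true := by decide +kernel

theorem g46_21 : far t46 d21 = true := by decide +kernel

theorem q0_22 : sel t0.x.x 22 = v0_22 := rfl

theorem q1_22 : sel t1.x.x 22 = v1_22 := rfl

theorem q2_22 : sel t2.x.x 22 = v2_22 := rfl

theorem q3_22 : sel t3.x.x 22 = v3_22 := rfl

theorem q4_22 : sel t4.x.x 22 = v4_22 := rfl

theorem q5_22 : sel t5.x.x 22 = v5_22 := rfl

theorem q6_22 : sel t6.x.x 22 = v6_22 := rfl

theorem q7_22 : sel t7.x.x 22 = v7_22 := rfl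

theorem q8_22 : sel t8.x.x 22 = v8_22 := rfl

theorem q9_22 : sel t9.x.x 22 = v9_22 := rfl

theorem q10_22 : sel t10.x.x 22 = v10_22 := rfl

theorem q11_22 : sel t11.x.x 22 = v11_22 := rfl

theorem q12_22 : sel t12.x.x 22 = v12_22 := rfl

theorem q13_22 : sel t13.x.x 22 = v13_22 := rfl

theorem q14_22 : sel t14.x.x 22 = v14_22 := rfl

theorem q15_22 : sel t15.x.x 22 = v15_22 := rfl

theorem q16_22 : sel t16.x.x 22 = v16_22 := rfl

theorem q17_22 : sel t17.x.x 22 = v17_22 := rfl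

theorem q18_22 : sel t18.x.x 22 = v18_22 := rfl

theorem q19_22 : sel t19.x.x 22 = v19_22 := rfl

theorem q20_22 : sel t20.x.x 22 = v20_22 := rfl

theorem q21_22 : sel t21.x.x 22 = v21_22 := rfl

theorem q22_22 : sel t22.x.x 22 = v22_22 := rfl

theorem q23_22 : sel t23.x.x 22 = v23_22 := rfl

theorem q24_22 : sel t24.x.x 22 = v24_22 := rfl

theorem q25_22 : sel t25.x.x 22 = v25_22 := rfl

theorem q26_22 : sel t26.x.x 22 = v26_22 := rfl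

theorem q27_22 : sel t27.x.x 22 = v27_22 := rfl

theorem q28_22 : sel t28.x.x 22 = v28_22 := rfl

theorem q29_22 : sel t29.x.x 22 = v29_22 := rfl

theorem q30_22 : sel t30.x.x 22 = v30_22 := rfl

theorem g31_22 : far t31 d22 = true := by decide +kernel

theorem g32_22 : far t32 d22 = true := by decide +kernel

theorem g33_22 : far t33 d22 = true := by decide +kernel

theorem g34_22 : far t34 d22 = true := by decide +kernel

theorem g35_22 : far t35 d22 = true := by decide +kernel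

theorem g36_22 : far t36 d22 = true := by decide +kernel

theorem g37_22 : far t37 d22 = true := by decide +kernel

theorem g38_22 : far t38 d22 = true := by decide +kernel

theorem g39_22 : far t39 d22 = true := by decide +kernel

theorem g40_22 : far t40 d22 = true := by decide +kernel

theorem g41_22 : far t41 d22 = true := by decide +kernel

theorem g42_22 : far t42 d22 = true := by decide +kernel

theorem g43_22 : far t43 d22 = true := by decide +kernel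

theorem g44_22 : far t44 d22 = true := by decide +kernel

theorem g45_22 : far t45 d22 = true := by decide +kernel

theorem g46_22 : far t46 d22 = true := by decide +kernel

theorem q0_23 : sel t0.x.x 23 = v0_23 := rfl

theorem q1_23 : sel t1.x.x 23 = v1_23 := rfl

theorem q2_23 : sel t2.x.x 23 = v2_23 := rfl

theorem q3_23 : sel t3.x.x 23 = v3_23 := rfl

theorem q4_23 : sel t4.x.x 23 = v4_23 := rfl

theorem q5_23 : sel t5.x.x 23 = v5_23 := rfl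

theorem q6_23 : sel t6.x.x 23 = v6_23 := rfl

theorem q7_23 : sel t7.x.x 23 = v7_23 := rfl

theorem q8_23 : sel t8.x.x 23 = v8_23 := rfl

theorem q9_23 : sel t9.x.x 23 = v9_23 := rfl

theorem q10_23 : sel t10.x.x 23 = v10_23 := rfl

theorem q11_23 : sel t11.x.x 23 = v11_23 := rfl

theorem q12_23 : sel t12.x.x 23 = v12_23 := rfl

theorem q13_23 : sel t13.x.x 23 = v13_23 := rfl

theorem q14_23 : sel t14.x.x 23 = v14_23 := rfl

theorem q15_23 : sel t15.x.x 23 = v15_23 := rfl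

theorem q16_23 : sel t16.x.x 23 = v16_23 := rfl

theorem q17_23 : sel t17.x.x 23 = v17_23 := rfl

theorem q18_23 : sel t18.x.x 23 = v18_23 := rfl

theorem q19_23 : sel t19.x.x 23 = v19_23 := rfl

theorem q20_23 : sel t20.x.x 23 = v20_23 := rfl

theorem q21_23 : sel t21.x.x 23 = v21_23 := rfl

theorem q22_23 : sel t22.x.x 23 = v22_23 := rfl

theorem q23_23 : sel t23.x.x 23 = v23_23 := rfl

theorem q24_23 : sel t24.x.x 23 = v24_23 := rfl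

theorem q25_23 : sel t25.x.x 23 = v25_23 := rfl

theorem q26_23 : sel t26.x.x 23 = v26_23 := rfl

theorem g27_23 : far t27 d23 = true := by decide +kernel

theorem g28_23 : far t28 d23 = true := by decide +kernel

theorem g29_23 : far t29 d23 = true := by decide +kernel

theorem g30_23 : far t30 d23 = true := by decide +kernel

theorem g31_23 : far t31 d23 = true := by decide +kernel

theorem g32_23 : far t32 d23 = true := by decide +kernel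

theorem g33_23 : far t33 d23 = true := by decide +kernel

theorem g34_23 : far t34 d23 = true := by decide +kernel

theorem g35_23 : far t35 d23 = true := by decide +kernel

theorem g36_23 : far t36 d23 = true := by decide +kernel

theorem g37_23 : far t37 d23 = true := by decide +kernel

theorem g38_23 : far t38 d23 = true := by decide +kernel

theorem g39_23 : far t39 d23 = true := by decide +kernel

theorem g40_23 : far t40 d23 = true := by decide +kernel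

theorem g41_23 : far t41 d23 = true := by decide +kernel

theorem g42_23 : far t42 d23 = true := by decide +kernel

theorem g43_23 : far t43 d23 = true := by decide +kernel

theorem g44_23 : far t44 d23 = true := by decide +kernel

theorem g45_23 : far t45 d23 = true := by decide +kernel

theorem g46_23 : far t46 d23 = true := by decide +kernel

theorem q0_3 : sel t0.x.x 3 = v0_3 := rfl

theorem q1_3 : sel t1.x.x 3 = v1_3 := rfl

theorem q2_3 : sel t2.x.x 3 = v2_3 := rfl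

theorem q3_3 : sel t3.x.x 3 = v3_3 := rfl

theorem q4_3 : sel t4.x.x 3 = v4_3 := rfl

theorem q5_3 : sel t5.x.x 3 = v5_3 := rfl

theorem q6_3 : sel t6.x.x 3 = v6_3 := rfl

theorem q7_3 : sel t7.x.x 3 = v7_3 := rfl

theorem q8_3 : sel t8.x.x 3 = v8_3 := rfl

theorem q9_3 : sel t9.x.x 3 = v9_3 := rfl

theorem q10_3 : sel t10.x.x 3 = v10_3 := rfl

theorem q11_3 : sel t11.x.x 3 = v11_3 := rfl

theorem q12_3 : sel t12.x.x 3 = v12_3 := rfl

theorem q13_3 : sel t13.x.x 3 = v13_3 := rfl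

theorem q14_3 : sel t14.x.x 3 = v14_3 := rfl

theorem q15_3 : sel t15.x.x 3 = v15_3 := rfl

theorem q16_3 : sel t16.x.x 3 = v16_3 := rfl

theorem q17_3 : sel t17.x.x 3 = v17_3 := rfl

theorem q18_3 : sel t18.x.x 3 = v18_3 := rfl

theorem q19_3 : sel t19.x.x 3 = v19_3 := rfl

theorem q20_3 : sel t20.x.x 3 = v20_3 := rfl

theorem g21_3 : far t21 d3 = true := by decide +kernel

theorem g22_3 : far t22 d3 = true := by decide +kernel

theorem g23_3 : far t23 d3 = true := by decide +kernel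

theorem g24_3 : far t24 d3 = true := by decide +kernel

theorem g25_3 : far t25 d3 = true := by decide +kernel

theorem g26_3 : far t26 d3 = true := by decide +kernel

theorem g27_3 : far t27 d3 = true := by decide +kernel

theorem g28_3 : far t28 d3 = true := by decide +kernel

theorem g29_3 : far t29 d3 = true := by decide +kernel

theorem g30_3 : far t30 d3 = true := by decide +kernel

theorem g31_3 : far t31 d3 = true := by decide +kernel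

theorem g32_3 : far t32 d3 = true := by decide +kernel

theorem g33_3 : far t33 d3 = true := by decide +kernel

theorem g34_3 : far t34 d3 = true := by decide +kernel

theorem g35_3 : far t35 d3 = true := by decide +kernel

theorem g36_3 : far t36 d3 = true := by decide +kernel

theorem g37_3 : far t37 d3 = true := by decide +kernel

theorem g38_3 : far t38 d3 = true := by decide +kernel

theorem g39_3 : far t39 d3 = true := by decide +kernel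

theorem g40_3 : far t40 d3 = true := by decide +kernel

theorem g41_3 : far t41 d3 = true := by decide +kernel

theorem g42_3 : far t42 d3 = true := by decide +kernel

theorem g43_3 : far t43 d3 = true := by decide +kernel

theorem g44_3 : far t44 d3 = true := by decide +kernel

theorem g45_3 : far t45 d3 = true := by decide +kernel

theorem g46_3 : far t46 d3 = true := by decide +kernel

theorem q0_4 : sel t0.x.x 4 = v0_4 := rfl

theorem q1_4 : sel t1.x.x 4 = v1_4 := rfl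

theorem q2_4 : sel t2.x.x 4 = v2_4 := rfl

theorem q3_4 : sel t3.x.x 4 = v3_4 := rfl

theorem q4_4 : sel t4.x.x 4 = v4_4 := rfl

theorem q5_4 : sel t5.x.x 4 = v5_4 := rfl

theorem q6_4 : sel t6.x.x 4 = v6_4 := rfl

theorem q7_4 : sel t7.x.x 4 = v7_4 := rfl

theorem q8_4 : sel t8.x.x 4 = v8_4 := rfl

theorem q9_4 : sel t9.x.x 4 = v9_4 := rfl

theorem q10_4 : sel t10.x.x 4 = v10_4 := rfl

theorem q11_4 : sel t11.x.x 4 = v11_4 := rfl

theorem q12_4 : sel t12.x.x 4 = v12_4 := rfl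

theorem q13_4 : sel t13.x.x 4 = v13_4 := rfl

theorem q14_4 : sel t14.x.x 4 = v14_4 := rfl

theorem q15_4 : sel t15.x.x 4 = v15_4 := rfl

theorem q16_4 : sel t16.x.x 4 = v16_4 := rfl

theorem g17_4 : far t17 d4 = true := by decide +kernel

theorem g18_4 : far t18 d4 = true := by decide +kernel

theorem g19_4 : far t19 d4 = true := by decide +kernel

theorem g20_4 : far t20 d4 = true := by decide +kernel

theorem g21_4 : far t21 d4 = true := by decide +kernel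

theorem g22_4 : far t22 d4 = true := by decide +kernel

theorem g23_4 : far t23 d4 = true := by decide +kernel

theorem g24_4 : far t24 d4 = true := by decide +kernel

theorem g25_4 : far t25 d4 = true := by decide +kernel

theorem g26_4 : far t26 d4 = true := by decide +kernel

theorem g27_4 : far t27 d4 = true := by decide +kernel

theorem g28_4 : far t28 d4 = true := by decide +kernel

theorem g29_4 : far t29 d4 = true := by decide +kernel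

theorem g30_4 : far t30 d4 = true := by decide +kernel

theorem g31_4 : far t31 d4 = true := by decide +kernel

theorem g32_4 : far t32 d4 = true := by decide +kernel

theorem g33_4 : far t33 d4 = true := by decide +kernel

theorem g34_4 : far t34 d4 = true := by decide +kernel

theorem g35_4 : far t35 d4 = true := by decide +kernel

theorem g36_4 : far t36 d4 = true := by decide +kernel

theorem g37_4 : far t37 d4 = true := by decide +kernel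

theorem g38_4 : far t38 d4 = true := by decide +kernel

theorem g39_4 : far t39 d4 = true := by decide +kernel

theorem g40_4 : far t40 d4 = true := by decide +kernel

theorem g41_4 : far t41 d4 = true := by decide +kernel

theorem g42_4 : far t42 d4 = true := by decide +kernel

theorem g43_4 : far t43 d4 = true := by decide +kernel

theorem g44_4 : far t44 d4 = true := by decide +kernel

theorem g45_4 : far t45 d4 = true := by decide +kernel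

theorem g46_4 : far t46 d4 = true := by decide +kernel

theorem q0_5 : sel t0.x.x 5 = v0_5 := rfl

theorem q1_5 : sel t1.x.x 5 = v1_5 := rfl

theorem q2_5 : sel t2.x.x 5 = v2_5 := rfl

theorem q3_5 : sel t3.x.x 5 = v3_5 := rfl

theorem q4_5 : sel t4.x.x 5 = v4_5 := rfl

theorem q5_5 : sel t5.x.x 5 = v5_5 := rfl

theorem q6_5 : sel t6.x.x 5 = v6_5 := rfl

theorem q7_5 : sel t7.x.x 5 = v7_5 := rfl

theorem q8_5 : sel t8.x.x 5 = v8_5 := rfl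

theorem q9_5 : sel t9.x.x 5 = v9_5 := rfl

theorem q10_5 : sel t10.x.x 5 = v10_5 := rfl

theorem q11_5 : sel t11.x.x 5 = v11_5 := rfl

theorem q12_5 : sel t12.x.x 5 = v12_5 := rfl

theorem g13_5 : far t13 d5 = true := by decide +kernel

theorem g14_5 : far t14 d5 = true := by decide +kernel

theorem g15_5 : far t15 d5 = true := by decide +kernel

theorem g16_5 : far t16 d5 = true := by decide +kernel

theorem g17_5 : far t17 d5 = true := by decide +kernel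

theorem g18_5 : far t18 d5 = true := by decide +kernel

theorem g19_5 : far t19 d5 = true := by decide +kernel

theorem g20_5 : far t20 d5 = true := by decide +kernel

theorem g21_5 : far t21 d5 = true := by decide +kernel

theorem g22_5 : far t22 d5 = true := by decide +kernel

theorem g23_5 : far t23 d5 = true := by decide +kernel

theorem g24_5 : far t24 d5 = true := by decide +kernel

theorem g25_5 : far t25 d5 = true := by decide +kernel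

theorem g26_5 : far t26 d5 = true := by decide +kernel

theorem g27_5 : far t27 d5 = true := by decide +kernel

theorem g28_5 : far t28 d5 = true := by decide +kernel

theorem g29_5 : far t29 d5 = true := by decide +kernel

theorem g30_5 : far t30 d5 = true := by decide +kernel

theorem g31_5 : far t31 d5 = true := by decide +kernel

theorem g32_5 : far t32 d5 = true := by decide +kernel

theorem g33_5 : far t33 d5 = true := by decide +kernel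

theorem g34_5 : far t34 d5 = true := by decide +kernel

theorem g35_5 : far t35 d5 = true := by decide +kernel

theorem g36_5 : far t36 d5 = true := by decide +kernel

theorem g37_5 : far t37 d5 = true := by decide +kernel

theorem g38_5 : far t38 d5 = true := by decide +kernel

theorem g39_5 : far t39 d5 = true := by decide +kernel

theorem g40_5 : far t40 d5 = true := by decide +kernel

theorem g41_5 : far t41 d5 = true := by decide +kernel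

theorem g42_5 : far t42 d5 = true := by decide +kernel

theorem g43_5 : far t43 d5 = true := by decide +kernel

theorem g44_5 : far t44 d5 = true := by decide +kernel

theorem g45_5 : far t45 d5 = true := by decide +kernel

theorem g46_5 : far t46 d5 = true := by decide +kernel

theorem q0_6 : sel t0.x.x 6 = v0_6 := rfl

theorem q1_6 : sel t1.x.x 6 = v1_6 := rfl

theorem q2_6 : sel t2.x.x 6 = v2_6 := rfl

theorem q3_6 : sel t3.x.x 6 = v3_6 := rfl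

theorem q4_6 : sel t4.x.x 6 = v4_6 := rfl

theorem q5_6 : sel t5.x.x 6 = v5_6 := rfl

theorem q6_6 : sel t6.x.x 6 = v6_6 := rfl

theorem q7_6 : sel t7.x.x 6 = v7_6 := rfl

theorem q8_6 : sel t8.x.x 6 = v8_6 := rfl

theorem q9_6 : sel t9.x.x 6 = v9_6 := rfl

theorem g10_6 : far t10 d6 = true := by decide +kernel

theorem g11_6 : far t11 d6 = true := by decide +kernel

theorem g12_6 : far t12 d6 = true := by decide +kernel

theorem g13_6 : far t13 d6 = true := by decide +kernel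

theorem g14_6 : far t14 d6 = true := by decide +kernel

theorem g15_6 : far t15 d6 = true := by decide +kernel

theorem g16_6 : far t16 d6 = true := by decide +kernel

theorem g17_6 : far t17 d6 = true := by decide +kernel

theorem g18_6 : far t18 d6 = true := by decide +kernel

theorem g19_6 : far t19 d6 = true := by decide +kernel

theorem g20_6 : far t20 d6 = true := by decide +kernel

theorem g21_6 : far t21 d6 = true := by decide +kernel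

theorem g22_6 : far t22 d6 = true := by decide +kernel

theorem g23_6 : far t23 d6 = true := by decide +kernel

theorem g24_6 : far t24 d6 = true := by decide +kernel

theorem g25_6 : far t25 d6 = true := by decide +kernel

theorem g26_6 : far t26 d6 = true := by decide +kernel

theorem g27_6 : far t27 d6 = true := by decide +kernel

theorem g28_6 : far t28 d6 = true := by decide +kernel

theorem g29_6 : far t29 d6 = true := by decide +kernel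

theorem g30_6 : far t30 d6 = true := by decide +kernel

theorem g31_6 : far t31 d6 = true := by decide +kernel

theorem g32_6 : far t32 d6 = true := by decide +kernel

theorem g33_6 : far t33 d6 = true := by decide +kernel

theorem g34_6 : far t34 d6 = true := by decide +kernel

theorem g35_6 : far t35 d6 = true := by decide +kernel

theorem g36_6 : far t36 d6 = true := by decide +kernel

theorem g37_6 : far t37 d6 = true := by decide +kernel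

theorem g38_6 : far t38 d6 = true := by decide +kernel

theorem g39_6 : far t39 d6 = true := by decide +kernel

theorem g40_6 : far t40 d6 = true := by decide +kernel

theorem g41_6 : far t41 d6 = true := by decide +kernel

theorem g42_6 : far t42 d6 = true := by decide +kernel

theorem g43_6 : far t43 d6 = true := by decide +kernel

theorem g44_6 : far t44 d6 = true := by decide +kernel

theorem g45_6 : far t45 d6 = true := by decide +kernel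

theorem g46_6 : far t46 d6 = true := by decide +kernel

end Pool.Agent.TSE
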