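import Pool.Agent.TSE.C0_0
import Pool.Agent.TSE.C0_2
import Pool.Agent.TSE.C0_4
import Pool.Agent.TSE.C0_6
import Pool.Agent.TSE.C0_8
import Pool.Agent.TSE.C0_10
import Pool.Agent.TSE.C0_12
import Pool.Agent.TSE.C0_14
import Pool.Agent.TSE.C0_16
import Pool.Agent.TSE.C0_18
import Pool.Agent.TSE.C0_20
import Pool.Agent.TSE.C0_22
import Pool.Agent.TSE.C0_24
import Pool.Agent.TSE.C0_26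
import Pool.Agent.TSE.C0_28
import Pool.Agent.TSE.C0_30
import Pool.Agent.TSE.C0_32
import Pool.Agent.TSE.C0_34
import Pool.Agent.TSE.C0_36
import Pool.Agent.TSE.C0_38
import Pool.Agent.TSE.C0_40
import Pool.Agent.TSE.C0_42
import Pool.Agent.TSE.C0_44
import Pool.Agent.TSE.C0_46
import Pool.Agent.TSE.T
import Pool.Agent.TSE.BaseC
import Pool.Agent.TSG.TabX

set_option autoImplicit false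

/-! # One interval of the total mass (MP_d27362_co) -/

namespace Pool.Agent.TSE

open Pool.Agent.TSC
open Pool.Agent.TSC.Dec
open Pool.Agent.TSG


theorem kf0 : ∀ tc ∈ tl, Pool.Agent.TSK.KF tc d0 :=
  tl_forall (KF.tv rfl q0_0 c0_0) (KF.tv rfl q1_0 c1_0) (KF.tv rfl q2_0 c2_0) (KF.tv rfl q3_0 c3_0) (KF.tv rfl q4_0 c4_0) (KF.tv rfl q5_0 c5_0) (KF.tv rfl q6_0 c6_0) (KF.tv rfl q7_0 c7_0) (KF.tv rfl q8_0 c8_0) (KF.tv rfl q9_0 c9_0) (KF.tv rfl q10_0 c10_0) (KF.tv rfl q11_0 c11_0) (KF.tv rfl q12_0 c12_0) (KF.tv rfl q13_0 c13_0) (KF.tv rfl q14_0 c14_0) (KF.tv rfl q15_0 c15_0) (KF.tv rfl q16_0 c16_0) (KF.tv rfl q17_0 c17_0) (KF.tv rfl q18_0 c18_0) (KF.tv rfl q19_0 c19_0) (KF.tv rfl q20_0 c20_0) (KF.tv rfl q21_0 c21_0) (KF.tv rfl q22_0 c22_0) (KF.tv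 rfl q23_0 c23_0) (KF.tv rfl q24_0 c24_0) (KF.tv rfl q25_0 c25_0) (KF.tv rfl q26_0 c26_0) (KF.tv rfl q27_0 c27_0) (KF.tv rfl q28_0 c28_0) (KF.tv rfl q29_0 c29_0) (KF.tv rfl q30_0 c30_0) (KF.tv rfl q31_0 c31_0) (KF.tv rfl q32_0 c32_0) (KF.tv rfl q33_0 c33_0) (KF.tv rfl q34_0 c34_0) (KF.tv rfl q35_0 c35_0) (KF.tv rfl q36_0 c36_0) (KF.tv rfl q37_0 c37_0) (KF.tv rfl q38_0 c38_0) (KF.tv rfl q39_0 c39_0) (KF.tv rfl q40_0 c40_0) (KF.tv rfl q41_0 c41_0) (KF.tv rfl q42_0 c42_0) (KF.tv rfl q43_0 c43_0) (KF.tv rfl q44_0 c44_0) (KF.tv rfl q45_0 c45_0) (KF.tv rfl q46_0 c46_0)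

theorem f4_0_0 : ∀ tc ∈ tl, EF tc d0 e4_0_0 :=
  tl_forall (EF.tv rfl q0_0 c4_0_0_0) (EF.tv rfl q1_0 c4_1_0_0) (EF.tv rfl q2_0 c4_2_0_0) (EF.tv rfl q3_0 c4_3_0_0) (EF.tv rfl q4_0 c4_4_0_0) (EF.tv rfl q5_0 c4_5_0_0) (EF.tv rfl q6_0 c4_6_0_0) (EF.tv rfl q7_0 c4_7_0_0) (EF.tv rfl q8_0 c4_8_0_0) (EF.tv rfl q9_0 c4_9_0_0) (EF.tv rfl q10_0 c4_10_0_0) (EF.tv rfl q11_0 c4_11_0_0) (EF.tv rfl q12_0 c4_12_0_0) (EF.tv rfl q13_0 c4_13_0_0) (EF.tv rfl q14_0 c4_14_0_0) (EF.tv rfl q15_0 c4_15_0_0) (EF.tv rfl q16_0 c4_16_0_0) (EF.tv rfl q17_0 c4_17_0_0) (EF.tv rfl q18_0 c4_18_0_0) (EF.tv rfl q19_0 c4_19_0_0) (EF.tv rfl q20_0 c4_20_0_0) (EF.tv rfl q21_0 c4_21_0_0) (EF.tv rfl q22_0 c4_22_0_0) (EF.tv rfl q23_0 c4_23_0_0) (EF.tv rfl q24_0 c4_24_0_0) (EF.tv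 rfl q25_0 c4_25_0_0) (EF.tv rfl q26_0 c4_26_0_0) (EF.tv rfl q27_0 c4_27_0_0) (EF.tv rfl q28_0 c4_28_0_0) (EF.tv rfl q29_0 c4_29_0_0) (EF.tv rfl q30_0 c4_30_0_0) (EF.tv rfl q31_0 c4_31_0_0) (EF.tv rfl q32_0 c4_32_0_0) (EF.tv rfl q33_0 c4_33_0_0) (EF.tv rfl q34_0 c4_34_0_0) (EF.tv rfl q35_0 c4_35_0_0) (EF.tv rfl q36_0 c4_36_0_0) (EF.tv rfl q37_0 c4_37_0_0) (EF.tv rfl q38_0 c4_38_0_0) (EF.tv rfl q39_0 c4_39_0_0) (EF.tv rfl q40_0 c4_40_0_0) (EF.tv rfl q41_0 c4_41_0_0) (EF.tv rfl q42_0 c4_42_0_0) (EF.tv rfl q43_0 c4_43_0_0) (EF.tv rfl q44_0 c4_44_0_0) (EF.tv rfl q45_0 c4_45_0_0) (EF.tv rfl q46_0 c4_46_0_0)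

theorem f4_0_1 : ∀ tc ∈ tl, EF tc d0 e4_0_1 :=
  tl_forall (EF.tv rfl q0_0 c4_0_0_1) (EF.tv rfl q1_0 c4_1_0_1) (EF.tv rfl q2_0 c4_2_0_1) (EF.tv rfl q3_0 c4_3_0_1) (EF.tv rfl q4_0 c4_4_0_1) (EF.tv rfl q5_0 c4_5_0_1) (EF.tv rfl q6_0 c4_6_0_1) (EF.tv rfl q7_0 c4_7_0_1) (EF.tv rfl q8_0 c4_8_0_1) (EF.tv rfl q9_0 c4_9_0_1) (EF.tv rfl q10_0 c4_10_0_1) (EF.tv rfl q11_0 c4_11_0_1) (EF.tv rfl q12_0 c4_12_0_1) (EF.tv rfl q13_0 c4_13_0_1) (EF.tv rfl q14_0 c4_14_0_1) (EF.tv rfl q15_0 c4_15_0_1) (EF.tv rfl q16_0 c4_16_0_1) (EF.tv rfl q17_0 c4_17_0_1) (EF.tv rfl q18_0 c4_18_0_1) (EF.tv rfl q19_0 c4_19_0_1) (EF.tv rfl q20_0 c4_20_0_1) (EF.tv rfl q21_0 c4_21_0_1) (EF.tv rfl q22_0 c4_22_0_1) (EF.tv rfl q23_0 c4_23_0_1) (EF.tv rfl q24_0 c4_24_0_1) (EF.tv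 rfl q25_0 c4_25_0_1) (EF.tv rfl q26_0 c4_26_0_1) (EF.tv rfl q27_0 c4_27_0_1) (EF.tv rfl q28_0 c4_28_0_1) (EF.tv rfl q29_0 c4_29_0_1) (EF.tv rfl q30_0 c4_30_0_1) (EF.tv rfl q31_0 c4_31_0_1) (EF.tv rfl q32_0 c4_32_0_1) (EF.tv rfl q33_0 c4_33_0_1) (EF.tv rfl q34_0 c4_34_0_1) (EF.tv rfl q35_0 c4_35_0_1) (EF.tv rfl q36_0 c4_36_0_1) (EF.tv rfl q37_0 c4_37_0_1) (EF.tv rfl q38_0 c4_38_0_1) (EF.tv rfl q39_0 c4_39_0_1) (EF.tv rfl q40_0 c4_40_0_1) (EF.tv rfl q41_0 c4_41_0_1) (EF.tv rfl q42_0 c4_42_0_1) (EF.tv rfl q43_0 c4_43_0_1) (EF.tv rfl q44_0 c4_44_0_1) (EF.tv rfl q45_0 c4_45_0_1) (EF.tv rfl q46_0 c4_46_0_1)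

theorem f4_0_2 : ∀ tc ∈ tl, EF tc d0 e4_0_2 :=
  tl_forall (EF.tv rfl q0_0 c4_0_0_2) (EF.tv rfl q1_0 c4_1_0_2) (EF.tv rfl q2_0 c4_2_0_2) (EF.tv rfl q3_0 c4_3_0_2) (EF.tv rfl q4_0 c4_4_0_2) (EF.tv rfl q5_0 c4_5_0_2) (EF.tv rfl q6_0 c4_6_0_2) (EF.tv rfl q7_0 c4_7_0_2) (EF.tv rfl q8_0 c4_8_0_2) (EF.tv rfl q9_0 c4_9_0_2) (EF.tv rfl q10_0 c4_10_0_2) (EF.tv rfl q11_0 c4_11_0_2) (EF.tv rfl q12_0 c4_12_0_2) (EF.tv rfl q13_0 c4_13_0_2) (EF.tv rfl q14_0 c4_14_0_2) (EF.tv rfl q15_0 c4_15_0_2) (EF.tv rfl q16_0 c4_16_0_2) (EF.tv rfl q17_0 c4_17_0_2) (EF.tv rfl q18_0 c4_18_0_2) (EF.tv rfl q19_0 c4_19_0_2) (EF.tv rfl q20_0 c4_20_0_2) (EF.tv rfl q21_0 c4_21_0_2) (EF.tv rfl q22_0 c4_22_0_2) (EF.tv rfl q23_0 c4_23_0_2) (EF.tv rfl q24_0 c4_24_0_2) (EF.tv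 rfl q25_0 c4_25_0_2) (EF.tv rfl q26_0 c4_26_0_2) (EF.tv rfl q27_0 c4_27_0_2) (EF.tv rfl q28_0 c4_28_0_2) (EF.tv rfl q29_0 c4_29_0_2) (EF.tv rfl q30_0 c4_30_0_2) (EF.tv rfl q31_0 c4_31_0_2) (EF.tv rfl q32_0 c4_32_0_2) (EF.tv rfl q33_0 c4_33_0_2) (EF.tv rfl q34_0 c4_34_0_2) (EF.tv rfl q35_0 c4_35_0_2) (EF.tv rfl q36_0 c4_36_0_2) (EF.tv rfl q37_0 c4_37_0_2) (EF.tv rfl q38_0 c4_38_0_2) (EF.tv rfl q39_0 c4_39_0_2) (EF.tv rfl q40_0 c4_40_0_2) (EF.tv rfl q41_0 c4_41_0_2) (EF.tv rfl q42_0 c4_42_0_2) (EF.tv rfl q43_0 c4_43_0_2) (EF.tv rfl q44_0 c4_44_0_2) (EF.tv rfl q45_0 c4_45_0_2) (EF.tv rfl q46_0 c4_46_0_2)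

theorem f4_0_3 : ∀ tc ∈ tl, EF tc d0 e4_0_3 :=
  tl_forall (EF.tv rfl q0_0 c4_0_0_3) (EF.tv rfl q1_0 c4_1_0_3) (EF.tv rfl q2_0 c4_2_0_3) (EF.tv rfl q3_0 c4_3_0_3) (EF.tv rfl q4_0 c4_4_0_3) (EF.tv rfl q5_0 c4_5_0_3) (EF.tv rfl q6_0 c4_6_0_3) (EF.tv rfl q7_0 c4_7_0_3) (EF.tv rfl q8_0 c4_8_0_3) (EF.tv rfl q9_0 c4_9_0_3) (EF.tv rfl q10_0 c4_10_0_3) (EF.tv rfl q11_0 c4_11_0_3) (EF.tv rfl q12_0 c4_12_0_3) (EF.tv rfl q13_0 c4_13_0_3) (EF.tv rfl q14_0 c4_14_0_3) (EF.tv rfl q15_0 c4_15_0_3) (EF.tv rfl q16_0 c4_16_0_3) (EF.tv rfl q17_0 c4_17_0_3) (EF.tv rfl q18_0 c4_18_0_3) (EF.tv rfl q19_0 c4_19_0_3) (EF.tv rfl q20_0 c4_20_0_3) (EF.tv rfl q21_0 c4_21_0_3) (EF.tv rfl q22_0 c4_22_0_3) (EF.tv rfl q23_0 c4_23_0_3) (EF.tv rfl q24_0 c4_24_0_3) (EF.tv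 rfl q25_0 c4_25_0_3) (EF.tv rfl q26_0 c4_26_0_3) (EF.tv rfl q27_0 c4_27_0_3) (EF.tv rfl q28_0 c4_28_0_3) (EF.tv rfl q29_0 c4_29_0_3) (EF.tv rfl q30_0 c4_30_0_3) (EF.tv rfl q31_0 c4_31_0_3) (EF.tv rfl q32_0 c4_32_0_3) (EF.tv rfl q33_0 c4_33_0_3) (EF.tv rfl q34_0 c4_34_0_3) (EF.tv rfl q35_0 c4_35_0_3) (EF.tv rfl q36_0 c4_36_0_3) (EF.tv rfl q37_0 c4_37_0_3) (EF.tv rfl q38_0 c4_38_0_3) (EF.tv rfl q39_0 c4_39_0_3) (EF.tv rfl q40_0 c4_40_0_3) (EF.tv rfl q41_0 c4_41_0_3) (EF.tv rfl q42_0 c4_42_0_3) (EF.tv rfl q43_0 c4_43_0_3) (EF.tv rfl q44_0 c4_44_0_3) (EF.tv rfl q45_0 c4_45_0_3) (EF.tv rfl q46_0 c4_46_0_3)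

theorem f6_0_4 : ∀ tc ∈ tl, EF tc d0 e6_0_4 :=
  tl_forall (EF.tv rfl q0_0 c6_0_0_4) (EF.tv rfl q1_0 c6_1_0_4) (EF.tv rfl q2_0 c6_2_0_4) (EF.tv rfl q3_0 c6_3_0_4) (EF.tv rfl q4_0 c6_4_0_4) (EF.tv rfl q5_0 c6_5_0_4) (EF.tv rfl q6_0 c6_6_0_4) (EF.tv rfl q7_0 c6_7_0_4) (EF.tv rfl q8_0 c6_8_0_4) (EF.tv rfl q9_0 c6_9_0_4) (EF.tv rfl q10_0 c6_10_0_4) (EF.tv rfl q11_0 c6_11_0_4) (EF.tv rfl q12_0 c6_12_0_4) (EF.tv rfl q13_0 c6_13_0_4) (EF.tv rfl q14_0 c6_14_0_4) (EF.tv rfl q15_0 c6_15_0_4) (EF.tv rfl q16_0 c6_16_0_4) (EF.tv rfl q17_0 c6_17_0_4) (EF.tv rfl q18_0 c6_18_0_4) (EF.tv rfl q19_0 c6_19_0_4) (EF.tv rfl q20_0 c6_20_0_4) (EF.tv rfl q21_0 c6_21_0_4) (EF.tv rfl q22_0 c6_22_0_4) (EF.tv rfl q23_0 c6_23_0_4) (EF.tv rfl q24_0 c6_24_0_4) (EF.tv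 rfl q25_0 c6_25_0_4) (EF.tv rfl q26_0 c6_26_0_4) (EF.tv rfl q27_0 c6_27_0_4) (EF.tv rfl q28_0 c6_28_0_4) (EF.tv rfl q29_0 c6_29_0_4) (EF.tv rfl q30_0 c6_30_0_4) (EF.tv rfl q31_0 c6_31_0_4) (EF.tv rfl q32_0 c6_32_0_4) (EF.tv rfl q33_0 c6_33_0_4) (EF.tv rfl q34_0 c6_34_0_4) (EF.tv rfl q35_0 c6_35_0_4) (EF.tv rfl q36_0 c6_36_0_4) (EF.tv rfl q37_0 c6_37_0_4) (EF.tv rfl q38_0 c6_38_0_4) (EF.tv rfl q39_0 c6_39_0_4) (EF.tv rfl q40_0 c6_40_0_4) (EF.tv rfl q41_0 c6_41_0_4) (EF.tv rfl q42_0 c6_42_0_4) (EF.tv rfl q43_0 c6_43_0_4) (EF.tv rfl q44_0 c6_44_0_4) (EF.tv rfl q45_0 c6_45_0_4) (EF.tv rfl q46_0 c6_46_0_4)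

theorem f6_0_5 : ∀ tc ∈ tl, EF tc d0 e6_0_5 :=
  tl_forall (EF.tv rfl q0_0 c6_0_0_5) (EF.tv rfl q1_0 c6_1_0_5) (EF.tv rfl q2_0 c6_2_0_5) (EF.tv rfl q3_0 c6_3_0_5) (EF.tv rfl q4_0 c6_4_0_5) (EF.tv rfl q5_0 c6_5_0_5) (EF.tv rfl q6_0 c6_6_0_5) (EF.tv rfl q7_0 c6_7_0_5) (EF.tv rfl q8_0 c6_8_0_5) (EF.tv rfl q9_0 c6_9_0_5) (EF.tv rfl q10_0 c6_10_0_5) (EF.tv rfl q11_0 c6_11_0_5) (EF.tv rfl q12_0 c6_12_0_5) (EF.tv rfl q13_0 c6_13_0_5) (EF.tv rfl q14_0 c6_14_0_5) (EF.tv rfl q15_0 c6_15_0_5) (EF.tv rfl q16_0 c6_16_0_5) (EF.tv rfl q17_0 c6_17_0_5) (EF.tv rfl q18_0 c6_18_0_5) (EF.tv rfl q19_0 c6_19_0_5) (EF.tv rfl q20_0 c6_20_0_5) (EF.tv rfl q21_0 c6_21_0_5) (EF.tv rfl q22_0 c6_22_0_5) (EF.tv rfl q23_0 c6_23_0_5) (EF.tv rfl q24_0 c6_24_0_5) (EF.tv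 rfl q25_0 c6_25_0_5) (EF.tv rfl q26_0 c6_26_0_5) (EF.tv rfl q27_0 c6_27_0_5) (EF.tv rfl q28_0 c6_28_0_5) (EF.tv rfl q29_0 c6_29_0_5) (EF.tv rfl q30_0 c6_30_0_5) (EF.tv rfl q31_0 c6_31_0_5) (EF.tv rfl q32_0 c6_32_0_5) (EF.tv rfl q33_0 c6_33_0_5) (EF.tv rfl q34_0 c6_34_0_5) (EF.tv rfl q35_0 c6_35_0_5) (EF.tv rfl q36_0 c6_36_0_5) (EF.tv rfl q37_0 c6_37_0_5) (EF.tv rfl q38_0 c6_38_0_5) (EF.tv rfl q39_0 c6_39_0_5) (EF.tv rfl q40_0 c6_40_0_5) (EF.tv rfl q41_0 c6_41_0_5) (EF.tv rfl q42_0 c6_42_0_5) (EF.tv rfl q43_0 c6_43_0_5) (EF.tv rfl q44_0 c6_44_0_5) (EF.tv rfl q45_0 c6_45_0_5) (EF.tv rfl q46_0 c6_46_0_5)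

theorem f6_0_6 : ∀ tc ∈ tl, EF tc d0 e6_0_6 :=
  tl_forall (EF.tv rfl q0_0 c6_0_0_6) (EF.tv rfl q1_0 c6_1_0_6) (EF.tv rfl q2_0 c6_2_0_6) (EF.tv rfl q3_0 c6_3_0_6) (EF.tv rfl q4_0 c6_4_0_6) (EF.tv rfl q5_0 c6_5_0_6) (EF.tv rfl q6_0 c6_6_0_6) (EF.tv rfl q7_0 c6_7_0_6) (EF.tv rfl q8_0 c6_8_0_6) (EF.tv rfl q9_0 c6_9_0_6) (EF.tv rfl q10_0 c6_10_0_6) (EF.tv rfl q11_0 c6_11_0_6) (EF.tv rfl q12_0 c6_12_0_6) (EF.tv rfl q13_0 c6_13_0_6) (EF.tv rfl q14_0 c6_14_0_6) (EF.tv rfl q15_0 c6_15_0_6) (EF.tv rfl q16_0 c6_16_0_6) (EF.tv rfl q17_0 c6_17_0_6) (EF.tv rfl q18_0 c6_18_0_6) (EF.tv rfl q19_0 c6_19_0_6) (EF.tv rfl q20_0 c6_20_0_6) (EF.tv rfl q21_0 c6_21_0_6) (EF.tv rfl q22_0 c6_22_0_6) (EF.tv rfl q23_0 c6_23_0_6) (EF.tv rfl q24_0 c6_24_0_6) (EF.tv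 rfl q25_0 c6_25_0_6) (EF.tv rfl q26_0 c6_26_0_6) (EF.tv rfl q27_0 c6_27_0_6) (EF.tv rfl q28_0 c6_28_0_6) (EF.tv rfl q29_0 c6_29_0_6) (EF.tv rfl q30_0 c6_30_0_6) (EF.tv rfl q31_0 c6_31_0_6) (EF.tv rfl q32_0 c6_32_0_6) (EF.tv rfl q33_0 c6_33_0_6) (EF.tv rfl q34_0 c6_34_0_6) (EF.tv rfl q35_0 c6_35_0_6) (EF.tv rfl q36_0 c6_36_0_6) (EF.tv rfl q37_0 c6_37_0_6) (EF.tv rfl q38_0 c6_38_0_6) (EF.tv rfl q39_0 c6_39_0_6) (EF.tv rfl q40_0 c6_40_0_6) (EF.tv rfl q41_0 c6_41_0_6) (EF.tv rfl q42_0 c6_42_0_6) (EF.tv rfl q43_0 c6_43_0_6) (EF.tv rfl q44_0 c6_44_0_6) (EF.tv rfl q45_0 c6_45_0_6) (EF.tv rfl q46_0 c6_46_0_6)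

theorem f6_0_7 : ∀ tc ∈ tl, EF tc d0 e6_0_7 :=
  tl_forall (EF.tv rfl q0_0 c6_0_0_7) (EF.tv rfl q1_0 c6_1_0_7) (EF.tv rfl q2_0 c6_2_0_7) (EF.tv rfl q3_0 c6_3_0_7) (EF.tv rfl q4_0 c6_4_0_7) (EF.tv rfl q5_0 c6_5_0_7) (EF.tv rfl q6_0 c6_6_0_7) (EF.tv rfl q7_0 c6_7_0_7) (EF.tv rfl q8_0 c6_8_0_7) (EF.tv rfl q9_0 c6_9_0_7) (EF.tv rfl q10_0 c6_10_0_7) (EF.tv rfl q11_0 c6_11_0_7) (EF.tv rfl q12_0 c6_12_0_7) (EF.tv rfl q13_0 c6_13_0_7) (EF.tv rfl q14_0 c6_14_0_7) (EF.tv rfl q15_0 c6_15_0_7) (EF.tv rfl q16_0 c6_16_0_7) (EF.tv rfl q17_0 c6_17_0_7) (EF.tv rfl q18_0 c6_18_0_7) (EF.tv rfl q19_0 c6_19_0_7) (EF.tv rfl q20_0 c6_20_0_7) (EF.tv rfl q21_0 c6_21_0_7) (EF.tv rfl q22_0 c6_22_0_7) (EF.tv rfl q23_0 c6_23_0_7) (EF.tv rfl q24_0 c6_24_0_7) (EF.tv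 rfl q25_0 c6_25_0_7) (EF.tv rfl q26_0 c6_26_0_7) (EF.tv rfl q27_0 c6_27_0_7) (EF.tv rfl q28_0 c6_28_0_7) (EF.tv rfl q29_0 c6_29_0_7) (EF.tv rfl q30_0 c6_30_0_7) (EF.tv rfl q31_0 c6_31_0_7) (EF.tv rfl q32_0 c6_32_0_7) (EF.tv rfl q33_0 c6_33_0_7) (EF.tv rfl q34_0 c6_34_0_7) (EF.tv rfl q35_0 c6_35_0_7) (EF.tv rfl q36_0 c6_36_0_7) (EF.tv rfl q37_0 c6_37_0_7) (EF.tv rfl q38_0 c6_38_0_7) (EF.tv rfl q39_0 c6_39_0_7) (EF.tv rfl q40_0 c6_40_0_7) (EF.tv rfl q41_0 c6_41_0_7) (EF.tv rfl q42_0 c6_42_0_7) (EF.tv rfl q43_0 c6_43_0_7) (EF.tv rfl q44_0 c6_44_0_7) (EF.tv rfl q45_0 c6_45_0_7) (EF.tv rfl q46_0 c6_46_0_7)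

theorem f8_0_8 : ∀ tc ∈ tl, EF tc d0 e8_0_8 :=
  tl_forall (EF.tv rfl q0_0 c8_0_0_8) (EF.tv rfl q1_0 c8_1_0_8) (EF.tv rfl q2_0 c8_2_0_8) (EF.tv rfl q3_0 c8_3_0_8) (EF.tv rfl q4_0 c8_4_0_8) (EF.tv rfl q5_0 c8_5_0_8) (EF.tv rfl q6_0 c8_6_0_8) (EF.tv rfl q7_0 c8_7_0_8) (EF.tv rfl q8_0 c8_8_0_8) (EF.tv rfl q9_0 c8_9_0_8) (EF.tv rfl q10_0 c8_10_0_8) (EF.tv rfl q11_0 c8_11_0_8) (EF.tv rfl q12_0 c8_12_0_8) (EF.tv rfl q13_0 c8_13_0_8) (EF.tv rfl q14_0 c8_14_0_8) (EF.tv rfl q15_0 c8_15_0_8) (EF.tv rfl q16_0 c8_16_0_8) (EF.tv rfl q17_0 c8_17_0_8) (EF.tv rfl q18_0 c8_18_0_8) (EF.tv rfl q19_0 c8_19_0_8) (EF.tv rfl q20_0 c8_20_0_8) (EF.tv rfl q21_0 c8_21_0_8) (EF.tv rfl q22_0 c8_22_0_8) (EF.tv rfl q23_0 c8_23_0_8) (EF.tv rfl q24_0 c8_24_0_8) (EF.tv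 rfl q25_0 c8_25_0_8) (EF.tv rfl q26_0 c8_26_0_8) (EF.tv rfl q27_0 c8_27_0_8) (EF.tv rfl q28_0 c8_28_0_8) (EF.tv rfl q29_0 c8_29_0_8) (EF.tv rfl q30_0 c8_30_0_8) (EF.tv rfl q31_0 c8_31_0_8) (EF.tv rfl q32_0 c8_32_0_8) (EF.tv rfl q33_0 c8_33_0_8) (EF.tv rfl q34_0 c8_34_0_8) (EF.tv rfl q35_0 c8_35_0_8) (EF.tv rfl q36_0 c8_36_0_8) (EF.tv rfl q37_0 c8_37_0_8) (EF.tv rfl q38_0 c8_38_0_8) (EF.tv rfl q39_0 c8_39_0_8) (EF.tv rfl q40_0 c8_40_0_8) (EF.tv rfl q41_0 c8_41_0_8) (EF.tv rfl q42_0 c8_42_0_8) (EF.tv rfl q43_0 c8_43_0_8) (EF.tv rfl q44_0 c8_44_0_8) (EF.tv rfl q45_0 c8_45_0_8) (EF.tv rfl q46_0 c8_46_0_8)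

theorem f8_0_9 : ∀ tc ∈ tl, EF tc d0 e8_0_9 :=
  tl_forall (EF.tv rfl q0_0 c8_0_0_9) (EF.tv rfl q1_0 c8_1_0_9) (EF.tv rfl q2_0 c8_2_0_9) (EF.tv rfl q3_0 c8_3_0_9) (EF.tv rfl q4_0 c8_4_0_9) (EF.tv rfl q5_0 c8_5_0_9) (EF.tv rfl q6_0 c8_6_0_9) (EF.tv rfl q7_0 c8_7_0_9) (EF.tv rfl q8_0 c8_8_0_9) (EF.tv rfl q9_0 c8_9_0_9) (EF.tv rfl q10_0 c8_10_0_9) (EF.tv rfl q11_0 c8_11_0_9) (EF.tv rfl q12_0 c8_12_0_9) (EF.tv rfl q13_0 c8_13_0_9) (EF.tv rfl q14_0 c8_14_0_9) (EF.tv rfl q15_0 c8_15_0_9) (EF.tv rfl q16_0 c8_16_0_9) (EF.tv rfl q17_0 c8_17_0_9) (EF.tv rfl q18_0 c8_18_0_9) (EF.tv rfl q19_0 c8_19_0_9) (EF.tv rfl q20_0 c8_20_0_9) (EF.tv rfl q21_0 c8_21_0_9) (EF.tv rfl q22_0 c8_22_0_9) (EF.tv rfl q23_0 c8_23_0_9) (EF.tv rfl q24_0 c8_24_0_9) (EF.tv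 rfl q25_0 c8_25_0_9) (EF.tv rfl q26_0 c8_26_0_9) (EF.tv rfl q27_0 c8_27_0_9) (EF.tv rfl q28_0 c8_28_0_9) (EF.tv rfl q29_0 c8_29_0_9) (EF.tv rfl q30_0 c8_30_0_9) (EF.tv rfl q31_0 c8_31_0_9) (EF.tv rfl q32_0 c8_32_0_9) (EF.tv rfl q33_0 c8_33_0_9) (EF.tv rfl q34_0 c8_34_0_9) (EF.tv rfl q35_0 c8_35_0_9) (EF.tv rfl q36_0 c8_36_0_9) (EF.tv rfl q37_0 c8_37_0_9) (EF.tv rfl q38_0 c8_38_0_9) (EF.tv rfl q39_0 c8_39_0_9) (EF.tv rfl q40_0 c8_40_0_9) (EF.tv rfl q41_0 c8_41_0_9) (EF.tv rfl q42_0 c8_42_0_9) (EF.tv rfl q43_0 c8_43_0_9) (EF.tv rfl q44_0 c8_44_0_9) (EF.tv rfl q45_0 c8_45_0_9) (EF.tv rfl q46_0 c8_46_0_9)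

theorem h4_0 : EvC tl 4 (shK Dec.one 4) d0 :=
  EvC.of2 (tab := tabX 4) (Ls := [e4_0_0, e4_0_1, e4_0_2, e4_0_3]) (tabX_ok 4)
    (by decide +kernel) (by decide +kernel) (by
    intro L hL
    simp only [List.mem_cons, List.not_mem_nil, or_false] at hL
    rcases hL with rfl | rfl | rfl | rfl
    · exact f4_0_0
    · exact f4_0_1
    · exact f4_0_2
    · exact f4_0_3)

theorem h6_0 : EvC tl 6 (shK Dec.one 6) d0 :=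
  EvC.of2 (tab := tabX 6) (Ls := [e6_0_4, e6_0_5, e6_0_6, e6_0_7]) (tabX_ok 6)
    (by decide +kernel) (by decide +kernel) (by
    intro L hL
    simp only [List.mem_cons, List.not_mem_nil, or_false] at hL
    rcases hL with rfl | rfl | rfl | rfl
    · exact f6_0_4
    · exact f6_0_5
    · exact f6_0_6
    · exact f6_0_7)

theorem h8_0 : EvC tl 0 (shA Dec.one 106) d0 :=
  EvC.of2 (tab := tabX 0) (Ls := [e8_0_8, e8_0_9]) (tabX_ok 0)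
    (by decide +kernel) (by decide +kernel) (by
    intro L hL
    simp only [List.mem_cons, List.not_mem_nil, or_false] at hL
    rcases hL with rfl | rfl
    · exact f8_0_8
    · exact f8_0_9)

theorem hh_0 : EvC8 tl Dec.one d0 := EvC8.a h8_0

end Pool.Agent.TSE
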