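import Pool.Agent.TSE.C1_0
import Pool.Agent.TSE.C1_2
import Pool.Agent.TSE.C1_4
import Pool.Agent.TSE.C1_6
import Pool.Agent.TSE.C1_8
import Pool.Agent.TSE.C1_10
import Pool.Agent.TSE.C1_12
import Pool.Agent.TSE.C1_14
import Pool.Agent.TSE.C1_16
import Pool.Agent.TSE.C1_18
import Pool.Agent.TSE.C1_20
import Pool.Agent.TSE.C1_22
import Pool.Agent.TSE.C1_24
import Pool.Agent.TSE.C1_26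
import Pool.Agent.TSE.C1_28
import Pool.Agent.TSE.C1_30
import Pool.Agent.TSE.C1_32
import Pool.Agent.TSE.C1_34
import Pool.Agent.TSE.C1_36
import Pool.Agent.TSE.C1_38
import Pool.Agent.TSE.C1_40
import Pool.Agent.TSE.C1_42
import Pool.Agent.TSE.C1_44
import Pool.Agent.TSE.C1_46
import Pool.Agent.TSE.T
import Pool.Agent.TSE.BaseC
import Pool.Agent.TSG.TabX

set_option autoImplicit false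

/-! # One interval of the total mass (MP_d27362_co) -/

namespace Pool.Agent.TSE

open Pool.Agent.TSC
open Pool.Agent.TSC.Dec
open Pool.Agent.TSG


theorem kf1 : ∀ tc ∈ tl, Pool.Agent.TSK.KF tc d1 :=
  tl_forall (KF.tv rfl q0_1 c0_1) (KF.tv rfl q1_1 c1_1) (KF.tv rfl q2_1 c2_1) (KF.tv rfl q3_1 c3_1) (KF.tv rfl q4_1 c4_1) (KF.tv rfl q5_1 c5_1) (KF.tv rfl q6_1 c6_1) (KF.tv rfl q7_1 c7_1) (KF.tv rfl q8_1 c8_1) (KF.tv rfl q9_1 c9_1) (KF.tv rfl q10_1 c10_1) (KF.tv rfl q11_1 c11_1) (KF.tv rfl q12_1 c12_1) (KF.tv rfl q13_1 c13_1) (KF.tv rfl q14_1 c14_1) (KF.tv rfl q15_1 c15_1) (KF.tv rfl q16_1 c16_1) (KF.tv rfl q17_1 c17_1) (KF.tv rfl q18_1 c18_1) (KF.tv rfl q19_1 c19_1) (KF.tv rfl q20_1 c20_1) (KF.tv rfl q21_1 c21_1) (KF.tv rfl q22_1 c22_1) (KF.tv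 rfl q23_1 c23_1) (KF.tv rfl q24_1 c24_1) (KF.tv rfl q25_1 c25_1) (KF.tv rfl q26_1 c26_1) (KF.tv rfl q27_1 c27_1) (KF.tv rfl q28_1 c28_1) (KF.tv rfl q29_1 c29_1) (KF.tv rfl q30_1 c30_1) (KF.tv rfl q31_1 c31_1) (KF.tv rfl q32_1 c32_1) (KF.tv rfl q33_1 c33_1) (KF.tv rfl q34_1 c34_1) (KF.tv rfl q35_1 c35_1) (KF.tv rfl q36_1 c36_1) (KF.tv rfl q37_1 c37_1) (KF.tv rfl q38_1 c38_1) (KF.tv rfl q39_1 c39_1) (KF.tv rfl q40_1 c40_1) (KF.tv rfl q41_1 c41_1) (KF.tv rfl q42_1 c42_1) (KF.tv rfl q43_1 c43_1) (KF.tv rfl q44_1 c44_1) (KF.tv rfl q45_1 c45_1) (KF.tv rfl q46_1 c46_1)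

theorem f4_1_0 : ∀ tc ∈ tl, EF tc d1 e4_1_0 :=
  tl_forall (EF.tv rfl q0_1 c4_0_1_0) (EF.tv rfl q1_1 c4_1_1_0) (EF.tv rfl q2_1 c4_2_1_0) (EF.tv rfl q3_1 c4_3_1_0) (EF.tv rfl q4_1 c4_4_1_0) (EF.tv rfl q5_1 c4_5_1_0) (EF.tv rfl q6_1 c4_6_1_0) (EF.tv rfl q7_1 c4_7_1_0) (EF.tv rfl q8_1 c4_8_1_0) (EF.tv rfl q9_1 c4_9_1_0) (EF.tv rfl q10_1 c4_10_1_0) (EF.tv rfl q11_1 c4_11_1_0) (EF.tv rfl q12_1 c4_12_1_0) (EF.tv rfl q13_1 c4_13_1_0) (EF.tv rfl q14_1 c4_14_1_0) (EF.tv rfl q15_1 c4_15_1_0) (EF.tv rfl q16_1 c4_16_1_0) (EF.tv rfl q17_1 c4_17_1_0) (EF.tv rfl q18_1 c4_18_1_0) (EF.tv rfl q19_1 c4_19_1_0) (EF.tv rfl q20_1 c4_20_1_0) (EF.tv rfl q21_1 c4_21_1_0) (EF.tv rfl q22_1 c4_22_1_0) (EF.tv rfl q23_1 c4_23_1_0) (EF.tv rfl q24_1 c4_24_1_0) (EF.tv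 rfl q25_1 c4_25_1_0) (EF.tv rfl q26_1 c4_26_1_0) (EF.tv rfl q27_1 c4_27_1_0) (EF.tv rfl q28_1 c4_28_1_0) (EF.tv rfl q29_1 c4_29_1_0) (EF.tv rfl q30_1 c4_30_1_0) (EF.tv rfl q31_1 c4_31_1_0) (EF.tv rfl q32_1 c4_32_1_0) (EF.tv rfl q33_1 c4_33_1_0) (EF.tv rfl q34_1 c4_34_1_0) (EF.tv rfl q35_1 c4_35_1_0) (EF.tv rfl q36_1 c4_36_1_0) (EF.tv rfl q37_1 c4_37_1_0) (EF.tv rfl q38_1 c4_38_1_0) (EF.tv rfl q39_1 c4_39_1_0) (EF.tv rfl q40_1 c4_40_1_0) (EF.tv rfl q41_1 c4_41_1_0) (EF.tv rfl q42_1 c4_42_1_0) (EF.tv rfl q43_1 c4_43_1_0) (EF.tv rfl q44_1 c4_44_1_0) (EF.tv rfl q45_1 c4_45_1_0) (EF.tv rfl q46_1 c4_46_1_0)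

theorem f4_1_1 : ∀ tc ∈ tl, EF tc d1 e4_1_1 :=
  tl_forall (EF.tv rfl q0_1 c4_0_1_1) (EF.tv rfl q1_1 c4_1_1_1) (EF.tv rfl q2_1 c4_2_1_1) (EF.tv rfl q3_1 c4_3_1_1) (EF.tv rfl q4_1 c4_4_1_1) (EF.tv rfl q5_1 c4_5_1_1) (EF.tv rfl q6_1 c4_6_1_1) (EF.tv rfl q7_1 c4_7_1_1) (EF.tv rfl q8_1 c4_8_1_1) (EF.tv rfl q9_1 c4_9_1_1) (EF.tv rfl q10_1 c4_10_1_1) (EF.tv rfl q11_1 c4_11_1_1) (EF.tv rfl q12_1 c4_12_1_1) (EF.tv rfl q13_1 c4_13_1_1) (EF.tv rfl q14_1 c4_14_1_1) (EF.tv rfl q15_1 c4_15_1_1) (EF.tv rfl q16_1 c4_16_1_1) (EF.tv rfl q17_1 c4_17_1_1) (EF.tv rfl q18_1 c4_18_1_1) (EF.tv rfl q19_1 c4_19_1_1) (EF.tv rfl q20_1 c4_20_1_1) (EF.tv rfl q21_1 c4_21_1_1) (EF.tv rfl q22_1 c4_22_1_1) (EF.tv rfl q23_1 c4_23_1_1) (EF.tv rfl q24_1 c4_24_1_1) (EF.tv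 rfl q25_1 c4_25_1_1) (EF.tv rfl q26_1 c4_26_1_1) (EF.tv rfl q27_1 c4_27_1_1) (EF.tv rfl q28_1 c4_28_1_1) (EF.tv rfl q29_1 c4_29_1_1) (EF.tv rfl q30_1 c4_30_1_1) (EF.tv rfl q31_1 c4_31_1_1) (EF.tv rfl q32_1 c4_32_1_1) (EF.tv rfl q33_1 c4_33_1_1) (EF.tv rfl q34_1 c4_34_1_1) (EF.tv rfl q35_1 c4_35_1_1) (EF.tv rfl q36_1 c4_36_1_1) (EF.tv rfl q37_1 c4_37_1_1) (EF.tv rfl q38_1 c4_38_1_1) (EF.tv rfl q39_1 c4_39_1_1) (EF.tv rfl q40_1 c4_40_1_1) (EF.tv rfl q41_1 c4_41_1_1) (EF.tv rfl q42_1 c4_42_1_1) (EF.tv rfl q43_1 c4_43_1_1) (EF.tv rfl q44_1 c4_44_1_1) (EF.tv rfl q45_1 c4_45_1_1) (EF.tv rfl q46_1 c4_46_1_1)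

theorem f4_1_2 : ∀ tc ∈ tl, EF tc d1 e4_1_2 :=
  tl_forall (EF.tv rfl q0_1 c4_0_1_2) (EF.tv rfl q1_1 c4_1_1_2) (EF.tv rfl q2_1 c4_2_1_2) (EF.tv rfl q3_1 c4_3_1_2) (EF.tv rfl q4_1 c4_4_1_2) (EF.tv rfl q5_1 c4_5_1_2) (EF.tv rfl q6_1 c4_6_1_2) (EF.tv rfl q7_1 c4_7_1_2) (EF.tv rfl q8_1 c4_8_1_2) (EF.tv rfl q9_1 c4_9_1_2) (EF.tv rfl q10_1 c4_10_1_2) (EF.tv rfl q11_1 c4_11_1_2) (EF.tv rfl q12_1 c4_12_1_2) (EF.tv rfl q13_1 c4_13_1_2) (EF.tv rfl q14_1 c4_14_1_2) (EF.tv rfl q15_1 c4_15_1_2) (EF.tv rfl q16_1 c4_16_1_2) (EF.tv rfl q17_1 c4_17_1_2) (EF.tv rfl q18_1 c4_18_1_2) (EF.tv rfl q19_1 c4_19_1_2) (EF.tv rfl q20_1 c4_20_1_2) (EF.tv rfl q21_1 c4_21_1_2) (EF.tv rfl q22_1 c4_22_1_2) (EF.tv rfl q23_1 c4_23_1_2) (EF.tv rfl q24_1 c4_24_1_2) (EF.tv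 rfl q25_1 c4_25_1_2) (EF.tv rfl q26_1 c4_26_1_2) (EF.tv rfl q27_1 c4_27_1_2) (EF.tv rfl q28_1 c4_28_1_2) (EF.tv rfl q29_1 c4_29_1_2) (EF.tv rfl q30_1 c4_30_1_2) (EF.tv rfl q31_1 c4_31_1_2) (EF.tv rfl q32_1 c4_32_1_2) (EF.tv rfl q33_1 c4_33_1_2) (EF.tv rfl q34_1 c4_34_1_2) (EF.tv rfl q35_1 c4_35_1_2) (EF.tv rfl q36_1 c4_36_1_2) (EF.tv rfl q37_1 c4_37_1_2) (EF.tv rfl q38_1 c4_38_1_2) (EF.tv rfl q39_1 c4_39_1_2) (EF.tv rfl q40_1 c4_40_1_2) (EF.tv rfl q41_1 c4_41_1_2) (EF.tv rfl q42_1 c4_42_1_2) (EF.tv rfl q43_1 c4_43_1_2) (EF.tv rfl q44_1 c4_44_1_2) (EF.tv rfl q45_1 c4_45_1_2) (EF.tv rfl q46_1 c4_46_1_2)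

theorem f4_1_3 : ∀ tc ∈ tl, EF tc d1 e4_1_3 :=
  tl_forall (EF.tv rfl q0_1 c4_0_1_3) (EF.tv rfl q1_1 c4_1_1_3) (EF.tv rfl q2_1 c4_2_1_3) (EF.tv rfl q3_1 c4_3_1_3) (EF.tv rfl q4_1 c4_4_1_3) (EF.tv rfl q5_1 c4_5_1_3) (EF.tv rfl q6_1 c4_6_1_3) (EF.tv rfl q7_1 c4_7_1_3) (EF.tv rfl q8_1 c4_8_1_3) (EF.tv rfl q9_1 c4_9_1_3) (EF.tv rfl q10_1 c4_10_1_3) (EF.tv rfl q11_1 c4_11_1_3) (EF.tv rfl q12_1 c4_12_1_3) (EF.tv rfl q13_1 c4_13_1_3) (EF.tv rfl q14_1 c4_14_1_3) (EF.tv rfl q15_1 c4_15_1_3) (EF.tv rfl q16_1 c4_16_1_3) (EF.tv rfl q17_1 c4_17_1_3) (EF.tv rfl q18_1 c4_18_1_3) (EF.tv rfl q19_1 c4_19_1_3) (EF.tv rfl q20_1 c4_20_1_3) (EF.tv rfl q21_1 c4_21_1_3) (EF.tv rfl q22_1 c4_22_1_3) (EF.tv rfl q23_1 c4_23_1_3) (EF.tv rfl q24_1 c4_24_1_3) (EF.tv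 rfl q25_1 c4_25_1_3) (EF.tv rfl q26_1 c4_26_1_3) (EF.tv rfl q27_1 c4_27_1_3) (EF.tv rfl q28_1 c4_28_1_3) (EF.tv rfl q29_1 c4_29_1_3) (EF.tv rfl q30_1 c4_30_1_3) (EF.tv rfl q31_1 c4_31_1_3) (EF.tv rfl q32_1 c4_32_1_3) (EF.tv rfl q33_1 c4_33_1_3) (EF.tv rfl q34_1 c4_34_1_3) (EF.tv rfl q35_1 c4_35_1_3) (EF.tv rfl q36_1 c4_36_1_3) (EF.tv rfl q37_1 c4_37_1_3) (EF.tv rfl q38_1 c4_38_1_3) (EF.tv rfl q39_1 c4_39_1_3) (EF.tv rfl q40_1 c4_40_1_3) (EF.tv rfl q41_1 c4_41_1_3) (EF.tv rfl q42_1 c4_42_1_3) (EF.tv rfl q43_1 c4_43_1_3) (EF.tv rfl q44_1 c4_44_1_3) (EF.tv rfl q45_1 c4_45_1_3) (EF.tv rfl q46_1 c4_46_1_3)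

theorem f6_1_4 : ∀ tc ∈ tl, EF tc d1 e6_1_4 :=
  tl_forall (EF.tv rfl q0_1 c6_0_1_4) (EF.tv rfl q1_1 c6_1_1_4) (EF.tv rfl q2_1 c6_2_1_4) (EF.tv rfl q3_1 c6_3_1_4) (EF.tv rfl q4_1 c6_4_1_4) (EF.tv rfl q5_1 c6_5_1_4) (EF.tv rfl q6_1 c6_6_1_4) (EF.tv rfl q7_1 c6_7_1_4) (EF.tv rfl q8_1 c6_8_1_4) (EF.tv rfl q9_1 c6_9_1_4) (EF.tv rfl q10_1 c6_10_1_4) (EF.tv rfl q11_1 c6_11_1_4) (EF.tv rfl q12_1 c6_12_1_4) (EF.tv rfl q13_1 c6_13_1_4) (EF.tv rfl q14_1 c6_14_1_4) (EF.tv rfl q15_1 c6_15_1_4) (EF.tv rfl q16_1 c6_16_1_4) (EF.tv rfl q17_1 c6_17_1_4) (EF.tv rfl q18_1 c6_18_1_4) (EF.tv rfl q19_1 c6_19_1_4) (EF.tv rfl q20_1 c6_20_1_4) (EF.tv rfl q21_1 c6_21_1_4) (EF.tv rfl q22_1 c6_22_1_4) (EF.tv rfl q23_1 c6_23_1_4) (EF.tv rfl q24_1 c6_24_1_4) (EF.tv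 rfl q25_1 c6_25_1_4) (EF.tv rfl q26_1 c6_26_1_4) (EF.tv rfl q27_1 c6_27_1_4) (EF.tv rfl q28_1 c6_28_1_4) (EF.tv rfl q29_1 c6_29_1_4) (EF.tv rfl q30_1 c6_30_1_4) (EF.tv rfl q31_1 c6_31_1_4) (EF.tv rfl q32_1 c6_32_1_4) (EF.tv rfl q33_1 c6_33_1_4) (EF.tv rfl q34_1 c6_34_1_4) (EF.tv rfl q35_1 c6_35_1_4) (EF.tv rfl q36_1 c6_36_1_4) (EF.tv rfl q37_1 c6_37_1_4) (EF.tv rfl q38_1 c6_38_1_4) (EF.tv rfl q39_1 c6_39_1_4) (EF.tv rfl q40_1 c6_40_1_4) (EF.tv rfl q41_1 c6_41_1_4) (EF.tv rfl q42_1 c6_42_1_4) (EF.tv rfl q43_1 c6_43_1_4) (EF.tv rfl q44_1 c6_44_1_4) (EF.tv rfl q45_1 c6_45_1_4) (EF.tv rfl q46_1 c6_46_1_4)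

theorem f6_1_5 : ∀ tc ∈ tl, EF tc d1 e6_1_5 :=
  tl_forall (EF.tv rfl q0_1 c6_0_1_5) (EF.tv rfl q1_1 c6_1_1_5) (EF.tv rfl q2_1 c6_2_1_5) (EF.tv rfl q3_1 c6_3_1_5) (EF.tv rfl q4_1 c6_4_1_5) (EF.tv rfl q5_1 c6_5_1_5) (EF.tv rfl q6_1 c6_6_1_5) (EF.tv rfl q7_1 c6_7_1_5) (EF.tv rfl q8_1 c6_8_1_5) (EF.tv rfl q9_1 c6_9_1_5) (EF.tv rfl q10_1 c6_10_1_5) (EF.tv rfl q11_1 c6_11_1_5) (EF.tv rfl q12_1 c6_12_1_5) (EF.tv rfl q13_1 c6_13_1_5) (EF.tv rfl q14_1 c6_14_1_5) (EF.tv rfl q15_1 c6_15_1_5) (EF.tv rfl q16_1 c6_16_1_5) (EF.tv rfl q17_1 c6_17_1_5) (EF.tv rfl q18_1 c6_18_1_5) (EF.tv rfl q19_1 c6_19_1_5) (EF.tv rfl q20_1 c6_20_1_5) (EF.tv rfl q21_1 c6_21_1_5) (EF.tv rfl q22_1 c6_22_1_5) (EF.tv rfl q23_1 c6_23_1_5) (EF.tv rfl q24_1 c6_24_1_5) (EF.tv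 rfl q25_1 c6_25_1_5) (EF.tv rfl q26_1 c6_26_1_5) (EF.tv rfl q27_1 c6_27_1_5) (EF.tv rfl q28_1 c6_28_1_5) (EF.tv rfl q29_1 c6_29_1_5) (EF.tv rfl q30_1 c6_30_1_5) (EF.tv rfl q31_1 c6_31_1_5) (EF.tv rfl q32_1 c6_32_1_5) (EF.tv rfl q33_1 c6_33_1_5) (EF.tv rfl q34_1 c6_34_1_5) (EF.tv rfl q35_1 c6_35_1_5) (EF.tv rfl q36_1 c6_36_1_5) (EF.tv rfl q37_1 c6_37_1_5) (EF.tv rfl q38_1 c6_38_1_5) (EF.tv rfl q39_1 c6_39_1_5) (EF.tv rfl q40_1 c6_40_1_5) (EF.tv rfl q41_1 c6_41_1_5) (EF.tv rfl q42_1 c6_42_1_5) (EF.tv rfl q43_1 c6_43_1_5) (EF.tv rfl q44_1 c6_44_1_5) (EF.tv rfl q45_1 c6_45_1_5) (EF.tv rfl q46_1 c6_46_1_5)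

theorem f6_1_6 : ∀ tc ∈ tl, EF tc d1 e6_1_6 :=
  tl_forall (EF.tv rfl q0_1 c6_0_1_6) (EF.tv rfl q1_1 c6_1_1_6) (EF.tv rfl q2_1 c6_2_1_6) (EF.tv rfl q3_1 c6_3_1_6) (EF.tv rfl q4_1 c6_4_1_6) (EF.tv rfl q5_1 c6_5_1_6) (EF.tv rfl q6_1 c6_6_1_6) (EF.tv rfl q7_1 c6_7_1_6) (EF.tv rfl q8_1 c6_8_1_6) (EF.tv rfl q9_1 c6_9_1_6) (EF.tv rfl q10_1 c6_10_1_6) (EF.tv rfl q11_1 c6_11_1_6) (EF.tv rfl q12_1 c6_12_1_6) (EF.tv rfl q13_1 c6_13_1_6) (EF.tv rfl q14_1 c6_14_1_6) (EF.tv rfl q15_1 c6_15_1_6) (EF.tv rfl q16_1 c6_16_1_6) (EF.tv rfl q17_1 c6_17_1_6) (EF.tv rfl q18_1 c6_18_1_6) (EF.tv rfl q19_1 c6_19_1_6) (EF.tv rfl q20_1 c6_20_1_6) (EF.tv rfl q21_1 c6_21_1_6) (EF.tv rfl q22_1 c6_22_1_6) (EF.tv rfl q23_1 c6_23_1_6) (EF.tv rfl q24_1 c6_24_1_6) (EF.tv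 rfl q25_1 c6_25_1_6) (EF.tv rfl q26_1 c6_26_1_6) (EF.tv rfl q27_1 c6_27_1_6) (EF.tv rfl q28_1 c6_28_1_6) (EF.tv rfl q29_1 c6_29_1_6) (EF.tv rfl q30_1 c6_30_1_6) (EF.tv rfl q31_1 c6_31_1_6) (EF.tv rfl q32_1 c6_32_1_6) (EF.tv rfl q33_1 c6_33_1_6) (EF.tv rfl q34_1 c6_34_1_6) (EF.tv rfl q35_1 c6_35_1_6) (EF.tv rfl q36_1 c6_36_1_6) (EF.tv rfl q37_1 c6_37_1_6) (EF.tv rfl q38_1 c6_38_1_6) (EF.tv rfl q39_1 c6_39_1_6) (EF.tv rfl q40_1 c6_40_1_6) (EF.tv rfl q41_1 c6_41_1_6) (EF.tv rfl q42_1 c6_42_1_6) (EF.tv rfl q43_1 c6_43_1_6) (EF.tv rfl q44_1 c6_44_1_6) (EF.tv rfl q45_1 c6_45_1_6) (EF.tv rfl q46_1 c6_46_1_6)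

theorem f6_1_7 : ∀ tc ∈ tl, EF tc d1 e6_1_7 :=
  tl_forall (EF.tv rfl q0_1 c6_0_1_7) (EF.tv rfl q1_1 c6_1_1_7) (EF.tv rfl q2_1 c6_2_1_7) (EF.tv rfl q3_1 c6_3_1_7) (EF.tv rfl q4_1 c6_4_1_7) (EF.tv rfl q5_1 c6_5_1_7) (EF.tv rfl q6_1 c6_6_1_7) (EF.tv rfl q7_1 c6_7_1_7) (EF.tv rfl q8_1 c6_8_1_7) (EF.tv rfl q9_1 c6_9_1_7) (EF.tv rfl q10_1 c6_10_1_7) (EF.tv rfl q11_1 c6_11_1_7) (EF.tv rfl q12_1 c6_12_1_7) (EF.tv rfl q13_1 c6_13_1_7) (EF.tv rfl q14_1 c6_14_1_7) (EF.tv rfl q15_1 c6_15_1_7) (EF.tv rfl q16_1 c6_16_1_7) (EF.tv rfl q17_1 c6_17_1_7) (EF.tv rfl q18_1 c6_18_1_7) (EF.tv rfl q19_1 c6_19_1_7) (EF.tv rfl q20_1 c6_20_1_7) (EF.tv rfl q21_1 c6_21_1_7) (EF.tv rfl q22_1 c6_22_1_7) (EF.tv rfl q23_1 c6_23_1_7) (EF.tv rfl q24_1 c6_24_1_7) (EF.tv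 rfl q25_1 c6_25_1_7) (EF.tv rfl q26_1 c6_26_1_7) (EF.tv rfl q27_1 c6_27_1_7) (EF.tv rfl q28_1 c6_28_1_7) (EF.tv rfl q29_1 c6_29_1_7) (EF.tv rfl q30_1 c6_30_1_7) (EF.tv rfl q31_1 c6_31_1_7) (EF.tv rfl q32_1 c6_32_1_7) (EF.tv rfl q33_1 c6_33_1_7) (EF.tv rfl q34_1 c6_34_1_7) (EF.tv rfl q35_1 c6_35_1_7) (EF.tv rfl q36_1 c6_36_1_7) (EF.tv rfl q37_1 c6_37_1_7) (EF.tv rfl q38_1 c6_38_1_7) (EF.tv rfl q39_1 c6_39_1_7) (EF.tv rfl q40_1 c6_40_1_7) (EF.tv rfl q41_1 c6_41_1_7) (EF.tv rfl q42_1 c6_42_1_7) (EF.tv rfl q43_1 c6_43_1_7) (EF.tv rfl q44_1 c6_44_1_7) (EF.tv rfl q45_1 c6_45_1_7) (EF.tv rfl q46_1 c6_46_1_7)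

theorem f8_1_8 : ∀ tc ∈ tl, EF tc d1 e8_1_8 :=
  tl_forall (EF.tv rfl q0_1 c8_0_1_8) (EF.tv rfl q1_1 c8_1_1_8) (EF.tv rfl q2_1 c8_2_1_8) (EF.tv rfl q3_1 c8_3_1_8) (EF.tv rfl q4_1 c8_4_1_8) (EF.tv rfl q5_1 c8_5_1_8) (EF.tv rfl q6_1 c8_6_1_8) (EF.tv rfl q7_1 c8_7_1_8) (EF.tv rfl q8_1 c8_8_1_8) (EF.tv rfl q9_1 c8_9_1_8) (EF.tv rfl q10_1 c8_10_1_8) (EF.tv rfl q11_1 c8_11_1_8) (EF.tv rfl q12_1 c8_12_1_8) (EF.tv rfl q13_1 c8_13_1_8) (EF.tv rfl q14_1 c8_14_1_8) (EF.tv rfl q15_1 c8_15_1_8) (EF.tv rfl q16_1 c8_16_1_8) (EF.tv rfl q17_1 c8_17_1_8) (EF.tv rfl q18_1 c8_18_1_8) (EF.tv rfl q19_1 c8_19_1_8) (EF.tv rfl q20_1 c8_20_1_8) (EF.tv rfl q21_1 c8_21_1_8) (EF.tv rfl q22_1 c8_22_1_8) (EF.tv rfl q23_1 c8_23_1_8) (EF.tv rfl q24_1 c8_24_1_8) (EF.tv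 rfl q25_1 c8_25_1_8) (EF.tv rfl q26_1 c8_26_1_8) (EF.tv rfl q27_1 c8_27_1_8) (EF.tv rfl q28_1 c8_28_1_8) (EF.tv rfl q29_1 c8_29_1_8) (EF.tv rfl q30_1 c8_30_1_8) (EF.tv rfl q31_1 c8_31_1_8) (EF.tv rfl q32_1 c8_32_1_8) (EF.tv rfl q33_1 c8_33_1_8) (EF.tv rfl q34_1 c8_34_1_8) (EF.tv rfl q35_1 c8_35_1_8) (EF.tv rfl q36_1 c8_36_1_8) (EF.tv rfl q37_1 c8_37_1_8) (EF.tv rfl q38_1 c8_38_1_8) (EF.tv rfl q39_1 c8_39_1_8) (EF.tv rfl q40_1 c8_40_1_8) (EF.tv rfl q41_1 c8_41_1_8) (EF.tv rfl q42_1 c8_42_1_8) (EF.tv rfl q43_1 c8_43_1_8) (EF.tv rfl q44_1 c8_44_1_8) (EF.tv rfl q45_1 c8_45_1_8) (EF.tv rfl q46_1 c8_46_1_8)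

theorem f8_1_9 : ∀ tc ∈ tl, EF tc d1 e8_1_9 :=
  tl_forall (EF.tv rfl q0_1 c8_0_1_9) (EF.tv rfl q1_1 c8_1_1_9) (EF.tv rfl q2_1 c8_2_1_9) (EF.tv rfl q3_1 c8_3_1_9) (EF.tv rfl q4_1 c8_4_1_9) (EF.tv rfl q5_1 c8_5_1_9) (EF.tv rfl q6_1 c8_6_1_9) (EF.tv rfl q7_1 c8_7_1_9) (EF.tv rfl q8_1 c8_8_1_9) (EF.tv rfl q9_1 c8_9_1_9) (EF.tv rfl q10_1 c8_10_1_9) (EF.tv rfl q11_1 c8_11_1_9) (EF.tv rfl q12_1 c8_12_1_9) (EF.tv rfl q13_1 c8_13_1_9) (EF.tv rfl q14_1 c8_14_1_9) (EF.tv rfl q15_1 c8_15_1_9) (EF.tv rfl q16_1 c8_16_1_9) (EF.tv rfl q17_1 c8_17_1_9) (EF.tv rfl q18_1 c8_18_1_9) (EF.tv rfl q19_1 c8_19_1_9) (EF.tv rfl q20_1 c8_20_1_9) (EF.tv rfl q21_1 c8_21_1_9) (EF.tv rfl q22_1 c8_22_1_9) (EF.tv rfl q23_1 c8_23_1_9) (EF.tv rfl q24_1 c8_24_1_9) (EF.tv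 rfl q25_1 c8_25_1_9) (EF.tv rfl q26_1 c8_26_1_9) (EF.tv rfl q27_1 c8_27_1_9) (EF.tv rfl q28_1 c8_28_1_9) (EF.tv rfl q29_1 c8_29_1_9) (EF.tv rfl q30_1 c8_30_1_9) (EF.tv rfl q31_1 c8_31_1_9) (EF.tv rfl q32_1 c8_32_1_9) (EF.tv rfl q33_1 c8_33_1_9) (EF.tv rfl q34_1 c8_34_1_9) (EF.tv rfl q35_1 c8_35_1_9) (EF.tv rfl q36_1 c8_36_1_9) (EF.tv rfl q37_1 c8_37_1_9) (EF.tv rfl q38_1 c8_38_1_9) (EF.tv rfl q39_1 c8_39_1_9) (EF.tv rfl q40_1 c8_40_1_9) (EF.tv rfl q41_1 c8_41_1_9) (EF.tv rfl q42_1 c8_42_1_9) (EF.tv rfl q43_1 c8_43_1_9) (EF.tv rfl q44_1 c8_44_1_9) (EF.tv rfl q45_1 c8_45_1_9) (EF.tv rfl q46_1 c8_46_1_9)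

theorem h4_1 : EvC tl 4 (shK Dec.one 4) d1 :=
  EvC.of2 (tab := tabX 4) (Ls := [e4_1_0, e4_1_1, e4_1_2, e4_1_3]) (tabX_ok 4)
    (by decide +kernel) (by decide +kernel) (by
    intro L hL
    simp only [List.mem_cons, List.not_mem_nil, or_false] at hL
    rcases hL with rfl | rfl | rfl | rfl
    · exact f4_1_0
    · exact f4_1_1
    · exact f4_1_2
    · exact f4_1_3)

theorem h6_1 : EvC tl 6 (shK Dec.one 6) d1 :=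
  EvC.of2 (tab := tabX 6) (Ls := [e6_1_4, e6_1_5, e6_1_6, e6_1_7]) (tabX_ok 6)
    (by decide +kernel) (by decide +kernel) (by
    intro L hL
    simp only [List.mem_cons, List.not_mem_nil, or_false] at hL
    rcases hL with rfl | rfl | rfl | rfl
    · exact f6_1_4
    · exact f6_1_5
    · exact f6_1_6
    · exact f6_1_7)

theorem h8_1 : EvC tl 0 (shA Dec.one 106) d1 :=
  EvC.of2 (tab := tabX 0) (Ls := [e8_1_8, e8_1_9]) (tabX_ok 0)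
    (by decide +kernel) (by decide +kernel) (by
    intro L hL
    simp only [List.mem_cons, List.not_mem_nil, or_false] at hL
    rcases hL with rfl | rfl
    · exact f8_1_8
    · exact f8_1_9)

theorem hh_1 : EvC8 tl Dec.one d1 := EvC8.a h8_1

end Pool.Agent.TSE
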