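import Pool.Agent.TSE.C10_0
import Pool.Agent.TSE.C10_2
import Pool.Agent.TSE.C10_4
import Pool.Agent.TSE.C10_6
import Pool.Agent.TSE.C10_8
import Pool.Agent.TSE.C10_10
import Pool.Agent.TSE.C10_12
import Pool.Agent.TSE.C10_14
import Pool.Agent.TSE.C10_16
import Pool.Agent.TSE.C10_18
import Pool.Agent.TSE.C10_20
import Pool.Agent.TSE.C10_22
import Pool.Agent.TSE.C10_24
import Pool.Agent.TSE.C10_26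
import Pool.Agent.TSE.C10_28
import Pool.Agent.TSE.C10_30
import Pool.Agent.TSE.C10_32
import Pool.Agent.TSE.C10_34
import Pool.Agent.TSE.C10_36
import Pool.Agent.TSE.C10_38
import Pool.Agent.TSE.C10_40
import Pool.Agent.TSE.C10_42
import Pool.Agent.TSE.C10_44
import Pool.Agent.TSE.C10_46
import Pool.Agent.TSE.T
import Pool.Agent.TSE.BaseC
import Pool.Agent.TSG.TabX

set_option autoImplicit false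

/-! # One interval of the total mass (MP_d27362_co) -/

namespace Pool.Agent.TSE

open Pool.Agent.TSC
open Pool.Agent.TSC.Dec
open Pool.Agent.TSG


theorem kf10 : ∀ tc ∈ tl, Pool.Agent.TSK.KF tc d10 :=
  tl_forall (KF.tv rfl q0_10 c0_10) (KF.tv rfl q1_10 c1_10) (KF.tv rfl q2_10 c2_10) (KF.tv rfl q3_10 c3_10) (KF.tv rfl q4_10 c4_10) (KF.tv rfl q5_10 c5_10) (KF.tv rfl q6_10 c6_10) (KF.tv rfl q7_10 c7_10) (KF.tv rfl q8_10 c8_10) (KF.tv rfl q9_10 c9_10) (KF.tv rfl q10_10 c10_10) (KF.tv rfl q11_10 c11_10) (KF.tv rfl q12_10 c12_10) (KF.tv rfl q13_10 c13_10) (KF.tv rfl q14_10 c14_10) (KF.tv rfl q15_10 c15_10) (KF.tv rfl q16_10 c16_10) (KF.tv rfl q17_10 c17_10) (KF.tv rfl q18_10 c18_10) (KF.tv rfl q19_10 c19_10) (KF.tv rfl q20_10 c20_10) (KF.tv rfl q21_10 c21_10) (KF.tv rfl q22_10 c22_10) (KF.tv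 rfl q23_10 c23_10) (KF.tv rfl q24_10 c24_10) (KF.tv rfl q25_10 c25_10) (KF.tv rfl q26_10 c26_10) (KF.tv rfl q27_10 c27_10) (KF.tv rfl q28_10 c28_10) (KF.tv rfl q29_10 c29_10) (KF.tv rfl q30_10 c30_10) (KF.tv rfl q31_10 c31_10) (KF.tv rfl q32_10 c32_10) (KF.tv rfl q33_10 c33_10) (KF.tv rfl q34_10 c34_10) (KF.tv rfl q35_10 c35_10) (KF.tv rfl q36_10 c36_10) (KF.tv rfl q37_10 c37_10) (KF.tv rfl q38_10 c38_10) (KF.tv rfl q39_10 c39_10) (KF.tv rfl q40_10 c40_10) (KF.tv rfl q41_10 c41_10) (KF.tv rfl q42_10 c42_10) (KF.tv rfl q43_10 c43_10) (KF.tv rfl q44_10 c44_10) (KF.tv rfl q45_10 c45_10) (KF.tv rfl q46_10 c46_10)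

theorem f4_10_0 : ∀ tc ∈ tl, EF tc d10 e4_10_0 :=
  tl_forall (EF.tv rfl q0_10 c4_0_10_0) (EF.tv rfl q1_10 c4_1_10_0) (EF.tv rfl q2_10 c4_2_10_0) (EF.tv rfl q3_10 c4_3_10_0) (EF.tv rfl q4_10 c4_4_10_0) (EF.tv rfl q5_10 c4_5_10_0) (EF.tv rfl q6_10 c4_6_10_0) (EF.tv rfl q7_10 c4_7_10_0) (EF.tv rfl q8_10 c4_8_10_0) (EF.tv rfl q9_10 c4_9_10_0) (EF.tv rfl q10_10 c4_10_10_0) (EF.tv rfl q11_10 c4_11_10_0) (EF.tv rfl q12_10 c4_12_10_0) (EF.tv rfl q13_10 c4_13_10_0) (EF.tv rfl q14_10 c4_14_10_0) (EF.tv rfl q15_10 c4_15_10_0) (EF.tv rfl q16_10 c4_16_10_0) (EF.tv rfl q17_10 c4_17_10_0) (EF.tv rfl q18_10 c4_18_10_0) (EF.tv rfl q19_10 c4_19_10_0) (EF.tv rfl q20_10 c4_20_10_0) (EF.tv rfl q21_10 c4_21_10_0) (EF.tv rfl q22_10 c4_22_10_0) (EF.tv rfl q23_10 c4_23_10_0) (EF.tv rfl q24_10 c4_24_10_0) (EF.tv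 rfl q25_10 c4_25_10_0) (EF.tv rfl q26_10 c4_26_10_0) (EF.tv rfl q27_10 c4_27_10_0) (EF.tv rfl q28_10 c4_28_10_0) (EF.tv rfl q29_10 c4_29_10_0) (EF.tv rfl q30_10 c4_30_10_0) (EF.tv rfl q31_10 c4_31_10_0) (EF.tv rfl q32_10 c4_32_10_0) (EF.tv rfl q33_10 c4_33_10_0) (EF.tv rfl q34_10 c4_34_10_0) (EF.tv rfl q35_10 c4_35_10_0) (EF.tv rfl q36_10 c4_36_10_0) (EF.tv rfl q37_10 c4_37_10_0) (EF.tv rfl q38_10 c4_38_10_0) (EF.tv rfl q39_10 c4_39_10_0) (EF.tv rfl q40_10 c4_40_10_0) (EF.tv rfl q41_10 c4_41_10_0) (EF.tv rfl q42_10 c4_42_10_0) (EF.tv rfl q43_10 c4_43_10_0) (EF.tv rfl q44_10 c4_44_10_0) (EF.tv rfl q45_10 c4_45_10_0) (EF.tv rfl q46_10 c4_46_10_0)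

theorem f4_10_1 : ∀ tc ∈ tl, EF tc d10 e4_10_1 :=
  tl_forall (EF.tv rfl q0_10 c4_0_10_1) (EF.tv rfl q1_10 c4_1_10_1) (EF.tv rfl q2_10 c4_2_10_1) (EF.tv rfl q3_10 c4_3_10_1) (EF.tv rfl q4_10 c4_4_10_1) (EF.tv rfl q5_10 c4_5_10_1) (EF.tv rfl q6_10 c4_6_10_1) (EF.tv rfl q7_10 c4_7_10_1) (EF.tv rfl q8_10 c4_8_10_1) (EF.tv rfl q9_10 c4_9_10_1) (EF.tv rfl q10_10 c4_10_10_1) (EF.tv rfl q11_10 c4_11_10_1) (EF.tv rfl q12_10 c4_12_10_1) (EF.tv rfl q13_10 c4_13_10_1) (EF.tv rfl q14_10 c4_14_10_1) (EF.tv rfl q15_10 c4_15_10_1) (EF.tv rfl q16_10 c4_16_10_1) (EF.tv rfl q17_10 c4_17_10_1) (EF.tv rfl q18_10 c4_18_10_1) (EF.tv rfl q19_10 c4_19_10_1) (EF.tv rfl q20_10 c4_20_10_1) (EF.tv rfl q21_10 c4_21_10_1) (EF.tv rfl q22_10 c4_22_10_1) (EF.tv rfl q23_10 c4_23_10_1) (EF.tv rfl q24_10 c4_24_10_1) (EF.tv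 rfl q25_10 c4_25_10_1) (EF.tv rfl q26_10 c4_26_10_1) (EF.tv rfl q27_10 c4_27_10_1) (EF.tv rfl q28_10 c4_28_10_1) (EF.tv rfl q29_10 c4_29_10_1) (EF.tv rfl q30_10 c4_30_10_1) (EF.tv rfl q31_10 c4_31_10_1) (EF.tv rfl q32_10 c4_32_10_1) (EF.tv rfl q33_10 c4_33_10_1) (EF.tv rfl q34_10 c4_34_10_1) (EF.tv rfl q35_10 c4_35_10_1) (EF.tv rfl q36_10 c4_36_10_1) (EF.tv rfl q37_10 c4_37_10_1) (EF.tv rfl q38_10 c4_38_10_1) (EF.tv rfl q39_10 c4_39_10_1) (EF.tv rfl q40_10 c4_40_10_1) (EF.tv rfl q41_10 c4_41_10_1) (EF.tv rfl q42_10 c4_42_10_1) (EF.tv rfl q43_10 c4_43_10_1) (EF.tv rfl q44_10 c4_44_10_1) (EF.tv rfl q45_10 c4_45_10_1) (EF.tv rfl q46_10 c4_46_10_1)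

theorem f4_10_2 : ∀ tc ∈ tl, EF tc d10 e4_10_2 :=
  tl_forall (EF.tv rfl q0_10 c4_0_10_2) (EF.tv rfl q1_10 c4_1_10_2) (EF.tv rfl q2_10 c4_2_10_2) (EF.tv rfl q3_10 c4_3_10_2) (EF.tv rfl q4_10 c4_4_10_2) (EF.tv rfl q5_10 c4_5_10_2) (EF.tv rfl q6_10 c4_6_10_2) (EF.tv rfl q7_10 c4_7_10_2) (EF.tv rfl q8_10 c4_8_10_2) (EF.tv rfl q9_10 c4_9_10_2) (EF.tv rfl q10_10 c4_10_10_2) (EF.tv rfl q11_10 c4_11_10_2) (EF.tv rfl q12_10 c4_12_10_2) (EF.tv rfl q13_10 c4_13_10_2) (EF.tv rfl q14_10 c4_14_10_2) (EF.tv rfl q15_10 c4_15_10_2) (EF.tv rfl q16_10 c4_16_10_2) (EF.tv rfl q17_10 c4_17_10_2) (EF.tv rfl q18_10 c4_18_10_2) (EF.tv rfl q19_10 c4_19_10_2) (EF.tv rfl q20_10 c4_20_10_2) (EF.tv rfl q21_10 c4_21_10_2) (EF.tv rfl q22_10 c4_22_10_2) (EF.tv rfl q23_10 c4_23_10_2) (EF.tv rfl q24_10 c4_24_10_2) (EF.tv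 rfl q25_10 c4_25_10_2) (EF.tv rfl q26_10 c4_26_10_2) (EF.tv rfl q27_10 c4_27_10_2) (EF.tv rfl q28_10 c4_28_10_2) (EF.tv rfl q29_10 c4_29_10_2) (EF.tv rfl q30_10 c4_30_10_2) (EF.tv rfl q31_10 c4_31_10_2) (EF.tv rfl q32_10 c4_32_10_2) (EF.tv rfl q33_10 c4_33_10_2) (EF.tv rfl q34_10 c4_34_10_2) (EF.tv rfl q35_10 c4_35_10_2) (EF.tv rfl q36_10 c4_36_10_2) (EF.tv rfl q37_10 c4_37_10_2) (EF.tv rfl q38_10 c4_38_10_2) (EF.tv rfl q39_10 c4_39_10_2) (EF.tv rfl q40_10 c4_40_10_2) (EF.tv rfl q41_10 c4_41_10_2) (EF.tv rfl q42_10 c4_42_10_2) (EF.tv rfl q43_10 c4_43_10_2) (EF.tv rfl q44_10 c4_44_10_2) (EF.tv rfl q45_10 c4_45_10_2) (EF.tv rfl q46_10 c4_46_10_2)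

theorem f4_10_3 : ∀ tc ∈ tl, EF tc d10 e4_10_3 :=
  tl_forall (EF.tv rfl q0_10 c4_0_10_3) (EF.tv rfl q1_10 c4_1_10_3) (EF.tv rfl q2_10 c4_2_10_3) (EF.tv rfl q3_10 c4_3_10_3) (EF.tv rfl q4_10 c4_4_10_3) (EF.tv rfl q5_10 c4_5_10_3) (EF.tv rfl q6_10 c4_6_10_3) (EF.tv rfl q7_10 c4_7_10_3) (EF.tv rfl q8_10 c4_8_10_3) (EF.tv rfl q9_10 c4_9_10_3) (EF.tv rfl q10_10 c4_10_10_3) (EF.tv rfl q11_10 c4_11_10_3) (EF.tv rfl q12_10 c4_12_10_3) (EF.tv rfl q13_10 c4_13_10_3) (EF.tv rfl q14_10 c4_14_10_3) (EF.tv rfl q15_10 c4_15_10_3) (EF.tv rfl q16_10 c4_16_10_3) (EF.tv rfl q17_10 c4_17_10_3) (EF.tv rfl q18_10 c4_18_10_3) (EF.tv rfl q19_10 c4_19_10_3) (EF.tv rfl q20_10 c4_20_10_3) (EF.tv rfl q21_10 c4_21_10_3) (EF.tv rfl q22_10 c4_22_10_3) (EF.tv rfl q23_10 c4_23_10_3) (EF.tv rfl q24_10 c4_24_10_3) (EF.tv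 rfl q25_10 c4_25_10_3) (EF.tv rfl q26_10 c4_26_10_3) (EF.tv rfl q27_10 c4_27_10_3) (EF.tv rfl q28_10 c4_28_10_3) (EF.tv rfl q29_10 c4_29_10_3) (EF.tv rfl q30_10 c4_30_10_3) (EF.tv rfl q31_10 c4_31_10_3) (EF.tv rfl q32_10 c4_32_10_3) (EF.tv rfl q33_10 c4_33_10_3) (EF.tv rfl q34_10 c4_34_10_3) (EF.tv rfl q35_10 c4_35_10_3) (EF.tv rfl q36_10 c4_36_10_3) (EF.tv rfl q37_10 c4_37_10_3) (EF.tv rfl q38_10 c4_38_10_3) (EF.tv rfl q39_10 c4_39_10_3) (EF.tv rfl q40_10 c4_40_10_3) (EF.tv rfl q41_10 c4_41_10_3) (EF.tv rfl q42_10 c4_42_10_3) (EF.tv rfl q43_10 c4_43_10_3) (EF.tv rfl q44_10 c4_44_10_3) (EF.tv rfl q45_10 c4_45_10_3) (EF.tv rfl q46_10 c4_46_10_3)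

theorem f6_10_4 : ∀ tc ∈ tl, EF tc d10 e6_10_4 :=
  tl_forall (EF.tv rfl q0_10 c6_0_10_4) (EF.tv rfl q1_10 c6_1_10_4) (EF.tv rfl q2_10 c6_2_10_4) (EF.tv rfl q3_10 c6_3_10_4) (EF.tv rfl q4_10 c6_4_10_4) (EF.tv rfl q5_10 c6_5_10_4) (EF.tv rfl q6_10 c6_6_10_4) (EF.tv rfl q7_10 c6_7_10_4) (EF.tv rfl q8_10 c6_8_10_4) (EF.tv rfl q9_10 c6_9_10_4) (EF.tv rfl q10_10 c6_10_10_4) (EF.tv rfl q11_10 c6_11_10_4) (EF.tv rfl q12_10 c6_12_10_4) (EF.tv rfl q13_10 c6_13_10_4) (EF.tv rfl q14_10 c6_14_10_4) (EF.tv rfl q15_10 c6_15_10_4) (EF.tv rfl q16_10 c6_16_10_4) (EF.tv rfl q17_10 c6_17_10_4) (EF.tv rfl q18_10 c6_18_10_4) (EF.tv rfl q19_10 c6_19_10_4) (EF.tv rfl q20_10 c6_20_10_4) (EF.tv rfl q21_10 c6_21_10_4) (EF.tv rfl q22_10 c6_22_10_4) (EF.tv rfl q23_10 c6_23_10_4) (EF.tv rfl q24_10 c6_24_10_4) (EF.tv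 rfl q25_10 c6_25_10_4) (EF.tv rfl q26_10 c6_26_10_4) (EF.tv rfl q27_10 c6_27_10_4) (EF.tv rfl q28_10 c6_28_10_4) (EF.tv rfl q29_10 c6_29_10_4) (EF.tv rfl q30_10 c6_30_10_4) (EF.tv rfl q31_10 c6_31_10_4) (EF.tv rfl q32_10 c6_32_10_4) (EF.tv rfl q33_10 c6_33_10_4) (EF.tv rfl q34_10 c6_34_10_4) (EF.tv rfl q35_10 c6_35_10_4) (EF.tv rfl q36_10 c6_36_10_4) (EF.tv rfl q37_10 c6_37_10_4) (EF.tv rfl q38_10 c6_38_10_4) (EF.tv rfl q39_10 c6_39_10_4) (EF.tv rfl q40_10 c6_40_10_4) (EF.tv rfl q41_10 c6_41_10_4) (EF.tv rfl q42_10 c6_42_10_4) (EF.tv rfl q43_10 c6_43_10_4) (EF.tv rfl q44_10 c6_44_10_4) (EF.tv rfl q45_10 c6_45_10_4) (EF.tv rfl q46_10 c6_46_10_4)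

theorem f6_10_5 : ∀ tc ∈ tl, EF tc d10 e6_10_5 :=
  tl_forall (EF.tv rfl q0_10 c6_0_10_5) (EF.tv rfl q1_10 c6_1_10_5) (EF.tv rfl q2_10 c6_2_10_5) (EF.tv rfl q3_10 c6_3_10_5) (EF.tv rfl q4_10 c6_4_10_5) (EF.tv rfl q5_10 c6_5_10_5) (EF.tv rfl q6_10 c6_6_10_5) (EF.tv rfl q7_10 c6_7_10_5) (EF.tv rfl q8_10 c6_8_10_5) (EF.tv rfl q9_10 c6_9_10_5) (EF.tv rfl q10_10 c6_10_10_5) (EF.tv rfl q11_10 c6_11_10_5) (EF.tv rfl q12_10 c6_12_10_5) (EF.tv rfl q13_10 c6_13_10_5) (EF.tv rfl q14_10 c6_14_10_5) (EF.tv rfl q15_10 c6_15_10_5) (EF.tv rfl q16_10 c6_16_10_5) (EF.tv rfl q17_10 c6_17_10_5) (EF.tv rfl q18_10 c6_18_10_5) (EF.tv rfl q19_10 c6_19_10_5) (EF.tv rfl q20_10 c6_20_10_5) (EF.tv rfl q21_10 c6_21_10_5) (EF.tv rfl q22_10 c6_22_10_5) (EF.tv rfl q23_10 c6_23_10_5) (EF.tv rfl q24_10 c6_24_10_5) (EF.tv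 rfl q25_10 c6_25_10_5) (EF.tv rfl q26_10 c6_26_10_5) (EF.tv rfl q27_10 c6_27_10_5) (EF.tv rfl q28_10 c6_28_10_5) (EF.tv rfl q29_10 c6_29_10_5) (EF.tv rfl q30_10 c6_30_10_5) (EF.tv rfl q31_10 c6_31_10_5) (EF.tv rfl q32_10 c6_32_10_5) (EF.tv rfl q33_10 c6_33_10_5) (EF.tv rfl q34_10 c6_34_10_5) (EF.tv rfl q35_10 c6_35_10_5) (EF.tv rfl q36_10 c6_36_10_5) (EF.tv rfl q37_10 c6_37_10_5) (EF.tv rfl q38_10 c6_38_10_5) (EF.tv rfl q39_10 c6_39_10_5) (EF.tv rfl q40_10 c6_40_10_5) (EF.tv rfl q41_10 c6_41_10_5) (EF.tv rfl q42_10 c6_42_10_5) (EF.tv rfl q43_10 c6_43_10_5) (EF.tv rfl q44_10 c6_44_10_5) (EF.tv rfl q45_10 c6_45_10_5) (EF.tv rfl q46_10 c6_46_10_5)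

theorem f6_10_6 : ∀ tc ∈ tl, EF tc d10 e6_10_6 :=
  tl_forall (EF.tv rfl q0_10 c6_0_10_6) (EF.tv rfl q1_10 c6_1_10_6) (EF.tv rfl q2_10 c6_2_10_6) (EF.tv rfl q3_10 c6_3_10_6) (EF.tv rfl q4_10 c6_4_10_6) (EF.tv rfl q5_10 c6_5_10_6) (EF.tv rfl q6_10 c6_6_10_6) (EF.tv rfl q7_10 c6_7_10_6) (EF.tv rfl q8_10 c6_8_10_6) (EF.tv rfl q9_10 c6_9_10_6) (EF.tv rfl q10_10 c6_10_10_6) (EF.tv rfl q11_10 c6_11_10_6) (EF.tv rfl q12_10 c6_12_10_6) (EF.tv rfl q13_10 c6_13_10_6) (EF.tv rfl q14_10 c6_14_10_6) (EF.tv rfl q15_10 c6_15_10_6) (EF.tv rfl q16_10 c6_16_10_6) (EF.tv rfl q17_10 c6_17_10_6) (EF.tv rfl q18_10 c6_18_10_6) (EF.tv rfl q19_10 c6_19_10_6) (EF.tv rfl q20_10 c6_20_10_6) (EF.tv rfl q21_10 c6_21_10_6) (EF.tv rfl q22_10 c6_22_10_6) (EF.tv rfl q23_10 c6_23_10_6) (EF.tv rfl q24_10 c6_24_10_6) (EF.tv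 rfl q25_10 c6_25_10_6) (EF.tv rfl q26_10 c6_26_10_6) (EF.tv rfl q27_10 c6_27_10_6) (EF.tv rfl q28_10 c6_28_10_6) (EF.tv rfl q29_10 c6_29_10_6) (EF.tv rfl q30_10 c6_30_10_6) (EF.tv rfl q31_10 c6_31_10_6) (EF.tv rfl q32_10 c6_32_10_6) (EF.tv rfl q33_10 c6_33_10_6) (EF.tv rfl q34_10 c6_34_10_6) (EF.tv rfl q35_10 c6_35_10_6) (EF.tv rfl q36_10 c6_36_10_6) (EF.tv rfl q37_10 c6_37_10_6) (EF.tv rfl q38_10 c6_38_10_6) (EF.tv rfl q39_10 c6_39_10_6) (EF.tv rfl q40_10 c6_40_10_6) (EF.tv rfl q41_10 c6_41_10_6) (EF.tv rfl q42_10 c6_42_10_6) (EF.tv rfl q43_10 c6_43_10_6) (EF.tv rfl q44_10 c6_44_10_6) (EF.tv rfl q45_10 c6_45_10_6) (EF.tv rfl q46_10 c6_46_10_6)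

theorem f6_10_7 : ∀ tc ∈ tl, EF tc d10 e6_10_7 :=
  tl_forall (EF.tv rfl q0_10 c6_0_10_7) (EF.tv rfl q1_10 c6_1_10_7) (EF.tv rfl q2_10 c6_2_10_7) (EF.tv rfl q3_10 c6_3_10_7) (EF.tv rfl q4_10 c6_4_10_7) (EF.tv rfl q5_10 c6_5_10_7) (EF.tv rfl q6_10 c6_6_10_7) (EF.tv rfl q7_10 c6_7_10_7) (EF.tv rfl q8_10 c6_8_10_7) (EF.tv rfl q9_10 c6_9_10_7) (EF.tv rfl q10_10 c6_10_10_7) (EF.tv rfl q11_10 c6_11_10_7) (EF.tv rfl q12_10 c6_12_10_7) (EF.tv rfl q13_10 c6_13_10_7) (EF.tv rfl q14_10 c6_14_10_7) (EF.tv rfl q15_10 c6_15_10_7) (EF.tv rfl q16_10 c6_16_10_7) (EF.tv rfl q17_10 c6_17_10_7) (EF.tv rfl q18_10 c6_18_10_7) (EF.tv rfl q19_10 c6_19_10_7) (EF.tv rfl q20_10 c6_20_10_7) (EF.tv rfl q21_10 c6_21_10_7) (EF.tv rfl q22_10 c6_22_10_7) (EF.tv rfl q23_10 c6_23_10_7) (EF.tv rfl q24_10 c6_24_10_7) (EF.tv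 rfl q25_10 c6_25_10_7) (EF.tv rfl q26_10 c6_26_10_7) (EF.tv rfl q27_10 c6_27_10_7) (EF.tv rfl q28_10 c6_28_10_7) (EF.tv rfl q29_10 c6_29_10_7) (EF.tv rfl q30_10 c6_30_10_7) (EF.tv rfl q31_10 c6_31_10_7) (EF.tv rfl q32_10 c6_32_10_7) (EF.tv rfl q33_10 c6_33_10_7) (EF.tv rfl q34_10 c6_34_10_7) (EF.tv rfl q35_10 c6_35_10_7) (EF.tv rfl q36_10 c6_36_10_7) (EF.tv rfl q37_10 c6_37_10_7) (EF.tv rfl q38_10 c6_38_10_7) (EF.tv rfl q39_10 c6_39_10_7) (EF.tv rfl q40_10 c6_40_10_7) (EF.tv rfl q41_10 c6_41_10_7) (EF.tv rfl q42_10 c6_42_10_7) (EF.tv rfl q43_10 c6_43_10_7) (EF.tv rfl q44_10 c6_44_10_7) (EF.tv rfl q45_10 c6_45_10_7) (EF.tv rfl q46_10 c6_46_10_7)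

theorem f8_10_8 : ∀ tc ∈ tl, EF tc d10 e8_10_8 :=
  tl_forall (EF.tv rfl q0_10 c8_0_10_8) (EF.tv rfl q1_10 c8_1_10_8) (EF.tv rfl q2_10 c8_2_10_8) (EF.tv rfl q3_10 c8_3_10_8) (EF.tv rfl q4_10 c8_4_10_8) (EF.tv rfl q5_10 c8_5_10_8) (EF.tv rfl q6_10 c8_6_10_8) (EF.tv rfl q7_10 c8_7_10_8) (EF.tv rfl q8_10 c8_8_10_8) (EF.tv rfl q9_10 c8_9_10_8) (EF.tv rfl q10_10 c8_10_10_8) (EF.tv rfl q11_10 c8_11_10_8) (EF.tv rfl q12_10 c8_12_10_8) (EF.tv rfl q13_10 c8_13_10_8) (EF.tv rfl q14_10 c8_14_10_8) (EF.tv rfl q15_10 c8_15_10_8) (EF.tv rfl q16_10 c8_16_10_8) (EF.tv rfl q17_10 c8_17_10_8) (EF.tv rfl q18_10 c8_18_10_8) (EF.tv rfl q19_10 c8_19_10_8) (EF.tv rfl q20_10 c8_20_10_8) (EF.tv rfl q21_10 c8_21_10_8) (EF.tv rfl q22_10 c8_22_10_8) (EF.tv rfl q23_10 c8_23_10_8) (EF.tv rfl q24_10 c8_24_10_8) (EF.tv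 rfl q25_10 c8_25_10_8) (EF.tv rfl q26_10 c8_26_10_8) (EF.tv rfl q27_10 c8_27_10_8) (EF.tv rfl q28_10 c8_28_10_8) (EF.tv rfl q29_10 c8_29_10_8) (EF.tv rfl q30_10 c8_30_10_8) (EF.tv rfl q31_10 c8_31_10_8) (EF.tv rfl q32_10 c8_32_10_8) (EF.tv rfl q33_10 c8_33_10_8) (EF.tv rfl q34_10 c8_34_10_8) (EF.tv rfl q35_10 c8_35_10_8) (EF.tv rfl q36_10 c8_36_10_8) (EF.tv rfl q37_10 c8_37_10_8) (EF.tv rfl q38_10 c8_38_10_8) (EF.tv rfl q39_10 c8_39_10_8) (EF.tv rfl q40_10 c8_40_10_8) (EF.tv rfl q41_10 c8_41_10_8) (EF.tv rfl q42_10 c8_42_10_8) (EF.tv rfl q43_10 c8_43_10_8) (EF.tv rfl q44_10 c8_44_10_8) (EF.tv rfl q45_10 c8_45_10_8) (EF.tv rfl q46_10 c8_46_10_8)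

theorem f8_10_9 : ∀ tc ∈ tl, EF tc d10 e8_10_9 :=
  tl_forall (EF.tv rfl q0_10 c8_0_10_9) (EF.tv rfl q1_10 c8_1_10_9) (EF.tv rfl q2_10 c8_2_10_9) (EF.tv rfl q3_10 c8_3_10_9) (EF.tv rfl q4_10 c8_4_10_9) (EF.tv rfl q5_10 c8_5_10_9) (EF.tv rfl q6_10 c8_6_10_9) (EF.tv rfl q7_10 c8_7_10_9) (EF.tv rfl q8_10 c8_8_10_9) (EF.tv rfl q9_10 c8_9_10_9) (EF.tv rfl q10_10 c8_10_10_9) (EF.tv rfl q11_10 c8_11_10_9) (EF.tv rfl q12_10 c8_12_10_9) (EF.tv rfl q13_10 c8_13_10_9) (EF.tv rfl q14_10 c8_14_10_9) (EF.tv rfl q15_10 c8_15_10_9) (EF.tv rfl q16_10 c8_16_10_9) (EF.tv rfl q17_10 c8_17_10_9) (EF.tv rfl q18_10 c8_18_10_9) (EF.tv rfl q19_10 c8_19_10_9) (EF.tv rfl q20_10 c8_20_10_9) (EF.tv rfl q21_10 c8_21_10_9) (EF.tv rfl q22_10 c8_22_10_9) (EF.tv rfl q23_10 c8_23_10_9) (EF.tv rfl q24_10 c8_24_10_9) (EF.tv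 rfl q25_10 c8_25_10_9) (EF.tv rfl q26_10 c8_26_10_9) (EF.tv rfl q27_10 c8_27_10_9) (EF.tv rfl q28_10 c8_28_10_9) (EF.tv rfl q29_10 c8_29_10_9) (EF.tv rfl q30_10 c8_30_10_9) (EF.tv rfl q31_10 c8_31_10_9) (EF.tv rfl q32_10 c8_32_10_9) (EF.tv rfl q33_10 c8_33_10_9) (EF.tv rfl q34_10 c8_34_10_9) (EF.tv rfl q35_10 c8_35_10_9) (EF.tv rfl q36_10 c8_36_10_9) (EF.tv rfl q37_10 c8_37_10_9) (EF.tv rfl q38_10 c8_38_10_9) (EF.tv rfl q39_10 c8_39_10_9) (EF.tv rfl q40_10 c8_40_10_9) (EF.tv rfl q41_10 c8_41_10_9) (EF.tv rfl q42_10 c8_42_10_9) (EF.tv rfl q43_10 c8_43_10_9) (EF.tv rfl q44_10 c8_44_10_9) (EF.tv rfl q45_10 c8_45_10_9) (EF.tv rfl q46_10 c8_46_10_9)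

theorem h4_10 : EvC tl 4 (shK Dec.one 4) d10 :=
  EvC.of2 (tab := tabX 4) (Ls := [e4_10_0, e4_10_1, e4_10_2, e4_10_3]) (tabX_ok 4)
    (by decide +kernel) (by decide +kernel) (by
    intro L hL
    simp only [List.mem_cons, List.not_mem_nil, or_false] at hL
    rcases hL with rfl | rfl | rfl | rfl
    · exact f4_10_0
    · exact f4_10_1
    · exact f4_10_2
    · exact f4_10_3)

theorem h6_10 : EvC tl 6 (shK Dec.one 6) d10 :=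
  EvC.of2 (tab := tabX 6) (Ls := [e6_10_4, e6_10_5, e6_10_6, e6_10_7]) (tabX_ok 6)
    (by decide +kernel) (by decide +kernel) (by
    intro L hL
    simp only [List.mem_cons, List.not_mem_nil, or_false] at hL
    rcases hL with rfl | rfl | rfl | rfl
    · exact f6_10_4
    · exact f6_10_5
    · exact f6_10_6
    · exact f6_10_7)

theorem h8_10 : EvC tl 0 (shA Dec.one 106) d10 :=
  EvC.of2 (tab := tabX 0) (Ls := [e8_10_8, e8_10_9]) (tabX_ok 0)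
    (by decide +kernel) (by decide +kernel) (by
    intro L hL
    simp only [List.mem_cons, List.not_mem_nil, or_false] at hL
    rcases hL with rfl | rfl
    · exact f8_10_8
    · exact f8_10_9)

theorem hh_10 : EvC8 tl Dec.one d10 := EvC8.a h8_10

end Pool.Agent.TSE
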