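import Pool.Agent.TSE.C11_0
import Pool.Agent.TSE.C11_2
import Pool.Agent.TSE.C11_4
import Pool.Agent.TSE.C11_6
import Pool.Agent.TSE.C11_8
import Pool.Agent.TSE.C11_10
import Pool.Agent.TSE.C11_12
import Pool.Agent.TSE.C11_14
import Pool.Agent.TSE.C11_16
import Pool.Agent.TSE.C11_18
import Pool.Agent.TSE.C11_20
import Pool.Agent.TSE.C11_22
import Pool.Agent.TSE.C11_24
import Pool.Agent.TSE.C11_26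
import Pool.Agent.TSE.C11_28
import Pool.Agent.TSE.C11_30
import Pool.Agent.TSE.C11_32
import Pool.Agent.TSE.C11_34
import Pool.Agent.TSE.C11_36
import Pool.Agent.TSE.C11_38
import Pool.Agent.TSE.C11_40
import Pool.Agent.TSE.C11_42
import Pool.Agent.TSE.C11_44
import Pool.Agent.TSE.C11_46
import Pool.Agent.TSE.T
import Pool.Agent.TSE.BaseC
import Pool.Agent.TSG.TabX

set_option autoImplicit false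

/-! # One interval of the total mass (MP_d27362_co) -/

namespace Pool.Agent.TSE

open Pool.Agent.TSC
open Pool.Agent.TSC.Dec
open Pool.Agent.TSG


theorem kf11 : ∀ tc ∈ tl, Pool.Agent.TSK.KF tc d11 :=
  tl_forall (KF.tv rfl q0_11 c0_11) (KF.tv rfl q1_11 c1_11) (KF.tv rfl q2_11 c2_11) (KF.tv rfl q3_11 c3_11) (KF.tv rfl q4_11 c4_11) (KF.tv rfl q5_11 c5_11) (KF.tv rfl q6_11 c6_11) (KF.tv rfl q7_11 c7_11) (KF.tv rfl q8_11 c8_11) (KF.tv rfl q9_11 c9_11) (KF.tv rfl q10_11 c10_11) (KF.tv rfl q11_11 c11_11) (KF.tv rfl q12_11 c12_11) (KF.tv rfl q13_11 c13_11) (KF.tv rfl q14_11 c14_11) (KF.tv rfl q15_11 c15_11) (KF.tv rfl q16_11 c16_11) (KF.tv rfl q17_11 c17_11) (KF.tv rfl q18_11 c18_11) (KF.tv rfl q19_11 c19_11) (KF.tv rfl q20_11 c20_11) (KF.tv rfl q21_11 c21_11) (KF.tv rfl q22_11 c22_11) (KF.tv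 rfl q23_11 c23_11) (KF.tv rfl q24_11 c24_11) (KF.tv rfl q25_11 c25_11) (KF.tv rfl q26_11 c26_11) (KF.tv rfl q27_11 c27_11) (KF.tv rfl q28_11 c28_11) (KF.tv rfl q29_11 c29_11) (KF.tv rfl q30_11 c30_11) (KF.tv rfl q31_11 c31_11) (KF.tv rfl q32_11 c32_11) (KF.tv rfl q33_11 c33_11) (KF.tv rfl q34_11 c34_11) (KF.tv rfl q35_11 c35_11) (KF.tv rfl q36_11 c36_11) (KF.tv rfl q37_11 c37_11) (KF.tv rfl q38_11 c38_11) (KF.tv rfl q39_11 c39_11) (KF.tv rfl q40_11 c40_11) (KF.tv rfl q41_11 c41_11) (KF.tv rfl q42_11 c42_11) (KF.tv rfl q43_11 c43_11) (KF.tv rfl q44_11 c44_11) (KF.tv rfl q45_11 c45_11) (KF.tv rfl q46_11 c46_11)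

theorem f4_11_0 : ∀ tc ∈ tl, EF tc d11 e4_11_0 :=
  tl_forall (EF.tv rfl q0_11 c4_0_11_0) (EF.tv rfl q1_11 c4_1_11_0) (EF.tv rfl q2_11 c4_2_11_0) (EF.tv rfl q3_11 c4_3_11_0) (EF.tv rfl q4_11 c4_4_11_0) (EF.tv rfl q5_11 c4_5_11_0) (EF.tv rfl q6_11 c4_6_11_0) (EF.tv rfl q7_11 c4_7_11_0) (EF.tv rfl q8_11 c4_8_11_0) (EF.tv rfl q9_11 c4_9_11_0) (EF.tv rfl q10_11 c4_10_11_0) (EF.tv rfl q11_11 c4_11_11_0) (EF.tv rfl q12_11 c4_12_11_0) (EF.tv rfl q13_11 c4_13_11_0) (EF.tv rfl q14_11 c4_14_11_0) (EF.tv rfl q15_11 c4_15_11_0) (EF.tv rfl q16_11 c4_16_11_0) (EF.tv rfl q17_11 c4_17_11_0) (EF.tv rfl q18_11 c4_18_11_0) (EF.tv rfl q19_11 c4_19_11_0) (EF.tv rfl q20_11 c4_20_11_0) (EF.tv rfl q21_11 c4_21_11_0) (EF.tv rfl q22_11 c4_22_11_0) (EF.tv rfl q23_11 c4_23_11_0) (EF.tv rfl q24_11 c4_24_11_0) (EF.tv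 rfl q25_11 c4_25_11_0) (EF.tv rfl q26_11 c4_26_11_0) (EF.tv rfl q27_11 c4_27_11_0) (EF.tv rfl q28_11 c4_28_11_0) (EF.tv rfl q29_11 c4_29_11_0) (EF.tv rfl q30_11 c4_30_11_0) (EF.tv rfl q31_11 c4_31_11_0) (EF.tv rfl q32_11 c4_32_11_0) (EF.tv rfl q33_11 c4_33_11_0) (EF.tv rfl q34_11 c4_34_11_0) (EF.tv rfl q35_11 c4_35_11_0) (EF.tv rfl q36_11 c4_36_11_0) (EF.tv rfl q37_11 c4_37_11_0) (EF.tv rfl q38_11 c4_38_11_0) (EF.tv rfl q39_11 c4_39_11_0) (EF.tv rfl q40_11 c4_40_11_0) (EF.tv rfl q41_11 c4_41_11_0) (EF.tv rfl q42_11 c4_42_11_0) (EF.tv rfl q43_11 c4_43_11_0) (EF.tv rfl q44_11 c4_44_11_0) (EF.tv rfl q45_11 c4_45_11_0) (EF.tv rfl q46_11 c4_46_11_0)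

theorem f4_11_1 : ∀ tc ∈ tl, EF tc d11 e4_11_1 :=
  tl_forall (EF.tv rfl q0_11 c4_0_11_1) (EF.tv rfl q1_11 c4_1_11_1) (EF.tv rfl q2_11 c4_2_11_1) (EF.tv rfl q3_11 c4_3_11_1) (EF.tv rfl q4_11 c4_4_11_1) (EF.tv rfl q5_11 c4_5_11_1) (EF.tv rfl q6_11 c4_6_11_1) (EF.tv rfl q7_11 c4_7_11_1) (EF.tv rfl q8_11 c4_8_11_1) (EF.tv rfl q9_11 c4_9_11_1) (EF.tv rfl q10_11 c4_10_11_1) (EF.tv rfl q11_11 c4_11_11_1) (EF.tv rfl q12_11 c4_12_11_1) (EF.tv rfl q13_11 c4_13_11_1) (EF.tv rfl q14_11 c4_14_11_1) (EF.tv rfl q15_11 c4_15_11_1) (EF.tv rfl q16_11 c4_16_11_1) (EF.tv rfl q17_11 c4_17_11_1) (EF.tv rfl q18_11 c4_18_11_1) (EF.tv rfl q19_11 c4_19_11_1) (EF.tv rfl q20_11 c4_20_11_1) (EF.tv rfl q21_11 c4_21_11_1) (EF.tv rfl q22_11 c4_22_11_1) (EF.tv rfl q23_11 c4_23_11_1) (EF.tv rfl q24_11 c4_24_11_1) (EF.tv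 rfl q25_11 c4_25_11_1) (EF.tv rfl q26_11 c4_26_11_1) (EF.tv rfl q27_11 c4_27_11_1) (EF.tv rfl q28_11 c4_28_11_1) (EF.tv rfl q29_11 c4_29_11_1) (EF.tv rfl q30_11 c4_30_11_1) (EF.tv rfl q31_11 c4_31_11_1) (EF.tv rfl q32_11 c4_32_11_1) (EF.tv rfl q33_11 c4_33_11_1) (EF.tv rfl q34_11 c4_34_11_1) (EF.tv rfl q35_11 c4_35_11_1) (EF.tv rfl q36_11 c4_36_11_1) (EF.tv rfl q37_11 c4_37_11_1) (EF.tv rfl q38_11 c4_38_11_1) (EF.tv rfl q39_11 c4_39_11_1) (EF.tv rfl q40_11 c4_40_11_1) (EF.tv rfl q41_11 c4_41_11_1) (EF.tv rfl q42_11 c4_42_11_1) (EF.tv rfl q43_11 c4_43_11_1) (EF.tv rfl q44_11 c4_44_11_1) (EF.tv rfl q45_11 c4_45_11_1) (EF.tv rfl q46_11 c4_46_11_1)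

theorem f4_11_2 : ∀ tc ∈ tl, EF tc d11 e4_11_2 :=
  tl_forall (EF.tv rfl q0_11 c4_0_11_2) (EF.tv rfl q1_11 c4_1_11_2) (EF.tv rfl q2_11 c4_2_11_2) (EF.tv rfl q3_11 c4_3_11_2) (EF.tv rfl q4_11 c4_4_11_2) (EF.tv rfl q5_11 c4_5_11_2) (EF.tv rfl q6_11 c4_6_11_2) (EF.tv rfl q7_11 c4_7_11_2) (EF.tv rfl q8_11 c4_8_11_2) (EF.tv rfl q9_11 c4_9_11_2) (EF.tv rfl q10_11 c4_10_11_2) (EF.tv rfl q11_11 c4_11_11_2) (EF.tv rfl q12_11 c4_12_11_2) (EF.tv rfl q13_11 c4_13_11_2) (EF.tv rfl q14_11 c4_14_11_2) (EF.tv rfl q15_11 c4_15_11_2) (EF.tv rfl q16_11 c4_16_11_2) (EF.tv rfl q17_11 c4_17_11_2) (EF.tv rfl q18_11 c4_18_11_2) (EF.tv rfl q19_11 c4_19_11_2) (EF.tv rfl q20_11 c4_20_11_2) (EF.tv rfl q21_11 c4_21_11_2) (EF.tv rfl q22_11 c4_22_11_2) (EF.tv rfl q23_11 c4_23_11_2) (EF.tv rfl q24_11 c4_24_11_2) (EF.tv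 rfl q25_11 c4_25_11_2) (EF.tv rfl q26_11 c4_26_11_2) (EF.tv rfl q27_11 c4_27_11_2) (EF.tv rfl q28_11 c4_28_11_2) (EF.tv rfl q29_11 c4_29_11_2) (EF.tv rfl q30_11 c4_30_11_2) (EF.tv rfl q31_11 c4_31_11_2) (EF.tv rfl q32_11 c4_32_11_2) (EF.tv rfl q33_11 c4_33_11_2) (EF.tv rfl q34_11 c4_34_11_2) (EF.tv rfl q35_11 c4_35_11_2) (EF.tv rfl q36_11 c4_36_11_2) (EF.tv rfl q37_11 c4_37_11_2) (EF.tv rfl q38_11 c4_38_11_2) (EF.tv rfl q39_11 c4_39_11_2) (EF.tv rfl q40_11 c4_40_11_2) (EF.tv rfl q41_11 c4_41_11_2) (EF.tv rfl q42_11 c4_42_11_2) (EF.tv rfl q43_11 c4_43_11_2) (EF.tv rfl q44_11 c4_44_11_2) (EF.tv rfl q45_11 c4_45_11_2) (EF.tv rfl q46_11 c4_46_11_2)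

theorem f4_11_3 : ∀ tc ∈ tl, EF tc d11 e4_11_3 :=
  tl_forall (EF.tv rfl q0_11 c4_0_11_3) (EF.tv rfl q1_11 c4_1_11_3) (EF.tv rfl q2_11 c4_2_11_3) (EF.tv rfl q3_11 c4_3_11_3) (EF.tv rfl q4_11 c4_4_11_3) (EF.tv rfl q5_11 c4_5_11_3) (EF.tv rfl q6_11 c4_6_11_3) (EF.tv rfl q7_11 c4_7_11_3) (EF.tv rfl q8_11 c4_8_11_3) (EF.tv rfl q9_11 c4_9_11_3) (EF.tv rfl q10_11 c4_10_11_3) (EF.tv rfl q11_11 c4_11_11_3) (EF.tv rfl q12_11 c4_12_11_3) (EF.tv rfl q13_11 c4_13_11_3) (EF.tv rfl q14_11 c4_14_11_3) (EF.tv rfl q15_11 c4_15_11_3) (EF.tv rfl q16_11 c4_16_11_3) (EF.tv rfl q17_11 c4_17_11_3) (EF.tv rfl q18_11 c4_18_11_3) (EF.tv rfl q19_11 c4_19_11_3) (EF.tv rfl q20_11 c4_20_11_3) (EF.tv rfl q21_11 c4_21_11_3) (EF.tv rfl q22_11 c4_22_11_3) (EF.tv rfl q23_11 c4_23_11_3) (EF.tv rfl q24_11 c4_24_11_3) (EF.tv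 rfl q25_11 c4_25_11_3) (EF.tv rfl q26_11 c4_26_11_3) (EF.tv rfl q27_11 c4_27_11_3) (EF.tv rfl q28_11 c4_28_11_3) (EF.tv rfl q29_11 c4_29_11_3) (EF.tv rfl q30_11 c4_30_11_3) (EF.tv rfl q31_11 c4_31_11_3) (EF.tv rfl q32_11 c4_32_11_3) (EF.tv rfl q33_11 c4_33_11_3) (EF.tv rfl q34_11 c4_34_11_3) (EF.tv rfl q35_11 c4_35_11_3) (EF.tv rfl q36_11 c4_36_11_3) (EF.tv rfl q37_11 c4_37_11_3) (EF.tv rfl q38_11 c4_38_11_3) (EF.tv rfl q39_11 c4_39_11_3) (EF.tv rfl q40_11 c4_40_11_3) (EF.tv rfl q41_11 c4_41_11_3) (EF.tv rfl q42_11 c4_42_11_3) (EF.tv rfl q43_11 c4_43_11_3) (EF.tv rfl q44_11 c4_44_11_3) (EF.tv rfl q45_11 c4_45_11_3) (EF.tv rfl q46_11 c4_46_11_3)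

theorem f6_11_4 : ∀ tc ∈ tl, EF tc d11 e6_11_4 :=
  tl_forall (EF.tv rfl q0_11 c6_0_11_4) (EF.tv rfl q1_11 c6_1_11_4) (EF.tv rfl q2_11 c6_2_11_4) (EF.tv rfl q3_11 c6_3_11_4) (EF.tv rfl q4_11 c6_4_11_4) (EF.tv rfl q5_11 c6_5_11_4) (EF.tv rfl q6_11 c6_6_11_4) (EF.tv rfl q7_11 c6_7_11_4) (EF.tv rfl q8_11 c6_8_11_4) (EF.tv rfl q9_11 c6_9_11_4) (EF.tv rfl q10_11 c6_10_11_4) (EF.tv rfl q11_11 c6_11_11_4) (EF.tv rfl q12_11 c6_12_11_4) (EF.tv rfl q13_11 c6_13_11_4) (EF.tv rfl q14_11 c6_14_11_4) (EF.tv rfl q15_11 c6_15_11_4) (EF.tv rfl q16_11 c6_16_11_4) (EF.tv rfl q17_11 c6_17_11_4) (EF.tv rfl q18_11 c6_18_11_4) (EF.tv rfl q19_11 c6_19_11_4) (EF.tv rfl q20_11 c6_20_11_4) (EF.tv rfl q21_11 c6_21_11_4) (EF.tv rfl q22_11 c6_22_11_4) (EF.tv rfl q23_11 c6_23_11_4) (EF.tv rfl q24_11 c6_24_11_4) (EF.tv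 rfl q25_11 c6_25_11_4) (EF.tv rfl q26_11 c6_26_11_4) (EF.tv rfl q27_11 c6_27_11_4) (EF.tv rfl q28_11 c6_28_11_4) (EF.tv rfl q29_11 c6_29_11_4) (EF.tv rfl q30_11 c6_30_11_4) (EF.tv rfl q31_11 c6_31_11_4) (EF.tv rfl q32_11 c6_32_11_4) (EF.tv rfl q33_11 c6_33_11_4) (EF.tv rfl q34_11 c6_34_11_4) (EF.tv rfl q35_11 c6_35_11_4) (EF.tv rfl q36_11 c6_36_11_4) (EF.tv rfl q37_11 c6_37_11_4) (EF.tv rfl q38_11 c6_38_11_4) (EF.tv rfl q39_11 c6_39_11_4) (EF.tv rfl q40_11 c6_40_11_4) (EF.tv rfl q41_11 c6_41_11_4) (EF.tv rfl q42_11 c6_42_11_4) (EF.tv rfl q43_11 c6_43_11_4) (EF.tv rfl q44_11 c6_44_11_4) (EF.tv rfl q45_11 c6_45_11_4) (EF.tv rfl q46_11 c6_46_11_4)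

theorem f6_11_5 : ∀ tc ∈ tl, EF tc d11 e6_11_5 :=
  tl_forall (EF.tv rfl q0_11 c6_0_11_5) (EF.tv rfl q1_11 c6_1_11_5) (EF.tv rfl q2_11 c6_2_11_5) (EF.tv rfl q3_11 c6_3_11_5) (EF.tv rfl q4_11 c6_4_11_5) (EF.tv rfl q5_11 c6_5_11_5) (EF.tv rfl q6_11 c6_6_11_5) (EF.tv rfl q7_11 c6_7_11_5) (EF.tv rfl q8_11 c6_8_11_5) (EF.tv rfl q9_11 c6_9_11_5) (EF.tv rfl q10_11 c6_10_11_5) (EF.tv rfl q11_11 c6_11_11_5) (EF.tv rfl q12_11 c6_12_11_5) (EF.tv rfl q13_11 c6_13_11_5) (EF.tv rfl q14_11 c6_14_11_5) (EF.tv rfl q15_11 c6_15_11_5) (EF.tv rfl q16_11 c6_16_11_5) (EF.tv rfl q17_11 c6_17_11_5) (EF.tv rfl q18_11 c6_18_11_5) (EF.tv rfl q19_11 c6_19_11_5) (EF.tv rfl q20_11 c6_20_11_5) (EF.tv rfl q21_11 c6_21_11_5) (EF.tv rfl q22_11 c6_22_11_5) (EF.tv rfl q23_11 c6_23_11_5) (EF.tv rfl q24_11 c6_24_11_5) (EF.tv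 rfl q25_11 c6_25_11_5) (EF.tv rfl q26_11 c6_26_11_5) (EF.tv rfl q27_11 c6_27_11_5) (EF.tv rfl q28_11 c6_28_11_5) (EF.tv rfl q29_11 c6_29_11_5) (EF.tv rfl q30_11 c6_30_11_5) (EF.tv rfl q31_11 c6_31_11_5) (EF.tv rfl q32_11 c6_32_11_5) (EF.tv rfl q33_11 c6_33_11_5) (EF.tv rfl q34_11 c6_34_11_5) (EF.tv rfl q35_11 c6_35_11_5) (EF.tv rfl q36_11 c6_36_11_5) (EF.tv rfl q37_11 c6_37_11_5) (EF.tv rfl q38_11 c6_38_11_5) (EF.tv rfl q39_11 c6_39_11_5) (EF.tv rfl q40_11 c6_40_11_5) (EF.tv rfl q41_11 c6_41_11_5) (EF.tv rfl q42_11 c6_42_11_5) (EF.tv rfl q43_11 c6_43_11_5) (EF.tv rfl q44_11 c6_44_11_5) (EF.tv rfl q45_11 c6_45_11_5) (EF.tv rfl q46_11 c6_46_11_5)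

theorem f6_11_6 : ∀ tc ∈ tl, EF tc d11 e6_11_6 :=
  tl_forall (EF.tv rfl q0_11 c6_0_11_6) (EF.tv rfl q1_11 c6_1_11_6) (EF.tv rfl q2_11 c6_2_11_6) (EF.tv rfl q3_11 c6_3_11_6) (EF.tv rfl q4_11 c6_4_11_6) (EF.tv rfl q5_11 c6_5_11_6) (EF.tv rfl q6_11 c6_6_11_6) (EF.tv rfl q7_11 c6_7_11_6) (EF.tv rfl q8_11 c6_8_11_6) (EF.tv rfl q9_11 c6_9_11_6) (EF.tv rfl q10_11 c6_10_11_6) (EF.tv rfl q11_11 c6_11_11_6) (EF.tv rfl q12_11 c6_12_11_6) (EF.tv rfl q13_11 c6_13_11_6) (EF.tv rfl q14_11 c6_14_11_6) (EF.tv rfl q15_11 c6_15_11_6) (EF.tv rfl q16_11 c6_16_11_6) (EF.tv rfl q17_11 c6_17_11_6) (EF.tv rfl q18_11 c6_18_11_6) (EF.tv rfl q19_11 c6_19_11_6) (EF.tv rfl q20_11 c6_20_11_6) (EF.tv rfl q21_11 c6_21_11_6) (EF.tv rfl q22_11 c6_22_11_6) (EF.tv rfl q23_11 c6_23_11_6) (EF.tv rfl q24_11 c6_24_11_6) (EF.tv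 rfl q25_11 c6_25_11_6) (EF.tv rfl q26_11 c6_26_11_6) (EF.tv rfl q27_11 c6_27_11_6) (EF.tv rfl q28_11 c6_28_11_6) (EF.tv rfl q29_11 c6_29_11_6) (EF.tv rfl q30_11 c6_30_11_6) (EF.tv rfl q31_11 c6_31_11_6) (EF.tv rfl q32_11 c6_32_11_6) (EF.tv rfl q33_11 c6_33_11_6) (EF.tv rfl q34_11 c6_34_11_6) (EF.tv rfl q35_11 c6_35_11_6) (EF.tv rfl q36_11 c6_36_11_6) (EF.tv rfl q37_11 c6_37_11_6) (EF.tv rfl q38_11 c6_38_11_6) (EF.tv rfl q39_11 c6_39_11_6) (EF.tv rfl q40_11 c6_40_11_6) (EF.tv rfl q41_11 c6_41_11_6) (EF.tv rfl q42_11 c6_42_11_6) (EF.tv rfl q43_11 c6_43_11_6) (EF.tv rfl q44_11 c6_44_11_6) (EF.tv rfl q45_11 c6_45_11_6) (EF.tv rfl q46_11 c6_46_11_6)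

theorem f6_11_7 : ∀ tc ∈ tl, EF tc d11 e6_11_7 :=
  tl_forall (EF.tv rfl q0_11 c6_0_11_7) (EF.tv rfl q1_11 c6_1_11_7) (EF.tv rfl q2_11 c6_2_11_7) (EF.tv rfl q3_11 c6_3_11_7) (EF.tv rfl q4_11 c6_4_11_7) (EF.tv rfl q5_11 c6_5_11_7) (EF.tv rfl q6_11 c6_6_11_7) (EF.tv rfl q7_11 c6_7_11_7) (EF.tv rfl q8_11 c6_8_11_7) (EF.tv rfl q9_11 c6_9_11_7) (EF.tv rfl q10_11 c6_10_11_7) (EF.tv rfl q11_11 c6_11_11_7) (EF.tv rfl q12_11 c6_12_11_7) (EF.tv rfl q13_11 c6_13_11_7) (EF.tv rfl q14_11 c6_14_11_7) (EF.tv rfl q15_11 c6_15_11_7) (EF.tv rfl q16_11 c6_16_11_7) (EF.tv rfl q17_11 c6_17_11_7) (EF.tv rfl q18_11 c6_18_11_7) (EF.tv rfl q19_11 c6_19_11_7) (EF.tv rfl q20_11 c6_20_11_7) (EF.tv rfl q21_11 c6_21_11_7) (EF.tv rfl q22_11 c6_22_11_7) (EF.tv rfl q23_11 c6_23_11_7) (EF.tv rfl q24_11 c6_24_11_7) (EF.tv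 rfl q25_11 c6_25_11_7) (EF.tv rfl q26_11 c6_26_11_7) (EF.tv rfl q27_11 c6_27_11_7) (EF.tv rfl q28_11 c6_28_11_7) (EF.tv rfl q29_11 c6_29_11_7) (EF.tv rfl q30_11 c6_30_11_7) (EF.tv rfl q31_11 c6_31_11_7) (EF.tv rfl q32_11 c6_32_11_7) (EF.tv rfl q33_11 c6_33_11_7) (EF.tv rfl q34_11 c6_34_11_7) (EF.tv rfl q35_11 c6_35_11_7) (EF.tv rfl q36_11 c6_36_11_7) (EF.tv rfl q37_11 c6_37_11_7) (EF.tv rfl q38_11 c6_38_11_7) (EF.tv rfl q39_11 c6_39_11_7) (EF.tv rfl q40_11 c6_40_11_7) (EF.tv rfl q41_11 c6_41_11_7) (EF.tv rfl q42_11 c6_42_11_7) (EF.tv rfl q43_11 c6_43_11_7) (EF.tv rfl q44_11 c6_44_11_7) (EF.tv rfl q45_11 c6_45_11_7) (EF.tv rfl q46_11 c6_46_11_7)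

theorem f8_11_8 : ∀ tc ∈ tl, EF tc d11 e8_11_8 :=
  tl_forall (EF.tv rfl q0_11 c8_0_11_8) (EF.tv rfl q1_11 c8_1_11_8) (EF.tv rfl q2_11 c8_2_11_8) (EF.tv rfl q3_11 c8_3_11_8) (EF.tv rfl q4_11 c8_4_11_8) (EF.tv rfl q5_11 c8_5_11_8) (EF.tv rfl q6_11 c8_6_11_8) (EF.tv rfl q7_11 c8_7_11_8) (EF.tv rfl q8_11 c8_8_11_8) (EF.tv rfl q9_11 c8_9_11_8) (EF.tv rfl q10_11 c8_10_11_8) (EF.tv rfl q11_11 c8_11_11_8) (EF.tv rfl q12_11 c8_12_11_8) (EF.tv rfl q13_11 c8_13_11_8) (EF.tv rfl q14_11 c8_14_11_8) (EF.tv rfl q15_11 c8_15_11_8) (EF.tv rfl q16_11 c8_16_11_8) (EF.tv rfl q17_11 c8_17_11_8) (EF.tv rfl q18_11 c8_18_11_8) (EF.tv rfl q19_11 c8_19_11_8) (EF.tv rfl q20_11 c8_20_11_8) (EF.tv rfl q21_11 c8_21_11_8) (EF.tv rfl q22_11 c8_22_11_8) (EF.tv rfl q23_11 c8_23_11_8) (EF.tv rfl q24_11 c8_24_11_8) (EF.tv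 rfl q25_11 c8_25_11_8) (EF.tv rfl q26_11 c8_26_11_8) (EF.tv rfl q27_11 c8_27_11_8) (EF.tv rfl q28_11 c8_28_11_8) (EF.tv rfl q29_11 c8_29_11_8) (EF.tv rfl q30_11 c8_30_11_8) (EF.tv rfl q31_11 c8_31_11_8) (EF.tv rfl q32_11 c8_32_11_8) (EF.tv rfl q33_11 c8_33_11_8) (EF.tv rfl q34_11 c8_34_11_8) (EF.tv rfl q35_11 c8_35_11_8) (EF.tv rfl q36_11 c8_36_11_8) (EF.tv rfl q37_11 c8_37_11_8) (EF.tv rfl q38_11 c8_38_11_8) (EF.tv rfl q39_11 c8_39_11_8) (EF.tv rfl q40_11 c8_40_11_8) (EF.tv rfl q41_11 c8_41_11_8) (EF.tv rfl q42_11 c8_42_11_8) (EF.tv rfl q43_11 c8_43_11_8) (EF.tv rfl q44_11 c8_44_11_8) (EF.tv rfl q45_11 c8_45_11_8) (EF.tv rfl q46_11 c8_46_11_8)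

theorem f8_11_9 : ∀ tc ∈ tl, EF tc d11 e8_11_9 :=
  tl_forall (EF.tv rfl q0_11 c8_0_11_9) (EF.tv rfl q1_11 c8_1_11_9) (EF.tv rfl q2_11 c8_2_11_9) (EF.tv rfl q3_11 c8_3_11_9) (EF.tv rfl q4_11 c8_4_11_9) (EF.tv rfl q5_11 c8_5_11_9) (EF.tv rfl q6_11 c8_6_11_9) (EF.tv rfl q7_11 c8_7_11_9) (EF.tv rfl q8_11 c8_8_11_9) (EF.tv rfl q9_11 c8_9_11_9) (EF.tv rfl q10_11 c8_10_11_9) (EF.tv rfl q11_11 c8_11_11_9) (EF.tv rfl q12_11 c8_12_11_9) (EF.tv rfl q13_11 c8_13_11_9) (EF.tv rfl q14_11 c8_14_11_9) (EF.tv rfl q15_11 c8_15_11_9) (EF.tv rfl q16_11 c8_16_11_9) (EF.tv rfl q17_11 c8_17_11_9) (EF.tv rfl q18_11 c8_18_11_9) (EF.tv rfl q19_11 c8_19_11_9) (EF.tv rfl q20_11 c8_20_11_9) (EF.tv rfl q21_11 c8_21_11_9) (EF.tv rfl q22_11 c8_22_11_9) (EF.tv rfl q23_11 c8_23_11_9) (EF.tv rfl q24_11 c8_24_11_9) (EF.tv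 rfl q25_11 c8_25_11_9) (EF.tv rfl q26_11 c8_26_11_9) (EF.tv rfl q27_11 c8_27_11_9) (EF.tv rfl q28_11 c8_28_11_9) (EF.tv rfl q29_11 c8_29_11_9) (EF.tv rfl q30_11 c8_30_11_9) (EF.tv rfl q31_11 c8_31_11_9) (EF.tv rfl q32_11 c8_32_11_9) (EF.tv rfl q33_11 c8_33_11_9) (EF.tv rfl q34_11 c8_34_11_9) (EF.tv rfl q35_11 c8_35_11_9) (EF.tv rfl q36_11 c8_36_11_9) (EF.tv rfl q37_11 c8_37_11_9) (EF.tv rfl q38_11 c8_38_11_9) (EF.tv rfl q39_11 c8_39_11_9) (EF.tv rfl q40_11 c8_40_11_9) (EF.tv rfl q41_11 c8_41_11_9) (EF.tv rfl q42_11 c8_42_11_9) (EF.tv rfl q43_11 c8_43_11_9) (EF.tv rfl q44_11 c8_44_11_9) (EF.tv rfl q45_11 c8_45_11_9) (EF.tv rfl q46_11 c8_46_11_9)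

theorem h4_11 : EvC tl 4 (shK Dec.one 4) d11 :=
  EvC.of2 (tab := tabX 4) (Ls := [e4_11_0, e4_11_1, e4_11_2, e4_11_3]) (tabX_ok 4)
    (by decide +kernel) (by decide +kernel) (by
    intro L hL
    simp only [List.mem_cons, List.not_mem_nil, or_false] at hL
    rcases hL with rfl | rfl | rfl | rfl
    · exact f4_11_0
    · exact f4_11_1
    · exact f4_11_2
    · exact f4_11_3)

theorem h6_11 : EvC tl 6 (shK Dec.one 6) d11 :=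
  EvC.of2 (tab := tabX 6) (Ls := [e6_11_4, e6_11_5, e6_11_6, e6_11_7]) (tabX_ok 6)
    (by decide +kernel) (by decide +kernel) (by
    intro L hL
    simp only [List.mem_cons, List.not_mem_nil, or_false] at hL
    rcases hL with rfl | rfl | rfl | rfl
    · exact f6_11_4
    · exact f6_11_5
    · exact f6_11_6
    · exact f6_11_7)

theorem h8_11 : EvC tl 0 (shA Dec.one 106) d11 :=
  EvC.of2 (tab := tabX 0) (Ls := [e8_11_8, e8_11_9]) (tabX_ok 0)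
    (by decide +kernel) (by decide +kernel) (by
    intro L hL
    simp only [List.mem_cons, List.not_mem_nil, or_false] at hL
    rcases hL with rfl | rfl
    · exact f8_11_8
    · exact f8_11_9)

theorem hh_11 : EvC8 tl Dec.one d11 := EvC8.a h8_11

end Pool.Agent.TSE
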