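import Pool.Agent.TSE.C12_0
import Pool.Agent.TSE.C12_2
import Pool.Agent.TSE.C12_4
import Pool.Agent.TSE.C12_6
import Pool.Agent.TSE.C12_8
import Pool.Agent.TSE.C12_10
import Pool.Agent.TSE.C12_12
import Pool.Agent.TSE.C12_14
import Pool.Agent.TSE.C12_16
import Pool.Agent.TSE.C12_18
import Pool.Agent.TSE.C12_20
import Pool.Agent.TSE.C12_22
import Pool.Agent.TSE.C12_24
import Pool.Agent.TSE.C12_26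
import Pool.Agent.TSE.C12_28
import Pool.Agent.TSE.C12_30
import Pool.Agent.TSE.C12_32
import Pool.Agent.TSE.C12_34
import Pool.Agent.TSE.C12_36
import Pool.Agent.TSE.C12_38
import Pool.Agent.TSE.C12_40
import Pool.Agent.TSE.C12_42
import Pool.Agent.TSE.C12_44
import Pool.Agent.TSE.C12_46
import Pool.Agent.TSE.T
import Pool.Agent.TSE.BaseC
import Pool.Agent.TSG.TabX

set_option autoImplicit false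

/-! # One interval of the total mass (MP_d27362_co) -/

namespace Pool.Agent.TSE

open Pool.Agent.TSC
open Pool.Agent.TSC.Dec
open Pool.Agent.TSG


theorem kf12 : ∀ tc ∈ tl, Pool.Agent.TSK.KF tc d12 :=
  tl_forall (KF.tv rfl q0_12 c0_12) (KF.tv rfl q1_12 c1_12) (KF.tv rfl q2_12 c2_12) (KF.tv rfl q3_12 c3_12) (KF.tv rfl q4_12 c4_12) (KF.tv rfl q5_12 c5_12) (KF.tv rfl q6_12 c6_12) (KF.tv rfl q7_12 c7_12) (KF.tv rfl q8_12 c8_12) (KF.tv rfl q9_12 c9_12) (KF.tv rfl q10_12 c10_12) (KF.tv rfl q11_12 c11_12) (KF.tv rfl q12_12 c12_12) (KF.tv rfl q13_12 c13_12) (KF.tv rfl q14_12 c14_12) (KF.tv rfl q15_12 c15_12) (KF.tv rfl q16_12 c16_12) (KF.tv rfl q17_12 c17_12) (KF.tv rfl q18_12 c18_12) (KF.tv rfl q19_12 c19_12) (KF.tv rfl q20_12 c20_12) (KF.tv rfl q21_12 c21_12) (KF.tv rfl q22_12 c22_12) (KF.tv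 rfl q23_12 c23_12) (KF.tv rfl q24_12 c24_12) (KF.tv rfl q25_12 c25_12) (KF.tv rfl q26_12 c26_12) (KF.tv rfl q27_12 c27_12) (KF.tv rfl q28_12 c28_12) (KF.tv rfl q29_12 c29_12) (KF.tv rfl q30_12 c30_12) (KF.tv rfl q31_12 c31_12) (KF.tv rfl q32_12 c32_12) (KF.tv rfl q33_12 c33_12) (KF.tv rfl q34_12 c34_12) (KF.tv rfl q35_12 c35_12) (KF.tv rfl q36_12 c36_12) (KF.tv rfl q37_12 c37_12) (KF.tv rfl q38_12 c38_12) (KF.tv rfl q39_12 c39_12) (KF.tv rfl q40_12 c40_12) (KF.tv rfl q41_12 c41_12) (KF.tv rfl q42_12 c42_12) (KF.tv rfl q43_12 c43_12) (KF.tv rfl q44_12 c44_12) (KF.tv rfl q45_12 c45_12) (KF.tv rfl q46_12 c46_12)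

theorem f4_12_0 : ∀ tc ∈ tl, EF tc d12 e4_12_0 :=
  tl_forall (EF.tv rfl q0_12 c4_0_12_0) (EF.tv rfl q1_12 c4_1_12_0) (EF.tv rfl q2_12 c4_2_12_0) (EF.tv rfl q3_12 c4_3_12_0) (EF.tv rfl q4_12 c4_4_12_0) (EF.tv rfl q5_12 c4_5_12_0) (EF.tv rfl q6_12 c4_6_12_0) (EF.tv rfl q7_12 c4_7_12_0) (EF.tv rfl q8_12 c4_8_12_0) (EF.tv rfl q9_12 c4_9_12_0) (EF.tv rfl q10_12 c4_10_12_0) (EF.tv rfl q11_12 c4_11_12_0) (EF.tv rfl q12_12 c4_12_12_0) (EF.tv rfl q13_12 c4_13_12_0) (EF.tv rfl q14_12 c4_14_12_0) (EF.tv rfl q15_12 c4_15_12_0) (EF.tv rfl q16_12 c4_16_12_0) (EF.tv rfl q17_12 c4_17_12_0) (EF.tv rfl q18_12 c4_18_12_0) (EF.tv rfl q19_12 c4_19_12_0) (EF.tv rfl q20_12 c4_20_12_0) (EF.tv rfl q21_12 c4_21_12_0) (EF.tv rfl q22_12 c4_22_12_0) (EF.tv rfl q23_12 c4_23_12_0) (EF.tv rfl q24_12 c4_24_12_0) (EF.tv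 rfl q25_12 c4_25_12_0) (EF.tv rfl q26_12 c4_26_12_0) (EF.tv rfl q27_12 c4_27_12_0) (EF.tv rfl q28_12 c4_28_12_0) (EF.tv rfl q29_12 c4_29_12_0) (EF.tv rfl q30_12 c4_30_12_0) (EF.tv rfl q31_12 c4_31_12_0) (EF.tv rfl q32_12 c4_32_12_0) (EF.tv rfl q33_12 c4_33_12_0) (EF.tv rfl q34_12 c4_34_12_0) (EF.tv rfl q35_12 c4_35_12_0) (EF.tv rfl q36_12 c4_36_12_0) (EF.tv rfl q37_12 c4_37_12_0) (EF.tv rfl q38_12 c4_38_12_0) (EF.tv rfl q39_12 c4_39_12_0) (EF.tv rfl q40_12 c4_40_12_0) (EF.tv rfl q41_12 c4_41_12_0) (EF.tv rfl q42_12 c4_42_12_0) (EF.tv rfl q43_12 c4_43_12_0) (EF.tv rfl q44_12 c4_44_12_0) (EF.tv rfl q45_12 c4_45_12_0) (EF.tv rfl q46_12 c4_46_12_0)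

theorem f4_12_1 : ∀ tc ∈ tl, EF tc d12 e4_12_1 :=
  tl_forall (EF.tv rfl q0_12 c4_0_12_1) (EF.tv rfl q1_12 c4_1_12_1) (EF.tv rfl q2_12 c4_2_12_1) (EF.tv rfl q3_12 c4_3_12_1) (EF.tv rfl q4_12 c4_4_12_1) (EF.tv rfl q5_12 c4_5_12_1) (EF.tv rfl q6_12 c4_6_12_1) (EF.tv rfl q7_12 c4_7_12_1) (EF.tv rfl q8_12 c4_8_12_1) (EF.tv rfl q9_12 c4_9_12_1) (EF.tv rfl q10_12 c4_10_12_1) (EF.tv rfl q11_12 c4_11_12_1) (EF.tv rfl q12_12 c4_12_12_1) (EF.tv rfl q13_12 c4_13_12_1) (EF.tv rfl q14_12 c4_14_12_1) (EF.tv rfl q15_12 c4_15_12_1) (EF.tv rfl q16_12 c4_16_12_1) (EF.tv rfl q17_12 c4_17_12_1) (EF.tv rfl q18_12 c4_18_12_1) (EF.tv rfl q19_12 c4_19_12_1) (EF.tv rfl q20_12 c4_20_12_1) (EF.tv rfl q21_12 c4_21_12_1) (EF.tv rfl q22_12 c4_22_12_1) (EF.tv rfl q23_12 c4_23_12_1) (EF.tv rfl q24_12 c4_24_12_1) (EF.tv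 rfl q25_12 c4_25_12_1) (EF.tv rfl q26_12 c4_26_12_1) (EF.tv rfl q27_12 c4_27_12_1) (EF.tv rfl q28_12 c4_28_12_1) (EF.tv rfl q29_12 c4_29_12_1) (EF.tv rfl q30_12 c4_30_12_1) (EF.tv rfl q31_12 c4_31_12_1) (EF.tv rfl q32_12 c4_32_12_1) (EF.tv rfl q33_12 c4_33_12_1) (EF.tv rfl q34_12 c4_34_12_1) (EF.tv rfl q35_12 c4_35_12_1) (EF.tv rfl q36_12 c4_36_12_1) (EF.tv rfl q37_12 c4_37_12_1) (EF.tv rfl q38_12 c4_38_12_1) (EF.tv rfl q39_12 c4_39_12_1) (EF.tv rfl q40_12 c4_40_12_1) (EF.tv rfl q41_12 c4_41_12_1) (EF.tv rfl q42_12 c4_42_12_1) (EF.tv rfl q43_12 c4_43_12_1) (EF.tv rfl q44_12 c4_44_12_1) (EF.tv rfl q45_12 c4_45_12_1) (EF.tv rfl q46_12 c4_46_12_1)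

theorem f4_12_2 : ∀ tc ∈ tl, EF tc d12 e4_12_2 :=
  tl_forall (EF.tv rfl q0_12 c4_0_12_2) (EF.tv rfl q1_12 c4_1_12_2) (EF.tv rfl q2_12 c4_2_12_2) (EF.tv rfl q3_12 c4_3_12_2) (EF.tv rfl q4_12 c4_4_12_2) (EF.tv rfl q5_12 c4_5_12_2) (EF.tv rfl q6_12 c4_6_12_2) (EF.tv rfl q7_12 c4_7_12_2) (EF.tv rfl q8_12 c4_8_12_2) (EF.tv rfl q9_12 c4_9_12_2) (EF.tv rfl q10_12 c4_10_12_2) (EF.tv rfl q11_12 c4_11_12_2) (EF.tv rfl q12_12 c4_12_12_2) (EF.tv rfl q13_12 c4_13_12_2) (EF.tv rfl q14_12 c4_14_12_2) (EF.tv rfl q15_12 c4_15_12_2) (EF.tv rfl q16_12 c4_16_12_2) (EF.tv rfl q17_12 c4_17_12_2) (EF.tv rfl q18_12 c4_18_12_2) (EF.tv rfl q19_12 c4_19_12_2) (EF.tv rfl q20_12 c4_20_12_2) (EF.tv rfl q21_12 c4_21_12_2) (EF.tv rfl q22_12 c4_22_12_2) (EF.tv rfl q23_12 c4_23_12_2) (EF.tv rfl q24_12 c4_24_12_2) (EF.tv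 rfl q25_12 c4_25_12_2) (EF.tv rfl q26_12 c4_26_12_2) (EF.tv rfl q27_12 c4_27_12_2) (EF.tv rfl q28_12 c4_28_12_2) (EF.tv rfl q29_12 c4_29_12_2) (EF.tv rfl q30_12 c4_30_12_2) (EF.tv rfl q31_12 c4_31_12_2) (EF.tv rfl q32_12 c4_32_12_2) (EF.tv rfl q33_12 c4_33_12_2) (EF.tv rfl q34_12 c4_34_12_2) (EF.tv rfl q35_12 c4_35_12_2) (EF.tv rfl q36_12 c4_36_12_2) (EF.tv rfl q37_12 c4_37_12_2) (EF.tv rfl q38_12 c4_38_12_2) (EF.tv rfl q39_12 c4_39_12_2) (EF.tv rfl q40_12 c4_40_12_2) (EF.tv rfl q41_12 c4_41_12_2) (EF.tv rfl q42_12 c4_42_12_2) (EF.tv rfl q43_12 c4_43_12_2) (EF.tv rfl q44_12 c4_44_12_2) (EF.tv rfl q45_12 c4_45_12_2) (EF.tv rfl q46_12 c4_46_12_2)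

theorem f4_12_3 : ∀ tc ∈ tl, EF tc d12 e4_12_3 :=
  tl_forall (EF.tv rfl q0_12 c4_0_12_3) (EF.tv rfl q1_12 c4_1_12_3) (EF.tv rfl q2_12 c4_2_12_3) (EF.tv rfl q3_12 c4_3_12_3) (EF.tv rfl q4_12 c4_4_12_3) (EF.tv rfl q5_12 c4_5_12_3) (EF.tv rfl q6_12 c4_6_12_3) (EF.tv rfl q7_12 c4_7_12_3) (EF.tv rfl q8_12 c4_8_12_3) (EF.tv rfl q9_12 c4_9_12_3) (EF.tv rfl q10_12 c4_10_12_3) (EF.tv rfl q11_12 c4_11_12_3) (EF.tv rfl q12_12 c4_12_12_3) (EF.tv rfl q13_12 c4_13_12_3) (EF.tv rfl q14_12 c4_14_12_3) (EF.tv rfl q15_12 c4_15_12_3) (EF.tv rfl q16_12 c4_16_12_3) (EF.tv rfl q17_12 c4_17_12_3) (EF.tv rfl q18_12 c4_18_12_3) (EF.tv rfl q19_12 c4_19_12_3) (EF.tv rfl q20_12 c4_20_12_3) (EF.tv rfl q21_12 c4_21_12_3) (EF.tv rfl q22_12 c4_22_12_3) (EF.tv rfl q23_12 c4_23_12_3) (EF.tv rfl q24_12 c4_24_12_3) (EF.tv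 rfl q25_12 c4_25_12_3) (EF.tv rfl q26_12 c4_26_12_3) (EF.tv rfl q27_12 c4_27_12_3) (EF.tv rfl q28_12 c4_28_12_3) (EF.tv rfl q29_12 c4_29_12_3) (EF.tv rfl q30_12 c4_30_12_3) (EF.tv rfl q31_12 c4_31_12_3) (EF.tv rfl q32_12 c4_32_12_3) (EF.tv rfl q33_12 c4_33_12_3) (EF.tv rfl q34_12 c4_34_12_3) (EF.tv rfl q35_12 c4_35_12_3) (EF.tv rfl q36_12 c4_36_12_3) (EF.tv rfl q37_12 c4_37_12_3) (EF.tv rfl q38_12 c4_38_12_3) (EF.tv rfl q39_12 c4_39_12_3) (EF.tv rfl q40_12 c4_40_12_3) (EF.tv rfl q41_12 c4_41_12_3) (EF.tv rfl q42_12 c4_42_12_3) (EF.tv rfl q43_12 c4_43_12_3) (EF.tv rfl q44_12 c4_44_12_3) (EF.tv rfl q45_12 c4_45_12_3) (EF.tv rfl q46_12 c4_46_12_3)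

theorem f6_12_4 : ∀ tc ∈ tl, EF tc d12 e6_12_4 :=
  tl_forall (EF.tv rfl q0_12 c6_0_12_4) (EF.tv rfl q1_12 c6_1_12_4) (EF.tv rfl q2_12 c6_2_12_4) (EF.tv rfl q3_12 c6_3_12_4) (EF.tv rfl q4_12 c6_4_12_4) (EF.tv rfl q5_12 c6_5_12_4) (EF.tv rfl q6_12 c6_6_12_4) (EF.tv rfl q7_12 c6_7_12_4) (EF.tv rfl q8_12 c6_8_12_4) (EF.tv rfl q9_12 c6_9_12_4) (EF.tv rfl q10_12 c6_10_12_4) (EF.tv rfl q11_12 c6_11_12_4) (EF.tv rfl q12_12 c6_12_12_4) (EF.tv rfl q13_12 c6_13_12_4) (EF.tv rfl q14_12 c6_14_12_4) (EF.tv rfl q15_12 c6_15_12_4) (EF.tv rfl q16_12 c6_16_12_4) (EF.tv rfl q17_12 c6_17_12_4) (EF.tv rfl q18_12 c6_18_12_4) (EF.tv rfl q19_12 c6_19_12_4) (EF.tv rfl q20_12 c6_20_12_4) (EF.tv rfl q21_12 c6_21_12_4) (EF.tv rfl q22_12 c6_22_12_4) (EF.tv rfl q23_12 c6_23_12_4) (EF.tv rfl q24_12 c6_24_12_4) (EF.tv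 rfl q25_12 c6_25_12_4) (EF.tv rfl q26_12 c6_26_12_4) (EF.tv rfl q27_12 c6_27_12_4) (EF.tv rfl q28_12 c6_28_12_4) (EF.tv rfl q29_12 c6_29_12_4) (EF.tv rfl q30_12 c6_30_12_4) (EF.tv rfl q31_12 c6_31_12_4) (EF.tv rfl q32_12 c6_32_12_4) (EF.tv rfl q33_12 c6_33_12_4) (EF.tv rfl q34_12 c6_34_12_4) (EF.tv rfl q35_12 c6_35_12_4) (EF.tv rfl q36_12 c6_36_12_4) (EF.tv rfl q37_12 c6_37_12_4) (EF.tv rfl q38_12 c6_38_12_4) (EF.tv rfl q39_12 c6_39_12_4) (EF.tv rfl q40_12 c6_40_12_4) (EF.tv rfl q41_12 c6_41_12_4) (EF.tv rfl q42_12 c6_42_12_4) (EF.tv rfl q43_12 c6_43_12_4) (EF.tv rfl q44_12 c6_44_12_4) (EF.tv rfl q45_12 c6_45_12_4) (EF.tv rfl q46_12 c6_46_12_4)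

theorem f6_12_5 : ∀ tc ∈ tl, EF tc d12 e6_12_5 :=
  tl_forall (EF.tv rfl q0_12 c6_0_12_5) (EF.tv rfl q1_12 c6_1_12_5) (EF.tv rfl q2_12 c6_2_12_5) (EF.tv rfl q3_12 c6_3_12_5) (EF.tv rfl q4_12 c6_4_12_5) (EF.tv rfl q5_12 c6_5_12_5) (EF.tv rfl q6_12 c6_6_12_5) (EF.tv rfl q7_12 c6_7_12_5) (EF.tv rfl q8_12 c6_8_12_5) (EF.tv rfl q9_12 c6_9_12_5) (EF.tv rfl q10_12 c6_10_12_5) (EF.tv rfl q11_12 c6_11_12_5) (EF.tv rfl q12_12 c6_12_12_5) (EF.tv rfl q13_12 c6_13_12_5) (EF.tv rfl q14_12 c6_14_12_5) (EF.tv rfl q15_12 c6_15_12_5) (EF.tv rfl q16_12 c6_16_12_5) (EF.tv rfl q17_12 c6_17_12_5) (EF.tv rfl q18_12 c6_18_12_5) (EF.tv rfl q19_12 c6_19_12_5) (EF.tv rfl q20_12 c6_20_12_5) (EF.tv rfl q21_12 c6_21_12_5) (EF.tv rfl q22_12 c6_22_12_5) (EF.tv rfl q23_12 c6_23_12_5) (EF.tv rfl q24_12 c6_24_12_5) (EF.tv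 rfl q25_12 c6_25_12_5) (EF.tv rfl q26_12 c6_26_12_5) (EF.tv rfl q27_12 c6_27_12_5) (EF.tv rfl q28_12 c6_28_12_5) (EF.tv rfl q29_12 c6_29_12_5) (EF.tv rfl q30_12 c6_30_12_5) (EF.tv rfl q31_12 c6_31_12_5) (EF.tv rfl q32_12 c6_32_12_5) (EF.tv rfl q33_12 c6_33_12_5) (EF.tv rfl q34_12 c6_34_12_5) (EF.tv rfl q35_12 c6_35_12_5) (EF.tv rfl q36_12 c6_36_12_5) (EF.tv rfl q37_12 c6_37_12_5) (EF.tv rfl q38_12 c6_38_12_5) (EF.tv rfl q39_12 c6_39_12_5) (EF.tv rfl q40_12 c6_40_12_5) (EF.tv rfl q41_12 c6_41_12_5) (EF.tv rfl q42_12 c6_42_12_5) (EF.tv rfl q43_12 c6_43_12_5) (EF.tv rfl q44_12 c6_44_12_5) (EF.tv rfl q45_12 c6_45_12_5) (EF.tv rfl q46_12 c6_46_12_5)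

theorem f6_12_6 : ∀ tc ∈ tl, EF tc d12 e6_12_6 :=
  tl_forall (EF.tv rfl q0_12 c6_0_12_6) (EF.tv rfl q1_12 c6_1_12_6) (EF.tv rfl q2_12 c6_2_12_6) (EF.tv rfl q3_12 c6_3_12_6) (EF.tv rfl q4_12 c6_4_12_6) (EF.tv rfl q5_12 c6_5_12_6) (EF.tv rfl q6_12 c6_6_12_6) (EF.tv rfl q7_12 c6_7_12_6) (EF.tv rfl q8_12 c6_8_12_6) (EF.tv rfl q9_12 c6_9_12_6) (EF.tv rfl q10_12 c6_10_12_6) (EF.tv rfl q11_12 c6_11_12_6) (EF.tv rfl q12_12 c6_12_12_6) (EF.tv rfl q13_12 c6_13_12_6) (EF.tv rfl q14_12 c6_14_12_6) (EF.tv rfl q15_12 c6_15_12_6) (EF.tv rfl q16_12 c6_16_12_6) (EF.tv rfl q17_12 c6_17_12_6) (EF.tv rfl q18_12 c6_18_12_6) (EF.tv rfl q19_12 c6_19_12_6) (EF.tv rfl q20_12 c6_20_12_6) (EF.tv rfl q21_12 c6_21_12_6) (EF.tv rfl q22_12 c6_22_12_6) (EF.tv rfl q23_12 c6_23_12_6) (EF.tv rfl q24_12 c6_24_12_6) (EF.tv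 rfl q25_12 c6_25_12_6) (EF.tv rfl q26_12 c6_26_12_6) (EF.tv rfl q27_12 c6_27_12_6) (EF.tv rfl q28_12 c6_28_12_6) (EF.tv rfl q29_12 c6_29_12_6) (EF.tv rfl q30_12 c6_30_12_6) (EF.tv rfl q31_12 c6_31_12_6) (EF.tv rfl q32_12 c6_32_12_6) (EF.tv rfl q33_12 c6_33_12_6) (EF.tv rfl q34_12 c6_34_12_6) (EF.tv rfl q35_12 c6_35_12_6) (EF.tv rfl q36_12 c6_36_12_6) (EF.tv rfl q37_12 c6_37_12_6) (EF.tv rfl q38_12 c6_38_12_6) (EF.tv rfl q39_12 c6_39_12_6) (EF.tv rfl q40_12 c6_40_12_6) (EF.tv rfl q41_12 c6_41_12_6) (EF.tv rfl q42_12 c6_42_12_6) (EF.tv rfl q43_12 c6_43_12_6) (EF.tv rfl q44_12 c6_44_12_6) (EF.tv rfl q45_12 c6_45_12_6) (EF.tv rfl q46_12 c6_46_12_6)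

theorem f6_12_7 : ∀ tc ∈ tl, EF tc d12 e6_12_7 :=
  tl_forall (EF.tv rfl q0_12 c6_0_12_7) (EF.tv rfl q1_12 c6_1_12_7) (EF.tv rfl q2_12 c6_2_12_7) (EF.tv rfl q3_12 c6_3_12_7) (EF.tv rfl q4_12 c6_4_12_7) (EF.tv rfl q5_12 c6_5_12_7) (EF.tv rfl q6_12 c6_6_12_7) (EF.tv rfl q7_12 c6_7_12_7) (EF.tv rfl q8_12 c6_8_12_7) (EF.tv rfl q9_12 c6_9_12_7) (EF.tv rfl q10_12 c6_10_12_7) (EF.tv rfl q11_12 c6_11_12_7) (EF.tv rfl q12_12 c6_12_12_7) (EF.tv rfl q13_12 c6_13_12_7) (EF.tv rfl q14_12 c6_14_12_7) (EF.tv rfl q15_12 c6_15_12_7) (EF.tv rfl q16_12 c6_16_12_7) (EF.tv rfl q17_12 c6_17_12_7) (EF.tv rfl q18_12 c6_18_12_7) (EF.tv rfl q19_12 c6_19_12_7) (EF.tv rfl q20_12 c6_20_12_7) (EF.tv rfl q21_12 c6_21_12_7) (EF.tv rfl q22_12 c6_22_12_7) (EF.tv rfl q23_12 c6_23_12_7) (EF.tv rfl q24_12 c6_24_12_7) (EF.tv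 rfl q25_12 c6_25_12_7) (EF.tv rfl q26_12 c6_26_12_7) (EF.tv rfl q27_12 c6_27_12_7) (EF.tv rfl q28_12 c6_28_12_7) (EF.tv rfl q29_12 c6_29_12_7) (EF.tv rfl q30_12 c6_30_12_7) (EF.tv rfl q31_12 c6_31_12_7) (EF.tv rfl q32_12 c6_32_12_7) (EF.tv rfl q33_12 c6_33_12_7) (EF.tv rfl q34_12 c6_34_12_7) (EF.tv rfl q35_12 c6_35_12_7) (EF.tv rfl q36_12 c6_36_12_7) (EF.tv rfl q37_12 c6_37_12_7) (EF.tv rfl q38_12 c6_38_12_7) (EF.tv rfl q39_12 c6_39_12_7) (EF.tv rfl q40_12 c6_40_12_7) (EF.tv rfl q41_12 c6_41_12_7) (EF.tv rfl q42_12 c6_42_12_7) (EF.tv rfl q43_12 c6_43_12_7) (EF.tv rfl q44_12 c6_44_12_7) (EF.tv rfl q45_12 c6_45_12_7) (EF.tv rfl q46_12 c6_46_12_7)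

theorem f8_12_8 : ∀ tc ∈ tl, EF tc d12 e8_12_8 :=
  tl_forall (EF.tv rfl q0_12 c8_0_12_8) (EF.tv rfl q1_12 c8_1_12_8) (EF.tv rfl q2_12 c8_2_12_8) (EF.tv rfl q3_12 c8_3_12_8) (EF.tv rfl q4_12 c8_4_12_8) (EF.tv rfl q5_12 c8_5_12_8) (EF.tv rfl q6_12 c8_6_12_8) (EF.tv rfl q7_12 c8_7_12_8) (EF.tv rfl q8_12 c8_8_12_8) (EF.tv rfl q9_12 c8_9_12_8) (EF.tv rfl q10_12 c8_10_12_8) (EF.tv rfl q11_12 c8_11_12_8) (EF.tv rfl q12_12 c8_12_12_8) (EF.tv rfl q13_12 c8_13_12_8) (EF.tv rfl q14_12 c8_14_12_8) (EF.tv rfl q15_12 c8_15_12_8) (EF.tv rfl q16_12 c8_16_12_8) (EF.tv rfl q17_12 c8_17_12_8) (EF.tv rfl q18_12 c8_18_12_8) (EF.tv rfl q19_12 c8_19_12_8) (EF.tv rfl q20_12 c8_20_12_8) (EF.tv rfl q21_12 c8_21_12_8) (EF.tv rfl q22_12 c8_22_12_8) (EF.tv rfl q23_12 c8_23_12_8) (EF.tv rfl q24_12 c8_24_12_8) (EF.tv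 rfl q25_12 c8_25_12_8) (EF.tv rfl q26_12 c8_26_12_8) (EF.tv rfl q27_12 c8_27_12_8) (EF.tv rfl q28_12 c8_28_12_8) (EF.tv rfl q29_12 c8_29_12_8) (EF.tv rfl q30_12 c8_30_12_8) (EF.tv rfl q31_12 c8_31_12_8) (EF.tv rfl q32_12 c8_32_12_8) (EF.tv rfl q33_12 c8_33_12_8) (EF.tv rfl q34_12 c8_34_12_8) (EF.tv rfl q35_12 c8_35_12_8) (EF.tv rfl q36_12 c8_36_12_8) (EF.tv rfl q37_12 c8_37_12_8) (EF.tv rfl q38_12 c8_38_12_8) (EF.tv rfl q39_12 c8_39_12_8) (EF.tv rfl q40_12 c8_40_12_8) (EF.tv rfl q41_12 c8_41_12_8) (EF.tv rfl q42_12 c8_42_12_8) (EF.tv rfl q43_12 c8_43_12_8) (EF.tv rfl q44_12 c8_44_12_8) (EF.tv rfl q45_12 c8_45_12_8) (EF.tv rfl q46_12 c8_46_12_8)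

theorem f8_12_9 : ∀ tc ∈ tl, EF tc d12 e8_12_9 :=
  tl_forall (EF.tv rfl q0_12 c8_0_12_9) (EF.tv rfl q1_12 c8_1_12_9) (EF.tv rfl q2_12 c8_2_12_9) (EF.tv rfl q3_12 c8_3_12_9) (EF.tv rfl q4_12 c8_4_12_9) (EF.tv rfl q5_12 c8_5_12_9) (EF.tv rfl q6_12 c8_6_12_9) (EF.tv rfl q7_12 c8_7_12_9) (EF.tv rfl q8_12 c8_8_12_9) (EF.tv rfl q9_12 c8_9_12_9) (EF.tv rfl q10_12 c8_10_12_9) (EF.tv rfl q11_12 c8_11_12_9) (EF.tv rfl q12_12 c8_12_12_9) (EF.tv rfl q13_12 c8_13_12_9) (EF.tv rfl q14_12 c8_14_12_9) (EF.tv rfl q15_12 c8_15_12_9) (EF.tv rfl q16_12 c8_16_12_9) (EF.tv rfl q17_12 c8_17_12_9) (EF.tv rfl q18_12 c8_18_12_9) (EF.tv rfl q19_12 c8_19_12_9) (EF.tv rfl q20_12 c8_20_12_9) (EF.tv rfl q21_12 c8_21_12_9) (EF.tv rfl q22_12 c8_22_12_9) (EF.tv rfl q23_12 c8_23_12_9) (EF.tv rfl q24_12 c8_24_12_9) (EF.tv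 rfl q25_12 c8_25_12_9) (EF.tv rfl q26_12 c8_26_12_9) (EF.tv rfl q27_12 c8_27_12_9) (EF.tv rfl q28_12 c8_28_12_9) (EF.tv rfl q29_12 c8_29_12_9) (EF.tv rfl q30_12 c8_30_12_9) (EF.tv rfl q31_12 c8_31_12_9) (EF.tv rfl q32_12 c8_32_12_9) (EF.tv rfl q33_12 c8_33_12_9) (EF.tv rfl q34_12 c8_34_12_9) (EF.tv rfl q35_12 c8_35_12_9) (EF.tv rfl q36_12 c8_36_12_9) (EF.tv rfl q37_12 c8_37_12_9) (EF.tv rfl q38_12 c8_38_12_9) (EF.tv rfl q39_12 c8_39_12_9) (EF.tv rfl q40_12 c8_40_12_9) (EF.tv rfl q41_12 c8_41_12_9) (EF.tv rfl q42_12 c8_42_12_9) (EF.tv rfl q43_12 c8_43_12_9) (EF.tv rfl q44_12 c8_44_12_9) (EF.tv rfl q45_12 c8_45_12_9) (EF.tv rfl q46_12 c8_46_12_9)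

theorem h4_12 : EvC tl 4 (shK Dec.one 4) d12 :=
  EvC.of2 (tab := tabX 4) (Ls := [e4_12_0, e4_12_1, e4_12_2, e4_12_3]) (tabX_ok 4)
    (by decide +kernel) (by decide +kernel) (by
    intro L hL
    simp only [List.mem_cons, List.not_mem_nil, or_false] at hL
    rcases hL with rfl | rfl | rfl | rfl
    · exact f4_12_0
    · exact f4_12_1
    · exact f4_12_2
    · exact f4_12_3)

theorem h6_12 : EvC tl 6 (shK Dec.one 6) d12 :=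
  EvC.of2 (tab := tabX 6) (Ls := [e6_12_4, e6_12_5, e6_12_6, e6_12_7]) (tabX_ok 6)
    (by decide +kernel) (by decide +kernel) (by
    intro L hL
    simp only [List.mem_cons, List.not_mem_nil, or_false] at hL
    rcases hL with rfl | rfl | rfl | rfl
    · exact f6_12_4
    · exact f6_12_5
    · exact f6_12_6
    · exact f6_12_7)

theorem h8_12 : EvC tl 0 (shA Dec.one 106) d12 :=
  EvC.of2 (tab := tabX 0) (Ls := [e8_12_8, e8_12_9]) (tabX_ok 0)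
    (by decide +kernel) (by decide +kernel) (by
    intro L hL
    simp only [List.mem_cons, List.not_mem_nil, or_false] at hL
    rcases hL with rfl | rfl
    · exact f8_12_8
    · exact f8_12_9)

theorem hh_12 : EvC8 tl Dec.one d12 := EvC8.a h8_12

end Pool.Agent.TSE
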