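import Pool.Agent.TSE.C13_0
import Pool.Agent.TSE.C13_2
import Pool.Agent.TSE.C13_4
import Pool.Agent.TSE.C13_6
import Pool.Agent.TSE.C13_8
import Pool.Agent.TSE.C13_10
import Pool.Agent.TSE.C13_12
import Pool.Agent.TSE.C13_14
import Pool.Agent.TSE.C13_16
import Pool.Agent.TSE.C13_18
import Pool.Agent.TSE.C13_20
import Pool.Agent.TSE.C13_22
import Pool.Agent.TSE.C13_24
import Pool.Agent.TSE.C13_26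
import Pool.Agent.TSE.C13_28
import Pool.Agent.TSE.C13_30
import Pool.Agent.TSE.C13_32
import Pool.Agent.TSE.C13_34
import Pool.Agent.TSE.C13_36
import Pool.Agent.TSE.C13_38
import Pool.Agent.TSE.C13_40
import Pool.Agent.TSE.C13_42
import Pool.Agent.TSE.C13_44
import Pool.Agent.TSE.C13_46
import Pool.Agent.TSE.T
import Pool.Agent.TSE.BaseC
import Pool.Agent.TSG.TabX

set_option autoImplicit false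

/-! # One interval of the total mass (MP_d27362_co) -/

namespace Pool.Agent.TSE

open Pool.Agent.TSC
open Pool.Agent.TSC.Dec
open Pool.Agent.TSG


theorem kf13 : ∀ tc ∈ tl, Pool.Agent.TSK.KF tc d13 :=
  tl_forall (KF.tv rfl q0_13 c0_13) (KF.tv rfl q1_13 c1_13) (KF.tv rfl q2_13 c2_13) (KF.tv rfl q3_13 c3_13) (KF.tv rfl q4_13 c4_13) (KF.tv rfl q5_13 c5_13) (KF.tv rfl q6_13 c6_13) (KF.tv rfl q7_13 c7_13) (KF.tv rfl q8_13 c8_13) (KF.tv rfl q9_13 c9_13) (KF.tv rfl q10_13 c10_13) (KF.tv rfl q11_13 c11_13) (KF.tv rfl q12_13 c12_13) (KF.tv rfl q13_13 c13_13) (KF.tv rfl q14_13 c14_13) (KF.tv rfl q15_13 c15_13) (KF.tv rfl q16_13 c16_13) (KF.tv rfl q17_13 c17_13) (KF.tv rfl q18_13 c18_13) (KF.tv rfl q19_13 c19_13) (KF.tv rfl q20_13 c20_13) (KF.tv rfl q21_13 c21_13) (KF.tv rfl q22_13 c22_13) (KF.tv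 rfl q23_13 c23_13) (KF.tv rfl q24_13 c24_13) (KF.tv rfl q25_13 c25_13) (KF.tv rfl q26_13 c26_13) (KF.tv rfl q27_13 c27_13) (KF.tv rfl q28_13 c28_13) (KF.tv rfl q29_13 c29_13) (KF.tv rfl q30_13 c30_13) (KF.tv rfl q31_13 c31_13) (KF.tv rfl q32_13 c32_13) (KF.tv rfl q33_13 c33_13) (KF.tv rfl q34_13 c34_13) (KF.tv rfl q35_13 c35_13) (KF.tv rfl q36_13 c36_13) (KF.tv rfl q37_13 c37_13) (KF.tv rfl q38_13 c38_13) (KF.tv rfl q39_13 c39_13) (KF.tv rfl q40_13 c40_13) (KF.tv rfl q41_13 c41_13) (KF.tv rfl q42_13 c42_13) (KF.tv rfl q43_13 c43_13) (KF.tv rfl q44_13 c44_13) (KF.tv rfl q45_13 c45_13) (KF.tv rfl q46_13 c46_13)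

theorem f4_13_0 : ∀ tc ∈ tl, EF tc d13 e4_13_0 :=
  tl_forall (EF.tv rfl q0_13 c4_0_13_0) (EF.tv rfl q1_13 c4_1_13_0) (EF.tv rfl q2_13 c4_2_13_0) (EF.tv rfl q3_13 c4_3_13_0) (EF.tv rfl q4_13 c4_4_13_0) (EF.tv rfl q5_13 c4_5_13_0) (EF.tv rfl q6_13 c4_6_13_0) (EF.tv rfl q7_13 c4_7_13_0) (EF.tv rfl q8_13 c4_8_13_0) (EF.tv rfl q9_13 c4_9_13_0) (EF.tv rfl q10_13 c4_10_13_0) (EF.tv rfl q11_13 c4_11_13_0) (EF.tv rfl q12_13 c4_12_13_0) (EF.tv rfl q13_13 c4_13_13_0) (EF.tv rfl q14_13 c4_14_13_0) (EF.tv rfl q15_13 c4_15_13_0) (EF.tv rfl q16_13 c4_16_13_0) (EF.tv rfl q17_13 c4_17_13_0) (EF.tv rfl q18_13 c4_18_13_0) (EF.tv rfl q19_13 c4_19_13_0) (EF.tv rfl q20_13 c4_20_13_0) (EF.tv rfl q21_13 c4_21_13_0) (EF.tv rfl q22_13 c4_22_13_0) (EF.tv rfl q23_13 c4_23_13_0) (EF.tv rfl q24_13 c4_24_13_0) (EF.tv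 rfl q25_13 c4_25_13_0) (EF.tv rfl q26_13 c4_26_13_0) (EF.tv rfl q27_13 c4_27_13_0) (EF.tv rfl q28_13 c4_28_13_0) (EF.tv rfl q29_13 c4_29_13_0) (EF.tv rfl q30_13 c4_30_13_0) (EF.tv rfl q31_13 c4_31_13_0) (EF.tv rfl q32_13 c4_32_13_0) (EF.tv rfl q33_13 c4_33_13_0) (EF.tv rfl q34_13 c4_34_13_0) (EF.tv rfl q35_13 c4_35_13_0) (EF.tv rfl q36_13 c4_36_13_0) (EF.tv rfl q37_13 c4_37_13_0) (EF.tv rfl q38_13 c4_38_13_0) (EF.tv rfl q39_13 c4_39_13_0) (EF.tv rfl q40_13 c4_40_13_0) (EF.tv rfl q41_13 c4_41_13_0) (EF.tv rfl q42_13 c4_42_13_0) (EF.tv rfl q43_13 c4_43_13_0) (EF.tv rfl q44_13 c4_44_13_0) (EF.tv rfl q45_13 c4_45_13_0) (EF.tv rfl q46_13 c4_46_13_0)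

theorem f4_13_1 : ∀ tc ∈ tl, EF tc d13 e4_13_1 :=
  tl_forall (EF.tv rfl q0_13 c4_0_13_1) (EF.tv rfl q1_13 c4_1_13_1) (EF.tv rfl q2_13 c4_2_13_1) (EF.tv rfl q3_13 c4_3_13_1) (EF.tv rfl q4_13 c4_4_13_1) (EF.tv rfl q5_13 c4_5_13_1) (EF.tv rfl q6_13 c4_6_13_1) (EF.tv rfl q7_13 c4_7_13_1) (EF.tv rfl q8_13 c4_8_13_1) (EF.tv rfl q9_13 c4_9_13_1) (EF.tv rfl q10_13 c4_10_13_1) (EF.tv rfl q11_13 c4_11_13_1) (EF.tv rfl q12_13 c4_12_13_1) (EF.tv rfl q13_13 c4_13_13_1) (EF.tv rfl q14_13 c4_14_13_1) (EF.tv rfl q15_13 c4_15_13_1) (EF.tv rfl q16_13 c4_16_13_1) (EF.tv rfl q17_13 c4_17_13_1) (EF.tv rfl q18_13 c4_18_13_1) (EF.tv rfl q19_13 c4_19_13_1) (EF.tv rfl q20_13 c4_20_13_1) (EF.tv rfl q21_13 c4_21_13_1) (EF.tv rfl q22_13 c4_22_13_1) (EF.tv rfl q23_13 c4_23_13_1) (EF.tv rfl q24_13 c4_24_13_1) (EF.tv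 rfl q25_13 c4_25_13_1) (EF.tv rfl q26_13 c4_26_13_1) (EF.tv rfl q27_13 c4_27_13_1) (EF.tv rfl q28_13 c4_28_13_1) (EF.tv rfl q29_13 c4_29_13_1) (EF.tv rfl q30_13 c4_30_13_1) (EF.tv rfl q31_13 c4_31_13_1) (EF.tv rfl q32_13 c4_32_13_1) (EF.tv rfl q33_13 c4_33_13_1) (EF.tv rfl q34_13 c4_34_13_1) (EF.tv rfl q35_13 c4_35_13_1) (EF.tv rfl q36_13 c4_36_13_1) (EF.tv rfl q37_13 c4_37_13_1) (EF.tv rfl q38_13 c4_38_13_1) (EF.tv rfl q39_13 c4_39_13_1) (EF.tv rfl q40_13 c4_40_13_1) (EF.tv rfl q41_13 c4_41_13_1) (EF.tv rfl q42_13 c4_42_13_1) (EF.tv rfl q43_13 c4_43_13_1) (EF.tv rfl q44_13 c4_44_13_1) (EF.tv rfl q45_13 c4_45_13_1) (EF.tv rfl q46_13 c4_46_13_1)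

theorem f4_13_2 : ∀ tc ∈ tl, EF tc d13 e4_13_2 :=
  tl_forall (EF.tv rfl q0_13 c4_0_13_2) (EF.tv rfl q1_13 c4_1_13_2) (EF.tv rfl q2_13 c4_2_13_2) (EF.tv rfl q3_13 c4_3_13_2) (EF.tv rfl q4_13 c4_4_13_2) (EF.tv rfl q5_13 c4_5_13_2) (EF.tv rfl q6_13 c4_6_13_2) (EF.tv rfl q7_13 c4_7_13_2) (EF.tv rfl q8_13 c4_8_13_2) (EF.tv rfl q9_13 c4_9_13_2) (EF.tv rfl q10_13 c4_10_13_2) (EF.tv rfl q11_13 c4_11_13_2) (EF.tv rfl q12_13 c4_12_13_2) (EF.tv rfl q13_13 c4_13_13_2) (EF.tv rfl q14_13 c4_14_13_2) (EF.tv rfl q15_13 c4_15_13_2) (EF.tv rfl q16_13 c4_16_13_2) (EF.tv rfl q17_13 c4_17_13_2) (EF.tv rfl q18_13 c4_18_13_2) (EF.tv rfl q19_13 c4_19_13_2) (EF.tv rfl q20_13 c4_20_13_2) (EF.tv rfl q21_13 c4_21_13_2) (EF.tv rfl q22_13 c4_22_13_2) (EF.tv rfl q23_13 c4_23_13_2) (EF.tv rfl q24_13 c4_24_13_2) (EF.tv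 rfl q25_13 c4_25_13_2) (EF.tv rfl q26_13 c4_26_13_2) (EF.tv rfl q27_13 c4_27_13_2) (EF.tv rfl q28_13 c4_28_13_2) (EF.tv rfl q29_13 c4_29_13_2) (EF.tv rfl q30_13 c4_30_13_2) (EF.tv rfl q31_13 c4_31_13_2) (EF.tv rfl q32_13 c4_32_13_2) (EF.tv rfl q33_13 c4_33_13_2) (EF.tv rfl q34_13 c4_34_13_2) (EF.tv rfl q35_13 c4_35_13_2) (EF.tv rfl q36_13 c4_36_13_2) (EF.tv rfl q37_13 c4_37_13_2) (EF.tv rfl q38_13 c4_38_13_2) (EF.tv rfl q39_13 c4_39_13_2) (EF.tv rfl q40_13 c4_40_13_2) (EF.tv rfl q41_13 c4_41_13_2) (EF.tv rfl q42_13 c4_42_13_2) (EF.tv rfl q43_13 c4_43_13_2) (EF.tv rfl q44_13 c4_44_13_2) (EF.tv rfl q45_13 c4_45_13_2) (EF.tv rfl q46_13 c4_46_13_2)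

theorem f4_13_3 : ∀ tc ∈ tl, EF tc d13 e4_13_3 :=
  tl_forall (EF.tv rfl q0_13 c4_0_13_3) (EF.tv rfl q1_13 c4_1_13_3) (EF.tv rfl q2_13 c4_2_13_3) (EF.tv rfl q3_13 c4_3_13_3) (EF.tv rfl q4_13 c4_4_13_3) (EF.tv rfl q5_13 c4_5_13_3) (EF.tv rfl q6_13 c4_6_13_3) (EF.tv rfl q7_13 c4_7_13_3) (EF.tv rfl q8_13 c4_8_13_3) (EF.tv rfl q9_13 c4_9_13_3) (EF.tv rfl q10_13 c4_10_13_3) (EF.tv rfl q11_13 c4_11_13_3) (EF.tv rfl q12_13 c4_12_13_3) (EF.tv rfl q13_13 c4_13_13_3) (EF.tv rfl q14_13 c4_14_13_3) (EF.tv rfl q15_13 c4_15_13_3) (EF.tv rfl q16_13 c4_16_13_3) (EF.tv rfl q17_13 c4_17_13_3) (EF.tv rfl q18_13 c4_18_13_3) (EF.tv rfl q19_13 c4_19_13_3) (EF.tv rfl q20_13 c4_20_13_3) (EF.tv rfl q21_13 c4_21_13_3) (EF.tv rfl q22_13 c4_22_13_3) (EF.tv rfl q23_13 c4_23_13_3) (EF.tv rfl q24_13 c4_24_13_3) (EF.tv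 rfl q25_13 c4_25_13_3) (EF.tv rfl q26_13 c4_26_13_3) (EF.tv rfl q27_13 c4_27_13_3) (EF.tv rfl q28_13 c4_28_13_3) (EF.tv rfl q29_13 c4_29_13_3) (EF.tv rfl q30_13 c4_30_13_3) (EF.tv rfl q31_13 c4_31_13_3) (EF.tv rfl q32_13 c4_32_13_3) (EF.tv rfl q33_13 c4_33_13_3) (EF.tv rfl q34_13 c4_34_13_3) (EF.tv rfl q35_13 c4_35_13_3) (EF.tv rfl q36_13 c4_36_13_3) (EF.tv rfl q37_13 c4_37_13_3) (EF.tv rfl q38_13 c4_38_13_3) (EF.tv rfl q39_13 c4_39_13_3) (EF.tv rfl q40_13 c4_40_13_3) (EF.tv rfl q41_13 c4_41_13_3) (EF.tv rfl q42_13 c4_42_13_3) (EF.tv rfl q43_13 c4_43_13_3) (EF.tv rfl q44_13 c4_44_13_3) (EF.tv rfl q45_13 c4_45_13_3) (EF.tv rfl q46_13 c4_46_13_3)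

theorem f6_13_4 : ∀ tc ∈ tl, EF tc d13 e6_13_4 :=
  tl_forall (EF.tv rfl q0_13 c6_0_13_4) (EF.tv rfl q1_13 c6_1_13_4) (EF.tv rfl q2_13 c6_2_13_4) (EF.tv rfl q3_13 c6_3_13_4) (EF.tv rfl q4_13 c6_4_13_4) (EF.tv rfl q5_13 c6_5_13_4) (EF.tv rfl q6_13 c6_6_13_4) (EF.tv rfl q7_13 c6_7_13_4) (EF.tv rfl q8_13 c6_8_13_4) (EF.tv rfl q9_13 c6_9_13_4) (EF.tv rfl q10_13 c6_10_13_4) (EF.tv rfl q11_13 c6_11_13_4) (EF.tv rfl q12_13 c6_12_13_4) (EF.tv rfl q13_13 c6_13_13_4) (EF.tv rfl q14_13 c6_14_13_4) (EF.tv rfl q15_13 c6_15_13_4) (EF.tv rfl q16_13 c6_16_13_4) (EF.tv rfl q17_13 c6_17_13_4) (EF.tv rfl q18_13 c6_18_13_4) (EF.tv rfl q19_13 c6_19_13_4) (EF.tv rfl q20_13 c6_20_13_4) (EF.tv rfl q21_13 c6_21_13_4) (EF.tv rfl q22_13 c6_22_13_4) (EF.tv rfl q23_13 c6_23_13_4) (EF.tv rfl q24_13 c6_24_13_4) (EF.tv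 rfl q25_13 c6_25_13_4) (EF.tv rfl q26_13 c6_26_13_4) (EF.tv rfl q27_13 c6_27_13_4) (EF.tv rfl q28_13 c6_28_13_4) (EF.tv rfl q29_13 c6_29_13_4) (EF.tv rfl q30_13 c6_30_13_4) (EF.tv rfl q31_13 c6_31_13_4) (EF.tv rfl q32_13 c6_32_13_4) (EF.tv rfl q33_13 c6_33_13_4) (EF.tv rfl q34_13 c6_34_13_4) (EF.tv rfl q35_13 c6_35_13_4) (EF.tv rfl q36_13 c6_36_13_4) (EF.tv rfl q37_13 c6_37_13_4) (EF.tv rfl q38_13 c6_38_13_4) (EF.tv rfl q39_13 c6_39_13_4) (EF.tv rfl q40_13 c6_40_13_4) (EF.tv rfl q41_13 c6_41_13_4) (EF.tv rfl q42_13 c6_42_13_4) (EF.tv rfl q43_13 c6_43_13_4) (EF.tv rfl q44_13 c6_44_13_4) (EF.tv rfl q45_13 c6_45_13_4) (EF.tv rfl q46_13 c6_46_13_4)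

theorem f6_13_5 : ∀ tc ∈ tl, EF tc d13 e6_13_5 :=
  tl_forall (EF.tv rfl q0_13 c6_0_13_5) (EF.tv rfl q1_13 c6_1_13_5) (EF.tv rfl q2_13 c6_2_13_5) (EF.tv rfl q3_13 c6_3_13_5) (EF.tv rfl q4_13 c6_4_13_5) (EF.tv rfl q5_13 c6_5_13_5) (EF.tv rfl q6_13 c6_6_13_5) (EF.tv rfl q7_13 c6_7_13_5) (EF.tv rfl q8_13 c6_8_13_5) (EF.tv rfl q9_13 c6_9_13_5) (EF.tv rfl q10_13 c6_10_13_5) (EF.tv rfl q11_13 c6_11_13_5) (EF.tv rfl q12_13 c6_12_13_5) (EF.tv rfl q13_13 c6_13_13_5) (EF.tv rfl q14_13 c6_14_13_5) (EF.tv rfl q15_13 c6_15_13_5) (EF.tv rfl q16_13 c6_16_13_5) (EF.tv rfl q17_13 c6_17_13_5) (EF.tv rfl q18_13 c6_18_13_5) (EF.tv rfl q19_13 c6_19_13_5) (EF.tv rfl q20_13 c6_20_13_5) (EF.tv rfl q21_13 c6_21_13_5) (EF.tv rfl q22_13 c6_22_13_5) (EF.tv rfl q23_13 c6_23_13_5) (EF.tv rfl q24_13 c6_24_13_5) (EF.tv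 rfl q25_13 c6_25_13_5) (EF.tv rfl q26_13 c6_26_13_5) (EF.tv rfl q27_13 c6_27_13_5) (EF.tv rfl q28_13 c6_28_13_5) (EF.tv rfl q29_13 c6_29_13_5) (EF.tv rfl q30_13 c6_30_13_5) (EF.tv rfl q31_13 c6_31_13_5) (EF.tv rfl q32_13 c6_32_13_5) (EF.tv rfl q33_13 c6_33_13_5) (EF.tv rfl q34_13 c6_34_13_5) (EF.tv rfl q35_13 c6_35_13_5) (EF.tv rfl q36_13 c6_36_13_5) (EF.tv rfl q37_13 c6_37_13_5) (EF.tv rfl q38_13 c6_38_13_5) (EF.tv rfl q39_13 c6_39_13_5) (EF.tv rfl q40_13 c6_40_13_5) (EF.tv rfl q41_13 c6_41_13_5) (EF.tv rfl q42_13 c6_42_13_5) (EF.tv rfl q43_13 c6_43_13_5) (EF.tv rfl q44_13 c6_44_13_5) (EF.tv rfl q45_13 c6_45_13_5) (EF.tv rfl q46_13 c6_46_13_5)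

theorem f6_13_6 : ∀ tc ∈ tl, EF tc d13 e6_13_6 :=
  tl_forall (EF.tv rfl q0_13 c6_0_13_6) (EF.tv rfl q1_13 c6_1_13_6) (EF.tv rfl q2_13 c6_2_13_6) (EF.tv rfl q3_13 c6_3_13_6) (EF.tv rfl q4_13 c6_4_13_6) (EF.tv rfl q5_13 c6_5_13_6) (EF.tv rfl q6_13 c6_6_13_6) (EF.tv rfl q7_13 c6_7_13_6) (EF.tv rfl q8_13 c6_8_13_6) (EF.tv rfl q9_13 c6_9_13_6) (EF.tv rfl q10_13 c6_10_13_6) (EF.tv rfl q11_13 c6_11_13_6) (EF.tv rfl q12_13 c6_12_13_6) (EF.tv rfl q13_13 c6_13_13_6) (EF.tv rfl q14_13 c6_14_13_6) (EF.tv rfl q15_13 c6_15_13_6) (EF.tv rfl q16_13 c6_16_13_6) (EF.tv rfl q17_13 c6_17_13_6) (EF.tv rfl q18_13 c6_18_13_6) (EF.tv rfl q19_13 c6_19_13_6) (EF.tv rfl q20_13 c6_20_13_6) (EF.tv rfl q21_13 c6_21_13_6) (EF.tv rfl q22_13 c6_22_13_6) (EF.tv rfl q23_13 c6_23_13_6) (EF.tv rfl q24_13 c6_24_13_6) (EF.tv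 rfl q25_13 c6_25_13_6) (EF.tv rfl q26_13 c6_26_13_6) (EF.tv rfl q27_13 c6_27_13_6) (EF.tv rfl q28_13 c6_28_13_6) (EF.tv rfl q29_13 c6_29_13_6) (EF.tv rfl q30_13 c6_30_13_6) (EF.tv rfl q31_13 c6_31_13_6) (EF.tv rfl q32_13 c6_32_13_6) (EF.tv rfl q33_13 c6_33_13_6) (EF.tv rfl q34_13 c6_34_13_6) (EF.tv rfl q35_13 c6_35_13_6) (EF.tv rfl q36_13 c6_36_13_6) (EF.tv rfl q37_13 c6_37_13_6) (EF.tv rfl q38_13 c6_38_13_6) (EF.tv rfl q39_13 c6_39_13_6) (EF.tv rfl q40_13 c6_40_13_6) (EF.tv rfl q41_13 c6_41_13_6) (EF.tv rfl q42_13 c6_42_13_6) (EF.tv rfl q43_13 c6_43_13_6) (EF.tv rfl q44_13 c6_44_13_6) (EF.tv rfl q45_13 c6_45_13_6) (EF.tv rfl q46_13 c6_46_13_6)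

theorem f6_13_7 : ∀ tc ∈ tl, EF tc d13 e6_13_7 :=
  tl_forall (EF.tv rfl q0_13 c6_0_13_7) (EF.tv rfl q1_13 c6_1_13_7) (EF.tv rfl q2_13 c6_2_13_7) (EF.tv rfl q3_13 c6_3_13_7) (EF.tv rfl q4_13 c6_4_13_7) (EF.tv rfl q5_13 c6_5_13_7) (EF.tv rfl q6_13 c6_6_13_7) (EF.tv rfl q7_13 c6_7_13_7) (EF.tv rfl q8_13 c6_8_13_7) (EF.tv rfl q9_13 c6_9_13_7) (EF.tv rfl q10_13 c6_10_13_7) (EF.tv rfl q11_13 c6_11_13_7) (EF.tv rfl q12_13 c6_12_13_7) (EF.tv rfl q13_13 c6_13_13_7) (EF.tv rfl q14_13 c6_14_13_7) (EF.tv rfl q15_13 c6_15_13_7) (EF.tv rfl q16_13 c6_16_13_7) (EF.tv rfl q17_13 c6_17_13_7) (EF.tv rfl q18_13 c6_18_13_7) (EF.tv rfl q19_13 c6_19_13_7) (EF.tv rfl q20_13 c6_20_13_7) (EF.tv rfl q21_13 c6_21_13_7) (EF.tv rfl q22_13 c6_22_13_7) (EF.tv rfl q23_13 c6_23_13_7) (EF.tv rfl q24_13 c6_24_13_7) (EF.tv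 rfl q25_13 c6_25_13_7) (EF.tv rfl q26_13 c6_26_13_7) (EF.tv rfl q27_13 c6_27_13_7) (EF.tv rfl q28_13 c6_28_13_7) (EF.tv rfl q29_13 c6_29_13_7) (EF.tv rfl q30_13 c6_30_13_7) (EF.tv rfl q31_13 c6_31_13_7) (EF.tv rfl q32_13 c6_32_13_7) (EF.tv rfl q33_13 c6_33_13_7) (EF.tv rfl q34_13 c6_34_13_7) (EF.tv rfl q35_13 c6_35_13_7) (EF.tv rfl q36_13 c6_36_13_7) (EF.tv rfl q37_13 c6_37_13_7) (EF.tv rfl q38_13 c6_38_13_7) (EF.tv rfl q39_13 c6_39_13_7) (EF.tv rfl q40_13 c6_40_13_7) (EF.tv rfl q41_13 c6_41_13_7) (EF.tv rfl q42_13 c6_42_13_7) (EF.tv rfl q43_13 c6_43_13_7) (EF.tv rfl q44_13 c6_44_13_7) (EF.tv rfl q45_13 c6_45_13_7) (EF.tv rfl q46_13 c6_46_13_7)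

theorem f8_13_8 : ∀ tc ∈ tl, EF tc d13 e8_13_8 :=
  tl_forall (EF.tv rfl q0_13 c8_0_13_8) (EF.tv rfl q1_13 c8_1_13_8) (EF.tv rfl q2_13 c8_2_13_8) (EF.tv rfl q3_13 c8_3_13_8) (EF.tv rfl q4_13 c8_4_13_8) (EF.tv rfl q5_13 c8_5_13_8) (EF.tv rfl q6_13 c8_6_13_8) (EF.tv rfl q7_13 c8_7_13_8) (EF.tv rfl q8_13 c8_8_13_8) (EF.tv rfl q9_13 c8_9_13_8) (EF.tv rfl q10_13 c8_10_13_8) (EF.tv rfl q11_13 c8_11_13_8) (EF.tv rfl q12_13 c8_12_13_8) (EF.tv rfl q13_13 c8_13_13_8) (EF.tv rfl q14_13 c8_14_13_8) (EF.tv rfl q15_13 c8_15_13_8) (EF.tv rfl q16_13 c8_16_13_8) (EF.tv rfl q17_13 c8_17_13_8) (EF.tv rfl q18_13 c8_18_13_8) (EF.tv rfl q19_13 c8_19_13_8) (EF.tv rfl q20_13 c8_20_13_8) (EF.tv rfl q21_13 c8_21_13_8) (EF.tv rfl q22_13 c8_22_13_8) (EF.tv rfl q23_13 c8_23_13_8) (EF.tv rfl q24_13 c8_24_13_8) (EF.tv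 rfl q25_13 c8_25_13_8) (EF.tv rfl q26_13 c8_26_13_8) (EF.tv rfl q27_13 c8_27_13_8) (EF.tv rfl q28_13 c8_28_13_8) (EF.tv rfl q29_13 c8_29_13_8) (EF.tv rfl q30_13 c8_30_13_8) (EF.tv rfl q31_13 c8_31_13_8) (EF.tv rfl q32_13 c8_32_13_8) (EF.tv rfl q33_13 c8_33_13_8) (EF.tv rfl q34_13 c8_34_13_8) (EF.tv rfl q35_13 c8_35_13_8) (EF.tv rfl q36_13 c8_36_13_8) (EF.tv rfl q37_13 c8_37_13_8) (EF.tv rfl q38_13 c8_38_13_8) (EF.tv rfl q39_13 c8_39_13_8) (EF.tv rfl q40_13 c8_40_13_8) (EF.tv rfl q41_13 c8_41_13_8) (EF.tv rfl q42_13 c8_42_13_8) (EF.tv rfl q43_13 c8_43_13_8) (EF.tv rfl q44_13 c8_44_13_8) (EF.tv rfl q45_13 c8_45_13_8) (EF.tv rfl q46_13 c8_46_13_8)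

theorem f8_13_9 : ∀ tc ∈ tl, EF tc d13 e8_13_9 :=
  tl_forall (EF.tv rfl q0_13 c8_0_13_9) (EF.tv rfl q1_13 c8_1_13_9) (EF.tv rfl q2_13 c8_2_13_9) (EF.tv rfl q3_13 c8_3_13_9) (EF.tv rfl q4_13 c8_4_13_9) (EF.tv rfl q5_13 c8_5_13_9) (EF.tv rfl q6_13 c8_6_13_9) (EF.tv rfl q7_13 c8_7_13_9) (EF.tv rfl q8_13 c8_8_13_9) (EF.tv rfl q9_13 c8_9_13_9) (EF.tv rfl q10_13 c8_10_13_9) (EF.tv rfl q11_13 c8_11_13_9) (EF.tv rfl q12_13 c8_12_13_9) (EF.tv rfl q13_13 c8_13_13_9) (EF.tv rfl q14_13 c8_14_13_9) (EF.tv rfl q15_13 c8_15_13_9) (EF.tv rfl q16_13 c8_16_13_9) (EF.tv rfl q17_13 c8_17_13_9) (EF.tv rfl q18_13 c8_18_13_9) (EF.tv rfl q19_13 c8_19_13_9) (EF.tv rfl q20_13 c8_20_13_9) (EF.tv rfl q21_13 c8_21_13_9) (EF.tv rfl q22_13 c8_22_13_9) (EF.tv rfl q23_13 c8_23_13_9) (EF.tv rfl q24_13 c8_24_13_9) (EF.tv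 rfl q25_13 c8_25_13_9) (EF.tv rfl q26_13 c8_26_13_9) (EF.tv rfl q27_13 c8_27_13_9) (EF.tv rfl q28_13 c8_28_13_9) (EF.tv rfl q29_13 c8_29_13_9) (EF.tv rfl q30_13 c8_30_13_9) (EF.tv rfl q31_13 c8_31_13_9) (EF.tv rfl q32_13 c8_32_13_9) (EF.tv rfl q33_13 c8_33_13_9) (EF.tv rfl q34_13 c8_34_13_9) (EF.tv rfl q35_13 c8_35_13_9) (EF.tv rfl q36_13 c8_36_13_9) (EF.tv rfl q37_13 c8_37_13_9) (EF.tv rfl q38_13 c8_38_13_9) (EF.tv rfl q39_13 c8_39_13_9) (EF.tv rfl q40_13 c8_40_13_9) (EF.tv rfl q41_13 c8_41_13_9) (EF.tv rfl q42_13 c8_42_13_9) (EF.tv rfl q43_13 c8_43_13_9) (EF.tv rfl q44_13 c8_44_13_9) (EF.tv rfl q45_13 c8_45_13_9) (EF.tv rfl q46_13 c8_46_13_9)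

theorem h4_13 : EvC tl 4 (shK Dec.one 4) d13 :=
  EvC.of2 (tab := tabX 4) (Ls := [e4_13_0, e4_13_1, e4_13_2, e4_13_3]) (tabX_ok 4)
    (by decide +kernel) (by decide +kernel) (by
    intro L hL
    simp only [List.mem_cons, List.not_mem_nil, or_false] at hL
    rcases hL with rfl | rfl | rfl | rfl
    · exact f4_13_0
    · exact f4_13_1
    · exact f4_13_2
    · exact f4_13_3)

theorem h6_13 : EvC tl 6 (shK Dec.one 6) d13 :=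
  EvC.of2 (tab := tabX 6) (Ls := [e6_13_4, e6_13_5, e6_13_6, e6_13_7]) (tabX_ok 6)
    (by decide +kernel) (by decide +kernel) (by
    intro L hL
    simp only [List.mem_cons, List.not_mem_nil, or_false] at hL
    rcases hL with rfl | rfl | rfl | rfl
    · exact f6_13_4
    · exact f6_13_5
    · exact f6_13_6
    · exact f6_13_7)

theorem h8_13 : EvC tl 0 (shA Dec.one 106) d13 :=
  EvC.of2 (tab := tabX 0) (Ls := [e8_13_8, e8_13_9]) (tabX_ok 0)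
    (by decide +kernel) (by decide +kernel) (by
    intro L hL
    simp only [List.mem_cons, List.not_mem_nil, or_false] at hL
    rcases hL with rfl | rfl
    · exact f8_13_8
    · exact f8_13_9)

theorem hh_13 : EvC8 tl Dec.one d13 := EvC8.a h8_13

end Pool.Agent.TSE
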