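import Pool.Agent.TSE.C14_0
import Pool.Agent.TSE.C14_2
import Pool.Agent.TSE.C14_4
import Pool.Agent.TSE.C14_6
import Pool.Agent.TSE.C14_8
import Pool.Agent.TSE.C14_10
import Pool.Agent.TSE.C14_12
import Pool.Agent.TSE.C14_14
import Pool.Agent.TSE.C14_16
import Pool.Agent.TSE.C14_18
import Pool.Agent.TSE.C14_20
import Pool.Agent.TSE.C14_22
import Pool.Agent.TSE.C14_24
import Pool.Agent.TSE.C14_26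
import Pool.Agent.TSE.C14_28
import Pool.Agent.TSE.C14_30
import Pool.Agent.TSE.C14_32
import Pool.Agent.TSE.C14_34
import Pool.Agent.TSE.C14_36
import Pool.Agent.TSE.C14_38
import Pool.Agent.TSE.C14_40
import Pool.Agent.TSE.C14_42
import Pool.Agent.TSE.C14_44
import Pool.Agent.TSE.C14_46
import Pool.Agent.TSE.T
import Pool.Agent.TSE.BaseC
import Pool.Agent.TSG.TabX

set_option autoImplicit false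

/-! # One interval of the total mass (MP_d27362_co) -/

namespace Pool.Agent.TSE

open Pool.Agent.TSC
open Pool.Agent.TSC.Dec
open Pool.Agent.TSG


theorem kf14 : ∀ tc ∈ tl, Pool.Agent.TSK.KF tc d14 :=
  tl_forall (KF.tv rfl q0_14 c0_14) (KF.tv rfl q1_14 c1_14) (KF.tv rfl q2_14 c2_14) (KF.tv rfl q3_14 c3_14) (KF.tv rfl q4_14 c4_14) (KF.tv rfl q5_14 c5_14) (KF.tv rfl q6_14 c6_14) (KF.tv rfl q7_14 c7_14) (KF.tv rfl q8_14 c8_14) (KF.tv rfl q9_14 c9_14) (KF.tv rfl q10_14 c10_14) (KF.tv rfl q11_14 c11_14) (KF.tv rfl q12_14 c12_14) (KF.tv rfl q13_14 c13_14) (KF.tv rfl q14_14 c14_14) (KF.tv rfl q15_14 c15_14) (KF.tv rfl q16_14 c16_14) (KF.tv rfl q17_14 c17_14) (KF.tv rfl q18_14 c18_14) (KF.tv rfl q19_14 c19_14) (KF.tv rfl q20_14 c20_14) (KF.tv rfl q21_14 c21_14) (KF.tv rfl q22_14 c22_14) (KF.tv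 rfl q23_14 c23_14) (KF.tv rfl q24_14 c24_14) (KF.tv rfl q25_14 c25_14) (KF.tv rfl q26_14 c26_14) (KF.tv rfl q27_14 c27_14) (KF.tv rfl q28_14 c28_14) (KF.tv rfl q29_14 c29_14) (KF.tv rfl q30_14 c30_14) (KF.tv rfl q31_14 c31_14) (KF.tv rfl q32_14 c32_14) (KF.tv rfl q33_14 c33_14) (KF.tv rfl q34_14 c34_14) (KF.tv rfl q35_14 c35_14) (KF.tv rfl q36_14 c36_14) (KF.tv rfl q37_14 c37_14) (KF.tv rfl q38_14 c38_14) (KF.tv rfl q39_14 c39_14) (KF.tv rfl q40_14 c40_14) (KF.tv rfl q41_14 c41_14) (KF.tv rfl q42_14 c42_14) (KF.tv rfl q43_14 c43_14) (KF.tv rfl q44_14 c44_14) (KF.tv rfl q45_14 c45_14) (KF.tv rfl q46_14 c46_14)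

theorem f4_14_0 : ∀ tc ∈ tl, EF tc d14 e4_14_0 :=
  tl_forall (EF.tv rfl q0_14 c4_0_14_0) (EF.tv rfl q1_14 c4_1_14_0) (EF.tv rfl q2_14 c4_2_14_0) (EF.tv rfl q3_14 c4_3_14_0) (EF.tv rfl q4_14 c4_4_14_0) (EF.tv rfl q5_14 c4_5_14_0) (EF.tv rfl q6_14 c4_6_14_0) (EF.tv rfl q7_14 c4_7_14_0) (EF.tv rfl q8_14 c4_8_14_0) (EF.tv rfl q9_14 c4_9_14_0) (EF.tv rfl q10_14 c4_10_14_0) (EF.tv rfl q11_14 c4_11_14_0) (EF.tv rfl q12_14 c4_12_14_0) (EF.tv rfl q13_14 c4_13_14_0) (EF.tv rfl q14_14 c4_14_14_0) (EF.tv rfl q15_14 c4_15_14_0) (EF.tv rfl q16_14 c4_16_14_0) (EF.tv rfl q17_14 c4_17_14_0) (EF.tv rfl q18_14 c4_18_14_0) (EF.tv rfl q19_14 c4_19_14_0) (EF.tv rfl q20_14 c4_20_14_0) (EF.tv rfl q21_14 c4_21_14_0) (EF.tv rfl q22_14 c4_22_14_0) (EF.tv rfl q23_14 c4_23_14_0) (EF.tv rfl q24_14 c4_24_14_0) (EF.tv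 rfl q25_14 c4_25_14_0) (EF.tv rfl q26_14 c4_26_14_0) (EF.tv rfl q27_14 c4_27_14_0) (EF.tv rfl q28_14 c4_28_14_0) (EF.tv rfl q29_14 c4_29_14_0) (EF.tv rfl q30_14 c4_30_14_0) (EF.tv rfl q31_14 c4_31_14_0) (EF.tv rfl q32_14 c4_32_14_0) (EF.tv rfl q33_14 c4_33_14_0) (EF.tv rfl q34_14 c4_34_14_0) (EF.tv rfl q35_14 c4_35_14_0) (EF.tv rfl q36_14 c4_36_14_0) (EF.tv rfl q37_14 c4_37_14_0) (EF.tv rfl q38_14 c4_38_14_0) (EF.tv rfl q39_14 c4_39_14_0) (EF.tv rfl q40_14 c4_40_14_0) (EF.tv rfl q41_14 c4_41_14_0) (EF.tv rfl q42_14 c4_42_14_0) (EF.tv rfl q43_14 c4_43_14_0) (EF.tv rfl q44_14 c4_44_14_0) (EF.tv rfl q45_14 c4_45_14_0) (EF.tv rfl q46_14 c4_46_14_0)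

theorem f4_14_1 : ∀ tc ∈ tl, EF tc d14 e4_14_1 :=
  tl_forall (EF.tv rfl q0_14 c4_0_14_1) (EF.tv rfl q1_14 c4_1_14_1) (EF.tv rfl q2_14 c4_2_14_1) (EF.tv rfl q3_14 c4_3_14_1) (EF.tv rfl q4_14 c4_4_14_1) (EF.tv rfl q5_14 c4_5_14_1) (EF.tv rfl q6_14 c4_6_14_1) (EF.tv rfl q7_14 c4_7_14_1) (EF.tv rfl q8_14 c4_8_14_1) (EF.tv rfl q9_14 c4_9_14_1) (EF.tv rfl q10_14 c4_10_14_1) (EF.tv rfl q11_14 c4_11_14_1) (EF.tv rfl q12_14 c4_12_14_1) (EF.tv rfl q13_14 c4_13_14_1) (EF.tv rfl q14_14 c4_14_14_1) (EF.tv rfl q15_14 c4_15_14_1) (EF.tv rfl q16_14 c4_16_14_1) (EF.tv rfl q17_14 c4_17_14_1) (EF.tv rfl q18_14 c4_18_14_1) (EF.tv rfl q19_14 c4_19_14_1) (EF.tv rfl q20_14 c4_20_14_1) (EF.tv rfl q21_14 c4_21_14_1) (EF.tv rfl q22_14 c4_22_14_1) (EF.tv rfl q23_14 c4_23_14_1) (EF.tv rfl q24_14 c4_24_14_1) (EF.tv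 rfl q25_14 c4_25_14_1) (EF.tv rfl q26_14 c4_26_14_1) (EF.tv rfl q27_14 c4_27_14_1) (EF.tv rfl q28_14 c4_28_14_1) (EF.tv rfl q29_14 c4_29_14_1) (EF.tv rfl q30_14 c4_30_14_1) (EF.tv rfl q31_14 c4_31_14_1) (EF.tv rfl q32_14 c4_32_14_1) (EF.tv rfl q33_14 c4_33_14_1) (EF.tv rfl q34_14 c4_34_14_1) (EF.tv rfl q35_14 c4_35_14_1) (EF.tv rfl q36_14 c4_36_14_1) (EF.tv rfl q37_14 c4_37_14_1) (EF.tv rfl q38_14 c4_38_14_1) (EF.tv rfl q39_14 c4_39_14_1) (EF.tv rfl q40_14 c4_40_14_1) (EF.tv rfl q41_14 c4_41_14_1) (EF.tv rfl q42_14 c4_42_14_1) (EF.tv rfl q43_14 c4_43_14_1) (EF.tv rfl q44_14 c4_44_14_1) (EF.tv rfl q45_14 c4_45_14_1) (EF.tv rfl q46_14 c4_46_14_1)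

theorem f4_14_2 : ∀ tc ∈ tl, EF tc d14 e4_14_2 :=
  tl_forall (EF.tv rfl q0_14 c4_0_14_2) (EF.tv rfl q1_14 c4_1_14_2) (EF.tv rfl q2_14 c4_2_14_2) (EF.tv rfl q3_14 c4_3_14_2) (EF.tv rfl q4_14 c4_4_14_2) (EF.tv rfl q5_14 c4_5_14_2) (EF.tv rfl q6_14 c4_6_14_2) (EF.tv rfl q7_14 c4_7_14_2) (EF.tv rfl q8_14 c4_8_14_2) (EF.tv rfl q9_14 c4_9_14_2) (EF.tv rfl q10_14 c4_10_14_2) (EF.tv rfl q11_14 c4_11_14_2) (EF.tv rfl q12_14 c4_12_14_2) (EF.tv rfl q13_14 c4_13_14_2) (EF.tv rfl q14_14 c4_14_14_2) (EF.tv rfl q15_14 c4_15_14_2) (EF.tv rfl q16_14 c4_16_14_2) (EF.tv rfl q17_14 c4_17_14_2) (EF.tv rfl q18_14 c4_18_14_2) (EF.tv rfl q19_14 c4_19_14_2) (EF.tv rfl q20_14 c4_20_14_2) (EF.tv rfl q21_14 c4_21_14_2) (EF.tv rfl q22_14 c4_22_14_2) (EF.tv rfl q23_14 c4_23_14_2) (EF.tv rfl q24_14 c4_24_14_2) (EF.tv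 rfl q25_14 c4_25_14_2) (EF.tv rfl q26_14 c4_26_14_2) (EF.tv rfl q27_14 c4_27_14_2) (EF.tv rfl q28_14 c4_28_14_2) (EF.tv rfl q29_14 c4_29_14_2) (EF.tv rfl q30_14 c4_30_14_2) (EF.tv rfl q31_14 c4_31_14_2) (EF.tv rfl q32_14 c4_32_14_2) (EF.tv rfl q33_14 c4_33_14_2) (EF.tv rfl q34_14 c4_34_14_2) (EF.tv rfl q35_14 c4_35_14_2) (EF.tv rfl q36_14 c4_36_14_2) (EF.tv rfl q37_14 c4_37_14_2) (EF.tv rfl q38_14 c4_38_14_2) (EF.tv rfl q39_14 c4_39_14_2) (EF.tv rfl q40_14 c4_40_14_2) (EF.tv rfl q41_14 c4_41_14_2) (EF.tv rfl q42_14 c4_42_14_2) (EF.tv rfl q43_14 c4_43_14_2) (EF.tv rfl q44_14 c4_44_14_2) (EF.tv rfl q45_14 c4_45_14_2) (EF.tv rfl q46_14 c4_46_14_2)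

theorem f4_14_3 : ∀ tc ∈ tl, EF tc d14 e4_14_3 :=
  tl_forall (EF.tv rfl q0_14 c4_0_14_3) (EF.tv rfl q1_14 c4_1_14_3) (EF.tv rfl q2_14 c4_2_14_3) (EF.tv rfl q3_14 c4_3_14_3) (EF.tv rfl q4_14 c4_4_14_3) (EF.tv rfl q5_14 c4_5_14_3) (EF.tv rfl q6_14 c4_6_14_3) (EF.tv rfl q7_14 c4_7_14_3) (EF.tv rfl q8_14 c4_8_14_3) (EF.tv rfl q9_14 c4_9_14_3) (EF.tv rfl q10_14 c4_10_14_3) (EF.tv rfl q11_14 c4_11_14_3) (EF.tv rfl q12_14 c4_12_14_3) (EF.tv rfl q13_14 c4_13_14_3) (EF.tv rfl q14_14 c4_14_14_3) (EF.tv rfl q15_14 c4_15_14_3) (EF.tv rfl q16_14 c4_16_14_3) (EF.tv rfl q17_14 c4_17_14_3) (EF.tv rfl q18_14 c4_18_14_3) (EF.tv rfl q19_14 c4_19_14_3) (EF.tv rfl q20_14 c4_20_14_3) (EF.tv rfl q21_14 c4_21_14_3) (EF.tv rfl q22_14 c4_22_14_3) (EF.tv rfl q23_14 c4_23_14_3) (EF.tv rfl q24_14 c4_24_14_3) (EF.tv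 rfl q25_14 c4_25_14_3) (EF.tv rfl q26_14 c4_26_14_3) (EF.tv rfl q27_14 c4_27_14_3) (EF.tv rfl q28_14 c4_28_14_3) (EF.tv rfl q29_14 c4_29_14_3) (EF.tv rfl q30_14 c4_30_14_3) (EF.tv rfl q31_14 c4_31_14_3) (EF.tv rfl q32_14 c4_32_14_3) (EF.tv rfl q33_14 c4_33_14_3) (EF.tv rfl q34_14 c4_34_14_3) (EF.tv rfl q35_14 c4_35_14_3) (EF.tv rfl q36_14 c4_36_14_3) (EF.tv rfl q37_14 c4_37_14_3) (EF.tv rfl q38_14 c4_38_14_3) (EF.tv rfl q39_14 c4_39_14_3) (EF.tv rfl q40_14 c4_40_14_3) (EF.tv rfl q41_14 c4_41_14_3) (EF.tv rfl q42_14 c4_42_14_3) (EF.tv rfl q43_14 c4_43_14_3) (EF.tv rfl q44_14 c4_44_14_3) (EF.tv rfl q45_14 c4_45_14_3) (EF.tv rfl q46_14 c4_46_14_3)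

theorem f6_14_4 : ∀ tc ∈ tl, EF tc d14 e6_14_4 :=
  tl_forall (EF.tv rfl q0_14 c6_0_14_4) (EF.tv rfl q1_14 c6_1_14_4) (EF.tv rfl q2_14 c6_2_14_4) (EF.tv rfl q3_14 c6_3_14_4) (EF.tv rfl q4_14 c6_4_14_4) (EF.tv rfl q5_14 c6_5_14_4) (EF.tv rfl q6_14 c6_6_14_4) (EF.tv rfl q7_14 c6_7_14_4) (EF.tv rfl q8_14 c6_8_14_4) (EF.tv rfl q9_14 c6_9_14_4) (EF.tv rfl q10_14 c6_10_14_4) (EF.tv rfl q11_14 c6_11_14_4) (EF.tv rfl q12_14 c6_12_14_4) (EF.tv rfl q13_14 c6_13_14_4) (EF.tv rfl q14_14 c6_14_14_4) (EF.tv rfl q15_14 c6_15_14_4) (EF.tv rfl q16_14 c6_16_14_4) (EF.tv rfl q17_14 c6_17_14_4) (EF.tv rfl q18_14 c6_18_14_4) (EF.tv rfl q19_14 c6_19_14_4) (EF.tv rfl q20_14 c6_20_14_4) (EF.tv rfl q21_14 c6_21_14_4) (EF.tv rfl q22_14 c6_22_14_4) (EF.tv rfl q23_14 c6_23_14_4) (EF.tv rfl q24_14 c6_24_14_4) (EF.tv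 rfl q25_14 c6_25_14_4) (EF.tv rfl q26_14 c6_26_14_4) (EF.tv rfl q27_14 c6_27_14_4) (EF.tv rfl q28_14 c6_28_14_4) (EF.tv rfl q29_14 c6_29_14_4) (EF.tv rfl q30_14 c6_30_14_4) (EF.tv rfl q31_14 c6_31_14_4) (EF.tv rfl q32_14 c6_32_14_4) (EF.tv rfl q33_14 c6_33_14_4) (EF.tv rfl q34_14 c6_34_14_4) (EF.tv rfl q35_14 c6_35_14_4) (EF.tv rfl q36_14 c6_36_14_4) (EF.tv rfl q37_14 c6_37_14_4) (EF.tv rfl q38_14 c6_38_14_4) (EF.tv rfl q39_14 c6_39_14_4) (EF.tv rfl q40_14 c6_40_14_4) (EF.tv rfl q41_14 c6_41_14_4) (EF.tv rfl q42_14 c6_42_14_4) (EF.tv rfl q43_14 c6_43_14_4) (EF.tv rfl q44_14 c6_44_14_4) (EF.tv rfl q45_14 c6_45_14_4) (EF.tv rfl q46_14 c6_46_14_4)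

theorem f6_14_5 : ∀ tc ∈ tl, EF tc d14 e6_14_5 :=
  tl_forall (EF.tv rfl q0_14 c6_0_14_5) (EF.tv rfl q1_14 c6_1_14_5) (EF.tv rfl q2_14 c6_2_14_5) (EF.tv rfl q3_14 c6_3_14_5) (EF.tv rfl q4_14 c6_4_14_5) (EF.tv rfl q5_14 c6_5_14_5) (EF.tv rfl q6_14 c6_6_14_5) (EF.tv rfl q7_14 c6_7_14_5) (EF.tv rfl q8_14 c6_8_14_5) (EF.tv rfl q9_14 c6_9_14_5) (EF.tv rfl q10_14 c6_10_14_5) (EF.tv rfl q11_14 c6_11_14_5) (EF.tv rfl q12_14 c6_12_14_5) (EF.tv rfl q13_14 c6_13_14_5) (EF.tv rfl q14_14 c6_14_14_5) (EF.tv rfl q15_14 c6_15_14_5) (EF.tv rfl q16_14 c6_16_14_5) (EF.tv rfl q17_14 c6_17_14_5) (EF.tv rfl q18_14 c6_18_14_5) (EF.tv rfl q19_14 c6_19_14_5) (EF.tv rfl q20_14 c6_20_14_5) (EF.tv rfl q21_14 c6_21_14_5) (EF.tv rfl q22_14 c6_22_14_5) (EF.tv rfl q23_14 c6_23_14_5) (EF.tv rfl q24_14 c6_24_14_5) (EF.tv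 rfl q25_14 c6_25_14_5) (EF.tv rfl q26_14 c6_26_14_5) (EF.tv rfl q27_14 c6_27_14_5) (EF.tv rfl q28_14 c6_28_14_5) (EF.tv rfl q29_14 c6_29_14_5) (EF.tv rfl q30_14 c6_30_14_5) (EF.tv rfl q31_14 c6_31_14_5) (EF.tv rfl q32_14 c6_32_14_5) (EF.tv rfl q33_14 c6_33_14_5) (EF.tv rfl q34_14 c6_34_14_5) (EF.tv rfl q35_14 c6_35_14_5) (EF.tv rfl q36_14 c6_36_14_5) (EF.tv rfl q37_14 c6_37_14_5) (EF.tv rfl q38_14 c6_38_14_5) (EF.tv rfl q39_14 c6_39_14_5) (EF.tv rfl q40_14 c6_40_14_5) (EF.tv rfl q41_14 c6_41_14_5) (EF.tv rfl q42_14 c6_42_14_5) (EF.tv rfl q43_14 c6_43_14_5) (EF.tv rfl q44_14 c6_44_14_5) (EF.tv rfl q45_14 c6_45_14_5) (EF.tv rfl q46_14 c6_46_14_5)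

theorem f6_14_6 : ∀ tc ∈ tl, EF tc d14 e6_14_6 :=
  tl_forall (EF.tv rfl q0_14 c6_0_14_6) (EF.tv rfl q1_14 c6_1_14_6) (EF.tv rfl q2_14 c6_2_14_6) (EF.tv rfl q3_14 c6_3_14_6) (EF.tv rfl q4_14 c6_4_14_6) (EF.tv rfl q5_14 c6_5_14_6) (EF.tv rfl q6_14 c6_6_14_6) (EF.tv rfl q7_14 c6_7_14_6) (EF.tv rfl q8_14 c6_8_14_6) (EF.tv rfl q9_14 c6_9_14_6) (EF.tv rfl q10_14 c6_10_14_6) (EF.tv rfl q11_14 c6_11_14_6) (EF.tv rfl q12_14 c6_12_14_6) (EF.tv rfl q13_14 c6_13_14_6) (EF.tv rfl q14_14 c6_14_14_6) (EF.tv rfl q15_14 c6_15_14_6) (EF.tv rfl q16_14 c6_16_14_6) (EF.tv rfl q17_14 c6_17_14_6) (EF.tv rfl q18_14 c6_18_14_6) (EF.tv rfl q19_14 c6_19_14_6) (EF.tv rfl q20_14 c6_20_14_6) (EF.tv rfl q21_14 c6_21_14_6) (EF.tv rfl q22_14 c6_22_14_6) (EF.tv rfl q23_14 c6_23_14_6) (EF.tv rfl q24_14 c6_24_14_6) (EF.tv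 rfl q25_14 c6_25_14_6) (EF.tv rfl q26_14 c6_26_14_6) (EF.tv rfl q27_14 c6_27_14_6) (EF.tv rfl q28_14 c6_28_14_6) (EF.tv rfl q29_14 c6_29_14_6) (EF.tv rfl q30_14 c6_30_14_6) (EF.tv rfl q31_14 c6_31_14_6) (EF.tv rfl q32_14 c6_32_14_6) (EF.tv rfl q33_14 c6_33_14_6) (EF.tv rfl q34_14 c6_34_14_6) (EF.tv rfl q35_14 c6_35_14_6) (EF.tv rfl q36_14 c6_36_14_6) (EF.tv rfl q37_14 c6_37_14_6) (EF.tv rfl q38_14 c6_38_14_6) (EF.tv rfl q39_14 c6_39_14_6) (EF.tv rfl q40_14 c6_40_14_6) (EF.tv rfl q41_14 c6_41_14_6) (EF.tv rfl q42_14 c6_42_14_6) (EF.tv rfl q43_14 c6_43_14_6) (EF.tv rfl q44_14 c6_44_14_6) (EF.tv rfl q45_14 c6_45_14_6) (EF.tv rfl q46_14 c6_46_14_6)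

theorem f6_14_7 : ∀ tc ∈ tl, EF tc d14 e6_14_7 :=
  tl_forall (EF.tv rfl q0_14 c6_0_14_7) (EF.tv rfl q1_14 c6_1_14_7) (EF.tv rfl q2_14 c6_2_14_7) (EF.tv rfl q3_14 c6_3_14_7) (EF.tv rfl q4_14 c6_4_14_7) (EF.tv rfl q5_14 c6_5_14_7) (EF.tv rfl q6_14 c6_6_14_7) (EF.tv rfl q7_14 c6_7_14_7) (EF.tv rfl q8_14 c6_8_14_7) (EF.tv rfl q9_14 c6_9_14_7) (EF.tv rfl q10_14 c6_10_14_7) (EF.tv rfl q11_14 c6_11_14_7) (EF.tv rfl q12_14 c6_12_14_7) (EF.tv rfl q13_14 c6_13_14_7) (EF.tv rfl q14_14 c6_14_14_7) (EF.tv rfl q15_14 c6_15_14_7) (EF.tv rfl q16_14 c6_16_14_7) (EF.tv rfl q17_14 c6_17_14_7) (EF.tv rfl q18_14 c6_18_14_7) (EF.tv rfl q19_14 c6_19_14_7) (EF.tv rfl q20_14 c6_20_14_7) (EF.tv rfl q21_14 c6_21_14_7) (EF.tv rfl q22_14 c6_22_14_7) (EF.tv rfl q23_14 c6_23_14_7) (EF.tv rfl q24_14 c6_24_14_7) (EF.tv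 rfl q25_14 c6_25_14_7) (EF.tv rfl q26_14 c6_26_14_7) (EF.tv rfl q27_14 c6_27_14_7) (EF.tv rfl q28_14 c6_28_14_7) (EF.tv rfl q29_14 c6_29_14_7) (EF.tv rfl q30_14 c6_30_14_7) (EF.tv rfl q31_14 c6_31_14_7) (EF.tv rfl q32_14 c6_32_14_7) (EF.tv rfl q33_14 c6_33_14_7) (EF.tv rfl q34_14 c6_34_14_7) (EF.tv rfl q35_14 c6_35_14_7) (EF.tv rfl q36_14 c6_36_14_7) (EF.tv rfl q37_14 c6_37_14_7) (EF.tv rfl q38_14 c6_38_14_7) (EF.tv rfl q39_14 c6_39_14_7) (EF.tv rfl q40_14 c6_40_14_7) (EF.tv rfl q41_14 c6_41_14_7) (EF.tv rfl q42_14 c6_42_14_7) (EF.tv rfl q43_14 c6_43_14_7) (EF.tv rfl q44_14 c6_44_14_7) (EF.tv rfl q45_14 c6_45_14_7) (EF.tv rfl q46_14 c6_46_14_7)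

theorem f8_14_8 : ∀ tc ∈ tl, EF tc d14 e8_14_8 :=
  tl_forall (EF.tv rfl q0_14 c8_0_14_8) (EF.tv rfl q1_14 c8_1_14_8) (EF.tv rfl q2_14 c8_2_14_8) (EF.tv rfl q3_14 c8_3_14_8) (EF.tv rfl q4_14 c8_4_14_8) (EF.tv rfl q5_14 c8_5_14_8) (EF.tv rfl q6_14 c8_6_14_8) (EF.tv rfl q7_14 c8_7_14_8) (EF.tv rfl q8_14 c8_8_14_8) (EF.tv rfl q9_14 c8_9_14_8) (EF.tv rfl q10_14 c8_10_14_8) (EF.tv rfl q11_14 c8_11_14_8) (EF.tv rfl q12_14 c8_12_14_8) (EF.tv rfl q13_14 c8_13_14_8) (EF.tv rfl q14_14 c8_14_14_8) (EF.tv rfl q15_14 c8_15_14_8) (EF.tv rfl q16_14 c8_16_14_8) (EF.tv rfl q17_14 c8_17_14_8) (EF.tv rfl q18_14 c8_18_14_8) (EF.tv rfl q19_14 c8_19_14_8) (EF.tv rfl q20_14 c8_20_14_8) (EF.tv rfl q21_14 c8_21_14_8) (EF.tv rfl q22_14 c8_22_14_8) (EF.tv rfl q23_14 c8_23_14_8) (EF.tv rfl q24_14 c8_24_14_8) (EF.tv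 rfl q25_14 c8_25_14_8) (EF.tv rfl q26_14 c8_26_14_8) (EF.tv rfl q27_14 c8_27_14_8) (EF.tv rfl q28_14 c8_28_14_8) (EF.tv rfl q29_14 c8_29_14_8) (EF.tv rfl q30_14 c8_30_14_8) (EF.tv rfl q31_14 c8_31_14_8) (EF.tv rfl q32_14 c8_32_14_8) (EF.tv rfl q33_14 c8_33_14_8) (EF.tv rfl q34_14 c8_34_14_8) (EF.tv rfl q35_14 c8_35_14_8) (EF.tv rfl q36_14 c8_36_14_8) (EF.tv rfl q37_14 c8_37_14_8) (EF.tv rfl q38_14 c8_38_14_8) (EF.tv rfl q39_14 c8_39_14_8) (EF.tv rfl q40_14 c8_40_14_8) (EF.tv rfl q41_14 c8_41_14_8) (EF.tv rfl q42_14 c8_42_14_8) (EF.tv rfl q43_14 c8_43_14_8) (EF.tv rfl q44_14 c8_44_14_8) (EF.tv rfl q45_14 c8_45_14_8) (EF.tv rfl q46_14 c8_46_14_8)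

theorem f8_14_9 : ∀ tc ∈ tl, EF tc d14 e8_14_9 :=
  tl_forall (EF.tv rfl q0_14 c8_0_14_9) (EF.tv rfl q1_14 c8_1_14_9) (EF.tv rfl q2_14 c8_2_14_9) (EF.tv rfl q3_14 c8_3_14_9) (EF.tv rfl q4_14 c8_4_14_9) (EF.tv rfl q5_14 c8_5_14_9) (EF.tv rfl q6_14 c8_6_14_9) (EF.tv rfl q7_14 c8_7_14_9) (EF.tv rfl q8_14 c8_8_14_9) (EF.tv rfl q9_14 c8_9_14_9) (EF.tv rfl q10_14 c8_10_14_9) (EF.tv rfl q11_14 c8_11_14_9) (EF.tv rfl q12_14 c8_12_14_9) (EF.tv rfl q13_14 c8_13_14_9) (EF.tv rfl q14_14 c8_14_14_9) (EF.tv rfl q15_14 c8_15_14_9) (EF.tv rfl q16_14 c8_16_14_9) (EF.tv rfl q17_14 c8_17_14_9) (EF.tv rfl q18_14 c8_18_14_9) (EF.tv rfl q19_14 c8_19_14_9) (EF.tv rfl q20_14 c8_20_14_9) (EF.tv rfl q21_14 c8_21_14_9) (EF.tv rfl q22_14 c8_22_14_9) (EF.tv rfl q23_14 c8_23_14_9) (EF.tv rfl q24_14 c8_24_14_9) (EF.tv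 rfl q25_14 c8_25_14_9) (EF.tv rfl q26_14 c8_26_14_9) (EF.tv rfl q27_14 c8_27_14_9) (EF.tv rfl q28_14 c8_28_14_9) (EF.tv rfl q29_14 c8_29_14_9) (EF.tv rfl q30_14 c8_30_14_9) (EF.tv rfl q31_14 c8_31_14_9) (EF.tv rfl q32_14 c8_32_14_9) (EF.tv rfl q33_14 c8_33_14_9) (EF.tv rfl q34_14 c8_34_14_9) (EF.tv rfl q35_14 c8_35_14_9) (EF.tv rfl q36_14 c8_36_14_9) (EF.tv rfl q37_14 c8_37_14_9) (EF.tv rfl q38_14 c8_38_14_9) (EF.tv rfl q39_14 c8_39_14_9) (EF.tv rfl q40_14 c8_40_14_9) (EF.tv rfl q41_14 c8_41_14_9) (EF.tv rfl q42_14 c8_42_14_9) (EF.tv rfl q43_14 c8_43_14_9) (EF.tv rfl q44_14 c8_44_14_9) (EF.tv rfl q45_14 c8_45_14_9) (EF.tv rfl q46_14 c8_46_14_9)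

theorem h4_14 : EvC tl 4 (shK Dec.one 4) d14 :=
  EvC.of2 (tab := tabX 4) (Ls := [e4_14_0, e4_14_1, e4_14_2, e4_14_3]) (tabX_ok 4)
    (by decide +kernel) (by decide +kernel) (by
    intro L hL
    simp only [List.mem_cons, List.not_mem_nil, or_false] at hL
    rcases hL with rfl | rfl | rfl | rfl
    · exact f4_14_0
    · exact f4_14_1
    · exact f4_14_2
    · exact f4_14_3)

theorem h6_14 : EvC tl 6 (shK Dec.one 6) d14 :=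
  EvC.of2 (tab := tabX 6) (Ls := [e6_14_4, e6_14_5, e6_14_6, e6_14_7]) (tabX_ok 6)
    (by decide +kernel) (by decide +kernel) (by
    intro L hL
    simp only [List.mem_cons, List.not_mem_nil, or_false] at hL
    rcases hL with rfl | rfl | rfl | rfl
    · exact f6_14_4
    · exact f6_14_5
    · exact f6_14_6
    · exact f6_14_7)

theorem h8_14 : EvC tl 0 (shA Dec.one 106) d14 :=
  EvC.of2 (tab := tabX 0) (Ls := [e8_14_8, e8_14_9]) (tabX_ok 0)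
    (by decide +kernel) (by decide +kernel) (by
    intro L hL
    simp only [List.mem_cons, List.not_mem_nil, or_false] at hL
    rcases hL with rfl | rfl
    · exact f8_14_8
    · exact f8_14_9)

theorem hh_14 : EvC8 tl Dec.one d14 := EvC8.a h8_14

end Pool.Agent.TSE
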