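import Pool.Agent.TSE.C15_0
import Pool.Agent.TSE.C15_2
import Pool.Agent.TSE.C15_4
import Pool.Agent.TSE.C15_6
import Pool.Agent.TSE.C15_8
import Pool.Agent.TSE.C15_10
import Pool.Agent.TSE.C15_12
import Pool.Agent.TSE.C15_14
import Pool.Agent.TSE.C15_16
import Pool.Agent.TSE.C15_18
import Pool.Agent.TSE.C15_20
import Pool.Agent.TSE.C15_22
import Pool.Agent.TSE.C15_24
import Pool.Agent.TSE.C15_26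
import Pool.Agent.TSE.C15_28
import Pool.Agent.TSE.C15_30
import Pool.Agent.TSE.C15_32
import Pool.Agent.TSE.C15_34
import Pool.Agent.TSE.C15_36
import Pool.Agent.TSE.C15_38
import Pool.Agent.TSE.C15_40
import Pool.Agent.TSE.C15_42
import Pool.Agent.TSE.C15_44
import Pool.Agent.TSE.C15_46
import Pool.Agent.TSE.T
import Pool.Agent.TSE.BaseC
import Pool.Agent.TSG.TabX

set_option autoImplicit false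

/-! # One interval of the total mass (MP_d27362_co) -/

namespace Pool.Agent.TSE

open Pool.Agent.TSC
open Pool.Agent.TSC.Dec
open Pool.Agent.TSG


theorem kf15 : ∀ tc ∈ tl, Pool.Agent.TSK.KF tc d15 :=
  tl_forall (KF.tv rfl q0_15 c0_15) (KF.tv rfl q1_15 c1_15) (KF.tv rfl q2_15 c2_15) (KF.tv rfl q3_15 c3_15) (KF.tv rfl q4_15 c4_15) (KF.tv rfl q5_15 c5_15) (KF.tv rfl q6_15 c6_15) (KF.tv rfl q7_15 c7_15) (KF.tv rfl q8_15 c8_15) (KF.tv rfl q9_15 c9_15) (KF.tv rfl q10_15 c10_15) (KF.tv rfl q11_15 c11_15) (KF.tv rfl q12_15 c12_15) (KF.tv rfl q13_15 c13_15) (KF.tv rfl q14_15 c14_15) (KF.tv rfl q15_15 c15_15) (KF.tv rfl q16_15 c16_15) (KF.tv rfl q17_15 c17_15) (KF.tv rfl q18_15 c18_15) (KF.tv rfl q19_15 c19_15) (KF.tv rfl q20_15 c20_15) (KF.tv rfl q21_15 c21_15) (KF.tv rfl q22_15 c22_15) (KF.tv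 rfl q23_15 c23_15) (KF.tv rfl q24_15 c24_15) (KF.tv rfl q25_15 c25_15) (KF.tv rfl q26_15 c26_15) (KF.tv rfl q27_15 c27_15) (KF.tv rfl q28_15 c28_15) (KF.tv rfl q29_15 c29_15) (KF.tv rfl q30_15 c30_15) (KF.tv rfl q31_15 c31_15) (KF.tv rfl q32_15 c32_15) (KF.tv rfl q33_15 c33_15) (KF.tv rfl q34_15 c34_15) (KF.tv rfl q35_15 c35_15) (KF.tv rfl q36_15 c36_15) (KF.tv rfl q37_15 c37_15) (KF.tv rfl q38_15 c38_15) (KF.tv rfl q39_15 c39_15) (KF.tv rfl q40_15 c40_15) (KF.tv rfl q41_15 c41_15) (KF.tv rfl q42_15 c42_15) (KF.tv rfl q43_15 c43_15) (KF.tv rfl q44_15 c44_15) (KF.tv rfl q45_15 c45_15) (KF.tv rfl q46_15 c46_15)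

theorem f4_15_0 : ∀ tc ∈ tl, EF tc d15 e4_15_0 :=
  tl_forall (EF.tv rfl q0_15 c4_0_15_0) (EF.tv rfl q1_15 c4_1_15_0) (EF.tv rfl q2_15 c4_2_15_0) (EF.tv rfl q3_15 c4_3_15_0) (EF.tv rfl q4_15 c4_4_15_0) (EF.tv rfl q5_15 c4_5_15_0) (EF.tv rfl q6_15 c4_6_15_0) (EF.tv rfl q7_15 c4_7_15_0) (EF.tv rfl q8_15 c4_8_15_0) (EF.tv rfl q9_15 c4_9_15_0) (EF.tv rfl q10_15 c4_10_15_0) (EF.tv rfl q11_15 c4_11_15_0) (EF.tv rfl q12_15 c4_12_15_0) (EF.tv rfl q13_15 c4_13_15_0) (EF.tv rfl q14_15 c4_14_15_0) (EF.tv rfl q15_15 c4_15_15_0) (EF.tv rfl q16_15 c4_16_15_0) (EF.tv rfl q17_15 c4_17_15_0) (EF.tv rfl q18_15 c4_18_15_0) (EF.tv rfl q19_15 c4_19_15_0) (EF.tv rfl q20_15 c4_20_15_0) (EF.tv rfl q21_15 c4_21_15_0) (EF.tv rfl q22_15 c4_22_15_0) (EF.tv rfl q23_15 c4_23_15_0) (EF.tv rfl q24_15 c4_24_15_0) (EF.tv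 rfl q25_15 c4_25_15_0) (EF.tv rfl q26_15 c4_26_15_0) (EF.tv rfl q27_15 c4_27_15_0) (EF.tv rfl q28_15 c4_28_15_0) (EF.tv rfl q29_15 c4_29_15_0) (EF.tv rfl q30_15 c4_30_15_0) (EF.tv rfl q31_15 c4_31_15_0) (EF.tv rfl q32_15 c4_32_15_0) (EF.tv rfl q33_15 c4_33_15_0) (EF.tv rfl q34_15 c4_34_15_0) (EF.tv rfl q35_15 c4_35_15_0) (EF.tv rfl q36_15 c4_36_15_0) (EF.tv rfl q37_15 c4_37_15_0) (EF.tv rfl q38_15 c4_38_15_0) (EF.tv rfl q39_15 c4_39_15_0) (EF.tv rfl q40_15 c4_40_15_0) (EF.tv rfl q41_15 c4_41_15_0) (EF.tv rfl q42_15 c4_42_15_0) (EF.tv rfl q43_15 c4_43_15_0) (EF.tv rfl q44_15 c4_44_15_0) (EF.tv rfl q45_15 c4_45_15_0) (EF.tv rfl q46_15 c4_46_15_0)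

theorem f4_15_1 : ∀ tc ∈ tl, EF tc d15 e4_15_1 :=
  tl_forall (EF.tv rfl q0_15 c4_0_15_1) (EF.tv rfl q1_15 c4_1_15_1) (EF.tv rfl q2_15 c4_2_15_1) (EF.tv rfl q3_15 c4_3_15_1) (EF.tv rfl q4_15 c4_4_15_1) (EF.tv rfl q5_15 c4_5_15_1) (EF.tv rfl q6_15 c4_6_15_1) (EF.tv rfl q7_15 c4_7_15_1) (EF.tv rfl q8_15 c4_8_15_1) (EF.tv rfl q9_15 c4_9_15_1) (EF.tv rfl q10_15 c4_10_15_1) (EF.tv rfl q11_15 c4_11_15_1) (EF.tv rfl q12_15 c4_12_15_1) (EF.tv rfl q13_15 c4_13_15_1) (EF.tv rfl q14_15 c4_14_15_1) (EF.tv rfl q15_15 c4_15_15_1) (EF.tv rfl q16_15 c4_16_15_1) (EF.tv rfl q17_15 c4_17_15_1) (EF.tv rfl q18_15 c4_18_15_1) (EF.tv rfl q19_15 c4_19_15_1) (EF.tv rfl q20_15 c4_20_15_1) (EF.tv rfl q21_15 c4_21_15_1) (EF.tv rfl q22_15 c4_22_15_1) (EF.tv rfl q23_15 c4_23_15_1) (EF.tv rfl q24_15 c4_24_15_1) (EF.tv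 rfl q25_15 c4_25_15_1) (EF.tv rfl q26_15 c4_26_15_1) (EF.tv rfl q27_15 c4_27_15_1) (EF.tv rfl q28_15 c4_28_15_1) (EF.tv rfl q29_15 c4_29_15_1) (EF.tv rfl q30_15 c4_30_15_1) (EF.tv rfl q31_15 c4_31_15_1) (EF.tv rfl q32_15 c4_32_15_1) (EF.tv rfl q33_15 c4_33_15_1) (EF.tv rfl q34_15 c4_34_15_1) (EF.tv rfl q35_15 c4_35_15_1) (EF.tv rfl q36_15 c4_36_15_1) (EF.tv rfl q37_15 c4_37_15_1) (EF.tv rfl q38_15 c4_38_15_1) (EF.tv rfl q39_15 c4_39_15_1) (EF.tv rfl q40_15 c4_40_15_1) (EF.tv rfl q41_15 c4_41_15_1) (EF.tv rfl q42_15 c4_42_15_1) (EF.tv rfl q43_15 c4_43_15_1) (EF.tv rfl q44_15 c4_44_15_1) (EF.tv rfl q45_15 c4_45_15_1) (EF.tv rfl q46_15 c4_46_15_1)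

theorem f4_15_2 : ∀ tc ∈ tl, EF tc d15 e4_15_2 :=
  tl_forall (EF.tv rfl q0_15 c4_0_15_2) (EF.tv rfl q1_15 c4_1_15_2) (EF.tv rfl q2_15 c4_2_15_2) (EF.tv rfl q3_15 c4_3_15_2) (EF.tv rfl q4_15 c4_4_15_2) (EF.tv rfl q5_15 c4_5_15_2) (EF.tv rfl q6_15 c4_6_15_2) (EF.tv rfl q7_15 c4_7_15_2) (EF.tv rfl q8_15 c4_8_15_2) (EF.tv rfl q9_15 c4_9_15_2) (EF.tv rfl q10_15 c4_10_15_2) (EF.tv rfl q11_15 c4_11_15_2) (EF.tv rfl q12_15 c4_12_15_2) (EF.tv rfl q13_15 c4_13_15_2) (EF.tv rfl q14_15 c4_14_15_2) (EF.tv rfl q15_15 c4_15_15_2) (EF.tv rfl q16_15 c4_16_15_2) (EF.tv rfl q17_15 c4_17_15_2) (EF.tv rfl q18_15 c4_18_15_2) (EF.tv rfl q19_15 c4_19_15_2) (EF.tv rfl q20_15 c4_20_15_2) (EF.tv rfl q21_15 c4_21_15_2) (EF.tv rfl q22_15 c4_22_15_2) (EF.tv rfl q23_15 c4_23_15_2) (EF.tv rfl q24_15 c4_24_15_2) (EF.tv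 rfl q25_15 c4_25_15_2) (EF.tv rfl q26_15 c4_26_15_2) (EF.tv rfl q27_15 c4_27_15_2) (EF.tv rfl q28_15 c4_28_15_2) (EF.tv rfl q29_15 c4_29_15_2) (EF.tv rfl q30_15 c4_30_15_2) (EF.tv rfl q31_15 c4_31_15_2) (EF.tv rfl q32_15 c4_32_15_2) (EF.tv rfl q33_15 c4_33_15_2) (EF.tv rfl q34_15 c4_34_15_2) (EF.tv rfl q35_15 c4_35_15_2) (EF.tv rfl q36_15 c4_36_15_2) (EF.tv rfl q37_15 c4_37_15_2) (EF.tv rfl q38_15 c4_38_15_2) (EF.tv rfl q39_15 c4_39_15_2) (EF.tv rfl q40_15 c4_40_15_2) (EF.tv rfl q41_15 c4_41_15_2) (EF.tv rfl q42_15 c4_42_15_2) (EF.tv rfl q43_15 c4_43_15_2) (EF.tv rfl q44_15 c4_44_15_2) (EF.tv rfl q45_15 c4_45_15_2) (EF.tv rfl q46_15 c4_46_15_2)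

theorem f4_15_3 : ∀ tc ∈ tl, EF tc d15 e4_15_3 :=
  tl_forall (EF.tv rfl q0_15 c4_0_15_3) (EF.tv rfl q1_15 c4_1_15_3) (EF.tv rfl q2_15 c4_2_15_3) (EF.tv rfl q3_15 c4_3_15_3) (EF.tv rfl q4_15 c4_4_15_3) (EF.tv rfl q5_15 c4_5_15_3) (EF.tv rfl q6_15 c4_6_15_3) (EF.tv rfl q7_15 c4_7_15_3) (EF.tv rfl q8_15 c4_8_15_3) (EF.tv rfl q9_15 c4_9_15_3) (EF.tv rfl q10_15 c4_10_15_3) (EF.tv rfl q11_15 c4_11_15_3) (EF.tv rfl q12_15 c4_12_15_3) (EF.tv rfl q13_15 c4_13_15_3) (EF.tv rfl q14_15 c4_14_15_3) (EF.tv rfl q15_15 c4_15_15_3) (EF.tv rfl q16_15 c4_16_15_3) (EF.tv rfl q17_15 c4_17_15_3) (EF.tv rfl q18_15 c4_18_15_3) (EF.tv rfl q19_15 c4_19_15_3) (EF.tv rfl q20_15 c4_20_15_3) (EF.tv rfl q21_15 c4_21_15_3) (EF.tv rfl q22_15 c4_22_15_3) (EF.tv rfl q23_15 c4_23_15_3) (EF.tv rfl q24_15 c4_24_15_3) (EF.tv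 rfl q25_15 c4_25_15_3) (EF.tv rfl q26_15 c4_26_15_3) (EF.tv rfl q27_15 c4_27_15_3) (EF.tv rfl q28_15 c4_28_15_3) (EF.tv rfl q29_15 c4_29_15_3) (EF.tv rfl q30_15 c4_30_15_3) (EF.tv rfl q31_15 c4_31_15_3) (EF.tv rfl q32_15 c4_32_15_3) (EF.tv rfl q33_15 c4_33_15_3) (EF.tv rfl q34_15 c4_34_15_3) (EF.tv rfl q35_15 c4_35_15_3) (EF.tv rfl q36_15 c4_36_15_3) (EF.tv rfl q37_15 c4_37_15_3) (EF.tv rfl q38_15 c4_38_15_3) (EF.tv rfl q39_15 c4_39_15_3) (EF.tv rfl q40_15 c4_40_15_3) (EF.tv rfl q41_15 c4_41_15_3) (EF.tv rfl q42_15 c4_42_15_3) (EF.tv rfl q43_15 c4_43_15_3) (EF.tv rfl q44_15 c4_44_15_3) (EF.tv rfl q45_15 c4_45_15_3) (EF.tv rfl q46_15 c4_46_15_3)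

theorem f6_15_4 : ∀ tc ∈ tl, EF tc d15 e6_15_4 :=
  tl_forall (EF.tv rfl q0_15 c6_0_15_4) (EF.tv rfl q1_15 c6_1_15_4) (EF.tv rfl q2_15 c6_2_15_4) (EF.tv rfl q3_15 c6_3_15_4) (EF.tv rfl q4_15 c6_4_15_4) (EF.tv rfl q5_15 c6_5_15_4) (EF.tv rfl q6_15 c6_6_15_4) (EF.tv rfl q7_15 c6_7_15_4) (EF.tv rfl q8_15 c6_8_15_4) (EF.tv rfl q9_15 c6_9_15_4) (EF.tv rfl q10_15 c6_10_15_4) (EF.tv rfl q11_15 c6_11_15_4) (EF.tv rfl q12_15 c6_12_15_4) (EF.tv rfl q13_15 c6_13_15_4) (EF.tv rfl q14_15 c6_14_15_4) (EF.tv rfl q15_15 c6_15_15_4) (EF.tv rfl q16_15 c6_16_15_4) (EF.tv rfl q17_15 c6_17_15_4) (EF.tv rfl q18_15 c6_18_15_4) (EF.tv rfl q19_15 c6_19_15_4) (EF.tv rfl q20_15 c6_20_15_4) (EF.tv rfl q21_15 c6_21_15_4) (EF.tv rfl q22_15 c6_22_15_4) (EF.tv rfl q23_15 c6_23_15_4) (EF.tv rfl q24_15 c6_24_15_4) (EF.tv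 rfl q25_15 c6_25_15_4) (EF.tv rfl q26_15 c6_26_15_4) (EF.tv rfl q27_15 c6_27_15_4) (EF.tv rfl q28_15 c6_28_15_4) (EF.tv rfl q29_15 c6_29_15_4) (EF.tv rfl q30_15 c6_30_15_4) (EF.tv rfl q31_15 c6_31_15_4) (EF.tv rfl q32_15 c6_32_15_4) (EF.tv rfl q33_15 c6_33_15_4) (EF.tv rfl q34_15 c6_34_15_4) (EF.tv rfl q35_15 c6_35_15_4) (EF.tv rfl q36_15 c6_36_15_4) (EF.tv rfl q37_15 c6_37_15_4) (EF.tv rfl q38_15 c6_38_15_4) (EF.tv rfl q39_15 c6_39_15_4) (EF.tv rfl q40_15 c6_40_15_4) (EF.tv rfl q41_15 c6_41_15_4) (EF.tv rfl q42_15 c6_42_15_4) (EF.tv rfl q43_15 c6_43_15_4) (EF.tv rfl q44_15 c6_44_15_4) (EF.tv rfl q45_15 c6_45_15_4) (EF.tv rfl q46_15 c6_46_15_4)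

theorem f6_15_5 : ∀ tc ∈ tl, EF tc d15 e6_15_5 :=
  tl_forall (EF.tv rfl q0_15 c6_0_15_5) (EF.tv rfl q1_15 c6_1_15_5) (EF.tv rfl q2_15 c6_2_15_5) (EF.tv rfl q3_15 c6_3_15_5) (EF.tv rfl q4_15 c6_4_15_5) (EF.tv rfl q5_15 c6_5_15_5) (EF.tv rfl q6_15 c6_6_15_5) (EF.tv rfl q7_15 c6_7_15_5) (EF.tv rfl q8_15 c6_8_15_5) (EF.tv rfl q9_15 c6_9_15_5) (EF.tv rfl q10_15 c6_10_15_5) (EF.tv rfl q11_15 c6_11_15_5) (EF.tv rfl q12_15 c6_12_15_5) (EF.tv rfl q13_15 c6_13_15_5) (EF.tv rfl q14_15 c6_14_15_5) (EF.tv rfl q15_15 c6_15_15_5) (EF.tv rfl q16_15 c6_16_15_5) (EF.tv rfl q17_15 c6_17_15_5) (EF.tv rfl q18_15 c6_18_15_5) (EF.tv rfl q19_15 c6_19_15_5) (EF.tv rfl q20_15 c6_20_15_5) (EF.tv rfl q21_15 c6_21_15_5) (EF.tv rfl q22_15 c6_22_15_5) (EF.tv rfl q23_15 c6_23_15_5) (EF.tv rfl q24_15 c6_24_15_5) (EF.tv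 rfl q25_15 c6_25_15_5) (EF.tv rfl q26_15 c6_26_15_5) (EF.tv rfl q27_15 c6_27_15_5) (EF.tv rfl q28_15 c6_28_15_5) (EF.tv rfl q29_15 c6_29_15_5) (EF.tv rfl q30_15 c6_30_15_5) (EF.tv rfl q31_15 c6_31_15_5) (EF.tv rfl q32_15 c6_32_15_5) (EF.tv rfl q33_15 c6_33_15_5) (EF.tv rfl q34_15 c6_34_15_5) (EF.tv rfl q35_15 c6_35_15_5) (EF.tv rfl q36_15 c6_36_15_5) (EF.tv rfl q37_15 c6_37_15_5) (EF.tv rfl q38_15 c6_38_15_5) (EF.tv rfl q39_15 c6_39_15_5) (EF.tv rfl q40_15 c6_40_15_5) (EF.tv rfl q41_15 c6_41_15_5) (EF.tv rfl q42_15 c6_42_15_5) (EF.tv rfl q43_15 c6_43_15_5) (EF.tv rfl q44_15 c6_44_15_5) (EF.tv rfl q45_15 c6_45_15_5) (EF.tv rfl q46_15 c6_46_15_5)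

theorem f6_15_6 : ∀ tc ∈ tl, EF tc d15 e6_15_6 :=
  tl_forall (EF.tv rfl q0_15 c6_0_15_6) (EF.tv rfl q1_15 c6_1_15_6) (EF.tv rfl q2_15 c6_2_15_6) (EF.tv rfl q3_15 c6_3_15_6) (EF.tv rfl q4_15 c6_4_15_6) (EF.tv rfl q5_15 c6_5_15_6) (EF.tv rfl q6_15 c6_6_15_6) (EF.tv rfl q7_15 c6_7_15_6) (EF.tv rfl q8_15 c6_8_15_6) (EF.tv rfl q9_15 c6_9_15_6) (EF.tv rfl q10_15 c6_10_15_6) (EF.tv rfl q11_15 c6_11_15_6) (EF.tv rfl q12_15 c6_12_15_6) (EF.tv rfl q13_15 c6_13_15_6) (EF.tv rfl q14_15 c6_14_15_6) (EF.tv rfl q15_15 c6_15_15_6) (EF.tv rfl q16_15 c6_16_15_6) (EF.tv rfl q17_15 c6_17_15_6) (EF.tv rfl q18_15 c6_18_15_6) (EF.tv rfl q19_15 c6_19_15_6) (EF.tv rfl q20_15 c6_20_15_6) (EF.tv rfl q21_15 c6_21_15_6) (EF.tv rfl q22_15 c6_22_15_6) (EF.tv rfl q23_15 c6_23_15_6) (EF.tv rfl q24_15 c6_24_15_6) (EF.tv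 rfl q25_15 c6_25_15_6) (EF.tv rfl q26_15 c6_26_15_6) (EF.tv rfl q27_15 c6_27_15_6) (EF.tv rfl q28_15 c6_28_15_6) (EF.tv rfl q29_15 c6_29_15_6) (EF.tv rfl q30_15 c6_30_15_6) (EF.tv rfl q31_15 c6_31_15_6) (EF.tv rfl q32_15 c6_32_15_6) (EF.tv rfl q33_15 c6_33_15_6) (EF.tv rfl q34_15 c6_34_15_6) (EF.tv rfl q35_15 c6_35_15_6) (EF.tv rfl q36_15 c6_36_15_6) (EF.tv rfl q37_15 c6_37_15_6) (EF.tv rfl q38_15 c6_38_15_6) (EF.tv rfl q39_15 c6_39_15_6) (EF.tv rfl q40_15 c6_40_15_6) (EF.tv rfl q41_15 c6_41_15_6) (EF.tv rfl q42_15 c6_42_15_6) (EF.tv rfl q43_15 c6_43_15_6) (EF.tv rfl q44_15 c6_44_15_6) (EF.tv rfl q45_15 c6_45_15_6) (EF.tv rfl q46_15 c6_46_15_6)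

theorem f6_15_7 : ∀ tc ∈ tl, EF tc d15 e6_15_7 :=
  tl_forall (EF.tv rfl q0_15 c6_0_15_7) (EF.tv rfl q1_15 c6_1_15_7) (EF.tv rfl q2_15 c6_2_15_7) (EF.tv rfl q3_15 c6_3_15_7) (EF.tv rfl q4_15 c6_4_15_7) (EF.tv rfl q5_15 c6_5_15_7) (EF.tv rfl q6_15 c6_6_15_7) (EF.tv rfl q7_15 c6_7_15_7) (EF.tv rfl q8_15 c6_8_15_7) (EF.tv rfl q9_15 c6_9_15_7) (EF.tv rfl q10_15 c6_10_15_7) (EF.tv rfl q11_15 c6_11_15_7) (EF.tv rfl q12_15 c6_12_15_7) (EF.tv rfl q13_15 c6_13_15_7) (EF.tv rfl q14_15 c6_14_15_7) (EF.tv rfl q15_15 c6_15_15_7) (EF.tv rfl q16_15 c6_16_15_7) (EF.tv rfl q17_15 c6_17_15_7) (EF.tv rfl q18_15 c6_18_15_7) (EF.tv rfl q19_15 c6_19_15_7) (EF.tv rfl q20_15 c6_20_15_7) (EF.tv rfl q21_15 c6_21_15_7) (EF.tv rfl q22_15 c6_22_15_7) (EF.tv rfl q23_15 c6_23_15_7) (EF.tv rfl q24_15 c6_24_15_7) (EF.tv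 rfl q25_15 c6_25_15_7) (EF.tv rfl q26_15 c6_26_15_7) (EF.tv rfl q27_15 c6_27_15_7) (EF.tv rfl q28_15 c6_28_15_7) (EF.tv rfl q29_15 c6_29_15_7) (EF.tv rfl q30_15 c6_30_15_7) (EF.tv rfl q31_15 c6_31_15_7) (EF.tv rfl q32_15 c6_32_15_7) (EF.tv rfl q33_15 c6_33_15_7) (EF.tv rfl q34_15 c6_34_15_7) (EF.tv rfl q35_15 c6_35_15_7) (EF.tv rfl q36_15 c6_36_15_7) (EF.tv rfl q37_15 c6_37_15_7) (EF.tv rfl q38_15 c6_38_15_7) (EF.tv rfl q39_15 c6_39_15_7) (EF.tv rfl q40_15 c6_40_15_7) (EF.tv rfl q41_15 c6_41_15_7) (EF.tv rfl q42_15 c6_42_15_7) (EF.tv rfl q43_15 c6_43_15_7) (EF.tv rfl q44_15 c6_44_15_7) (EF.tv rfl q45_15 c6_45_15_7) (EF.tv rfl q46_15 c6_46_15_7)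

theorem f8_15_8 : ∀ tc ∈ tl, EF tc d15 e8_15_8 :=
  tl_forall (EF.tv rfl q0_15 c8_0_15_8) (EF.tv rfl q1_15 c8_1_15_8) (EF.tv rfl q2_15 c8_2_15_8) (EF.tv rfl q3_15 c8_3_15_8) (EF.tv rfl q4_15 c8_4_15_8) (EF.tv rfl q5_15 c8_5_15_8) (EF.tv rfl q6_15 c8_6_15_8) (EF.tv rfl q7_15 c8_7_15_8) (EF.tv rfl q8_15 c8_8_15_8) (EF.tv rfl q9_15 c8_9_15_8) (EF.tv rfl q10_15 c8_10_15_8) (EF.tv rfl q11_15 c8_11_15_8) (EF.tv rfl q12_15 c8_12_15_8) (EF.tv rfl q13_15 c8_13_15_8) (EF.tv rfl q14_15 c8_14_15_8) (EF.tv rfl q15_15 c8_15_15_8) (EF.tv rfl q16_15 c8_16_15_8) (EF.tv rfl q17_15 c8_17_15_8) (EF.tv rfl q18_15 c8_18_15_8) (EF.tv rfl q19_15 c8_19_15_8) (EF.tv rfl q20_15 c8_20_15_8) (EF.tv rfl q21_15 c8_21_15_8) (EF.tv rfl q22_15 c8_22_15_8) (EF.tv rfl q23_15 c8_23_15_8) (EF.tv rfl q24_15 c8_24_15_8) (EF.tv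 rfl q25_15 c8_25_15_8) (EF.tv rfl q26_15 c8_26_15_8) (EF.tv rfl q27_15 c8_27_15_8) (EF.tv rfl q28_15 c8_28_15_8) (EF.tv rfl q29_15 c8_29_15_8) (EF.tv rfl q30_15 c8_30_15_8) (EF.tv rfl q31_15 c8_31_15_8) (EF.tv rfl q32_15 c8_32_15_8) (EF.tv rfl q33_15 c8_33_15_8) (EF.tv rfl q34_15 c8_34_15_8) (EF.tv rfl q35_15 c8_35_15_8) (EF.tv rfl q36_15 c8_36_15_8) (EF.tv rfl q37_15 c8_37_15_8) (EF.tv rfl q38_15 c8_38_15_8) (EF.tv rfl q39_15 c8_39_15_8) (EF.tv rfl q40_15 c8_40_15_8) (EF.tv rfl q41_15 c8_41_15_8) (EF.tv rfl q42_15 c8_42_15_8) (EF.tv rfl q43_15 c8_43_15_8) (EF.tv rfl q44_15 c8_44_15_8) (EF.tv rfl q45_15 c8_45_15_8) (EF.tv rfl q46_15 c8_46_15_8)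

theorem f8_15_9 : ∀ tc ∈ tl, EF tc d15 e8_15_9 :=
  tl_forall (EF.tv rfl q0_15 c8_0_15_9) (EF.tv rfl q1_15 c8_1_15_9) (EF.tv rfl q2_15 c8_2_15_9) (EF.tv rfl q3_15 c8_3_15_9) (EF.tv rfl q4_15 c8_4_15_9) (EF.tv rfl q5_15 c8_5_15_9) (EF.tv rfl q6_15 c8_6_15_9) (EF.tv rfl q7_15 c8_7_15_9) (EF.tv rfl q8_15 c8_8_15_9) (EF.tv rfl q9_15 c8_9_15_9) (EF.tv rfl q10_15 c8_10_15_9) (EF.tv rfl q11_15 c8_11_15_9) (EF.tv rfl q12_15 c8_12_15_9) (EF.tv rfl q13_15 c8_13_15_9) (EF.tv rfl q14_15 c8_14_15_9) (EF.tv rfl q15_15 c8_15_15_9) (EF.tv rfl q16_15 c8_16_15_9) (EF.tv rfl q17_15 c8_17_15_9) (EF.tv rfl q18_15 c8_18_15_9) (EF.tv rfl q19_15 c8_19_15_9) (EF.tv rfl q20_15 c8_20_15_9) (EF.tv rfl q21_15 c8_21_15_9) (EF.tv rfl q22_15 c8_22_15_9) (EF.tv rfl q23_15 c8_23_15_9) (EF.tv rfl q24_15 c8_24_15_9) (EF.tv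 rfl q25_15 c8_25_15_9) (EF.tv rfl q26_15 c8_26_15_9) (EF.tv rfl q27_15 c8_27_15_9) (EF.tv rfl q28_15 c8_28_15_9) (EF.tv rfl q29_15 c8_29_15_9) (EF.tv rfl q30_15 c8_30_15_9) (EF.tv rfl q31_15 c8_31_15_9) (EF.tv rfl q32_15 c8_32_15_9) (EF.tv rfl q33_15 c8_33_15_9) (EF.tv rfl q34_15 c8_34_15_9) (EF.tv rfl q35_15 c8_35_15_9) (EF.tv rfl q36_15 c8_36_15_9) (EF.tv rfl q37_15 c8_37_15_9) (EF.tv rfl q38_15 c8_38_15_9) (EF.tv rfl q39_15 c8_39_15_9) (EF.tv rfl q40_15 c8_40_15_9) (EF.tv rfl q41_15 c8_41_15_9) (EF.tv rfl q42_15 c8_42_15_9) (EF.tv rfl q43_15 c8_43_15_9) (EF.tv rfl q44_15 c8_44_15_9) (EF.tv rfl q45_15 c8_45_15_9) (EF.tv rfl q46_15 c8_46_15_9)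

theorem h4_15 : EvC tl 4 (shK Dec.one 4) d15 :=
  EvC.of2 (tab := tabX 4) (Ls := [e4_15_0, e4_15_1, e4_15_2, e4_15_3]) (tabX_ok 4)
    (by decide +kernel) (by decide +kernel) (by
    intro L hL
    simp only [List.mem_cons, List.not_mem_nil, or_false] at hL
    rcases hL with rfl | rfl | rfl | rfl
    · exact f4_15_0
    · exact f4_15_1
    · exact f4_15_2
    · exact f4_15_3)

theorem h6_15 : EvC tl 6 (shK Dec.one 6) d15 :=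
  EvC.of2 (tab := tabX 6) (Ls := [e6_15_4, e6_15_5, e6_15_6, e6_15_7]) (tabX_ok 6)
    (by decide +kernel) (by decide +kernel) (by
    intro L hL
    simp only [List.mem_cons, List.not_mem_nil, or_false] at hL
    rcases hL with rfl | rfl | rfl | rfl
    · exact f6_15_4
    · exact f6_15_5
    · exact f6_15_6
    · exact f6_15_7)

theorem h8_15 : EvC tl 0 (shA Dec.one 106) d15 :=
  EvC.of2 (tab := tabX 0) (Ls := [e8_15_8, e8_15_9]) (tabX_ok 0)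
    (by decide +kernel) (by decide +kernel) (by
    intro L hL
    simp only [List.mem_cons, List.not_mem_nil, or_false] at hL
    rcases hL with rfl | rfl
    · exact f8_15_8
    · exact f8_15_9)

theorem hh_15 : EvC8 tl Dec.one d15 := EvC8.a h8_15

end Pool.Agent.TSE
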