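import Pool.Agent.TSE.C16_0
import Pool.Agent.TSE.C16_2
import Pool.Agent.TSE.C16_4
import Pool.Agent.TSE.C16_6
import Pool.Agent.TSE.C16_8
import Pool.Agent.TSE.C16_10
import Pool.Agent.TSE.C16_12
import Pool.Agent.TSE.C16_14
import Pool.Agent.TSE.C16_16
import Pool.Agent.TSE.C16_18
import Pool.Agent.TSE.C16_20
import Pool.Agent.TSE.C16_22
import Pool.Agent.TSE.C16_24
import Pool.Agent.TSE.C16_26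
import Pool.Agent.TSE.C16_28
import Pool.Agent.TSE.C16_30
import Pool.Agent.TSE.C16_32
import Pool.Agent.TSE.C16_34
import Pool.Agent.TSE.C16_36
import Pool.Agent.TSE.C16_38
import Pool.Agent.TSE.C16_40
import Pool.Agent.TSE.C16_42
import Pool.Agent.TSE.C16_44
import Pool.Agent.TSE.C16_46
import Pool.Agent.TSE.T
import Pool.Agent.TSE.BaseC
import Pool.Agent.TSG.TabX

set_option autoImplicit false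

/-! # One interval of the total mass (MP_d27362_co) -/

namespace Pool.Agent.TSE

open Pool.Agent.TSC
open Pool.Agent.TSC.Dec
open Pool.Agent.TSG


theorem kf16 : ∀ tc ∈ tl, Pool.Agent.TSK.KF tc d16 :=
  tl_forall (KF.tv rfl q0_16 c0_16) (KF.tv rfl q1_16 c1_16) (KF.tv rfl q2_16 c2_16) (KF.tv rfl q3_16 c3_16) (KF.tv rfl q4_16 c4_16) (KF.tv rfl q5_16 c5_16) (KF.tv rfl q6_16 c6_16) (KF.tv rfl q7_16 c7_16) (KF.tv rfl q8_16 c8_16) (KF.tv rfl q9_16 c9_16) (KF.tv rfl q10_16 c10_16) (KF.tv rfl q11_16 c11_16) (KF.tv rfl q12_16 c12_16) (KF.tv rfl q13_16 c13_16) (KF.tv rfl q14_16 c14_16) (KF.tv rfl q15_16 c15_16) (KF.tv rfl q16_16 c16_16) (KF.tv rfl q17_16 c17_16) (KF.tv rfl q18_16 c18_16) (KF.tv rfl q19_16 c19_16) (KF.tv rfl q20_16 c20_16) (KF.tv rfl q21_16 c21_16) (KF.tv rfl q22_16 c22_16) (KF.tv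 rfl q23_16 c23_16) (KF.tv rfl q24_16 c24_16) (KF.tv rfl q25_16 c25_16) (KF.tv rfl q26_16 c26_16) (KF.tv rfl q27_16 c27_16) (KF.tv rfl q28_16 c28_16) (KF.tv rfl q29_16 c29_16) (KF.tv rfl q30_16 c30_16) (KF.tv rfl q31_16 c31_16) (KF.tv rfl q32_16 c32_16) (KF.tv rfl q33_16 c33_16) (KF.tv rfl q34_16 c34_16) (KF.tv rfl q35_16 c35_16) (KF.tv rfl q36_16 c36_16) (KF.tv rfl q37_16 c37_16) (KF.tv rfl q38_16 c38_16) (KF.tv rfl q39_16 c39_16) (KF.tv rfl q40_16 c40_16) (KF.tv rfl q41_16 c41_16) (KF.tv rfl q42_16 c42_16) (KF.tv rfl q43_16 c43_16) (KF.tv rfl q44_16 c44_16) (KF.tv rfl q45_16 c45_16) (KF.tv rfl q46_16 c46_16)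

theorem f4_16_0 : ∀ tc ∈ tl, EF tc d16 e4_16_0 :=
  tl_forall (EF.tv rfl q0_16 c4_0_16_0) (EF.tv rfl q1_16 c4_1_16_0) (EF.tv rfl q2_16 c4_2_16_0) (EF.tv rfl q3_16 c4_3_16_0) (EF.tv rfl q4_16 c4_4_16_0) (EF.tv rfl q5_16 c4_5_16_0) (EF.tv rfl q6_16 c4_6_16_0) (EF.tv rfl q7_16 c4_7_16_0) (EF.tv rfl q8_16 c4_8_16_0) (EF.tv rfl q9_16 c4_9_16_0) (EF.tv rfl q10_16 c4_10_16_0) (EF.tv rfl q11_16 c4_11_16_0) (EF.tv rfl q12_16 c4_12_16_0) (EF.tv rfl q13_16 c4_13_16_0) (EF.tv rfl q14_16 c4_14_16_0) (EF.tv rfl q15_16 c4_15_16_0) (EF.tv rfl q16_16 c4_16_16_0) (EF.tv rfl q17_16 c4_17_16_0) (EF.tv rfl q18_16 c4_18_16_0) (EF.tv rfl q19_16 c4_19_16_0) (EF.tv rfl q20_16 c4_20_16_0) (EF.tv rfl q21_16 c4_21_16_0) (EF.tv rfl q22_16 c4_22_16_0) (EF.tv rfl q23_16 c4_23_16_0) (EF.tv rfl q24_16 c4_24_16_0) (EF.tv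 rfl q25_16 c4_25_16_0) (EF.tv rfl q26_16 c4_26_16_0) (EF.tv rfl q27_16 c4_27_16_0) (EF.tv rfl q28_16 c4_28_16_0) (EF.tv rfl q29_16 c4_29_16_0) (EF.tv rfl q30_16 c4_30_16_0) (EF.tv rfl q31_16 c4_31_16_0) (EF.tv rfl q32_16 c4_32_16_0) (EF.tv rfl q33_16 c4_33_16_0) (EF.tv rfl q34_16 c4_34_16_0) (EF.tv rfl q35_16 c4_35_16_0) (EF.tv rfl q36_16 c4_36_16_0) (EF.tv rfl q37_16 c4_37_16_0) (EF.tv rfl q38_16 c4_38_16_0) (EF.tv rfl q39_16 c4_39_16_0) (EF.tv rfl q40_16 c4_40_16_0) (EF.tv rfl q41_16 c4_41_16_0) (EF.tv rfl q42_16 c4_42_16_0) (EF.tv rfl q43_16 c4_43_16_0) (EF.tv rfl q44_16 c4_44_16_0) (EF.tv rfl q45_16 c4_45_16_0) (EF.tv rfl q46_16 c4_46_16_0)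

theorem f4_16_1 : ∀ tc ∈ tl, EF tc d16 e4_16_1 :=
  tl_forall (EF.tv rfl q0_16 c4_0_16_1) (EF.tv rfl q1_16 c4_1_16_1) (EF.tv rfl q2_16 c4_2_16_1) (EF.tv rfl q3_16 c4_3_16_1) (EF.tv rfl q4_16 c4_4_16_1) (EF.tv rfl q5_16 c4_5_16_1) (EF.tv rfl q6_16 c4_6_16_1) (EF.tv rfl q7_16 c4_7_16_1) (EF.tv rfl q8_16 c4_8_16_1) (EF.tv rfl q9_16 c4_9_16_1) (EF.tv rfl q10_16 c4_10_16_1) (EF.tv rfl q11_16 c4_11_16_1) (EF.tv rfl q12_16 c4_12_16_1) (EF.tv rfl q13_16 c4_13_16_1) (EF.tv rfl q14_16 c4_14_16_1) (EF.tv rfl q15_16 c4_15_16_1) (EF.tv rfl q16_16 c4_16_16_1) (EF.tv rfl q17_16 c4_17_16_1) (EF.tv rfl q18_16 c4_18_16_1) (EF.tv rfl q19_16 c4_19_16_1) (EF.tv rfl q20_16 c4_20_16_1) (EF.tv rfl q21_16 c4_21_16_1) (EF.tv rfl q22_16 c4_22_16_1) (EF.tv rfl q23_16 c4_23_16_1) (EF.tv rfl q24_16 c4_24_16_1) (EF.tv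 rfl q25_16 c4_25_16_1) (EF.tv rfl q26_16 c4_26_16_1) (EF.tv rfl q27_16 c4_27_16_1) (EF.tv rfl q28_16 c4_28_16_1) (EF.tv rfl q29_16 c4_29_16_1) (EF.tv rfl q30_16 c4_30_16_1) (EF.tv rfl q31_16 c4_31_16_1) (EF.tv rfl q32_16 c4_32_16_1) (EF.tv rfl q33_16 c4_33_16_1) (EF.tv rfl q34_16 c4_34_16_1) (EF.tv rfl q35_16 c4_35_16_1) (EF.tv rfl q36_16 c4_36_16_1) (EF.tv rfl q37_16 c4_37_16_1) (EF.tv rfl q38_16 c4_38_16_1) (EF.tv rfl q39_16 c4_39_16_1) (EF.tv rfl q40_16 c4_40_16_1) (EF.tv rfl q41_16 c4_41_16_1) (EF.tv rfl q42_16 c4_42_16_1) (EF.tv rfl q43_16 c4_43_16_1) (EF.tv rfl q44_16 c4_44_16_1) (EF.tv rfl q45_16 c4_45_16_1) (EF.tv rfl q46_16 c4_46_16_1)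

theorem f4_16_2 : ∀ tc ∈ tl, EF tc d16 e4_16_2 :=
  tl_forall (EF.tv rfl q0_16 c4_0_16_2) (EF.tv rfl q1_16 c4_1_16_2) (EF.tv rfl q2_16 c4_2_16_2) (EF.tv rfl q3_16 c4_3_16_2) (EF.tv rfl q4_16 c4_4_16_2) (EF.tv rfl q5_16 c4_5_16_2) (EF.tv rfl q6_16 c4_6_16_2) (EF.tv rfl q7_16 c4_7_16_2) (EF.tv rfl q8_16 c4_8_16_2) (EF.tv rfl q9_16 c4_9_16_2) (EF.tv rfl q10_16 c4_10_16_2) (EF.tv rfl q11_16 c4_11_16_2) (EF.tv rfl q12_16 c4_12_16_2) (EF.tv rfl q13_16 c4_13_16_2) (EF.tv rfl q14_16 c4_14_16_2) (EF.tv rfl q15_16 c4_15_16_2) (EF.tv rfl q16_16 c4_16_16_2) (EF.tv rfl q17_16 c4_17_16_2) (EF.tv rfl q18_16 c4_18_16_2) (EF.tv rfl q19_16 c4_19_16_2) (EF.tv rfl q20_16 c4_20_16_2) (EF.tv rfl q21_16 c4_21_16_2) (EF.tv rfl q22_16 c4_22_16_2) (EF.tv rfl q23_16 c4_23_16_2) (EF.tv rfl q24_16 c4_24_16_2) (EF.tv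 rfl q25_16 c4_25_16_2) (EF.tv rfl q26_16 c4_26_16_2) (EF.tv rfl q27_16 c4_27_16_2) (EF.tv rfl q28_16 c4_28_16_2) (EF.tv rfl q29_16 c4_29_16_2) (EF.tv rfl q30_16 c4_30_16_2) (EF.tv rfl q31_16 c4_31_16_2) (EF.tv rfl q32_16 c4_32_16_2) (EF.tv rfl q33_16 c4_33_16_2) (EF.tv rfl q34_16 c4_34_16_2) (EF.tv rfl q35_16 c4_35_16_2) (EF.tv rfl q36_16 c4_36_16_2) (EF.tv rfl q37_16 c4_37_16_2) (EF.tv rfl q38_16 c4_38_16_2) (EF.tv rfl q39_16 c4_39_16_2) (EF.tv rfl q40_16 c4_40_16_2) (EF.tv rfl q41_16 c4_41_16_2) (EF.tv rfl q42_16 c4_42_16_2) (EF.tv rfl q43_16 c4_43_16_2) (EF.tv rfl q44_16 c4_44_16_2) (EF.tv rfl q45_16 c4_45_16_2) (EF.tv rfl q46_16 c4_46_16_2)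

theorem f4_16_3 : ∀ tc ∈ tl, EF tc d16 e4_16_3 :=
  tl_forall (EF.tv rfl q0_16 c4_0_16_3) (EF.tv rfl q1_16 c4_1_16_3) (EF.tv rfl q2_16 c4_2_16_3) (EF.tv rfl q3_16 c4_3_16_3) (EF.tv rfl q4_16 c4_4_16_3) (EF.tv rfl q5_16 c4_5_16_3) (EF.tv rfl q6_16 c4_6_16_3) (EF.tv rfl q7_16 c4_7_16_3) (EF.tv rfl q8_16 c4_8_16_3) (EF.tv rfl q9_16 c4_9_16_3) (EF.tv rfl q10_16 c4_10_16_3) (EF.tv rfl q11_16 c4_11_16_3) (EF.tv rfl q12_16 c4_12_16_3) (EF.tv rfl q13_16 c4_13_16_3) (EF.tv rfl q14_16 c4_14_16_3) (EF.tv rfl q15_16 c4_15_16_3) (EF.tv rfl q16_16 c4_16_16_3) (EF.tv rfl q17_16 c4_17_16_3) (EF.tv rfl q18_16 c4_18_16_3) (EF.tv rfl q19_16 c4_19_16_3) (EF.tv rfl q20_16 c4_20_16_3) (EF.tv rfl q21_16 c4_21_16_3) (EF.tv rfl q22_16 c4_22_16_3) (EF.tv rfl q23_16 c4_23_16_3) (EF.tv rfl q24_16 c4_24_16_3) (EF.tv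 rfl q25_16 c4_25_16_3) (EF.tv rfl q26_16 c4_26_16_3) (EF.tv rfl q27_16 c4_27_16_3) (EF.tv rfl q28_16 c4_28_16_3) (EF.tv rfl q29_16 c4_29_16_3) (EF.tv rfl q30_16 c4_30_16_3) (EF.tv rfl q31_16 c4_31_16_3) (EF.tv rfl q32_16 c4_32_16_3) (EF.tv rfl q33_16 c4_33_16_3) (EF.tv rfl q34_16 c4_34_16_3) (EF.tv rfl q35_16 c4_35_16_3) (EF.tv rfl q36_16 c4_36_16_3) (EF.tv rfl q37_16 c4_37_16_3) (EF.tv rfl q38_16 c4_38_16_3) (EF.tv rfl q39_16 c4_39_16_3) (EF.tv rfl q40_16 c4_40_16_3) (EF.tv rfl q41_16 c4_41_16_3) (EF.tv rfl q42_16 c4_42_16_3) (EF.tv rfl q43_16 c4_43_16_3) (EF.tv rfl q44_16 c4_44_16_3) (EF.tv rfl q45_16 c4_45_16_3) (EF.tv rfl q46_16 c4_46_16_3)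

theorem f6_16_4 : ∀ tc ∈ tl, EF tc d16 e6_16_4 :=
  tl_forall (EF.tv rfl q0_16 c6_0_16_4) (EF.tv rfl q1_16 c6_1_16_4) (EF.tv rfl q2_16 c6_2_16_4) (EF.tv rfl q3_16 c6_3_16_4) (EF.tv rfl q4_16 c6_4_16_4) (EF.tv rfl q5_16 c6_5_16_4) (EF.tv rfl q6_16 c6_6_16_4) (EF.tv rfl q7_16 c6_7_16_4) (EF.tv rfl q8_16 c6_8_16_4) (EF.tv rfl q9_16 c6_9_16_4) (EF.tv rfl q10_16 c6_10_16_4) (EF.tv rfl q11_16 c6_11_16_4) (EF.tv rfl q12_16 c6_12_16_4) (EF.tv rfl q13_16 c6_13_16_4) (EF.tv rfl q14_16 c6_14_16_4) (EF.tv rfl q15_16 c6_15_16_4) (EF.tv rfl q16_16 c6_16_16_4) (EF.tv rfl q17_16 c6_17_16_4) (EF.tv rfl q18_16 c6_18_16_4) (EF.tv rfl q19_16 c6_19_16_4) (EF.tv rfl q20_16 c6_20_16_4) (EF.tv rfl q21_16 c6_21_16_4) (EF.tv rfl q22_16 c6_22_16_4) (EF.tv rfl q23_16 c6_23_16_4) (EF.tv rfl q24_16 c6_24_16_4) (EF.tv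 rfl q25_16 c6_25_16_4) (EF.tv rfl q26_16 c6_26_16_4) (EF.tv rfl q27_16 c6_27_16_4) (EF.tv rfl q28_16 c6_28_16_4) (EF.tv rfl q29_16 c6_29_16_4) (EF.tv rfl q30_16 c6_30_16_4) (EF.tv rfl q31_16 c6_31_16_4) (EF.tv rfl q32_16 c6_32_16_4) (EF.tv rfl q33_16 c6_33_16_4) (EF.tv rfl q34_16 c6_34_16_4) (EF.tv rfl q35_16 c6_35_16_4) (EF.tv rfl q36_16 c6_36_16_4) (EF.tv rfl q37_16 c6_37_16_4) (EF.tv rfl q38_16 c6_38_16_4) (EF.tv rfl q39_16 c6_39_16_4) (EF.tv rfl q40_16 c6_40_16_4) (EF.tv rfl q41_16 c6_41_16_4) (EF.tv rfl q42_16 c6_42_16_4) (EF.tv rfl q43_16 c6_43_16_4) (EF.tv rfl q44_16 c6_44_16_4) (EF.tv rfl q45_16 c6_45_16_4) (EF.tv rfl q46_16 c6_46_16_4)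

theorem f6_16_5 : ∀ tc ∈ tl, EF tc d16 e6_16_5 :=
  tl_forall (EF.tv rfl q0_16 c6_0_16_5) (EF.tv rfl q1_16 c6_1_16_5) (EF.tv rfl q2_16 c6_2_16_5) (EF.tv rfl q3_16 c6_3_16_5) (EF.tv rfl q4_16 c6_4_16_5) (EF.tv rfl q5_16 c6_5_16_5) (EF.tv rfl q6_16 c6_6_16_5) (EF.tv rfl q7_16 c6_7_16_5) (EF.tv rfl q8_16 c6_8_16_5) (EF.tv rfl q9_16 c6_9_16_5) (EF.tv rfl q10_16 c6_10_16_5) (EF.tv rfl q11_16 c6_11_16_5) (EF.tv rfl q12_16 c6_12_16_5) (EF.tv rfl q13_16 c6_13_16_5) (EF.tv rfl q14_16 c6_14_16_5) (EF.tv rfl q15_16 c6_15_16_5) (EF.tv rfl q16_16 c6_16_16_5) (EF.tv rfl q17_16 c6_17_16_5) (EF.tv rfl q18_16 c6_18_16_5) (EF.tv rfl q19_16 c6_19_16_5) (EF.tv rfl q20_16 c6_20_16_5) (EF.tv rfl q21_16 c6_21_16_5) (EF.tv rfl q22_16 c6_22_16_5) (EF.tv rfl q23_16 c6_23_16_5) (EF.tv rfl q24_16 c6_24_16_5) (EF.tv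 rfl q25_16 c6_25_16_5) (EF.tv rfl q26_16 c6_26_16_5) (EF.tv rfl q27_16 c6_27_16_5) (EF.tv rfl q28_16 c6_28_16_5) (EF.tv rfl q29_16 c6_29_16_5) (EF.tv rfl q30_16 c6_30_16_5) (EF.tv rfl q31_16 c6_31_16_5) (EF.tv rfl q32_16 c6_32_16_5) (EF.tv rfl q33_16 c6_33_16_5) (EF.tv rfl q34_16 c6_34_16_5) (EF.tv rfl q35_16 c6_35_16_5) (EF.tv rfl q36_16 c6_36_16_5) (EF.tv rfl q37_16 c6_37_16_5) (EF.tv rfl q38_16 c6_38_16_5) (EF.tv rfl q39_16 c6_39_16_5) (EF.tv rfl q40_16 c6_40_16_5) (EF.tv rfl q41_16 c6_41_16_5) (EF.tv rfl q42_16 c6_42_16_5) (EF.tv rfl q43_16 c6_43_16_5) (EF.tv rfl q44_16 c6_44_16_5) (EF.tv rfl q45_16 c6_45_16_5) (EF.tv rfl q46_16 c6_46_16_5)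

theorem f6_16_6 : ∀ tc ∈ tl, EF tc d16 e6_16_6 :=
  tl_forall (EF.tv rfl q0_16 c6_0_16_6) (EF.tv rfl q1_16 c6_1_16_6) (EF.tv rfl q2_16 c6_2_16_6) (EF.tv rfl q3_16 c6_3_16_6) (EF.tv rfl q4_16 c6_4_16_6) (EF.tv rfl q5_16 c6_5_16_6) (EF.tv rfl q6_16 c6_6_16_6) (EF.tv rfl q7_16 c6_7_16_6) (EF.tv rfl q8_16 c6_8_16_6) (EF.tv rfl q9_16 c6_9_16_6) (EF.tv rfl q10_16 c6_10_16_6) (EF.tv rfl q11_16 c6_11_16_6) (EF.tv rfl q12_16 c6_12_16_6) (EF.tv rfl q13_16 c6_13_16_6) (EF.tv rfl q14_16 c6_14_16_6) (EF.tv rfl q15_16 c6_15_16_6) (EF.tv rfl q16_16 c6_16_16_6) (EF.tv rfl q17_16 c6_17_16_6) (EF.tv rfl q18_16 c6_18_16_6) (EF.tv rfl q19_16 c6_19_16_6) (EF.tv rfl q20_16 c6_20_16_6) (EF.tv rfl q21_16 c6_21_16_6) (EF.tv rfl q22_16 c6_22_16_6) (EF.tv rfl q23_16 c6_23_16_6) (EF.tv rfl q24_16 c6_24_16_6) (EF.tv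 rfl q25_16 c6_25_16_6) (EF.tv rfl q26_16 c6_26_16_6) (EF.tv rfl q27_16 c6_27_16_6) (EF.tv rfl q28_16 c6_28_16_6) (EF.tv rfl q29_16 c6_29_16_6) (EF.tv rfl q30_16 c6_30_16_6) (EF.tv rfl q31_16 c6_31_16_6) (EF.tv rfl q32_16 c6_32_16_6) (EF.tv rfl q33_16 c6_33_16_6) (EF.tv rfl q34_16 c6_34_16_6) (EF.tv rfl q35_16 c6_35_16_6) (EF.tv rfl q36_16 c6_36_16_6) (EF.tv rfl q37_16 c6_37_16_6) (EF.tv rfl q38_16 c6_38_16_6) (EF.tv rfl q39_16 c6_39_16_6) (EF.tv rfl q40_16 c6_40_16_6) (EF.tv rfl q41_16 c6_41_16_6) (EF.tv rfl q42_16 c6_42_16_6) (EF.tv rfl q43_16 c6_43_16_6) (EF.tv rfl q44_16 c6_44_16_6) (EF.tv rfl q45_16 c6_45_16_6) (EF.tv rfl q46_16 c6_46_16_6)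

theorem f6_16_7 : ∀ tc ∈ tl, EF tc d16 e6_16_7 :=
  tl_forall (EF.tv rfl q0_16 c6_0_16_7) (EF.tv rfl q1_16 c6_1_16_7) (EF.tv rfl q2_16 c6_2_16_7) (EF.tv rfl q3_16 c6_3_16_7) (EF.tv rfl q4_16 c6_4_16_7) (EF.tv rfl q5_16 c6_5_16_7) (EF.tv rfl q6_16 c6_6_16_7) (EF.tv rfl q7_16 c6_7_16_7) (EF.tv rfl q8_16 c6_8_16_7) (EF.tv rfl q9_16 c6_9_16_7) (EF.tv rfl q10_16 c6_10_16_7) (EF.tv rfl q11_16 c6_11_16_7) (EF.tv rfl q12_16 c6_12_16_7) (EF.tv rfl q13_16 c6_13_16_7) (EF.tv rfl q14_16 c6_14_16_7) (EF.tv rfl q15_16 c6_15_16_7) (EF.tv rfl q16_16 c6_16_16_7) (EF.tv rfl q17_16 c6_17_16_7) (EF.tv rfl q18_16 c6_18_16_7) (EF.tv rfl q19_16 c6_19_16_7) (EF.tv rfl q20_16 c6_20_16_7) (EF.tv rfl q21_16 c6_21_16_7) (EF.tv rfl q22_16 c6_22_16_7) (EF.tv rfl q23_16 c6_23_16_7) (EF.tv rfl q24_16 c6_24_16_7) (EF.tv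 rfl q25_16 c6_25_16_7) (EF.tv rfl q26_16 c6_26_16_7) (EF.tv rfl q27_16 c6_27_16_7) (EF.tv rfl q28_16 c6_28_16_7) (EF.tv rfl q29_16 c6_29_16_7) (EF.tv rfl q30_16 c6_30_16_7) (EF.tv rfl q31_16 c6_31_16_7) (EF.tv rfl q32_16 c6_32_16_7) (EF.tv rfl q33_16 c6_33_16_7) (EF.tv rfl q34_16 c6_34_16_7) (EF.tv rfl q35_16 c6_35_16_7) (EF.tv rfl q36_16 c6_36_16_7) (EF.tv rfl q37_16 c6_37_16_7) (EF.tv rfl q38_16 c6_38_16_7) (EF.tv rfl q39_16 c6_39_16_7) (EF.tv rfl q40_16 c6_40_16_7) (EF.tv rfl q41_16 c6_41_16_7) (EF.tv rfl q42_16 c6_42_16_7) (EF.tv rfl q43_16 c6_43_16_7) (EF.tv rfl q44_16 c6_44_16_7) (EF.tv rfl q45_16 c6_45_16_7) (EF.tv rfl q46_16 c6_46_16_7)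

theorem f8_16_8 : ∀ tc ∈ tl, EF tc d16 e8_16_8 :=
  tl_forall (EF.tv rfl q0_16 c8_0_16_8) (EF.tv rfl q1_16 c8_1_16_8) (EF.tv rfl q2_16 c8_2_16_8) (EF.tv rfl q3_16 c8_3_16_8) (EF.tv rfl q4_16 c8_4_16_8) (EF.tv rfl q5_16 c8_5_16_8) (EF.tv rfl q6_16 c8_6_16_8) (EF.tv rfl q7_16 c8_7_16_8) (EF.tv rfl q8_16 c8_8_16_8) (EF.tv rfl q9_16 c8_9_16_8) (EF.tv rfl q10_16 c8_10_16_8) (EF.tv rfl q11_16 c8_11_16_8) (EF.tv rfl q12_16 c8_12_16_8) (EF.tv rfl q13_16 c8_13_16_8) (EF.tv rfl q14_16 c8_14_16_8) (EF.tv rfl q15_16 c8_15_16_8) (EF.tv rfl q16_16 c8_16_16_8) (EF.tv rfl q17_16 c8_17_16_8) (EF.tv rfl q18_16 c8_18_16_8) (EF.tv rfl q19_16 c8_19_16_8) (EF.tv rfl q20_16 c8_20_16_8) (EF.tv rfl q21_16 c8_21_16_8) (EF.tv rfl q22_16 c8_22_16_8) (EF.tv rfl q23_16 c8_23_16_8) (EF.tv rfl q24_16 c8_24_16_8) (EF.tv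 rfl q25_16 c8_25_16_8) (EF.tv rfl q26_16 c8_26_16_8) (EF.tv rfl q27_16 c8_27_16_8) (EF.tv rfl q28_16 c8_28_16_8) (EF.tv rfl q29_16 c8_29_16_8) (EF.tv rfl q30_16 c8_30_16_8) (EF.tv rfl q31_16 c8_31_16_8) (EF.tv rfl q32_16 c8_32_16_8) (EF.tv rfl q33_16 c8_33_16_8) (EF.tv rfl q34_16 c8_34_16_8) (EF.tv rfl q35_16 c8_35_16_8) (EF.tv rfl q36_16 c8_36_16_8) (EF.tv rfl q37_16 c8_37_16_8) (EF.tv rfl q38_16 c8_38_16_8) (EF.tv rfl q39_16 c8_39_16_8) (EF.tv rfl q40_16 c8_40_16_8) (EF.tv rfl q41_16 c8_41_16_8) (EF.tv rfl q42_16 c8_42_16_8) (EF.tv rfl q43_16 c8_43_16_8) (EF.tv rfl q44_16 c8_44_16_8) (EF.tv rfl q45_16 c8_45_16_8) (EF.tv rfl q46_16 c8_46_16_8)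

theorem f8_16_9 : ∀ tc ∈ tl, EF tc d16 e8_16_9 :=
  tl_forall (EF.tv rfl q0_16 c8_0_16_9) (EF.tv rfl q1_16 c8_1_16_9) (EF.tv rfl q2_16 c8_2_16_9) (EF.tv rfl q3_16 c8_3_16_9) (EF.tv rfl q4_16 c8_4_16_9) (EF.tv rfl q5_16 c8_5_16_9) (EF.tv rfl q6_16 c8_6_16_9) (EF.tv rfl q7_16 c8_7_16_9) (EF.tv rfl q8_16 c8_8_16_9) (EF.tv rfl q9_16 c8_9_16_9) (EF.tv rfl q10_16 c8_10_16_9) (EF.tv rfl q11_16 c8_11_16_9) (EF.tv rfl q12_16 c8_12_16_9) (EF.tv rfl q13_16 c8_13_16_9) (EF.tv rfl q14_16 c8_14_16_9) (EF.tv rfl q15_16 c8_15_16_9) (EF.tv rfl q16_16 c8_16_16_9) (EF.tv rfl q17_16 c8_17_16_9) (EF.tv rfl q18_16 c8_18_16_9) (EF.tv rfl q19_16 c8_19_16_9) (EF.tv rfl q20_16 c8_20_16_9) (EF.tv rfl q21_16 c8_21_16_9) (EF.tv rfl q22_16 c8_22_16_9) (EF.tv rfl q23_16 c8_23_16_9) (EF.tv rfl q24_16 c8_24_16_9) (EF.tv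 rfl q25_16 c8_25_16_9) (EF.tv rfl q26_16 c8_26_16_9) (EF.tv rfl q27_16 c8_27_16_9) (EF.tv rfl q28_16 c8_28_16_9) (EF.tv rfl q29_16 c8_29_16_9) (EF.tv rfl q30_16 c8_30_16_9) (EF.tv rfl q31_16 c8_31_16_9) (EF.tv rfl q32_16 c8_32_16_9) (EF.tv rfl q33_16 c8_33_16_9) (EF.tv rfl q34_16 c8_34_16_9) (EF.tv rfl q35_16 c8_35_16_9) (EF.tv rfl q36_16 c8_36_16_9) (EF.tv rfl q37_16 c8_37_16_9) (EF.tv rfl q38_16 c8_38_16_9) (EF.tv rfl q39_16 c8_39_16_9) (EF.tv rfl q40_16 c8_40_16_9) (EF.tv rfl q41_16 c8_41_16_9) (EF.tv rfl q42_16 c8_42_16_9) (EF.tv rfl q43_16 c8_43_16_9) (EF.tv rfl q44_16 c8_44_16_9) (EF.tv rfl q45_16 c8_45_16_9) (EF.tv rfl q46_16 c8_46_16_9)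

theorem h4_16 : EvC tl 4 (shK Dec.one 4) d16 :=
  EvC.of2 (tab := tabX 4) (Ls := [e4_16_0, e4_16_1, e4_16_2, e4_16_3]) (tabX_ok 4)
    (by decide +kernel) (by decide +kernel) (by
    intro L hL
    simp only [List.mem_cons, List.not_mem_nil, or_false] at hL
    rcases hL with rfl | rfl | rfl | rfl
    · exact f4_16_0
    · exact f4_16_1
    · exact f4_16_2
    · exact f4_16_3)

theorem h6_16 : EvC tl 6 (shK Dec.one 6) d16 :=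
  EvC.of2 (tab := tabX 6) (Ls := [e6_16_4, e6_16_5, e6_16_6, e6_16_7]) (tabX_ok 6)
    (by decide +kernel) (by decide +kernel) (by
    intro L hL
    simp only [List.mem_cons, List.not_mem_nil, or_false] at hL
    rcases hL with rfl | rfl | rfl | rfl
    · exact f6_16_4
    · exact f6_16_5
    · exact f6_16_6
    · exact f6_16_7)

theorem h8_16 : EvC tl 0 (shA Dec.one 106) d16 :=
  EvC.of2 (tab := tabX 0) (Ls := [e8_16_8, e8_16_9]) (tabX_ok 0)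
    (by decide +kernel) (by decide +kernel) (by
    intro L hL
    simp only [List.mem_cons, List.not_mem_nil, or_false] at hL
    rcases hL with rfl | rfl
    · exact f8_16_8
    · exact f8_16_9)

theorem hh_16 : EvC8 tl Dec.one d16 := EvC8.a h8_16

end Pool.Agent.TSE
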