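import Pool.Agent.TSE.C17_0
import Pool.Agent.TSE.C17_2
import Pool.Agent.TSE.C17_4
import Pool.Agent.TSE.C17_6
import Pool.Agent.TSE.C17_8
import Pool.Agent.TSE.C17_10
import Pool.Agent.TSE.C17_12
import Pool.Agent.TSE.C17_14
import Pool.Agent.TSE.C17_16
import Pool.Agent.TSE.C17_18
import Pool.Agent.TSE.C17_20
import Pool.Agent.TSE.C17_22
import Pool.Agent.TSE.C17_24
import Pool.Agent.TSE.C17_26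
import Pool.Agent.TSE.C17_28
import Pool.Agent.TSE.C17_30
import Pool.Agent.TSE.C17_32
import Pool.Agent.TSE.C17_34
import Pool.Agent.TSE.C17_36
import Pool.Agent.TSE.C17_38
import Pool.Agent.TSE.C17_40
import Pool.Agent.TSE.C17_42
import Pool.Agent.TSE.C17_44
import Pool.Agent.TSE.C17_46
import Pool.Agent.TSE.T
import Pool.Agent.TSE.BaseC
import Pool.Agent.TSG.TabX

set_option autoImplicit false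

/-! # One interval of the total mass (MP_d27362_co) -/

namespace Pool.Agent.TSE

open Pool.Agent.TSC
open Pool.Agent.TSC.Dec
open Pool.Agent.TSG


theorem kf17 : ∀ tc ∈ tl, Pool.Agent.TSK.KF tc d17 :=
  tl_forall (KF.tv rfl q0_17 c0_17) (KF.tv rfl q1_17 c1_17) (KF.tv rfl q2_17 c2_17) (KF.tv rfl q3_17 c3_17) (KF.tv rfl q4_17 c4_17) (KF.tv rfl q5_17 c5_17) (KF.tv rfl q6_17 c6_17) (KF.tv rfl q7_17 c7_17) (KF.tv rfl q8_17 c8_17) (KF.tv rfl q9_17 c9_17) (KF.tv rfl q10_17 c10_17) (KF.tv rfl q11_17 c11_17) (KF.tv rfl q12_17 c12_17) (KF.tv rfl q13_17 c13_17) (KF.tv rfl q14_17 c14_17) (KF.tv rfl q15_17 c15_17) (KF.tv rfl q16_17 c16_17) (KF.tv rfl q17_17 c17_17) (KF.tv rfl q18_17 c18_17) (KF.tv rfl q19_17 c19_17) (KF.tv rfl q20_17 c20_17) (KF.tv rfl q21_17 c21_17) (KF.tv rfl q22_17 c22_17) (KF.tv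 rfl q23_17 c23_17) (KF.tv rfl q24_17 c24_17) (KF.tv rfl q25_17 c25_17) (KF.tv rfl q26_17 c26_17) (KF.tv rfl q27_17 c27_17) (KF.tv rfl q28_17 c28_17) (KF.tv rfl q29_17 c29_17) (KF.tv rfl q30_17 c30_17) (KF.tv rfl q31_17 c31_17) (KF.tv rfl q32_17 c32_17) (KF.tv rfl q33_17 c33_17) (KF.tv rfl q34_17 c34_17) (KF.tv rfl q35_17 c35_17) (KF.tv rfl q36_17 c36_17) (KF.tv rfl q37_17 c37_17) (KF.tv rfl q38_17 c38_17) (KF.tv rfl q39_17 c39_17) (KF.tv rfl q40_17 c40_17) (KF.tv rfl q41_17 c41_17) (KF.tv rfl q42_17 c42_17) (KF.tv rfl q43_17 c43_17) (KF.tv rfl q44_17 c44_17) (KF.tv rfl q45_17 c45_17) (KF.tv rfl q46_17 c46_17)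

theorem f4_17_0 : ∀ tc ∈ tl, EF tc d17 e4_17_0 :=
  tl_forall (EF.tv rfl q0_17 c4_0_17_0) (EF.tv rfl q1_17 c4_1_17_0) (EF.tv rfl q2_17 c4_2_17_0) (EF.tv rfl q3_17 c4_3_17_0) (EF.tv rfl q4_17 c4_4_17_0) (EF.tv rfl q5_17 c4_5_17_0) (EF.tv rfl q6_17 c4_6_17_0) (EF.tv rfl q7_17 c4_7_17_0) (EF.tv rfl q8_17 c4_8_17_0) (EF.tv rfl q9_17 c4_9_17_0) (EF.tv rfl q10_17 c4_10_17_0) (EF.tv rfl q11_17 c4_11_17_0) (EF.tv rfl q12_17 c4_12_17_0) (EF.tv rfl q13_17 c4_13_17_0) (EF.tv rfl q14_17 c4_14_17_0) (EF.tv rfl q15_17 c4_15_17_0) (EF.tv rfl q16_17 c4_16_17_0) (EF.tv rfl q17_17 c4_17_17_0) (EF.tv rfl q18_17 c4_18_17_0) (EF.tv rfl q19_17 c4_19_17_0) (EF.tv rfl q20_17 c4_20_17_0) (EF.tv rfl q21_17 c4_21_17_0) (EF.tv rfl q22_17 c4_22_17_0) (EF.tv rfl q23_17 c4_23_17_0) (EF.tv rfl q24_17 c4_24_17_0) (EF.tv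 rfl q25_17 c4_25_17_0) (EF.tv rfl q26_17 c4_26_17_0) (EF.tv rfl q27_17 c4_27_17_0) (EF.tv rfl q28_17 c4_28_17_0) (EF.tv rfl q29_17 c4_29_17_0) (EF.tv rfl q30_17 c4_30_17_0) (EF.tv rfl q31_17 c4_31_17_0) (EF.tv rfl q32_17 c4_32_17_0) (EF.tv rfl q33_17 c4_33_17_0) (EF.tv rfl q34_17 c4_34_17_0) (EF.tv rfl q35_17 c4_35_17_0) (EF.tv rfl q36_17 c4_36_17_0) (EF.tv rfl q37_17 c4_37_17_0) (EF.tv rfl q38_17 c4_38_17_0) (EF.tv rfl q39_17 c4_39_17_0) (EF.tv rfl q40_17 c4_40_17_0) (EF.tv rfl q41_17 c4_41_17_0) (EF.tv rfl q42_17 c4_42_17_0) (EF.tv rfl q43_17 c4_43_17_0) (EF.tv rfl q44_17 c4_44_17_0) (EF.tv rfl q45_17 c4_45_17_0) (EF.tv rfl q46_17 c4_46_17_0)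

theorem f4_17_1 : ∀ tc ∈ tl, EF tc d17 e4_17_1 :=
  tl_forall (EF.tv rfl q0_17 c4_0_17_1) (EF.tv rfl q1_17 c4_1_17_1) (EF.tv rfl q2_17 c4_2_17_1) (EF.tv rfl q3_17 c4_3_17_1) (EF.tv rfl q4_17 c4_4_17_1) (EF.tv rfl q5_17 c4_5_17_1) (EF.tv rfl q6_17 c4_6_17_1) (EF.tv rfl q7_17 c4_7_17_1) (EF.tv rfl q8_17 c4_8_17_1) (EF.tv rfl q9_17 c4_9_17_1) (EF.tv rfl q10_17 c4_10_17_1) (EF.tv rfl q11_17 c4_11_17_1) (EF.tv rfl q12_17 c4_12_17_1) (EF.tv rfl q13_17 c4_13_17_1) (EF.tv rfl q14_17 c4_14_17_1) (EF.tv rfl q15_17 c4_15_17_1) (EF.tv rfl q16_17 c4_16_17_1) (EF.tv rfl q17_17 c4_17_17_1) (EF.tv rfl q18_17 c4_18_17_1) (EF.tv rfl q19_17 c4_19_17_1) (EF.tv rfl q20_17 c4_20_17_1) (EF.tv rfl q21_17 c4_21_17_1) (EF.tv rfl q22_17 c4_22_17_1) (EF.tv rfl q23_17 c4_23_17_1) (EF.tv rfl q24_17 c4_24_17_1) (EF.tv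 rfl q25_17 c4_25_17_1) (EF.tv rfl q26_17 c4_26_17_1) (EF.tv rfl q27_17 c4_27_17_1) (EF.tv rfl q28_17 c4_28_17_1) (EF.tv rfl q29_17 c4_29_17_1) (EF.tv rfl q30_17 c4_30_17_1) (EF.tv rfl q31_17 c4_31_17_1) (EF.tv rfl q32_17 c4_32_17_1) (EF.tv rfl q33_17 c4_33_17_1) (EF.tv rfl q34_17 c4_34_17_1) (EF.tv rfl q35_17 c4_35_17_1) (EF.tv rfl q36_17 c4_36_17_1) (EF.tv rfl q37_17 c4_37_17_1) (EF.tv rfl q38_17 c4_38_17_1) (EF.tv rfl q39_17 c4_39_17_1) (EF.tv rfl q40_17 c4_40_17_1) (EF.tv rfl q41_17 c4_41_17_1) (EF.tv rfl q42_17 c4_42_17_1) (EF.tv rfl q43_17 c4_43_17_1) (EF.tv rfl q44_17 c4_44_17_1) (EF.tv rfl q45_17 c4_45_17_1) (EF.tv rfl q46_17 c4_46_17_1)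

theorem f4_17_2 : ∀ tc ∈ tl, EF tc d17 e4_17_2 :=
  tl_forall (EF.tv rfl q0_17 c4_0_17_2) (EF.tv rfl q1_17 c4_1_17_2) (EF.tv rfl q2_17 c4_2_17_2) (EF.tv rfl q3_17 c4_3_17_2) (EF.tv rfl q4_17 c4_4_17_2) (EF.tv rfl q5_17 c4_5_17_2) (EF.tv rfl q6_17 c4_6_17_2) (EF.tv rfl q7_17 c4_7_17_2) (EF.tv rfl q8_17 c4_8_17_2) (EF.tv rfl q9_17 c4_9_17_2) (EF.tv rfl q10_17 c4_10_17_2) (EF.tv rfl q11_17 c4_11_17_2) (EF.tv rfl q12_17 c4_12_17_2) (EF.tv rfl q13_17 c4_13_17_2) (EF.tv rfl q14_17 c4_14_17_2) (EF.tv rfl q15_17 c4_15_17_2) (EF.tv rfl q16_17 c4_16_17_2) (EF.tv rfl q17_17 c4_17_17_2) (EF.tv rfl q18_17 c4_18_17_2) (EF.tv rfl q19_17 c4_19_17_2) (EF.tv rfl q20_17 c4_20_17_2) (EF.tv rfl q21_17 c4_21_17_2) (EF.tv rfl q22_17 c4_22_17_2) (EF.tv rfl q23_17 c4_23_17_2) (EF.tv rfl q24_17 c4_24_17_2) (EF.tv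 rfl q25_17 c4_25_17_2) (EF.tv rfl q26_17 c4_26_17_2) (EF.tv rfl q27_17 c4_27_17_2) (EF.tv rfl q28_17 c4_28_17_2) (EF.tv rfl q29_17 c4_29_17_2) (EF.tv rfl q30_17 c4_30_17_2) (EF.tv rfl q31_17 c4_31_17_2) (EF.tv rfl q32_17 c4_32_17_2) (EF.tv rfl q33_17 c4_33_17_2) (EF.tv rfl q34_17 c4_34_17_2) (EF.tv rfl q35_17 c4_35_17_2) (EF.tv rfl q36_17 c4_36_17_2) (EF.tv rfl q37_17 c4_37_17_2) (EF.tv rfl q38_17 c4_38_17_2) (EF.tv rfl q39_17 c4_39_17_2) (EF.tv rfl q40_17 c4_40_17_2) (EF.tv rfl q41_17 c4_41_17_2) (EF.tv rfl q42_17 c4_42_17_2) (EF.tv rfl q43_17 c4_43_17_2) (EF.tv rfl q44_17 c4_44_17_2) (EF.tv rfl q45_17 c4_45_17_2) (EF.tv rfl q46_17 c4_46_17_2)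

theorem f4_17_3 : ∀ tc ∈ tl, EF tc d17 e4_17_3 :=
  tl_forall (EF.tv rfl q0_17 c4_0_17_3) (EF.tv rfl q1_17 c4_1_17_3) (EF.tv rfl q2_17 c4_2_17_3) (EF.tv rfl q3_17 c4_3_17_3) (EF.tv rfl q4_17 c4_4_17_3) (EF.tv rfl q5_17 c4_5_17_3) (EF.tv rfl q6_17 c4_6_17_3) (EF.tv rfl q7_17 c4_7_17_3) (EF.tv rfl q8_17 c4_8_17_3) (EF.tv rfl q9_17 c4_9_17_3) (EF.tv rfl q10_17 c4_10_17_3) (EF.tv rfl q11_17 c4_11_17_3) (EF.tv rfl q12_17 c4_12_17_3) (EF.tv rfl q13_17 c4_13_17_3) (EF.tv rfl q14_17 c4_14_17_3) (EF.tv rfl q15_17 c4_15_17_3) (EF.tv rfl q16_17 c4_16_17_3) (EF.tv rfl q17_17 c4_17_17_3) (EF.tv rfl q18_17 c4_18_17_3) (EF.tv rfl q19_17 c4_19_17_3) (EF.tv rfl q20_17 c4_20_17_3) (EF.tv rfl q21_17 c4_21_17_3) (EF.tv rfl q22_17 c4_22_17_3) (EF.tv rfl q23_17 c4_23_17_3) (EF.tv rfl q24_17 c4_24_17_3) (EF.tv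 rfl q25_17 c4_25_17_3) (EF.tv rfl q26_17 c4_26_17_3) (EF.tv rfl q27_17 c4_27_17_3) (EF.tv rfl q28_17 c4_28_17_3) (EF.tv rfl q29_17 c4_29_17_3) (EF.tv rfl q30_17 c4_30_17_3) (EF.tv rfl q31_17 c4_31_17_3) (EF.tv rfl q32_17 c4_32_17_3) (EF.tv rfl q33_17 c4_33_17_3) (EF.tv rfl q34_17 c4_34_17_3) (EF.tv rfl q35_17 c4_35_17_3) (EF.tv rfl q36_17 c4_36_17_3) (EF.tv rfl q37_17 c4_37_17_3) (EF.tv rfl q38_17 c4_38_17_3) (EF.tv rfl q39_17 c4_39_17_3) (EF.tv rfl q40_17 c4_40_17_3) (EF.tv rfl q41_17 c4_41_17_3) (EF.tv rfl q42_17 c4_42_17_3) (EF.tv rfl q43_17 c4_43_17_3) (EF.tv rfl q44_17 c4_44_17_3) (EF.tv rfl q45_17 c4_45_17_3) (EF.tv rfl q46_17 c4_46_17_3)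

theorem f6_17_4 : ∀ tc ∈ tl, EF tc d17 e6_17_4 :=
  tl_forall (EF.tv rfl q0_17 c6_0_17_4) (EF.tv rfl q1_17 c6_1_17_4) (EF.tv rfl q2_17 c6_2_17_4) (EF.tv rfl q3_17 c6_3_17_4) (EF.tv rfl q4_17 c6_4_17_4) (EF.tv rfl q5_17 c6_5_17_4) (EF.tv rfl q6_17 c6_6_17_4) (EF.tv rfl q7_17 c6_7_17_4) (EF.tv rfl q8_17 c6_8_17_4) (EF.tv rfl q9_17 c6_9_17_4) (EF.tv rfl q10_17 c6_10_17_4) (EF.tv rfl q11_17 c6_11_17_4) (EF.tv rfl q12_17 c6_12_17_4) (EF.tv rfl q13_17 c6_13_17_4) (EF.tv rfl q14_17 c6_14_17_4) (EF.tv rfl q15_17 c6_15_17_4) (EF.tv rfl q16_17 c6_16_17_4) (EF.tv rfl q17_17 c6_17_17_4) (EF.tv rfl q18_17 c6_18_17_4) (EF.tv rfl q19_17 c6_19_17_4) (EF.tv rfl q20_17 c6_20_17_4) (EF.tv rfl q21_17 c6_21_17_4) (EF.tv rfl q22_17 c6_22_17_4) (EF.tv rfl q23_17 c6_23_17_4) (EF.tv rfl q24_17 c6_24_17_4) (EF.tv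 rfl q25_17 c6_25_17_4) (EF.tv rfl q26_17 c6_26_17_4) (EF.tv rfl q27_17 c6_27_17_4) (EF.tv rfl q28_17 c6_28_17_4) (EF.tv rfl q29_17 c6_29_17_4) (EF.tv rfl q30_17 c6_30_17_4) (EF.tv rfl q31_17 c6_31_17_4) (EF.tv rfl q32_17 c6_32_17_4) (EF.tv rfl q33_17 c6_33_17_4) (EF.tv rfl q34_17 c6_34_17_4) (EF.tv rfl q35_17 c6_35_17_4) (EF.tv rfl q36_17 c6_36_17_4) (EF.tv rfl q37_17 c6_37_17_4) (EF.tv rfl q38_17 c6_38_17_4) (EF.tv rfl q39_17 c6_39_17_4) (EF.tv rfl q40_17 c6_40_17_4) (EF.tv rfl q41_17 c6_41_17_4) (EF.tv rfl q42_17 c6_42_17_4) (EF.tv rfl q43_17 c6_43_17_4) (EF.tv rfl q44_17 c6_44_17_4) (EF.tv rfl q45_17 c6_45_17_4) (EF.tv rfl q46_17 c6_46_17_4)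

theorem f6_17_5 : ∀ tc ∈ tl, EF tc d17 e6_17_5 :=
  tl_forall (EF.tv rfl q0_17 c6_0_17_5) (EF.tv rfl q1_17 c6_1_17_5) (EF.tv rfl q2_17 c6_2_17_5) (EF.tv rfl q3_17 c6_3_17_5) (EF.tv rfl q4_17 c6_4_17_5) (EF.tv rfl q5_17 c6_5_17_5) (EF.tv rfl q6_17 c6_6_17_5) (EF.tv rfl q7_17 c6_7_17_5) (EF.tv rfl q8_17 c6_8_17_5) (EF.tv rfl q9_17 c6_9_17_5) (EF.tv rfl q10_17 c6_10_17_5) (EF.tv rfl q11_17 c6_11_17_5) (EF.tv rfl q12_17 c6_12_17_5) (EF.tv rfl q13_17 c6_13_17_5) (EF.tv rfl q14_17 c6_14_17_5) (EF.tv rfl q15_17 c6_15_17_5) (EF.tv rfl q16_17 c6_16_17_5) (EF.tv rfl q17_17 c6_17_17_5) (EF.tv rfl q18_17 c6_18_17_5) (EF.tv rfl q19_17 c6_19_17_5) (EF.tv rfl q20_17 c6_20_17_5) (EF.tv rfl q21_17 c6_21_17_5) (EF.tv rfl q22_17 c6_22_17_5) (EF.tv rfl q23_17 c6_23_17_5) (EF.tv rfl q24_17 c6_24_17_5) (EF.tv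 rfl q25_17 c6_25_17_5) (EF.tv rfl q26_17 c6_26_17_5) (EF.tv rfl q27_17 c6_27_17_5) (EF.tv rfl q28_17 c6_28_17_5) (EF.tv rfl q29_17 c6_29_17_5) (EF.tv rfl q30_17 c6_30_17_5) (EF.tv rfl q31_17 c6_31_17_5) (EF.tv rfl q32_17 c6_32_17_5) (EF.tv rfl q33_17 c6_33_17_5) (EF.tv rfl q34_17 c6_34_17_5) (EF.tv rfl q35_17 c6_35_17_5) (EF.tv rfl q36_17 c6_36_17_5) (EF.tv rfl q37_17 c6_37_17_5) (EF.tv rfl q38_17 c6_38_17_5) (EF.tv rfl q39_17 c6_39_17_5) (EF.tv rfl q40_17 c6_40_17_5) (EF.tv rfl q41_17 c6_41_17_5) (EF.tv rfl q42_17 c6_42_17_5) (EF.tv rfl q43_17 c6_43_17_5) (EF.tv rfl q44_17 c6_44_17_5) (EF.tv rfl q45_17 c6_45_17_5) (EF.tv rfl q46_17 c6_46_17_5)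

theorem f6_17_6 : ∀ tc ∈ tl, EF tc d17 e6_17_6 :=
  tl_forall (EF.tv rfl q0_17 c6_0_17_6) (EF.tv rfl q1_17 c6_1_17_6) (EF.tv rfl q2_17 c6_2_17_6) (EF.tv rfl q3_17 c6_3_17_6) (EF.tv rfl q4_17 c6_4_17_6) (EF.tv rfl q5_17 c6_5_17_6) (EF.tv rfl q6_17 c6_6_17_6) (EF.tv rfl q7_17 c6_7_17_6) (EF.tv rfl q8_17 c6_8_17_6) (EF.tv rfl q9_17 c6_9_17_6) (EF.tv rfl q10_17 c6_10_17_6) (EF.tv rfl q11_17 c6_11_17_6) (EF.tv rfl q12_17 c6_12_17_6) (EF.tv rfl q13_17 c6_13_17_6) (EF.tv rfl q14_17 c6_14_17_6) (EF.tv rfl q15_17 c6_15_17_6) (EF.tv rfl q16_17 c6_16_17_6) (EF.tv rfl q17_17 c6_17_17_6) (EF.tv rfl q18_17 c6_18_17_6) (EF.tv rfl q19_17 c6_19_17_6) (EF.tv rfl q20_17 c6_20_17_6) (EF.tv rfl q21_17 c6_21_17_6) (EF.tv rfl q22_17 c6_22_17_6) (EF.tv rfl q23_17 c6_23_17_6) (EF.tv rfl q24_17 c6_24_17_6) (EF.tv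 rfl q25_17 c6_25_17_6) (EF.tv rfl q26_17 c6_26_17_6) (EF.tv rfl q27_17 c6_27_17_6) (EF.tv rfl q28_17 c6_28_17_6) (EF.tv rfl q29_17 c6_29_17_6) (EF.tv rfl q30_17 c6_30_17_6) (EF.tv rfl q31_17 c6_31_17_6) (EF.tv rfl q32_17 c6_32_17_6) (EF.tv rfl q33_17 c6_33_17_6) (EF.tv rfl q34_17 c6_34_17_6) (EF.tv rfl q35_17 c6_35_17_6) (EF.tv rfl q36_17 c6_36_17_6) (EF.tv rfl q37_17 c6_37_17_6) (EF.tv rfl q38_17 c6_38_17_6) (EF.tv rfl q39_17 c6_39_17_6) (EF.tv rfl q40_17 c6_40_17_6) (EF.tv rfl q41_17 c6_41_17_6) (EF.tv rfl q42_17 c6_42_17_6) (EF.tv rfl q43_17 c6_43_17_6) (EF.tv rfl q44_17 c6_44_17_6) (EF.tv rfl q45_17 c6_45_17_6) (EF.tv rfl q46_17 c6_46_17_6)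

theorem f6_17_7 : ∀ tc ∈ tl, EF tc d17 e6_17_7 :=
  tl_forall (EF.tv rfl q0_17 c6_0_17_7) (EF.tv rfl q1_17 c6_1_17_7) (EF.tv rfl q2_17 c6_2_17_7) (EF.tv rfl q3_17 c6_3_17_7) (EF.tv rfl q4_17 c6_4_17_7) (EF.tv rfl q5_17 c6_5_17_7) (EF.tv rfl q6_17 c6_6_17_7) (EF.tv rfl q7_17 c6_7_17_7) (EF.tv rfl q8_17 c6_8_17_7) (EF.tv rfl q9_17 c6_9_17_7) (EF.tv rfl q10_17 c6_10_17_7) (EF.tv rfl q11_17 c6_11_17_7) (EF.tv rfl q12_17 c6_12_17_7) (EF.tv rfl q13_17 c6_13_17_7) (EF.tv rfl q14_17 c6_14_17_7) (EF.tv rfl q15_17 c6_15_17_7) (EF.tv rfl q16_17 c6_16_17_7) (EF.tv rfl q17_17 c6_17_17_7) (EF.tv rfl q18_17 c6_18_17_7) (EF.tv rfl q19_17 c6_19_17_7) (EF.tv rfl q20_17 c6_20_17_7) (EF.tv rfl q21_17 c6_21_17_7) (EF.tv rfl q22_17 c6_22_17_7) (EF.tv rfl q23_17 c6_23_17_7) (EF.tv rfl q24_17 c6_24_17_7) (EF.tv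 rfl q25_17 c6_25_17_7) (EF.tv rfl q26_17 c6_26_17_7) (EF.tv rfl q27_17 c6_27_17_7) (EF.tv rfl q28_17 c6_28_17_7) (EF.tv rfl q29_17 c6_29_17_7) (EF.tv rfl q30_17 c6_30_17_7) (EF.tv rfl q31_17 c6_31_17_7) (EF.tv rfl q32_17 c6_32_17_7) (EF.tv rfl q33_17 c6_33_17_7) (EF.tv rfl q34_17 c6_34_17_7) (EF.tv rfl q35_17 c6_35_17_7) (EF.tv rfl q36_17 c6_36_17_7) (EF.tv rfl q37_17 c6_37_17_7) (EF.tv rfl q38_17 c6_38_17_7) (EF.tv rfl q39_17 c6_39_17_7) (EF.tv rfl q40_17 c6_40_17_7) (EF.tv rfl q41_17 c6_41_17_7) (EF.tv rfl q42_17 c6_42_17_7) (EF.tv rfl q43_17 c6_43_17_7) (EF.tv rfl q44_17 c6_44_17_7) (EF.tv rfl q45_17 c6_45_17_7) (EF.tv rfl q46_17 c6_46_17_7)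

theorem f8_17_8 : ∀ tc ∈ tl, EF tc d17 e8_17_8 :=
  tl_forall (EF.tv rfl q0_17 c8_0_17_8) (EF.tv rfl q1_17 c8_1_17_8) (EF.tv rfl q2_17 c8_2_17_8) (EF.tv rfl q3_17 c8_3_17_8) (EF.tv rfl q4_17 c8_4_17_8) (EF.tv rfl q5_17 c8_5_17_8) (EF.tv rfl q6_17 c8_6_17_8) (EF.tv rfl q7_17 c8_7_17_8) (EF.tv rfl q8_17 c8_8_17_8) (EF.tv rfl q9_17 c8_9_17_8) (EF.tv rfl q10_17 c8_10_17_8) (EF.tv rfl q11_17 c8_11_17_8) (EF.tv rfl q12_17 c8_12_17_8) (EF.tv rfl q13_17 c8_13_17_8) (EF.tv rfl q14_17 c8_14_17_8) (EF.tv rfl q15_17 c8_15_17_8) (EF.tv rfl q16_17 c8_16_17_8) (EF.tv rfl q17_17 c8_17_17_8) (EF.tv rfl q18_17 c8_18_17_8) (EF.tv rfl q19_17 c8_19_17_8) (EF.tv rfl q20_17 c8_20_17_8) (EF.tv rfl q21_17 c8_21_17_8) (EF.tv rfl q22_17 c8_22_17_8) (EF.tv rfl q23_17 c8_23_17_8) (EF.tv rfl q24_17 c8_24_17_8) (EF.tv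 rfl q25_17 c8_25_17_8) (EF.tv rfl q26_17 c8_26_17_8) (EF.tv rfl q27_17 c8_27_17_8) (EF.tv rfl q28_17 c8_28_17_8) (EF.tv rfl q29_17 c8_29_17_8) (EF.tv rfl q30_17 c8_30_17_8) (EF.tv rfl q31_17 c8_31_17_8) (EF.tv rfl q32_17 c8_32_17_8) (EF.tv rfl q33_17 c8_33_17_8) (EF.tv rfl q34_17 c8_34_17_8) (EF.tv rfl q35_17 c8_35_17_8) (EF.tv rfl q36_17 c8_36_17_8) (EF.tv rfl q37_17 c8_37_17_8) (EF.tv rfl q38_17 c8_38_17_8) (EF.tv rfl q39_17 c8_39_17_8) (EF.tv rfl q40_17 c8_40_17_8) (EF.tv rfl q41_17 c8_41_17_8) (EF.tv rfl q42_17 c8_42_17_8) (EF.tv rfl q43_17 c8_43_17_8) (EF.tv rfl q44_17 c8_44_17_8) (EF.tv rfl q45_17 c8_45_17_8) (EF.tv rfl q46_17 c8_46_17_8)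

theorem f8_17_9 : ∀ tc ∈ tl, EF tc d17 e8_17_9 :=
  tl_forall (EF.tv rfl q0_17 c8_0_17_9) (EF.tv rfl q1_17 c8_1_17_9) (EF.tv rfl q2_17 c8_2_17_9) (EF.tv rfl q3_17 c8_3_17_9) (EF.tv rfl q4_17 c8_4_17_9) (EF.tv rfl q5_17 c8_5_17_9) (EF.tv rfl q6_17 c8_6_17_9) (EF.tv rfl q7_17 c8_7_17_9) (EF.tv rfl q8_17 c8_8_17_9) (EF.tv rfl q9_17 c8_9_17_9) (EF.tv rfl q10_17 c8_10_17_9) (EF.tv rfl q11_17 c8_11_17_9) (EF.tv rfl q12_17 c8_12_17_9) (EF.tv rfl q13_17 c8_13_17_9) (EF.tv rfl q14_17 c8_14_17_9) (EF.tv rfl q15_17 c8_15_17_9) (EF.tv rfl q16_17 c8_16_17_9) (EF.tv rfl q17_17 c8_17_17_9) (EF.tv rfl q18_17 c8_18_17_9) (EF.tv rfl q19_17 c8_19_17_9) (EF.tv rfl q20_17 c8_20_17_9) (EF.tv rfl q21_17 c8_21_17_9) (EF.tv rfl q22_17 c8_22_17_9) (EF.tv rfl q23_17 c8_23_17_9) (EF.tv rfl q24_17 c8_24_17_9) (EF.tv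 rfl q25_17 c8_25_17_9) (EF.tv rfl q26_17 c8_26_17_9) (EF.tv rfl q27_17 c8_27_17_9) (EF.tv rfl q28_17 c8_28_17_9) (EF.tv rfl q29_17 c8_29_17_9) (EF.tv rfl q30_17 c8_30_17_9) (EF.tv rfl q31_17 c8_31_17_9) (EF.tv rfl q32_17 c8_32_17_9) (EF.tv rfl q33_17 c8_33_17_9) (EF.tv rfl q34_17 c8_34_17_9) (EF.tv rfl q35_17 c8_35_17_9) (EF.tv rfl q36_17 c8_36_17_9) (EF.tv rfl q37_17 c8_37_17_9) (EF.tv rfl q38_17 c8_38_17_9) (EF.tv rfl q39_17 c8_39_17_9) (EF.tv rfl q40_17 c8_40_17_9) (EF.tv rfl q41_17 c8_41_17_9) (EF.tv rfl q42_17 c8_42_17_9) (EF.tv rfl q43_17 c8_43_17_9) (EF.tv rfl q44_17 c8_44_17_9) (EF.tv rfl q45_17 c8_45_17_9) (EF.tv rfl q46_17 c8_46_17_9)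

theorem h4_17 : EvC tl 4 (shK Dec.one 4) d17 :=
  EvC.of2 (tab := tabX 4) (Ls := [e4_17_0, e4_17_1, e4_17_2, e4_17_3]) (tabX_ok 4)
    (by decide +kernel) (by decide +kernel) (by
    intro L hL
    simp only [List.mem_cons, List.not_mem_nil, or_false] at hL
    rcases hL with rfl | rfl | rfl | rfl
    · exact f4_17_0
    · exact f4_17_1
    · exact f4_17_2
    · exact f4_17_3)

theorem h6_17 : EvC tl 6 (shK Dec.one 6) d17 :=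
  EvC.of2 (tab := tabX 6) (Ls := [e6_17_4, e6_17_5, e6_17_6, e6_17_7]) (tabX_ok 6)
    (by decide +kernel) (by decide +kernel) (by
    intro L hL
    simp only [List.mem_cons, List.not_mem_nil, or_false] at hL
    rcases hL with rfl | rfl | rfl | rfl
    · exact f6_17_4
    · exact f6_17_5
    · exact f6_17_6
    · exact f6_17_7)

theorem h8_17 : EvC tl 0 (shA Dec.one 106) d17 :=
  EvC.of2 (tab := tabX 0) (Ls := [e8_17_8, e8_17_9]) (tabX_ok 0)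
    (by decide +kernel) (by decide +kernel) (by
    intro L hL
    simp only [List.mem_cons, List.not_mem_nil, or_false] at hL
    rcases hL with rfl | rfl
    · exact f8_17_8
    · exact f8_17_9)

theorem hh_17 : EvC8 tl Dec.one d17 := EvC8.a h8_17

end Pool.Agent.TSE
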