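import Pool.Agent.TSE.C19_0
import Pool.Agent.TSE.C19_2
import Pool.Agent.TSE.C19_4
import Pool.Agent.TSE.C19_6
import Pool.Agent.TSE.C19_8
import Pool.Agent.TSE.C19_10
import Pool.Agent.TSE.C19_12
import Pool.Agent.TSE.C19_14
import Pool.Agent.TSE.C19_16
import Pool.Agent.TSE.C19_18
import Pool.Agent.TSE.C19_20
import Pool.Agent.TSE.C19_22
import Pool.Agent.TSE.C19_24
import Pool.Agent.TSE.C19_26
import Pool.Agent.TSE.C19_28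
import Pool.Agent.TSE.C19_30
import Pool.Agent.TSE.C19_32
import Pool.Agent.TSE.C19_34
import Pool.Agent.TSE.C19_36
import Pool.Agent.TSE.C19_38
import Pool.Agent.TSE.T
import Pool.Agent.TSE.BaseC
import Pool.Agent.TSG.TabX

set_option autoImplicit false

/-! # One interval of the total mass (MP_d27362_co) -/

namespace Pool.Agent.TSE

open Pool.Agent.TSC
open Pool.Agent.TSC.Dec
open Pool.Agent.TSG


theorem kf19 : ∀ tc ∈ tl, Pool.Agent.TSK.KF tc d19 :=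
  tl_forall (KF.tv rfl q0_19 c0_19) (KF.tv rfl q1_19 c1_19) (KF.tv rfl q2_19 c2_19) (KF.tv rfl q3_19 c3_19) (KF.tv rfl q4_19 c4_19) (KF.tv rfl q5_19 c5_19) (KF.tv rfl q6_19 c6_19) (KF.tv rfl q7_19 c7_19) (KF.tv rfl q8_19 c8_19) (KF.tv rfl q9_19 c9_19) (KF.tv rfl q10_19 c10_19) (KF.tv rfl q11_19 c11_19) (KF.tv rfl q12_19 c12_19) (KF.tv rfl q13_19 c13_19) (KF.tv rfl q14_19 c14_19) (KF.tv rfl q15_19 c15_19) (KF.tv rfl q16_19 c16_19) (KF.tv rfl q17_19 c17_19) (KF.tv rfl q18_19 c18_19) (KF.tv rfl q19_19 c19_19) (KF.tv rfl q20_19 c20_19) (KF.tv rfl q21_19 c21_19) (KF.tv rfl q22_19 c22_19) (KF.tv rfl q23_19 c23_19) (KF.tv rfl q24_19 c24_19) (KF.tv rfl q25_19 c25_19) (KF.tv rfl q26_19 c26_19) (KF.tv rfl q27_19 c27_19) (KF.tv rfl q28_19 c28_19) (KF.tv rfl q29_19 c29_19) (KF.tv rfl q30_19 c30_19) (KF.tv rfl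 q31_19 c31_19) (KF.tv rfl q32_19 c32_19) (KF.tv rfl q33_19 c33_19) (KF.tv rfl q34_19 c34_19) (KF.tv rfl q35_19 c35_19) (KF.tv rfl q36_19 c36_19) (KF.tv rfl q37_19 c37_19) (KF.tv rfl q38_19 c38_19) (Pool.Agent.TSK.KF.far g39_19) (Pool.Agent.TSK.KF.far g40_19) (Pool.Agent.TSK.KF.far g41_19) (Pool.Agent.TSK.KF.far g42_19) (Pool.Agent.TSK.KF.far g43_19) (Pool.Agent.TSK.KF.far g44_19) (Pool.Agent.TSK.KF.far g45_19) (Pool.Agent.TSK.KF.far g46_19)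

theorem f4_19_0 : ∀ tc ∈ tl, EF tc d19 e4_19_0 :=
  tl_forall (EF.tv rfl q0_19 c4_0_19_0) (EF.tv rfl q1_19 c4_1_19_0) (EF.tv rfl q2_19 c4_2_19_0) (EF.tv rfl q3_19 c4_3_19_0) (EF.tv rfl q4_19 c4_4_19_0) (EF.tv rfl q5_19 c4_5_19_0) (EF.tv rfl q6_19 c4_6_19_0) (EF.tv rfl q7_19 c4_7_19_0) (EF.tv rfl q8_19 c4_8_19_0) (EF.tv rfl q9_19 c4_9_19_0) (EF.tv rfl q10_19 c4_10_19_0) (EF.tv rfl q11_19 c4_11_19_0) (EF.tv rfl q12_19 c4_12_19_0) (EF.tv rfl q13_19 c4_13_19_0) (EF.tv rfl q14_19 c4_14_19_0) (EF.tv rfl q15_19 c4_15_19_0) (EF.tv rfl q16_19 c4_16_19_0) (EF.tv rfl q17_19 c4_17_19_0) (EF.tv rfl q18_19 c4_18_19_0) (EF.tv rfl q19_19 c4_19_19_0) (EF.tv rfl q20_19 c4_20_19_0) (EF.tv rfl q21_19 c4_21_19_0) (EF.tv rfl q22_19 c4_22_19_0) (EF.tv rfl q23_19 c4_23_19_0) (EF.tv rfl q24_19 c4_24_19_0) (EF.tv rfl q25_19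 c4_25_19_0) (EF.tv rfl q26_19 c4_26_19_0) (EF.tv rfl q27_19 c4_27_19_0) (EF.tv rfl q28_19 c4_28_19_0) (EF.tv rfl q29_19 c4_29_19_0) (EF.tv rfl q30_19 c4_30_19_0) (EF.tv rfl q31_19 c4_31_19_0) (EF.tv rfl q32_19 c4_32_19_0) (EF.tv rfl q33_19 c4_33_19_0) (EF.tv rfl q34_19 c4_34_19_0) (EF.tv rfl q35_19 c4_35_19_0) (EF.tv rfl q36_19 c4_36_19_0) (EF.tv rfl q37_19 c4_37_19_0) (EF.tv rfl q38_19 c4_38_19_0) (EF.far g39_19) (EF.far g40_19) (EF.far g41_19) (EF.far g42_19) (EF.far g43_19) (EF.far g44_19) (EF.far g45_19) (EF.far g46_19)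

theorem f4_19_1 : ∀ tc ∈ tl, EF tc d19 e4_19_1 :=
  tl_forall (EF.tv rfl q0_19 c4_0_19_1) (EF.tv rfl q1_19 c4_1_19_1) (EF.tv rfl q2_19 c4_2_19_1) (EF.tv rfl q3_19 c4_3_19_1) (EF.tv rfl q4_19 c4_4_19_1) (EF.tv rfl q5_19 c4_5_19_1) (EF.tv rfl q6_19 c4_6_19_1) (EF.tv rfl q7_19 c4_7_19_1) (EF.tv rfl q8_19 c4_8_19_1) (EF.tv rfl q9_19 c4_9_19_1) (EF.tv rfl q10_19 c4_10_19_1) (EF.tv rfl q11_19 c4_11_19_1) (EF.tv rfl q12_19 c4_12_19_1) (EF.tv rfl q13_19 c4_13_19_1) (EF.tv rfl q14_19 c4_14_19_1) (EF.tv rfl q15_19 c4_15_19_1) (EF.tv rfl q16_19 c4_16_19_1) (EF.tv rfl q17_19 c4_17_19_1) (EF.tv rfl q18_19 c4_18_19_1) (EF.tv rfl q19_19 c4_19_19_1) (EF.tv rfl q20_19 c4_20_19_1) (EF.tv rfl q21_19 c4_21_19_1) (EF.tv rfl q22_19 c4_22_19_1) (EF.tv rfl q23_19 c4_23_19_1) (EF.tv rfl q24_19 c4_24_19_1) (EF.tv rfl q25_19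 c4_25_19_1) (EF.tv rfl q26_19 c4_26_19_1) (EF.tv rfl q27_19 c4_27_19_1) (EF.tv rfl q28_19 c4_28_19_1) (EF.tv rfl q29_19 c4_29_19_1) (EF.tv rfl q30_19 c4_30_19_1) (EF.tv rfl q31_19 c4_31_19_1) (EF.tv rfl q32_19 c4_32_19_1) (EF.tv rfl q33_19 c4_33_19_1) (EF.tv rfl q34_19 c4_34_19_1) (EF.tv rfl q35_19 c4_35_19_1) (EF.tv rfl q36_19 c4_36_19_1) (EF.tv rfl q37_19 c4_37_19_1) (EF.tv rfl q38_19 c4_38_19_1) (EF.far g39_19) (EF.far g40_19) (EF.far g41_19) (EF.far g42_19) (EF.far g43_19) (EF.far g44_19) (EF.far g45_19) (EF.far g46_19)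

theorem f4_19_2 : ∀ tc ∈ tl, EF tc d19 e4_19_2 :=
  tl_forall (EF.tv rfl q0_19 c4_0_19_2) (EF.tv rfl q1_19 c4_1_19_2) (EF.tv rfl q2_19 c4_2_19_2) (EF.tv rfl q3_19 c4_3_19_2) (EF.tv rfl q4_19 c4_4_19_2) (EF.tv rfl q5_19 c4_5_19_2) (EF.tv rfl q6_19 c4_6_19_2) (EF.tv rfl q7_19 c4_7_19_2) (EF.tv rfl q8_19 c4_8_19_2) (EF.tv rfl q9_19 c4_9_19_2) (EF.tv rfl q10_19 c4_10_19_2) (EF.tv rfl q11_19 c4_11_19_2) (EF.tv rfl q12_19 c4_12_19_2) (EF.tv rfl q13_19 c4_13_19_2) (EF.tv rfl q14_19 c4_14_19_2) (EF.tv rfl q15_19 c4_15_19_2) (EF.tv rfl q16_19 c4_16_19_2) (EF.tv rfl q17_19 c4_17_19_2) (EF.tv rfl q18_19 c4_18_19_2) (EF.tv rfl q19_19 c4_19_19_2) (EF.tv rfl q20_19 c4_20_19_2) (EF.tv rfl q21_19 c4_21_19_2) (EF.tv rfl q22_19 c4_22_19_2) (EF.tv rfl q23_19 c4_23_19_2) (EF.tv rfl q24_19 c4_24_19_2) (EF.tv rfl q25_19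 c4_25_19_2) (EF.tv rfl q26_19 c4_26_19_2) (EF.tv rfl q27_19 c4_27_19_2) (EF.tv rfl q28_19 c4_28_19_2) (EF.tv rfl q29_19 c4_29_19_2) (EF.tv rfl q30_19 c4_30_19_2) (EF.tv rfl q31_19 c4_31_19_2) (EF.tv rfl q32_19 c4_32_19_2) (EF.tv rfl q33_19 c4_33_19_2) (EF.tv rfl q34_19 c4_34_19_2) (EF.tv rfl q35_19 c4_35_19_2) (EF.tv rfl q36_19 c4_36_19_2) (EF.tv rfl q37_19 c4_37_19_2) (EF.tv rfl q38_19 c4_38_19_2) (EF.far g39_19) (EF.far g40_19) (EF.far g41_19) (EF.far g42_19) (EF.far g43_19) (EF.far g44_19) (EF.far g45_19) (EF.far g46_19)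

theorem f4_19_3 : ∀ tc ∈ tl, EF tc d19 e4_19_3 :=
  tl_forall (EF.tv rfl q0_19 c4_0_19_3) (EF.tv rfl q1_19 c4_1_19_3) (EF.tv rfl q2_19 c4_2_19_3) (EF.tv rfl q3_19 c4_3_19_3) (EF.tv rfl q4_19 c4_4_19_3) (EF.tv rfl q5_19 c4_5_19_3) (EF.tv rfl q6_19 c4_6_19_3) (EF.tv rfl q7_19 c4_7_19_3) (EF.tv rfl q8_19 c4_8_19_3) (EF.tv rfl q9_19 c4_9_19_3) (EF.tv rfl q10_19 c4_10_19_3) (EF.tv rfl q11_19 c4_11_19_3) (EF.tv rfl q12_19 c4_12_19_3) (EF.tv rfl q13_19 c4_13_19_3) (EF.tv rfl q14_19 c4_14_19_3) (EF.tv rfl q15_19 c4_15_19_3) (EF.tv rfl q16_19 c4_16_19_3) (EF.tv rfl q17_19 c4_17_19_3) (EF.tv rfl q18_19 c4_18_19_3) (EF.tv rfl q19_19 c4_19_19_3) (EF.tv rfl q20_19 c4_20_19_3) (EF.tv rfl q21_19 c4_21_19_3) (EF.tv rfl q22_19 c4_22_19_3) (EF.tv rfl q23_19 c4_23_19_3) (EF.tv rfl q24_19 c4_24_19_3) (EF.tv rfl q25_19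 c4_25_19_3) (EF.tv rfl q26_19 c4_26_19_3) (EF.tv rfl q27_19 c4_27_19_3) (EF.tv rfl q28_19 c4_28_19_3) (EF.tv rfl q29_19 c4_29_19_3) (EF.tv rfl q30_19 c4_30_19_3) (EF.tv rfl q31_19 c4_31_19_3) (EF.tv rfl q32_19 c4_32_19_3) (EF.tv rfl q33_19 c4_33_19_3) (EF.tv rfl q34_19 c4_34_19_3) (EF.tv rfl q35_19 c4_35_19_3) (EF.tv rfl q36_19 c4_36_19_3) (EF.tv rfl q37_19 c4_37_19_3) (EF.tv rfl q38_19 c4_38_19_3) (EF.far g39_19) (EF.far g40_19) (EF.far g41_19) (EF.far g42_19) (EF.far g43_19) (EF.far g44_19) (EF.far g45_19) (EF.far g46_19)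

theorem f6_19_4 : ∀ tc ∈ tl, EF tc d19 e6_19_4 :=
  tl_forall (EF.tv rfl q0_19 c6_0_19_4) (EF.tv rfl q1_19 c6_1_19_4) (EF.tv rfl q2_19 c6_2_19_4) (EF.tv rfl q3_19 c6_3_19_4) (EF.tv rfl q4_19 c6_4_19_4) (EF.tv rfl q5_19 c6_5_19_4) (EF.tv rfl q6_19 c6_6_19_4) (EF.tv rfl q7_19 c6_7_19_4) (EF.tv rfl q8_19 c6_8_19_4) (EF.tv rfl q9_19 c6_9_19_4) (EF.tv rfl q10_19 c6_10_19_4) (EF.tv rfl q11_19 c6_11_19_4) (EF.tv rfl q12_19 c6_12_19_4) (EF.tv rfl q13_19 c6_13_19_4) (EF.tv rfl q14_19 c6_14_19_4) (EF.tv rfl q15_19 c6_15_19_4) (EF.tv rfl q16_19 c6_16_19_4) (EF.tv rfl q17_19 c6_17_19_4) (EF.tv rfl q18_19 c6_18_19_4) (EF.tv rfl q19_19 c6_19_19_4) (EF.tv rfl q20_19 c6_20_19_4) (EF.tv rfl q21_19 c6_21_19_4) (EF.tv rfl q22_19 c6_22_19_4) (EF.tv rfl q23_19 c6_23_19_4) (EF.tv rfl q24_19 c6_24_19_4) (EF.tv rfl q25_19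 c6_25_19_4) (EF.tv rfl q26_19 c6_26_19_4) (EF.tv rfl q27_19 c6_27_19_4) (EF.tv rfl q28_19 c6_28_19_4) (EF.tv rfl q29_19 c6_29_19_4) (EF.tv rfl q30_19 c6_30_19_4) (EF.tv rfl q31_19 c6_31_19_4) (EF.tv rfl q32_19 c6_32_19_4) (EF.tv rfl q33_19 c6_33_19_4) (EF.tv rfl q34_19 c6_34_19_4) (EF.tv rfl q35_19 c6_35_19_4) (EF.tv rfl q36_19 c6_36_19_4) (EF.tv rfl q37_19 c6_37_19_4) (EF.tv rfl q38_19 c6_38_19_4) (EF.far g39_19) (EF.far g40_19) (EF.far g41_19) (EF.far g42_19) (EF.far g43_19) (EF.far g44_19) (EF.far g45_19) (EF.far g46_19)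

theorem f6_19_5 : ∀ tc ∈ tl, EF tc d19 e6_19_5 :=
  tl_forall (EF.tv rfl q0_19 c6_0_19_5) (EF.tv rfl q1_19 c6_1_19_5) (EF.tv rfl q2_19 c6_2_19_5) (EF.tv rfl q3_19 c6_3_19_5) (EF.tv rfl q4_19 c6_4_19_5) (EF.tv rfl q5_19 c6_5_19_5) (EF.tv rfl q6_19 c6_6_19_5) (EF.tv rfl q7_19 c6_7_19_5) (EF.tv rfl q8_19 c6_8_19_5) (EF.tv rfl q9_19 c6_9_19_5) (EF.tv rfl q10_19 c6_10_19_5) (EF.tv rfl q11_19 c6_11_19_5) (EF.tv rfl q12_19 c6_12_19_5) (EF.tv rfl q13_19 c6_13_19_5) (EF.tv rfl q14_19 c6_14_19_5) (EF.tv rfl q15_19 c6_15_19_5) (EF.tv rfl q16_19 c6_16_19_5) (EF.tv rfl q17_19 c6_17_19_5) (EF.tv rfl q18_19 c6_18_19_5) (EF.tv rfl q19_19 c6_19_19_5) (EF.tv rfl q20_19 c6_20_19_5) (EF.tv rfl q21_19 c6_21_19_5) (EF.tv rfl q22_19 c6_22_19_5) (EF.tv rfl q23_19 c6_23_19_5) (EF.tv rfl q24_19 c6_24_19_5) (EF.tv rfl q25_19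 c6_25_19_5) (EF.tv rfl q26_19 c6_26_19_5) (EF.tv rfl q27_19 c6_27_19_5) (EF.tv rfl q28_19 c6_28_19_5) (EF.tv rfl q29_19 c6_29_19_5) (EF.tv rfl q30_19 c6_30_19_5) (EF.tv rfl q31_19 c6_31_19_5) (EF.tv rfl q32_19 c6_32_19_5) (EF.tv rfl q33_19 c6_33_19_5) (EF.tv rfl q34_19 c6_34_19_5) (EF.tv rfl q35_19 c6_35_19_5) (EF.tv rfl q36_19 c6_36_19_5) (EF.tv rfl q37_19 c6_37_19_5) (EF.tv rfl q38_19 c6_38_19_5) (EF.far g39_19) (EF.far g40_19) (EF.far g41_19) (EF.far g42_19) (EF.far g43_19) (EF.far g44_19) (EF.far g45_19) (EF.far g46_19)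

theorem f6_19_6 : ∀ tc ∈ tl, EF tc d19 e6_19_6 :=
  tl_forall (EF.tv rfl q0_19 c6_0_19_6) (EF.tv rfl q1_19 c6_1_19_6) (EF.tv rfl q2_19 c6_2_19_6) (EF.tv rfl q3_19 c6_3_19_6) (EF.tv rfl q4_19 c6_4_19_6) (EF.tv rfl q5_19 c6_5_19_6) (EF.tv rfl q6_19 c6_6_19_6) (EF.tv rfl q7_19 c6_7_19_6) (EF.tv rfl q8_19 c6_8_19_6) (EF.tv rfl q9_19 c6_9_19_6) (EF.tv rfl q10_19 c6_10_19_6) (EF.tv rfl q11_19 c6_11_19_6) (EF.tv rfl q12_19 c6_12_19_6) (EF.tv rfl q13_19 c6_13_19_6) (EF.tv rfl q14_19 c6_14_19_6) (EF.tv rfl q15_19 c6_15_19_6) (EF.tv rfl q16_19 c6_16_19_6) (EF.tv rfl q17_19 c6_17_19_6) (EF.tv rfl q18_19 c6_18_19_6) (EF.tv rfl q19_19 c6_19_19_6) (EF.tv rfl q20_19 c6_20_19_6) (EF.tv rfl q21_19 c6_21_19_6) (EF.tv rfl q22_19 c6_22_19_6) (EF.tv rfl q23_19 c6_23_19_6) (EF.tv rfl q24_19 c6_24_19_6) (EF.tv rfl q25_19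 c6_25_19_6) (EF.tv rfl q26_19 c6_26_19_6) (EF.tv rfl q27_19 c6_27_19_6) (EF.tv rfl q28_19 c6_28_19_6) (EF.tv rfl q29_19 c6_29_19_6) (EF.tv rfl q30_19 c6_30_19_6) (EF.tv rfl q31_19 c6_31_19_6) (EF.tv rfl q32_19 c6_32_19_6) (EF.tv rfl q33_19 c6_33_19_6) (EF.tv rfl q34_19 c6_34_19_6) (EF.tv rfl q35_19 c6_35_19_6) (EF.tv rfl q36_19 c6_36_19_6) (EF.tv rfl q37_19 c6_37_19_6) (EF.tv rfl q38_19 c6_38_19_6) (EF.far g39_19) (EF.far g40_19) (EF.far g41_19) (EF.far g42_19) (EF.far g43_19) (EF.far g44_19) (EF.far g45_19) (EF.far g46_19)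

theorem f6_19_7 : ∀ tc ∈ tl, EF tc d19 e6_19_7 :=
  tl_forall (EF.tv rfl q0_19 c6_0_19_7) (EF.tv rfl q1_19 c6_1_19_7) (EF.tv rfl q2_19 c6_2_19_7) (EF.tv rfl q3_19 c6_3_19_7) (EF.tv rfl q4_19 c6_4_19_7) (EF.tv rfl q5_19 c6_5_19_7) (EF.tv rfl q6_19 c6_6_19_7) (EF.tv rfl q7_19 c6_7_19_7) (EF.tv rfl q8_19 c6_8_19_7) (EF.tv rfl q9_19 c6_9_19_7) (EF.tv rfl q10_19 c6_10_19_7) (EF.tv rfl q11_19 c6_11_19_7) (EF.tv rfl q12_19 c6_12_19_7) (EF.tv rfl q13_19 c6_13_19_7) (EF.tv rfl q14_19 c6_14_19_7) (EF.tv rfl q15_19 c6_15_19_7) (EF.tv rfl q16_19 c6_16_19_7) (EF.tv rfl q17_19 c6_17_19_7) (EF.tv rfl q18_19 c6_18_19_7) (EF.tv rfl q19_19 c6_19_19_7) (EF.tv rfl q20_19 c6_20_19_7) (EF.tv rfl q21_19 c6_21_19_7) (EF.tv rfl q22_19 c6_22_19_7) (EF.tv rfl q23_19 c6_23_19_7) (EF.tv rfl q24_19 c6_24_19_7) (EF.tv rfl q25_19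 c6_25_19_7) (EF.tv rfl q26_19 c6_26_19_7) (EF.tv rfl q27_19 c6_27_19_7) (EF.tv rfl q28_19 c6_28_19_7) (EF.tv rfl q29_19 c6_29_19_7) (EF.tv rfl q30_19 c6_30_19_7) (EF.tv rfl q31_19 c6_31_19_7) (EF.tv rfl q32_19 c6_32_19_7) (EF.tv rfl q33_19 c6_33_19_7) (EF.tv rfl q34_19 c6_34_19_7) (EF.tv rfl q35_19 c6_35_19_7) (EF.tv rfl q36_19 c6_36_19_7) (EF.tv rfl q37_19 c6_37_19_7) (EF.tv rfl q38_19 c6_38_19_7) (EF.far g39_19) (EF.far g40_19) (EF.far g41_19) (EF.far g42_19) (EF.far g43_19) (EF.far g44_19) (EF.far g45_19) (EF.far g46_19)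

theorem f8_19_8 : ∀ tc ∈ tl, EF tc d19 e8_19_8 :=
  tl_forall (EF.tv rfl q0_19 c8_0_19_8) (EF.tv rfl q1_19 c8_1_19_8) (EF.tv rfl q2_19 c8_2_19_8) (EF.tv rfl q3_19 c8_3_19_8) (EF.tv rfl q4_19 c8_4_19_8) (EF.tv rfl q5_19 c8_5_19_8) (EF.tv rfl q6_19 c8_6_19_8) (EF.tv rfl q7_19 c8_7_19_8) (EF.tv rfl q8_19 c8_8_19_8) (EF.tv rfl q9_19 c8_9_19_8) (EF.tv rfl q10_19 c8_10_19_8) (EF.tv rfl q11_19 c8_11_19_8) (EF.tv rfl q12_19 c8_12_19_8) (EF.tv rfl q13_19 c8_13_19_8) (EF.tv rfl q14_19 c8_14_19_8) (EF.tv rfl q15_19 c8_15_19_8) (EF.tv rfl q16_19 c8_16_19_8) (EF.tv rfl q17_19 c8_17_19_8) (EF.tv rfl q18_19 c8_18_19_8) (EF.tv rfl q19_19 c8_19_19_8) (EF.tv rfl q20_19 c8_20_19_8) (EF.tv rfl q21_19 c8_21_19_8) (EF.tv rfl q22_19 c8_22_19_8) (EF.tv rfl q23_19 c8_23_19_8) (EF.tv rfl q24_19 c8_24_19_8) (EF.tv rfl q25_19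 c8_25_19_8) (EF.tv rfl q26_19 c8_26_19_8) (EF.tv rfl q27_19 c8_27_19_8) (EF.tv rfl q28_19 c8_28_19_8) (EF.tv rfl q29_19 c8_29_19_8) (EF.tv rfl q30_19 c8_30_19_8) (EF.tv rfl q31_19 c8_31_19_8) (EF.tv rfl q32_19 c8_32_19_8) (EF.tv rfl q33_19 c8_33_19_8) (EF.tv rfl q34_19 c8_34_19_8) (EF.tv rfl q35_19 c8_35_19_8) (EF.tv rfl q36_19 c8_36_19_8) (EF.tv rfl q37_19 c8_37_19_8) (EF.tv rfl q38_19 c8_38_19_8) (EF.far g39_19) (EF.far g40_19) (EF.far g41_19) (EF.far g42_19) (EF.far g43_19) (EF.far g44_19) (EF.far g45_19) (EF.far g46_19)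

theorem f8_19_9 : ∀ tc ∈ tl, EF tc d19 e8_19_9 :=
  tl_forall (EF.tv rfl q0_19 c8_0_19_9) (EF.tv rfl q1_19 c8_1_19_9) (EF.tv rfl q2_19 c8_2_19_9) (EF.tv rfl q3_19 c8_3_19_9) (EF.tv rfl q4_19 c8_4_19_9) (EF.tv rfl q5_19 c8_5_19_9) (EF.tv rfl q6_19 c8_6_19_9) (EF.tv rfl q7_19 c8_7_19_9) (EF.tv rfl q8_19 c8_8_19_9) (EF.tv rfl q9_19 c8_9_19_9) (EF.tv rfl q10_19 c8_10_19_9) (EF.tv rfl q11_19 c8_11_19_9) (EF.tv rfl q12_19 c8_12_19_9) (EF.tv rfl q13_19 c8_13_19_9) (EF.tv rfl q14_19 c8_14_19_9) (EF.tv rfl q15_19 c8_15_19_9) (EF.tv rfl q16_19 c8_16_19_9) (EF.tv rfl q17_19 c8_17_19_9) (EF.tv rfl q18_19 c8_18_19_9) (EF.tv rfl q19_19 c8_19_19_9) (EF.tv rfl q20_19 c8_20_19_9) (EF.tv rfl q21_19 c8_21_19_9) (EF.tv rfl q22_19 c8_22_19_9) (EF.tv rfl q23_19 c8_23_19_9) (EF.tv rfl q24_19 c8_24_19_9) (EF.tv rfl q25_19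 c8_25_19_9) (EF.tv rfl q26_19 c8_26_19_9) (EF.tv rfl q27_19 c8_27_19_9) (EF.tv rfl q28_19 c8_28_19_9) (EF.tv rfl q29_19 c8_29_19_9) (EF.tv rfl q30_19 c8_30_19_9) (EF.tv rfl q31_19 c8_31_19_9) (EF.tv rfl q32_19 c8_32_19_9) (EF.tv rfl q33_19 c8_33_19_9) (EF.tv rfl q34_19 c8_34_19_9) (EF.tv rfl q35_19 c8_35_19_9) (EF.tv rfl q36_19 c8_36_19_9) (EF.tv rfl q37_19 c8_37_19_9) (EF.tv rfl q38_19 c8_38_19_9) (EF.far g39_19) (EF.far g40_19) (EF.far g41_19) (EF.far g42_19) (EF.far g43_19) (EF.far g44_19) (EF.far g45_19) (EF.far g46_19)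

theorem h4_19 : EvC tl 4 (shK Dec.one 4) d19 :=
  EvC.of2 (tab := tabX 4) (Ls := [e4_19_0, e4_19_1, e4_19_2, e4_19_3]) (tabX_ok 4)
    (by decide +kernel) (by decide +kernel) (by
    intro L hL
    simp only [List.mem_cons, List.not_mem_nil, or_false] at hL
    rcases hL with rfl | rfl | rfl | rfl
    · exact f4_19_0
    · exact f4_19_1
    · exact f4_19_2
    · exact f4_19_3)

theorem h6_19 : EvC tl 6 (shK Dec.one 6) d19 :=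
  EvC.of2 (tab := tabX 6) (Ls := [e6_19_4, e6_19_5, e6_19_6, e6_19_7]) (tabX_ok 6)
    (by decide +kernel) (by decide +kernel) (by
    intro L hL
    simp only [List.mem_cons, List.not_mem_nil, or_false] at hL
    rcases hL with rfl | rfl | rfl | rfl
    · exact f6_19_4
    · exact f6_19_5
    · exact f6_19_6
    · exact f6_19_7)

theorem h8_19 : EvC tl 0 (shA Dec.one 106) d19 :=
  EvC.of2 (tab := tabX 0) (Ls := [e8_19_8, e8_19_9]) (tabX_ok 0)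
    (by decide +kernel) (by decide +kernel) (by
    intro L hL
    simp only [List.mem_cons, List.not_mem_nil, or_false] at hL
    rcases hL with rfl | rfl
    · exact f8_19_8
    · exact f8_19_9)

theorem hh_19 : EvC8 tl Dec.one d19 := EvC8.a h8_19

end Pool.Agent.TSE
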