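import Pool.Agent.TSE.C2_0
import Pool.Agent.TSE.C2_2
import Pool.Agent.TSE.C2_4
import Pool.Agent.TSE.C2_6
import Pool.Agent.TSE.C2_8
import Pool.Agent.TSE.C2_10
import Pool.Agent.TSE.C2_12
import Pool.Agent.TSE.C2_14
import Pool.Agent.TSE.C2_16
import Pool.Agent.TSE.C2_18
import Pool.Agent.TSE.C2_20
import Pool.Agent.TSE.C2_22
import Pool.Agent.TSE.C2_24
import Pool.Agent.TSE.C2_26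
import Pool.Agent.TSE.C2_28
import Pool.Agent.TSE.C2_30
import Pool.Agent.TSE.C2_32
import Pool.Agent.TSE.C2_34
import Pool.Agent.TSE.C2_36
import Pool.Agent.TSE.C2_38
import Pool.Agent.TSE.C2_40
import Pool.Agent.TSE.T
import Pool.Agent.TSE.BaseC
import Pool.Agent.TSG.TabX

set_option autoImplicit false

/-! # One interval of the total mass (MP_d27362_co) -/

namespace Pool.Agent.TSE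

open Pool.Agent.TSC
open Pool.Agent.TSC.Dec
open Pool.Agent.TSG


theorem kf2 : ∀ tc ∈ tl, Pool.Agent.TSK.KF tc d2 :=
  tl_forall (KF.tv rfl q0_2 c0_2) (KF.tv rfl q1_2 c1_2) (KF.tv rfl q2_2 c2_2) (KF.tv rfl q3_2 c3_2) (KF.tv rfl q4_2 c4_2) (KF.tv rfl q5_2 c5_2) (KF.tv rfl q6_2 c6_2) (KF.tv rfl q7_2 c7_2) (KF.tv rfl q8_2 c8_2) (KF.tv rfl q9_2 c9_2) (KF.tv rfl q10_2 c10_2) (KF.tv rfl q11_2 c11_2) (KF.tv rfl q12_2 c12_2) (KF.tv rfl q13_2 c13_2) (KF.tv rfl q14_2 c14_2) (KF.tv rfl q15_2 c15_2) (KF.tv rfl q16_2 c16_2) (KF.tv rfl q17_2 c17_2) (KF.tv rfl q18_2 c18_2) (KF.tv rfl q19_2 c19_2) (KF.tv rfl q20_2 c20_2) (KF.tv rfl q21_2 c21_2) (KF.tv rfl q22_2 c22_2) (KF.tv rfl q23_2 c23_2) (KF.tv rfl q24_2 c24_2) (KF.tv rfl q25_2 c25_2) (KF.tv rfl q26_2 c26_2)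 (KF.tv rfl q27_2 c27_2) (KF.tv rfl q28_2 c28_2) (KF.tv rfl q29_2 c29_2) (KF.tv rfl q30_2 c30_2) (KF.tv rfl q31_2 c31_2) (KF.tv rfl q32_2 c32_2) (KF.tv rfl q33_2 c33_2) (KF.tv rfl q34_2 c34_2) (KF.tv rfl q35_2 c35_2) (KF.tv rfl q36_2 c36_2) (KF.tv rfl q37_2 c37_2) (KF.tv rfl q38_2 c38_2) (KF.tv rfl q39_2 c39_2) (KF.tv rfl q40_2 c40_2) (KF.tv rfl q41_2 c41_2) (Pool.Agent.TSK.KF.far g42_2) (Pool.Agent.TSK.KF.far g43_2) (Pool.Agent.TSK.KF.far g44_2) (Pool.Agent.TSK.KF.far g45_2) (Pool.Agent.TSK.KF.far g46_2)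

theorem f4_2_0 : ∀ tc ∈ tl, EF tc d2 e4_2_0 :=
  tl_forall (EF.tv rfl q0_2 c4_0_2_0) (EF.tv rfl q1_2 c4_1_2_0) (EF.tv rfl q2_2 c4_2_2_0) (EF.tv rfl q3_2 c4_3_2_0) (EF.tv rfl q4_2 c4_4_2_0) (EF.tv rfl q5_2 c4_5_2_0) (EF.tv rfl q6_2 c4_6_2_0) (EF.tv rfl q7_2 c4_7_2_0) (EF.tv rfl q8_2 c4_8_2_0) (EF.tv rfl q9_2 c4_9_2_0) (EF.tv rfl q10_2 c4_10_2_0) (EF.tv rfl q11_2 c4_11_2_0) (EF.tv rfl q12_2 c4_12_2_0) (EF.tv rfl q13_2 c4_13_2_0) (EF.tv rfl q14_2 c4_14_2_0) (EF.tv rfl q15_2 c4_15_2_0) (EF.tv rfl q16_2 c4_16_2_0) (EF.tv rfl q17_2 c4_17_2_0) (EF.tv rfl q18_2 c4_18_2_0) (EF.tv rfl q19_2 c4_19_2_0) (EF.tv rfl q20_2 c4_20_2_0) (EF.tv rfl q21_2 c4_21_2_0) (EF.tv rfl q22_2 c4_22_2_0) (EF.tv rfl q23_2 c4_23_2_0) (EF.tv rfl q24_2 c4_24_2_0) (EF.tv rfl q25_2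 c4_25_2_0) (EF.tv rfl q26_2 c4_26_2_0) (EF.tv rfl q27_2 c4_27_2_0) (EF.tv rfl q28_2 c4_28_2_0) (EF.tv rfl q29_2 c4_29_2_0) (EF.tv rfl q30_2 c4_30_2_0) (EF.tv rfl q31_2 c4_31_2_0) (EF.tv rfl q32_2 c4_32_2_0) (EF.tv rfl q33_2 c4_33_2_0) (EF.tv rfl q34_2 c4_34_2_0) (EF.tv rfl q35_2 c4_35_2_0) (EF.tv rfl q36_2 c4_36_2_0) (EF.tv rfl q37_2 c4_37_2_0) (EF.tv rfl q38_2 c4_38_2_0) (EF.tv rfl q39_2 c4_39_2_0) (EF.tv rfl q40_2 c4_40_2_0) (EF.tv rfl q41_2 c4_41_2_0) (EF.far g42_2) (EF.far g43_2) (EF.far g44_2) (EF.far g45_2) (EF.far g46_2)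

theorem f4_2_1 : ∀ tc ∈ tl, EF tc d2 e4_2_1 :=
  tl_forall (EF.tv rfl q0_2 c4_0_2_1) (EF.tv rfl q1_2 c4_1_2_1) (EF.tv rfl q2_2 c4_2_2_1) (EF.tv rfl q3_2 c4_3_2_1) (EF.tv rfl q4_2 c4_4_2_1) (EF.tv rfl q5_2 c4_5_2_1) (EF.tv rfl q6_2 c4_6_2_1) (EF.tv rfl q7_2 c4_7_2_1) (EF.tv rfl q8_2 c4_8_2_1) (EF.tv rfl q9_2 c4_9_2_1) (EF.tv rfl q10_2 c4_10_2_1) (EF.tv rfl q11_2 c4_11_2_1) (EF.tv rfl q12_2 c4_12_2_1) (EF.tv rfl q13_2 c4_13_2_1) (EF.tv rfl q14_2 c4_14_2_1) (EF.tv rfl q15_2 c4_15_2_1) (EF.tv rfl q16_2 c4_16_2_1) (EF.tv rfl q17_2 c4_17_2_1) (EF.tv rfl q18_2 c4_18_2_1) (EF.tv rfl q19_2 c4_19_2_1) (EF.tv rfl q20_2 c4_20_2_1) (EF.tv rfl q21_2 c4_21_2_1) (EF.tv rfl q22_2 c4_22_2_1) (EF.tv rfl q23_2 c4_23_2_1) (EF.tv rfl q24_2 c4_24_2_1) (EF.tv rfl q25_2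 c4_25_2_1) (EF.tv rfl q26_2 c4_26_2_1) (EF.tv rfl q27_2 c4_27_2_1) (EF.tv rfl q28_2 c4_28_2_1) (EF.tv rfl q29_2 c4_29_2_1) (EF.tv rfl q30_2 c4_30_2_1) (EF.tv rfl q31_2 c4_31_2_1) (EF.tv rfl q32_2 c4_32_2_1) (EF.tv rfl q33_2 c4_33_2_1) (EF.tv rfl q34_2 c4_34_2_1) (EF.tv rfl q35_2 c4_35_2_1) (EF.tv rfl q36_2 c4_36_2_1) (EF.tv rfl q37_2 c4_37_2_1) (EF.tv rfl q38_2 c4_38_2_1) (EF.tv rfl q39_2 c4_39_2_1) (EF.tv rfl q40_2 c4_40_2_1) (EF.tv rfl q41_2 c4_41_2_1) (EF.far g42_2) (EF.far g43_2) (EF.far g44_2) (EF.far g45_2) (EF.far g46_2)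

theorem f4_2_2 : ∀ tc ∈ tl, EF tc d2 e4_2_2 :=
  tl_forall (EF.tv rfl q0_2 c4_0_2_2) (EF.tv rfl q1_2 c4_1_2_2) (EF.tv rfl q2_2 c4_2_2_2) (EF.tv rfl q3_2 c4_3_2_2) (EF.tv rfl q4_2 c4_4_2_2) (EF.tv rfl q5_2 c4_5_2_2) (EF.tv rfl q6_2 c4_6_2_2) (EF.tv rfl q7_2 c4_7_2_2) (EF.tv rfl q8_2 c4_8_2_2) (EF.tv rfl q9_2 c4_9_2_2) (EF.tv rfl q10_2 c4_10_2_2) (EF.tv rfl q11_2 c4_11_2_2) (EF.tv rfl q12_2 c4_12_2_2) (EF.tv rfl q13_2 c4_13_2_2) (EF.tv rfl q14_2 c4_14_2_2) (EF.tv rfl q15_2 c4_15_2_2) (EF.tv rfl q16_2 c4_16_2_2) (EF.tv rfl q17_2 c4_17_2_2) (EF.tv rfl q18_2 c4_18_2_2) (EF.tv rfl q19_2 c4_19_2_2) (EF.tv rfl q20_2 c4_20_2_2) (EF.tv rfl q21_2 c4_21_2_2) (EF.tv rfl q22_2 c4_22_2_2) (EF.tv rfl q23_2 c4_23_2_2) (EF.tv rfl q24_2 c4_24_2_2) (EF.tv rfl q25_2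 c4_25_2_2) (EF.tv rfl q26_2 c4_26_2_2) (EF.tv rfl q27_2 c4_27_2_2) (EF.tv rfl q28_2 c4_28_2_2) (EF.tv rfl q29_2 c4_29_2_2) (EF.tv rfl q30_2 c4_30_2_2) (EF.tv rfl q31_2 c4_31_2_2) (EF.tv rfl q32_2 c4_32_2_2) (EF.tv rfl q33_2 c4_33_2_2) (EF.tv rfl q34_2 c4_34_2_2) (EF.tv rfl q35_2 c4_35_2_2) (EF.tv rfl q36_2 c4_36_2_2) (EF.tv rfl q37_2 c4_37_2_2) (EF.tv rfl q38_2 c4_38_2_2) (EF.tv rfl q39_2 c4_39_2_2) (EF.tv rfl q40_2 c4_40_2_2) (EF.tv rfl q41_2 c4_41_2_2) (EF.far g42_2) (EF.far g43_2) (EF.far g44_2) (EF.far g45_2) (EF.far g46_2)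

theorem f4_2_3 : ∀ tc ∈ tl, EF tc d2 e4_2_3 :=
  tl_forall (EF.tv rfl q0_2 c4_0_2_3) (EF.tv rfl q1_2 c4_1_2_3) (EF.tv rfl q2_2 c4_2_2_3) (EF.tv rfl q3_2 c4_3_2_3) (EF.tv rfl q4_2 c4_4_2_3) (EF.tv rfl q5_2 c4_5_2_3) (EF.tv rfl q6_2 c4_6_2_3) (EF.tv rfl q7_2 c4_7_2_3) (EF.tv rfl q8_2 c4_8_2_3) (EF.tv rfl q9_2 c4_9_2_3) (EF.tv rfl q10_2 c4_10_2_3) (EF.tv rfl q11_2 c4_11_2_3) (EF.tv rfl q12_2 c4_12_2_3) (EF.tv rfl q13_2 c4_13_2_3) (EF.tv rfl q14_2 c4_14_2_3) (EF.tv rfl q15_2 c4_15_2_3) (EF.tv rfl q16_2 c4_16_2_3) (EF.tv rfl q17_2 c4_17_2_3) (EF.tv rfl q18_2 c4_18_2_3) (EF.tv rfl q19_2 c4_19_2_3) (EF.tv rfl q20_2 c4_20_2_3) (EF.tv rfl q21_2 c4_21_2_3) (EF.tv rfl q22_2 c4_22_2_3) (EF.tv rfl q23_2 c4_23_2_3) (EF.tv rfl q24_2 c4_24_2_3) (EF.tv rfl q25_2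 c4_25_2_3) (EF.tv rfl q26_2 c4_26_2_3) (EF.tv rfl q27_2 c4_27_2_3) (EF.tv rfl q28_2 c4_28_2_3) (EF.tv rfl q29_2 c4_29_2_3) (EF.tv rfl q30_2 c4_30_2_3) (EF.tv rfl q31_2 c4_31_2_3) (EF.tv rfl q32_2 c4_32_2_3) (EF.tv rfl q33_2 c4_33_2_3) (EF.tv rfl q34_2 c4_34_2_3) (EF.tv rfl q35_2 c4_35_2_3) (EF.tv rfl q36_2 c4_36_2_3) (EF.tv rfl q37_2 c4_37_2_3) (EF.tv rfl q38_2 c4_38_2_3) (EF.tv rfl q39_2 c4_39_2_3) (EF.tv rfl q40_2 c4_40_2_3) (EF.tv rfl q41_2 c4_41_2_3) (EF.far g42_2) (EF.far g43_2) (EF.far g44_2) (EF.far g45_2) (EF.far g46_2)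

theorem f6_2_4 : ∀ tc ∈ tl, EF tc d2 e6_2_4 :=
  tl_forall (EF.tv rfl q0_2 c6_0_2_4) (EF.tv rfl q1_2 c6_1_2_4) (EF.tv rfl q2_2 c6_2_2_4) (EF.tv rfl q3_2 c6_3_2_4) (EF.tv rfl q4_2 c6_4_2_4) (EF.tv rfl q5_2 c6_5_2_4) (EF.tv rfl q6_2 c6_6_2_4) (EF.tv rfl q7_2 c6_7_2_4) (EF.tv rfl q8_2 c6_8_2_4) (EF.tv rfl q9_2 c6_9_2_4) (EF.tv rfl q10_2 c6_10_2_4) (EF.tv rfl q11_2 c6_11_2_4) (EF.tv rfl q12_2 c6_12_2_4) (EF.tv rfl q13_2 c6_13_2_4) (EF.tv rfl q14_2 c6_14_2_4) (EF.tv rfl q15_2 c6_15_2_4) (EF.tv rfl q16_2 c6_16_2_4) (EF.tv rfl q17_2 c6_17_2_4) (EF.tv rfl q18_2 c6_18_2_4) (EF.tv rfl q19_2 c6_19_2_4) (EF.tv rfl q20_2 c6_20_2_4) (EF.tv rfl q21_2 c6_21_2_4) (EF.tv rfl q22_2 c6_22_2_4) (EF.tv rfl q23_2 c6_23_2_4) (EF.tv rfl q24_2 c6_24_2_4) (EF.tv rfl q25_2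 c6_25_2_4) (EF.tv rfl q26_2 c6_26_2_4) (EF.tv rfl q27_2 c6_27_2_4) (EF.tv rfl q28_2 c6_28_2_4) (EF.tv rfl q29_2 c6_29_2_4) (EF.tv rfl q30_2 c6_30_2_4) (EF.tv rfl q31_2 c6_31_2_4) (EF.tv rfl q32_2 c6_32_2_4) (EF.tv rfl q33_2 c6_33_2_4) (EF.tv rfl q34_2 c6_34_2_4) (EF.tv rfl q35_2 c6_35_2_4) (EF.tv rfl q36_2 c6_36_2_4) (EF.tv rfl q37_2 c6_37_2_4) (EF.tv rfl q38_2 c6_38_2_4) (EF.tv rfl q39_2 c6_39_2_4) (EF.tv rfl q40_2 c6_40_2_4) (EF.tv rfl q41_2 c6_41_2_4) (EF.far g42_2) (EF.far g43_2) (EF.far g44_2) (EF.far g45_2) (EF.far g46_2)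

theorem f6_2_5 : ∀ tc ∈ tl, EF tc d2 e6_2_5 :=
  tl_forall (EF.tv rfl q0_2 c6_0_2_5) (EF.tv rfl q1_2 c6_1_2_5) (EF.tv rfl q2_2 c6_2_2_5) (EF.tv rfl q3_2 c6_3_2_5) (EF.tv rfl q4_2 c6_4_2_5) (EF.tv rfl q5_2 c6_5_2_5) (EF.tv rfl q6_2 c6_6_2_5) (EF.tv rfl q7_2 c6_7_2_5) (EF.tv rfl q8_2 c6_8_2_5) (EF.tv rfl q9_2 c6_9_2_5) (EF.tv rfl q10_2 c6_10_2_5) (EF.tv rfl q11_2 c6_11_2_5) (EF.tv rfl q12_2 c6_12_2_5) (EF.tv rfl q13_2 c6_13_2_5) (EF.tv rfl q14_2 c6_14_2_5) (EF.tv rfl q15_2 c6_15_2_5) (EF.tv rfl q16_2 c6_16_2_5) (EF.tv rfl q17_2 c6_17_2_5) (EF.tv rfl q18_2 c6_18_2_5) (EF.tv rfl q19_2 c6_19_2_5) (EF.tv rfl q20_2 c6_20_2_5) (EF.tv rfl q21_2 c6_21_2_5) (EF.tv rfl q22_2 c6_22_2_5) (EF.tv rfl q23_2 c6_23_2_5) (EF.tv rfl q24_2 c6_24_2_5) (EF.tv rfl q25_2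 c6_25_2_5) (EF.tv rfl q26_2 c6_26_2_5) (EF.tv rfl q27_2 c6_27_2_5) (EF.tv rfl q28_2 c6_28_2_5) (EF.tv rfl q29_2 c6_29_2_5) (EF.tv rfl q30_2 c6_30_2_5) (EF.tv rfl q31_2 c6_31_2_5) (EF.tv rfl q32_2 c6_32_2_5) (EF.tv rfl q33_2 c6_33_2_5) (EF.tv rfl q34_2 c6_34_2_5) (EF.tv rfl q35_2 c6_35_2_5) (EF.tv rfl q36_2 c6_36_2_5) (EF.tv rfl q37_2 c6_37_2_5) (EF.tv rfl q38_2 c6_38_2_5) (EF.tv rfl q39_2 c6_39_2_5) (EF.tv rfl q40_2 c6_40_2_5) (EF.tv rfl q41_2 c6_41_2_5) (EF.far g42_2) (EF.far g43_2) (EF.far g44_2) (EF.far g45_2) (EF.far g46_2)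

theorem f6_2_6 : ∀ tc ∈ tl, EF tc d2 e6_2_6 :=
  tl_forall (EF.tv rfl q0_2 c6_0_2_6) (EF.tv rfl q1_2 c6_1_2_6) (EF.tv rfl q2_2 c6_2_2_6) (EF.tv rfl q3_2 c6_3_2_6) (EF.tv rfl q4_2 c6_4_2_6) (EF.tv rfl q5_2 c6_5_2_6) (EF.tv rfl q6_2 c6_6_2_6) (EF.tv rfl q7_2 c6_7_2_6) (EF.tv rfl q8_2 c6_8_2_6) (EF.tv rfl q9_2 c6_9_2_6) (EF.tv rfl q10_2 c6_10_2_6) (EF.tv rfl q11_2 c6_11_2_6) (EF.tv rfl q12_2 c6_12_2_6) (EF.tv rfl q13_2 c6_13_2_6) (EF.tv rfl q14_2 c6_14_2_6) (EF.tv rfl q15_2 c6_15_2_6) (EF.tv rfl q16_2 c6_16_2_6) (EF.tv rfl q17_2 c6_17_2_6) (EF.tv rfl q18_2 c6_18_2_6) (EF.tv rfl q19_2 c6_19_2_6) (EF.tv rfl q20_2 c6_20_2_6) (EF.tv rfl q21_2 c6_21_2_6) (EF.tv rfl q22_2 c6_22_2_6) (EF.tv rfl q23_2 c6_23_2_6) (EF.tv rfl q24_2 c6_24_2_6) (EF.tv rfl q25_2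 c6_25_2_6) (EF.tv rfl q26_2 c6_26_2_6) (EF.tv rfl q27_2 c6_27_2_6) (EF.tv rfl q28_2 c6_28_2_6) (EF.tv rfl q29_2 c6_29_2_6) (EF.tv rfl q30_2 c6_30_2_6) (EF.tv rfl q31_2 c6_31_2_6) (EF.tv rfl q32_2 c6_32_2_6) (EF.tv rfl q33_2 c6_33_2_6) (EF.tv rfl q34_2 c6_34_2_6) (EF.tv rfl q35_2 c6_35_2_6) (EF.tv rfl q36_2 c6_36_2_6) (EF.tv rfl q37_2 c6_37_2_6) (EF.tv rfl q38_2 c6_38_2_6) (EF.tv rfl q39_2 c6_39_2_6) (EF.tv rfl q40_2 c6_40_2_6) (EF.tv rfl q41_2 c6_41_2_6) (EF.far g42_2) (EF.far g43_2) (EF.far g44_2) (EF.far g45_2) (EF.far g46_2)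

theorem f6_2_7 : ∀ tc ∈ tl, EF tc d2 e6_2_7 :=
  tl_forall (EF.tv rfl q0_2 c6_0_2_7) (EF.tv rfl q1_2 c6_1_2_7) (EF.tv rfl q2_2 c6_2_2_7) (EF.tv rfl q3_2 c6_3_2_7) (EF.tv rfl q4_2 c6_4_2_7) (EF.tv rfl q5_2 c6_5_2_7) (EF.tv rfl q6_2 c6_6_2_7) (EF.tv rfl q7_2 c6_7_2_7) (EF.tv rfl q8_2 c6_8_2_7) (EF.tv rfl q9_2 c6_9_2_7) (EF.tv rfl q10_2 c6_10_2_7) (EF.tv rfl q11_2 c6_11_2_7) (EF.tv rfl q12_2 c6_12_2_7) (EF.tv rfl q13_2 c6_13_2_7) (EF.tv rfl q14_2 c6_14_2_7) (EF.tv rfl q15_2 c6_15_2_7) (EF.tv rfl q16_2 c6_16_2_7) (EF.tv rfl q17_2 c6_17_2_7) (EF.tv rfl q18_2 c6_18_2_7) (EF.tv rfl q19_2 c6_19_2_7) (EF.tv rfl q20_2 c6_20_2_7) (EF.tv rfl q21_2 c6_21_2_7) (EF.tv rfl q22_2 c6_22_2_7) (EF.tv rfl q23_2 c6_23_2_7) (EF.tv rfl q24_2 c6_24_2_7) (EF.tv rfl q25_2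 c6_25_2_7) (EF.tv rfl q26_2 c6_26_2_7) (EF.tv rfl q27_2 c6_27_2_7) (EF.tv rfl q28_2 c6_28_2_7) (EF.tv rfl q29_2 c6_29_2_7) (EF.tv rfl q30_2 c6_30_2_7) (EF.tv rfl q31_2 c6_31_2_7) (EF.tv rfl q32_2 c6_32_2_7) (EF.tv rfl q33_2 c6_33_2_7) (EF.tv rfl q34_2 c6_34_2_7) (EF.tv rfl q35_2 c6_35_2_7) (EF.tv rfl q36_2 c6_36_2_7) (EF.tv rfl q37_2 c6_37_2_7) (EF.tv rfl q38_2 c6_38_2_7) (EF.tv rfl q39_2 c6_39_2_7) (EF.tv rfl q40_2 c6_40_2_7) (EF.tv rfl q41_2 c6_41_2_7) (EF.far g42_2) (EF.far g43_2) (EF.far g44_2) (EF.far g45_2) (EF.far g46_2)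

theorem f8_2_8 : ∀ tc ∈ tl, EF tc d2 e8_2_8 :=
  tl_forall (EF.tv rfl q0_2 c8_0_2_8) (EF.tv rfl q1_2 c8_1_2_8) (EF.tv rfl q2_2 c8_2_2_8) (EF.tv rfl q3_2 c8_3_2_8) (EF.tv rfl q4_2 c8_4_2_8) (EF.tv rfl q5_2 c8_5_2_8) (EF.tv rfl q6_2 c8_6_2_8) (EF.tv rfl q7_2 c8_7_2_8) (EF.tv rfl q8_2 c8_8_2_8) (EF.tv rfl q9_2 c8_9_2_8) (EF.tv rfl q10_2 c8_10_2_8) (EF.tv rfl q11_2 c8_11_2_8) (EF.tv rfl q12_2 c8_12_2_8) (EF.tv rfl q13_2 c8_13_2_8) (EF.tv rfl q14_2 c8_14_2_8) (EF.tv rfl q15_2 c8_15_2_8) (EF.tv rfl q16_2 c8_16_2_8) (EF.tv rfl q17_2 c8_17_2_8) (EF.tv rfl q18_2 c8_18_2_8) (EF.tv rfl q19_2 c8_19_2_8) (EF.tv rfl q20_2 c8_20_2_8) (EF.tv rfl q21_2 c8_21_2_8) (EF.tv rfl q22_2 c8_22_2_8) (EF.tv rfl q23_2 c8_23_2_8) (EF.tv rfl q24_2 c8_24_2_8) (EF.tv rfl q25_2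 c8_25_2_8) (EF.tv rfl q26_2 c8_26_2_8) (EF.tv rfl q27_2 c8_27_2_8) (EF.tv rfl q28_2 c8_28_2_8) (EF.tv rfl q29_2 c8_29_2_8) (EF.tv rfl q30_2 c8_30_2_8) (EF.tv rfl q31_2 c8_31_2_8) (EF.tv rfl q32_2 c8_32_2_8) (EF.tv rfl q33_2 c8_33_2_8) (EF.tv rfl q34_2 c8_34_2_8) (EF.tv rfl q35_2 c8_35_2_8) (EF.tv rfl q36_2 c8_36_2_8) (EF.tv rfl q37_2 c8_37_2_8) (EF.tv rfl q38_2 c8_38_2_8) (EF.tv rfl q39_2 c8_39_2_8) (EF.tv rfl q40_2 c8_40_2_8) (EF.tv rfl q41_2 c8_41_2_8) (EF.far g42_2) (EF.far g43_2) (EF.far g44_2) (EF.far g45_2) (EF.far g46_2)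

theorem f8_2_9 : ∀ tc ∈ tl, EF tc d2 e8_2_9 :=
  tl_forall (EF.tv rfl q0_2 c8_0_2_9) (EF.tv rfl q1_2 c8_1_2_9) (EF.tv rfl q2_2 c8_2_2_9) (EF.tv rfl q3_2 c8_3_2_9) (EF.tv rfl q4_2 c8_4_2_9) (EF.tv rfl q5_2 c8_5_2_9) (EF.tv rfl q6_2 c8_6_2_9) (EF.tv rfl q7_2 c8_7_2_9) (EF.tv rfl q8_2 c8_8_2_9) (EF.tv rfl q9_2 c8_9_2_9) (EF.tv rfl q10_2 c8_10_2_9) (EF.tv rfl q11_2 c8_11_2_9) (EF.tv rfl q12_2 c8_12_2_9) (EF.tv rfl q13_2 c8_13_2_9) (EF.tv rfl q14_2 c8_14_2_9) (EF.tv rfl q15_2 c8_15_2_9) (EF.tv rfl q16_2 c8_16_2_9) (EF.tv rfl q17_2 c8_17_2_9) (EF.tv rfl q18_2 c8_18_2_9) (EF.tv rfl q19_2 c8_19_2_9) (EF.tv rfl q20_2 c8_20_2_9) (EF.tv rfl q21_2 c8_21_2_9) (EF.tv rfl q22_2 c8_22_2_9) (EF.tv rfl q23_2 c8_23_2_9) (EF.tv rfl q24_2 c8_24_2_9) (EF.tv rfl q25_2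 c8_25_2_9) (EF.tv rfl q26_2 c8_26_2_9) (EF.tv rfl q27_2 c8_27_2_9) (EF.tv rfl q28_2 c8_28_2_9) (EF.tv rfl q29_2 c8_29_2_9) (EF.tv rfl q30_2 c8_30_2_9) (EF.tv rfl q31_2 c8_31_2_9) (EF.tv rfl q32_2 c8_32_2_9) (EF.tv rfl q33_2 c8_33_2_9) (EF.tv rfl q34_2 c8_34_2_9) (EF.tv rfl q35_2 c8_35_2_9) (EF.tv rfl q36_2 c8_36_2_9) (EF.tv rfl q37_2 c8_37_2_9) (EF.tv rfl q38_2 c8_38_2_9) (EF.tv rfl q39_2 c8_39_2_9) (EF.tv rfl q40_2 c8_40_2_9) (EF.tv rfl q41_2 c8_41_2_9) (EF.far g42_2) (EF.far g43_2) (EF.far g44_2) (EF.far g45_2) (EF.far g46_2)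

theorem h4_2 : EvC tl 4 (shK Dec.one 4) d2 :=
  EvC.of2 (tab := tabX 4) (Ls := [e4_2_0, e4_2_1, e4_2_2, e4_2_3]) (tabX_ok 4)
    (by decide +kernel) (by decide +kernel) (by
    intro L hL
    simp only [List.mem_cons, List.not_mem_nil, or_false] at hL
    rcases hL with rfl | rfl | rfl | rfl
    · exact f4_2_0
    · exact f4_2_1
    · exact f4_2_2
    · exact f4_2_3)

theorem h6_2 : EvC tl 6 (shK Dec.one 6) d2 :=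
  EvC.of2 (tab := tabX 6) (Ls := [e6_2_4, e6_2_5, e6_2_6, e6_2_7]) (tabX_ok 6)
    (by decide +kernel) (by decide +kernel) (by
    intro L hL
    simp only [List.mem_cons, List.not_mem_nil, or_false] at hL
    rcases hL with rfl | rfl | rfl | rfl
    · exact f6_2_4
    · exact f6_2_5
    · exact f6_2_6
    · exact f6_2_7)

theorem h8_2 : EvC tl 0 (shA Dec.one 106) d2 :=
  EvC.of2 (tab := tabX 0) (Ls := [e8_2_8, e8_2_9]) (tabX_ok 0)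
    (by decide +kernel) (by decide +kernel) (by
    intro L hL
    simp only [List.mem_cons, List.not_mem_nil, or_false] at hL
    rcases hL with rfl | rfl
    · exact f8_2_8
    · exact f8_2_9)

theorem hh_2 : EvC8 tl Dec.one d2 := EvC8.a h8_2

end Pool.Agent.TSE
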