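import Pool.Agent.TSE.C21_0
import Pool.Agent.TSE.C21_2
import Pool.Agent.TSE.C21_4
import Pool.Agent.TSE.C21_6
import Pool.Agent.TSE.C21_8
import Pool.Agent.TSE.C21_10
import Pool.Agent.TSE.C21_12
import Pool.Agent.TSE.C21_14
import Pool.Agent.TSE.C21_16
import Pool.Agent.TSE.C21_18
import Pool.Agent.TSE.C21_20
import Pool.Agent.TSE.C21_22
import Pool.Agent.TSE.C21_24
import Pool.Agent.TSE.C21_26
import Pool.Agent.TSE.C21_28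
import Pool.Agent.TSE.C21_30
import Pool.Agent.TSE.C21_32
import Pool.Agent.TSE.C21_34
import Pool.Agent.TSE.T
import Pool.Agent.TSE.BaseC
import Pool.Agent.TSG.TabX

set_option autoImplicit false

/-! # One interval of the total mass (MP_d27362_co) -/

namespace Pool.Agent.TSE

open Pool.Agent.TSC
open Pool.Agent.TSC.Dec
open Pool.Agent.TSG


theorem kf21 : ∀ tc ∈ tl, Pool.Agent.TSK.KF tc d21 :=
  tl_forall (KF.tv rfl q0_21 c0_21) (KF.tv rfl q1_21 c1_21) (KF.tv rfl q2_21 c2_21) (KF.tv rfl q3_21 c3_21) (KF.tv rfl q4_21 c4_21) (KF.tv rfl q5_21 c5_21) (KF.tv rfl q6_21 c6_21) (KF.tv rfl q7_21 c7_21) (KF.tv rfl q8_21 c8_21) (KF.tv rfl q9_21 c9_21) (KF.tv rfl q10_21 c10_21) (KF.tv rfl q11_21 c11_21) (KF.tv rfl q12_21 c12_21) (KF.tv rfl q13_21 c13_21) (KF.tv rfl q14_21 c14_21) (KF.tv rfl q15_21 c15_21) (KF.tv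 rfl q16_21 c16_21) (KF.tv rfl q17_21 c17_21) (KF.tv rfl q18_21 c18_21) (KF.tv rfl q19_21 c19_21) (KF.tv rfl q20_21 c20_21) (KF.tv rfl q21_21 c21_21) (KF.tv rfl q22_21 c22_21) (KF.tv rfl q23_21 c23_21) (KF.tv rfl q24_21 c24_21) (KF.tv rfl q25_21 c25_21) (KF.tv rfl q26_21 c26_21) (KF.tv rfl q27_21 c27_21) (KF.tv rfl q28_21 c28_21) (KF.tv rfl q29_21 c29_21) (KF.tv rfl q30_21 c30_21) (KF.tv rfl q31_21 c31_21) (KF.tv rfl q32_21 c32_21) (KF.tv rfl q33_21 c33_21) (KF.tv rfl q34_21 c34_21) (Pool.Agent.TSK.KF.far g35_21) (Pool.Agent.TSK.KF.far g36_21) (Pool.Agent.TSK.KF.far g37_21) (Pool.Agent.TSK.KF.far g38_21) (Pool.Agent.TSK.KF.far g39_21) (Pool.Agent.TSK.KF.far g40_21) (Pool.Agent.TSK.KF.far g41_21) (Pool.Agent.TSK.KF.far g42_21) (Pool.Agent.TSK.KF.far g43_21) (Pool.Agent.TSK.KF.far g44_21) (Pool.Agent.TSK.KF.far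 g45_21) (Pool.Agent.TSK.KF.far g46_21)

theorem f4_21_0 : ∀ tc ∈ tl, EF tc d21 e4_21_0 :=
  tl_forall (EF.tv rfl q0_21 c4_0_21_0) (EF.tv rfl q1_21 c4_1_21_0) (EF.tv rfl q2_21 c4_2_21_0) (EF.tv rfl q3_21 c4_3_21_0) (EF.tv rfl q4_21 c4_4_21_0) (EF.tv rfl q5_21 c4_5_21_0) (EF.tv rfl q6_21 c4_6_21_0) (EF.tv rfl q7_21 c4_7_21_0) (EF.tv rfl q8_21 c4_8_21_0) (EF.tv rfl q9_21 c4_9_21_0) (EF.tv rfl q10_21 c4_10_21_0) (EF.tv rfl q11_21 c4_11_21_0) (EF.tv rfl q12_21 c4_12_21_0) (EF.tv rfl q13_21 c4_13_21_0) (EF.tv rfl q14_21 c4_14_21_0) (EF.tv rfl q15_21 c4_15_21_0) (EF.tv rfl q16_21 c4_16_21_0) (EF.tv rfl q17_21 c4_17_21_0) (EF.tv rfl q18_21 c4_18_21_0) (EF.tv rfl q19_21 c4_19_21_0) (EF.tv rfl q20_21 c4_20_21_0) (EF.tv rfl q21_21 c4_21_21_0) (EF.tv rfl q22_21 c4_22_21_0) (EF.tv rfl q23_21 c4_23_21_0) (EF.tv rfl q24_21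 c4_24_21_0) (EF.tv rfl q25_21 c4_25_21_0) (EF.tv rfl q26_21 c4_26_21_0) (EF.tv rfl q27_21 c4_27_21_0) (EF.tv rfl q28_21 c4_28_21_0) (EF.tv rfl q29_21 c4_29_21_0) (EF.tv rfl q30_21 c4_30_21_0) (EF.tv rfl q31_21 c4_31_21_0) (EF.tv rfl q32_21 c4_32_21_0) (EF.tv rfl q33_21 c4_33_21_0) (EF.tv rfl q34_21 c4_34_21_0) (EF.far g35_21) (EF.far g36_21) (EF.far g37_21) (EF.far g38_21) (EF.far g39_21) (EF.far g40_21) (EF.far g41_21) (EF.far g42_21) (EF.far g43_21) (EF.far g44_21) (EF.far g45_21) (EF.far g46_21)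

theorem f4_21_1 : ∀ tc ∈ tl, EF tc d21 e4_21_1 :=
  tl_forall (EF.tv rfl q0_21 c4_0_21_1) (EF.tv rfl q1_21 c4_1_21_1) (EF.tv rfl q2_21 c4_2_21_1) (EF.tv rfl q3_21 c4_3_21_1) (EF.tv rfl q4_21 c4_4_21_1) (EF.tv rfl q5_21 c4_5_21_1) (EF.tv rfl q6_21 c4_6_21_1) (EF.tv rfl q7_21 c4_7_21_1) (EF.tv rfl q8_21 c4_8_21_1) (EF.tv rfl q9_21 c4_9_21_1) (EF.tv rfl q10_21 c4_10_21_1) (EF.tv rfl q11_21 c4_11_21_1) (EF.tv rfl q12_21 c4_12_21_1) (EF.tv rfl q13_21 c4_13_21_1) (EF.tv rfl q14_21 c4_14_21_1) (EF.tv rfl q15_21 c4_15_21_1) (EF.tv rfl q16_21 c4_16_21_1) (EF.tv rfl q17_21 c4_17_21_1) (EF.tv rfl q18_21 c4_18_21_1) (EF.tv rfl q19_21 c4_19_21_1) (EF.tv rfl q20_21 c4_20_21_1) (EF.tv rfl q21_21 c4_21_21_1) (EF.tv rfl q22_21 c4_22_21_1) (EF.tv rfl q23_21 c4_23_21_1) (EF.tv rfl q24_21 c4_24_21_1) (EF.tv rfl q25_21 c4_25_21_1)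 (EF.tv rfl q26_21 c4_26_21_1) (EF.tv rfl q27_21 c4_27_21_1) (EF.tv rfl q28_21 c4_28_21_1) (EF.tv rfl q29_21 c4_29_21_1) (EF.tv rfl q30_21 c4_30_21_1) (EF.tv rfl q31_21 c4_31_21_1) (EF.tv rfl q32_21 c4_32_21_1) (EF.tv rfl q33_21 c4_33_21_1) (EF.tv rfl q34_21 c4_34_21_1) (EF.far g35_21) (EF.far g36_21) (EF.far g37_21) (EF.far g38_21) (EF.far g39_21) (EF.far g40_21) (EF.far g41_21) (EF.far g42_21) (EF.far g43_21) (EF.far g44_21) (EF.far g45_21) (EF.far g46_21)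

theorem f4_21_2 : ∀ tc ∈ tl, EF tc d21 e4_21_2 :=
  tl_forall (EF.tv rfl q0_21 c4_0_21_2) (EF.tv rfl q1_21 c4_1_21_2) (EF.tv rfl q2_21 c4_2_21_2) (EF.tv rfl q3_21 c4_3_21_2) (EF.tv rfl q4_21 c4_4_21_2) (EF.tv rfl q5_21 c4_5_21_2) (EF.tv rfl q6_21 c4_6_21_2) (EF.tv rfl q7_21 c4_7_21_2) (EF.tv rfl q8_21 c4_8_21_2) (EF.tv rfl q9_21 c4_9_21_2) (EF.tv rfl q10_21 c4_10_21_2) (EF.tv rfl q11_21 c4_11_21_2) (EF.tv rfl q12_21 c4_12_21_2) (EF.tv rfl q13_21 c4_13_21_2) (EF.tv rfl q14_21 c4_14_21_2) (EF.tv rfl q15_21 c4_15_21_2) (EF.tv rfl q16_21 c4_16_21_2) (EF.tv rfl q17_21 c4_17_21_2) (EF.tv rfl q18_21 c4_18_21_2) (EF.tv rfl q19_21 c4_19_21_2) (EF.tv rfl q20_21 c4_20_21_2) (EF.tv rfl q21_21 c4_21_21_2) (EF.tv rfl q22_21 c4_22_21_2) (EF.tv rfl q23_21 c4_23_21_2) (EF.tv rfl q24_21 c4_24_21_2) (EF.tv rfl q25_21 c4_25_21_2)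 (EF.tv rfl q26_21 c4_26_21_2) (EF.tv rfl q27_21 c4_27_21_2) (EF.tv rfl q28_21 c4_28_21_2) (EF.tv rfl q29_21 c4_29_21_2) (EF.tv rfl q30_21 c4_30_21_2) (EF.tv rfl q31_21 c4_31_21_2) (EF.tv rfl q32_21 c4_32_21_2) (EF.tv rfl q33_21 c4_33_21_2) (EF.tv rfl q34_21 c4_34_21_2) (EF.far g35_21) (EF.far g36_21) (EF.far g37_21) (EF.far g38_21) (EF.far g39_21) (EF.far g40_21) (EF.far g41_21) (EF.far g42_21) (EF.far g43_21) (EF.far g44_21) (EF.far g45_21) (EF.far g46_21)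

theorem f4_21_3 : ∀ tc ∈ tl, EF tc d21 e4_21_3 :=
  tl_forall (EF.tv rfl q0_21 c4_0_21_3) (EF.tv rfl q1_21 c4_1_21_3) (EF.tv rfl q2_21 c4_2_21_3) (EF.tv rfl q3_21 c4_3_21_3) (EF.tv rfl q4_21 c4_4_21_3) (EF.tv rfl q5_21 c4_5_21_3) (EF.tv rfl q6_21 c4_6_21_3) (EF.tv rfl q7_21 c4_7_21_3) (EF.tv rfl q8_21 c4_8_21_3) (EF.tv rfl q9_21 c4_9_21_3) (EF.tv rfl q10_21 c4_10_21_3) (EF.tv rfl q11_21 c4_11_21_3) (EF.tv rfl q12_21 c4_12_21_3) (EF.tv rfl q13_21 c4_13_21_3) (EF.tv rfl q14_21 c4_14_21_3) (EF.tv rfl q15_21 c4_15_21_3) (EF.tv rfl q16_21 c4_16_21_3) (EF.tv rfl q17_21 c4_17_21_3) (EF.tv rfl q18_21 c4_18_21_3) (EF.tv rfl q19_21 c4_19_21_3) (EF.tv rfl q20_21 c4_20_21_3) (EF.tv rfl q21_21 c4_21_21_3) (EF.tv rfl q22_21 c4_22_21_3) (EF.tv rfl q23_21 c4_23_21_3) (EF.tv rfl q24_21 c4_24_21_3) (EF.tv rfl q25_21 c4_25_21_3)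 (EF.tv rfl q26_21 c4_26_21_3) (EF.tv rfl q27_21 c4_27_21_3) (EF.tv rfl q28_21 c4_28_21_3) (EF.tv rfl q29_21 c4_29_21_3) (EF.tv rfl q30_21 c4_30_21_3) (EF.tv rfl q31_21 c4_31_21_3) (EF.tv rfl q32_21 c4_32_21_3) (EF.tv rfl q33_21 c4_33_21_3) (EF.tv rfl q34_21 c4_34_21_3) (EF.far g35_21) (EF.far g36_21) (EF.far g37_21) (EF.far g38_21) (EF.far g39_21) (EF.far g40_21) (EF.far g41_21) (EF.far g42_21) (EF.far g43_21) (EF.far g44_21) (EF.far g45_21) (EF.far g46_21)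

theorem f6_21_4 : ∀ tc ∈ tl, EF tc d21 e6_21_4 :=
  tl_forall (EF.tv rfl q0_21 c6_0_21_4) (EF.tv rfl q1_21 c6_1_21_4) (EF.tv rfl q2_21 c6_2_21_4) (EF.tv rfl q3_21 c6_3_21_4) (EF.tv rfl q4_21 c6_4_21_4) (EF.tv rfl q5_21 c6_5_21_4) (EF.tv rfl q6_21 c6_6_21_4) (EF.tv rfl q7_21 c6_7_21_4) (EF.tv rfl q8_21 c6_8_21_4) (EF.tv rfl q9_21 c6_9_21_4) (EF.tv rfl q10_21 c6_10_21_4) (EF.tv rfl q11_21 c6_11_21_4) (EF.tv rfl q12_21 c6_12_21_4) (EF.tv rfl q13_21 c6_13_21_4) (EF.tv rfl q14_21 c6_14_21_4) (EF.tv rfl q15_21 c6_15_21_4) (EF.tv rfl q16_21 c6_16_21_4) (EF.tv rfl q17_21 c6_17_21_4) (EF.tv rfl q18_21 c6_18_21_4) (EF.tv rfl q19_21 c6_19_21_4) (EF.tv rfl q20_21 c6_20_21_4) (EF.tv rfl q21_21 c6_21_21_4) (EF.tv rfl q22_21 c6_22_21_4) (EF.tv rfl q23_21 c6_23_21_4) (EF.tv rfl q24_21 c6_24_21_4) (EF.tv rfl q25_21 c6_25_21_4)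 (EF.tv rfl q26_21 c6_26_21_4) (EF.tv rfl q27_21 c6_27_21_4) (EF.tv rfl q28_21 c6_28_21_4) (EF.tv rfl q29_21 c6_29_21_4) (EF.tv rfl q30_21 c6_30_21_4) (EF.tv rfl q31_21 c6_31_21_4) (EF.tv rfl q32_21 c6_32_21_4) (EF.tv rfl q33_21 c6_33_21_4) (EF.tv rfl q34_21 c6_34_21_4) (EF.far g35_21) (EF.far g36_21) (EF.far g37_21) (EF.far g38_21) (EF.far g39_21) (EF.far g40_21) (EF.far g41_21) (EF.far g42_21) (EF.far g43_21) (EF.far g44_21) (EF.far g45_21) (EF.far g46_21)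

theorem f6_21_5 : ∀ tc ∈ tl, EF tc d21 e6_21_5 :=
  tl_forall (EF.tv rfl q0_21 c6_0_21_5) (EF.tv rfl q1_21 c6_1_21_5) (EF.tv rfl q2_21 c6_2_21_5) (EF.tv rfl q3_21 c6_3_21_5) (EF.tv rfl q4_21 c6_4_21_5) (EF.tv rfl q5_21 c6_5_21_5) (EF.tv rfl q6_21 c6_6_21_5) (EF.tv rfl q7_21 c6_7_21_5) (EF.tv rfl q8_21 c6_8_21_5) (EF.tv rfl q9_21 c6_9_21_5) (EF.tv rfl q10_21 c6_10_21_5) (EF.tv rfl q11_21 c6_11_21_5) (EF.tv rfl q12_21 c6_12_21_5) (EF.tv rfl q13_21 c6_13_21_5) (EF.tv rfl q14_21 c6_14_21_5) (EF.tv rfl q15_21 c6_15_21_5) (EF.tv rfl q16_21 c6_16_21_5) (EF.tv rfl q17_21 c6_17_21_5) (EF.tv rfl q18_21 c6_18_21_5) (EF.tv rfl q19_21 c6_19_21_5) (EF.tv rfl q20_21 c6_20_21_5) (EF.tv rfl q21_21 c6_21_21_5) (EF.tv rfl q22_21 c6_22_21_5) (EF.tv rfl q23_21 c6_23_21_5) (EF.tv rfl q24_21 c6_24_21_5) (EF.tv rfl q25_21 c6_25_21_5)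 (EF.tv rfl q26_21 c6_26_21_5) (EF.tv rfl q27_21 c6_27_21_5) (EF.tv rfl q28_21 c6_28_21_5) (EF.tv rfl q29_21 c6_29_21_5) (EF.tv rfl q30_21 c6_30_21_5) (EF.tv rfl q31_21 c6_31_21_5) (EF.tv rfl q32_21 c6_32_21_5) (EF.tv rfl q33_21 c6_33_21_5) (EF.tv rfl q34_21 c6_34_21_5) (EF.far g35_21) (EF.far g36_21) (EF.far g37_21) (EF.far g38_21) (EF.far g39_21) (EF.far g40_21) (EF.far g41_21) (EF.far g42_21) (EF.far g43_21) (EF.far g44_21) (EF.far g45_21) (EF.far g46_21)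

theorem f6_21_6 : ∀ tc ∈ tl, EF tc d21 e6_21_6 :=
  tl_forall (EF.tv rfl q0_21 c6_0_21_6) (EF.tv rfl q1_21 c6_1_21_6) (EF.tv rfl q2_21 c6_2_21_6) (EF.tv rfl q3_21 c6_3_21_6) (EF.tv rfl q4_21 c6_4_21_6) (EF.tv rfl q5_21 c6_5_21_6) (EF.tv rfl q6_21 c6_6_21_6) (EF.tv rfl q7_21 c6_7_21_6) (EF.tv rfl q8_21 c6_8_21_6) (EF.tv rfl q9_21 c6_9_21_6) (EF.tv rfl q10_21 c6_10_21_6) (EF.tv rfl q11_21 c6_11_21_6) (EF.tv rfl q12_21 c6_12_21_6) (EF.tv rfl q13_21 c6_13_21_6) (EF.tv rfl q14_21 c6_14_21_6) (EF.tv rfl q15_21 c6_15_21_6) (EF.tv rfl q16_21 c6_16_21_6) (EF.tv rfl q17_21 c6_17_21_6) (EF.tv rfl q18_21 c6_18_21_6) (EF.tv rfl q19_21 c6_19_21_6) (EF.tv rfl q20_21 c6_20_21_6) (EF.tv rfl q21_21 c6_21_21_6) (EF.tv rfl q22_21 c6_22_21_6) (EF.tv rfl q23_21 c6_23_21_6) (EF.tv rfl q24_21 c6_24_21_6) (EF.tv rfl q25_21 c6_25_21_6)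 (EF.tv rfl q26_21 c6_26_21_6) (EF.tv rfl q27_21 c6_27_21_6) (EF.tv rfl q28_21 c6_28_21_6) (EF.tv rfl q29_21 c6_29_21_6) (EF.tv rfl q30_21 c6_30_21_6) (EF.tv rfl q31_21 c6_31_21_6) (EF.tv rfl q32_21 c6_32_21_6) (EF.tv rfl q33_21 c6_33_21_6) (EF.tv rfl q34_21 c6_34_21_6) (EF.far g35_21) (EF.far g36_21) (EF.far g37_21) (EF.far g38_21) (EF.far g39_21) (EF.far g40_21) (EF.far g41_21) (EF.far g42_21) (EF.far g43_21) (EF.far g44_21) (EF.far g45_21) (EF.far g46_21)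

theorem f6_21_7 : ∀ tc ∈ tl, EF tc d21 e6_21_7 :=
  tl_forall (EF.tv rfl q0_21 c6_0_21_7) (EF.tv rfl q1_21 c6_1_21_7) (EF.tv rfl q2_21 c6_2_21_7) (EF.tv rfl q3_21 c6_3_21_7) (EF.tv rfl q4_21 c6_4_21_7) (EF.tv rfl q5_21 c6_5_21_7) (EF.tv rfl q6_21 c6_6_21_7) (EF.tv rfl q7_21 c6_7_21_7) (EF.tv rfl q8_21 c6_8_21_7) (EF.tv rfl q9_21 c6_9_21_7) (EF.tv rfl q10_21 c6_10_21_7) (EF.tv rfl q11_21 c6_11_21_7) (EF.tv rfl q12_21 c6_12_21_7) (EF.tv rfl q13_21 c6_13_21_7) (EF.tv rfl q14_21 c6_14_21_7) (EF.tv rfl q15_21 c6_15_21_7) (EF.tv rfl q16_21 c6_16_21_7) (EF.tv rfl q17_21 c6_17_21_7) (EF.tv rfl q18_21 c6_18_21_7) (EF.tv rfl q19_21 c6_19_21_7) (EF.tv rfl q20_21 c6_20_21_7) (EF.tv rfl q21_21 c6_21_21_7) (EF.tv rfl q22_21 c6_22_21_7) (EF.tv rfl q23_21 c6_23_21_7) (EF.tv rfl q24_21 c6_24_21_7) (EF.tv rfl q25_21 c6_25_21_7)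 (EF.tv rfl q26_21 c6_26_21_7) (EF.tv rfl q27_21 c6_27_21_7) (EF.tv rfl q28_21 c6_28_21_7) (EF.tv rfl q29_21 c6_29_21_7) (EF.tv rfl q30_21 c6_30_21_7) (EF.tv rfl q31_21 c6_31_21_7) (EF.tv rfl q32_21 c6_32_21_7) (EF.tv rfl q33_21 c6_33_21_7) (EF.tv rfl q34_21 c6_34_21_7) (EF.far g35_21) (EF.far g36_21) (EF.far g37_21) (EF.far g38_21) (EF.far g39_21) (EF.far g40_21) (EF.far g41_21) (EF.far g42_21) (EF.far g43_21) (EF.far g44_21) (EF.far g45_21) (EF.far g46_21)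

theorem f8_21_8 : ∀ tc ∈ tl, EF tc d21 e8_21_8 :=
  tl_forall (EF.tv rfl q0_21 c8_0_21_8) (EF.tv rfl q1_21 c8_1_21_8) (EF.tv rfl q2_21 c8_2_21_8) (EF.tv rfl q3_21 c8_3_21_8) (EF.tv rfl q4_21 c8_4_21_8) (EF.tv rfl q5_21 c8_5_21_8) (EF.tv rfl q6_21 c8_6_21_8) (EF.tv rfl q7_21 c8_7_21_8) (EF.tv rfl q8_21 c8_8_21_8) (EF.tv rfl q9_21 c8_9_21_8) (EF.tv rfl q10_21 c8_10_21_8) (EF.tv rfl q11_21 c8_11_21_8) (EF.tv rfl q12_21 c8_12_21_8) (EF.tv rfl q13_21 c8_13_21_8) (EF.tv rfl q14_21 c8_14_21_8) (EF.tv rfl q15_21 c8_15_21_8) (EF.tv rfl q16_21 c8_16_21_8) (EF.tv rfl q17_21 c8_17_21_8) (EF.tv rfl q18_21 c8_18_21_8) (EF.tv rfl q19_21 c8_19_21_8) (EF.tv rfl q20_21 c8_20_21_8) (EF.tv rfl q21_21 c8_21_21_8) (EF.tv rfl q22_21 c8_22_21_8) (EF.tv rfl q23_21 c8_23_21_8) (EF.tv rfl q24_21 c8_24_21_8) (EF.tv rfl q25_21 c8_25_21_8)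 (EF.tv rfl q26_21 c8_26_21_8) (EF.tv rfl q27_21 c8_27_21_8) (EF.tv rfl q28_21 c8_28_21_8) (EF.tv rfl q29_21 c8_29_21_8) (EF.tv rfl q30_21 c8_30_21_8) (EF.tv rfl q31_21 c8_31_21_8) (EF.tv rfl q32_21 c8_32_21_8) (EF.tv rfl q33_21 c8_33_21_8) (EF.tv rfl q34_21 c8_34_21_8) (EF.far g35_21) (EF.far g36_21) (EF.far g37_21) (EF.far g38_21) (EF.far g39_21) (EF.far g40_21) (EF.far g41_21) (EF.far g42_21) (EF.far g43_21) (EF.far g44_21) (EF.far g45_21) (EF.far g46_21)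

theorem f8_21_9 : ∀ tc ∈ tl, EF tc d21 e8_21_9 :=
  tl_forall (EF.tv rfl q0_21 c8_0_21_9) (EF.tv rfl q1_21 c8_1_21_9) (EF.tv rfl q2_21 c8_2_21_9) (EF.tv rfl q3_21 c8_3_21_9) (EF.tv rfl q4_21 c8_4_21_9) (EF.tv rfl q5_21 c8_5_21_9) (EF.tv rfl q6_21 c8_6_21_9) (EF.tv rfl q7_21 c8_7_21_9) (EF.tv rfl q8_21 c8_8_21_9) (EF.tv rfl q9_21 c8_9_21_9) (EF.tv rfl q10_21 c8_10_21_9) (EF.tv rfl q11_21 c8_11_21_9) (EF.tv rfl q12_21 c8_12_21_9) (EF.tv rfl q13_21 c8_13_21_9) (EF.tv rfl q14_21 c8_14_21_9) (EF.tv rfl q15_21 c8_15_21_9) (EF.tv rfl q16_21 c8_16_21_9) (EF.tv rfl q17_21 c8_17_21_9) (EF.tv rfl q18_21 c8_18_21_9) (EF.tv rfl q19_21 c8_19_21_9) (EF.tv rfl q20_21 c8_20_21_9) (EF.tv rfl q21_21 c8_21_21_9) (EF.tv rfl q22_21 c8_22_21_9) (EF.tv rfl q23_21 c8_23_21_9) (EF.tv rfl q24_21 c8_24_21_9) (EF.tv rfl q25_21 c8_25_21_9)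 (EF.tv rfl q26_21 c8_26_21_9) (EF.tv rfl q27_21 c8_27_21_9) (EF.tv rfl q28_21 c8_28_21_9) (EF.tv rfl q29_21 c8_29_21_9) (EF.tv rfl q30_21 c8_30_21_9) (EF.tv rfl q31_21 c8_31_21_9) (EF.tv rfl q32_21 c8_32_21_9) (EF.tv rfl q33_21 c8_33_21_9) (EF.tv rfl q34_21 c8_34_21_9) (EF.far g35_21) (EF.far g36_21) (EF.far g37_21) (EF.far g38_21) (EF.far g39_21) (EF.far g40_21) (EF.far g41_21) (EF.far g42_21) (EF.far g43_21) (EF.far g44_21) (EF.far g45_21) (EF.far g46_21)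

theorem h4_21 : EvC tl 4 (shK Dec.one 4) d21 :=
  EvC.of2 (tab := tabX 4) (Ls := [e4_21_0, e4_21_1, e4_21_2, e4_21_3]) (tabX_ok 4)
    (by decide +kernel) (by decide +kernel) (by
    intro L hL
    simp only [List.mem_cons, List.not_mem_nil, or_false] at hL
    rcases hL with rfl | rfl | rfl | rfl
    · exact f4_21_0
    · exact f4_21_1
    · exact f4_21_2
    · exact f4_21_3)

theorem h6_21 : EvC tl 6 (shK Dec.one 6) d21 :=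
  EvC.of2 (tab := tabX 6) (Ls := [e6_21_4, e6_21_5, e6_21_6, e6_21_7]) (tabX_ok 6)
    (by decide +kernel) (by decide +kernel) (by
    intro L hL
    simp only [List.mem_cons, List.not_mem_nil, or_false] at hL
    rcases hL with rfl | rfl | rfl | rfl
    · exact f6_21_4
    · exact f6_21_5
    · exact f6_21_6
    · exact f6_21_7)

theorem h8_21 : EvC tl 0 (shA Dec.one 106) d21 :=
  EvC.of2 (tab := tabX 0) (Ls := [e8_21_8, e8_21_9]) (tabX_ok 0)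
    (by decide +kernel) (by decide +kernel) (by
    intro L hL
    simp only [List.mem_cons, List.not_mem_nil, or_false] at hL
    rcases hL with rfl | rfl
    · exact f8_21_8
    · exact f8_21_9)

theorem hh_21 : EvC8 tl Dec.one d21 := EvC8.a h8_21

end Pool.Agent.TSE
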