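import Pool.Agent.TSE.C22_0
import Pool.Agent.TSE.C22_2
import Pool.Agent.TSE.C22_4
import Pool.Agent.TSE.C22_6
import Pool.Agent.TSE.C22_8
import Pool.Agent.TSE.C22_10
import Pool.Agent.TSE.C22_12
import Pool.Agent.TSE.C22_14
import Pool.Agent.TSE.C22_16
import Pool.Agent.TSE.C22_18
import Pool.Agent.TSE.C22_20
import Pool.Agent.TSE.C22_22
import Pool.Agent.TSE.C22_24
import Pool.Agent.TSE.C22_26
import Pool.Agent.TSE.C22_28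
import Pool.Agent.TSE.C22_30
import Pool.Agent.TSE.T
import Pool.Agent.TSE.BaseC
import Pool.Agent.TSG.TabX

set_option autoImplicit false

/-! # One interval of the total mass (MP_d27362_co) -/

namespace Pool.Agent.TSE

open Pool.Agent.TSC
open Pool.Agent.TSC.Dec
open Pool.Agent.TSG


theorem kf22 : ∀ tc ∈ tl, Pool.Agent.TSK.KF tc d22 :=
  tl_forall (KF.tv rfl q0_22 c0_22) (KF.tv rfl q1_22 c1_22) (KF.tv rfl q2_22 c2_22) (KF.tv rfl q3_22 c3_22) (KF.tv rfl q4_22 c4_22) (KF.tv rfl q5_22 c5_22) (KF.tv rfl q6_22 c6_22) (KF.tv rfl q7_22 c7_22) (KF.tv rfl q8_22 c8_22) (KF.tv rfl q9_22 c9_22) (KF.tv rfl q10_22 c10_22) (KF.tv rfl q11_22 c11_22) (KF.tv rfl q12_22 c12_22) (KF.tv rfl q13_22 c13_22) (KF.tv rfl q14_22 c14_22) (KF.tv rfl q15_22 c15_22) (KF.tv rfl q16_22 c16_22) (KF.tv rfl q17_22 c17_22) (KF.tv rfl q18_22 c18_22)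 (KF.tv rfl q19_22 c19_22) (KF.tv rfl q20_22 c20_22) (KF.tv rfl q21_22 c21_22) (KF.tv rfl q22_22 c22_22) (KF.tv rfl q23_22 c23_22) (KF.tv rfl q24_22 c24_22) (KF.tv rfl q25_22 c25_22) (KF.tv rfl q26_22 c26_22) (KF.tv rfl q27_22 c27_22) (KF.tv rfl q28_22 c28_22) (KF.tv rfl q29_22 c29_22) (KF.tv rfl q30_22 c30_22) (Pool.Agent.TSK.KF.far g31_22) (Pool.Agent.TSK.KF.far g32_22) (Pool.Agent.TSK.KF.far g33_22) (Pool.Agent.TSK.KF.far g34_22) (Pool.Agent.TSK.KF.far g35_22) (Pool.Agent.TSK.KF.far g36_22) (Pool.Agent.TSK.KF.far g37_22) (Pool.Agent.TSK.KF.far g38_22) (Pool.Agent.TSK.KF.far g39_22) (Pool.Agent.TSK.KF.far g40_22) (Pool.Agent.TSK.KF.far g41_22) (Pool.Agent.TSK.KF.far g42_22) (Pool.Agent.TSK.KF.far g43_22) (Pool.Agent.TSK.KF.far g44_22) (Pool.Agent.TSK.KF.far g45_22) (Pool.Agent.TSK.KF.far g46_22)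

theorem f4_22_0 : ∀ tc ∈ tl, EF tc d22 e4_22_0 :=
  tl_forall (EF.tv rfl q0_22 c4_0_22_0) (EF.tv rfl q1_22 c4_1_22_0) (EF.tv rfl q2_22 c4_2_22_0) (EF.tv rfl q3_22 c4_3_22_0) (EF.tv rfl q4_22 c4_4_22_0) (EF.tv rfl q5_22 c4_5_22_0) (EF.tv rfl q6_22 c4_6_22_0) (EF.tv rfl q7_22 c4_7_22_0) (EF.tv rfl q8_22 c4_8_22_0) (EF.tv rfl q9_22 c4_9_22_0) (EF.tv rfl q10_22 c4_10_22_0) (EF.tv rfl q11_22 c4_11_22_0) (EF.tv rfl q12_22 c4_12_22_0) (EF.tv rfl q13_22 c4_13_22_0) (EF.tv rfl q14_22 c4_14_22_0) (EF.tv rfl q15_22 c4_15_22_0) (EF.tv rfl q16_22 c4_16_22_0) (EF.tv rfl q17_22 c4_17_22_0) (EF.tv rfl q18_22 c4_18_22_0) (EF.tv rfl q19_22 c4_19_22_0) (EF.tv rfl q20_22 c4_20_22_0) (EF.tv rfl q21_22 c4_21_22_0) (EF.tv rfl q22_22 c4_22_22_0) (EF.tv rfl q23_22 c4_23_22_0) (EF.tv rfl q24_22 c4_24_22_0) (EF.tv rfl q25_22 c4_25_22_0)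 (EF.tv rfl q26_22 c4_26_22_0) (EF.tv rfl q27_22 c4_27_22_0) (EF.tv rfl q28_22 c4_28_22_0) (EF.tv rfl q29_22 c4_29_22_0) (EF.tv rfl q30_22 c4_30_22_0) (EF.far g31_22) (EF.far g32_22) (EF.far g33_22) (EF.far g34_22) (EF.far g35_22) (EF.far g36_22) (EF.far g37_22) (EF.far g38_22) (EF.far g39_22) (EF.far g40_22) (EF.far g41_22) (EF.far g42_22) (EF.far g43_22) (EF.far g44_22) (EF.far g45_22) (EF.far g46_22)

theorem f4_22_1 : ∀ tc ∈ tl, EF tc d22 e4_22_1 :=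
  tl_forall (EF.tv rfl q0_22 c4_0_22_1) (EF.tv rfl q1_22 c4_1_22_1) (EF.tv rfl q2_22 c4_2_22_1) (EF.tv rfl q3_22 c4_3_22_1) (EF.tv rfl q4_22 c4_4_22_1) (EF.tv rfl q5_22 c4_5_22_1) (EF.tv rfl q6_22 c4_6_22_1) (EF.tv rfl q7_22 c4_7_22_1) (EF.tv rfl q8_22 c4_8_22_1) (EF.tv rfl q9_22 c4_9_22_1) (EF.tv rfl q10_22 c4_10_22_1) (EF.tv rfl q11_22 c4_11_22_1) (EF.tv rfl q12_22 c4_12_22_1) (EF.tv rfl q13_22 c4_13_22_1) (EF.tv rfl q14_22 c4_14_22_1) (EF.tv rfl q15_22 c4_15_22_1) (EF.tv rfl q16_22 c4_16_22_1) (EF.tv rfl q17_22 c4_17_22_1) (EF.tv rfl q18_22 c4_18_22_1) (EF.tv rfl q19_22 c4_19_22_1) (EF.tv rfl q20_22 c4_20_22_1) (EF.tv rfl q21_22 c4_21_22_1) (EF.tv rfl q22_22 c4_22_22_1) (EF.tv rfl q23_22 c4_23_22_1) (EF.tv rfl q24_22 c4_24_22_1) (EF.tv rfl q25_22 c4_25_22_1) (EF.tv rfl q26_22 c4_26_22_1) (EF.tv rfl q27_22 c4_27_22_1)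 (EF.tv rfl q28_22 c4_28_22_1) (EF.tv rfl q29_22 c4_29_22_1) (EF.tv rfl q30_22 c4_30_22_1) (EF.far g31_22) (EF.far g32_22) (EF.far g33_22) (EF.far g34_22) (EF.far g35_22) (EF.far g36_22) (EF.far g37_22) (EF.far g38_22) (EF.far g39_22) (EF.far g40_22) (EF.far g41_22) (EF.far g42_22) (EF.far g43_22) (EF.far g44_22) (EF.far g45_22) (EF.far g46_22)

theorem f4_22_2 : ∀ tc ∈ tl, EF tc d22 e4_22_2 :=
  tl_forall (EF.tv rfl q0_22 c4_0_22_2) (EF.tv rfl q1_22 c4_1_22_2) (EF.tv rfl q2_22 c4_2_22_2) (EF.tv rfl q3_22 c4_3_22_2) (EF.tv rfl q4_22 c4_4_22_2) (EF.tv rfl q5_22 c4_5_22_2) (EF.tv rfl q6_22 c4_6_22_2) (EF.tv rfl q7_22 c4_7_22_2) (EF.tv rfl q8_22 c4_8_22_2) (EF.tv rfl q9_22 c4_9_22_2) (EF.tv rfl q10_22 c4_10_22_2) (EF.tv rfl q11_22 c4_11_22_2) (EF.tv rfl q12_22 c4_12_22_2) (EF.tv rfl q13_22 c4_13_22_2) (EF.tv rfl q14_22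 c4_14_22_2) (EF.tv rfl q15_22 c4_15_22_2) (EF.tv rfl q16_22 c4_16_22_2) (EF.tv rfl q17_22 c4_17_22_2) (EF.tv rfl q18_22 c4_18_22_2) (EF.tv rfl q19_22 c4_19_22_2) (EF.tv rfl q20_22 c4_20_22_2) (EF.tv rfl q21_22 c4_21_22_2) (EF.tv rfl q22_22 c4_22_22_2) (EF.tv rfl q23_22 c4_23_22_2) (EF.tv rfl q24_22 c4_24_22_2) (EF.tv rfl q25_22 c4_25_22_2) (EF.tv rfl q26_22 c4_26_22_2) (EF.tv rfl q27_22 c4_27_22_2) (EF.tv rfl q28_22 c4_28_22_2) (EF.tv rfl q29_22 c4_29_22_2) (EF.tv rfl q30_22 c4_30_22_2) (EF.far g31_22) (EF.far g32_22) (EF.far g33_22) (EF.far g34_22) (EF.far g35_22) (EF.far g36_22) (EF.far g37_22) (EF.far g38_22) (EF.far g39_22) (EF.far g40_22) (EF.far g41_22) (EF.far g42_22) (EF.far g43_22) (EF.far g44_22) (EF.far g45_22) (EF.far g46_22)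

theorem f4_22_3 : ∀ tc ∈ tl, EF tc d22 e4_22_3 :=
  tl_forall (EF.tv rfl q0_22 c4_0_22_3) (EF.tv rfl q1_22 c4_1_22_3) (EF.tv rfl q2_22 c4_2_22_3) (EF.tv rfl q3_22 c4_3_22_3) (EF.tv rfl q4_22 c4_4_22_3) (EF.tv rfl q5_22 c4_5_22_3) (EF.tv rfl q6_22 c4_6_22_3) (EF.tv rfl q7_22 c4_7_22_3) (EF.tv rfl q8_22 c4_8_22_3) (EF.tv rfl q9_22 c4_9_22_3) (EF.tv rfl q10_22 c4_10_22_3) (EF.tv rfl q11_22 c4_11_22_3) (EF.tv rfl q12_22 c4_12_22_3) (EF.tv rfl q13_22 c4_13_22_3) (EF.tv rfl q14_22 c4_14_22_3) (EF.tv rfl q15_22 c4_15_22_3) (EF.tv rfl q16_22 c4_16_22_3) (EF.tv rfl q17_22 c4_17_22_3) (EF.tv rfl q18_22 c4_18_22_3) (EF.tv rfl q19_22 c4_19_22_3) (EF.tv rfl q20_22 c4_20_22_3) (EF.tv rfl q21_22 c4_21_22_3) (EF.tv rfl q22_22 c4_22_22_3) (EF.tv rfl q23_22 c4_23_22_3) (EF.tv rfl q24_22 c4_24_22_3) (EF.tv rfl q25_22 c4_25_22_3)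 (EF.tv rfl q26_22 c4_26_22_3) (EF.tv rfl q27_22 c4_27_22_3) (EF.tv rfl q28_22 c4_28_22_3) (EF.tv rfl q29_22 c4_29_22_3) (EF.tv rfl q30_22 c4_30_22_3) (EF.far g31_22) (EF.far g32_22) (EF.far g33_22) (EF.far g34_22) (EF.far g35_22) (EF.far g36_22) (EF.far g37_22) (EF.far g38_22) (EF.far g39_22) (EF.far g40_22) (EF.far g41_22) (EF.far g42_22) (EF.far g43_22) (EF.far g44_22) (EF.far g45_22) (EF.far g46_22)

theorem f6_22_4 : ∀ tc ∈ tl, EF tc d22 e6_22_4 :=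
  tl_forall (EF.tv rfl q0_22 c6_0_22_4) (EF.tv rfl q1_22 c6_1_22_4) (EF.tv rfl q2_22 c6_2_22_4) (EF.tv rfl q3_22 c6_3_22_4) (EF.tv rfl q4_22 c6_4_22_4) (EF.tv rfl q5_22 c6_5_22_4) (EF.tv rfl q6_22 c6_6_22_4) (EF.tv rfl q7_22 c6_7_22_4) (EF.tv rfl q8_22 c6_8_22_4) (EF.tv rfl q9_22 c6_9_22_4) (EF.tv rfl q10_22 c6_10_22_4) (EF.tv rfl q11_22 c6_11_22_4) (EF.tv rfl q12_22 c6_12_22_4) (EF.tv rfl q13_22 c6_13_22_4) (EF.tv rfl q14_22 c6_14_22_4) (EF.tv rfl q15_22 c6_15_22_4) (EF.tv rfl q16_22 c6_16_22_4) (EF.tv rfl q17_22 c6_17_22_4) (EF.tv rfl q18_22 c6_18_22_4) (EF.tv rfl q19_22 c6_19_22_4) (EF.tv rfl q20_22 c6_20_22_4) (EF.tv rfl q21_22 c6_21_22_4) (EF.tv rfl q22_22 c6_22_22_4) (EF.tv rfl q23_22 c6_23_22_4) (EF.tv rfl q24_22 c6_24_22_4) (EF.tv rfl q25_22 c6_25_22_4) (EF.tv rfl q26_22 c6_26_22_4) (EF.tv rfl q27_22 c6_27_22_4)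 (EF.tv rfl q28_22 c6_28_22_4) (EF.tv rfl q29_22 c6_29_22_4) (EF.tv rfl q30_22 c6_30_22_4) (EF.far g31_22) (EF.far g32_22) (EF.far g33_22) (EF.far g34_22) (EF.far g35_22) (EF.far g36_22) (EF.far g37_22) (EF.far g38_22) (EF.far g39_22) (EF.far g40_22) (EF.far g41_22) (EF.far g42_22) (EF.far g43_22) (EF.far g44_22) (EF.far g45_22) (EF.far g46_22)

theorem f6_22_5 : ∀ tc ∈ tl, EF tc d22 e6_22_5 :=
  tl_forall (EF.tv rfl q0_22 c6_0_22_5) (EF.tv rfl q1_22 c6_1_22_5) (EF.tv rfl q2_22 c6_2_22_5) (EF.tv rfl q3_22 c6_3_22_5) (EF.tv rfl q4_22 c6_4_22_5) (EF.tv rfl q5_22 c6_5_22_5) (EF.tv rfl q6_22 c6_6_22_5) (EF.tv rfl q7_22 c6_7_22_5) (EF.tv rfl q8_22 c6_8_22_5) (EF.tv rfl q9_22 c6_9_22_5) (EF.tv rfl q10_22 c6_10_22_5) (EF.tv rfl q11_22 c6_11_22_5) (EF.tv rfl q12_22 c6_12_22_5) (EF.tv rfl q13_22 c6_13_22_5) (EF.tv rfl q14_22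 c6_14_22_5) (EF.tv rfl q15_22 c6_15_22_5) (EF.tv rfl q16_22 c6_16_22_5) (EF.tv rfl q17_22 c6_17_22_5) (EF.tv rfl q18_22 c6_18_22_5) (EF.tv rfl q19_22 c6_19_22_5) (EF.tv rfl q20_22 c6_20_22_5) (EF.tv rfl q21_22 c6_21_22_5) (EF.tv rfl q22_22 c6_22_22_5) (EF.tv rfl q23_22 c6_23_22_5) (EF.tv rfl q24_22 c6_24_22_5) (EF.tv rfl q25_22 c6_25_22_5) (EF.tv rfl q26_22 c6_26_22_5) (EF.tv rfl q27_22 c6_27_22_5) (EF.tv rfl q28_22 c6_28_22_5) (EF.tv rfl q29_22 c6_29_22_5) (EF.tv rfl q30_22 c6_30_22_5) (EF.far g31_22) (EF.far g32_22) (EF.far g33_22) (EF.far g34_22) (EF.far g35_22) (EF.far g36_22) (EF.far g37_22) (EF.far g38_22) (EF.far g39_22) (EF.far g40_22) (EF.far g41_22) (EF.far g42_22) (EF.far g43_22) (EF.far g44_22) (EF.far g45_22) (EF.far g46_22)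

theorem f6_22_6 : ∀ tc ∈ tl, EF tc d22 e6_22_6 :=
  tl_forall (EF.tv rfl q0_22 c6_0_22_6) (EF.tv rfl q1_22 c6_1_22_6) (EF.tv rfl q2_22 c6_2_22_6) (EF.tv rfl q3_22 c6_3_22_6) (EF.tv rfl q4_22 c6_4_22_6) (EF.tv rfl q5_22 c6_5_22_6) (EF.tv rfl q6_22 c6_6_22_6) (EF.tv rfl q7_22 c6_7_22_6) (EF.tv rfl q8_22 c6_8_22_6) (EF.tv rfl q9_22 c6_9_22_6) (EF.tv rfl q10_22 c6_10_22_6) (EF.tv rfl q11_22 c6_11_22_6) (EF.tv rfl q12_22 c6_12_22_6) (EF.tv rfl q13_22 c6_13_22_6) (EF.tv rfl q14_22 c6_14_22_6) (EF.tv rfl q15_22 c6_15_22_6) (EF.tv rfl q16_22 c6_16_22_6) (EF.tv rfl q17_22 c6_17_22_6) (EF.tv rfl q18_22 c6_18_22_6) (EF.tv rfl q19_22 c6_19_22_6) (EF.tv rfl q20_22 c6_20_22_6) (EF.tv rfl q21_22 c6_21_22_6) (EF.tv rfl q22_22 c6_22_22_6) (EF.tv rfl q23_22 c6_23_22_6) (EF.tv rfl q24_22 c6_24_22_6) (EF.tv rfl q25_22 c6_25_22_6)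 (EF.tv rfl q26_22 c6_26_22_6) (EF.tv rfl q27_22 c6_27_22_6) (EF.tv rfl q28_22 c6_28_22_6) (EF.tv rfl q29_22 c6_29_22_6) (EF.tv rfl q30_22 c6_30_22_6) (EF.far g31_22) (EF.far g32_22) (EF.far g33_22) (EF.far g34_22) (EF.far g35_22) (EF.far g36_22) (EF.far g37_22) (EF.far g38_22) (EF.far g39_22) (EF.far g40_22) (EF.far g41_22) (EF.far g42_22) (EF.far g43_22) (EF.far g44_22) (EF.far g45_22) (EF.far g46_22)

theorem f6_22_7 : ∀ tc ∈ tl, EF tc d22 e6_22_7 :=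
  tl_forall (EF.tv rfl q0_22 c6_0_22_7) (EF.tv rfl q1_22 c6_1_22_7) (EF.tv rfl q2_22 c6_2_22_7) (EF.tv rfl q3_22 c6_3_22_7) (EF.tv rfl q4_22 c6_4_22_7) (EF.tv rfl q5_22 c6_5_22_7) (EF.tv rfl q6_22 c6_6_22_7) (EF.tv rfl q7_22 c6_7_22_7) (EF.tv rfl q8_22 c6_8_22_7) (EF.tv rfl q9_22 c6_9_22_7) (EF.tv rfl q10_22 c6_10_22_7) (EF.tv rfl q11_22 c6_11_22_7) (EF.tv rfl q12_22 c6_12_22_7) (EF.tv rfl q13_22 c6_13_22_7) (EF.tv rfl q14_22 c6_14_22_7) (EF.tv rfl q15_22 c6_15_22_7) (EF.tv rfl q16_22 c6_16_22_7) (EF.tv rfl q17_22 c6_17_22_7) (EF.tv rfl q18_22 c6_18_22_7) (EF.tv rfl q19_22 c6_19_22_7) (EF.tv rfl q20_22 c6_20_22_7) (EF.tv rfl q21_22 c6_21_22_7) (EF.tv rfl q22_22 c6_22_22_7) (EF.tv rfl q23_22 c6_23_22_7) (EF.tv rfl q24_22 c6_24_22_7) (EF.tv rfl q25_22 c6_25_22_7) (EF.tv rfl q26_22 c6_26_22_7) (EF.tv rfl q27_22 c6_27_22_7)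 (EF.tv rfl q28_22 c6_28_22_7) (EF.tv rfl q29_22 c6_29_22_7) (EF.tv rfl q30_22 c6_30_22_7) (EF.far g31_22) (EF.far g32_22) (EF.far g33_22) (EF.far g34_22) (EF.far g35_22) (EF.far g36_22) (EF.far g37_22) (EF.far g38_22) (EF.far g39_22) (EF.far g40_22) (EF.far g41_22) (EF.far g42_22) (EF.far g43_22) (EF.far g44_22) (EF.far g45_22) (EF.far g46_22)

theorem f8_22_8 : ∀ tc ∈ tl, EF tc d22 e8_22_8 :=
  tl_forall (EF.tv rfl q0_22 c8_0_22_8) (EF.tv rfl q1_22 c8_1_22_8) (EF.tv rfl q2_22 c8_2_22_8) (EF.tv rfl q3_22 c8_3_22_8) (EF.tv rfl q4_22 c8_4_22_8) (EF.tv rfl q5_22 c8_5_22_8) (EF.tv rfl q6_22 c8_6_22_8) (EF.tv rfl q7_22 c8_7_22_8) (EF.tv rfl q8_22 c8_8_22_8) (EF.tv rfl q9_22 c8_9_22_8) (EF.tv rfl q10_22 c8_10_22_8) (EF.tv rfl q11_22 c8_11_22_8) (EF.tv rfl q12_22 c8_12_22_8) (EF.tv rfl q13_22 c8_13_22_8) (EF.tv rfl q14_22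 c8_14_22_8) (EF.tv rfl q15_22 c8_15_22_8) (EF.tv rfl q16_22 c8_16_22_8) (EF.tv rfl q17_22 c8_17_22_8) (EF.tv rfl q18_22 c8_18_22_8) (EF.tv rfl q19_22 c8_19_22_8) (EF.tv rfl q20_22 c8_20_22_8) (EF.tv rfl q21_22 c8_21_22_8) (EF.tv rfl q22_22 c8_22_22_8) (EF.tv rfl q23_22 c8_23_22_8) (EF.tv rfl q24_22 c8_24_22_8) (EF.tv rfl q25_22 c8_25_22_8) (EF.tv rfl q26_22 c8_26_22_8) (EF.tv rfl q27_22 c8_27_22_8) (EF.tv rfl q28_22 c8_28_22_8) (EF.tv rfl q29_22 c8_29_22_8) (EF.tv rfl q30_22 c8_30_22_8) (EF.far g31_22) (EF.far g32_22) (EF.far g33_22) (EF.far g34_22) (EF.far g35_22) (EF.far g36_22) (EF.far g37_22) (EF.far g38_22) (EF.far g39_22) (EF.far g40_22) (EF.far g41_22) (EF.far g42_22) (EF.far g43_22) (EF.far g44_22) (EF.far g45_22) (EF.far g46_22)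

theorem f8_22_9 : ∀ tc ∈ tl, EF tc d22 e8_22_9 :=
  tl_forall (EF.tv rfl q0_22 c8_0_22_9) (EF.tv rfl q1_22 c8_1_22_9) (EF.tv rfl q2_22 c8_2_22_9) (EF.tv rfl q3_22 c8_3_22_9) (EF.tv rfl q4_22 c8_4_22_9) (EF.tv rfl q5_22 c8_5_22_9) (EF.tv rfl q6_22 c8_6_22_9) (EF.tv rfl q7_22 c8_7_22_9) (EF.tv rfl q8_22 c8_8_22_9) (EF.tv rfl q9_22 c8_9_22_9) (EF.tv rfl q10_22 c8_10_22_9) (EF.tv rfl q11_22 c8_11_22_9) (EF.tv rfl q12_22 c8_12_22_9) (EF.tv rfl q13_22 c8_13_22_9) (EF.tv rfl q14_22 c8_14_22_9) (EF.tv rfl q15_22 c8_15_22_9) (EF.tv rfl q16_22 c8_16_22_9) (EF.tv rfl q17_22 c8_17_22_9) (EF.tv rfl q18_22 c8_18_22_9) (EF.tv rfl q19_22 c8_19_22_9) (EF.tv rfl q20_22 c8_20_22_9) (EF.tv rfl q21_22 c8_21_22_9) (EF.tv rfl q22_22 c8_22_22_9) (EF.tv rfl q23_22 c8_23_22_9) (EF.tv rfl q24_22 c8_24_22_9) (EF.tv rfl q25_22 c8_25_22_9)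 (EF.tv rfl q26_22 c8_26_22_9) (EF.tv rfl q27_22 c8_27_22_9) (EF.tv rfl q28_22 c8_28_22_9) (EF.tv rfl q29_22 c8_29_22_9) (EF.tv rfl q30_22 c8_30_22_9) (EF.far g31_22) (EF.far g32_22) (EF.far g33_22) (EF.far g34_22) (EF.far g35_22) (EF.far g36_22) (EF.far g37_22) (EF.far g38_22) (EF.far g39_22) (EF.far g40_22) (EF.far g41_22) (EF.far g42_22) (EF.far g43_22) (EF.far g44_22) (EF.far g45_22) (EF.far g46_22)

theorem h4_22 : EvC tl 4 (shK Dec.one 4) d22 :=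
  EvC.of2 (tab := tabX 4) (Ls := [e4_22_0, e4_22_1, e4_22_2, e4_22_3]) (tabX_ok 4)
    (by decide +kernel) (by decide +kernel) (by
    intro L hL
    simp only [List.mem_cons, List.not_mem_nil, or_false] at hL
    rcases hL with rfl | rfl | rfl | rfl
    · exact f4_22_0
    · exact f4_22_1
    · exact f4_22_2
    · exact f4_22_3)

theorem h6_22 : EvC tl 6 (shK Dec.one 6) d22 :=
  EvC.of2 (tab := tabX 6) (Ls := [e6_22_4, e6_22_5, e6_22_6, e6_22_7]) (tabX_ok 6)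
    (by decide +kernel) (by decide +kernel) (by
    intro L hL
    simp only [List.mem_cons, List.not_mem_nil, or_false] at hL
    rcases hL with rfl | rfl | rfl | rfl
    · exact f6_22_4
    · exact f6_22_5
    · exact f6_22_6
    · exact f6_22_7)

theorem h8_22 : EvC tl 0 (shA Dec.one 106) d22 :=
  EvC.of2 (tab := tabX 0) (Ls := [e8_22_8, e8_22_9]) (tabX_ok 0)
    (by decide +kernel) (by decide +kernel) (by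
    intro L hL
    simp only [List.mem_cons, List.not_mem_nil, or_false] at hL
    rcases hL with rfl | rfl
    · exact f8_22_8
    · exact f8_22_9)

theorem hh_22 : EvC8 tl Dec.one d22 := EvC8.a h8_22

end Pool.Agent.TSE
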