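import Pool.Agent.TSE.C23_0
import Pool.Agent.TSE.C23_2
import Pool.Agent.TSE.C23_4
import Pool.Agent.TSE.C23_6
import Pool.Agent.TSE.C23_8
import Pool.Agent.TSE.C23_10
import Pool.Agent.TSE.C23_12
import Pool.Agent.TSE.C23_14
import Pool.Agent.TSE.C23_16
import Pool.Agent.TSE.C23_18
import Pool.Agent.TSE.C23_20
import Pool.Agent.TSE.C23_22
import Pool.Agent.TSE.C23_24
import Pool.Agent.TSE.C23_26
import Pool.Agent.TSE.T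
import Pool.Agent.TSE.BaseC
import Pool.Agent.TSG.TabX

set_option autoImplicit false

/-! # One interval of the total mass (MP_d27362_co) -/

namespace Pool.Agent.TSE

open Pool.Agent.TSC
open Pool.Agent.TSC.Dec
open Pool.Agent.TSG


theorem kf23 : ∀ tc ∈ tl, Pool.Agent.TSK.KF tc d23 :=
  tl_forall (KF.tv rfl q0_23 c0_23) (KF.tv rfl q1_23 c1_23) (KF.tv rfl q2_23 c2_23) (KF.tv rfl q3_23 c3_23) (KF.tv rfl q4_23 c4_23) (KF.tv rfl q5_23 c5_23) (KF.tv rfl q6_23 c6_23) (KF.tv rfl q7_23 c7_23) (KF.tv rfl q8_23 c8_23) (KF.tv rfl q9_23 c9_23) (KF.tv rfl q10_23 c10_23) (KF.tv rfl q11_23 c11_23) (KF.tv rfl q12_23 c12_23) (KF.tv rfl q13_23 c13_23) (KF.tv rfl q14_23 c14_23) (KF.tv rfl q15_23 c15_23) (KF.tv rfl q16_23 c16_23) (KF.tv rfl q17_23 c17_23) (KF.tv rfl q18_23 c18_23) (KF.tv rfl q19_23 c19_23) (KF.tv rfl q20_23 c20_23) (KF.tv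 rfl q21_23 c21_23) (KF.tv rfl q22_23 c22_23) (KF.tv rfl q23_23 c23_23) (KF.tv rfl q24_23 c24_23) (KF.tv rfl q25_23 c25_23) (KF.tv rfl q26_23 c26_23) (Pool.Agent.TSK.KF.far g27_23) (Pool.Agent.TSK.KF.far g28_23) (Pool.Agent.TSK.KF.far g29_23) (Pool.Agent.TSK.KF.far g30_23) (Pool.Agent.TSK.KF.far g31_23) (Pool.Agent.TSK.KF.far g32_23) (Pool.Agent.TSK.KF.far g33_23) (Pool.Agent.TSK.KF.far g34_23) (Pool.Agent.TSK.KF.far g35_23) (Pool.Agent.TSK.KF.far g36_23) (Pool.Agent.TSK.KF.far g37_23) (Pool.Agent.TSK.KF.far g38_23) (Pool.Agent.TSK.KF.far g39_23) (Pool.Agent.TSK.KF.far g40_23) (Pool.Agent.TSK.KF.far g41_23) (Pool.Agent.TSK.KF.far g42_23) (Pool.Agent.TSK.KF.far g43_23) (Pool.Agent.TSK.KF.far g44_23) (Pool.Agent.TSK.KF.far g45_23) (Pool.Agent.TSK.KF.far g46_23)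

theorem f4_23_0 : ∀ tc ∈ tl, EF tc d23 e4_23_0 :=
  tl_forall (EF.tv rfl q0_23 c4_0_23_0) (EF.tv rfl q1_23 c4_1_23_0) (EF.tv rfl q2_23 c4_2_23_0) (EF.tv rfl q3_23 c4_3_23_0) (EF.tv rfl q4_23 c4_4_23_0) (EF.tv rfl q5_23 c4_5_23_0) (EF.tv rfl q6_23 c4_6_23_0) (EF.tv rfl q7_23 c4_7_23_0) (EF.tv rfl q8_23 c4_8_23_0) (EF.tv rfl q9_23 c4_9_23_0) (EF.tv rfl q10_23 c4_10_23_0) (EF.tv rfl q11_23 c4_11_23_0) (EF.tv rfl q12_23 c4_12_23_0) (EF.tv rfl q13_23 c4_13_23_0) (EF.tv rfl q14_23 c4_14_23_0) (EF.tv rfl q15_23 c4_15_23_0) (EF.tv rfl q16_23 c4_16_23_0) (EF.tv rfl q17_23 c4_17_23_0) (EF.tv rfl q18_23 c4_18_23_0) (EF.tv rfl q19_23 c4_19_23_0) (EF.tv rfl q20_23 c4_20_23_0) (EF.tv rfl q21_23 c4_21_23_0) (EF.tv rfl q22_23 c4_22_23_0) (EF.tv rfl q23_23 c4_23_23_0) (EF.tv rfl q24_23 c4_24_23_0) (EF.tv rfl q25_23 c4_25_23_0) (EF.tv rfl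 q26_23 c4_26_23_0) (EF.far g27_23) (EF.far g28_23) (EF.far g29_23) (EF.far g30_23) (EF.far g31_23) (EF.far g32_23) (EF.far g33_23) (EF.far g34_23) (EF.far g35_23) (EF.far g36_23) (EF.far g37_23) (EF.far g38_23) (EF.far g39_23) (EF.far g40_23) (EF.far g41_23) (EF.far g42_23) (EF.far g43_23) (EF.far g44_23) (EF.far g45_23) (EF.far g46_23)

theorem f4_23_1 : ∀ tc ∈ tl, EF tc d23 e4_23_1 :=
  tl_forall (EF.tv rfl q0_23 c4_0_23_1) (EF.tv rfl q1_23 c4_1_23_1) (EF.tv rfl q2_23 c4_2_23_1) (EF.tv rfl q3_23 c4_3_23_1) (EF.tv rfl q4_23 c4_4_23_1) (EF.tv rfl q5_23 c4_5_23_1) (EF.tv rfl q6_23 c4_6_23_1) (EF.tv rfl q7_23 c4_7_23_1) (EF.tv rfl q8_23 c4_8_23_1) (EF.tv rfl q9_23 c4_9_23_1) (EF.tv rfl q10_23 c4_10_23_1) (EF.tv rfl q11_23 c4_11_23_1) (EF.tv rfl q12_23 c4_12_23_1) (EF.tv rfl q13_23 c4_13_23_1) (EF.tv rfl q14_23 c4_14_23_1)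 (EF.tv rfl q15_23 c4_15_23_1) (EF.tv rfl q16_23 c4_16_23_1) (EF.tv rfl q17_23 c4_17_23_1) (EF.tv rfl q18_23 c4_18_23_1) (EF.tv rfl q19_23 c4_19_23_1) (EF.tv rfl q20_23 c4_20_23_1) (EF.tv rfl q21_23 c4_21_23_1) (EF.tv rfl q22_23 c4_22_23_1) (EF.tv rfl q23_23 c4_23_23_1) (EF.tv rfl q24_23 c4_24_23_1) (EF.tv rfl q25_23 c4_25_23_1) (EF.tv rfl q26_23 c4_26_23_1) (EF.far g27_23) (EF.far g28_23) (EF.far g29_23) (EF.far g30_23) (EF.far g31_23) (EF.far g32_23) (EF.far g33_23) (EF.far g34_23) (EF.far g35_23) (EF.far g36_23) (EF.far g37_23) (EF.far g38_23) (EF.far g39_23) (EF.far g40_23) (EF.far g41_23) (EF.far g42_23) (EF.far g43_23) (EF.far g44_23) (EF.far g45_23) (EF.far g46_23)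

theorem f4_23_2 : ∀ tc ∈ tl, EF tc d23 e4_23_2 :=
  tl_forall (EF.tv rfl q0_23 c4_0_23_2) (EF.tv rfl q1_23 c4_1_23_2) (EF.tv rfl q2_23 c4_2_23_2) (EF.tv rfl q3_23 c4_3_23_2) (EF.tv rfl q4_23 c4_4_23_2) (EF.tv rfl q5_23 c4_5_23_2) (EF.tv rfl q6_23 c4_6_23_2) (EF.tv rfl q7_23 c4_7_23_2) (EF.tv rfl q8_23 c4_8_23_2) (EF.tv rfl q9_23 c4_9_23_2) (EF.tv rfl q10_23 c4_10_23_2) (EF.tv rfl q11_23 c4_11_23_2) (EF.tv rfl q12_23 c4_12_23_2) (EF.tv rfl q13_23 c4_13_23_2) (EF.tv rfl q14_23 c4_14_23_2) (EF.tv rfl q15_23 c4_15_23_2) (EF.tv rfl q16_23 c4_16_23_2) (EF.tv rfl q17_23 c4_17_23_2) (EF.tv rfl q18_23 c4_18_23_2) (EF.tv rfl q19_23 c4_19_23_2) (EF.tv rfl q20_23 c4_20_23_2) (EF.tv rfl q21_23 c4_21_23_2) (EF.tv rfl q22_23 c4_22_23_2) (EF.tv rfl q23_23 c4_23_23_2) (EF.tv rfl q24_23 c4_24_23_2) (EF.tv rfl q25_23 c4_25_23_2) (EF.tv rfl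 q26_23 c4_26_23_2) (EF.far g27_23) (EF.far g28_23) (EF.far g29_23) (EF.far g30_23) (EF.far g31_23) (EF.far g32_23) (EF.far g33_23) (EF.far g34_23) (EF.far g35_23) (EF.far g36_23) (EF.far g37_23) (EF.far g38_23) (EF.far g39_23) (EF.far g40_23) (EF.far g41_23) (EF.far g42_23) (EF.far g43_23) (EF.far g44_23) (EF.far g45_23) (EF.far g46_23)

theorem f4_23_3 : ∀ tc ∈ tl, EF tc d23 e4_23_3 :=
  tl_forall (EF.tv rfl q0_23 c4_0_23_3) (EF.tv rfl q1_23 c4_1_23_3) (EF.tv rfl q2_23 c4_2_23_3) (EF.tv rfl q3_23 c4_3_23_3) (EF.tv rfl q4_23 c4_4_23_3) (EF.tv rfl q5_23 c4_5_23_3) (EF.tv rfl q6_23 c4_6_23_3) (EF.tv rfl q7_23 c4_7_23_3) (EF.tv rfl q8_23 c4_8_23_3) (EF.tv rfl q9_23 c4_9_23_3) (EF.tv rfl q10_23 c4_10_23_3) (EF.tv rfl q11_23 c4_11_23_3) (EF.tv rfl q12_23 c4_12_23_3) (EF.tv rfl q13_23 c4_13_23_3) (EF.tv rfl q14_23 c4_14_23_3)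 (EF.tv rfl q15_23 c4_15_23_3) (EF.tv rfl q16_23 c4_16_23_3) (EF.tv rfl q17_23 c4_17_23_3) (EF.tv rfl q18_23 c4_18_23_3) (EF.tv rfl q19_23 c4_19_23_3) (EF.tv rfl q20_23 c4_20_23_3) (EF.tv rfl q21_23 c4_21_23_3) (EF.tv rfl q22_23 c4_22_23_3) (EF.tv rfl q23_23 c4_23_23_3) (EF.tv rfl q24_23 c4_24_23_3) (EF.tv rfl q25_23 c4_25_23_3) (EF.tv rfl q26_23 c4_26_23_3) (EF.far g27_23) (EF.far g28_23) (EF.far g29_23) (EF.far g30_23) (EF.far g31_23) (EF.far g32_23) (EF.far g33_23) (EF.far g34_23) (EF.far g35_23) (EF.far g36_23) (EF.far g37_23) (EF.far g38_23) (EF.far g39_23) (EF.far g40_23) (EF.far g41_23) (EF.far g42_23) (EF.far g43_23) (EF.far g44_23) (EF.far g45_23) (EF.far g46_23)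

theorem f6_23_4 : ∀ tc ∈ tl, EF tc d23 e6_23_4 :=
  tl_forall (EF.tv rfl q0_23 c6_0_23_4) (EF.tv rfl q1_23 c6_1_23_4) (EF.tv rfl q2_23 c6_2_23_4) (EF.tv rfl q3_23 c6_3_23_4) (EF.tv rfl q4_23 c6_4_23_4) (EF.tv rfl q5_23 c6_5_23_4) (EF.tv rfl q6_23 c6_6_23_4) (EF.tv rfl q7_23 c6_7_23_4) (EF.tv rfl q8_23 c6_8_23_4) (EF.tv rfl q9_23 c6_9_23_4) (EF.tv rfl q10_23 c6_10_23_4) (EF.tv rfl q11_23 c6_11_23_4) (EF.tv rfl q12_23 c6_12_23_4) (EF.tv rfl q13_23 c6_13_23_4) (EF.tv rfl q14_23 c6_14_23_4) (EF.tv rfl q15_23 c6_15_23_4) (EF.tv rfl q16_23 c6_16_23_4) (EF.tv rfl q17_23 c6_17_23_4) (EF.tv rfl q18_23 c6_18_23_4) (EF.tv rfl q19_23 c6_19_23_4) (EF.tv rfl q20_23 c6_20_23_4) (EF.tv rfl q21_23 c6_21_23_4) (EF.tv rfl q22_23 c6_22_23_4) (EF.tv rfl q23_23 c6_23_23_4) (EF.tv rfl q24_23 c6_24_23_4) (EF.tv rfl q25_23 c6_25_23_4) (EF.tv rfl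 q26_23 c6_26_23_4) (EF.far g27_23) (EF.far g28_23) (EF.far g29_23) (EF.far g30_23) (EF.far g31_23) (EF.far g32_23) (EF.far g33_23) (EF.far g34_23) (EF.far g35_23) (EF.far g36_23) (EF.far g37_23) (EF.far g38_23) (EF.far g39_23) (EF.far g40_23) (EF.far g41_23) (EF.far g42_23) (EF.far g43_23) (EF.far g44_23) (EF.far g45_23) (EF.far g46_23)

theorem f6_23_5 : ∀ tc ∈ tl, EF tc d23 e6_23_5 :=
  tl_forall (EF.tv rfl q0_23 c6_0_23_5) (EF.tv rfl q1_23 c6_1_23_5) (EF.tv rfl q2_23 c6_2_23_5) (EF.tv rfl q3_23 c6_3_23_5) (EF.tv rfl q4_23 c6_4_23_5) (EF.tv rfl q5_23 c6_5_23_5) (EF.tv rfl q6_23 c6_6_23_5) (EF.tv rfl q7_23 c6_7_23_5) (EF.tv rfl q8_23 c6_8_23_5) (EF.tv rfl q9_23 c6_9_23_5) (EF.tv rfl q10_23 c6_10_23_5) (EF.tv rfl q11_23 c6_11_23_5) (EF.tv rfl q12_23 c6_12_23_5) (EF.tv rfl q13_23 c6_13_23_5) (EF.tv rfl q14_23 c6_14_23_5)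 (EF.tv rfl q15_23 c6_15_23_5) (EF.tv rfl q16_23 c6_16_23_5) (EF.tv rfl q17_23 c6_17_23_5) (EF.tv rfl q18_23 c6_18_23_5) (EF.tv rfl q19_23 c6_19_23_5) (EF.tv rfl q20_23 c6_20_23_5) (EF.tv rfl q21_23 c6_21_23_5) (EF.tv rfl q22_23 c6_22_23_5) (EF.tv rfl q23_23 c6_23_23_5) (EF.tv rfl q24_23 c6_24_23_5) (EF.tv rfl q25_23 c6_25_23_5) (EF.tv rfl q26_23 c6_26_23_5) (EF.far g27_23) (EF.far g28_23) (EF.far g29_23) (EF.far g30_23) (EF.far g31_23) (EF.far g32_23) (EF.far g33_23) (EF.far g34_23) (EF.far g35_23) (EF.far g36_23) (EF.far g37_23) (EF.far g38_23) (EF.far g39_23) (EF.far g40_23) (EF.far g41_23) (EF.far g42_23) (EF.far g43_23) (EF.far g44_23) (EF.far g45_23) (EF.far g46_23)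

theorem f6_23_6 : ∀ tc ∈ tl, EF tc d23 e6_23_6 :=
  tl_forall (EF.tv rfl q0_23 c6_0_23_6) (EF.tv rfl q1_23 c6_1_23_6) (EF.tv rfl q2_23 c6_2_23_6) (EF.tv rfl q3_23 c6_3_23_6) (EF.tv rfl q4_23 c6_4_23_6) (EF.tv rfl q5_23 c6_5_23_6) (EF.tv rfl q6_23 c6_6_23_6) (EF.tv rfl q7_23 c6_7_23_6) (EF.tv rfl q8_23 c6_8_23_6) (EF.tv rfl q9_23 c6_9_23_6) (EF.tv rfl q10_23 c6_10_23_6) (EF.tv rfl q11_23 c6_11_23_6) (EF.tv rfl q12_23 c6_12_23_6) (EF.tv rfl q13_23 c6_13_23_6) (EF.tv rfl q14_23 c6_14_23_6) (EF.tv rfl q15_23 c6_15_23_6) (EF.tv rfl q16_23 c6_16_23_6) (EF.tv rfl q17_23 c6_17_23_6) (EF.tv rfl q18_23 c6_18_23_6) (EF.tv rfl q19_23 c6_19_23_6) (EF.tv rfl q20_23 c6_20_23_6) (EF.tv rfl q21_23 c6_21_23_6) (EF.tv rfl q22_23 c6_22_23_6) (EF.tv rfl q23_23 c6_23_23_6) (EF.tv rfl q24_23 c6_24_23_6) (EF.tv rfl q25_23 c6_25_23_6) (EF.tv rfl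 q26_23 c6_26_23_6) (EF.far g27_23) (EF.far g28_23) (EF.far g29_23) (EF.far g30_23) (EF.far g31_23) (EF.far g32_23) (EF.far g33_23) (EF.far g34_23) (EF.far g35_23) (EF.far g36_23) (EF.far g37_23) (EF.far g38_23) (EF.far g39_23) (EF.far g40_23) (EF.far g41_23) (EF.far g42_23) (EF.far g43_23) (EF.far g44_23) (EF.far g45_23) (EF.far g46_23)

theorem f6_23_7 : ∀ tc ∈ tl, EF tc d23 e6_23_7 :=
  tl_forall (EF.tv rfl q0_23 c6_0_23_7) (EF.tv rfl q1_23 c6_1_23_7) (EF.tv rfl q2_23 c6_2_23_7) (EF.tv rfl q3_23 c6_3_23_7) (EF.tv rfl q4_23 c6_4_23_7) (EF.tv rfl q5_23 c6_5_23_7) (EF.tv rfl q6_23 c6_6_23_7) (EF.tv rfl q7_23 c6_7_23_7) (EF.tv rfl q8_23 c6_8_23_7) (EF.tv rfl q9_23 c6_9_23_7) (EF.tv rfl q10_23 c6_10_23_7) (EF.tv rfl q11_23 c6_11_23_7) (EF.tv rfl q12_23 c6_12_23_7) (EF.tv rfl q13_23 c6_13_23_7) (EF.tv rfl q14_23 c6_14_23_7)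 (EF.tv rfl q15_23 c6_15_23_7) (EF.tv rfl q16_23 c6_16_23_7) (EF.tv rfl q17_23 c6_17_23_7) (EF.tv rfl q18_23 c6_18_23_7) (EF.tv rfl q19_23 c6_19_23_7) (EF.tv rfl q20_23 c6_20_23_7) (EF.tv rfl q21_23 c6_21_23_7) (EF.tv rfl q22_23 c6_22_23_7) (EF.tv rfl q23_23 c6_23_23_7) (EF.tv rfl q24_23 c6_24_23_7) (EF.tv rfl q25_23 c6_25_23_7) (EF.tv rfl q26_23 c6_26_23_7) (EF.far g27_23) (EF.far g28_23) (EF.far g29_23) (EF.far g30_23) (EF.far g31_23) (EF.far g32_23) (EF.far g33_23) (EF.far g34_23) (EF.far g35_23) (EF.far g36_23) (EF.far g37_23) (EF.far g38_23) (EF.far g39_23) (EF.far g40_23) (EF.far g41_23) (EF.far g42_23) (EF.far g43_23) (EF.far g44_23) (EF.far g45_23) (EF.far g46_23)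

theorem f8_23_8 : ∀ tc ∈ tl, EF tc d23 e8_23_8 :=
  tl_forall (EF.tv rfl q0_23 c8_0_23_8) (EF.tv rfl q1_23 c8_1_23_8) (EF.tv rfl q2_23 c8_2_23_8) (EF.tv rfl q3_23 c8_3_23_8) (EF.tv rfl q4_23 c8_4_23_8) (EF.tv rfl q5_23 c8_5_23_8) (EF.tv rfl q6_23 c8_6_23_8) (EF.tv rfl q7_23 c8_7_23_8) (EF.tv rfl q8_23 c8_8_23_8) (EF.tv rfl q9_23 c8_9_23_8) (EF.tv rfl q10_23 c8_10_23_8) (EF.tv rfl q11_23 c8_11_23_8) (EF.tv rfl q12_23 c8_12_23_8) (EF.tv rfl q13_23 c8_13_23_8) (EF.tv rfl q14_23 c8_14_23_8) (EF.tv rfl q15_23 c8_15_23_8) (EF.tv rfl q16_23 c8_16_23_8) (EF.tv rfl q17_23 c8_17_23_8) (EF.tv rfl q18_23 c8_18_23_8) (EF.tv rfl q19_23 c8_19_23_8) (EF.tv rfl q20_23 c8_20_23_8) (EF.tv rfl q21_23 c8_21_23_8) (EF.tv rfl q22_23 c8_22_23_8) (EF.tv rfl q23_23 c8_23_23_8) (EF.tv rfl q24_23 c8_24_23_8) (EF.tv rfl q25_23 c8_25_23_8) (EF.tv rfl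 q26_23 c8_26_23_8) (EF.far g27_23) (EF.far g28_23) (EF.far g29_23) (EF.far g30_23) (EF.far g31_23) (EF.far g32_23) (EF.far g33_23) (EF.far g34_23) (EF.far g35_23) (EF.far g36_23) (EF.far g37_23) (EF.far g38_23) (EF.far g39_23) (EF.far g40_23) (EF.far g41_23) (EF.far g42_23) (EF.far g43_23) (EF.far g44_23) (EF.far g45_23) (EF.far g46_23)

theorem f8_23_9 : ∀ tc ∈ tl, EF tc d23 e8_23_9 :=
  tl_forall (EF.tv rfl q0_23 c8_0_23_9) (EF.tv rfl q1_23 c8_1_23_9) (EF.tv rfl q2_23 c8_2_23_9) (EF.tv rfl q3_23 c8_3_23_9) (EF.tv rfl q4_23 c8_4_23_9) (EF.tv rfl q5_23 c8_5_23_9) (EF.tv rfl q6_23 c8_6_23_9) (EF.tv rfl q7_23 c8_7_23_9) (EF.tv rfl q8_23 c8_8_23_9) (EF.tv rfl q9_23 c8_9_23_9) (EF.tv rfl q10_23 c8_10_23_9) (EF.tv rfl q11_23 c8_11_23_9) (EF.tv rfl q12_23 c8_12_23_9) (EF.tv rfl q13_23 c8_13_23_9) (EF.tv rfl q14_23 c8_14_23_9)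 (EF.tv rfl q15_23 c8_15_23_9) (EF.tv rfl q16_23 c8_16_23_9) (EF.tv rfl q17_23 c8_17_23_9) (EF.tv rfl q18_23 c8_18_23_9) (EF.tv rfl q19_23 c8_19_23_9) (EF.tv rfl q20_23 c8_20_23_9) (EF.tv rfl q21_23 c8_21_23_9) (EF.tv rfl q22_23 c8_22_23_9) (EF.tv rfl q23_23 c8_23_23_9) (EF.tv rfl q24_23 c8_24_23_9) (EF.tv rfl q25_23 c8_25_23_9) (EF.tv rfl q26_23 c8_26_23_9) (EF.far g27_23) (EF.far g28_23) (EF.far g29_23) (EF.far g30_23) (EF.far g31_23) (EF.far g32_23) (EF.far g33_23) (EF.far g34_23) (EF.far g35_23) (EF.far g36_23) (EF.far g37_23) (EF.far g38_23) (EF.far g39_23) (EF.far g40_23) (EF.far g41_23) (EF.far g42_23) (EF.far g43_23) (EF.far g44_23) (EF.far g45_23) (EF.far g46_23)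

theorem h4_23 : EvC tl 4 (shK Dec.one 4) d23 :=
  EvC.of2 (tab := tabX 4) (Ls := [e4_23_0, e4_23_1, e4_23_2, e4_23_3]) (tabX_ok 4)
    (by decide +kernel) (by decide +kernel) (by
    intro L hL
    simp only [List.mem_cons, List.not_mem_nil, or_false] at hL
    rcases hL with rfl | rfl | rfl | rfl
    · exact f4_23_0
    · exact f4_23_1
    · exact f4_23_2
    · exact f4_23_3)

theorem h6_23 : EvC tl 6 (shK Dec.one 6) d23 :=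
  EvC.of2 (tab := tabX 6) (Ls := [e6_23_4, e6_23_5, e6_23_6, e6_23_7]) (tabX_ok 6)
    (by decide +kernel) (by decide +kernel) (by
    intro L hL
    simp only [List.mem_cons, List.not_mem_nil, or_false] at hL
    rcases hL with rfl | rfl | rfl | rfl
    · exact f6_23_4
    · exact f6_23_5
    · exact f6_23_6
    · exact f6_23_7)

theorem h8_23 : EvC tl 0 (shA Dec.one 106) d23 :=
  EvC.of2 (tab := tabX 0) (Ls := [e8_23_8, e8_23_9]) (tabX_ok 0)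
    (by decide +kernel) (by decide +kernel) (by
    intro L hL
    simp only [List.mem_cons, List.not_mem_nil, or_false] at hL
    rcases hL with rfl | rfl
    · exact f8_23_8
    · exact f8_23_9)

theorem hh_23 : EvC8 tl Dec.one d23 := EvC8.a h8_23

end Pool.Agent.TSE
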