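import Pool.Agent.TSE.C24_0
import Pool.Agent.TSE.C24_2
import Pool.Agent.TSE.C24_4
import Pool.Agent.TSE.C24_6
import Pool.Agent.TSE.C24_8
import Pool.Agent.TSE.C24_10
import Pool.Agent.TSE.C24_12
import Pool.Agent.TSE.C24_14
import Pool.Agent.TSE.C24_16
import Pool.Agent.TSE.C24_18
import Pool.Agent.TSE.C24_20
import Pool.Agent.TSE.C24_22
import Pool.Agent.TSE.C24_24
import Pool.Agent.TSE.C24_26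
import Pool.Agent.TSE.C24_28
import Pool.Agent.TSE.C24_30
import Pool.Agent.TSE.C24_32
import Pool.Agent.TSE.C24_34
import Pool.Agent.TSE.C24_36
import Pool.Agent.TSE.C24_38
import Pool.Agent.TSE.C24_40
import Pool.Agent.TSE.C24_42
import Pool.Agent.TSE.C24_44
import Pool.Agent.TSE.T
import Pool.Agent.TSE.BaseC
import Pool.Agent.TSG.TabX

set_option autoImplicit false

/-! # One interval of the total mass (MP_d27362_co) -/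

namespace Pool.Agent.TSE

open Pool.Agent.TSC
open Pool.Agent.TSC.Dec
open Pool.Agent.TSG


theorem kf24 : ∀ tc ∈ tl, Pool.Agent.TSK.KF tc d24 :=
  tl_forall (KF.tv rfl q0_24 c0_24) (KF.tv rfl q1_24 c1_24) (KF.tv rfl q2_24 c2_24) (KF.tv rfl q3_24 c3_24) (KF.tv rfl q4_24 c4_24) (KF.tv rfl q5_24 c5_24) (KF.tv rfl q6_24 c6_24) (KF.tv rfl q7_24 c7_24) (KF.tv rfl q8_24 c8_24) (KF.tv rfl q9_24 c9_24) (KF.tv rfl q10_24 c10_24) (KF.tv rfl q11_24 c11_24) (KF.tv rfl q12_24 c12_24) (KF.tv rfl q13_24 c13_24) (KF.tv rfl q14_24 c14_24) (KF.tv rfl q15_24 c15_24) (KF.tv rfl q16_24 c16_24) (KF.tv rfl q17_24 c17_24) (KF.tv rfl q18_24 c18_24) (KF.tv rfl q19_24 c19_24) (KF.tv rfl q20_24 c20_24) (KF.tv rfl q21_24 c21_24) (KF.tv rfl q22_24 c22_24) (KF.tv rfl q23_24 c23_24) (KF.tv rfl q24_24 c24_24) (KF.tv rfl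 q25_24 c25_24) (KF.tv rfl q26_24 c26_24) (KF.tv rfl q27_24 c27_24) (KF.tv rfl q28_24 c28_24) (KF.tv rfl q29_24 c29_24) (KF.tv rfl q30_24 c30_24) (KF.tv rfl q31_24 c31_24) (KF.tv rfl q32_24 c32_24) (KF.tv rfl q33_24 c33_24) (KF.tv rfl q34_24 c34_24) (KF.tv rfl q35_24 c35_24) (KF.tv rfl q36_24 c36_24) (KF.tv rfl q37_24 c37_24) (KF.tv rfl q38_24 c38_24) (KF.tv rfl q39_24 c39_24) (KF.tv rfl q40_24 c40_24) (KF.tv rfl q41_24 c41_24) (KF.tv rfl q42_24 c42_24) (KF.tv rfl q43_24 c43_24) (KF.tv rfl q44_24 c44_24) (Pool.Agent.TSK.KF.far g45_24) (Pool.Agent.TSK.KF.far g46_24)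

theorem f4_24_0 : ∀ tc ∈ tl, EF tc d24 e4_24_0 :=
  tl_forall (EF.tv rfl q0_24 c4_0_24_0) (EF.tv rfl q1_24 c4_1_24_0) (EF.tv rfl q2_24 c4_2_24_0) (EF.tv rfl q3_24 c4_3_24_0) (EF.tv rfl q4_24 c4_4_24_0) (EF.tv rfl q5_24 c4_5_24_0) (EF.tv rfl q6_24 c4_6_24_0) (EF.tv rfl q7_24 c4_7_24_0) (EF.tv rfl q8_24 c4_8_24_0) (EF.tv rfl q9_24 c4_9_24_0) (EF.tv rfl q10_24 c4_10_24_0) (EF.tv rfl q11_24 c4_11_24_0) (EF.tv rfl q12_24 c4_12_24_0) (EF.tv rfl q13_24 c4_13_24_0) (EF.tv rfl q14_24 c4_14_24_0) (EF.tv rfl q15_24 c4_15_24_0) (EF.tv rfl q16_24 c4_16_24_0) (EF.tv rfl q17_24 c4_17_24_0) (EF.tv rfl q18_24 c4_18_24_0) (EF.tv rfl q19_24 c4_19_24_0) (EF.tv rfl q20_24 c4_20_24_0) (EF.tv rfl q21_24 c4_21_24_0) (EF.tv rfl q22_24 c4_22_24_0) (EF.tv rfl q23_24 c4_23_24_0) (EF.tv rfl q24_24 c4_24_24_0) (EF.tv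 rfl q25_24 c4_25_24_0) (EF.tv rfl q26_24 c4_26_24_0) (EF.tv rfl q27_24 c4_27_24_0) (EF.tv rfl q28_24 c4_28_24_0) (EF.tv rfl q29_24 c4_29_24_0) (EF.tv rfl q30_24 c4_30_24_0) (EF.tv rfl q31_24 c4_31_24_0) (EF.tv rfl q32_24 c4_32_24_0) (EF.tv rfl q33_24 c4_33_24_0) (EF.tv rfl q34_24 c4_34_24_0) (EF.tv rfl q35_24 c4_35_24_0) (EF.tv rfl q36_24 c4_36_24_0) (EF.tv rfl q37_24 c4_37_24_0) (EF.tv rfl q38_24 c4_38_24_0) (EF.tv rfl q39_24 c4_39_24_0) (EF.tv rfl q40_24 c4_40_24_0) (EF.tv rfl q41_24 c4_41_24_0) (EF.tv rfl q42_24 c4_42_24_0) (EF.tv rfl q43_24 c4_43_24_0) (EF.tv rfl q44_24 c4_44_24_0) (EF.far g45_24) (EF.far g46_24)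

theorem f4_24_1 : ∀ tc ∈ tl, EF tc d24 e4_24_1 :=
  tl_forall (EF.tv rfl q0_24 c4_0_24_1) (EF.tv rfl q1_24 c4_1_24_1) (EF.tv rfl q2_24 c4_2_24_1) (EF.tv rfl q3_24 c4_3_24_1) (EF.tv rfl q4_24 c4_4_24_1) (EF.tv rfl q5_24 c4_5_24_1) (EF.tv rfl q6_24 c4_6_24_1) (EF.tv rfl q7_24 c4_7_24_1) (EF.tv rfl q8_24 c4_8_24_1) (EF.tv rfl q9_24 c4_9_24_1) (EF.tv rfl q10_24 c4_10_24_1) (EF.tv rfl q11_24 c4_11_24_1) (EF.tv rfl q12_24 c4_12_24_1) (EF.tv rfl q13_24 c4_13_24_1) (EF.tv rfl q14_24 c4_14_24_1) (EF.tv rfl q15_24 c4_15_24_1) (EF.tv rfl q16_24 c4_16_24_1) (EF.tv rfl q17_24 c4_17_24_1) (EF.tv rfl q18_24 c4_18_24_1) (EF.tv rfl q19_24 c4_19_24_1) (EF.tv rfl q20_24 c4_20_24_1) (EF.tv rfl q21_24 c4_21_24_1) (EF.tv rfl q22_24 c4_22_24_1) (EF.tv rfl q23_24 c4_23_24_1) (EF.tv rfl q24_24 c4_24_24_1) (EF.tv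 rfl q25_24 c4_25_24_1) (EF.tv rfl q26_24 c4_26_24_1) (EF.tv rfl q27_24 c4_27_24_1) (EF.tv rfl q28_24 c4_28_24_1) (EF.tv rfl q29_24 c4_29_24_1) (EF.tv rfl q30_24 c4_30_24_1) (EF.tv rfl q31_24 c4_31_24_1) (EF.tv rfl q32_24 c4_32_24_1) (EF.tv rfl q33_24 c4_33_24_1) (EF.tv rfl q34_24 c4_34_24_1) (EF.tv rfl q35_24 c4_35_24_1) (EF.tv rfl q36_24 c4_36_24_1) (EF.tv rfl q37_24 c4_37_24_1) (EF.tv rfl q38_24 c4_38_24_1) (EF.tv rfl q39_24 c4_39_24_1) (EF.tv rfl q40_24 c4_40_24_1) (EF.tv rfl q41_24 c4_41_24_1) (EF.tv rfl q42_24 c4_42_24_1) (EF.tv rfl q43_24 c4_43_24_1) (EF.tv rfl q44_24 c4_44_24_1) (EF.far g45_24) (EF.far g46_24)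

theorem f4_24_2 : ∀ tc ∈ tl, EF tc d24 e4_24_2 :=
  tl_forall (EF.tv rfl q0_24 c4_0_24_2) (EF.tv rfl q1_24 c4_1_24_2) (EF.tv rfl q2_24 c4_2_24_2) (EF.tv rfl q3_24 c4_3_24_2) (EF.tv rfl q4_24 c4_4_24_2) (EF.tv rfl q5_24 c4_5_24_2) (EF.tv rfl q6_24 c4_6_24_2) (EF.tv rfl q7_24 c4_7_24_2) (EF.tv rfl q8_24 c4_8_24_2) (EF.tv rfl q9_24 c4_9_24_2) (EF.tv rfl q10_24 c4_10_24_2) (EF.tv rfl q11_24 c4_11_24_2) (EF.tv rfl q12_24 c4_12_24_2) (EF.tv rfl q13_24 c4_13_24_2) (EF.tv rfl q14_24 c4_14_24_2) (EF.tv rfl q15_24 c4_15_24_2) (EF.tv rfl q16_24 c4_16_24_2) (EF.tv rfl q17_24 c4_17_24_2) (EF.tv rfl q18_24 c4_18_24_2) (EF.tv rfl q19_24 c4_19_24_2) (EF.tv rfl q20_24 c4_20_24_2) (EF.tv rfl q21_24 c4_21_24_2) (EF.tv rfl q22_24 c4_22_24_2) (EF.tv rfl q23_24 c4_23_24_2) (EF.tv rfl q24_24 c4_24_24_2) (EF.tv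 rfl q25_24 c4_25_24_2) (EF.tv rfl q26_24 c4_26_24_2) (EF.tv rfl q27_24 c4_27_24_2) (EF.tv rfl q28_24 c4_28_24_2) (EF.tv rfl q29_24 c4_29_24_2) (EF.tv rfl q30_24 c4_30_24_2) (EF.tv rfl q31_24 c4_31_24_2) (EF.tv rfl q32_24 c4_32_24_2) (EF.tv rfl q33_24 c4_33_24_2) (EF.tv rfl q34_24 c4_34_24_2) (EF.tv rfl q35_24 c4_35_24_2) (EF.tv rfl q36_24 c4_36_24_2) (EF.tv rfl q37_24 c4_37_24_2) (EF.tv rfl q38_24 c4_38_24_2) (EF.tv rfl q39_24 c4_39_24_2) (EF.tv rfl q40_24 c4_40_24_2) (EF.tv rfl q41_24 c4_41_24_2) (EF.tv rfl q42_24 c4_42_24_2) (EF.tv rfl q43_24 c4_43_24_2) (EF.tv rfl q44_24 c4_44_24_2) (EF.far g45_24) (EF.far g46_24)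

theorem f4_24_3 : ∀ tc ∈ tl, EF tc d24 e4_24_3 :=
  tl_forall (EF.tv rfl q0_24 c4_0_24_3) (EF.tv rfl q1_24 c4_1_24_3) (EF.tv rfl q2_24 c4_2_24_3) (EF.tv rfl q3_24 c4_3_24_3) (EF.tv rfl q4_24 c4_4_24_3) (EF.tv rfl q5_24 c4_5_24_3) (EF.tv rfl q6_24 c4_6_24_3) (EF.tv rfl q7_24 c4_7_24_3) (EF.tv rfl q8_24 c4_8_24_3) (EF.tv rfl q9_24 c4_9_24_3) (EF.tv rfl q10_24 c4_10_24_3) (EF.tv rfl q11_24 c4_11_24_3) (EF.tv rfl q12_24 c4_12_24_3) (EF.tv rfl q13_24 c4_13_24_3) (EF.tv rfl q14_24 c4_14_24_3) (EF.tv rfl q15_24 c4_15_24_3) (EF.tv rfl q16_24 c4_16_24_3) (EF.tv rfl q17_24 c4_17_24_3) (EF.tv rfl q18_24 c4_18_24_3) (EF.tv rfl q19_24 c4_19_24_3) (EF.tv rfl q20_24 c4_20_24_3) (EF.tv rfl q21_24 c4_21_24_3) (EF.tv rfl q22_24 c4_22_24_3) (EF.tv rfl q23_24 c4_23_24_3) (EF.tv rfl q24_24 c4_24_24_3) (EF.tv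 rfl q25_24 c4_25_24_3) (EF.tv rfl q26_24 c4_26_24_3) (EF.tv rfl q27_24 c4_27_24_3) (EF.tv rfl q28_24 c4_28_24_3) (EF.tv rfl q29_24 c4_29_24_3) (EF.tv rfl q30_24 c4_30_24_3) (EF.tv rfl q31_24 c4_31_24_3) (EF.tv rfl q32_24 c4_32_24_3) (EF.tv rfl q33_24 c4_33_24_3) (EF.tv rfl q34_24 c4_34_24_3) (EF.tv rfl q35_24 c4_35_24_3) (EF.tv rfl q36_24 c4_36_24_3) (EF.tv rfl q37_24 c4_37_24_3) (EF.tv rfl q38_24 c4_38_24_3) (EF.tv rfl q39_24 c4_39_24_3) (EF.tv rfl q40_24 c4_40_24_3) (EF.tv rfl q41_24 c4_41_24_3) (EF.tv rfl q42_24 c4_42_24_3) (EF.tv rfl q43_24 c4_43_24_3) (EF.tv rfl q44_24 c4_44_24_3) (EF.far g45_24) (EF.far g46_24)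

theorem f6_24_4 : ∀ tc ∈ tl, EF tc d24 e6_24_4 :=
  tl_forall (EF.tv rfl q0_24 c6_0_24_4) (EF.tv rfl q1_24 c6_1_24_4) (EF.tv rfl q2_24 c6_2_24_4) (EF.tv rfl q3_24 c6_3_24_4) (EF.tv rfl q4_24 c6_4_24_4) (EF.tv rfl q5_24 c6_5_24_4) (EF.tv rfl q6_24 c6_6_24_4) (EF.tv rfl q7_24 c6_7_24_4) (EF.tv rfl q8_24 c6_8_24_4) (EF.tv rfl q9_24 c6_9_24_4) (EF.tv rfl q10_24 c6_10_24_4) (EF.tv rfl q11_24 c6_11_24_4) (EF.tv rfl q12_24 c6_12_24_4) (EF.tv rfl q13_24 c6_13_24_4) (EF.tv rfl q14_24 c6_14_24_4) (EF.tv rfl q15_24 c6_15_24_4) (EF.tv rfl q16_24 c6_16_24_4) (EF.tv rfl q17_24 c6_17_24_4) (EF.tv rfl q18_24 c6_18_24_4) (EF.tv rfl q19_24 c6_19_24_4) (EF.tv rfl q20_24 c6_20_24_4) (EF.tv rfl q21_24 c6_21_24_4) (EF.tv rfl q22_24 c6_22_24_4) (EF.tv rfl q23_24 c6_23_24_4) (EF.tv rfl q24_24 c6_24_24_4) (EF.tv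 rfl q25_24 c6_25_24_4) (EF.tv rfl q26_24 c6_26_24_4) (EF.tv rfl q27_24 c6_27_24_4) (EF.tv rfl q28_24 c6_28_24_4) (EF.tv rfl q29_24 c6_29_24_4) (EF.tv rfl q30_24 c6_30_24_4) (EF.tv rfl q31_24 c6_31_24_4) (EF.tv rfl q32_24 c6_32_24_4) (EF.tv rfl q33_24 c6_33_24_4) (EF.tv rfl q34_24 c6_34_24_4) (EF.tv rfl q35_24 c6_35_24_4) (EF.tv rfl q36_24 c6_36_24_4) (EF.tv rfl q37_24 c6_37_24_4) (EF.tv rfl q38_24 c6_38_24_4) (EF.tv rfl q39_24 c6_39_24_4) (EF.tv rfl q40_24 c6_40_24_4) (EF.tv rfl q41_24 c6_41_24_4) (EF.tv rfl q42_24 c6_42_24_4) (EF.tv rfl q43_24 c6_43_24_4) (EF.tv rfl q44_24 c6_44_24_4) (EF.far g45_24) (EF.far g46_24)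

theorem f6_24_5 : ∀ tc ∈ tl, EF tc d24 e6_24_5 :=
  tl_forall (EF.tv rfl q0_24 c6_0_24_5) (EF.tv rfl q1_24 c6_1_24_5) (EF.tv rfl q2_24 c6_2_24_5) (EF.tv rfl q3_24 c6_3_24_5) (EF.tv rfl q4_24 c6_4_24_5) (EF.tv rfl q5_24 c6_5_24_5) (EF.tv rfl q6_24 c6_6_24_5) (EF.tv rfl q7_24 c6_7_24_5) (EF.tv rfl q8_24 c6_8_24_5) (EF.tv rfl q9_24 c6_9_24_5) (EF.tv rfl q10_24 c6_10_24_5) (EF.tv rfl q11_24 c6_11_24_5) (EF.tv rfl q12_24 c6_12_24_5) (EF.tv rfl q13_24 c6_13_24_5) (EF.tv rfl q14_24 c6_14_24_5) (EF.tv rfl q15_24 c6_15_24_5) (EF.tv rfl q16_24 c6_16_24_5) (EF.tv rfl q17_24 c6_17_24_5) (EF.tv rfl q18_24 c6_18_24_5) (EF.tv rfl q19_24 c6_19_24_5) (EF.tv rfl q20_24 c6_20_24_5) (EF.tv rfl q21_24 c6_21_24_5) (EF.tv rfl q22_24 c6_22_24_5) (EF.tv rfl q23_24 c6_23_24_5) (EF.tv rfl q24_24 c6_24_24_5) (EF.tv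 rfl q25_24 c6_25_24_5) (EF.tv rfl q26_24 c6_26_24_5) (EF.tv rfl q27_24 c6_27_24_5) (EF.tv rfl q28_24 c6_28_24_5) (EF.tv rfl q29_24 c6_29_24_5) (EF.tv rfl q30_24 c6_30_24_5) (EF.tv rfl q31_24 c6_31_24_5) (EF.tv rfl q32_24 c6_32_24_5) (EF.tv rfl q33_24 c6_33_24_5) (EF.tv rfl q34_24 c6_34_24_5) (EF.tv rfl q35_24 c6_35_24_5) (EF.tv rfl q36_24 c6_36_24_5) (EF.tv rfl q37_24 c6_37_24_5) (EF.tv rfl q38_24 c6_38_24_5) (EF.tv rfl q39_24 c6_39_24_5) (EF.tv rfl q40_24 c6_40_24_5) (EF.tv rfl q41_24 c6_41_24_5) (EF.tv rfl q42_24 c6_42_24_5) (EF.tv rfl q43_24 c6_43_24_5) (EF.tv rfl q44_24 c6_44_24_5) (EF.far g45_24) (EF.far g46_24)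

theorem f6_24_6 : ∀ tc ∈ tl, EF tc d24 e6_24_6 :=
  tl_forall (EF.tv rfl q0_24 c6_0_24_6) (EF.tv rfl q1_24 c6_1_24_6) (EF.tv rfl q2_24 c6_2_24_6) (EF.tv rfl q3_24 c6_3_24_6) (EF.tv rfl q4_24 c6_4_24_6) (EF.tv rfl q5_24 c6_5_24_6) (EF.tv rfl q6_24 c6_6_24_6) (EF.tv rfl q7_24 c6_7_24_6) (EF.tv rfl q8_24 c6_8_24_6) (EF.tv rfl q9_24 c6_9_24_6) (EF.tv rfl q10_24 c6_10_24_6) (EF.tv rfl q11_24 c6_11_24_6) (EF.tv rfl q12_24 c6_12_24_6) (EF.tv rfl q13_24 c6_13_24_6) (EF.tv rfl q14_24 c6_14_24_6) (EF.tv rfl q15_24 c6_15_24_6) (EF.tv rfl q16_24 c6_16_24_6) (EF.tv rfl q17_24 c6_17_24_6) (EF.tv rfl q18_24 c6_18_24_6) (EF.tv rfl q19_24 c6_19_24_6) (EF.tv rfl q20_24 c6_20_24_6) (EF.tv rfl q21_24 c6_21_24_6) (EF.tv rfl q22_24 c6_22_24_6) (EF.tv rfl q23_24 c6_23_24_6) (EF.tv rfl q24_24 c6_24_24_6) (EF.tv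 rfl q25_24 c6_25_24_6) (EF.tv rfl q26_24 c6_26_24_6) (EF.tv rfl q27_24 c6_27_24_6) (EF.tv rfl q28_24 c6_28_24_6) (EF.tv rfl q29_24 c6_29_24_6) (EF.tv rfl q30_24 c6_30_24_6) (EF.tv rfl q31_24 c6_31_24_6) (EF.tv rfl q32_24 c6_32_24_6) (EF.tv rfl q33_24 c6_33_24_6) (EF.tv rfl q34_24 c6_34_24_6) (EF.tv rfl q35_24 c6_35_24_6) (EF.tv rfl q36_24 c6_36_24_6) (EF.tv rfl q37_24 c6_37_24_6) (EF.tv rfl q38_24 c6_38_24_6) (EF.tv rfl q39_24 c6_39_24_6) (EF.tv rfl q40_24 c6_40_24_6) (EF.tv rfl q41_24 c6_41_24_6) (EF.tv rfl q42_24 c6_42_24_6) (EF.tv rfl q43_24 c6_43_24_6) (EF.tv rfl q44_24 c6_44_24_6) (EF.far g45_24) (EF.far g46_24)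

theorem f6_24_7 : ∀ tc ∈ tl, EF tc d24 e6_24_7 :=
  tl_forall (EF.tv rfl q0_24 c6_0_24_7) (EF.tv rfl q1_24 c6_1_24_7) (EF.tv rfl q2_24 c6_2_24_7) (EF.tv rfl q3_24 c6_3_24_7) (EF.tv rfl q4_24 c6_4_24_7) (EF.tv rfl q5_24 c6_5_24_7) (EF.tv rfl q6_24 c6_6_24_7) (EF.tv rfl q7_24 c6_7_24_7) (EF.tv rfl q8_24 c6_8_24_7) (EF.tv rfl q9_24 c6_9_24_7) (EF.tv rfl q10_24 c6_10_24_7) (EF.tv rfl q11_24 c6_11_24_7) (EF.tv rfl q12_24 c6_12_24_7) (EF.tv rfl q13_24 c6_13_24_7) (EF.tv rfl q14_24 c6_14_24_7) (EF.tv rfl q15_24 c6_15_24_7) (EF.tv rfl q16_24 c6_16_24_7) (EF.tv rfl q17_24 c6_17_24_7) (EF.tv rfl q18_24 c6_18_24_7) (EF.tv rfl q19_24 c6_19_24_7) (EF.tv rfl q20_24 c6_20_24_7) (EF.tv rfl q21_24 c6_21_24_7) (EF.tv rfl q22_24 c6_22_24_7) (EF.tv rfl q23_24 c6_23_24_7) (EF.tv rfl q24_24 c6_24_24_7) (EF.tv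 rfl q25_24 c6_25_24_7) (EF.tv rfl q26_24 c6_26_24_7) (EF.tv rfl q27_24 c6_27_24_7) (EF.tv rfl q28_24 c6_28_24_7) (EF.tv rfl q29_24 c6_29_24_7) (EF.tv rfl q30_24 c6_30_24_7) (EF.tv rfl q31_24 c6_31_24_7) (EF.tv rfl q32_24 c6_32_24_7) (EF.tv rfl q33_24 c6_33_24_7) (EF.tv rfl q34_24 c6_34_24_7) (EF.tv rfl q35_24 c6_35_24_7) (EF.tv rfl q36_24 c6_36_24_7) (EF.tv rfl q37_24 c6_37_24_7) (EF.tv rfl q38_24 c6_38_24_7) (EF.tv rfl q39_24 c6_39_24_7) (EF.tv rfl q40_24 c6_40_24_7) (EF.tv rfl q41_24 c6_41_24_7) (EF.tv rfl q42_24 c6_42_24_7) (EF.tv rfl q43_24 c6_43_24_7) (EF.tv rfl q44_24 c6_44_24_7) (EF.far g45_24) (EF.far g46_24)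

theorem f8_24_8 : ∀ tc ∈ tl, EF tc d24 e8_24_8 :=
  tl_forall (EF.tv rfl q0_24 c8_0_24_8) (EF.tv rfl q1_24 c8_1_24_8) (EF.tv rfl q2_24 c8_2_24_8) (EF.tv rfl q3_24 c8_3_24_8) (EF.tv rfl q4_24 c8_4_24_8) (EF.tv rfl q5_24 c8_5_24_8) (EF.tv rfl q6_24 c8_6_24_8) (EF.tv rfl q7_24 c8_7_24_8) (EF.tv rfl q8_24 c8_8_24_8) (EF.tv rfl q9_24 c8_9_24_8) (EF.tv rfl q10_24 c8_10_24_8) (EF.tv rfl q11_24 c8_11_24_8) (EF.tv rfl q12_24 c8_12_24_8) (EF.tv rfl q13_24 c8_13_24_8) (EF.tv rfl q14_24 c8_14_24_8) (EF.tv rfl q15_24 c8_15_24_8) (EF.tv rfl q16_24 c8_16_24_8) (EF.tv rfl q17_24 c8_17_24_8) (EF.tv rfl q18_24 c8_18_24_8) (EF.tv rfl q19_24 c8_19_24_8) (EF.tv rfl q20_24 c8_20_24_8) (EF.tv rfl q21_24 c8_21_24_8) (EF.tv rfl q22_24 c8_22_24_8) (EF.tv rfl q23_24 c8_23_24_8) (EF.tv rfl q24_24 c8_24_24_8) (EF.tv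 rfl q25_24 c8_25_24_8) (EF.tv rfl q26_24 c8_26_24_8) (EF.tv rfl q27_24 c8_27_24_8) (EF.tv rfl q28_24 c8_28_24_8) (EF.tv rfl q29_24 c8_29_24_8) (EF.tv rfl q30_24 c8_30_24_8) (EF.tv rfl q31_24 c8_31_24_8) (EF.tv rfl q32_24 c8_32_24_8) (EF.tv rfl q33_24 c8_33_24_8) (EF.tv rfl q34_24 c8_34_24_8) (EF.tv rfl q35_24 c8_35_24_8) (EF.tv rfl q36_24 c8_36_24_8) (EF.tv rfl q37_24 c8_37_24_8) (EF.tv rfl q38_24 c8_38_24_8) (EF.tv rfl q39_24 c8_39_24_8) (EF.tv rfl q40_24 c8_40_24_8) (EF.tv rfl q41_24 c8_41_24_8) (EF.tv rfl q42_24 c8_42_24_8) (EF.tv rfl q43_24 c8_43_24_8) (EF.tv rfl q44_24 c8_44_24_8) (EF.far g45_24) (EF.far g46_24)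

theorem f8_24_9 : ∀ tc ∈ tl, EF tc d24 e8_24_9 :=
  tl_forall (EF.tv rfl q0_24 c8_0_24_9) (EF.tv rfl q1_24 c8_1_24_9) (EF.tv rfl q2_24 c8_2_24_9) (EF.tv rfl q3_24 c8_3_24_9) (EF.tv rfl q4_24 c8_4_24_9) (EF.tv rfl q5_24 c8_5_24_9) (EF.tv rfl q6_24 c8_6_24_9) (EF.tv rfl q7_24 c8_7_24_9) (EF.tv rfl q8_24 c8_8_24_9) (EF.tv rfl q9_24 c8_9_24_9) (EF.tv rfl q10_24 c8_10_24_9) (EF.tv rfl q11_24 c8_11_24_9) (EF.tv rfl q12_24 c8_12_24_9) (EF.tv rfl q13_24 c8_13_24_9) (EF.tv rfl q14_24 c8_14_24_9) (EF.tv rfl q15_24 c8_15_24_9) (EF.tv rfl q16_24 c8_16_24_9) (EF.tv rfl q17_24 c8_17_24_9) (EF.tv rfl q18_24 c8_18_24_9) (EF.tv rfl q19_24 c8_19_24_9) (EF.tv rfl q20_24 c8_20_24_9) (EF.tv rfl q21_24 c8_21_24_9) (EF.tv rfl q22_24 c8_22_24_9) (EF.tv rfl q23_24 c8_23_24_9) (EF.tv rfl q24_24 c8_24_24_9) (EF.tv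 rfl q25_24 c8_25_24_9) (EF.tv rfl q26_24 c8_26_24_9) (EF.tv rfl q27_24 c8_27_24_9) (EF.tv rfl q28_24 c8_28_24_9) (EF.tv rfl q29_24 c8_29_24_9) (EF.tv rfl q30_24 c8_30_24_9) (EF.tv rfl q31_24 c8_31_24_9) (EF.tv rfl q32_24 c8_32_24_9) (EF.tv rfl q33_24 c8_33_24_9) (EF.tv rfl q34_24 c8_34_24_9) (EF.tv rfl q35_24 c8_35_24_9) (EF.tv rfl q36_24 c8_36_24_9) (EF.tv rfl q37_24 c8_37_24_9) (EF.tv rfl q38_24 c8_38_24_9) (EF.tv rfl q39_24 c8_39_24_9) (EF.tv rfl q40_24 c8_40_24_9) (EF.tv rfl q41_24 c8_41_24_9) (EF.tv rfl q42_24 c8_42_24_9) (EF.tv rfl q43_24 c8_43_24_9) (EF.tv rfl q44_24 c8_44_24_9) (EF.far g45_24) (EF.far g46_24)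

theorem h4_24 : EvC tl 4 (shK Dec.one 4) d24 :=
  EvC.of2 (tab := tabX 4) (Ls := [e4_24_0, e4_24_1, e4_24_2, e4_24_3]) (tabX_ok 4)
    (by decide +kernel) (by decide +kernel) (by
    intro L hL
    simp only [List.mem_cons, List.not_mem_nil, or_false] at hL
    rcases hL with rfl | rfl | rfl | rfl
    · exact f4_24_0
    · exact f4_24_1
    · exact f4_24_2
    · exact f4_24_3)

theorem h6_24 : EvC tl 6 (shK Dec.one 6) d24 :=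
  EvC.of2 (tab := tabX 6) (Ls := [e6_24_4, e6_24_5, e6_24_6, e6_24_7]) (tabX_ok 6)
    (by decide +kernel) (by decide +kernel) (by
    intro L hL
    simp only [List.mem_cons, List.not_mem_nil, or_false] at hL
    rcases hL with rfl | rfl | rfl | rfl
    · exact f6_24_4
    · exact f6_24_5
    · exact f6_24_6
    · exact f6_24_7)

theorem h8_24 : EvC tl 0 (shA Dec.one 106) d24 :=
  EvC.of2 (tab := tabX 0) (Ls := [e8_24_8, e8_24_9]) (tabX_ok 0)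
    (by decide +kernel) (by decide +kernel) (by
    intro L hL
    simp only [List.mem_cons, List.not_mem_nil, or_false] at hL
    rcases hL with rfl | rfl
    · exact f8_24_8
    · exact f8_24_9)

theorem hh_24 : EvC8 tl Dec.one d24 := EvC8.a h8_24

end Pool.Agent.TSE
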