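import Pool.Agent.TSE.C25_0
import Pool.Agent.TSE.C25_2
import Pool.Agent.TSE.C25_4
import Pool.Agent.TSE.C25_6
import Pool.Agent.TSE.C25_8
import Pool.Agent.TSE.C25_10
import Pool.Agent.TSE.C25_12
import Pool.Agent.TSE.C25_14
import Pool.Agent.TSE.C25_16
import Pool.Agent.TSE.C25_18
import Pool.Agent.TSE.C25_20
import Pool.Agent.TSE.C25_22
import Pool.Agent.TSE.C25_24
import Pool.Agent.TSE.C25_26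
import Pool.Agent.TSE.C25_28
import Pool.Agent.TSE.C25_30
import Pool.Agent.TSE.C25_32
import Pool.Agent.TSE.C25_34
import Pool.Agent.TSE.C25_36
import Pool.Agent.TSE.C25_38
import Pool.Agent.TSE.C25_40
import Pool.Agent.TSE.C25_42
import Pool.Agent.TSE.T
import Pool.Agent.TSE.BaseC
import Pool.Agent.TSG.TabX

set_option autoImplicit false

/-! # One interval of the total mass (MP_d27362_co) -/

namespace Pool.Agent.TSE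

open Pool.Agent.TSC
open Pool.Agent.TSC.Dec
open Pool.Agent.TSG


theorem kf25 : ∀ tc ∈ tl, Pool.Agent.TSK.KF tc d25 :=
  tl_forall (KF.tv rfl q0_25 c0_25) (KF.tv rfl q1_25 c1_25) (KF.tv rfl q2_25 c2_25) (KF.tv rfl q3_25 c3_25) (KF.tv rfl q4_25 c4_25) (KF.tv rfl q5_25 c5_25) (KF.tv rfl q6_25 c6_25) (KF.tv rfl q7_25 c7_25) (KF.tv rfl q8_25 c8_25) (KF.tv rfl q9_25 c9_25) (KF.tv rfl q10_25 c10_25) (KF.tv rfl q11_25 c11_25) (KF.tv rfl q12_25 c12_25) (KF.tv rfl q13_25 c13_25) (KF.tv rfl q14_25 c14_25) (KF.tv rfl q15_25 c15_25) (KF.tv rfl q16_25 c16_25) (KF.tv rfl q17_25 c17_25) (KF.tv rfl q18_25 c18_25) (KF.tv rfl q19_25 c19_25) (KF.tv rfl q20_25 c20_25) (KF.tv rfl q21_25 c21_25) (KF.tv rfl q22_25 c22_25) (KF.tv rfl q23_25 c23_25) (KF.tv rfl q24_25 c24_25) (KF.tv rfl q25_25 c25_25) (KF.tv rfl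 q26_25 c26_25) (KF.tv rfl q27_25 c27_25) (KF.tv rfl q28_25 c28_25) (KF.tv rfl q29_25 c29_25) (KF.tv rfl q30_25 c30_25) (KF.tv rfl q31_25 c31_25) (KF.tv rfl q32_25 c32_25) (KF.tv rfl q33_25 c33_25) (KF.tv rfl q34_25 c34_25) (KF.tv rfl q35_25 c35_25) (KF.tv rfl q36_25 c36_25) (KF.tv rfl q37_25 c37_25) (KF.tv rfl q38_25 c38_25) (KF.tv rfl q39_25 c39_25) (KF.tv rfl q40_25 c40_25) (KF.tv rfl q41_25 c41_25) (KF.tv rfl q42_25 c42_25) (KF.tv rfl q43_25 c43_25) (Pool.Agent.TSK.KF.far g44_25) (Pool.Agent.TSK.KF.far g45_25) (Pool.Agent.TSK.KF.far g46_25)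

theorem f4_25_0 : ∀ tc ∈ tl, EF tc d25 e4_25_0 :=
  tl_forall (EF.tv rfl q0_25 c4_0_25_0) (EF.tv rfl q1_25 c4_1_25_0) (EF.tv rfl q2_25 c4_2_25_0) (EF.tv rfl q3_25 c4_3_25_0) (EF.tv rfl q4_25 c4_4_25_0) (EF.tv rfl q5_25 c4_5_25_0) (EF.tv rfl q6_25 c4_6_25_0) (EF.tv rfl q7_25 c4_7_25_0) (EF.tv rfl q8_25 c4_8_25_0) (EF.tv rfl q9_25 c4_9_25_0) (EF.tv rfl q10_25 c4_10_25_0) (EF.tv rfl q11_25 c4_11_25_0) (EF.tv rfl q12_25 c4_12_25_0) (EF.tv rfl q13_25 c4_13_25_0) (EF.tv rfl q14_25 c4_14_25_0) (EF.tv rfl q15_25 c4_15_25_0) (EF.tv rfl q16_25 c4_16_25_0) (EF.tv rfl q17_25 c4_17_25_0) (EF.tv rfl q18_25 c4_18_25_0) (EF.tv rfl q19_25 c4_19_25_0) (EF.tv rfl q20_25 c4_20_25_0) (EF.tv rfl q21_25 c4_21_25_0) (EF.tv rfl q22_25 c4_22_25_0) (EF.tv rfl q23_25 c4_23_25_0) (EF.tv rfl q24_25 c4_24_25_0) (EF.tv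 rfl q25_25 c4_25_25_0) (EF.tv rfl q26_25 c4_26_25_0) (EF.tv rfl q27_25 c4_27_25_0) (EF.tv rfl q28_25 c4_28_25_0) (EF.tv rfl q29_25 c4_29_25_0) (EF.tv rfl q30_25 c4_30_25_0) (EF.tv rfl q31_25 c4_31_25_0) (EF.tv rfl q32_25 c4_32_25_0) (EF.tv rfl q33_25 c4_33_25_0) (EF.tv rfl q34_25 c4_34_25_0) (EF.tv rfl q35_25 c4_35_25_0) (EF.tv rfl q36_25 c4_36_25_0) (EF.tv rfl q37_25 c4_37_25_0) (EF.tv rfl q38_25 c4_38_25_0) (EF.tv rfl q39_25 c4_39_25_0) (EF.tv rfl q40_25 c4_40_25_0) (EF.tv rfl q41_25 c4_41_25_0) (EF.tv rfl q42_25 c4_42_25_0) (EF.tv rfl q43_25 c4_43_25_0) (EF.far g44_25) (EF.far g45_25) (EF.far g46_25)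

theorem f4_25_1 : ∀ tc ∈ tl, EF tc d25 e4_25_1 :=
  tl_forall (EF.tv rfl q0_25 c4_0_25_1) (EF.tv rfl q1_25 c4_1_25_1) (EF.tv rfl q2_25 c4_2_25_1) (EF.tv rfl q3_25 c4_3_25_1) (EF.tv rfl q4_25 c4_4_25_1) (EF.tv rfl q5_25 c4_5_25_1) (EF.tv rfl q6_25 c4_6_25_1) (EF.tv rfl q7_25 c4_7_25_1) (EF.tv rfl q8_25 c4_8_25_1) (EF.tv rfl q9_25 c4_9_25_1) (EF.tv rfl q10_25 c4_10_25_1) (EF.tv rfl q11_25 c4_11_25_1) (EF.tv rfl q12_25 c4_12_25_1) (EF.tv rfl q13_25 c4_13_25_1) (EF.tv rfl q14_25 c4_14_25_1) (EF.tv rfl q15_25 c4_15_25_1) (EF.tv rfl q16_25 c4_16_25_1) (EF.tv rfl q17_25 c4_17_25_1) (EF.tv rfl q18_25 c4_18_25_1) (EF.tv rfl q19_25 c4_19_25_1) (EF.tv rfl q20_25 c4_20_25_1) (EF.tv rfl q21_25 c4_21_25_1) (EF.tv rfl q22_25 c4_22_25_1) (EF.tv rfl q23_25 c4_23_25_1) (EF.tv rfl q24_25 c4_24_25_1) (EF.tv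 rfl q25_25 c4_25_25_1) (EF.tv rfl q26_25 c4_26_25_1) (EF.tv rfl q27_25 c4_27_25_1) (EF.tv rfl q28_25 c4_28_25_1) (EF.tv rfl q29_25 c4_29_25_1) (EF.tv rfl q30_25 c4_30_25_1) (EF.tv rfl q31_25 c4_31_25_1) (EF.tv rfl q32_25 c4_32_25_1) (EF.tv rfl q33_25 c4_33_25_1) (EF.tv rfl q34_25 c4_34_25_1) (EF.tv rfl q35_25 c4_35_25_1) (EF.tv rfl q36_25 c4_36_25_1) (EF.tv rfl q37_25 c4_37_25_1) (EF.tv rfl q38_25 c4_38_25_1) (EF.tv rfl q39_25 c4_39_25_1) (EF.tv rfl q40_25 c4_40_25_1) (EF.tv rfl q41_25 c4_41_25_1) (EF.tv rfl q42_25 c4_42_25_1) (EF.tv rfl q43_25 c4_43_25_1) (EF.far g44_25) (EF.far g45_25) (EF.far g46_25)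

theorem f4_25_2 : ∀ tc ∈ tl, EF tc d25 e4_25_2 :=
  tl_forall (EF.tv rfl q0_25 c4_0_25_2) (EF.tv rfl q1_25 c4_1_25_2) (EF.tv rfl q2_25 c4_2_25_2) (EF.tv rfl q3_25 c4_3_25_2) (EF.tv rfl q4_25 c4_4_25_2) (EF.tv rfl q5_25 c4_5_25_2) (EF.tv rfl q6_25 c4_6_25_2) (EF.tv rfl q7_25 c4_7_25_2) (EF.tv rfl q8_25 c4_8_25_2) (EF.tv rfl q9_25 c4_9_25_2) (EF.tv rfl q10_25 c4_10_25_2) (EF.tv rfl q11_25 c4_11_25_2) (EF.tv rfl q12_25 c4_12_25_2) (EF.tv rfl q13_25 c4_13_25_2) (EF.tv rfl q14_25 c4_14_25_2) (EF.tv rfl q15_25 c4_15_25_2) (EF.tv rfl q16_25 c4_16_25_2) (EF.tv rfl q17_25 c4_17_25_2) (EF.tv rfl q18_25 c4_18_25_2) (EF.tv rfl q19_25 c4_19_25_2) (EF.tv rfl q20_25 c4_20_25_2) (EF.tv rfl q21_25 c4_21_25_2) (EF.tv rfl q22_25 c4_22_25_2) (EF.tv rfl q23_25 c4_23_25_2) (EF.tv rfl q24_25 c4_24_25_2) (EF.tv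 rfl q25_25 c4_25_25_2) (EF.tv rfl q26_25 c4_26_25_2) (EF.tv rfl q27_25 c4_27_25_2) (EF.tv rfl q28_25 c4_28_25_2) (EF.tv rfl q29_25 c4_29_25_2) (EF.tv rfl q30_25 c4_30_25_2) (EF.tv rfl q31_25 c4_31_25_2) (EF.tv rfl q32_25 c4_32_25_2) (EF.tv rfl q33_25 c4_33_25_2) (EF.tv rfl q34_25 c4_34_25_2) (EF.tv rfl q35_25 c4_35_25_2) (EF.tv rfl q36_25 c4_36_25_2) (EF.tv rfl q37_25 c4_37_25_2) (EF.tv rfl q38_25 c4_38_25_2) (EF.tv rfl q39_25 c4_39_25_2) (EF.tv rfl q40_25 c4_40_25_2) (EF.tv rfl q41_25 c4_41_25_2) (EF.tv rfl q42_25 c4_42_25_2) (EF.tv rfl q43_25 c4_43_25_2) (EF.far g44_25) (EF.far g45_25) (EF.far g46_25)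

theorem f4_25_3 : ∀ tc ∈ tl, EF tc d25 e4_25_3 :=
  tl_forall (EF.tv rfl q0_25 c4_0_25_3) (EF.tv rfl q1_25 c4_1_25_3) (EF.tv rfl q2_25 c4_2_25_3) (EF.tv rfl q3_25 c4_3_25_3) (EF.tv rfl q4_25 c4_4_25_3) (EF.tv rfl q5_25 c4_5_25_3) (EF.tv rfl q6_25 c4_6_25_3) (EF.tv rfl q7_25 c4_7_25_3) (EF.tv rfl q8_25 c4_8_25_3) (EF.tv rfl q9_25 c4_9_25_3) (EF.tv rfl q10_25 c4_10_25_3) (EF.tv rfl q11_25 c4_11_25_3) (EF.tv rfl q12_25 c4_12_25_3) (EF.tv rfl q13_25 c4_13_25_3) (EF.tv rfl q14_25 c4_14_25_3) (EF.tv rfl q15_25 c4_15_25_3) (EF.tv rfl q16_25 c4_16_25_3) (EF.tv rfl q17_25 c4_17_25_3) (EF.tv rfl q18_25 c4_18_25_3) (EF.tv rfl q19_25 c4_19_25_3) (EF.tv rfl q20_25 c4_20_25_3) (EF.tv rfl q21_25 c4_21_25_3) (EF.tv rfl q22_25 c4_22_25_3) (EF.tv rfl q23_25 c4_23_25_3) (EF.tv rfl q24_25 c4_24_25_3) (EF.tv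 rfl q25_25 c4_25_25_3) (EF.tv rfl q26_25 c4_26_25_3) (EF.tv rfl q27_25 c4_27_25_3) (EF.tv rfl q28_25 c4_28_25_3) (EF.tv rfl q29_25 c4_29_25_3) (EF.tv rfl q30_25 c4_30_25_3) (EF.tv rfl q31_25 c4_31_25_3) (EF.tv rfl q32_25 c4_32_25_3) (EF.tv rfl q33_25 c4_33_25_3) (EF.tv rfl q34_25 c4_34_25_3) (EF.tv rfl q35_25 c4_35_25_3) (EF.tv rfl q36_25 c4_36_25_3) (EF.tv rfl q37_25 c4_37_25_3) (EF.tv rfl q38_25 c4_38_25_3) (EF.tv rfl q39_25 c4_39_25_3) (EF.tv rfl q40_25 c4_40_25_3) (EF.tv rfl q41_25 c4_41_25_3) (EF.tv rfl q42_25 c4_42_25_3) (EF.tv rfl q43_25 c4_43_25_3) (EF.far g44_25) (EF.far g45_25) (EF.far g46_25)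

theorem f6_25_4 : ∀ tc ∈ tl, EF tc d25 e6_25_4 :=
  tl_forall (EF.tv rfl q0_25 c6_0_25_4) (EF.tv rfl q1_25 c6_1_25_4) (EF.tv rfl q2_25 c6_2_25_4) (EF.tv rfl q3_25 c6_3_25_4) (EF.tv rfl q4_25 c6_4_25_4) (EF.tv rfl q5_25 c6_5_25_4) (EF.tv rfl q6_25 c6_6_25_4) (EF.tv rfl q7_25 c6_7_25_4) (EF.tv rfl q8_25 c6_8_25_4) (EF.tv rfl q9_25 c6_9_25_4) (EF.tv rfl q10_25 c6_10_25_4) (EF.tv rfl q11_25 c6_11_25_4) (EF.tv rfl q12_25 c6_12_25_4) (EF.tv rfl q13_25 c6_13_25_4) (EF.tv rfl q14_25 c6_14_25_4) (EF.tv rfl q15_25 c6_15_25_4) (EF.tv rfl q16_25 c6_16_25_4) (EF.tv rfl q17_25 c6_17_25_4) (EF.tv rfl q18_25 c6_18_25_4) (EF.tv rfl q19_25 c6_19_25_4) (EF.tv rfl q20_25 c6_20_25_4) (EF.tv rfl q21_25 c6_21_25_4) (EF.tv rfl q22_25 c6_22_25_4) (EF.tv rfl q23_25 c6_23_25_4) (EF.tv rfl q24_25 c6_24_25_4) (EF.tv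 rfl q25_25 c6_25_25_4) (EF.tv rfl q26_25 c6_26_25_4) (EF.tv rfl q27_25 c6_27_25_4) (EF.tv rfl q28_25 c6_28_25_4) (EF.tv rfl q29_25 c6_29_25_4) (EF.tv rfl q30_25 c6_30_25_4) (EF.tv rfl q31_25 c6_31_25_4) (EF.tv rfl q32_25 c6_32_25_4) (EF.tv rfl q33_25 c6_33_25_4) (EF.tv rfl q34_25 c6_34_25_4) (EF.tv rfl q35_25 c6_35_25_4) (EF.tv rfl q36_25 c6_36_25_4) (EF.tv rfl q37_25 c6_37_25_4) (EF.tv rfl q38_25 c6_38_25_4) (EF.tv rfl q39_25 c6_39_25_4) (EF.tv rfl q40_25 c6_40_25_4) (EF.tv rfl q41_25 c6_41_25_4) (EF.tv rfl q42_25 c6_42_25_4) (EF.tv rfl q43_25 c6_43_25_4) (EF.far g44_25) (EF.far g45_25) (EF.far g46_25)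

theorem f6_25_5 : ∀ tc ∈ tl, EF tc d25 e6_25_5 :=
  tl_forall (EF.tv rfl q0_25 c6_0_25_5) (EF.tv rfl q1_25 c6_1_25_5) (EF.tv rfl q2_25 c6_2_25_5) (EF.tv rfl q3_25 c6_3_25_5) (EF.tv rfl q4_25 c6_4_25_5) (EF.tv rfl q5_25 c6_5_25_5) (EF.tv rfl q6_25 c6_6_25_5) (EF.tv rfl q7_25 c6_7_25_5) (EF.tv rfl q8_25 c6_8_25_5) (EF.tv rfl q9_25 c6_9_25_5) (EF.tv rfl q10_25 c6_10_25_5) (EF.tv rfl q11_25 c6_11_25_5) (EF.tv rfl q12_25 c6_12_25_5) (EF.tv rfl q13_25 c6_13_25_5) (EF.tv rfl q14_25 c6_14_25_5) (EF.tv rfl q15_25 c6_15_25_5) (EF.tv rfl q16_25 c6_16_25_5) (EF.tv rfl q17_25 c6_17_25_5) (EF.tv rfl q18_25 c6_18_25_5) (EF.tv rfl q19_25 c6_19_25_5) (EF.tv rfl q20_25 c6_20_25_5) (EF.tv rfl q21_25 c6_21_25_5) (EF.tv rfl q22_25 c6_22_25_5) (EF.tv rfl q23_25 c6_23_25_5) (EF.tv rfl q24_25 c6_24_25_5) (EF.tv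 rfl q25_25 c6_25_25_5) (EF.tv rfl q26_25 c6_26_25_5) (EF.tv rfl q27_25 c6_27_25_5) (EF.tv rfl q28_25 c6_28_25_5) (EF.tv rfl q29_25 c6_29_25_5) (EF.tv rfl q30_25 c6_30_25_5) (EF.tv rfl q31_25 c6_31_25_5) (EF.tv rfl q32_25 c6_32_25_5) (EF.tv rfl q33_25 c6_33_25_5) (EF.tv rfl q34_25 c6_34_25_5) (EF.tv rfl q35_25 c6_35_25_5) (EF.tv rfl q36_25 c6_36_25_5) (EF.tv rfl q37_25 c6_37_25_5) (EF.tv rfl q38_25 c6_38_25_5) (EF.tv rfl q39_25 c6_39_25_5) (EF.tv rfl q40_25 c6_40_25_5) (EF.tv rfl q41_25 c6_41_25_5) (EF.tv rfl q42_25 c6_42_25_5) (EF.tv rfl q43_25 c6_43_25_5) (EF.far g44_25) (EF.far g45_25) (EF.far g46_25)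

theorem f6_25_6 : ∀ tc ∈ tl, EF tc d25 e6_25_6 :=
  tl_forall (EF.tv rfl q0_25 c6_0_25_6) (EF.tv rfl q1_25 c6_1_25_6) (EF.tv rfl q2_25 c6_2_25_6) (EF.tv rfl q3_25 c6_3_25_6) (EF.tv rfl q4_25 c6_4_25_6) (EF.tv rfl q5_25 c6_5_25_6) (EF.tv rfl q6_25 c6_6_25_6) (EF.tv rfl q7_25 c6_7_25_6) (EF.tv rfl q8_25 c6_8_25_6) (EF.tv rfl q9_25 c6_9_25_6) (EF.tv rfl q10_25 c6_10_25_6) (EF.tv rfl q11_25 c6_11_25_6) (EF.tv rfl q12_25 c6_12_25_6) (EF.tv rfl q13_25 c6_13_25_6) (EF.tv rfl q14_25 c6_14_25_6) (EF.tv rfl q15_25 c6_15_25_6) (EF.tv rfl q16_25 c6_16_25_6) (EF.tv rfl q17_25 c6_17_25_6) (EF.tv rfl q18_25 c6_18_25_6) (EF.tv rfl q19_25 c6_19_25_6) (EF.tv rfl q20_25 c6_20_25_6) (EF.tv rfl q21_25 c6_21_25_6) (EF.tv rfl q22_25 c6_22_25_6) (EF.tv rfl q23_25 c6_23_25_6) (EF.tv rfl q24_25 c6_24_25_6) (EF.tv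 rfl q25_25 c6_25_25_6) (EF.tv rfl q26_25 c6_26_25_6) (EF.tv rfl q27_25 c6_27_25_6) (EF.tv rfl q28_25 c6_28_25_6) (EF.tv rfl q29_25 c6_29_25_6) (EF.tv rfl q30_25 c6_30_25_6) (EF.tv rfl q31_25 c6_31_25_6) (EF.tv rfl q32_25 c6_32_25_6) (EF.tv rfl q33_25 c6_33_25_6) (EF.tv rfl q34_25 c6_34_25_6) (EF.tv rfl q35_25 c6_35_25_6) (EF.tv rfl q36_25 c6_36_25_6) (EF.tv rfl q37_25 c6_37_25_6) (EF.tv rfl q38_25 c6_38_25_6) (EF.tv rfl q39_25 c6_39_25_6) (EF.tv rfl q40_25 c6_40_25_6) (EF.tv rfl q41_25 c6_41_25_6) (EF.tv rfl q42_25 c6_42_25_6) (EF.tv rfl q43_25 c6_43_25_6) (EF.far g44_25) (EF.far g45_25) (EF.far g46_25)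

theorem f6_25_7 : ∀ tc ∈ tl, EF tc d25 e6_25_7 :=
  tl_forall (EF.tv rfl q0_25 c6_0_25_7) (EF.tv rfl q1_25 c6_1_25_7) (EF.tv rfl q2_25 c6_2_25_7) (EF.tv rfl q3_25 c6_3_25_7) (EF.tv rfl q4_25 c6_4_25_7) (EF.tv rfl q5_25 c6_5_25_7) (EF.tv rfl q6_25 c6_6_25_7) (EF.tv rfl q7_25 c6_7_25_7) (EF.tv rfl q8_25 c6_8_25_7) (EF.tv rfl q9_25 c6_9_25_7) (EF.tv rfl q10_25 c6_10_25_7) (EF.tv rfl q11_25 c6_11_25_7) (EF.tv rfl q12_25 c6_12_25_7) (EF.tv rfl q13_25 c6_13_25_7) (EF.tv rfl q14_25 c6_14_25_7) (EF.tv rfl q15_25 c6_15_25_7) (EF.tv rfl q16_25 c6_16_25_7) (EF.tv rfl q17_25 c6_17_25_7) (EF.tv rfl q18_25 c6_18_25_7) (EF.tv rfl q19_25 c6_19_25_7) (EF.tv rfl q20_25 c6_20_25_7) (EF.tv rfl q21_25 c6_21_25_7) (EF.tv rfl q22_25 c6_22_25_7) (EF.tv rfl q23_25 c6_23_25_7) (EF.tv rfl q24_25 c6_24_25_7) (EF.tv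 rfl q25_25 c6_25_25_7) (EF.tv rfl q26_25 c6_26_25_7) (EF.tv rfl q27_25 c6_27_25_7) (EF.tv rfl q28_25 c6_28_25_7) (EF.tv rfl q29_25 c6_29_25_7) (EF.tv rfl q30_25 c6_30_25_7) (EF.tv rfl q31_25 c6_31_25_7) (EF.tv rfl q32_25 c6_32_25_7) (EF.tv rfl q33_25 c6_33_25_7) (EF.tv rfl q34_25 c6_34_25_7) (EF.tv rfl q35_25 c6_35_25_7) (EF.tv rfl q36_25 c6_36_25_7) (EF.tv rfl q37_25 c6_37_25_7) (EF.tv rfl q38_25 c6_38_25_7) (EF.tv rfl q39_25 c6_39_25_7) (EF.tv rfl q40_25 c6_40_25_7) (EF.tv rfl q41_25 c6_41_25_7) (EF.tv rfl q42_25 c6_42_25_7) (EF.tv rfl q43_25 c6_43_25_7) (EF.far g44_25) (EF.far g45_25) (EF.far g46_25)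

theorem f8_25_8 : ∀ tc ∈ tl, EF tc d25 e8_25_8 :=
  tl_forall (EF.tv rfl q0_25 c8_0_25_8) (EF.tv rfl q1_25 c8_1_25_8) (EF.tv rfl q2_25 c8_2_25_8) (EF.tv rfl q3_25 c8_3_25_8) (EF.tv rfl q4_25 c8_4_25_8) (EF.tv rfl q5_25 c8_5_25_8) (EF.tv rfl q6_25 c8_6_25_8) (EF.tv rfl q7_25 c8_7_25_8) (EF.tv rfl q8_25 c8_8_25_8) (EF.tv rfl q9_25 c8_9_25_8) (EF.tv rfl q10_25 c8_10_25_8) (EF.tv rfl q11_25 c8_11_25_8) (EF.tv rfl q12_25 c8_12_25_8) (EF.tv rfl q13_25 c8_13_25_8) (EF.tv rfl q14_25 c8_14_25_8) (EF.tv rfl q15_25 c8_15_25_8) (EF.tv rfl q16_25 c8_16_25_8) (EF.tv rfl q17_25 c8_17_25_8) (EF.tv rfl q18_25 c8_18_25_8) (EF.tv rfl q19_25 c8_19_25_8) (EF.tv rfl q20_25 c8_20_25_8) (EF.tv rfl q21_25 c8_21_25_8) (EF.tv rfl q22_25 c8_22_25_8) (EF.tv rfl q23_25 c8_23_25_8) (EF.tv rfl q24_25 c8_24_25_8) (EF.tv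 rfl q25_25 c8_25_25_8) (EF.tv rfl q26_25 c8_26_25_8) (EF.tv rfl q27_25 c8_27_25_8) (EF.tv rfl q28_25 c8_28_25_8) (EF.tv rfl q29_25 c8_29_25_8) (EF.tv rfl q30_25 c8_30_25_8) (EF.tv rfl q31_25 c8_31_25_8) (EF.tv rfl q32_25 c8_32_25_8) (EF.tv rfl q33_25 c8_33_25_8) (EF.tv rfl q34_25 c8_34_25_8) (EF.tv rfl q35_25 c8_35_25_8) (EF.tv rfl q36_25 c8_36_25_8) (EF.tv rfl q37_25 c8_37_25_8) (EF.tv rfl q38_25 c8_38_25_8) (EF.tv rfl q39_25 c8_39_25_8) (EF.tv rfl q40_25 c8_40_25_8) (EF.tv rfl q41_25 c8_41_25_8) (EF.tv rfl q42_25 c8_42_25_8) (EF.tv rfl q43_25 c8_43_25_8) (EF.far g44_25) (EF.far g45_25) (EF.far g46_25)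

theorem f8_25_9 : ∀ tc ∈ tl, EF tc d25 e8_25_9 :=
  tl_forall (EF.tv rfl q0_25 c8_0_25_9) (EF.tv rfl q1_25 c8_1_25_9) (EF.tv rfl q2_25 c8_2_25_9) (EF.tv rfl q3_25 c8_3_25_9) (EF.tv rfl q4_25 c8_4_25_9) (EF.tv rfl q5_25 c8_5_25_9) (EF.tv rfl q6_25 c8_6_25_9) (EF.tv rfl q7_25 c8_7_25_9) (EF.tv rfl q8_25 c8_8_25_9) (EF.tv rfl q9_25 c8_9_25_9) (EF.tv rfl q10_25 c8_10_25_9) (EF.tv rfl q11_25 c8_11_25_9) (EF.tv rfl q12_25 c8_12_25_9) (EF.tv rfl q13_25 c8_13_25_9) (EF.tv rfl q14_25 c8_14_25_9) (EF.tv rfl q15_25 c8_15_25_9) (EF.tv rfl q16_25 c8_16_25_9) (EF.tv rfl q17_25 c8_17_25_9) (EF.tv rfl q18_25 c8_18_25_9) (EF.tv rfl q19_25 c8_19_25_9) (EF.tv rfl q20_25 c8_20_25_9) (EF.tv rfl q21_25 c8_21_25_9) (EF.tv rfl q22_25 c8_22_25_9) (EF.tv rfl q23_25 c8_23_25_9) (EF.tv rfl q24_25 c8_24_25_9) (EF.tv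 rfl q25_25 c8_25_25_9) (EF.tv rfl q26_25 c8_26_25_9) (EF.tv rfl q27_25 c8_27_25_9) (EF.tv rfl q28_25 c8_28_25_9) (EF.tv rfl q29_25 c8_29_25_9) (EF.tv rfl q30_25 c8_30_25_9) (EF.tv rfl q31_25 c8_31_25_9) (EF.tv rfl q32_25 c8_32_25_9) (EF.tv rfl q33_25 c8_33_25_9) (EF.tv rfl q34_25 c8_34_25_9) (EF.tv rfl q35_25 c8_35_25_9) (EF.tv rfl q36_25 c8_36_25_9) (EF.tv rfl q37_25 c8_37_25_9) (EF.tv rfl q38_25 c8_38_25_9) (EF.tv rfl q39_25 c8_39_25_9) (EF.tv rfl q40_25 c8_40_25_9) (EF.tv rfl q41_25 c8_41_25_9) (EF.tv rfl q42_25 c8_42_25_9) (EF.tv rfl q43_25 c8_43_25_9) (EF.far g44_25) (EF.far g45_25) (EF.far g46_25)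

theorem h4_25 : EvC tl 4 (shK Dec.one 4) d25 :=
  EvC.of2 (tab := tabX 4) (Ls := [e4_25_0, e4_25_1, e4_25_2, e4_25_3]) (tabX_ok 4)
    (by decide +kernel) (by decide +kernel) (by
    intro L hL
    simp only [List.mem_cons, List.not_mem_nil, or_false] at hL
    rcases hL with rfl | rfl | rfl | rfl
    · exact f4_25_0
    · exact f4_25_1
    · exact f4_25_2
    · exact f4_25_3)

theorem h6_25 : EvC tl 6 (shK Dec.one 6) d25 :=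
  EvC.of2 (tab := tabX 6) (Ls := [e6_25_4, e6_25_5, e6_25_6, e6_25_7]) (tabX_ok 6)
    (by decide +kernel) (by decide +kernel) (by
    intro L hL
    simp only [List.mem_cons, List.not_mem_nil, or_false] at hL
    rcases hL with rfl | rfl | rfl | rfl
    · exact f6_25_4
    · exact f6_25_5
    · exact f6_25_6
    · exact f6_25_7)

theorem h8_25 : EvC tl 0 (shA Dec.one 106) d25 :=
  EvC.of2 (tab := tabX 0) (Ls := [e8_25_8, e8_25_9]) (tabX_ok 0)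
    (by decide +kernel) (by decide +kernel) (by
    intro L hL
    simp only [List.mem_cons, List.not_mem_nil, or_false] at hL
    rcases hL with rfl | rfl
    · exact f8_25_8
    · exact f8_25_9)

theorem hh_25 : EvC8 tl Dec.one d25 := EvC8.a h8_25

end Pool.Agent.TSE
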