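import Pool.Agent.TSE.C3_0
import Pool.Agent.TSE.C3_2
import Pool.Agent.TSE.C3_4
import Pool.Agent.TSE.C3_6
import Pool.Agent.TSE.C3_8
import Pool.Agent.TSE.C3_10
import Pool.Agent.TSE.C3_12
import Pool.Agent.TSE.C3_14
import Pool.Agent.TSE.C3_16
import Pool.Agent.TSE.C3_18
import Pool.Agent.TSE.C3_20
import Pool.Agent.TSE.T
import Pool.Agent.TSE.BaseC
import Pool.Agent.TSG.TabX

set_option autoImplicit false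

/-! # One interval of the total mass (MP_d27362_co) -/

namespace Pool.Agent.TSE

open Pool.Agent.TSC
open Pool.Agent.TSC.Dec
open Pool.Agent.TSG


theorem kf3 : ∀ tc ∈ tl, Pool.Agent.TSK.KF tc d3 :=
  tl_forall (KF.tv rfl q0_3 c0_3) (KF.tv rfl q1_3 c1_3) (KF.tv rfl q2_3 c2_3) (KF.tv rfl q3_3 c3_3) (KF.tv rfl q4_3 c4_3) (KF.tv rfl q5_3 c5_3) (KF.tv rfl q6_3 c6_3) (KF.tv rfl q7_3 c7_3) (KF.tv rfl q8_3 c8_3) (KF.tv rfl q9_3 c9_3) (KF.tv rfl q10_3 c10_3) (KF.tv rfl q11_3 c11_3) (KF.tv rfl q12_3 c12_3) (KF.tv rfl q13_3 c13_3) (KF.tv rfl q14_3 c14_3) (KF.tv rfl q15_3 c15_3) (KF.tv rfl q16_3 c16_3) (KF.tv rfl q17_3 c17_3) (KF.tv rfl q18_3 c18_3) (KF.tv rfl q19_3 c19_3) (KF.tv rfl q20_3 c20_3) (Pool.Agent.TSK.KF.far g21_3) (Pool.Agent.TSK.KF.far g22_3) (Pool.Agent.TSK.KF.far g23_3) (Pool.Agent.TSK.KF.far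 g24_3) (Pool.Agent.TSK.KF.far g25_3) (Pool.Agent.TSK.KF.far g26_3) (Pool.Agent.TSK.KF.far g27_3) (Pool.Agent.TSK.KF.far g28_3) (Pool.Agent.TSK.KF.far g29_3) (Pool.Agent.TSK.KF.far g30_3) (Pool.Agent.TSK.KF.far g31_3) (Pool.Agent.TSK.KF.far g32_3) (Pool.Agent.TSK.KF.far g33_3) (Pool.Agent.TSK.KF.far g34_3) (Pool.Agent.TSK.KF.far g35_3) (Pool.Agent.TSK.KF.far g36_3) (Pool.Agent.TSK.KF.far g37_3) (Pool.Agent.TSK.KF.far g38_3) (Pool.Agent.TSK.KF.far g39_3) (Pool.Agent.TSK.KF.far g40_3) (Pool.Agent.TSK.KF.far g41_3) (Pool.Agent.TSK.KF.far g42_3) (Pool.Agent.TSK.KF.far g43_3) (Pool.Agent.TSK.KF.far g44_3) (Pool.Agent.TSK.KF.far g45_3) (Pool.Agent.TSK.KF.far g46_3)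

theorem f4_3_0 : ∀ tc ∈ tl, EF tc d3 e4_3_0 :=
  tl_forall (EF.tv rfl q0_3 c4_0_3_0) (EF.tv rfl q1_3 c4_1_3_0) (EF.tv rfl q2_3 c4_2_3_0) (EF.tv rfl q3_3 c4_3_3_0) (EF.tv rfl q4_3 c4_4_3_0) (EF.tv rfl q5_3 c4_5_3_0) (EF.tv rfl q6_3 c4_6_3_0) (EF.tv rfl q7_3 c4_7_3_0) (EF.tv rfl q8_3 c4_8_3_0) (EF.tv rfl q9_3 c4_9_3_0) (EF.tv rfl q10_3 c4_10_3_0) (EF.tv rfl q11_3 c4_11_3_0) (EF.tv rfl q12_3 c4_12_3_0) (EF.tv rfl q13_3 c4_13_3_0) (EF.tv rfl q14_3 c4_14_3_0) (EF.tv rfl q15_3 c4_15_3_0) (EF.tv rfl q16_3 c4_16_3_0) (EF.tv rfl q17_3 c4_17_3_0) (EF.tv rfl q18_3 c4_18_3_0) (EF.tv rfl q19_3 c4_19_3_0) (EF.tv rfl q20_3 c4_20_3_0) (EF.far g21_3) (EF.far g22_3) (EF.far g23_3) (EF.far g24_3) (EF.far g25_3) (EF.far g26_3) (EF.far g27_3) (EF.far g28_3) (EF.far g29_3) (EF.far g30_3) (EF.far g31_3) (EF.far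 g32_3) (EF.far g33_3) (EF.far g34_3) (EF.far g35_3) (EF.far g36_3) (EF.far g37_3) (EF.far g38_3) (EF.far g39_3) (EF.far g40_3) (EF.far g41_3) (EF.far g42_3) (EF.far g43_3) (EF.far g44_3) (EF.far g45_3) (EF.far g46_3)

theorem f4_3_1 : ∀ tc ∈ tl, EF tc d3 e4_3_1 :=
  tl_forall (EF.tv rfl q0_3 c4_0_3_1) (EF.tv rfl q1_3 c4_1_3_1) (EF.tv rfl q2_3 c4_2_3_1) (EF.tv rfl q3_3 c4_3_3_1) (EF.tv rfl q4_3 c4_4_3_1) (EF.tv rfl q5_3 c4_5_3_1) (EF.tv rfl q6_3 c4_6_3_1) (EF.tv rfl q7_3 c4_7_3_1) (EF.tv rfl q8_3 c4_8_3_1) (EF.tv rfl q9_3 c4_9_3_1) (EF.tv rfl q10_3 c4_10_3_1) (EF.tv rfl q11_3 c4_11_3_1) (EF.tv rfl q12_3 c4_12_3_1) (EF.tv rfl q13_3 c4_13_3_1) (EF.tv rfl q14_3 c4_14_3_1) (EF.tv rfl q15_3 c4_15_3_1) (EF.tv rfl q16_3 c4_16_3_1) (EF.tv rfl q17_3 c4_17_3_1) (EF.tv rfl q18_3 c4_18_3_1) (EF.tv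 rfl q19_3 c4_19_3_1) (EF.tv rfl q20_3 c4_20_3_1) (EF.far g21_3) (EF.far g22_3) (EF.far g23_3) (EF.far g24_3) (EF.far g25_3) (EF.far g26_3) (EF.far g27_3) (EF.far g28_3) (EF.far g29_3) (EF.far g30_3) (EF.far g31_3) (EF.far g32_3) (EF.far g33_3) (EF.far g34_3) (EF.far g35_3) (EF.far g36_3) (EF.far g37_3) (EF.far g38_3) (EF.far g39_3) (EF.far g40_3) (EF.far g41_3) (EF.far g42_3) (EF.far g43_3) (EF.far g44_3) (EF.far g45_3) (EF.far g46_3)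

theorem f4_3_2 : ∀ tc ∈ tl, EF tc d3 e4_3_2 :=
  tl_forall (EF.tv rfl q0_3 c4_0_3_2) (EF.tv rfl q1_3 c4_1_3_2) (EF.tv rfl q2_3 c4_2_3_2) (EF.tv rfl q3_3 c4_3_3_2) (EF.tv rfl q4_3 c4_4_3_2) (EF.tv rfl q5_3 c4_5_3_2) (EF.tv rfl q6_3 c4_6_3_2) (EF.tv rfl q7_3 c4_7_3_2) (EF.tv rfl q8_3 c4_8_3_2) (EF.tv rfl q9_3 c4_9_3_2) (EF.tv rfl q10_3 c4_10_3_2) (EF.tv rfl q11_3 c4_11_3_2) (EF.tv rfl q12_3 c4_12_3_2) (EF.tv rfl q13_3 c4_13_3_2) (EF.tv rfl q14_3 c4_14_3_2) (EF.tv rfl q15_3 c4_15_3_2) (EF.tv rfl q16_3 c4_16_3_2) (EF.tv rfl q17_3 c4_17_3_2) (EF.tv rfl q18_3 c4_18_3_2) (EF.tv rfl q19_3 c4_19_3_2) (EF.tv rfl q20_3 c4_20_3_2) (EF.far g21_3) (EF.far g22_3) (EF.far g23_3) (EF.far g24_3) (EF.far g25_3) (EF.far g26_3) (EF.far g27_3) (EF.far g28_3) (EF.far g29_3) (EF.far g30_3) (EF.far g31_3) (EF.far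 g32_3) (EF.far g33_3) (EF.far g34_3) (EF.far g35_3) (EF.far g36_3) (EF.far g37_3) (EF.far g38_3) (EF.far g39_3) (EF.far g40_3) (EF.far g41_3) (EF.far g42_3) (EF.far g43_3) (EF.far g44_3) (EF.far g45_3) (EF.far g46_3)

theorem f4_3_3 : ∀ tc ∈ tl, EF tc d3 e4_3_3 :=
  tl_forall (EF.tv rfl q0_3 c4_0_3_3) (EF.tv rfl q1_3 c4_1_3_3) (EF.tv rfl q2_3 c4_2_3_3) (EF.tv rfl q3_3 c4_3_3_3) (EF.tv rfl q4_3 c4_4_3_3) (EF.tv rfl q5_3 c4_5_3_3) (EF.tv rfl q6_3 c4_6_3_3) (EF.tv rfl q7_3 c4_7_3_3) (EF.tv rfl q8_3 c4_8_3_3) (EF.tv rfl q9_3 c4_9_3_3) (EF.tv rfl q10_3 c4_10_3_3) (EF.tv rfl q11_3 c4_11_3_3) (EF.tv rfl q12_3 c4_12_3_3) (EF.tv rfl q13_3 c4_13_3_3) (EF.tv rfl q14_3 c4_14_3_3) (EF.tv rfl q15_3 c4_15_3_3) (EF.tv rfl q16_3 c4_16_3_3) (EF.tv rfl q17_3 c4_17_3_3) (EF.tv rfl q18_3 c4_18_3_3) (EF.tv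 rfl q19_3 c4_19_3_3) (EF.tv rfl q20_3 c4_20_3_3) (EF.far g21_3) (EF.far g22_3) (EF.far g23_3) (EF.far g24_3) (EF.far g25_3) (EF.far g26_3) (EF.far g27_3) (EF.far g28_3) (EF.far g29_3) (EF.far g30_3) (EF.far g31_3) (EF.far g32_3) (EF.far g33_3) (EF.far g34_3) (EF.far g35_3) (EF.far g36_3) (EF.far g37_3) (EF.far g38_3) (EF.far g39_3) (EF.far g40_3) (EF.far g41_3) (EF.far g42_3) (EF.far g43_3) (EF.far g44_3) (EF.far g45_3) (EF.far g46_3)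

theorem f6_3_4 : ∀ tc ∈ tl, EF tc d3 e6_3_4 :=
  tl_forall (EF.tv rfl q0_3 c6_0_3_4) (EF.tv rfl q1_3 c6_1_3_4) (EF.tv rfl q2_3 c6_2_3_4) (EF.tv rfl q3_3 c6_3_3_4) (EF.tv rfl q4_3 c6_4_3_4) (EF.tv rfl q5_3 c6_5_3_4) (EF.tv rfl q6_3 c6_6_3_4) (EF.tv rfl q7_3 c6_7_3_4) (EF.tv rfl q8_3 c6_8_3_4) (EF.tv rfl q9_3 c6_9_3_4) (EF.tv rfl q10_3 c6_10_3_4) (EF.tv rfl q11_3 c6_11_3_4) (EF.tv rfl q12_3 c6_12_3_4) (EF.tv rfl q13_3 c6_13_3_4) (EF.tv rfl q14_3 c6_14_3_4) (EF.tv rfl q15_3 c6_15_3_4) (EF.tv rfl q16_3 c6_16_3_4) (EF.tv rfl q17_3 c6_17_3_4) (EF.tv rfl q18_3 c6_18_3_4) (EF.tv rfl q19_3 c6_19_3_4) (EF.tv rfl q20_3 c6_20_3_4) (EF.far g21_3) (EF.far g22_3) (EF.far g23_3) (EF.far g24_3) (EF.far g25_3) (EF.far g26_3) (EF.far g27_3) (EF.far g28_3) (EF.far g29_3) (EF.far g30_3) (EF.far g31_3) (EF.far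 g32_3) (EF.far g33_3) (EF.far g34_3) (EF.far g35_3) (EF.far g36_3) (EF.far g37_3) (EF.far g38_3) (EF.far g39_3) (EF.far g40_3) (EF.far g41_3) (EF.far g42_3) (EF.far g43_3) (EF.far g44_3) (EF.far g45_3) (EF.far g46_3)

theorem f6_3_5 : ∀ tc ∈ tl, EF tc d3 e6_3_5 :=
  tl_forall (EF.tv rfl q0_3 c6_0_3_5) (EF.tv rfl q1_3 c6_1_3_5) (EF.tv rfl q2_3 c6_2_3_5) (EF.tv rfl q3_3 c6_3_3_5) (EF.tv rfl q4_3 c6_4_3_5) (EF.tv rfl q5_3 c6_5_3_5) (EF.tv rfl q6_3 c6_6_3_5) (EF.tv rfl q7_3 c6_7_3_5) (EF.tv rfl q8_3 c6_8_3_5) (EF.tv rfl q9_3 c6_9_3_5) (EF.tv rfl q10_3 c6_10_3_5) (EF.tv rfl q11_3 c6_11_3_5) (EF.tv rfl q12_3 c6_12_3_5) (EF.tv rfl q13_3 c6_13_3_5) (EF.tv rfl q14_3 c6_14_3_5) (EF.tv rfl q15_3 c6_15_3_5) (EF.tv rfl q16_3 c6_16_3_5) (EF.tv rfl q17_3 c6_17_3_5) (EF.tv rfl q18_3 c6_18_3_5) (EF.tv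 rfl q19_3 c6_19_3_5) (EF.tv rfl q20_3 c6_20_3_5) (EF.far g21_3) (EF.far g22_3) (EF.far g23_3) (EF.far g24_3) (EF.far g25_3) (EF.far g26_3) (EF.far g27_3) (EF.far g28_3) (EF.far g29_3) (EF.far g30_3) (EF.far g31_3) (EF.far g32_3) (EF.far g33_3) (EF.far g34_3) (EF.far g35_3) (EF.far g36_3) (EF.far g37_3) (EF.far g38_3) (EF.far g39_3) (EF.far g40_3) (EF.far g41_3) (EF.far g42_3) (EF.far g43_3) (EF.far g44_3) (EF.far g45_3) (EF.far g46_3)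

theorem f6_3_6 : ∀ tc ∈ tl, EF tc d3 e6_3_6 :=
  tl_forall (EF.tv rfl q0_3 c6_0_3_6) (EF.tv rfl q1_3 c6_1_3_6) (EF.tv rfl q2_3 c6_2_3_6) (EF.tv rfl q3_3 c6_3_3_6) (EF.tv rfl q4_3 c6_4_3_6) (EF.tv rfl q5_3 c6_5_3_6) (EF.tv rfl q6_3 c6_6_3_6) (EF.tv rfl q7_3 c6_7_3_6) (EF.tv rfl q8_3 c6_8_3_6) (EF.tv rfl q9_3 c6_9_3_6) (EF.tv rfl q10_3 c6_10_3_6) (EF.tv rfl q11_3 c6_11_3_6) (EF.tv rfl q12_3 c6_12_3_6) (EF.tv rfl q13_3 c6_13_3_6) (EF.tv rfl q14_3 c6_14_3_6) (EF.tv rfl q15_3 c6_15_3_6) (EF.tv rfl q16_3 c6_16_3_6) (EF.tv rfl q17_3 c6_17_3_6) (EF.tv rfl q18_3 c6_18_3_6) (EF.tv rfl q19_3 c6_19_3_6) (EF.tv rfl q20_3 c6_20_3_6) (EF.far g21_3) (EF.far g22_3) (EF.far g23_3) (EF.far g24_3) (EF.far g25_3) (EF.far g26_3) (EF.far g27_3) (EF.far g28_3) (EF.far g29_3) (EF.far g30_3) (EF.far g31_3) (EF.far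 g32_3) (EF.far g33_3) (EF.far g34_3) (EF.far g35_3) (EF.far g36_3) (EF.far g37_3) (EF.far g38_3) (EF.far g39_3) (EF.far g40_3) (EF.far g41_3) (EF.far g42_3) (EF.far g43_3) (EF.far g44_3) (EF.far g45_3) (EF.far g46_3)

theorem f6_3_7 : ∀ tc ∈ tl, EF tc d3 e6_3_7 :=
  tl_forall (EF.tv rfl q0_3 c6_0_3_7) (EF.tv rfl q1_3 c6_1_3_7) (EF.tv rfl q2_3 c6_2_3_7) (EF.tv rfl q3_3 c6_3_3_7) (EF.tv rfl q4_3 c6_4_3_7) (EF.tv rfl q5_3 c6_5_3_7) (EF.tv rfl q6_3 c6_6_3_7) (EF.tv rfl q7_3 c6_7_3_7) (EF.tv rfl q8_3 c6_8_3_7) (EF.tv rfl q9_3 c6_9_3_7) (EF.tv rfl q10_3 c6_10_3_7) (EF.tv rfl q11_3 c6_11_3_7) (EF.tv rfl q12_3 c6_12_3_7) (EF.tv rfl q13_3 c6_13_3_7) (EF.tv rfl q14_3 c6_14_3_7) (EF.tv rfl q15_3 c6_15_3_7) (EF.tv rfl q16_3 c6_16_3_7) (EF.tv rfl q17_3 c6_17_3_7) (EF.tv rfl q18_3 c6_18_3_7) (EF.tv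 rfl q19_3 c6_19_3_7) (EF.tv rfl q20_3 c6_20_3_7) (EF.far g21_3) (EF.far g22_3) (EF.far g23_3) (EF.far g24_3) (EF.far g25_3) (EF.far g26_3) (EF.far g27_3) (EF.far g28_3) (EF.far g29_3) (EF.far g30_3) (EF.far g31_3) (EF.far g32_3) (EF.far g33_3) (EF.far g34_3) (EF.far g35_3) (EF.far g36_3) (EF.far g37_3) (EF.far g38_3) (EF.far g39_3) (EF.far g40_3) (EF.far g41_3) (EF.far g42_3) (EF.far g43_3) (EF.far g44_3) (EF.far g45_3) (EF.far g46_3)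

theorem f8_3_8 : ∀ tc ∈ tl, EF tc d3 e8_3_8 :=
  tl_forall (EF.tv rfl q0_3 c8_0_3_8) (EF.tv rfl q1_3 c8_1_3_8) (EF.tv rfl q2_3 c8_2_3_8) (EF.tv rfl q3_3 c8_3_3_8) (EF.tv rfl q4_3 c8_4_3_8) (EF.tv rfl q5_3 c8_5_3_8) (EF.tv rfl q6_3 c8_6_3_8) (EF.tv rfl q7_3 c8_7_3_8) (EF.tv rfl q8_3 c8_8_3_8) (EF.tv rfl q9_3 c8_9_3_8) (EF.tv rfl q10_3 c8_10_3_8) (EF.tv rfl q11_3 c8_11_3_8) (EF.tv rfl q12_3 c8_12_3_8) (EF.tv rfl q13_3 c8_13_3_8) (EF.tv rfl q14_3 c8_14_3_8) (EF.tv rfl q15_3 c8_15_3_8) (EF.tv rfl q16_3 c8_16_3_8) (EF.tv rfl q17_3 c8_17_3_8) (EF.tv rfl q18_3 c8_18_3_8) (EF.tv rfl q19_3 c8_19_3_8) (EF.tv rfl q20_3 c8_20_3_8) (EF.far g21_3) (EF.far g22_3) (EF.far g23_3) (EF.far g24_3) (EF.far g25_3) (EF.far g26_3) (EF.far g27_3) (EF.far g28_3) (EF.far g29_3) (EF.far g30_3) (EF.far g31_3) (EF.far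 g32_3) (EF.far g33_3) (EF.far g34_3) (EF.far g35_3) (EF.far g36_3) (EF.far g37_3) (EF.far g38_3) (EF.far g39_3) (EF.far g40_3) (EF.far g41_3) (EF.far g42_3) (EF.far g43_3) (EF.far g44_3) (EF.far g45_3) (EF.far g46_3)

theorem f8_3_9 : ∀ tc ∈ tl, EF tc d3 e8_3_9 :=
  tl_forall (EF.tv rfl q0_3 c8_0_3_9) (EF.tv rfl q1_3 c8_1_3_9) (EF.tv rfl q2_3 c8_2_3_9) (EF.tv rfl q3_3 c8_3_3_9) (EF.tv rfl q4_3 c8_4_3_9) (EF.tv rfl q5_3 c8_5_3_9) (EF.tv rfl q6_3 c8_6_3_9) (EF.tv rfl q7_3 c8_7_3_9) (EF.tv rfl q8_3 c8_8_3_9) (EF.tv rfl q9_3 c8_9_3_9) (EF.tv rfl q10_3 c8_10_3_9) (EF.tv rfl q11_3 c8_11_3_9) (EF.tv rfl q12_3 c8_12_3_9) (EF.tv rfl q13_3 c8_13_3_9) (EF.tv rfl q14_3 c8_14_3_9) (EF.tv rfl q15_3 c8_15_3_9) (EF.tv rfl q16_3 c8_16_3_9) (EF.tv rfl q17_3 c8_17_3_9) (EF.tv rfl q18_3 c8_18_3_9) (EF.tv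 rfl q19_3 c8_19_3_9) (EF.tv rfl q20_3 c8_20_3_9) (EF.far g21_3) (EF.far g22_3) (EF.far g23_3) (EF.far g24_3) (EF.far g25_3) (EF.far g26_3) (EF.far g27_3) (EF.far g28_3) (EF.far g29_3) (EF.far g30_3) (EF.far g31_3) (EF.far g32_3) (EF.far g33_3) (EF.far g34_3) (EF.far g35_3) (EF.far g36_3) (EF.far g37_3) (EF.far g38_3) (EF.far g39_3) (EF.far g40_3) (EF.far g41_3) (EF.far g42_3) (EF.far g43_3) (EF.far g44_3) (EF.far g45_3) (EF.far g46_3)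

theorem h4_3 : EvC tl 4 (shK Dec.one 4) d3 :=
  EvC.of2 (tab := tabX 4) (Ls := [e4_3_0, e4_3_1, e4_3_2, e4_3_3]) (tabX_ok 4)
    (by decide +kernel) (by decide +kernel) (by
    intro L hL
    simp only [List.mem_cons, List.not_mem_nil, or_false] at hL
    rcases hL with rfl | rfl | rfl | rfl
    · exact f4_3_0
    · exact f4_3_1
    · exact f4_3_2
    · exact f4_3_3)

theorem h6_3 : EvC tl 6 (shK Dec.one 6) d3 :=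
  EvC.of2 (tab := tabX 6) (Ls := [e6_3_4, e6_3_5, e6_3_6, e6_3_7]) (tabX_ok 6)
    (by decide +kernel) (by decide +kernel) (by
    intro L hL
    simp only [List.mem_cons, List.not_mem_nil, or_false] at hL
    rcases hL with rfl | rfl | rfl | rfl
    · exact f6_3_4
    · exact f6_3_5
    · exact f6_3_6
    · exact f6_3_7)

theorem h8_3 : EvC tl 0 (shA Dec.one 106) d3 :=
  EvC.of2 (tab := tabX 0) (Ls := [e8_3_8, e8_3_9]) (tabX_ok 0)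
    (by decide +kernel) (by decide +kernel) (by
    intro L hL
    simp only [List.mem_cons, List.not_mem_nil, or_false] at hL
    rcases hL with rfl | rfl
    · exact f8_3_8
    · exact f8_3_9)

theorem hh_3 : EvC8 tl Dec.one d3 := EvC8.a h8_3

end Pool.Agent.TSE
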