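import Pool.Agent.TSE.C4_0
import Pool.Agent.TSE.C4_2
import Pool.Agent.TSE.C4_4
import Pool.Agent.TSE.C4_6
import Pool.Agent.TSE.C4_8
import Pool.Agent.TSE.C4_10
import Pool.Agent.TSE.C4_12
import Pool.Agent.TSE.C4_14
import Pool.Agent.TSE.C4_16
import Pool.Agent.TSE.T
import Pool.Agent.TSE.BaseC
import Pool.Agent.TSG.TabX

set_option autoImplicit false

/-! # One interval of the total mass (MP_d27362_co) -/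

namespace Pool.Agent.TSE

open Pool.Agent.TSC
open Pool.Agent.TSC.Dec
open Pool.Agent.TSG


theorem kf4 : ∀ tc ∈ tl, Pool.Agent.TSK.KF tc d4 :=
  tl_forall (KF.tv rfl q0_4 c0_4) (KF.tv rfl q1_4 c1_4) (KF.tv rfl q2_4 c2_4) (KF.tv rfl q3_4 c3_4) (KF.tv rfl q4_4 c4_4) (KF.tv rfl q5_4 c5_4) (KF.tv rfl q6_4 c6_4) (KF.tv rfl q7_4 c7_4) (KF.tv rfl q8_4 c8_4) (KF.tv rfl q9_4 c9_4) (KF.tv rfl q10_4 c10_4) (KF.tv rfl q11_4 c11_4) (KF.tv rfl q12_4 c12_4) (KF.tv rfl q13_4 c13_4) (KF.tv rfl q14_4 c14_4) (KF.tv rfl q15_4 c15_4) (KF.tv rfl q16_4 c16_4) (Pool.Agent.TSK.KF.far g17_4) (Pool.Agent.TSK.KF.far g18_4) (Pool.Agent.TSK.KF.far g19_4) (Pool.Agent.TSK.KF.far g20_4) (Pool.Agent.TSK.KF.far g21_4) (Pool.Agent.TSK.KF.far g22_4) (Pool.Agent.TSK.KF.far g23_4) (Pool.Agent.TSK.KF.far g24_4) (Pool.Agent.TSK.KF.far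 g25_4) (Pool.Agent.TSK.KF.far g26_4) (Pool.Agent.TSK.KF.far g27_4) (Pool.Agent.TSK.KF.far g28_4) (Pool.Agent.TSK.KF.far g29_4) (Pool.Agent.TSK.KF.far g30_4) (Pool.Agent.TSK.KF.far g31_4) (Pool.Agent.TSK.KF.far g32_4) (Pool.Agent.TSK.KF.far g33_4) (Pool.Agent.TSK.KF.far g34_4) (Pool.Agent.TSK.KF.far g35_4) (Pool.Agent.TSK.KF.far g36_4) (Pool.Agent.TSK.KF.far g37_4) (Pool.Agent.TSK.KF.far g38_4) (Pool.Agent.TSK.KF.far g39_4) (Pool.Agent.TSK.KF.far g40_4) (Pool.Agent.TSK.KF.far g41_4) (Pool.Agent.TSK.KF.far g42_4) (Pool.Agent.TSK.KF.far g43_4) (Pool.Agent.TSK.KF.far g44_4) (Pool.Agent.TSK.KF.far g45_4) (Pool.Agent.TSK.KF.far g46_4)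

theorem f4_4_0 : ∀ tc ∈ tl, EF tc d4 e4_4_0 :=
  tl_forall (EF.tv rfl q0_4 c4_0_4_0) (EF.tv rfl q1_4 c4_1_4_0) (EF.tv rfl q2_4 c4_2_4_0) (EF.tv rfl q3_4 c4_3_4_0) (EF.tv rfl q4_4 c4_4_4_0) (EF.tv rfl q5_4 c4_5_4_0) (EF.tv rfl q6_4 c4_6_4_0) (EF.tv rfl q7_4 c4_7_4_0) (EF.tv rfl q8_4 c4_8_4_0) (EF.tv rfl q9_4 c4_9_4_0) (EF.tv rfl q10_4 c4_10_4_0) (EF.tv rfl q11_4 c4_11_4_0) (EF.tv rfl q12_4 c4_12_4_0) (EF.tv rfl q13_4 c4_13_4_0) (EF.tv rfl q14_4 c4_14_4_0) (EF.tv rfl q15_4 c4_15_4_0) (EF.tv rfl q16_4 c4_16_4_0) (EF.far g17_4) (EF.far g18_4) (EF.far g19_4) (EF.far g20_4) (EF.far g21_4) (EF.far g22_4) (EF.far g23_4) (EF.far g24_4) (EF.far g25_4) (EF.far g26_4) (EF.far g27_4) (EF.far g28_4) (EF.far g29_4) (EF.far g30_4) (EF.far g31_4) (EF.far g32_4) (EF.far g33_4) (EF.far g34_4) (EF.far g35_4) (EF.far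 g36_4) (EF.far g37_4) (EF.far g38_4) (EF.far g39_4) (EF.far g40_4) (EF.far g41_4) (EF.far g42_4) (EF.far g43_4) (EF.far g44_4) (EF.far g45_4) (EF.far g46_4)

theorem f4_4_1 : ∀ tc ∈ tl, EF tc d4 e4_4_1 :=
  tl_forall (EF.tv rfl q0_4 c4_0_4_1) (EF.tv rfl q1_4 c4_1_4_1) (EF.tv rfl q2_4 c4_2_4_1) (EF.tv rfl q3_4 c4_3_4_1) (EF.tv rfl q4_4 c4_4_4_1) (EF.tv rfl q5_4 c4_5_4_1) (EF.tv rfl q6_4 c4_6_4_1) (EF.tv rfl q7_4 c4_7_4_1) (EF.tv rfl q8_4 c4_8_4_1) (EF.tv rfl q9_4 c4_9_4_1) (EF.tv rfl q10_4 c4_10_4_1) (EF.tv rfl q11_4 c4_11_4_1) (EF.tv rfl q12_4 c4_12_4_1) (EF.tv rfl q13_4 c4_13_4_1) (EF.tv rfl q14_4 c4_14_4_1) (EF.tv rfl q15_4 c4_15_4_1) (EF.tv rfl q16_4 c4_16_4_1) (EF.far g17_4) (EF.far g18_4) (EF.far g19_4) (EF.far g20_4) (EF.far g21_4) (EF.far g22_4) (EF.far g23_4) (EF.far g24_4) (EF.far g25_4)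 (EF.far g26_4) (EF.far g27_4) (EF.far g28_4) (EF.far g29_4) (EF.far g30_4) (EF.far g31_4) (EF.far g32_4) (EF.far g33_4) (EF.far g34_4) (EF.far g35_4) (EF.far g36_4) (EF.far g37_4) (EF.far g38_4) (EF.far g39_4) (EF.far g40_4) (EF.far g41_4) (EF.far g42_4) (EF.far g43_4) (EF.far g44_4) (EF.far g45_4) (EF.far g46_4)

theorem f4_4_2 : ∀ tc ∈ tl, EF tc d4 e4_4_2 :=
  tl_forall (EF.tv rfl q0_4 c4_0_4_2) (EF.tv rfl q1_4 c4_1_4_2) (EF.tv rfl q2_4 c4_2_4_2) (EF.tv rfl q3_4 c4_3_4_2) (EF.tv rfl q4_4 c4_4_4_2) (EF.tv rfl q5_4 c4_5_4_2) (EF.tv rfl q6_4 c4_6_4_2) (EF.tv rfl q7_4 c4_7_4_2) (EF.tv rfl q8_4 c4_8_4_2) (EF.tv rfl q9_4 c4_9_4_2) (EF.tv rfl q10_4 c4_10_4_2) (EF.tv rfl q11_4 c4_11_4_2) (EF.tv rfl q12_4 c4_12_4_2) (EF.tv rfl q13_4 c4_13_4_2) (EF.tv rfl q14_4 c4_14_4_2) (EF.tv rfl q15_4 c4_15_4_2) (EF.tv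 rfl q16_4 c4_16_4_2) (EF.far g17_4) (EF.far g18_4) (EF.far g19_4) (EF.far g20_4) (EF.far g21_4) (EF.far g22_4) (EF.far g23_4) (EF.far g24_4) (EF.far g25_4) (EF.far g26_4) (EF.far g27_4) (EF.far g28_4) (EF.far g29_4) (EF.far g30_4) (EF.far g31_4) (EF.far g32_4) (EF.far g33_4) (EF.far g34_4) (EF.far g35_4) (EF.far g36_4) (EF.far g37_4) (EF.far g38_4) (EF.far g39_4) (EF.far g40_4) (EF.far g41_4) (EF.far g42_4) (EF.far g43_4) (EF.far g44_4) (EF.far g45_4) (EF.far g46_4)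

theorem f4_4_3 : ∀ tc ∈ tl, EF tc d4 e4_4_3 :=
  tl_forall (EF.tv rfl q0_4 c4_0_4_3) (EF.tv rfl q1_4 c4_1_4_3) (EF.tv rfl q2_4 c4_2_4_3) (EF.tv rfl q3_4 c4_3_4_3) (EF.tv rfl q4_4 c4_4_4_3) (EF.tv rfl q5_4 c4_5_4_3) (EF.tv rfl q6_4 c4_6_4_3) (EF.tv rfl q7_4 c4_7_4_3) (EF.tv rfl q8_4 c4_8_4_3) (EF.tv rfl q9_4 c4_9_4_3) (EF.tv rfl q10_4 c4_10_4_3) (EF.tv rfl q11_4 c4_11_4_3) (EF.tv rfl q12_4 c4_12_4_3) (EF.tv rfl q13_4 c4_13_4_3) (EF.tv rfl q14_4 c4_14_4_3) (EF.tv rfl q15_4 c4_15_4_3) (EF.tv rfl q16_4 c4_16_4_3) (EF.far g17_4) (EF.far g18_4) (EF.far g19_4) (EF.far g20_4) (EF.far g21_4) (EF.far g22_4) (EF.far g23_4) (EF.far g24_4) (EF.far g25_4) (EF.far g26_4) (EF.far g27_4) (EF.far g28_4) (EF.far g29_4) (EF.far g30_4) (EF.far g31_4) (EF.far g32_4) (EF.far g33_4) (EF.far g34_4) (EF.far g35_4) (EF.far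 g36_4) (EF.far g37_4) (EF.far g38_4) (EF.far g39_4) (EF.far g40_4) (EF.far g41_4) (EF.far g42_4) (EF.far g43_4) (EF.far g44_4) (EF.far g45_4) (EF.far g46_4)

theorem f6_4_4 : ∀ tc ∈ tl, EF tc d4 e6_4_4 :=
  tl_forall (EF.tv rfl q0_4 c6_0_4_4) (EF.tv rfl q1_4 c6_1_4_4) (EF.tv rfl q2_4 c6_2_4_4) (EF.tv rfl q3_4 c6_3_4_4) (EF.tv rfl q4_4 c6_4_4_4) (EF.tv rfl q5_4 c6_5_4_4) (EF.tv rfl q6_4 c6_6_4_4) (EF.tv rfl q7_4 c6_7_4_4) (EF.tv rfl q8_4 c6_8_4_4) (EF.tv rfl q9_4 c6_9_4_4) (EF.tv rfl q10_4 c6_10_4_4) (EF.tv rfl q11_4 c6_11_4_4) (EF.tv rfl q12_4 c6_12_4_4) (EF.tv rfl q13_4 c6_13_4_4) (EF.tv rfl q14_4 c6_14_4_4) (EF.tv rfl q15_4 c6_15_4_4) (EF.tv rfl q16_4 c6_16_4_4) (EF.far g17_4) (EF.far g18_4) (EF.far g19_4) (EF.far g20_4) (EF.far g21_4) (EF.far g22_4) (EF.far g23_4) (EF.far g24_4) (EF.far g25_4)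 (EF.far g26_4) (EF.far g27_4) (EF.far g28_4) (EF.far g29_4) (EF.far g30_4) (EF.far g31_4) (EF.far g32_4) (EF.far g33_4) (EF.far g34_4) (EF.far g35_4) (EF.far g36_4) (EF.far g37_4) (EF.far g38_4) (EF.far g39_4) (EF.far g40_4) (EF.far g41_4) (EF.far g42_4) (EF.far g43_4) (EF.far g44_4) (EF.far g45_4) (EF.far g46_4)

theorem f6_4_5 : ∀ tc ∈ tl, EF tc d4 e6_4_5 :=
  tl_forall (EF.tv rfl q0_4 c6_0_4_5) (EF.tv rfl q1_4 c6_1_4_5) (EF.tv rfl q2_4 c6_2_4_5) (EF.tv rfl q3_4 c6_3_4_5) (EF.tv rfl q4_4 c6_4_4_5) (EF.tv rfl q5_4 c6_5_4_5) (EF.tv rfl q6_4 c6_6_4_5) (EF.tv rfl q7_4 c6_7_4_5) (EF.tv rfl q8_4 c6_8_4_5) (EF.tv rfl q9_4 c6_9_4_5) (EF.tv rfl q10_4 c6_10_4_5) (EF.tv rfl q11_4 c6_11_4_5) (EF.tv rfl q12_4 c6_12_4_5) (EF.tv rfl q13_4 c6_13_4_5) (EF.tv rfl q14_4 c6_14_4_5) (EF.tv rfl q15_4 c6_15_4_5) (EF.tv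 rfl q16_4 c6_16_4_5) (EF.far g17_4) (EF.far g18_4) (EF.far g19_4) (EF.far g20_4) (EF.far g21_4) (EF.far g22_4) (EF.far g23_4) (EF.far g24_4) (EF.far g25_4) (EF.far g26_4) (EF.far g27_4) (EF.far g28_4) (EF.far g29_4) (EF.far g30_4) (EF.far g31_4) (EF.far g32_4) (EF.far g33_4) (EF.far g34_4) (EF.far g35_4) (EF.far g36_4) (EF.far g37_4) (EF.far g38_4) (EF.far g39_4) (EF.far g40_4) (EF.far g41_4) (EF.far g42_4) (EF.far g43_4) (EF.far g44_4) (EF.far g45_4) (EF.far g46_4)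

theorem f6_4_6 : ∀ tc ∈ tl, EF tc d4 e6_4_6 :=
  tl_forall (EF.tv rfl q0_4 c6_0_4_6) (EF.tv rfl q1_4 c6_1_4_6) (EF.tv rfl q2_4 c6_2_4_6) (EF.tv rfl q3_4 c6_3_4_6) (EF.tv rfl q4_4 c6_4_4_6) (EF.tv rfl q5_4 c6_5_4_6) (EF.tv rfl q6_4 c6_6_4_6) (EF.tv rfl q7_4 c6_7_4_6) (EF.tv rfl q8_4 c6_8_4_6) (EF.tv rfl q9_4 c6_9_4_6) (EF.tv rfl q10_4 c6_10_4_6) (EF.tv rfl q11_4 c6_11_4_6) (EF.tv rfl q12_4 c6_12_4_6) (EF.tv rfl q13_4 c6_13_4_6) (EF.tv rfl q14_4 c6_14_4_6) (EF.tv rfl q15_4 c6_15_4_6) (EF.tv rfl q16_4 c6_16_4_6) (EF.far g17_4) (EF.far g18_4) (EF.far g19_4) (EF.far g20_4) (EF.far g21_4) (EF.far g22_4) (EF.far g23_4) (EF.far g24_4) (EF.far g25_4) (EF.far g26_4) (EF.far g27_4) (EF.far g28_4) (EF.far g29_4) (EF.far g30_4) (EF.far g31_4) (EF.far g32_4) (EF.far g33_4) (EF.far g34_4) (EF.far g35_4) (EF.far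 g36_4) (EF.far g37_4) (EF.far g38_4) (EF.far g39_4) (EF.far g40_4) (EF.far g41_4) (EF.far g42_4) (EF.far g43_4) (EF.far g44_4) (EF.far g45_4) (EF.far g46_4)

theorem f6_4_7 : ∀ tc ∈ tl, EF tc d4 e6_4_7 :=
  tl_forall (EF.tv rfl q0_4 c6_0_4_7) (EF.tv rfl q1_4 c6_1_4_7) (EF.tv rfl q2_4 c6_2_4_7) (EF.tv rfl q3_4 c6_3_4_7) (EF.tv rfl q4_4 c6_4_4_7) (EF.tv rfl q5_4 c6_5_4_7) (EF.tv rfl q6_4 c6_6_4_7) (EF.tv rfl q7_4 c6_7_4_7) (EF.tv rfl q8_4 c6_8_4_7) (EF.tv rfl q9_4 c6_9_4_7) (EF.tv rfl q10_4 c6_10_4_7) (EF.tv rfl q11_4 c6_11_4_7) (EF.tv rfl q12_4 c6_12_4_7) (EF.tv rfl q13_4 c6_13_4_7) (EF.tv rfl q14_4 c6_14_4_7) (EF.tv rfl q15_4 c6_15_4_7) (EF.tv rfl q16_4 c6_16_4_7) (EF.far g17_4) (EF.far g18_4) (EF.far g19_4) (EF.far g20_4) (EF.far g21_4) (EF.far g22_4) (EF.far g23_4) (EF.far g24_4) (EF.far g25_4)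 (EF.far g26_4) (EF.far g27_4) (EF.far g28_4) (EF.far g29_4) (EF.far g30_4) (EF.far g31_4) (EF.far g32_4) (EF.far g33_4) (EF.far g34_4) (EF.far g35_4) (EF.far g36_4) (EF.far g37_4) (EF.far g38_4) (EF.far g39_4) (EF.far g40_4) (EF.far g41_4) (EF.far g42_4) (EF.far g43_4) (EF.far g44_4) (EF.far g45_4) (EF.far g46_4)

theorem f8_4_8 : ∀ tc ∈ tl, EF tc d4 e8_4_8 :=
  tl_forall (EF.tv rfl q0_4 c8_0_4_8) (EF.tv rfl q1_4 c8_1_4_8) (EF.tv rfl q2_4 c8_2_4_8) (EF.tv rfl q3_4 c8_3_4_8) (EF.tv rfl q4_4 c8_4_4_8) (EF.tv rfl q5_4 c8_5_4_8) (EF.tv rfl q6_4 c8_6_4_8) (EF.tv rfl q7_4 c8_7_4_8) (EF.tv rfl q8_4 c8_8_4_8) (EF.tv rfl q9_4 c8_9_4_8) (EF.tv rfl q10_4 c8_10_4_8) (EF.tv rfl q11_4 c8_11_4_8) (EF.tv rfl q12_4 c8_12_4_8) (EF.tv rfl q13_4 c8_13_4_8) (EF.tv rfl q14_4 c8_14_4_8) (EF.tv rfl q15_4 c8_15_4_8) (EF.tv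 rfl q16_4 c8_16_4_8) (EF.far g17_4) (EF.far g18_4) (EF.far g19_4) (EF.far g20_4) (EF.far g21_4) (EF.far g22_4) (EF.far g23_4) (EF.far g24_4) (EF.far g25_4) (EF.far g26_4) (EF.far g27_4) (EF.far g28_4) (EF.far g29_4) (EF.far g30_4) (EF.far g31_4) (EF.far g32_4) (EF.far g33_4) (EF.far g34_4) (EF.far g35_4) (EF.far g36_4) (EF.far g37_4) (EF.far g38_4) (EF.far g39_4) (EF.far g40_4) (EF.far g41_4) (EF.far g42_4) (EF.far g43_4) (EF.far g44_4) (EF.far g45_4) (EF.far g46_4)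

theorem f8_4_9 : ∀ tc ∈ tl, EF tc d4 e8_4_9 :=
  tl_forall (EF.tv rfl q0_4 c8_0_4_9) (EF.tv rfl q1_4 c8_1_4_9) (EF.tv rfl q2_4 c8_2_4_9) (EF.tv rfl q3_4 c8_3_4_9) (EF.tv rfl q4_4 c8_4_4_9) (EF.tv rfl q5_4 c8_5_4_9) (EF.tv rfl q6_4 c8_6_4_9) (EF.tv rfl q7_4 c8_7_4_9) (EF.tv rfl q8_4 c8_8_4_9) (EF.tv rfl q9_4 c8_9_4_9) (EF.tv rfl q10_4 c8_10_4_9) (EF.tv rfl q11_4 c8_11_4_9) (EF.tv rfl q12_4 c8_12_4_9) (EF.tv rfl q13_4 c8_13_4_9) (EF.tv rfl q14_4 c8_14_4_9) (EF.tv rfl q15_4 c8_15_4_9) (EF.tv rfl q16_4 c8_16_4_9) (EF.far g17_4) (EF.far g18_4) (EF.far g19_4) (EF.far g20_4) (EF.far g21_4) (EF.far g22_4) (EF.far g23_4) (EF.far g24_4) (EF.far g25_4) (EF.far g26_4) (EF.far g27_4) (EF.far g28_4) (EF.far g29_4) (EF.far g30_4) (EF.far g31_4) (EF.far g32_4) (EF.far g33_4) (EF.far g34_4) (EF.far g35_4) (EF.far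 g36_4) (EF.far g37_4) (EF.far g38_4) (EF.far g39_4) (EF.far g40_4) (EF.far g41_4) (EF.far g42_4) (EF.far g43_4) (EF.far g44_4) (EF.far g45_4) (EF.far g46_4)

theorem h4_4 : EvC tl 4 (shK Dec.one 4) d4 :=
  EvC.of2 (tab := tabX 4) (Ls := [e4_4_0, e4_4_1, e4_4_2, e4_4_3]) (tabX_ok 4)
    (by decide +kernel) (by decide +kernel) (by
    intro L hL
    simp only [List.mem_cons, List.not_mem_nil, or_false] at hL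
    rcases hL with rfl | rfl | rfl | rfl
    · exact f4_4_0
    · exact f4_4_1
    · exact f4_4_2
    · exact f4_4_3)

theorem h6_4 : EvC tl 6 (shK Dec.one 6) d4 :=
  EvC.of2 (tab := tabX 6) (Ls := [e6_4_4, e6_4_5, e6_4_6, e6_4_7]) (tabX_ok 6)
    (by decide +kernel) (by decide +kernel) (by
    intro L hL
    simp only [List.mem_cons, List.not_mem_nil, or_false] at hL
    rcases hL with rfl | rfl | rfl | rfl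
    · exact f6_4_4
    · exact f6_4_5
    · exact f6_4_6
    · exact f6_4_7)

theorem h8_4 : EvC tl 0 (shA Dec.one 106) d4 :=
  EvC.of2 (tab := tabX 0) (Ls := [e8_4_8, e8_4_9]) (tabX_ok 0)
    (by decide +kernel) (by decide +kernel) (by
    intro L hL
    simp only [List.mem_cons, List.not_mem_nil, or_false] at hL
    rcases hL with rfl | rfl
    · exact f8_4_8
    · exact f8_4_9)

theorem hh_4 : EvC8 tl Dec.one d4 := EvC8.a h8_4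

end Pool.Agent.TSE
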