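import Pool.Agent.TSE.C5_0
import Pool.Agent.TSE.C5_2
import Pool.Agent.TSE.C5_4
import Pool.Agent.TSE.C5_6
import Pool.Agent.TSE.C5_8
import Pool.Agent.TSE.C5_10
import Pool.Agent.TSE.C5_12
import Pool.Agent.TSE.T
import Pool.Agent.TSE.BaseC
import Pool.Agent.TSG.TabX

set_option autoImplicit false

/-! # One interval of the total mass (MP_d27362_co) -/

namespace Pool.Agent.TSE

open Pool.Agent.TSC
open Pool.Agent.TSC.Dec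
open Pool.Agent.TSG


theorem kf5 : ∀ tc ∈ tl, Pool.Agent.TSK.KF tc d5 :=
  tl_forall (KF.tv rfl q0_5 c0_5) (KF.tv rfl q1_5 c1_5) (KF.tv rfl q2_5 c2_5) (KF.tv rfl q3_5 c3_5) (KF.tv rfl q4_5 c4_5) (KF.tv rfl q5_5 c5_5) (KF.tv rfl q6_5 c6_5) (KF.tv rfl q7_5 c7_5) (KF.tv rfl q8_5 c8_5) (KF.tv rfl q9_5 c9_5) (KF.tv rfl q10_5 c10_5) (KF.tv rfl q11_5 c11_5) (KF.tv rfl q12_5 c12_5) (Pool.Agent.TSK.KF.far g13_5) (Pool.Agent.TSK.KF.far g14_5) (Pool.Agent.TSK.KF.far g15_5) (Pool.Agent.TSK.KF.far g16_5) (Pool.Agent.TSK.KF.far g17_5) (Pool.Agent.TSK.KF.far g18_5) (Pool.Agent.TSK.KF.far g19_5) (Pool.Agent.TSK.KF.far g20_5) (Pool.Agent.TSK.KF.far g21_5) (Pool.Agent.TSK.KF.far g22_5) (Pool.Agent.TSK.KF.far g23_5) (Pool.Agent.TSK.KF.far g24_5) (Pool.Agent.TSK.KF.far g25_5) (Pool.Agent.TSK.KF.far g26_5) (Pool.Agent.TSK.KF.far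 g27_5) (Pool.Agent.TSK.KF.far g28_5) (Pool.Agent.TSK.KF.far g29_5) (Pool.Agent.TSK.KF.far g30_5) (Pool.Agent.TSK.KF.far g31_5) (Pool.Agent.TSK.KF.far g32_5) (Pool.Agent.TSK.KF.far g33_5) (Pool.Agent.TSK.KF.far g34_5) (Pool.Agent.TSK.KF.far g35_5) (Pool.Agent.TSK.KF.far g36_5) (Pool.Agent.TSK.KF.far g37_5) (Pool.Agent.TSK.KF.far g38_5) (Pool.Agent.TSK.KF.far g39_5) (Pool.Agent.TSK.KF.far g40_5) (Pool.Agent.TSK.KF.far g41_5) (Pool.Agent.TSK.KF.far g42_5) (Pool.Agent.TSK.KF.far g43_5) (Pool.Agent.TSK.KF.far g44_5) (Pool.Agent.TSK.KF.far g45_5) (Pool.Agent.TSK.KF.far g46_5)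

theorem f4_5_0 : ∀ tc ∈ tl, EF tc d5 e4_5_0 :=
  tl_forall (EF.tv rfl q0_5 c4_0_5_0) (EF.tv rfl q1_5 c4_1_5_0) (EF.tv rfl q2_5 c4_2_5_0) (EF.tv rfl q3_5 c4_3_5_0) (EF.tv rfl q4_5 c4_4_5_0) (EF.tv rfl q5_5 c4_5_5_0) (EF.tv rfl q6_5 c4_6_5_0) (EF.tv rfl q7_5 c4_7_5_0) (EF.tv rfl q8_5 c4_8_5_0) (EF.tv rfl q9_5 c4_9_5_0) (EF.tv rfl q10_5 c4_10_5_0) (EF.tv rfl q11_5 c4_11_5_0) (EF.tv rfl q12_5 c4_12_5_0) (EF.far g13_5) (EF.far g14_5) (EF.far g15_5) (EF.far g16_5) (EF.far g17_5) (EF.far g18_5) (EF.far g19_5) (EF.far g20_5) (EF.far g21_5) (EF.far g22_5) (EF.far g23_5) (EF.far g24_5) (EF.far g25_5) (EF.far g26_5) (EF.far g27_5) (EF.far g28_5) (EF.far g29_5) (EF.far g30_5) (EF.far g31_5) (EF.far g32_5) (EF.far g33_5) (EF.far g34_5) (EF.far g35_5) (EF.far g36_5) (EF.far g37_5) (EF.far g38_5) (EF.far g39_5) (EF.far g40_5)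 (EF.far g41_5) (EF.far g42_5) (EF.far g43_5) (EF.far g44_5) (EF.far g45_5) (EF.far g46_5)

theorem f4_5_1 : ∀ tc ∈ tl, EF tc d5 e4_5_1 :=
  tl_forall (EF.tv rfl q0_5 c4_0_5_1) (EF.tv rfl q1_5 c4_1_5_1) (EF.tv rfl q2_5 c4_2_5_1) (EF.tv rfl q3_5 c4_3_5_1) (EF.tv rfl q4_5 c4_4_5_1) (EF.tv rfl q5_5 c4_5_5_1) (EF.tv rfl q6_5 c4_6_5_1) (EF.tv rfl q7_5 c4_7_5_1) (EF.tv rfl q8_5 c4_8_5_1) (EF.tv rfl q9_5 c4_9_5_1) (EF.tv rfl q10_5 c4_10_5_1) (EF.tv rfl q11_5 c4_11_5_1) (EF.tv rfl q12_5 c4_12_5_1) (EF.far g13_5) (EF.far g14_5) (EF.far g15_5) (EF.far g16_5) (EF.far g17_5) (EF.far g18_5) (EF.far g19_5) (EF.far g20_5) (EF.far g21_5) (EF.far g22_5) (EF.far g23_5) (EF.far g24_5) (EF.far g25_5) (EF.far g26_5) (EF.far g27_5) (EF.far g28_5) (EF.far g29_5) (EF.far g30_5) (EF.far g31_5) (EF.far g32_5) (EF.far g33_5) (EF.far g34_5)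 (EF.far g35_5) (EF.far g36_5) (EF.far g37_5) (EF.far g38_5) (EF.far g39_5) (EF.far g40_5) (EF.far g41_5) (EF.far g42_5) (EF.far g43_5) (EF.far g44_5) (EF.far g45_5) (EF.far g46_5)

theorem f4_5_2 : ∀ tc ∈ tl, EF tc d5 e4_5_2 :=
  tl_forall (EF.tv rfl q0_5 c4_0_5_2) (EF.tv rfl q1_5 c4_1_5_2) (EF.tv rfl q2_5 c4_2_5_2) (EF.tv rfl q3_5 c4_3_5_2) (EF.tv rfl q4_5 c4_4_5_2) (EF.tv rfl q5_5 c4_5_5_2) (EF.tv rfl q6_5 c4_6_5_2) (EF.tv rfl q7_5 c4_7_5_2) (EF.tv rfl q8_5 c4_8_5_2) (EF.tv rfl q9_5 c4_9_5_2) (EF.tv rfl q10_5 c4_10_5_2) (EF.tv rfl q11_5 c4_11_5_2) (EF.tv rfl q12_5 c4_12_5_2) (EF.far g13_5) (EF.far g14_5) (EF.far g15_5) (EF.far g16_5) (EF.far g17_5) (EF.far g18_5) (EF.far g19_5) (EF.far g20_5) (EF.far g21_5) (EF.far g22_5) (EF.far g23_5) (EF.far g24_5) (EF.far g25_5) (EF.far g26_5) (EF.far g27_5) (EF.far g28_5)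 (EF.far g29_5) (EF.far g30_5) (EF.far g31_5) (EF.far g32_5) (EF.far g33_5) (EF.far g34_5) (EF.far g35_5) (EF.far g36_5) (EF.far g37_5) (EF.far g38_5) (EF.far g39_5) (EF.far g40_5) (EF.far g41_5) (EF.far g42_5) (EF.far g43_5) (EF.far g44_5) (EF.far g45_5) (EF.far g46_5)

theorem f4_5_3 : ∀ tc ∈ tl, EF tc d5 e4_5_3 :=
  tl_forall (EF.tv rfl q0_5 c4_0_5_3) (EF.tv rfl q1_5 c4_1_5_3) (EF.tv rfl q2_5 c4_2_5_3) (EF.tv rfl q3_5 c4_3_5_3) (EF.tv rfl q4_5 c4_4_5_3) (EF.tv rfl q5_5 c4_5_5_3) (EF.tv rfl q6_5 c4_6_5_3) (EF.tv rfl q7_5 c4_7_5_3) (EF.tv rfl q8_5 c4_8_5_3) (EF.tv rfl q9_5 c4_9_5_3) (EF.tv rfl q10_5 c4_10_5_3) (EF.tv rfl q11_5 c4_11_5_3) (EF.tv rfl q12_5 c4_12_5_3) (EF.far g13_5) (EF.far g14_5) (EF.far g15_5) (EF.far g16_5) (EF.far g17_5) (EF.far g18_5) (EF.far g19_5) (EF.far g20_5) (EF.far g21_5) (EF.far g22_5)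 (EF.far g23_5) (EF.far g24_5) (EF.far g25_5) (EF.far g26_5) (EF.far g27_5) (EF.far g28_5) (EF.far g29_5) (EF.far g30_5) (EF.far g31_5) (EF.far g32_5) (EF.far g33_5) (EF.far g34_5) (EF.far g35_5) (EF.far g36_5) (EF.far g37_5) (EF.far g38_5) (EF.far g39_5) (EF.far g40_5) (EF.far g41_5) (EF.far g42_5) (EF.far g43_5) (EF.far g44_5) (EF.far g45_5) (EF.far g46_5)

theorem f6_5_4 : ∀ tc ∈ tl, EF tc d5 e6_5_4 :=
  tl_forall (EF.tv rfl q0_5 c6_0_5_4) (EF.tv rfl q1_5 c6_1_5_4) (EF.tv rfl q2_5 c6_2_5_4) (EF.tv rfl q3_5 c6_3_5_4) (EF.tv rfl q4_5 c6_4_5_4) (EF.tv rfl q5_5 c6_5_5_4) (EF.tv rfl q6_5 c6_6_5_4) (EF.tv rfl q7_5 c6_7_5_4) (EF.tv rfl q8_5 c6_8_5_4) (EF.tv rfl q9_5 c6_9_5_4) (EF.tv rfl q10_5 c6_10_5_4) (EF.tv rfl q11_5 c6_11_5_4) (EF.tv rfl q12_5 c6_12_5_4) (EF.far g13_5) (EF.far g14_5) (EF.far g15_5) (EF.far g16_5)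 (EF.far g17_5) (EF.far g18_5) (EF.far g19_5) (EF.far g20_5) (EF.far g21_5) (EF.far g22_5) (EF.far g23_5) (EF.far g24_5) (EF.far g25_5) (EF.far g26_5) (EF.far g27_5) (EF.far g28_5) (EF.far g29_5) (EF.far g30_5) (EF.far g31_5) (EF.far g32_5) (EF.far g33_5) (EF.far g34_5) (EF.far g35_5) (EF.far g36_5) (EF.far g37_5) (EF.far g38_5) (EF.far g39_5) (EF.far g40_5) (EF.far g41_5) (EF.far g42_5) (EF.far g43_5) (EF.far g44_5) (EF.far g45_5) (EF.far g46_5)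

theorem f6_5_5 : ∀ tc ∈ tl, EF tc d5 e6_5_5 :=
  tl_forall (EF.tv rfl q0_5 c6_0_5_5) (EF.tv rfl q1_5 c6_1_5_5) (EF.tv rfl q2_5 c6_2_5_5) (EF.tv rfl q3_5 c6_3_5_5) (EF.tv rfl q4_5 c6_4_5_5) (EF.tv rfl q5_5 c6_5_5_5) (EF.tv rfl q6_5 c6_6_5_5) (EF.tv rfl q7_5 c6_7_5_5) (EF.tv rfl q8_5 c6_8_5_5) (EF.tv rfl q9_5 c6_9_5_5) (EF.tv rfl q10_5 c6_10_5_5) (EF.tv rfl q11_5 c6_11_5_5) (EF.tv rfl q12_5 c6_12_5_5) (EF.far g13_5) (EF.far g14_5) (EF.far g15_5) (EF.far g16_5) (EF.far g17_5) (EF.far g18_5) (EF.far g19_5) (EF.far g20_5) (EF.far g21_5) (EF.far g22_5) (EF.far g23_5) (EF.far g24_5) (EF.far g25_5) (EF.far g26_5) (EF.far g27_5) (EF.far g28_5) (EF.far g29_5) (EF.far g30_5) (EF.far g31_5) (EF.far g32_5) (EF.far g33_5) (EF.far g34_5) (EF.far g35_5) (EF.far g36_5) (EF.far g37_5) (EF.far g38_5) (EF.far g39_5) (EF.far g40_5)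 (EF.far g41_5) (EF.far g42_5) (EF.far g43_5) (EF.far g44_5) (EF.far g45_5) (EF.far g46_5)

theorem f6_5_6 : ∀ tc ∈ tl, EF tc d5 e6_5_6 :=
  tl_forall (EF.tv rfl q0_5 c6_0_5_6) (EF.tv rfl q1_5 c6_1_5_6) (EF.tv rfl q2_5 c6_2_5_6) (EF.tv rfl q3_5 c6_3_5_6) (EF.tv rfl q4_5 c6_4_5_6) (EF.tv rfl q5_5 c6_5_5_6) (EF.tv rfl q6_5 c6_6_5_6) (EF.tv rfl q7_5 c6_7_5_6) (EF.tv rfl q8_5 c6_8_5_6) (EF.tv rfl q9_5 c6_9_5_6) (EF.tv rfl q10_5 c6_10_5_6) (EF.tv rfl q11_5 c6_11_5_6) (EF.tv rfl q12_5 c6_12_5_6) (EF.far g13_5) (EF.far g14_5) (EF.far g15_5) (EF.far g16_5) (EF.far g17_5) (EF.far g18_5) (EF.far g19_5) (EF.far g20_5) (EF.far g21_5) (EF.far g22_5) (EF.far g23_5) (EF.far g24_5) (EF.far g25_5) (EF.far g26_5) (EF.far g27_5) (EF.far g28_5) (EF.far g29_5) (EF.far g30_5) (EF.far g31_5) (EF.far g32_5) (EF.far g33_5) (EF.far g34_5)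 (EF.far g35_5) (EF.far g36_5) (EF.far g37_5) (EF.far g38_5) (EF.far g39_5) (EF.far g40_5) (EF.far g41_5) (EF.far g42_5) (EF.far g43_5) (EF.far g44_5) (EF.far g45_5) (EF.far g46_5)

theorem f6_5_7 : ∀ tc ∈ tl, EF tc d5 e6_5_7 :=
  tl_forall (EF.tv rfl q0_5 c6_0_5_7) (EF.tv rfl q1_5 c6_1_5_7) (EF.tv rfl q2_5 c6_2_5_7) (EF.tv rfl q3_5 c6_3_5_7) (EF.tv rfl q4_5 c6_4_5_7) (EF.tv rfl q5_5 c6_5_5_7) (EF.tv rfl q6_5 c6_6_5_7) (EF.tv rfl q7_5 c6_7_5_7) (EF.tv rfl q8_5 c6_8_5_7) (EF.tv rfl q9_5 c6_9_5_7) (EF.tv rfl q10_5 c6_10_5_7) (EF.tv rfl q11_5 c6_11_5_7) (EF.tv rfl q12_5 c6_12_5_7) (EF.far g13_5) (EF.far g14_5) (EF.far g15_5) (EF.far g16_5) (EF.far g17_5) (EF.far g18_5) (EF.far g19_5) (EF.far g20_5) (EF.far g21_5) (EF.far g22_5) (EF.far g23_5) (EF.far g24_5) (EF.far g25_5) (EF.far g26_5) (EF.far g27_5) (EF.far g28_5)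 (EF.far g29_5) (EF.far g30_5) (EF.far g31_5) (EF.far g32_5) (EF.far g33_5) (EF.far g34_5) (EF.far g35_5) (EF.far g36_5) (EF.far g37_5) (EF.far g38_5) (EF.far g39_5) (EF.far g40_5) (EF.far g41_5) (EF.far g42_5) (EF.far g43_5) (EF.far g44_5) (EF.far g45_5) (EF.far g46_5)

theorem f8_5_8 : ∀ tc ∈ tl, EF tc d5 e8_5_8 :=
  tl_forall (EF.tv rfl q0_5 c8_0_5_8) (EF.tv rfl q1_5 c8_1_5_8) (EF.tv rfl q2_5 c8_2_5_8) (EF.tv rfl q3_5 c8_3_5_8) (EF.tv rfl q4_5 c8_4_5_8) (EF.tv rfl q5_5 c8_5_5_8) (EF.tv rfl q6_5 c8_6_5_8) (EF.tv rfl q7_5 c8_7_5_8) (EF.tv rfl q8_5 c8_8_5_8) (EF.tv rfl q9_5 c8_9_5_8) (EF.tv rfl q10_5 c8_10_5_8) (EF.tv rfl q11_5 c8_11_5_8) (EF.tv rfl q12_5 c8_12_5_8) (EF.far g13_5) (EF.far g14_5) (EF.far g15_5) (EF.far g16_5) (EF.far g17_5) (EF.far g18_5) (EF.far g19_5) (EF.far g20_5) (EF.far g21_5) (EF.far g22_5)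 (EF.far g23_5) (EF.far g24_5) (EF.far g25_5) (EF.far g26_5) (EF.far g27_5) (EF.far g28_5) (EF.far g29_5) (EF.far g30_5) (EF.far g31_5) (EF.far g32_5) (EF.far g33_5) (EF.far g34_5) (EF.far g35_5) (EF.far g36_5) (EF.far g37_5) (EF.far g38_5) (EF.far g39_5) (EF.far g40_5) (EF.far g41_5) (EF.far g42_5) (EF.far g43_5) (EF.far g44_5) (EF.far g45_5) (EF.far g46_5)

theorem f8_5_9 : ∀ tc ∈ tl, EF tc d5 e8_5_9 :=
  tl_forall (EF.tv rfl q0_5 c8_0_5_9) (EF.tv rfl q1_5 c8_1_5_9) (EF.tv rfl q2_5 c8_2_5_9) (EF.tv rfl q3_5 c8_3_5_9) (EF.tv rfl q4_5 c8_4_5_9) (EF.tv rfl q5_5 c8_5_5_9) (EF.tv rfl q6_5 c8_6_5_9) (EF.tv rfl q7_5 c8_7_5_9) (EF.tv rfl q8_5 c8_8_5_9) (EF.tv rfl q9_5 c8_9_5_9) (EF.tv rfl q10_5 c8_10_5_9) (EF.tv rfl q11_5 c8_11_5_9) (EF.tv rfl q12_5 c8_12_5_9) (EF.far g13_5) (EF.far g14_5) (EF.far g15_5) (EF.far g16_5)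 (EF.far g17_5) (EF.far g18_5) (EF.far g19_5) (EF.far g20_5) (EF.far g21_5) (EF.far g22_5) (EF.far g23_5) (EF.far g24_5) (EF.far g25_5) (EF.far g26_5) (EF.far g27_5) (EF.far g28_5) (EF.far g29_5) (EF.far g30_5) (EF.far g31_5) (EF.far g32_5) (EF.far g33_5) (EF.far g34_5) (EF.far g35_5) (EF.far g36_5) (EF.far g37_5) (EF.far g38_5) (EF.far g39_5) (EF.far g40_5) (EF.far g41_5) (EF.far g42_5) (EF.far g43_5) (EF.far g44_5) (EF.far g45_5) (EF.far g46_5)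

theorem h4_5 : EvC tl 4 (shK Dec.one 4) d5 :=
  EvC.of2 (tab := tabX 4) (Ls := [e4_5_0, e4_5_1, e4_5_2, e4_5_3]) (tabX_ok 4)
    (by decide +kernel) (by decide +kernel) (by
    intro L hL
    simp only [List.mem_cons, List.not_mem_nil, or_false] at hL
    rcases hL with rfl | rfl | rfl | rfl
    · exact f4_5_0
    · exact f4_5_1
    · exact f4_5_2
    · exact f4_5_3)

theorem h6_5 : EvC tl 6 (shK Dec.one 6) d5 :=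
  EvC.of2 (tab := tabX 6) (Ls := [e6_5_4, e6_5_5, e6_5_6, e6_5_7]) (tabX_ok 6)
    (by decide +kernel) (by decide +kernel) (by
    intro L hL
    simp only [List.mem_cons, List.not_mem_nil, or_false] at hL
    rcases hL with rfl | rfl | rfl | rfl
    · exact f6_5_4
    · exact f6_5_5
    · exact f6_5_6
    · exact f6_5_7)

theorem h8_5 : EvC tl 0 (shA Dec.one 106) d5 :=
  EvC.of2 (tab := tabX 0) (Ls := [e8_5_8, e8_5_9]) (tabX_ok 0)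
    (by decide +kernel) (by decide +kernel) (by
    intro L hL
    simp only [List.mem_cons, List.not_mem_nil, or_false] at hL
    rcases hL with rfl | rfl
    · exact f8_5_8
    · exact f8_5_9)

theorem hh_5 : EvC8 tl Dec.one d5 := EvC8.a h8_5

end Pool.Agent.TSE
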