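import Pool.Agent.TSE.C6_0
import Pool.Agent.TSE.C6_2
import Pool.Agent.TSE.C6_4
import Pool.Agent.TSE.C6_6
import Pool.Agent.TSE.C6_8
import Pool.Agent.TSE.T
import Pool.Agent.TSE.BaseC
import Pool.Agent.TSG.TabX

set_option autoImplicit false

/-! # One interval of the total mass (MP_d27362_co) -/

namespace Pool.Agent.TSE

open Pool.Agent.TSC
open Pool.Agent.TSC.Dec
open Pool.Agent.TSG


theorem kf6 : ∀ tc ∈ tl, Pool.Agent.TSK.KF tc d6 :=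
  tl_forall (KF.tv rfl q0_6 c0_6) (KF.tv rfl q1_6 c1_6) (KF.tv rfl q2_6 c2_6) (KF.tv rfl q3_6 c3_6) (KF.tv rfl q4_6 c4_6) (KF.tv rfl q5_6 c5_6) (KF.tv rfl q6_6 c6_6) (KF.tv rfl q7_6 c7_6) (KF.tv rfl q8_6 c8_6) (KF.tv rfl q9_6 c9_6) (Pool.Agent.TSK.KF.far g10_6) (Pool.Agent.TSK.KF.far g11_6) (Pool.Agent.TSK.KF.far g12_6) (Pool.Agent.TSK.KF.far g13_6) (Pool.Agent.TSK.KF.far g14_6) (Pool.Agent.TSK.KF.far g15_6) (Pool.Agent.TSK.KF.far g16_6) (Pool.Agent.TSK.KF.far g17_6) (Pool.Agent.TSK.KF.far g18_6) (Pool.Agent.TSK.KF.far g19_6) (Pool.Agent.TSK.KF.far g20_6) (Pool.Agent.TSK.KF.far g21_6) (Pool.Agent.TSK.KF.far g22_6) (Pool.Agent.TSK.KF.far g23_6) (Pool.Agent.TSK.KF.far g24_6) (Pool.Agent.TSK.KF.far g25_6) (Pool.Agent.TSK.KF.far g26_6) (Pool.Agent.TSK.KF.far g27_6) (Pool.Agent.TSK.KF.far g28_6) (Pool.Agent.TSK.KF.far g29_6)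 (Pool.Agent.TSK.KF.far g30_6) (Pool.Agent.TSK.KF.far g31_6) (Pool.Agent.TSK.KF.far g32_6) (Pool.Agent.TSK.KF.far g33_6) (Pool.Agent.TSK.KF.far g34_6) (Pool.Agent.TSK.KF.far g35_6) (Pool.Agent.TSK.KF.far g36_6) (Pool.Agent.TSK.KF.far g37_6) (Pool.Agent.TSK.KF.far g38_6) (Pool.Agent.TSK.KF.far g39_6) (Pool.Agent.TSK.KF.far g40_6) (Pool.Agent.TSK.KF.far g41_6) (Pool.Agent.TSK.KF.far g42_6) (Pool.Agent.TSK.KF.far g43_6) (Pool.Agent.TSK.KF.far g44_6) (Pool.Agent.TSK.KF.far g45_6) (Pool.Agent.TSK.KF.far g46_6)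

theorem f4_6_0 : ∀ tc ∈ tl, EF tc d6 e4_6_0 :=
  tl_forall (EF.tv rfl q0_6 c4_0_6_0) (EF.tv rfl q1_6 c4_1_6_0) (EF.tv rfl q2_6 c4_2_6_0) (EF.tv rfl q3_6 c4_3_6_0) (EF.tv rfl q4_6 c4_4_6_0) (EF.tv rfl q5_6 c4_5_6_0) (EF.tv rfl q6_6 c4_6_6_0) (EF.tv rfl q7_6 c4_7_6_0) (EF.tv rfl q8_6 c4_8_6_0) (EF.tv rfl q9_6 c4_9_6_0) (EF.far g10_6) (EF.far g11_6) (EF.far g12_6) (EF.far g13_6) (EF.far g14_6) (EF.far g15_6) (EF.far g16_6) (EF.far g17_6) (EF.far g18_6) (EF.far g19_6) (EF.far g20_6) (EF.far g21_6) (EF.far g22_6) (EF.far g23_6) (EF.far g24_6) (EF.far g25_6) (EF.far g26_6) (EF.far g27_6) (EF.far g28_6) (EF.far g29_6) (EF.far g30_6) (EF.far g31_6) (EF.far g32_6) (EF.far g33_6) (EF.far g34_6) (EF.far g35_6) (EF.far g36_6) (EF.far g37_6) (EF.far g38_6) (EF.far g39_6) (EF.far g40_6) (EF.far g41_6) (EF.far g42_6) (EF.far g43_6)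 (EF.far g44_6) (EF.far g45_6) (EF.far g46_6)

theorem f4_6_1 : ∀ tc ∈ tl, EF tc d6 e4_6_1 :=
  tl_forall (EF.tv rfl q0_6 c4_0_6_1) (EF.tv rfl q1_6 c4_1_6_1) (EF.tv rfl q2_6 c4_2_6_1) (EF.tv rfl q3_6 c4_3_6_1) (EF.tv rfl q4_6 c4_4_6_1) (EF.tv rfl q5_6 c4_5_6_1) (EF.tv rfl q6_6 c4_6_6_1) (EF.tv rfl q7_6 c4_7_6_1) (EF.tv rfl q8_6 c4_8_6_1) (EF.tv rfl q9_6 c4_9_6_1) (EF.far g10_6) (EF.far g11_6) (EF.far g12_6) (EF.far g13_6) (EF.far g14_6) (EF.far g15_6) (EF.far g16_6) (EF.far g17_6) (EF.far g18_6) (EF.far g19_6) (EF.far g20_6) (EF.far g21_6) (EF.far g22_6) (EF.far g23_6) (EF.far g24_6) (EF.far g25_6) (EF.far g26_6) (EF.far g27_6) (EF.far g28_6) (EF.far g29_6) (EF.far g30_6) (EF.far g31_6) (EF.far g32_6) (EF.far g33_6) (EF.far g34_6) (EF.far g35_6) (EF.far g36_6) (EF.far g37_6) (EF.far g38_6) (EF.far g39_6) (EF.far g40_6)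 (EF.far g41_6) (EF.far g42_6) (EF.far g43_6) (EF.far g44_6) (EF.far g45_6) (EF.far g46_6)

theorem f4_6_2 : ∀ tc ∈ tl, EF tc d6 e4_6_2 :=
  tl_forall (EF.tv rfl q0_6 c4_0_6_2) (EF.tv rfl q1_6 c4_1_6_2) (EF.tv rfl q2_6 c4_2_6_2) (EF.tv rfl q3_6 c4_3_6_2) (EF.tv rfl q4_6 c4_4_6_2) (EF.tv rfl q5_6 c4_5_6_2) (EF.tv rfl q6_6 c4_6_6_2) (EF.tv rfl q7_6 c4_7_6_2) (EF.tv rfl q8_6 c4_8_6_2) (EF.tv rfl q9_6 c4_9_6_2) (EF.far g10_6) (EF.far g11_6) (EF.far g12_6) (EF.far g13_6) (EF.far g14_6) (EF.far g15_6) (EF.far g16_6) (EF.far g17_6) (EF.far g18_6) (EF.far g19_6) (EF.far g20_6) (EF.far g21_6) (EF.far g22_6) (EF.far g23_6) (EF.far g24_6) (EF.far g25_6) (EF.far g26_6) (EF.far g27_6) (EF.far g28_6) (EF.far g29_6) (EF.far g30_6) (EF.far g31_6) (EF.far g32_6) (EF.far g33_6) (EF.far g34_6) (EF.far g35_6) (EF.far g36_6) (EF.far g37_6)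 (EF.far g38_6) (EF.far g39_6) (EF.far g40_6) (EF.far g41_6) (EF.far g42_6) (EF.far g43_6) (EF.far g44_6) (EF.far g45_6) (EF.far g46_6)

theorem f4_6_3 : ∀ tc ∈ tl, EF tc d6 e4_6_3 :=
  tl_forall (EF.tv rfl q0_6 c4_0_6_3) (EF.tv rfl q1_6 c4_1_6_3) (EF.tv rfl q2_6 c4_2_6_3) (EF.tv rfl q3_6 c4_3_6_3) (EF.tv rfl q4_6 c4_4_6_3) (EF.tv rfl q5_6 c4_5_6_3) (EF.tv rfl q6_6 c4_6_6_3) (EF.tv rfl q7_6 c4_7_6_3) (EF.tv rfl q8_6 c4_8_6_3) (EF.tv rfl q9_6 c4_9_6_3) (EF.far g10_6) (EF.far g11_6) (EF.far g12_6) (EF.far g13_6) (EF.far g14_6) (EF.far g15_6) (EF.far g16_6) (EF.far g17_6) (EF.far g18_6) (EF.far g19_6) (EF.far g20_6) (EF.far g21_6) (EF.far g22_6) (EF.far g23_6) (EF.far g24_6) (EF.far g25_6) (EF.far g26_6) (EF.far g27_6) (EF.far g28_6) (EF.far g29_6) (EF.far g30_6) (EF.far g31_6) (EF.far g32_6) (EF.far g33_6) (EF.far g34_6)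 (EF.far g35_6) (EF.far g36_6) (EF.far g37_6) (EF.far g38_6) (EF.far g39_6) (EF.far g40_6) (EF.far g41_6) (EF.far g42_6) (EF.far g43_6) (EF.far g44_6) (EF.far g45_6) (EF.far g46_6)

theorem f6_6_4 : ∀ tc ∈ tl, EF tc d6 e6_6_4 :=
  tl_forall (EF.tv rfl q0_6 c6_0_6_4) (EF.tv rfl q1_6 c6_1_6_4) (EF.tv rfl q2_6 c6_2_6_4) (EF.tv rfl q3_6 c6_3_6_4) (EF.tv rfl q4_6 c6_4_6_4) (EF.tv rfl q5_6 c6_5_6_4) (EF.tv rfl q6_6 c6_6_6_4) (EF.tv rfl q7_6 c6_7_6_4) (EF.tv rfl q8_6 c6_8_6_4) (EF.tv rfl q9_6 c6_9_6_4) (EF.far g10_6) (EF.far g11_6) (EF.far g12_6) (EF.far g13_6) (EF.far g14_6) (EF.far g15_6) (EF.far g16_6) (EF.far g17_6) (EF.far g18_6) (EF.far g19_6) (EF.far g20_6) (EF.far g21_6) (EF.far g22_6) (EF.far g23_6) (EF.far g24_6) (EF.far g25_6) (EF.far g26_6) (EF.far g27_6) (EF.far g28_6) (EF.far g29_6) (EF.far g30_6) (EF.far g31_6)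 (EF.far g32_6) (EF.far g33_6) (EF.far g34_6) (EF.far g35_6) (EF.far g36_6) (EF.far g37_6) (EF.far g38_6) (EF.far g39_6) (EF.far g40_6) (EF.far g41_6) (EF.far g42_6) (EF.far g43_6) (EF.far g44_6) (EF.far g45_6) (EF.far g46_6)

theorem f6_6_5 : ∀ tc ∈ tl, EF tc d6 e6_6_5 :=
  tl_forall (EF.tv rfl q0_6 c6_0_6_5) (EF.tv rfl q1_6 c6_1_6_5) (EF.tv rfl q2_6 c6_2_6_5) (EF.tv rfl q3_6 c6_3_6_5) (EF.tv rfl q4_6 c6_4_6_5) (EF.tv rfl q5_6 c6_5_6_5) (EF.tv rfl q6_6 c6_6_6_5) (EF.tv rfl q7_6 c6_7_6_5) (EF.tv rfl q8_6 c6_8_6_5) (EF.tv rfl q9_6 c6_9_6_5) (EF.far g10_6) (EF.far g11_6) (EF.far g12_6) (EF.far g13_6) (EF.far g14_6) (EF.far g15_6) (EF.far g16_6) (EF.far g17_6) (EF.far g18_6) (EF.far g19_6) (EF.far g20_6) (EF.far g21_6) (EF.far g22_6) (EF.far g23_6) (EF.far g24_6) (EF.far g25_6) (EF.far g26_6) (EF.far g27_6) (EF.far g28_6)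 (EF.far g29_6) (EF.far g30_6) (EF.far g31_6) (EF.far g32_6) (EF.far g33_6) (EF.far g34_6) (EF.far g35_6) (EF.far g36_6) (EF.far g37_6) (EF.far g38_6) (EF.far g39_6) (EF.far g40_6) (EF.far g41_6) (EF.far g42_6) (EF.far g43_6) (EF.far g44_6) (EF.far g45_6) (EF.far g46_6)

theorem f6_6_6 : ∀ tc ∈ tl, EF tc d6 e6_6_6 :=
  tl_forall (EF.tv rfl q0_6 c6_0_6_6) (EF.tv rfl q1_6 c6_1_6_6) (EF.tv rfl q2_6 c6_2_6_6) (EF.tv rfl q3_6 c6_3_6_6) (EF.tv rfl q4_6 c6_4_6_6) (EF.tv rfl q5_6 c6_5_6_6) (EF.tv rfl q6_6 c6_6_6_6) (EF.tv rfl q7_6 c6_7_6_6) (EF.tv rfl q8_6 c6_8_6_6) (EF.tv rfl q9_6 c6_9_6_6) (EF.far g10_6) (EF.far g11_6) (EF.far g12_6) (EF.far g13_6) (EF.far g14_6) (EF.far g15_6) (EF.far g16_6) (EF.far g17_6) (EF.far g18_6) (EF.far g19_6) (EF.far g20_6) (EF.far g21_6) (EF.far g22_6) (EF.far g23_6) (EF.far g24_6) (EF.far g25_6)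 (EF.far g26_6) (EF.far g27_6) (EF.far g28_6) (EF.far g29_6) (EF.far g30_6) (EF.far g31_6) (EF.far g32_6) (EF.far g33_6) (EF.far g34_6) (EF.far g35_6) (EF.far g36_6) (EF.far g37_6) (EF.far g38_6) (EF.far g39_6) (EF.far g40_6) (EF.far g41_6) (EF.far g42_6) (EF.far g43_6) (EF.far g44_6) (EF.far g45_6) (EF.far g46_6)

theorem f6_6_7 : ∀ tc ∈ tl, EF tc d6 e6_6_7 :=
  tl_forall (EF.tv rfl q0_6 c6_0_6_7) (EF.tv rfl q1_6 c6_1_6_7) (EF.tv rfl q2_6 c6_2_6_7) (EF.tv rfl q3_6 c6_3_6_7) (EF.tv rfl q4_6 c6_4_6_7) (EF.tv rfl q5_6 c6_5_6_7) (EF.tv rfl q6_6 c6_6_6_7) (EF.tv rfl q7_6 c6_7_6_7) (EF.tv rfl q8_6 c6_8_6_7) (EF.tv rfl q9_6 c6_9_6_7) (EF.far g10_6) (EF.far g11_6) (EF.far g12_6) (EF.far g13_6) (EF.far g14_6) (EF.far g15_6) (EF.far g16_6) (EF.far g17_6) (EF.far g18_6) (EF.far g19_6) (EF.far g20_6) (EF.far g21_6) (EF.far g22_6)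 (EF.far g23_6) (EF.far g24_6) (EF.far g25_6) (EF.far g26_6) (EF.far g27_6) (EF.far g28_6) (EF.far g29_6) (EF.far g30_6) (EF.far g31_6) (EF.far g32_6) (EF.far g33_6) (EF.far g34_6) (EF.far g35_6) (EF.far g36_6) (EF.far g37_6) (EF.far g38_6) (EF.far g39_6) (EF.far g40_6) (EF.far g41_6) (EF.far g42_6) (EF.far g43_6) (EF.far g44_6) (EF.far g45_6) (EF.far g46_6)

theorem f8_6_8 : ∀ tc ∈ tl, EF tc d6 e8_6_8 :=
  tl_forall (EF.tv rfl q0_6 c8_0_6_8) (EF.tv rfl q1_6 c8_1_6_8) (EF.tv rfl q2_6 c8_2_6_8) (EF.tv rfl q3_6 c8_3_6_8) (EF.tv rfl q4_6 c8_4_6_8) (EF.tv rfl q5_6 c8_5_6_8) (EF.tv rfl q6_6 c8_6_6_8) (EF.tv rfl q7_6 c8_7_6_8) (EF.tv rfl q8_6 c8_8_6_8) (EF.tv rfl q9_6 c8_9_6_8) (EF.far g10_6) (EF.far g11_6) (EF.far g12_6) (EF.far g13_6) (EF.far g14_6) (EF.far g15_6) (EF.far g16_6) (EF.far g17_6) (EF.far g18_6) (EF.far g19_6)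 (EF.far g20_6) (EF.far g21_6) (EF.far g22_6) (EF.far g23_6) (EF.far g24_6) (EF.far g25_6) (EF.far g26_6) (EF.far g27_6) (EF.far g28_6) (EF.far g29_6) (EF.far g30_6) (EF.far g31_6) (EF.far g32_6) (EF.far g33_6) (EF.far g34_6) (EF.far g35_6) (EF.far g36_6) (EF.far g37_6) (EF.far g38_6) (EF.far g39_6) (EF.far g40_6) (EF.far g41_6) (EF.far g42_6) (EF.far g43_6) (EF.far g44_6) (EF.far g45_6) (EF.far g46_6)

theorem f8_6_9 : ∀ tc ∈ tl, EF tc d6 e8_6_9 :=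
  tl_forall (EF.tv rfl q0_6 c8_0_6_9) (EF.tv rfl q1_6 c8_1_6_9) (EF.tv rfl q2_6 c8_2_6_9) (EF.tv rfl q3_6 c8_3_6_9) (EF.tv rfl q4_6 c8_4_6_9) (EF.tv rfl q5_6 c8_5_6_9) (EF.tv rfl q6_6 c8_6_6_9) (EF.tv rfl q7_6 c8_7_6_9) (EF.tv rfl q8_6 c8_8_6_9) (EF.tv rfl q9_6 c8_9_6_9) (EF.far g10_6) (EF.far g11_6) (EF.far g12_6) (EF.far g13_6) (EF.far g14_6) (EF.far g15_6) (EF.far g16_6) (EF.far g17_6) (EF.far g18_6) (EF.far g19_6) (EF.far g20_6) (EF.far g21_6) (EF.far g22_6) (EF.far g23_6) (EF.far g24_6) (EF.far g25_6) (EF.far g26_6) (EF.far g27_6) (EF.far g28_6) (EF.far g29_6) (EF.far g30_6) (EF.far g31_6) (EF.far g32_6) (EF.far g33_6) (EF.far g34_6) (EF.far g35_6) (EF.far g36_6) (EF.far g37_6) (EF.far g38_6) (EF.far g39_6) (EF.far g40_6) (EF.far g41_6) (EF.far g42_6) (EF.far g43_6) (EF.far g44_6) (EF.far g45_6) (EF.far g46_6)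

theorem h4_6 : EvC tl 4 (shK Dec.one 4) d6 :=
  EvC.of2 (tab := tabX 4) (Ls := [e4_6_0, e4_6_1, e4_6_2, e4_6_3]) (tabX_ok 4)
    (by decide +kernel) (by decide +kernel) (by
    intro L hL
    simp only [List.mem_cons, List.not_mem_nil, or_false] at hL
    rcases hL with rfl | rfl | rfl | rfl
    · exact f4_6_0
    · exact f4_6_1
    · exact f4_6_2
    · exact f4_6_3)

theorem h6_6 : EvC tl 6 (shK Dec.one 6) d6 :=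
  EvC.of2 (tab := tabX 6) (Ls := [e6_6_4, e6_6_5, e6_6_6, e6_6_7]) (tabX_ok 6)
    (by decide +kernel) (by decide +kernel) (by
    intro L hL
    simp only [List.mem_cons, List.not_mem_nil, or_false] at hL
    rcases hL with rfl | rfl | rfl | rfl
    · exact f6_6_4
    · exact f6_6_5
    · exact f6_6_6
    · exact f6_6_7)

theorem h8_6 : EvC tl 0 (shA Dec.one 106) d6 :=
  EvC.of2 (tab := tabX 0) (Ls := [e8_6_8, e8_6_9]) (tabX_ok 0)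
    (by decide +kernel) (by decide +kernel) (by
    intro L hL
    simp only [List.mem_cons, List.not_mem_nil, or_false] at hL
    rcases hL with rfl | rfl
    · exact f8_6_8
    · exact f8_6_9)

theorem hh_6 : EvC8 tl Dec.one d6 := EvC8.a h8_6

end Pool.Agent.TSE
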