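import Pool.Agent.TSE.C8_0
import Pool.Agent.TSE.C8_2
import Pool.Agent.TSE.C8_4
import Pool.Agent.TSE.C8_6
import Pool.Agent.TSE.C8_8
import Pool.Agent.TSE.C8_10
import Pool.Agent.TSE.C8_12
import Pool.Agent.TSE.C8_14
import Pool.Agent.TSE.C8_16
import Pool.Agent.TSE.C8_18
import Pool.Agent.TSE.C8_20
import Pool.Agent.TSE.C8_22
import Pool.Agent.TSE.C8_24
import Pool.Agent.TSE.C8_26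
import Pool.Agent.TSE.C8_28
import Pool.Agent.TSE.C8_30
import Pool.Agent.TSE.C8_32
import Pool.Agent.TSE.C8_34
import Pool.Agent.TSE.C8_36
import Pool.Agent.TSE.C8_38
import Pool.Agent.TSE.C8_40
import Pool.Agent.TSE.C8_42
import Pool.Agent.TSE.C8_44
import Pool.Agent.TSE.C8_46
import Pool.Agent.TSE.T
import Pool.Agent.TSE.BaseC
import Pool.Agent.TSG.TabX

set_option autoImplicit false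

/-! # One interval of the total mass (MP_d27362_co) -/

namespace Pool.Agent.TSE

open Pool.Agent.TSC
open Pool.Agent.TSC.Dec
open Pool.Agent.TSG


theorem kf8 : ∀ tc ∈ tl, Pool.Agent.TSK.KF tc d8 :=
  tl_forall (KF.tv rfl q0_8 c0_8) (KF.tv rfl q1_8 c1_8) (KF.tv rfl q2_8 c2_8) (KF.tv rfl q3_8 c3_8) (KF.tv rfl q4_8 c4_8) (KF.tv rfl q5_8 c5_8) (KF.tv rfl q6_8 c6_8) (KF.tv rfl q7_8 c7_8) (KF.tv rfl q8_8 c8_8) (KF.tv rfl q9_8 c9_8) (KF.tv rfl q10_8 c10_8) (KF.tv rfl q11_8 c11_8) (KF.tv rfl q12_8 c12_8) (KF.tv rfl q13_8 c13_8) (KF.tv rfl q14_8 c14_8) (KF.tv rfl q15_8 c15_8) (KF.tv rfl q16_8 c16_8) (KF.tv rfl q17_8 c17_8) (KF.tv rfl q18_8 c18_8) (KF.tv rfl q19_8 c19_8) (KF.tv rfl q20_8 c20_8) (KF.tv rfl q21_8 c21_8) (KF.tv rfl q22_8 c22_8) (KF.tv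 rfl q23_8 c23_8) (KF.tv rfl q24_8 c24_8) (KF.tv rfl q25_8 c25_8) (KF.tv rfl q26_8 c26_8) (KF.tv rfl q27_8 c27_8) (KF.tv rfl q28_8 c28_8) (KF.tv rfl q29_8 c29_8) (KF.tv rfl q30_8 c30_8) (KF.tv rfl q31_8 c31_8) (KF.tv rfl q32_8 c32_8) (KF.tv rfl q33_8 c33_8) (KF.tv rfl q34_8 c34_8) (KF.tv rfl q35_8 c35_8) (KF.tv rfl q36_8 c36_8) (KF.tv rfl q37_8 c37_8) (KF.tv rfl q38_8 c38_8) (KF.tv rfl q39_8 c39_8) (KF.tv rfl q40_8 c40_8) (KF.tv rfl q41_8 c41_8) (KF.tv rfl q42_8 c42_8) (KF.tv rfl q43_8 c43_8) (KF.tv rfl q44_8 c44_8) (KF.tv rfl q45_8 c45_8) (KF.tv rfl q46_8 c46_8)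

theorem f4_8_0 : ∀ tc ∈ tl, EF tc d8 e4_8_0 :=
  tl_forall (EF.tv rfl q0_8 c4_0_8_0) (EF.tv rfl q1_8 c4_1_8_0) (EF.tv rfl q2_8 c4_2_8_0) (EF.tv rfl q3_8 c4_3_8_0) (EF.tv rfl q4_8 c4_4_8_0) (EF.tv rfl q5_8 c4_5_8_0) (EF.tv rfl q6_8 c4_6_8_0) (EF.tv rfl q7_8 c4_7_8_0) (EF.tv rfl q8_8 c4_8_8_0) (EF.tv rfl q9_8 c4_9_8_0) (EF.tv rfl q10_8 c4_10_8_0) (EF.tv rfl q11_8 c4_11_8_0) (EF.tv rfl q12_8 c4_12_8_0) (EF.tv rfl q13_8 c4_13_8_0) (EF.tv rfl q14_8 c4_14_8_0) (EF.tv rfl q15_8 c4_15_8_0) (EF.tv rfl q16_8 c4_16_8_0) (EF.tv rfl q17_8 c4_17_8_0) (EF.tv rfl q18_8 c4_18_8_0) (EF.tv rfl q19_8 c4_19_8_0) (EF.tv rfl q20_8 c4_20_8_0) (EF.tv rfl q21_8 c4_21_8_0) (EF.tv rfl q22_8 c4_22_8_0) (EF.tv rfl q23_8 c4_23_8_0) (EF.tv rfl q24_8 c4_24_8_0) (EF.tv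 rfl q25_8 c4_25_8_0) (EF.tv rfl q26_8 c4_26_8_0) (EF.tv rfl q27_8 c4_27_8_0) (EF.tv rfl q28_8 c4_28_8_0) (EF.tv rfl q29_8 c4_29_8_0) (EF.tv rfl q30_8 c4_30_8_0) (EF.tv rfl q31_8 c4_31_8_0) (EF.tv rfl q32_8 c4_32_8_0) (EF.tv rfl q33_8 c4_33_8_0) (EF.tv rfl q34_8 c4_34_8_0) (EF.tv rfl q35_8 c4_35_8_0) (EF.tv rfl q36_8 c4_36_8_0) (EF.tv rfl q37_8 c4_37_8_0) (EF.tv rfl q38_8 c4_38_8_0) (EF.tv rfl q39_8 c4_39_8_0) (EF.tv rfl q40_8 c4_40_8_0) (EF.tv rfl q41_8 c4_41_8_0) (EF.tv rfl q42_8 c4_42_8_0) (EF.tv rfl q43_8 c4_43_8_0) (EF.tv rfl q44_8 c4_44_8_0) (EF.tv rfl q45_8 c4_45_8_0) (EF.tv rfl q46_8 c4_46_8_0)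

theorem f4_8_1 : ∀ tc ∈ tl, EF tc d8 e4_8_1 :=
  tl_forall (EF.tv rfl q0_8 c4_0_8_1) (EF.tv rfl q1_8 c4_1_8_1) (EF.tv rfl q2_8 c4_2_8_1) (EF.tv rfl q3_8 c4_3_8_1) (EF.tv rfl q4_8 c4_4_8_1) (EF.tv rfl q5_8 c4_5_8_1) (EF.tv rfl q6_8 c4_6_8_1) (EF.tv rfl q7_8 c4_7_8_1) (EF.tv rfl q8_8 c4_8_8_1) (EF.tv rfl q9_8 c4_9_8_1) (EF.tv rfl q10_8 c4_10_8_1) (EF.tv rfl q11_8 c4_11_8_1) (EF.tv rfl q12_8 c4_12_8_1) (EF.tv rfl q13_8 c4_13_8_1) (EF.tv rfl q14_8 c4_14_8_1) (EF.tv rfl q15_8 c4_15_8_1) (EF.tv rfl q16_8 c4_16_8_1) (EF.tv rfl q17_8 c4_17_8_1) (EF.tv rfl q18_8 c4_18_8_1) (EF.tv rfl q19_8 c4_19_8_1) (EF.tv rfl q20_8 c4_20_8_1) (EF.tv rfl q21_8 c4_21_8_1) (EF.tv rfl q22_8 c4_22_8_1) (EF.tv rfl q23_8 c4_23_8_1) (EF.tv rfl q24_8 c4_24_8_1) (EF.tv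 rfl q25_8 c4_25_8_1) (EF.tv rfl q26_8 c4_26_8_1) (EF.tv rfl q27_8 c4_27_8_1) (EF.tv rfl q28_8 c4_28_8_1) (EF.tv rfl q29_8 c4_29_8_1) (EF.tv rfl q30_8 c4_30_8_1) (EF.tv rfl q31_8 c4_31_8_1) (EF.tv rfl q32_8 c4_32_8_1) (EF.tv rfl q33_8 c4_33_8_1) (EF.tv rfl q34_8 c4_34_8_1) (EF.tv rfl q35_8 c4_35_8_1) (EF.tv rfl q36_8 c4_36_8_1) (EF.tv rfl q37_8 c4_37_8_1) (EF.tv rfl q38_8 c4_38_8_1) (EF.tv rfl q39_8 c4_39_8_1) (EF.tv rfl q40_8 c4_40_8_1) (EF.tv rfl q41_8 c4_41_8_1) (EF.tv rfl q42_8 c4_42_8_1) (EF.tv rfl q43_8 c4_43_8_1) (EF.tv rfl q44_8 c4_44_8_1) (EF.tv rfl q45_8 c4_45_8_1) (EF.tv rfl q46_8 c4_46_8_1)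

theorem f4_8_2 : ∀ tc ∈ tl, EF tc d8 e4_8_2 :=
  tl_forall (EF.tv rfl q0_8 c4_0_8_2) (EF.tv rfl q1_8 c4_1_8_2) (EF.tv rfl q2_8 c4_2_8_2) (EF.tv rfl q3_8 c4_3_8_2) (EF.tv rfl q4_8 c4_4_8_2) (EF.tv rfl q5_8 c4_5_8_2) (EF.tv rfl q6_8 c4_6_8_2) (EF.tv rfl q7_8 c4_7_8_2) (EF.tv rfl q8_8 c4_8_8_2) (EF.tv rfl q9_8 c4_9_8_2) (EF.tv rfl q10_8 c4_10_8_2) (EF.tv rfl q11_8 c4_11_8_2) (EF.tv rfl q12_8 c4_12_8_2) (EF.tv rfl q13_8 c4_13_8_2) (EF.tv rfl q14_8 c4_14_8_2) (EF.tv rfl q15_8 c4_15_8_2) (EF.tv rfl q16_8 c4_16_8_2) (EF.tv rfl q17_8 c4_17_8_2) (EF.tv rfl q18_8 c4_18_8_2) (EF.tv rfl q19_8 c4_19_8_2) (EF.tv rfl q20_8 c4_20_8_2) (EF.tv rfl q21_8 c4_21_8_2) (EF.tv rfl q22_8 c4_22_8_2) (EF.tv rfl q23_8 c4_23_8_2) (EF.tv rfl q24_8 c4_24_8_2) (EF.tv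 rfl q25_8 c4_25_8_2) (EF.tv rfl q26_8 c4_26_8_2) (EF.tv rfl q27_8 c4_27_8_2) (EF.tv rfl q28_8 c4_28_8_2) (EF.tv rfl q29_8 c4_29_8_2) (EF.tv rfl q30_8 c4_30_8_2) (EF.tv rfl q31_8 c4_31_8_2) (EF.tv rfl q32_8 c4_32_8_2) (EF.tv rfl q33_8 c4_33_8_2) (EF.tv rfl q34_8 c4_34_8_2) (EF.tv rfl q35_8 c4_35_8_2) (EF.tv rfl q36_8 c4_36_8_2) (EF.tv rfl q37_8 c4_37_8_2) (EF.tv rfl q38_8 c4_38_8_2) (EF.tv rfl q39_8 c4_39_8_2) (EF.tv rfl q40_8 c4_40_8_2) (EF.tv rfl q41_8 c4_41_8_2) (EF.tv rfl q42_8 c4_42_8_2) (EF.tv rfl q43_8 c4_43_8_2) (EF.tv rfl q44_8 c4_44_8_2) (EF.tv rfl q45_8 c4_45_8_2) (EF.tv rfl q46_8 c4_46_8_2)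

theorem f4_8_3 : ∀ tc ∈ tl, EF tc d8 e4_8_3 :=
  tl_forall (EF.tv rfl q0_8 c4_0_8_3) (EF.tv rfl q1_8 c4_1_8_3) (EF.tv rfl q2_8 c4_2_8_3) (EF.tv rfl q3_8 c4_3_8_3) (EF.tv rfl q4_8 c4_4_8_3) (EF.tv rfl q5_8 c4_5_8_3) (EF.tv rfl q6_8 c4_6_8_3) (EF.tv rfl q7_8 c4_7_8_3) (EF.tv rfl q8_8 c4_8_8_3) (EF.tv rfl q9_8 c4_9_8_3) (EF.tv rfl q10_8 c4_10_8_3) (EF.tv rfl q11_8 c4_11_8_3) (EF.tv rfl q12_8 c4_12_8_3) (EF.tv rfl q13_8 c4_13_8_3) (EF.tv rfl q14_8 c4_14_8_3) (EF.tv rfl q15_8 c4_15_8_3) (EF.tv rfl q16_8 c4_16_8_3) (EF.tv rfl q17_8 c4_17_8_3) (EF.tv rfl q18_8 c4_18_8_3) (EF.tv rfl q19_8 c4_19_8_3) (EF.tv rfl q20_8 c4_20_8_3) (EF.tv rfl q21_8 c4_21_8_3) (EF.tv rfl q22_8 c4_22_8_3) (EF.tv rfl q23_8 c4_23_8_3) (EF.tv rfl q24_8 c4_24_8_3) (EF.tv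 rfl q25_8 c4_25_8_3) (EF.tv rfl q26_8 c4_26_8_3) (EF.tv rfl q27_8 c4_27_8_3) (EF.tv rfl q28_8 c4_28_8_3) (EF.tv rfl q29_8 c4_29_8_3) (EF.tv rfl q30_8 c4_30_8_3) (EF.tv rfl q31_8 c4_31_8_3) (EF.tv rfl q32_8 c4_32_8_3) (EF.tv rfl q33_8 c4_33_8_3) (EF.tv rfl q34_8 c4_34_8_3) (EF.tv rfl q35_8 c4_35_8_3) (EF.tv rfl q36_8 c4_36_8_3) (EF.tv rfl q37_8 c4_37_8_3) (EF.tv rfl q38_8 c4_38_8_3) (EF.tv rfl q39_8 c4_39_8_3) (EF.tv rfl q40_8 c4_40_8_3) (EF.tv rfl q41_8 c4_41_8_3) (EF.tv rfl q42_8 c4_42_8_3) (EF.tv rfl q43_8 c4_43_8_3) (EF.tv rfl q44_8 c4_44_8_3) (EF.tv rfl q45_8 c4_45_8_3) (EF.tv rfl q46_8 c4_46_8_3)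

theorem f6_8_4 : ∀ tc ∈ tl, EF tc d8 e6_8_4 :=
  tl_forall (EF.tv rfl q0_8 c6_0_8_4) (EF.tv rfl q1_8 c6_1_8_4) (EF.tv rfl q2_8 c6_2_8_4) (EF.tv rfl q3_8 c6_3_8_4) (EF.tv rfl q4_8 c6_4_8_4) (EF.tv rfl q5_8 c6_5_8_4) (EF.tv rfl q6_8 c6_6_8_4) (EF.tv rfl q7_8 c6_7_8_4) (EF.tv rfl q8_8 c6_8_8_4) (EF.tv rfl q9_8 c6_9_8_4) (EF.tv rfl q10_8 c6_10_8_4) (EF.tv rfl q11_8 c6_11_8_4) (EF.tv rfl q12_8 c6_12_8_4) (EF.tv rfl q13_8 c6_13_8_4) (EF.tv rfl q14_8 c6_14_8_4) (EF.tv rfl q15_8 c6_15_8_4) (EF.tv rfl q16_8 c6_16_8_4) (EF.tv rfl q17_8 c6_17_8_4) (EF.tv rfl q18_8 c6_18_8_4) (EF.tv rfl q19_8 c6_19_8_4) (EF.tv rfl q20_8 c6_20_8_4) (EF.tv rfl q21_8 c6_21_8_4) (EF.tv rfl q22_8 c6_22_8_4) (EF.tv rfl q23_8 c6_23_8_4) (EF.tv rfl q24_8 c6_24_8_4) (EF.tv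 rfl q25_8 c6_25_8_4) (EF.tv rfl q26_8 c6_26_8_4) (EF.tv rfl q27_8 c6_27_8_4) (EF.tv rfl q28_8 c6_28_8_4) (EF.tv rfl q29_8 c6_29_8_4) (EF.tv rfl q30_8 c6_30_8_4) (EF.tv rfl q31_8 c6_31_8_4) (EF.tv rfl q32_8 c6_32_8_4) (EF.tv rfl q33_8 c6_33_8_4) (EF.tv rfl q34_8 c6_34_8_4) (EF.tv rfl q35_8 c6_35_8_4) (EF.tv rfl q36_8 c6_36_8_4) (EF.tv rfl q37_8 c6_37_8_4) (EF.tv rfl q38_8 c6_38_8_4) (EF.tv rfl q39_8 c6_39_8_4) (EF.tv rfl q40_8 c6_40_8_4) (EF.tv rfl q41_8 c6_41_8_4) (EF.tv rfl q42_8 c6_42_8_4) (EF.tv rfl q43_8 c6_43_8_4) (EF.tv rfl q44_8 c6_44_8_4) (EF.tv rfl q45_8 c6_45_8_4) (EF.tv rfl q46_8 c6_46_8_4)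

theorem f6_8_5 : ∀ tc ∈ tl, EF tc d8 e6_8_5 :=
  tl_forall (EF.tv rfl q0_8 c6_0_8_5) (EF.tv rfl q1_8 c6_1_8_5) (EF.tv rfl q2_8 c6_2_8_5) (EF.tv rfl q3_8 c6_3_8_5) (EF.tv rfl q4_8 c6_4_8_5) (EF.tv rfl q5_8 c6_5_8_5) (EF.tv rfl q6_8 c6_6_8_5) (EF.tv rfl q7_8 c6_7_8_5) (EF.tv rfl q8_8 c6_8_8_5) (EF.tv rfl q9_8 c6_9_8_5) (EF.tv rfl q10_8 c6_10_8_5) (EF.tv rfl q11_8 c6_11_8_5) (EF.tv rfl q12_8 c6_12_8_5) (EF.tv rfl q13_8 c6_13_8_5) (EF.tv rfl q14_8 c6_14_8_5) (EF.tv rfl q15_8 c6_15_8_5) (EF.tv rfl q16_8 c6_16_8_5) (EF.tv rfl q17_8 c6_17_8_5) (EF.tv rfl q18_8 c6_18_8_5) (EF.tv rfl q19_8 c6_19_8_5) (EF.tv rfl q20_8 c6_20_8_5) (EF.tv rfl q21_8 c6_21_8_5) (EF.tv rfl q22_8 c6_22_8_5) (EF.tv rfl q23_8 c6_23_8_5) (EF.tv rfl q24_8 c6_24_8_5) (EF.tv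 rfl q25_8 c6_25_8_5) (EF.tv rfl q26_8 c6_26_8_5) (EF.tv rfl q27_8 c6_27_8_5) (EF.tv rfl q28_8 c6_28_8_5) (EF.tv rfl q29_8 c6_29_8_5) (EF.tv rfl q30_8 c6_30_8_5) (EF.tv rfl q31_8 c6_31_8_5) (EF.tv rfl q32_8 c6_32_8_5) (EF.tv rfl q33_8 c6_33_8_5) (EF.tv rfl q34_8 c6_34_8_5) (EF.tv rfl q35_8 c6_35_8_5) (EF.tv rfl q36_8 c6_36_8_5) (EF.tv rfl q37_8 c6_37_8_5) (EF.tv rfl q38_8 c6_38_8_5) (EF.tv rfl q39_8 c6_39_8_5) (EF.tv rfl q40_8 c6_40_8_5) (EF.tv rfl q41_8 c6_41_8_5) (EF.tv rfl q42_8 c6_42_8_5) (EF.tv rfl q43_8 c6_43_8_5) (EF.tv rfl q44_8 c6_44_8_5) (EF.tv rfl q45_8 c6_45_8_5) (EF.tv rfl q46_8 c6_46_8_5)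

theorem f6_8_6 : ∀ tc ∈ tl, EF tc d8 e6_8_6 :=
  tl_forall (EF.tv rfl q0_8 c6_0_8_6) (EF.tv rfl q1_8 c6_1_8_6) (EF.tv rfl q2_8 c6_2_8_6) (EF.tv rfl q3_8 c6_3_8_6) (EF.tv rfl q4_8 c6_4_8_6) (EF.tv rfl q5_8 c6_5_8_6) (EF.tv rfl q6_8 c6_6_8_6) (EF.tv rfl q7_8 c6_7_8_6) (EF.tv rfl q8_8 c6_8_8_6) (EF.tv rfl q9_8 c6_9_8_6) (EF.tv rfl q10_8 c6_10_8_6) (EF.tv rfl q11_8 c6_11_8_6) (EF.tv rfl q12_8 c6_12_8_6) (EF.tv rfl q13_8 c6_13_8_6) (EF.tv rfl q14_8 c6_14_8_6) (EF.tv rfl q15_8 c6_15_8_6) (EF.tv rfl q16_8 c6_16_8_6) (EF.tv rfl q17_8 c6_17_8_6) (EF.tv rfl q18_8 c6_18_8_6) (EF.tv rfl q19_8 c6_19_8_6) (EF.tv rfl q20_8 c6_20_8_6) (EF.tv rfl q21_8 c6_21_8_6) (EF.tv rfl q22_8 c6_22_8_6) (EF.tv rfl q23_8 c6_23_8_6) (EF.tv rfl q24_8 c6_24_8_6) (EF.tv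 rfl q25_8 c6_25_8_6) (EF.tv rfl q26_8 c6_26_8_6) (EF.tv rfl q27_8 c6_27_8_6) (EF.tv rfl q28_8 c6_28_8_6) (EF.tv rfl q29_8 c6_29_8_6) (EF.tv rfl q30_8 c6_30_8_6) (EF.tv rfl q31_8 c6_31_8_6) (EF.tv rfl q32_8 c6_32_8_6) (EF.tv rfl q33_8 c6_33_8_6) (EF.tv rfl q34_8 c6_34_8_6) (EF.tv rfl q35_8 c6_35_8_6) (EF.tv rfl q36_8 c6_36_8_6) (EF.tv rfl q37_8 c6_37_8_6) (EF.tv rfl q38_8 c6_38_8_6) (EF.tv rfl q39_8 c6_39_8_6) (EF.tv rfl q40_8 c6_40_8_6) (EF.tv rfl q41_8 c6_41_8_6) (EF.tv rfl q42_8 c6_42_8_6) (EF.tv rfl q43_8 c6_43_8_6) (EF.tv rfl q44_8 c6_44_8_6) (EF.tv rfl q45_8 c6_45_8_6) (EF.tv rfl q46_8 c6_46_8_6)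

theorem f6_8_7 : ∀ tc ∈ tl, EF tc d8 e6_8_7 :=
  tl_forall (EF.tv rfl q0_8 c6_0_8_7) (EF.tv rfl q1_8 c6_1_8_7) (EF.tv rfl q2_8 c6_2_8_7) (EF.tv rfl q3_8 c6_3_8_7) (EF.tv rfl q4_8 c6_4_8_7) (EF.tv rfl q5_8 c6_5_8_7) (EF.tv rfl q6_8 c6_6_8_7) (EF.tv rfl q7_8 c6_7_8_7) (EF.tv rfl q8_8 c6_8_8_7) (EF.tv rfl q9_8 c6_9_8_7) (EF.tv rfl q10_8 c6_10_8_7) (EF.tv rfl q11_8 c6_11_8_7) (EF.tv rfl q12_8 c6_12_8_7) (EF.tv rfl q13_8 c6_13_8_7) (EF.tv rfl q14_8 c6_14_8_7) (EF.tv rfl q15_8 c6_15_8_7) (EF.tv rfl q16_8 c6_16_8_7) (EF.tv rfl q17_8 c6_17_8_7) (EF.tv rfl q18_8 c6_18_8_7) (EF.tv rfl q19_8 c6_19_8_7) (EF.tv rfl q20_8 c6_20_8_7) (EF.tv rfl q21_8 c6_21_8_7) (EF.tv rfl q22_8 c6_22_8_7) (EF.tv rfl q23_8 c6_23_8_7) (EF.tv rfl q24_8 c6_24_8_7) (EF.tv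 rfl q25_8 c6_25_8_7) (EF.tv rfl q26_8 c6_26_8_7) (EF.tv rfl q27_8 c6_27_8_7) (EF.tv rfl q28_8 c6_28_8_7) (EF.tv rfl q29_8 c6_29_8_7) (EF.tv rfl q30_8 c6_30_8_7) (EF.tv rfl q31_8 c6_31_8_7) (EF.tv rfl q32_8 c6_32_8_7) (EF.tv rfl q33_8 c6_33_8_7) (EF.tv rfl q34_8 c6_34_8_7) (EF.tv rfl q35_8 c6_35_8_7) (EF.tv rfl q36_8 c6_36_8_7) (EF.tv rfl q37_8 c6_37_8_7) (EF.tv rfl q38_8 c6_38_8_7) (EF.tv rfl q39_8 c6_39_8_7) (EF.tv rfl q40_8 c6_40_8_7) (EF.tv rfl q41_8 c6_41_8_7) (EF.tv rfl q42_8 c6_42_8_7) (EF.tv rfl q43_8 c6_43_8_7) (EF.tv rfl q44_8 c6_44_8_7) (EF.tv rfl q45_8 c6_45_8_7) (EF.tv rfl q46_8 c6_46_8_7)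

theorem f8_8_8 : ∀ tc ∈ tl, EF tc d8 e8_8_8 :=
  tl_forall (EF.tv rfl q0_8 c8_0_8_8) (EF.tv rfl q1_8 c8_1_8_8) (EF.tv rfl q2_8 c8_2_8_8) (EF.tv rfl q3_8 c8_3_8_8) (EF.tv rfl q4_8 c8_4_8_8) (EF.tv rfl q5_8 c8_5_8_8) (EF.tv rfl q6_8 c8_6_8_8) (EF.tv rfl q7_8 c8_7_8_8) (EF.tv rfl q8_8 c8_8_8_8) (EF.tv rfl q9_8 c8_9_8_8) (EF.tv rfl q10_8 c8_10_8_8) (EF.tv rfl q11_8 c8_11_8_8) (EF.tv rfl q12_8 c8_12_8_8) (EF.tv rfl q13_8 c8_13_8_8) (EF.tv rfl q14_8 c8_14_8_8) (EF.tv rfl q15_8 c8_15_8_8) (EF.tv rfl q16_8 c8_16_8_8) (EF.tv rfl q17_8 c8_17_8_8) (EF.tv rfl q18_8 c8_18_8_8) (EF.tv rfl q19_8 c8_19_8_8) (EF.tv rfl q20_8 c8_20_8_8) (EF.tv rfl q21_8 c8_21_8_8) (EF.tv rfl q22_8 c8_22_8_8) (EF.tv rfl q23_8 c8_23_8_8) (EF.tv rfl q24_8 c8_24_8_8) (EF.tv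 rfl q25_8 c8_25_8_8) (EF.tv rfl q26_8 c8_26_8_8) (EF.tv rfl q27_8 c8_27_8_8) (EF.tv rfl q28_8 c8_28_8_8) (EF.tv rfl q29_8 c8_29_8_8) (EF.tv rfl q30_8 c8_30_8_8) (EF.tv rfl q31_8 c8_31_8_8) (EF.tv rfl q32_8 c8_32_8_8) (EF.tv rfl q33_8 c8_33_8_8) (EF.tv rfl q34_8 c8_34_8_8) (EF.tv rfl q35_8 c8_35_8_8) (EF.tv rfl q36_8 c8_36_8_8) (EF.tv rfl q37_8 c8_37_8_8) (EF.tv rfl q38_8 c8_38_8_8) (EF.tv rfl q39_8 c8_39_8_8) (EF.tv rfl q40_8 c8_40_8_8) (EF.tv rfl q41_8 c8_41_8_8) (EF.tv rfl q42_8 c8_42_8_8) (EF.tv rfl q43_8 c8_43_8_8) (EF.tv rfl q44_8 c8_44_8_8) (EF.tv rfl q45_8 c8_45_8_8) (EF.tv rfl q46_8 c8_46_8_8)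

theorem f8_8_9 : ∀ tc ∈ tl, EF tc d8 e8_8_9 :=
  tl_forall (EF.tv rfl q0_8 c8_0_8_9) (EF.tv rfl q1_8 c8_1_8_9) (EF.tv rfl q2_8 c8_2_8_9) (EF.tv rfl q3_8 c8_3_8_9) (EF.tv rfl q4_8 c8_4_8_9) (EF.tv rfl q5_8 c8_5_8_9) (EF.tv rfl q6_8 c8_6_8_9) (EF.tv rfl q7_8 c8_7_8_9) (EF.tv rfl q8_8 c8_8_8_9) (EF.tv rfl q9_8 c8_9_8_9) (EF.tv rfl q10_8 c8_10_8_9) (EF.tv rfl q11_8 c8_11_8_9) (EF.tv rfl q12_8 c8_12_8_9) (EF.tv rfl q13_8 c8_13_8_9) (EF.tv rfl q14_8 c8_14_8_9) (EF.tv rfl q15_8 c8_15_8_9) (EF.tv rfl q16_8 c8_16_8_9) (EF.tv rfl q17_8 c8_17_8_9) (EF.tv rfl q18_8 c8_18_8_9) (EF.tv rfl q19_8 c8_19_8_9) (EF.tv rfl q20_8 c8_20_8_9) (EF.tv rfl q21_8 c8_21_8_9) (EF.tv rfl q22_8 c8_22_8_9) (EF.tv rfl q23_8 c8_23_8_9) (EF.tv rfl q24_8 c8_24_8_9) (EF.tv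 rfl q25_8 c8_25_8_9) (EF.tv rfl q26_8 c8_26_8_9) (EF.tv rfl q27_8 c8_27_8_9) (EF.tv rfl q28_8 c8_28_8_9) (EF.tv rfl q29_8 c8_29_8_9) (EF.tv rfl q30_8 c8_30_8_9) (EF.tv rfl q31_8 c8_31_8_9) (EF.tv rfl q32_8 c8_32_8_9) (EF.tv rfl q33_8 c8_33_8_9) (EF.tv rfl q34_8 c8_34_8_9) (EF.tv rfl q35_8 c8_35_8_9) (EF.tv rfl q36_8 c8_36_8_9) (EF.tv rfl q37_8 c8_37_8_9) (EF.tv rfl q38_8 c8_38_8_9) (EF.tv rfl q39_8 c8_39_8_9) (EF.tv rfl q40_8 c8_40_8_9) (EF.tv rfl q41_8 c8_41_8_9) (EF.tv rfl q42_8 c8_42_8_9) (EF.tv rfl q43_8 c8_43_8_9) (EF.tv rfl q44_8 c8_44_8_9) (EF.tv rfl q45_8 c8_45_8_9) (EF.tv rfl q46_8 c8_46_8_9)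

theorem h4_8 : EvC tl 4 (shK Dec.one 4) d8 :=
  EvC.of2 (tab := tabX 4) (Ls := [e4_8_0, e4_8_1, e4_8_2, e4_8_3]) (tabX_ok 4)
    (by decide +kernel) (by decide +kernel) (by
    intro L hL
    simp only [List.mem_cons, List.not_mem_nil, or_false] at hL
    rcases hL with rfl | rfl | rfl | rfl
    · exact f4_8_0
    · exact f4_8_1
    · exact f4_8_2
    · exact f4_8_3)

theorem h6_8 : EvC tl 6 (shK Dec.one 6) d8 :=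
  EvC.of2 (tab := tabX 6) (Ls := [e6_8_4, e6_8_5, e6_8_6, e6_8_7]) (tabX_ok 6)
    (by decide +kernel) (by decide +kernel) (by
    intro L hL
    simp only [List.mem_cons, List.not_mem_nil, or_false] at hL
    rcases hL with rfl | rfl | rfl | rfl
    · exact f6_8_4
    · exact f6_8_5
    · exact f6_8_6
    · exact f6_8_7)

theorem h8_8 : EvC tl 0 (shA Dec.one 106) d8 :=
  EvC.of2 (tab := tabX 0) (Ls := [e8_8_8, e8_8_9]) (tabX_ok 0)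
    (by decide +kernel) (by decide +kernel) (by
    intro L hL
    simp only [List.mem_cons, List.not_mem_nil, or_false] at hL
    rcases hL with rfl | rfl
    · exact f8_8_8
    · exact f8_8_9)

theorem hh_8 : EvC8 tl Dec.one d8 := EvC8.a h8_8

end Pool.Agent.TSE
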