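import Pool.Agent.TSE.C9_0
import Pool.Agent.TSE.C9_2
import Pool.Agent.TSE.C9_4
import Pool.Agent.TSE.C9_6
import Pool.Agent.TSE.C9_8
import Pool.Agent.TSE.C9_10
import Pool.Agent.TSE.C9_12
import Pool.Agent.TSE.C9_14
import Pool.Agent.TSE.C9_16
import Pool.Agent.TSE.C9_18
import Pool.Agent.TSE.C9_20
import Pool.Agent.TSE.C9_22
import Pool.Agent.TSE.C9_24
import Pool.Agent.TSE.C9_26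
import Pool.Agent.TSE.C9_28
import Pool.Agent.TSE.C9_30
import Pool.Agent.TSE.C9_32
import Pool.Agent.TSE.C9_34
import Pool.Agent.TSE.C9_36
import Pool.Agent.TSE.C9_38
import Pool.Agent.TSE.C9_40
import Pool.Agent.TSE.C9_42
import Pool.Agent.TSE.C9_44
import Pool.Agent.TSE.C9_46
import Pool.Agent.TSE.T
import Pool.Agent.TSE.BaseC
import Pool.Agent.TSG.TabX

set_option autoImplicit false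

/-! # One interval of the total mass (MP_d27362_co) -/

namespace Pool.Agent.TSE

open Pool.Agent.TSC
open Pool.Agent.TSC.Dec
open Pool.Agent.TSG


theorem kf9 : ∀ tc ∈ tl, Pool.Agent.TSK.KF tc d9 :=
  tl_forall (KF.tv rfl q0_9 c0_9) (KF.tv rfl q1_9 c1_9) (KF.tv rfl q2_9 c2_9) (KF.tv rfl q3_9 c3_9) (KF.tv rfl q4_9 c4_9) (KF.tv rfl q5_9 c5_9) (KF.tv rfl q6_9 c6_9) (KF.tv rfl q7_9 c7_9) (KF.tv rfl q8_9 c8_9) (KF.tv rfl q9_9 c9_9) (KF.tv rfl q10_9 c10_9) (KF.tv rfl q11_9 c11_9) (KF.tv rfl q12_9 c12_9) (KF.tv rfl q13_9 c13_9) (KF.tv rfl q14_9 c14_9) (KF.tv rfl q15_9 c15_9) (KF.tv rfl q16_9 c16_9) (KF.tv rfl q17_9 c17_9) (KF.tv rfl q18_9 c18_9) (KF.tv rfl q19_9 c19_9) (KF.tv rfl q20_9 c20_9) (KF.tv rfl q21_9 c21_9) (KF.tv rfl q22_9 c22_9) (KF.tv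 rfl q23_9 c23_9) (KF.tv rfl q24_9 c24_9) (KF.tv rfl q25_9 c25_9) (KF.tv rfl q26_9 c26_9) (KF.tv rfl q27_9 c27_9) (KF.tv rfl q28_9 c28_9) (KF.tv rfl q29_9 c29_9) (KF.tv rfl q30_9 c30_9) (KF.tv rfl q31_9 c31_9) (KF.tv rfl q32_9 c32_9) (KF.tv rfl q33_9 c33_9) (KF.tv rfl q34_9 c34_9) (KF.tv rfl q35_9 c35_9) (KF.tv rfl q36_9 c36_9) (KF.tv rfl q37_9 c37_9) (KF.tv rfl q38_9 c38_9) (KF.tv rfl q39_9 c39_9) (KF.tv rfl q40_9 c40_9) (KF.tv rfl q41_9 c41_9) (KF.tv rfl q42_9 c42_9) (KF.tv rfl q43_9 c43_9) (KF.tv rfl q44_9 c44_9) (KF.tv rfl q45_9 c45_9) (KF.tv rfl q46_9 c46_9)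

theorem f4_9_0 : ∀ tc ∈ tl, EF tc d9 e4_9_0 :=
  tl_forall (EF.tv rfl q0_9 c4_0_9_0) (EF.tv rfl q1_9 c4_1_9_0) (EF.tv rfl q2_9 c4_2_9_0) (EF.tv rfl q3_9 c4_3_9_0) (EF.tv rfl q4_9 c4_4_9_0) (EF.tv rfl q5_9 c4_5_9_0) (EF.tv rfl q6_9 c4_6_9_0) (EF.tv rfl q7_9 c4_7_9_0) (EF.tv rfl q8_9 c4_8_9_0) (EF.tv rfl q9_9 c4_9_9_0) (EF.tv rfl q10_9 c4_10_9_0) (EF.tv rfl q11_9 c4_11_9_0) (EF.tv rfl q12_9 c4_12_9_0) (EF.tv rfl q13_9 c4_13_9_0) (EF.tv rfl q14_9 c4_14_9_0) (EF.tv rfl q15_9 c4_15_9_0) (EF.tv rfl q16_9 c4_16_9_0) (EF.tv rfl q17_9 c4_17_9_0) (EF.tv rfl q18_9 c4_18_9_0) (EF.tv rfl q19_9 c4_19_9_0) (EF.tv rfl q20_9 c4_20_9_0) (EF.tv rfl q21_9 c4_21_9_0) (EF.tv rfl q22_9 c4_22_9_0) (EF.tv rfl q23_9 c4_23_9_0) (EF.tv rfl q24_9 c4_24_9_0) (EF.tv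 rfl q25_9 c4_25_9_0) (EF.tv rfl q26_9 c4_26_9_0) (EF.tv rfl q27_9 c4_27_9_0) (EF.tv rfl q28_9 c4_28_9_0) (EF.tv rfl q29_9 c4_29_9_0) (EF.tv rfl q30_9 c4_30_9_0) (EF.tv rfl q31_9 c4_31_9_0) (EF.tv rfl q32_9 c4_32_9_0) (EF.tv rfl q33_9 c4_33_9_0) (EF.tv rfl q34_9 c4_34_9_0) (EF.tv rfl q35_9 c4_35_9_0) (EF.tv rfl q36_9 c4_36_9_0) (EF.tv rfl q37_9 c4_37_9_0) (EF.tv rfl q38_9 c4_38_9_0) (EF.tv rfl q39_9 c4_39_9_0) (EF.tv rfl q40_9 c4_40_9_0) (EF.tv rfl q41_9 c4_41_9_0) (EF.tv rfl q42_9 c4_42_9_0) (EF.tv rfl q43_9 c4_43_9_0) (EF.tv rfl q44_9 c4_44_9_0) (EF.tv rfl q45_9 c4_45_9_0) (EF.tv rfl q46_9 c4_46_9_0)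

theorem f4_9_1 : ∀ tc ∈ tl, EF tc d9 e4_9_1 :=
  tl_forall (EF.tv rfl q0_9 c4_0_9_1) (EF.tv rfl q1_9 c4_1_9_1) (EF.tv rfl q2_9 c4_2_9_1) (EF.tv rfl q3_9 c4_3_9_1) (EF.tv rfl q4_9 c4_4_9_1) (EF.tv rfl q5_9 c4_5_9_1) (EF.tv rfl q6_9 c4_6_9_1) (EF.tv rfl q7_9 c4_7_9_1) (EF.tv rfl q8_9 c4_8_9_1) (EF.tv rfl q9_9 c4_9_9_1) (EF.tv rfl q10_9 c4_10_9_1) (EF.tv rfl q11_9 c4_11_9_1) (EF.tv rfl q12_9 c4_12_9_1) (EF.tv rfl q13_9 c4_13_9_1) (EF.tv rfl q14_9 c4_14_9_1) (EF.tv rfl q15_9 c4_15_9_1) (EF.tv rfl q16_9 c4_16_9_1) (EF.tv rfl q17_9 c4_17_9_1) (EF.tv rfl q18_9 c4_18_9_1) (EF.tv rfl q19_9 c4_19_9_1) (EF.tv rfl q20_9 c4_20_9_1) (EF.tv rfl q21_9 c4_21_9_1) (EF.tv rfl q22_9 c4_22_9_1) (EF.tv rfl q23_9 c4_23_9_1) (EF.tv rfl q24_9 c4_24_9_1) (EF.tv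 rfl q25_9 c4_25_9_1) (EF.tv rfl q26_9 c4_26_9_1) (EF.tv rfl q27_9 c4_27_9_1) (EF.tv rfl q28_9 c4_28_9_1) (EF.tv rfl q29_9 c4_29_9_1) (EF.tv rfl q30_9 c4_30_9_1) (EF.tv rfl q31_9 c4_31_9_1) (EF.tv rfl q32_9 c4_32_9_1) (EF.tv rfl q33_9 c4_33_9_1) (EF.tv rfl q34_9 c4_34_9_1) (EF.tv rfl q35_9 c4_35_9_1) (EF.tv rfl q36_9 c4_36_9_1) (EF.tv rfl q37_9 c4_37_9_1) (EF.tv rfl q38_9 c4_38_9_1) (EF.tv rfl q39_9 c4_39_9_1) (EF.tv rfl q40_9 c4_40_9_1) (EF.tv rfl q41_9 c4_41_9_1) (EF.tv rfl q42_9 c4_42_9_1) (EF.tv rfl q43_9 c4_43_9_1) (EF.tv rfl q44_9 c4_44_9_1) (EF.tv rfl q45_9 c4_45_9_1) (EF.tv rfl q46_9 c4_46_9_1)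

theorem f4_9_2 : ∀ tc ∈ tl, EF tc d9 e4_9_2 :=
  tl_forall (EF.tv rfl q0_9 c4_0_9_2) (EF.tv rfl q1_9 c4_1_9_2) (EF.tv rfl q2_9 c4_2_9_2) (EF.tv rfl q3_9 c4_3_9_2) (EF.tv rfl q4_9 c4_4_9_2) (EF.tv rfl q5_9 c4_5_9_2) (EF.tv rfl q6_9 c4_6_9_2) (EF.tv rfl q7_9 c4_7_9_2) (EF.tv rfl q8_9 c4_8_9_2) (EF.tv rfl q9_9 c4_9_9_2) (EF.tv rfl q10_9 c4_10_9_2) (EF.tv rfl q11_9 c4_11_9_2) (EF.tv rfl q12_9 c4_12_9_2) (EF.tv rfl q13_9 c4_13_9_2) (EF.tv rfl q14_9 c4_14_9_2) (EF.tv rfl q15_9 c4_15_9_2) (EF.tv rfl q16_9 c4_16_9_2) (EF.tv rfl q17_9 c4_17_9_2) (EF.tv rfl q18_9 c4_18_9_2) (EF.tv rfl q19_9 c4_19_9_2) (EF.tv rfl q20_9 c4_20_9_2) (EF.tv rfl q21_9 c4_21_9_2) (EF.tv rfl q22_9 c4_22_9_2) (EF.tv rfl q23_9 c4_23_9_2) (EF.tv rfl q24_9 c4_24_9_2) (EF.tv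 rfl q25_9 c4_25_9_2) (EF.tv rfl q26_9 c4_26_9_2) (EF.tv rfl q27_9 c4_27_9_2) (EF.tv rfl q28_9 c4_28_9_2) (EF.tv rfl q29_9 c4_29_9_2) (EF.tv rfl q30_9 c4_30_9_2) (EF.tv rfl q31_9 c4_31_9_2) (EF.tv rfl q32_9 c4_32_9_2) (EF.tv rfl q33_9 c4_33_9_2) (EF.tv rfl q34_9 c4_34_9_2) (EF.tv rfl q35_9 c4_35_9_2) (EF.tv rfl q36_9 c4_36_9_2) (EF.tv rfl q37_9 c4_37_9_2) (EF.tv rfl q38_9 c4_38_9_2) (EF.tv rfl q39_9 c4_39_9_2) (EF.tv rfl q40_9 c4_40_9_2) (EF.tv rfl q41_9 c4_41_9_2) (EF.tv rfl q42_9 c4_42_9_2) (EF.tv rfl q43_9 c4_43_9_2) (EF.tv rfl q44_9 c4_44_9_2) (EF.tv rfl q45_9 c4_45_9_2) (EF.tv rfl q46_9 c4_46_9_2)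

theorem f4_9_3 : ∀ tc ∈ tl, EF tc d9 e4_9_3 :=
  tl_forall (EF.tv rfl q0_9 c4_0_9_3) (EF.tv rfl q1_9 c4_1_9_3) (EF.tv rfl q2_9 c4_2_9_3) (EF.tv rfl q3_9 c4_3_9_3) (EF.tv rfl q4_9 c4_4_9_3) (EF.tv rfl q5_9 c4_5_9_3) (EF.tv rfl q6_9 c4_6_9_3) (EF.tv rfl q7_9 c4_7_9_3) (EF.tv rfl q8_9 c4_8_9_3) (EF.tv rfl q9_9 c4_9_9_3) (EF.tv rfl q10_9 c4_10_9_3) (EF.tv rfl q11_9 c4_11_9_3) (EF.tv rfl q12_9 c4_12_9_3) (EF.tv rfl q13_9 c4_13_9_3) (EF.tv rfl q14_9 c4_14_9_3) (EF.tv rfl q15_9 c4_15_9_3) (EF.tv rfl q16_9 c4_16_9_3) (EF.tv rfl q17_9 c4_17_9_3) (EF.tv rfl q18_9 c4_18_9_3) (EF.tv rfl q19_9 c4_19_9_3) (EF.tv rfl q20_9 c4_20_9_3) (EF.tv rfl q21_9 c4_21_9_3) (EF.tv rfl q22_9 c4_22_9_3) (EF.tv rfl q23_9 c4_23_9_3) (EF.tv rfl q24_9 c4_24_9_3) (EF.tv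 rfl q25_9 c4_25_9_3) (EF.tv rfl q26_9 c4_26_9_3) (EF.tv rfl q27_9 c4_27_9_3) (EF.tv rfl q28_9 c4_28_9_3) (EF.tv rfl q29_9 c4_29_9_3) (EF.tv rfl q30_9 c4_30_9_3) (EF.tv rfl q31_9 c4_31_9_3) (EF.tv rfl q32_9 c4_32_9_3) (EF.tv rfl q33_9 c4_33_9_3) (EF.tv rfl q34_9 c4_34_9_3) (EF.tv rfl q35_9 c4_35_9_3) (EF.tv rfl q36_9 c4_36_9_3) (EF.tv rfl q37_9 c4_37_9_3) (EF.tv rfl q38_9 c4_38_9_3) (EF.tv rfl q39_9 c4_39_9_3) (EF.tv rfl q40_9 c4_40_9_3) (EF.tv rfl q41_9 c4_41_9_3) (EF.tv rfl q42_9 c4_42_9_3) (EF.tv rfl q43_9 c4_43_9_3) (EF.tv rfl q44_9 c4_44_9_3) (EF.tv rfl q45_9 c4_45_9_3) (EF.tv rfl q46_9 c4_46_9_3)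

theorem f6_9_4 : ∀ tc ∈ tl, EF tc d9 e6_9_4 :=
  tl_forall (EF.tv rfl q0_9 c6_0_9_4) (EF.tv rfl q1_9 c6_1_9_4) (EF.tv rfl q2_9 c6_2_9_4) (EF.tv rfl q3_9 c6_3_9_4) (EF.tv rfl q4_9 c6_4_9_4) (EF.tv rfl q5_9 c6_5_9_4) (EF.tv rfl q6_9 c6_6_9_4) (EF.tv rfl q7_9 c6_7_9_4) (EF.tv rfl q8_9 c6_8_9_4) (EF.tv rfl q9_9 c6_9_9_4) (EF.tv rfl q10_9 c6_10_9_4) (EF.tv rfl q11_9 c6_11_9_4) (EF.tv rfl q12_9 c6_12_9_4) (EF.tv rfl q13_9 c6_13_9_4) (EF.tv rfl q14_9 c6_14_9_4) (EF.tv rfl q15_9 c6_15_9_4) (EF.tv rfl q16_9 c6_16_9_4) (EF.tv rfl q17_9 c6_17_9_4) (EF.tv rfl q18_9 c6_18_9_4) (EF.tv rfl q19_9 c6_19_9_4) (EF.tv rfl q20_9 c6_20_9_4) (EF.tv rfl q21_9 c6_21_9_4) (EF.tv rfl q22_9 c6_22_9_4) (EF.tv rfl q23_9 c6_23_9_4) (EF.tv rfl q24_9 c6_24_9_4) (EF.tv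 rfl q25_9 c6_25_9_4) (EF.tv rfl q26_9 c6_26_9_4) (EF.tv rfl q27_9 c6_27_9_4) (EF.tv rfl q28_9 c6_28_9_4) (EF.tv rfl q29_9 c6_29_9_4) (EF.tv rfl q30_9 c6_30_9_4) (EF.tv rfl q31_9 c6_31_9_4) (EF.tv rfl q32_9 c6_32_9_4) (EF.tv rfl q33_9 c6_33_9_4) (EF.tv rfl q34_9 c6_34_9_4) (EF.tv rfl q35_9 c6_35_9_4) (EF.tv rfl q36_9 c6_36_9_4) (EF.tv rfl q37_9 c6_37_9_4) (EF.tv rfl q38_9 c6_38_9_4) (EF.tv rfl q39_9 c6_39_9_4) (EF.tv rfl q40_9 c6_40_9_4) (EF.tv rfl q41_9 c6_41_9_4) (EF.tv rfl q42_9 c6_42_9_4) (EF.tv rfl q43_9 c6_43_9_4) (EF.tv rfl q44_9 c6_44_9_4) (EF.tv rfl q45_9 c6_45_9_4) (EF.tv rfl q46_9 c6_46_9_4)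

theorem f6_9_5 : ∀ tc ∈ tl, EF tc d9 e6_9_5 :=
  tl_forall (EF.tv rfl q0_9 c6_0_9_5) (EF.tv rfl q1_9 c6_1_9_5) (EF.tv rfl q2_9 c6_2_9_5) (EF.tv rfl q3_9 c6_3_9_5) (EF.tv rfl q4_9 c6_4_9_5) (EF.tv rfl q5_9 c6_5_9_5) (EF.tv rfl q6_9 c6_6_9_5) (EF.tv rfl q7_9 c6_7_9_5) (EF.tv rfl q8_9 c6_8_9_5) (EF.tv rfl q9_9 c6_9_9_5) (EF.tv rfl q10_9 c6_10_9_5) (EF.tv rfl q11_9 c6_11_9_5) (EF.tv rfl q12_9 c6_12_9_5) (EF.tv rfl q13_9 c6_13_9_5) (EF.tv rfl q14_9 c6_14_9_5) (EF.tv rfl q15_9 c6_15_9_5) (EF.tv rfl q16_9 c6_16_9_5) (EF.tv rfl q17_9 c6_17_9_5) (EF.tv rfl q18_9 c6_18_9_5) (EF.tv rfl q19_9 c6_19_9_5) (EF.tv rfl q20_9 c6_20_9_5) (EF.tv rfl q21_9 c6_21_9_5) (EF.tv rfl q22_9 c6_22_9_5) (EF.tv rfl q23_9 c6_23_9_5) (EF.tv rfl q24_9 c6_24_9_5) (EF.tv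 rfl q25_9 c6_25_9_5) (EF.tv rfl q26_9 c6_26_9_5) (EF.tv rfl q27_9 c6_27_9_5) (EF.tv rfl q28_9 c6_28_9_5) (EF.tv rfl q29_9 c6_29_9_5) (EF.tv rfl q30_9 c6_30_9_5) (EF.tv rfl q31_9 c6_31_9_5) (EF.tv rfl q32_9 c6_32_9_5) (EF.tv rfl q33_9 c6_33_9_5) (EF.tv rfl q34_9 c6_34_9_5) (EF.tv rfl q35_9 c6_35_9_5) (EF.tv rfl q36_9 c6_36_9_5) (EF.tv rfl q37_9 c6_37_9_5) (EF.tv rfl q38_9 c6_38_9_5) (EF.tv rfl q39_9 c6_39_9_5) (EF.tv rfl q40_9 c6_40_9_5) (EF.tv rfl q41_9 c6_41_9_5) (EF.tv rfl q42_9 c6_42_9_5) (EF.tv rfl q43_9 c6_43_9_5) (EF.tv rfl q44_9 c6_44_9_5) (EF.tv rfl q45_9 c6_45_9_5) (EF.tv rfl q46_9 c6_46_9_5)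

theorem f6_9_6 : ∀ tc ∈ tl, EF tc d9 e6_9_6 :=
  tl_forall (EF.tv rfl q0_9 c6_0_9_6) (EF.tv rfl q1_9 c6_1_9_6) (EF.tv rfl q2_9 c6_2_9_6) (EF.tv rfl q3_9 c6_3_9_6) (EF.tv rfl q4_9 c6_4_9_6) (EF.tv rfl q5_9 c6_5_9_6) (EF.tv rfl q6_9 c6_6_9_6) (EF.tv rfl q7_9 c6_7_9_6) (EF.tv rfl q8_9 c6_8_9_6) (EF.tv rfl q9_9 c6_9_9_6) (EF.tv rfl q10_9 c6_10_9_6) (EF.tv rfl q11_9 c6_11_9_6) (EF.tv rfl q12_9 c6_12_9_6) (EF.tv rfl q13_9 c6_13_9_6) (EF.tv rfl q14_9 c6_14_9_6) (EF.tv rfl q15_9 c6_15_9_6) (EF.tv rfl q16_9 c6_16_9_6) (EF.tv rfl q17_9 c6_17_9_6) (EF.tv rfl q18_9 c6_18_9_6) (EF.tv rfl q19_9 c6_19_9_6) (EF.tv rfl q20_9 c6_20_9_6) (EF.tv rfl q21_9 c6_21_9_6) (EF.tv rfl q22_9 c6_22_9_6) (EF.tv rfl q23_9 c6_23_9_6) (EF.tv rfl q24_9 c6_24_9_6) (EF.tv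 rfl q25_9 c6_25_9_6) (EF.tv rfl q26_9 c6_26_9_6) (EF.tv rfl q27_9 c6_27_9_6) (EF.tv rfl q28_9 c6_28_9_6) (EF.tv rfl q29_9 c6_29_9_6) (EF.tv rfl q30_9 c6_30_9_6) (EF.tv rfl q31_9 c6_31_9_6) (EF.tv rfl q32_9 c6_32_9_6) (EF.tv rfl q33_9 c6_33_9_6) (EF.tv rfl q34_9 c6_34_9_6) (EF.tv rfl q35_9 c6_35_9_6) (EF.tv rfl q36_9 c6_36_9_6) (EF.tv rfl q37_9 c6_37_9_6) (EF.tv rfl q38_9 c6_38_9_6) (EF.tv rfl q39_9 c6_39_9_6) (EF.tv rfl q40_9 c6_40_9_6) (EF.tv rfl q41_9 c6_41_9_6) (EF.tv rfl q42_9 c6_42_9_6) (EF.tv rfl q43_9 c6_43_9_6) (EF.tv rfl q44_9 c6_44_9_6) (EF.tv rfl q45_9 c6_45_9_6) (EF.tv rfl q46_9 c6_46_9_6)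

theorem f6_9_7 : ∀ tc ∈ tl, EF tc d9 e6_9_7 :=
  tl_forall (EF.tv rfl q0_9 c6_0_9_7) (EF.tv rfl q1_9 c6_1_9_7) (EF.tv rfl q2_9 c6_2_9_7) (EF.tv rfl q3_9 c6_3_9_7) (EF.tv rfl q4_9 c6_4_9_7) (EF.tv rfl q5_9 c6_5_9_7) (EF.tv rfl q6_9 c6_6_9_7) (EF.tv rfl q7_9 c6_7_9_7) (EF.tv rfl q8_9 c6_8_9_7) (EF.tv rfl q9_9 c6_9_9_7) (EF.tv rfl q10_9 c6_10_9_7) (EF.tv rfl q11_9 c6_11_9_7) (EF.tv rfl q12_9 c6_12_9_7) (EF.tv rfl q13_9 c6_13_9_7) (EF.tv rfl q14_9 c6_14_9_7) (EF.tv rfl q15_9 c6_15_9_7) (EF.tv rfl q16_9 c6_16_9_7) (EF.tv rfl q17_9 c6_17_9_7) (EF.tv rfl q18_9 c6_18_9_7) (EF.tv rfl q19_9 c6_19_9_7) (EF.tv rfl q20_9 c6_20_9_7) (EF.tv rfl q21_9 c6_21_9_7) (EF.tv rfl q22_9 c6_22_9_7) (EF.tv rfl q23_9 c6_23_9_7) (EF.tv rfl q24_9 c6_24_9_7) (EF.tv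 rfl q25_9 c6_25_9_7) (EF.tv rfl q26_9 c6_26_9_7) (EF.tv rfl q27_9 c6_27_9_7) (EF.tv rfl q28_9 c6_28_9_7) (EF.tv rfl q29_9 c6_29_9_7) (EF.tv rfl q30_9 c6_30_9_7) (EF.tv rfl q31_9 c6_31_9_7) (EF.tv rfl q32_9 c6_32_9_7) (EF.tv rfl q33_9 c6_33_9_7) (EF.tv rfl q34_9 c6_34_9_7) (EF.tv rfl q35_9 c6_35_9_7) (EF.tv rfl q36_9 c6_36_9_7) (EF.tv rfl q37_9 c6_37_9_7) (EF.tv rfl q38_9 c6_38_9_7) (EF.tv rfl q39_9 c6_39_9_7) (EF.tv rfl q40_9 c6_40_9_7) (EF.tv rfl q41_9 c6_41_9_7) (EF.tv rfl q42_9 c6_42_9_7) (EF.tv rfl q43_9 c6_43_9_7) (EF.tv rfl q44_9 c6_44_9_7) (EF.tv rfl q45_9 c6_45_9_7) (EF.tv rfl q46_9 c6_46_9_7)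

theorem f8_9_8 : ∀ tc ∈ tl, EF tc d9 e8_9_8 :=
  tl_forall (EF.tv rfl q0_9 c8_0_9_8) (EF.tv rfl q1_9 c8_1_9_8) (EF.tv rfl q2_9 c8_2_9_8) (EF.tv rfl q3_9 c8_3_9_8) (EF.tv rfl q4_9 c8_4_9_8) (EF.tv rfl q5_9 c8_5_9_8) (EF.tv rfl q6_9 c8_6_9_8) (EF.tv rfl q7_9 c8_7_9_8) (EF.tv rfl q8_9 c8_8_9_8) (EF.tv rfl q9_9 c8_9_9_8) (EF.tv rfl q10_9 c8_10_9_8) (EF.tv rfl q11_9 c8_11_9_8) (EF.tv rfl q12_9 c8_12_9_8) (EF.tv rfl q13_9 c8_13_9_8) (EF.tv rfl q14_9 c8_14_9_8) (EF.tv rfl q15_9 c8_15_9_8) (EF.tv rfl q16_9 c8_16_9_8) (EF.tv rfl q17_9 c8_17_9_8) (EF.tv rfl q18_9 c8_18_9_8) (EF.tv rfl q19_9 c8_19_9_8) (EF.tv rfl q20_9 c8_20_9_8) (EF.tv rfl q21_9 c8_21_9_8) (EF.tv rfl q22_9 c8_22_9_8) (EF.tv rfl q23_9 c8_23_9_8) (EF.tv rfl q24_9 c8_24_9_8) (EF.tv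 rfl q25_9 c8_25_9_8) (EF.tv rfl q26_9 c8_26_9_8) (EF.tv rfl q27_9 c8_27_9_8) (EF.tv rfl q28_9 c8_28_9_8) (EF.tv rfl q29_9 c8_29_9_8) (EF.tv rfl q30_9 c8_30_9_8) (EF.tv rfl q31_9 c8_31_9_8) (EF.tv rfl q32_9 c8_32_9_8) (EF.tv rfl q33_9 c8_33_9_8) (EF.tv rfl q34_9 c8_34_9_8) (EF.tv rfl q35_9 c8_35_9_8) (EF.tv rfl q36_9 c8_36_9_8) (EF.tv rfl q37_9 c8_37_9_8) (EF.tv rfl q38_9 c8_38_9_8) (EF.tv rfl q39_9 c8_39_9_8) (EF.tv rfl q40_9 c8_40_9_8) (EF.tv rfl q41_9 c8_41_9_8) (EF.tv rfl q42_9 c8_42_9_8) (EF.tv rfl q43_9 c8_43_9_8) (EF.tv rfl q44_9 c8_44_9_8) (EF.tv rfl q45_9 c8_45_9_8) (EF.tv rfl q46_9 c8_46_9_8)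

theorem f8_9_9 : ∀ tc ∈ tl, EF tc d9 e8_9_9 :=
  tl_forall (EF.tv rfl q0_9 c8_0_9_9) (EF.tv rfl q1_9 c8_1_9_9) (EF.tv rfl q2_9 c8_2_9_9) (EF.tv rfl q3_9 c8_3_9_9) (EF.tv rfl q4_9 c8_4_9_9) (EF.tv rfl q5_9 c8_5_9_9) (EF.tv rfl q6_9 c8_6_9_9) (EF.tv rfl q7_9 c8_7_9_9) (EF.tv rfl q8_9 c8_8_9_9) (EF.tv rfl q9_9 c8_9_9_9) (EF.tv rfl q10_9 c8_10_9_9) (EF.tv rfl q11_9 c8_11_9_9) (EF.tv rfl q12_9 c8_12_9_9) (EF.tv rfl q13_9 c8_13_9_9) (EF.tv rfl q14_9 c8_14_9_9) (EF.tv rfl q15_9 c8_15_9_9) (EF.tv rfl q16_9 c8_16_9_9) (EF.tv rfl q17_9 c8_17_9_9) (EF.tv rfl q18_9 c8_18_9_9) (EF.tv rfl q19_9 c8_19_9_9) (EF.tv rfl q20_9 c8_20_9_9) (EF.tv rfl q21_9 c8_21_9_9) (EF.tv rfl q22_9 c8_22_9_9) (EF.tv rfl q23_9 c8_23_9_9) (EF.tv rfl q24_9 c8_24_9_9) (EF.tv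 rfl q25_9 c8_25_9_9) (EF.tv rfl q26_9 c8_26_9_9) (EF.tv rfl q27_9 c8_27_9_9) (EF.tv rfl q28_9 c8_28_9_9) (EF.tv rfl q29_9 c8_29_9_9) (EF.tv rfl q30_9 c8_30_9_9) (EF.tv rfl q31_9 c8_31_9_9) (EF.tv rfl q32_9 c8_32_9_9) (EF.tv rfl q33_9 c8_33_9_9) (EF.tv rfl q34_9 c8_34_9_9) (EF.tv rfl q35_9 c8_35_9_9) (EF.tv rfl q36_9 c8_36_9_9) (EF.tv rfl q37_9 c8_37_9_9) (EF.tv rfl q38_9 c8_38_9_9) (EF.tv rfl q39_9 c8_39_9_9) (EF.tv rfl q40_9 c8_40_9_9) (EF.tv rfl q41_9 c8_41_9_9) (EF.tv rfl q42_9 c8_42_9_9) (EF.tv rfl q43_9 c8_43_9_9) (EF.tv rfl q44_9 c8_44_9_9) (EF.tv rfl q45_9 c8_45_9_9) (EF.tv rfl q46_9 c8_46_9_9)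

theorem h4_9 : EvC tl 4 (shK Dec.one 4) d9 :=
  EvC.of2 (tab := tabX 4) (Ls := [e4_9_0, e4_9_1, e4_9_2, e4_9_3]) (tabX_ok 4)
    (by decide +kernel) (by decide +kernel) (by
    intro L hL
    simp only [List.mem_cons, List.not_mem_nil, or_false] at hL
    rcases hL with rfl | rfl | rfl | rfl
    · exact f4_9_0
    · exact f4_9_1
    · exact f4_9_2
    · exact f4_9_3)

theorem h6_9 : EvC tl 6 (shK Dec.one 6) d9 :=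
  EvC.of2 (tab := tabX 6) (Ls := [e6_9_4, e6_9_5, e6_9_6, e6_9_7]) (tabX_ok 6)
    (by decide +kernel) (by decide +kernel) (by
    intro L hL
    simp only [List.mem_cons, List.not_mem_nil, or_false] at hL
    rcases hL with rfl | rfl | rfl | rfl
    · exact f6_9_4
    · exact f6_9_5
    · exact f6_9_6
    · exact f6_9_7)

theorem h8_9 : EvC tl 0 (shA Dec.one 106) d9 :=
  EvC.of2 (tab := tabX 0) (Ls := [e8_9_8, e8_9_9]) (tabX_ok 0)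
    (by decide +kernel) (by decide +kernel) (by
    intro L hL
    simp only [List.mem_cons, List.not_mem_nil, or_false] at hL
    rcases hL with rfl | rfl
    · exact f8_9_8
    · exact f8_9_9)

theorem hh_9 : EvC8 tl Dec.one d9 := EvC8.a h8_9

end Pool.Agent.TSE
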