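import Pool.Agent.TSE.G7
import Pool.Agent.TSE.G8
import Pool.Agent.TSE.G9
import Pool.Agent.TSE.G0
import Pool.Agent.TSE.G10
import Pool.Agent.TSE.G11
import Pool.Agent.TSE.G12
import Pool.Agent.TSE.G13
import Pool.Agent.TSE.G1
import Pool.Agent.TSE.G14
import Pool.Agent.TSE.G15
import Pool.Agent.TSE.G16
import Pool.Agent.TSE.G17
import Pool.Agent.TSE.G24
import Pool.Agent.TSE.G25
import Pool.Agent.TSE.G2
import Pool.Agent.TSE.G19
import Pool.Agent.TSE.G20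
import Pool.Agent.TSE.G21
import Pool.Agent.TSE.G22
import Pool.Agent.TSE.G23
import Pool.Agent.TSE.G3
import Pool.Agent.TSE.G4
import Pool.Agent.TSE.G5
import Pool.Agent.TSE.G6
import Pool.Agent.TSE.BaseU

set_option autoImplicit false

/-! # All cells (MP_d27362_co) -/

namespace Pool.Agent.TSE

open Pool.Agent.TSC
open Pool.Agent.TSC.Dec
open Pool.Agent.TSG


theorem allF : Pool.Agent.TSK.AllF tl dl := by
  intro tc ht dc hd
  exact dl_forall (P := fun dc => ∀ tc ∈ tl, Pool.Agent.TSK.KF tc dc) kf7 kf8 kf9 kf0 kf10 kf11 kf12 kf13 kf1 kf14 kf15 kf16 kf17 kf24 kf25 kf2 kf19 kf20 kf21 kf22 kf23 kf3 kf4 kf5 kf6 dc hd tc ht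

theorem h4 : ∀ dc ∈ dl, EvC tl 4 (shK Dec.one 4) dc :=
  dl_forall h4_7 h4_8 h4_9 h4_0 h4_10 h4_11 h4_12 h4_13 h4_1 h4_14 h4_15 h4_16 h4_17 h4_24 h4_25 h4_2 h4_19 h4_20 h4_21 h4_22 h4_23 h4_3 h4_4 h4_5 h4_6

theorem h6 : ∀ dc ∈ dl, EvC tl 6 (shK Dec.one 6) dc :=
  dl_forall h6_7 h6_8 h6_9 h6_0 h6_10 h6_11 h6_12 h6_13 h6_1 h6_14 h6_15 h6_16 h6_17 h6_24 h6_25 h6_2 h6_19 h6_20 h6_21 h6_22 h6_23 h6_3 h6_4 h6_5 h6_6

theorem hh : ∀ dc ∈ dl, EvC8 tl Dec.one dc :=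
  dl_forall hh_7 hh_8 hh_9 hh_0 hh_10 hh_11 hh_12 hh_13 hh_1 hh_14 hh_15 hh_16 hh_17 hh_24 hh_25 hh_2 hh_19 hh_20 hh_21 hh_22 hh_23 hh_3 hh_4 hh_5 hh_6

/-- **all vertices `v` of even degree, except at most one, have at most two neighbours `w` such that
a vertex `u ≠ w` of even degree is closer to `w` than to `v`** -/
theorem all_but_one :
    ∀ n : ℕ, ∀ T : SimpleGraph (Fin n), T.IsTree →
      (∃ r : Fin n, ∀ v, v ≠ r → Even (T.neighborSet v).ncard →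
        {w ∈ T.neighborSet v | ∃ u, u ≠ w ∧ Even (T.neighborSet u).ncard ∧
          T.dist w u < T.dist v u}.ncard ≤ 2) →
      ∃ D : Fin n → Fin n → Prop,
        (∀ u v, T.Adj u v → (D u v ∨ D v u)) ∧
        (∀ u v, D u v → (T.Adj u v ∧ ¬ D v u)) ∧
        ∀ m : ℕ, ∀ G : Fin m → Fin m → Prop,
          (∀ a, ¬ G a a) →
          (∀ a b, a ≠ b → (G a b ↔ ¬ G b a)) →
          (({f : Fin n → Fin m | ∀ u v, D u v → G (f u) (f v)}.ncard : ℝ) / (m : ℝ) ^ n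
            ≤ ((1 : ℝ) / 2) ^ (T.edgeSet.ncard)) :=
  even_of_cellsU covers_ok kOk allF (k4 := 4) (k6 := 6) (Or.inr rfl) (Or.inr rfl)
    (by rw [val_one]; norm_num) (by rw [val_one]; norm_num) (by rw [val_one]; norm_num) h4 h6 hh

end Pool.Agent.TSE
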