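import Pool.Agent.TSE.BaseC
import Pool.Agent.TSM.KindH

set_option autoImplicit false

/-!
# Trees whose vertices of even degree have at most two large branches, from the cells (MP_d27362_co)

A branch is large if its height is at least two. One vertex is arbitrary.
-/

namespace Pool.Agent.TSE

open Pool.Agent.TSC
open Pool.Agent.TSG
open Pool.Agent.TSK (AllF gSgn gPos gUn gLc gPc gZp gM1 gM2 gR1 gR0 items fams)

variable {tl : List TC} {dl : List (Seg (Kn Dec))} {d : Seg (Kn Dec)}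

/-- **the theorem from the tests of the cells**: all vertices `v` of even degree except at most one
have at most two neighbours `w` which have a neighbour `x ≠ v` that is not a leaf -/
theorem even_of_cellsH (hc : covers tl dl = true)
    (hk : ∀ D, Pool.Agent.TSM.RD D → KOk (knAt dl d D) D) (h : AllF tl dl) {k4 k6 : ℕ}
    (h4 : k4 = 0 ∨ k4 = 4) (h6 : k6 = 0 ∨ k6 = 6) {κ4 κ6 κ8 : Dec} (hκ4 : 0 ≤ κ4.val)
    (hκ6 : 0 ≤ κ6.val) (hκ8 : 0 ≤ κ8.val) (H4 : ∀ dc ∈ dl, EvC tl k4 (shK κ4 4) dc)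
    (H6 : ∀ dc ∈ dl, EvC tl k6 (shK κ6 6) dc) (H8 : ∀ dc ∈ dl, EvC8 tl κ8 dc) :
    ∀ n : ℕ, ∀ T : SimpleGraph (Fin n), T.IsTree →
      (∃ r : Fin n, ∀ v, v ≠ r → Even (T.neighborSet v).ncard →
        {w ∈ T.neighborSet v | ∃ x ∈ T.neighborSet w, x ≠ v ∧
          2 ≤ (T.neighborSet x).ncard}.ncard ≤ 2) →
      ∃ D : Fin n → Fin n → Prop,
        (∀ u v, T.Adj u v → (D u v ∨ D v u)) ∧
        (∀ u v, D u v → (T.Adj u v ∧ ¬ D v u)) ∧
        ∀ m : ℕ, ∀ G : Fin m → Fin m → Prop,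
          (∀ a, ¬ G a a) →
          (∀ a b, a ≠ b → (G a b ↔ ¬ G b a)) →
          (({f : Fin n → Fin m | ∀ u v, D u v → G (f u) (f v)}.ncard : ℝ) / (m : ℝ) ^ n
            ≤ ((1 : ℝ) / 2) ^ (T.edgeSet.ncard)) := by
  rintro n T hT ⟨r, hr⟩
  exact Pool.Agent.TSM.asm_even_h
    (cert3 hc hk (h.lok (G := gSgn) (by simp [items]))
      (h.lok3 (F := gPos) (by simp [fams]))
      (h.lok (G := gR1) (by simp [items])) (h.lok (G := gR0) (by simp [items]))
      (h.lok3 (F := gUn) (by simp [fams])) (h.lok3 (F := gLc) (by simp [fams]))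
      (h.lok3 (F := gPc) (by simp [fams])) (h.lok3 (F := gZp) (by simp [fams]))
      (h.lok3 (F := gM1) (by simp [fams])) (h.lok3 (F := gM2) (by simp [fams])))
    (even_kindsC hc (h.lok (G := gSgn) (by simp [items])) hk h4 h6 hκ4 hκ6 hκ8
      (fun dc hdc => (H4 dc hdc).cov) (fun dc hdc => (H6 dc hdc).cov)
      fun dc hdc => (H8 dc hdc).cov) n T hT r
    fun v hv => (Nat.even_or_odd (T.neighborSet v).ncard).elim
      (fun he => Or.inr (Or.inr (hr v hv he))) Or.inl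

end Pool.Agent.TSE
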