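import Pool.Agent.TSE.C20_0
import Pool.Agent.TSE.C20_2
import Pool.Agent.TSE.C20_4
import Pool.Agent.TSE.C20_6
import Pool.Agent.TSE.C20_8
import Pool.Agent.TSE.C20_10
import Pool.Agent.TSE.C20_12
import Pool.Agent.TSE.C20_14
import Pool.Agent.TSE.C20_16
import Pool.Agent.TSE.C20_18
import Pool.Agent.TSE.C20_20
import Pool.Agent.TSE.C20_22
import Pool.Agent.TSE.C20_24
import Pool.Agent.TSE.C20_26
import Pool.Agent.TSE.C20_28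
import Pool.Agent.TSE.C20_30
import Pool.Agent.TSE.C20_32
import Pool.Agent.TSE.C20_34
import Pool.Agent.TSE.C20_36
import Pool.Agent.TSE.T
import Pool.Agent.TSE.BaseC
import Pool.Agent.TSG.TabX

set_option autoImplicit false

/-! # One interval of the total mass (MP_d27362_co) -/

namespace Pool.Agent.TSE

open Pool.Agent.TSC
open Pool.Agent.TSC.Dec
open Pool.Agent.TSG


theorem kf20 : ∀ tc ∈ tl, Pool.Agent.TSK.KF tc d20 :=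
  tl_forall (KF.tv rfl q0_20 c0_20) (KF.tv rfl q1_20 c1_20) (KF.tv rfl q2_20 c2_20) (KF.tv rfl q3_20 c3_20) (KF.tv rfl q4_20 c4_20) (KF.tv rfl q5_20 c5_20) (KF.tv rfl q6_20 c6_20) (KF.tv rfl q7_20 c7_20) (KF.tv rfl q8_20 c8_20) (KF.tv rfl q9_20 c9_20) (KF.tv rfl q10_20 c10_20) (KF.tv rfl q11_20 c11_20) (KF.tv rfl q12_20 c12_20) (KF.tv rfl q13_20 c13_20) (KF.tv rfl q14_20 c14_20) (KF.tv rfl q15_20 c15_20) (KF.tv rfl q16_20 c16_20) (KF.tv rfl q17_20 c17_20) (KF.tv rfl q18_20 c18_20) (KF.tv rfl q19_20 c19_20) (KF.tv rfl q20_20 c20_20) (KF.tv rfl q21_20 c21_20) (KF.tv rfl q22_20 c22_20) (KF.tv rfl q23_20 c23_20) (KF.tv rfl q24_20 c24_20) (KF.tv rfl q25_20 c25_20) (KF.tv rfl q26_20 c26_20) (KF.tv rfl q27_20 c27_20) (KF.tv rfl q28_20 c28_20) (KF.tv rfl q29_20 c29_20) (KF.tv rfl q30_20 c30_20) (KF.tv rfl q31_20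 c31_20) (KF.tv rfl q32_20 c32_20) (KF.tv rfl q33_20 c33_20) (KF.tv rfl q34_20 c34_20) (KF.tv rfl q35_20 c35_20) (KF.tv rfl q36_20 c36_20) (Pool.Agent.TSK.KF.far g37_20) (Pool.Agent.TSK.KF.far g38_20) (Pool.Agent.TSK.KF.far g39_20) (Pool.Agent.TSK.KF.far g40_20) (Pool.Agent.TSK.KF.far g41_20) (Pool.Agent.TSK.KF.far g42_20) (Pool.Agent.TSK.KF.far g43_20) (Pool.Agent.TSK.KF.far g44_20) (Pool.Agent.TSK.KF.far g45_20) (Pool.Agent.TSK.KF.far g46_20)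

theorem f4_20_0 : ∀ tc ∈ tl, EF tc d20 e4_20_0 :=
  tl_forall (EF.tv rfl q0_20 c4_0_20_0) (EF.tv rfl q1_20 c4_1_20_0) (EF.tv rfl q2_20 c4_2_20_0) (EF.tv rfl q3_20 c4_3_20_0) (EF.tv rfl q4_20 c4_4_20_0) (EF.tv rfl q5_20 c4_5_20_0) (EF.tv rfl q6_20 c4_6_20_0) (EF.tv rfl q7_20 c4_7_20_0) (EF.tv rfl q8_20 c4_8_20_0) (EF.tv rfl q9_20 c4_9_20_0) (EF.tv rfl q10_20 c4_10_20_0) (EF.tv rfl q11_20 c4_11_20_0) (EF.tv rfl q12_20 c4_12_20_0) (EF.tv rfl q13_20 c4_13_20_0) (EF.tv rfl q14_20 c4_14_20_0) (EF.tv rfl q15_20 c4_15_20_0) (EF.tv rfl q16_20 c4_16_20_0) (EF.tv rfl q17_20 c4_17_20_0) (EF.tv rfl q18_20 c4_18_20_0) (EF.tv rfl q19_20 c4_19_20_0) (EF.tv rfl q20_20 c4_20_20_0) (EF.tv rfl q21_20 c4_21_20_0) (EF.tv rfl q22_20 c4_22_20_0) (EF.tv rfl q23_20 c4_23_20_0) (EF.tv rfl q24_20 c4_24_20_0) (EF.tv rfl q25_20 c4_25_20_0)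 (EF.tv rfl q26_20 c4_26_20_0) (EF.tv rfl q27_20 c4_27_20_0) (EF.tv rfl q28_20 c4_28_20_0) (EF.tv rfl q29_20 c4_29_20_0) (EF.tv rfl q30_20 c4_30_20_0) (EF.tv rfl q31_20 c4_31_20_0) (EF.tv rfl q32_20 c4_32_20_0) (EF.tv rfl q33_20 c4_33_20_0) (EF.tv rfl q34_20 c4_34_20_0) (EF.tv rfl q35_20 c4_35_20_0) (EF.tv rfl q36_20 c4_36_20_0) (EF.far g37_20) (EF.far g38_20) (EF.far g39_20) (EF.far g40_20) (EF.far g41_20) (EF.far g42_20) (EF.far g43_20) (EF.far g44_20) (EF.far g45_20) (EF.far g46_20)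

theorem f4_20_1 : ∀ tc ∈ tl, EF tc d20 e4_20_1 :=
  tl_forall (EF.tv rfl q0_20 c4_0_20_1) (EF.tv rfl q1_20 c4_1_20_1) (EF.tv rfl q2_20 c4_2_20_1) (EF.tv rfl q3_20 c4_3_20_1) (EF.tv rfl q4_20 c4_4_20_1) (EF.tv rfl q5_20 c4_5_20_1) (EF.tv rfl q6_20 c4_6_20_1) (EF.tv rfl q7_20 c4_7_20_1) (EF.tv rfl q8_20 c4_8_20_1) (EF.tv rfl q9_20 c4_9_20_1) (EF.tv rfl q10_20 c4_10_20_1) (EF.tv rfl q11_20 c4_11_20_1) (EF.tv rfl q12_20 c4_12_20_1) (EF.tv rfl q13_20 c4_13_20_1) (EF.tv rfl q14_20 c4_14_20_1) (EF.tv rfl q15_20 c4_15_20_1) (EF.tv rfl q16_20 c4_16_20_1) (EF.tv rfl q17_20 c4_17_20_1) (EF.tv rfl q18_20 c4_18_20_1) (EF.tv rfl q19_20 c4_19_20_1) (EF.tv rfl q20_20 c4_20_20_1) (EF.tv rfl q21_20 c4_21_20_1) (EF.tv rfl q22_20 c4_22_20_1) (EF.tv rfl q23_20 c4_23_20_1) (EF.tv rfl q24_20 c4_24_20_1) (EF.tv rfl q25_20 c4_25_20_1)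 (EF.tv rfl q26_20 c4_26_20_1) (EF.tv rfl q27_20 c4_27_20_1) (EF.tv rfl q28_20 c4_28_20_1) (EF.tv rfl q29_20 c4_29_20_1) (EF.tv rfl q30_20 c4_30_20_1) (EF.tv rfl q31_20 c4_31_20_1) (EF.tv rfl q32_20 c4_32_20_1) (EF.tv rfl q33_20 c4_33_20_1) (EF.tv rfl q34_20 c4_34_20_1) (EF.tv rfl q35_20 c4_35_20_1) (EF.tv rfl q36_20 c4_36_20_1) (EF.far g37_20) (EF.far g38_20) (EF.far g39_20) (EF.far g40_20) (EF.far g41_20) (EF.far g42_20) (EF.far g43_20) (EF.far g44_20) (EF.far g45_20) (EF.far g46_20)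

theorem f4_20_2 : ∀ tc ∈ tl, EF tc d20 e4_20_2 :=
  tl_forall (EF.tv rfl q0_20 c4_0_20_2) (EF.tv rfl q1_20 c4_1_20_2) (EF.tv rfl q2_20 c4_2_20_2) (EF.tv rfl q3_20 c4_3_20_2) (EF.tv rfl q4_20 c4_4_20_2) (EF.tv rfl q5_20 c4_5_20_2) (EF.tv rfl q6_20 c4_6_20_2) (EF.tv rfl q7_20 c4_7_20_2) (EF.tv rfl q8_20 c4_8_20_2) (EF.tv rfl q9_20 c4_9_20_2) (EF.tv rfl q10_20 c4_10_20_2) (EF.tv rfl q11_20 c4_11_20_2) (EF.tv rfl q12_20 c4_12_20_2) (EF.tv rfl q13_20 c4_13_20_2) (EF.tv rfl q14_20 c4_14_20_2) (EF.tv rfl q15_20 c4_15_20_2) (EF.tv rfl q16_20 c4_16_20_2) (EF.tv rfl q17_20 c4_17_20_2) (EF.tv rfl q18_20 c4_18_20_2) (EF.tv rfl q19_20 c4_19_20_2) (EF.tv rfl q20_20 c4_20_20_2) (EF.tv rfl q21_20 c4_21_20_2) (EF.tv rfl q22_20 c4_22_20_2) (EF.tv rfl q23_20 c4_23_20_2) (EF.tv rfl q24_20 c4_24_20_2) (EF.tv rfl q25_20 c4_25_20_2)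 (EF.tv rfl q26_20 c4_26_20_2) (EF.tv rfl q27_20 c4_27_20_2) (EF.tv rfl q28_20 c4_28_20_2) (EF.tv rfl q29_20 c4_29_20_2) (EF.tv rfl q30_20 c4_30_20_2) (EF.tv rfl q31_20 c4_31_20_2) (EF.tv rfl q32_20 c4_32_20_2) (EF.tv rfl q33_20 c4_33_20_2) (EF.tv rfl q34_20 c4_34_20_2) (EF.tv rfl q35_20 c4_35_20_2) (EF.tv rfl q36_20 c4_36_20_2) (EF.far g37_20) (EF.far g38_20) (EF.far g39_20) (EF.far g40_20) (EF.far g41_20) (EF.far g42_20) (EF.far g43_20) (EF.far g44_20) (EF.far g45_20) (EF.far g46_20)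

theorem f4_20_3 : ∀ tc ∈ tl, EF tc d20 e4_20_3 :=
  tl_forall (EF.tv rfl q0_20 c4_0_20_3) (EF.tv rfl q1_20 c4_1_20_3) (EF.tv rfl q2_20 c4_2_20_3) (EF.tv rfl q3_20 c4_3_20_3) (EF.tv rfl q4_20 c4_4_20_3) (EF.tv rfl q5_20 c4_5_20_3) (EF.tv rfl q6_20 c4_6_20_3) (EF.tv rfl q7_20 c4_7_20_3) (EF.tv rfl q8_20 c4_8_20_3) (EF.tv rfl q9_20 c4_9_20_3) (EF.tv rfl q10_20 c4_10_20_3) (EF.tv rfl q11_20 c4_11_20_3) (EF.tv rfl q12_20 c4_12_20_3) (EF.tv rfl q13_20 c4_13_20_3) (EF.tv rfl q14_20 c4_14_20_3) (EF.tv rfl q15_20 c4_15_20_3) (EF.tv rfl q16_20 c4_16_20_3) (EF.tv rfl q17_20 c4_17_20_3) (EF.tv rfl q18_20 c4_18_20_3) (EF.tv rfl q19_20 c4_19_20_3) (EF.tv rfl q20_20 c4_20_20_3) (EF.tv rfl q21_20 c4_21_20_3) (EF.tv rfl q22_20 c4_22_20_3) (EF.tv rfl q23_20 c4_23_20_3) (EF.tv rfl q24_20 c4_24_20_3) (EF.tv rfl q25_20 c4_25_20_3)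 (EF.tv rfl q26_20 c4_26_20_3) (EF.tv rfl q27_20 c4_27_20_3) (EF.tv rfl q28_20 c4_28_20_3) (EF.tv rfl q29_20 c4_29_20_3) (EF.tv rfl q30_20 c4_30_20_3) (EF.tv rfl q31_20 c4_31_20_3) (EF.tv rfl q32_20 c4_32_20_3) (EF.tv rfl q33_20 c4_33_20_3) (EF.tv rfl q34_20 c4_34_20_3) (EF.tv rfl q35_20 c4_35_20_3) (EF.tv rfl q36_20 c4_36_20_3) (EF.far g37_20) (EF.far g38_20) (EF.far g39_20) (EF.far g40_20) (EF.far g41_20) (EF.far g42_20) (EF.far g43_20) (EF.far g44_20) (EF.far g45_20) (EF.far g46_20)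

theorem f6_20_4 : ∀ tc ∈ tl, EF tc d20 e6_20_4 :=
  tl_forall (EF.tv rfl q0_20 c6_0_20_4) (EF.tv rfl q1_20 c6_1_20_4) (EF.tv rfl q2_20 c6_2_20_4) (EF.tv rfl q3_20 c6_3_20_4) (EF.tv rfl q4_20 c6_4_20_4) (EF.tv rfl q5_20 c6_5_20_4) (EF.tv rfl q6_20 c6_6_20_4) (EF.tv rfl q7_20 c6_7_20_4) (EF.tv rfl q8_20 c6_8_20_4) (EF.tv rfl q9_20 c6_9_20_4) (EF.tv rfl q10_20 c6_10_20_4) (EF.tv rfl q11_20 c6_11_20_4) (EF.tv rfl q12_20 c6_12_20_4) (EF.tv rfl q13_20 c6_13_20_4) (EF.tv rfl q14_20 c6_14_20_4) (EF.tv rfl q15_20 c6_15_20_4) (EF.tv rfl q16_20 c6_16_20_4) (EF.tv rfl q17_20 c6_17_20_4) (EF.tv rfl q18_20 c6_18_20_4) (EF.tv rfl q19_20 c6_19_20_4) (EF.tv rfl q20_20 c6_20_20_4) (EF.tv rfl q21_20 c6_21_20_4) (EF.tv rfl q22_20 c6_22_20_4) (EF.tv rfl q23_20 c6_23_20_4) (EF.tv rfl q24_20 c6_24_20_4) (EF.tv rfl q25_20 c6_25_20_4)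 (EF.tv rfl q26_20 c6_26_20_4) (EF.tv rfl q27_20 c6_27_20_4) (EF.tv rfl q28_20 c6_28_20_4) (EF.tv rfl q29_20 c6_29_20_4) (EF.tv rfl q30_20 c6_30_20_4) (EF.tv rfl q31_20 c6_31_20_4) (EF.tv rfl q32_20 c6_32_20_4) (EF.tv rfl q33_20 c6_33_20_4) (EF.tv rfl q34_20 c6_34_20_4) (EF.tv rfl q35_20 c6_35_20_4) (EF.tv rfl q36_20 c6_36_20_4) (EF.far g37_20) (EF.far g38_20) (EF.far g39_20) (EF.far g40_20) (EF.far g41_20) (EF.far g42_20) (EF.far g43_20) (EF.far g44_20) (EF.far g45_20) (EF.far g46_20)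

theorem f6_20_5 : ∀ tc ∈ tl, EF tc d20 e6_20_5 :=
  tl_forall (EF.tv rfl q0_20 c6_0_20_5) (EF.tv rfl q1_20 c6_1_20_5) (EF.tv rfl q2_20 c6_2_20_5) (EF.tv rfl q3_20 c6_3_20_5) (EF.tv rfl q4_20 c6_4_20_5) (EF.tv rfl q5_20 c6_5_20_5) (EF.tv rfl q6_20 c6_6_20_5) (EF.tv rfl q7_20 c6_7_20_5) (EF.tv rfl q8_20 c6_8_20_5) (EF.tv rfl q9_20 c6_9_20_5) (EF.tv rfl q10_20 c6_10_20_5) (EF.tv rfl q11_20 c6_11_20_5) (EF.tv rfl q12_20 c6_12_20_5) (EF.tv rfl q13_20 c6_13_20_5) (EF.tv rfl q14_20 c6_14_20_5) (EF.tv rfl q15_20 c6_15_20_5) (EF.tv rfl q16_20 c6_16_20_5) (EF.tv rfl q17_20 c6_17_20_5) (EF.tv rfl q18_20 c6_18_20_5) (EF.tv rfl q19_20 c6_19_20_5) (EF.tv rfl q20_20 c6_20_20_5) (EF.tv rfl q21_20 c6_21_20_5) (EF.tv rfl q22_20 c6_22_20_5) (EF.tv rfl q23_20 c6_23_20_5) (EF.tv rfl q24_20 c6_24_20_5) (EF.tv rfl q25_20 c6_25_20_5)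 (EF.tv rfl q26_20 c6_26_20_5) (EF.tv rfl q27_20 c6_27_20_5) (EF.tv rfl q28_20 c6_28_20_5) (EF.tv rfl q29_20 c6_29_20_5) (EF.tv rfl q30_20 c6_30_20_5) (EF.tv rfl q31_20 c6_31_20_5) (EF.tv rfl q32_20 c6_32_20_5) (EF.tv rfl q33_20 c6_33_20_5) (EF.tv rfl q34_20 c6_34_20_5) (EF.tv rfl q35_20 c6_35_20_5) (EF.tv rfl q36_20 c6_36_20_5) (EF.far g37_20) (EF.far g38_20) (EF.far g39_20) (EF.far g40_20) (EF.far g41_20) (EF.far g42_20) (EF.far g43_20) (EF.far g44_20) (EF.far g45_20) (EF.far g46_20)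

theorem f6_20_6 : ∀ tc ∈ tl, EF tc d20 e6_20_6 :=
  tl_forall (EF.tv rfl q0_20 c6_0_20_6) (EF.tv rfl q1_20 c6_1_20_6) (EF.tv rfl q2_20 c6_2_20_6) (EF.tv rfl q3_20 c6_3_20_6) (EF.tv rfl q4_20 c6_4_20_6) (EF.tv rfl q5_20 c6_5_20_6) (EF.tv rfl q6_20 c6_6_20_6) (EF.tv rfl q7_20 c6_7_20_6) (EF.tv rfl q8_20 c6_8_20_6) (EF.tv rfl q9_20 c6_9_20_6) (EF.tv rfl q10_20 c6_10_20_6) (EF.tv rfl q11_20 c6_11_20_6) (EF.tv rfl q12_20 c6_12_20_6) (EF.tv rfl q13_20 c6_13_20_6) (EF.tv rfl q14_20 c6_14_20_6) (EF.tv rfl q15_20 c6_15_20_6) (EF.tv rfl q16_20 c6_16_20_6) (EF.tv rfl q17_20 c6_17_20_6) (EF.tv rfl q18_20 c6_18_20_6) (EF.tv rfl q19_20 c6_19_20_6) (EF.tv rfl q20_20 c6_20_20_6) (EF.tv rfl q21_20 c6_21_20_6) (EF.tv rfl q22_20 c6_22_20_6) (EF.tv rfl q23_20 c6_23_20_6) (EF.tv rfl q24_20 c6_24_20_6) (EF.tv rfl q25_20 c6_25_20_6)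 (EF.tv rfl q26_20 c6_26_20_6) (EF.tv rfl q27_20 c6_27_20_6) (EF.tv rfl q28_20 c6_28_20_6) (EF.tv rfl q29_20 c6_29_20_6) (EF.tv rfl q30_20 c6_30_20_6) (EF.tv rfl q31_20 c6_31_20_6) (EF.tv rfl q32_20 c6_32_20_6) (EF.tv rfl q33_20 c6_33_20_6) (EF.tv rfl q34_20 c6_34_20_6) (EF.tv rfl q35_20 c6_35_20_6) (EF.tv rfl q36_20 c6_36_20_6) (EF.far g37_20) (EF.far g38_20) (EF.far g39_20) (EF.far g40_20) (EF.far g41_20) (EF.far g42_20) (EF.far g43_20) (EF.far g44_20) (EF.far g45_20) (EF.far g46_20)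

theorem f6_20_7 : ∀ tc ∈ tl, EF tc d20 e6_20_7 :=
  tl_forall (EF.tv rfl q0_20 c6_0_20_7) (EF.tv rfl q1_20 c6_1_20_7) (EF.tv rfl q2_20 c6_2_20_7) (EF.tv rfl q3_20 c6_3_20_7) (EF.tv rfl q4_20 c6_4_20_7) (EF.tv rfl q5_20 c6_5_20_7) (EF.tv rfl q6_20 c6_6_20_7) (EF.tv rfl q7_20 c6_7_20_7) (EF.tv rfl q8_20 c6_8_20_7) (EF.tv rfl q9_20 c6_9_20_7) (EF.tv rfl q10_20 c6_10_20_7) (EF.tv rfl q11_20 c6_11_20_7) (EF.tv rfl q12_20 c6_12_20_7) (EF.tv rfl q13_20 c6_13_20_7) (EF.tv rfl q14_20 c6_14_20_7) (EF.tv rfl q15_20 c6_15_20_7) (EF.tv rfl q16_20 c6_16_20_7) (EF.tv rfl q17_20 c6_17_20_7) (EF.tv rfl q18_20 c6_18_20_7) (EF.tv rfl q19_20 c6_19_20_7) (EF.tv rfl q20_20 c6_20_20_7) (EF.tv rfl q21_20 c6_21_20_7) (EF.tv rfl q22_20 c6_22_20_7) (EF.tv rfl q23_20 c6_23_20_7) (EF.tv rfl q24_20 c6_24_20_7) (EF.tv rfl q25_20 c6_25_20_7)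 (EF.tv rfl q26_20 c6_26_20_7) (EF.tv rfl q27_20 c6_27_20_7) (EF.tv rfl q28_20 c6_28_20_7) (EF.tv rfl q29_20 c6_29_20_7) (EF.tv rfl q30_20 c6_30_20_7) (EF.tv rfl q31_20 c6_31_20_7) (EF.tv rfl q32_20 c6_32_20_7) (EF.tv rfl q33_20 c6_33_20_7) (EF.tv rfl q34_20 c6_34_20_7) (EF.tv rfl q35_20 c6_35_20_7) (EF.tv rfl q36_20 c6_36_20_7) (EF.far g37_20) (EF.far g38_20) (EF.far g39_20) (EF.far g40_20) (EF.far g41_20) (EF.far g42_20) (EF.far g43_20) (EF.far g44_20) (EF.far g45_20) (EF.far g46_20)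

theorem f8_20_8 : ∀ tc ∈ tl, EF tc d20 e8_20_8 :=
  tl_forall (EF.tv rfl q0_20 c8_0_20_8) (EF.tv rfl q1_20 c8_1_20_8) (EF.tv rfl q2_20 c8_2_20_8) (EF.tv rfl q3_20 c8_3_20_8) (EF.tv rfl q4_20 c8_4_20_8) (EF.tv rfl q5_20 c8_5_20_8) (EF.tv rfl q6_20 c8_6_20_8) (EF.tv rfl q7_20 c8_7_20_8) (EF.tv rfl q8_20 c8_8_20_8) (EF.tv rfl q9_20 c8_9_20_8) (EF.tv rfl q10_20 c8_10_20_8) (EF.tv rfl q11_20 c8_11_20_8) (EF.tv rfl q12_20 c8_12_20_8) (EF.tv rfl q13_20 c8_13_20_8) (EF.tv rfl q14_20 c8_14_20_8) (EF.tv rfl q15_20 c8_15_20_8) (EF.tv rfl q16_20 c8_16_20_8) (EF.tv rfl q17_20 c8_17_20_8) (EF.tv rfl q18_20 c8_18_20_8) (EF.tv rfl q19_20 c8_19_20_8) (EF.tv rfl q20_20 c8_20_20_8) (EF.tv rfl q21_20 c8_21_20_8) (EF.tv rfl q22_20 c8_22_20_8) (EF.tv rfl q23_20 c8_23_20_8) (EF.tv rfl q24_20 c8_24_20_8) (EF.tv rfl q25_20 c8_25_20_8)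 (EF.tv rfl q26_20 c8_26_20_8) (EF.tv rfl q27_20 c8_27_20_8) (EF.tv rfl q28_20 c8_28_20_8) (EF.tv rfl q29_20 c8_29_20_8) (EF.tv rfl q30_20 c8_30_20_8) (EF.tv rfl q31_20 c8_31_20_8) (EF.tv rfl q32_20 c8_32_20_8) (EF.tv rfl q33_20 c8_33_20_8) (EF.tv rfl q34_20 c8_34_20_8) (EF.tv rfl q35_20 c8_35_20_8) (EF.tv rfl q36_20 c8_36_20_8) (EF.far g37_20) (EF.far g38_20) (EF.far g39_20) (EF.far g40_20) (EF.far g41_20) (EF.far g42_20) (EF.far g43_20) (EF.far g44_20) (EF.far g45_20) (EF.far g46_20)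

theorem f8_20_9 : ∀ tc ∈ tl, EF tc d20 e8_20_9 :=
  tl_forall (EF.tv rfl q0_20 c8_0_20_9) (EF.tv rfl q1_20 c8_1_20_9) (EF.tv rfl q2_20 c8_2_20_9) (EF.tv rfl q3_20 c8_3_20_9) (EF.tv rfl q4_20 c8_4_20_9) (EF.tv rfl q5_20 c8_5_20_9) (EF.tv rfl q6_20 c8_6_20_9) (EF.tv rfl q7_20 c8_7_20_9) (EF.tv rfl q8_20 c8_8_20_9) (EF.tv rfl q9_20 c8_9_20_9) (EF.tv rfl q10_20 c8_10_20_9) (EF.tv rfl q11_20 c8_11_20_9) (EF.tv rfl q12_20 c8_12_20_9) (EF.tv rfl q13_20 c8_13_20_9) (EF.tv rfl q14_20 c8_14_20_9) (EF.tv rfl q15_20 c8_15_20_9) (EF.tv rfl q16_20 c8_16_20_9) (EF.tv rfl q17_20 c8_17_20_9) (EF.tv rfl q18_20 c8_18_20_9) (EF.tv rfl q19_20 c8_19_20_9) (EF.tv rfl q20_20 c8_20_20_9) (EF.tv rfl q21_20 c8_21_20_9) (EF.tv rfl q22_20 c8_22_20_9) (EF.tv rfl q23_20 c8_23_20_9) (EF.tv rfl q24_20 c8_24_20_9) (EF.tv rfl q25_20 c8_25_20_9)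 (EF.tv rfl q26_20 c8_26_20_9) (EF.tv rfl q27_20 c8_27_20_9) (EF.tv rfl q28_20 c8_28_20_9) (EF.tv rfl q29_20 c8_29_20_9) (EF.tv rfl q30_20 c8_30_20_9) (EF.tv rfl q31_20 c8_31_20_9) (EF.tv rfl q32_20 c8_32_20_9) (EF.tv rfl q33_20 c8_33_20_9) (EF.tv rfl q34_20 c8_34_20_9) (EF.tv rfl q35_20 c8_35_20_9) (EF.tv rfl q36_20 c8_36_20_9) (EF.far g37_20) (EF.far g38_20) (EF.far g39_20) (EF.far g40_20) (EF.far g41_20) (EF.far g42_20) (EF.far g43_20) (EF.far g44_20) (EF.far g45_20) (EF.far g46_20)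

theorem h4_20 : EvC tl 4 (shK Dec.one 4) d20 :=
  EvC.of2 (tab := tabX 4) (Ls := [e4_20_0, e4_20_1, e4_20_2, e4_20_3]) (tabX_ok 4)
    (by decide +kernel) (by decide +kernel) (by
    intro L hL
    simp only [List.mem_cons, List.not_mem_nil, or_false] at hL
    rcases hL with rfl | rfl | rfl | rfl
    · exact f4_20_0
    · exact f4_20_1
    · exact f4_20_2
    · exact f4_20_3)

theorem h6_20 : EvC tl 6 (shK Dec.one 6) d20 :=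
  EvC.of2 (tab := tabX 6) (Ls := [e6_20_4, e6_20_5, e6_20_6, e6_20_7]) (tabX_ok 6)
    (by decide +kernel) (by decide +kernel) (by
    intro L hL
    simp only [List.mem_cons, List.not_mem_nil, or_false] at hL
    rcases hL with rfl | rfl | rfl | rfl
    · exact f6_20_4
    · exact f6_20_5
    · exact f6_20_6
    · exact f6_20_7)

theorem h8_20 : EvC tl 0 (shA Dec.one 106) d20 :=
  EvC.of2 (tab := tabX 0) (Ls := [e8_20_8, e8_20_9]) (tabX_ok 0)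
    (by decide +kernel) (by decide +kernel) (by
    intro L hL
    simp only [List.mem_cons, List.not_mem_nil, or_false] at hL
    rcases hL with rfl | rfl
    · exact f8_20_8
    · exact f8_20_9)

theorem hh_20 : EvC8 tl Dec.one d20 := EvC8.a h8_20

end Pool.Agent.TSE
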