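import Pool.Agent.TSE.C7_0
import Pool.Agent.TSE.C7_2
import Pool.Agent.TSE.C7_4
import Pool.Agent.TSE.C7_6
import Pool.Agent.TSE.C7_8
import Pool.Agent.TSE.C7_10
import Pool.Agent.TSE.C7_12
import Pool.Agent.TSE.C7_14
import Pool.Agent.TSE.C7_16
import Pool.Agent.TSE.C7_18
import Pool.Agent.TSE.C7_20
import Pool.Agent.TSE.C7_22
import Pool.Agent.TSE.C7_24
import Pool.Agent.TSE.C7_26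
import Pool.Agent.TSE.C7_28
import Pool.Agent.TSE.C7_30
import Pool.Agent.TSE.C7_32
import Pool.Agent.TSE.C7_34
import Pool.Agent.TSE.C7_36
import Pool.Agent.TSE.C7_38
import Pool.Agent.TSE.C7_40
import Pool.Agent.TSE.C7_42
import Pool.Agent.TSE.C7_44
import Pool.Agent.TSE.C7_46
import Pool.Agent.TSE.T
import Pool.Agent.TSE.BaseC
import Pool.Agent.TSG.TabX

set_option autoImplicit false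

/-! # One interval of the total mass (MP_d27362_co) -/

namespace Pool.Agent.TSE

open Pool.Agent.TSC
open Pool.Agent.TSC.Dec
open Pool.Agent.TSG


theorem kf7 : ∀ tc ∈ tl, Pool.Agent.TSK.KF tc d7 :=
  tl_forall (KF.tv rfl q0_7 c0_7) (KF.tv rfl q1_7 c1_7) (KF.tv rfl q2_7 c2_7) (KF.tv rfl q3_7 c3_7) (KF.tv rfl q4_7 c4_7) (KF.tv rfl q5_7 c5_7) (KF.tv rfl q6_7 c6_7) (KF.tv rfl q7_7 c7_7) (KF.tv rfl q8_7 c8_7) (KF.tv rfl q9_7 c9_7) (KF.tv rfl q10_7 c10_7) (KF.tv rfl q11_7 c11_7) (KF.tv rfl q12_7 c12_7) (KF.tv rfl q13_7 c13_7) (KF.tv rfl q14_7 c14_7) (KF.tv rfl q15_7 c15_7) (KF.tv rfl q16_7 c16_7) (KF.tv rfl q17_7 c17_7) (KF.tv rfl q18_7 c18_7) (KF.tv rfl q19_7 c19_7) (KF.tv rfl q20_7 c20_7) (KF.tv rfl q21_7 c21_7) (KF.tv rfl q22_7 c22_7) (KF.tv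 rfl q23_7 c23_7) (KF.tv rfl q24_7 c24_7) (KF.tv rfl q25_7 c25_7) (KF.tv rfl q26_7 c26_7) (KF.tv rfl q27_7 c27_7) (KF.tv rfl q28_7 c28_7) (KF.tv rfl q29_7 c29_7) (KF.tv rfl q30_7 c30_7) (KF.tv rfl q31_7 c31_7) (KF.tv rfl q32_7 c32_7) (KF.tv rfl q33_7 c33_7) (KF.tv rfl q34_7 c34_7) (KF.tv rfl q35_7 c35_7) (KF.tv rfl q36_7 c36_7) (KF.tv rfl q37_7 c37_7) (KF.tv rfl q38_7 c38_7) (KF.tv rfl q39_7 c39_7) (KF.tv rfl q40_7 c40_7) (KF.tv rfl q41_7 c41_7) (KF.tv rfl q42_7 c42_7) (KF.tv rfl q43_7 c43_7) (KF.tv rfl q44_7 c44_7) (KF.tv rfl q45_7 c45_7) (KF.tv rfl q46_7 c46_7)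

theorem f4_7_0 : ∀ tc ∈ tl, EF tc d7 e4_7_0 :=
  tl_forall (EF.tv rfl q0_7 c4_0_7_0) (EF.tv rfl q1_7 c4_1_7_0) (EF.tv rfl q2_7 c4_2_7_0) (EF.tv rfl q3_7 c4_3_7_0) (EF.tv rfl q4_7 c4_4_7_0) (EF.tv rfl q5_7 c4_5_7_0) (EF.tv rfl q6_7 c4_6_7_0) (EF.tv rfl q7_7 c4_7_7_0) (EF.tv rfl q8_7 c4_8_7_0) (EF.tv rfl q9_7 c4_9_7_0) (EF.tv rfl q10_7 c4_10_7_0) (EF.tv rfl q11_7 c4_11_7_0) (EF.tv rfl q12_7 c4_12_7_0) (EF.tv rfl q13_7 c4_13_7_0) (EF.tv rfl q14_7 c4_14_7_0) (EF.tv rfl q15_7 c4_15_7_0) (EF.tv rfl q16_7 c4_16_7_0) (EF.tv rfl q17_7 c4_17_7_0) (EF.tv rfl q18_7 c4_18_7_0) (EF.tv rfl q19_7 c4_19_7_0) (EF.tv rfl q20_7 c4_20_7_0) (EF.tv rfl q21_7 c4_21_7_0) (EF.tv rfl q22_7 c4_22_7_0) (EF.tv rfl q23_7 c4_23_7_0) (EF.tv rfl q24_7 c4_24_7_0) (EF.tv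 rfl q25_7 c4_25_7_0) (EF.tv rfl q26_7 c4_26_7_0) (EF.tv rfl q27_7 c4_27_7_0) (EF.tv rfl q28_7 c4_28_7_0) (EF.tv rfl q29_7 c4_29_7_0) (EF.tv rfl q30_7 c4_30_7_0) (EF.tv rfl q31_7 c4_31_7_0) (EF.tv rfl q32_7 c4_32_7_0) (EF.tv rfl q33_7 c4_33_7_0) (EF.tv rfl q34_7 c4_34_7_0) (EF.tv rfl q35_7 c4_35_7_0) (EF.tv rfl q36_7 c4_36_7_0) (EF.tv rfl q37_7 c4_37_7_0) (EF.tv rfl q38_7 c4_38_7_0) (EF.tv rfl q39_7 c4_39_7_0) (EF.tv rfl q40_7 c4_40_7_0) (EF.tv rfl q41_7 c4_41_7_0) (EF.tv rfl q42_7 c4_42_7_0) (EF.tv rfl q43_7 c4_43_7_0) (EF.tv rfl q44_7 c4_44_7_0) (EF.tv rfl q45_7 c4_45_7_0) (EF.tv rfl q46_7 c4_46_7_0)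

theorem f4_7_1 : ∀ tc ∈ tl, EF tc d7 e4_7_1 :=
  tl_forall (EF.tv rfl q0_7 c4_0_7_1) (EF.tv rfl q1_7 c4_1_7_1) (EF.tv rfl q2_7 c4_2_7_1) (EF.tv rfl q3_7 c4_3_7_1) (EF.tv rfl q4_7 c4_4_7_1) (EF.tv rfl q5_7 c4_5_7_1) (EF.tv rfl q6_7 c4_6_7_1) (EF.tv rfl q7_7 c4_7_7_1) (EF.tv rfl q8_7 c4_8_7_1) (EF.tv rfl q9_7 c4_9_7_1) (EF.tv rfl q10_7 c4_10_7_1) (EF.tv rfl q11_7 c4_11_7_1) (EF.tv rfl q12_7 c4_12_7_1) (EF.tv rfl q13_7 c4_13_7_1) (EF.tv rfl q14_7 c4_14_7_1) (EF.tv rfl q15_7 c4_15_7_1) (EF.tv rfl q16_7 c4_16_7_1) (EF.tv rfl q17_7 c4_17_7_1) (EF.tv rfl q18_7 c4_18_7_1) (EF.tv rfl q19_7 c4_19_7_1) (EF.tv rfl q20_7 c4_20_7_1) (EF.tv rfl q21_7 c4_21_7_1) (EF.tv rfl q22_7 c4_22_7_1) (EF.tv rfl q23_7 c4_23_7_1) (EF.tv rfl q24_7 c4_24_7_1) (EF.tv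 rfl q25_7 c4_25_7_1) (EF.tv rfl q26_7 c4_26_7_1) (EF.tv rfl q27_7 c4_27_7_1) (EF.tv rfl q28_7 c4_28_7_1) (EF.tv rfl q29_7 c4_29_7_1) (EF.tv rfl q30_7 c4_30_7_1) (EF.tv rfl q31_7 c4_31_7_1) (EF.tv rfl q32_7 c4_32_7_1) (EF.tv rfl q33_7 c4_33_7_1) (EF.tv rfl q34_7 c4_34_7_1) (EF.tv rfl q35_7 c4_35_7_1) (EF.tv rfl q36_7 c4_36_7_1) (EF.tv rfl q37_7 c4_37_7_1) (EF.tv rfl q38_7 c4_38_7_1) (EF.tv rfl q39_7 c4_39_7_1) (EF.tv rfl q40_7 c4_40_7_1) (EF.tv rfl q41_7 c4_41_7_1) (EF.tv rfl q42_7 c4_42_7_1) (EF.tv rfl q43_7 c4_43_7_1) (EF.tv rfl q44_7 c4_44_7_1) (EF.tv rfl q45_7 c4_45_7_1) (EF.tv rfl q46_7 c4_46_7_1)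

theorem f4_7_2 : ∀ tc ∈ tl, EF tc d7 e4_7_2 :=
  tl_forall (EF.tv rfl q0_7 c4_0_7_2) (EF.tv rfl q1_7 c4_1_7_2) (EF.tv rfl q2_7 c4_2_7_2) (EF.tv rfl q3_7 c4_3_7_2) (EF.tv rfl q4_7 c4_4_7_2) (EF.tv rfl q5_7 c4_5_7_2) (EF.tv rfl q6_7 c4_6_7_2) (EF.tv rfl q7_7 c4_7_7_2) (EF.tv rfl q8_7 c4_8_7_2) (EF.tv rfl q9_7 c4_9_7_2) (EF.tv rfl q10_7 c4_10_7_2) (EF.tv rfl q11_7 c4_11_7_2) (EF.tv rfl q12_7 c4_12_7_2) (EF.tv rfl q13_7 c4_13_7_2) (EF.tv rfl q14_7 c4_14_7_2) (EF.tv rfl q15_7 c4_15_7_2) (EF.tv rfl q16_7 c4_16_7_2) (EF.tv rfl q17_7 c4_17_7_2) (EF.tv rfl q18_7 c4_18_7_2) (EF.tv rfl q19_7 c4_19_7_2) (EF.tv rfl q20_7 c4_20_7_2) (EF.tv rfl q21_7 c4_21_7_2) (EF.tv rfl q22_7 c4_22_7_2) (EF.tv rfl q23_7 c4_23_7_2) (EF.tv rfl q24_7 c4_24_7_2) (EF.tv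 rfl q25_7 c4_25_7_2) (EF.tv rfl q26_7 c4_26_7_2) (EF.tv rfl q27_7 c4_27_7_2) (EF.tv rfl q28_7 c4_28_7_2) (EF.tv rfl q29_7 c4_29_7_2) (EF.tv rfl q30_7 c4_30_7_2) (EF.tv rfl q31_7 c4_31_7_2) (EF.tv rfl q32_7 c4_32_7_2) (EF.tv rfl q33_7 c4_33_7_2) (EF.tv rfl q34_7 c4_34_7_2) (EF.tv rfl q35_7 c4_35_7_2) (EF.tv rfl q36_7 c4_36_7_2) (EF.tv rfl q37_7 c4_37_7_2) (EF.tv rfl q38_7 c4_38_7_2) (EF.tv rfl q39_7 c4_39_7_2) (EF.tv rfl q40_7 c4_40_7_2) (EF.tv rfl q41_7 c4_41_7_2) (EF.tv rfl q42_7 c4_42_7_2) (EF.tv rfl q43_7 c4_43_7_2) (EF.tv rfl q44_7 c4_44_7_2) (EF.tv rfl q45_7 c4_45_7_2) (EF.tv rfl q46_7 c4_46_7_2)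

theorem f4_7_3 : ∀ tc ∈ tl, EF tc d7 e4_7_3 :=
  tl_forall (EF.tv rfl q0_7 c4_0_7_3) (EF.tv rfl q1_7 c4_1_7_3) (EF.tv rfl q2_7 c4_2_7_3) (EF.tv rfl q3_7 c4_3_7_3) (EF.tv rfl q4_7 c4_4_7_3) (EF.tv rfl q5_7 c4_5_7_3) (EF.tv rfl q6_7 c4_6_7_3) (EF.tv rfl q7_7 c4_7_7_3) (EF.tv rfl q8_7 c4_8_7_3) (EF.tv rfl q9_7 c4_9_7_3) (EF.tv rfl q10_7 c4_10_7_3) (EF.tv rfl q11_7 c4_11_7_3) (EF.tv rfl q12_7 c4_12_7_3) (EF.tv rfl q13_7 c4_13_7_3) (EF.tv rfl q14_7 c4_14_7_3) (EF.tv rfl q15_7 c4_15_7_3) (EF.tv rfl q16_7 c4_16_7_3) (EF.tv rfl q17_7 c4_17_7_3) (EF.tv rfl q18_7 c4_18_7_3) (EF.tv rfl q19_7 c4_19_7_3) (EF.tv rfl q20_7 c4_20_7_3) (EF.tv rfl q21_7 c4_21_7_3) (EF.tv rfl q22_7 c4_22_7_3) (EF.tv rfl q23_7 c4_23_7_3) (EF.tv rfl q24_7 c4_24_7_3) (EF.tv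 rfl q25_7 c4_25_7_3) (EF.tv rfl q26_7 c4_26_7_3) (EF.tv rfl q27_7 c4_27_7_3) (EF.tv rfl q28_7 c4_28_7_3) (EF.tv rfl q29_7 c4_29_7_3) (EF.tv rfl q30_7 c4_30_7_3) (EF.tv rfl q31_7 c4_31_7_3) (EF.tv rfl q32_7 c4_32_7_3) (EF.tv rfl q33_7 c4_33_7_3) (EF.tv rfl q34_7 c4_34_7_3) (EF.tv rfl q35_7 c4_35_7_3) (EF.tv rfl q36_7 c4_36_7_3) (EF.tv rfl q37_7 c4_37_7_3) (EF.tv rfl q38_7 c4_38_7_3) (EF.tv rfl q39_7 c4_39_7_3) (EF.tv rfl q40_7 c4_40_7_3) (EF.tv rfl q41_7 c4_41_7_3) (EF.tv rfl q42_7 c4_42_7_3) (EF.tv rfl q43_7 c4_43_7_3) (EF.tv rfl q44_7 c4_44_7_3) (EF.tv rfl q45_7 c4_45_7_3) (EF.tv rfl q46_7 c4_46_7_3)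

theorem f6_7_4 : ∀ tc ∈ tl, EF tc d7 e6_7_4 :=
  tl_forall (EF.tv rfl q0_7 c6_0_7_4) (EF.tv rfl q1_7 c6_1_7_4) (EF.tv rfl q2_7 c6_2_7_4) (EF.tv rfl q3_7 c6_3_7_4) (EF.tv rfl q4_7 c6_4_7_4) (EF.tv rfl q5_7 c6_5_7_4) (EF.tv rfl q6_7 c6_6_7_4) (EF.tv rfl q7_7 c6_7_7_4) (EF.tv rfl q8_7 c6_8_7_4) (EF.tv rfl q9_7 c6_9_7_4) (EF.tv rfl q10_7 c6_10_7_4) (EF.tv rfl q11_7 c6_11_7_4) (EF.tv rfl q12_7 c6_12_7_4) (EF.tv rfl q13_7 c6_13_7_4) (EF.tv rfl q14_7 c6_14_7_4) (EF.tv rfl q15_7 c6_15_7_4) (EF.tv rfl q16_7 c6_16_7_4) (EF.tv rfl q17_7 c6_17_7_4) (EF.tv rfl q18_7 c6_18_7_4) (EF.tv rfl q19_7 c6_19_7_4) (EF.tv rfl q20_7 c6_20_7_4) (EF.tv rfl q21_7 c6_21_7_4) (EF.tv rfl q22_7 c6_22_7_4) (EF.tv rfl q23_7 c6_23_7_4) (EF.tv rfl q24_7 c6_24_7_4) (EF.tv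 rfl q25_7 c6_25_7_4) (EF.tv rfl q26_7 c6_26_7_4) (EF.tv rfl q27_7 c6_27_7_4) (EF.tv rfl q28_7 c6_28_7_4) (EF.tv rfl q29_7 c6_29_7_4) (EF.tv rfl q30_7 c6_30_7_4) (EF.tv rfl q31_7 c6_31_7_4) (EF.tv rfl q32_7 c6_32_7_4) (EF.tv rfl q33_7 c6_33_7_4) (EF.tv rfl q34_7 c6_34_7_4) (EF.tv rfl q35_7 c6_35_7_4) (EF.tv rfl q36_7 c6_36_7_4) (EF.tv rfl q37_7 c6_37_7_4) (EF.tv rfl q38_7 c6_38_7_4) (EF.tv rfl q39_7 c6_39_7_4) (EF.tv rfl q40_7 c6_40_7_4) (EF.tv rfl q41_7 c6_41_7_4) (EF.tv rfl q42_7 c6_42_7_4) (EF.tv rfl q43_7 c6_43_7_4) (EF.tv rfl q44_7 c6_44_7_4) (EF.tv rfl q45_7 c6_45_7_4) (EF.tv rfl q46_7 c6_46_7_4)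

theorem f6_7_5 : ∀ tc ∈ tl, EF tc d7 e6_7_5 :=
  tl_forall (EF.tv rfl q0_7 c6_0_7_5) (EF.tv rfl q1_7 c6_1_7_5) (EF.tv rfl q2_7 c6_2_7_5) (EF.tv rfl q3_7 c6_3_7_5) (EF.tv rfl q4_7 c6_4_7_5) (EF.tv rfl q5_7 c6_5_7_5) (EF.tv rfl q6_7 c6_6_7_5) (EF.tv rfl q7_7 c6_7_7_5) (EF.tv rfl q8_7 c6_8_7_5) (EF.tv rfl q9_7 c6_9_7_5) (EF.tv rfl q10_7 c6_10_7_5) (EF.tv rfl q11_7 c6_11_7_5) (EF.tv rfl q12_7 c6_12_7_5) (EF.tv rfl q13_7 c6_13_7_5) (EF.tv rfl q14_7 c6_14_7_5) (EF.tv rfl q15_7 c6_15_7_5) (EF.tv rfl q16_7 c6_16_7_5) (EF.tv rfl q17_7 c6_17_7_5) (EF.tv rfl q18_7 c6_18_7_5) (EF.tv rfl q19_7 c6_19_7_5) (EF.tv rfl q20_7 c6_20_7_5) (EF.tv rfl q21_7 c6_21_7_5) (EF.tv rfl q22_7 c6_22_7_5) (EF.tv rfl q23_7 c6_23_7_5) (EF.tv rfl q24_7 c6_24_7_5) (EF.tv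 rfl q25_7 c6_25_7_5) (EF.tv rfl q26_7 c6_26_7_5) (EF.tv rfl q27_7 c6_27_7_5) (EF.tv rfl q28_7 c6_28_7_5) (EF.tv rfl q29_7 c6_29_7_5) (EF.tv rfl q30_7 c6_30_7_5) (EF.tv rfl q31_7 c6_31_7_5) (EF.tv rfl q32_7 c6_32_7_5) (EF.tv rfl q33_7 c6_33_7_5) (EF.tv rfl q34_7 c6_34_7_5) (EF.tv rfl q35_7 c6_35_7_5) (EF.tv rfl q36_7 c6_36_7_5) (EF.tv rfl q37_7 c6_37_7_5) (EF.tv rfl q38_7 c6_38_7_5) (EF.tv rfl q39_7 c6_39_7_5) (EF.tv rfl q40_7 c6_40_7_5) (EF.tv rfl q41_7 c6_41_7_5) (EF.tv rfl q42_7 c6_42_7_5) (EF.tv rfl q43_7 c6_43_7_5) (EF.tv rfl q44_7 c6_44_7_5) (EF.tv rfl q45_7 c6_45_7_5) (EF.tv rfl q46_7 c6_46_7_5)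

theorem f6_7_6 : ∀ tc ∈ tl, EF tc d7 e6_7_6 :=
  tl_forall (EF.tv rfl q0_7 c6_0_7_6) (EF.tv rfl q1_7 c6_1_7_6) (EF.tv rfl q2_7 c6_2_7_6) (EF.tv rfl q3_7 c6_3_7_6) (EF.tv rfl q4_7 c6_4_7_6) (EF.tv rfl q5_7 c6_5_7_6) (EF.tv rfl q6_7 c6_6_7_6) (EF.tv rfl q7_7 c6_7_7_6) (EF.tv rfl q8_7 c6_8_7_6) (EF.tv rfl q9_7 c6_9_7_6) (EF.tv rfl q10_7 c6_10_7_6) (EF.tv rfl q11_7 c6_11_7_6) (EF.tv rfl q12_7 c6_12_7_6) (EF.tv rfl q13_7 c6_13_7_6) (EF.tv rfl q14_7 c6_14_7_6) (EF.tv rfl q15_7 c6_15_7_6) (EF.tv rfl q16_7 c6_16_7_6) (EF.tv rfl q17_7 c6_17_7_6) (EF.tv rfl q18_7 c6_18_7_6) (EF.tv rfl q19_7 c6_19_7_6) (EF.tv rfl q20_7 c6_20_7_6) (EF.tv rfl q21_7 c6_21_7_6) (EF.tv rfl q22_7 c6_22_7_6) (EF.tv rfl q23_7 c6_23_7_6) (EF.tv rfl q24_7 c6_24_7_6) (EF.tv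 rfl q25_7 c6_25_7_6) (EF.tv rfl q26_7 c6_26_7_6) (EF.tv rfl q27_7 c6_27_7_6) (EF.tv rfl q28_7 c6_28_7_6) (EF.tv rfl q29_7 c6_29_7_6) (EF.tv rfl q30_7 c6_30_7_6) (EF.tv rfl q31_7 c6_31_7_6) (EF.tv rfl q32_7 c6_32_7_6) (EF.tv rfl q33_7 c6_33_7_6) (EF.tv rfl q34_7 c6_34_7_6) (EF.tv rfl q35_7 c6_35_7_6) (EF.tv rfl q36_7 c6_36_7_6) (EF.tv rfl q37_7 c6_37_7_6) (EF.tv rfl q38_7 c6_38_7_6) (EF.tv rfl q39_7 c6_39_7_6) (EF.tv rfl q40_7 c6_40_7_6) (EF.tv rfl q41_7 c6_41_7_6) (EF.tv rfl q42_7 c6_42_7_6) (EF.tv rfl q43_7 c6_43_7_6) (EF.tv rfl q44_7 c6_44_7_6) (EF.tv rfl q45_7 c6_45_7_6) (EF.tv rfl q46_7 c6_46_7_6)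

theorem f6_7_7 : ∀ tc ∈ tl, EF tc d7 e6_7_7 :=
  tl_forall (EF.tv rfl q0_7 c6_0_7_7) (EF.tv rfl q1_7 c6_1_7_7) (EF.tv rfl q2_7 c6_2_7_7) (EF.tv rfl q3_7 c6_3_7_7) (EF.tv rfl q4_7 c6_4_7_7) (EF.tv rfl q5_7 c6_5_7_7) (EF.tv rfl q6_7 c6_6_7_7) (EF.tv rfl q7_7 c6_7_7_7) (EF.tv rfl q8_7 c6_8_7_7) (EF.tv rfl q9_7 c6_9_7_7) (EF.tv rfl q10_7 c6_10_7_7) (EF.tv rfl q11_7 c6_11_7_7) (EF.tv rfl q12_7 c6_12_7_7) (EF.tv rfl q13_7 c6_13_7_7) (EF.tv rfl q14_7 c6_14_7_7) (EF.tv rfl q15_7 c6_15_7_7) (EF.tv rfl q16_7 c6_16_7_7) (EF.tv rfl q17_7 c6_17_7_7) (EF.tv rfl q18_7 c6_18_7_7) (EF.tv rfl q19_7 c6_19_7_7) (EF.tv rfl q20_7 c6_20_7_7) (EF.tv rfl q21_7 c6_21_7_7) (EF.tv rfl q22_7 c6_22_7_7) (EF.tv rfl q23_7 c6_23_7_7) (EF.tv rfl q24_7 c6_24_7_7) (EF.tv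 rfl q25_7 c6_25_7_7) (EF.tv rfl q26_7 c6_26_7_7) (EF.tv rfl q27_7 c6_27_7_7) (EF.tv rfl q28_7 c6_28_7_7) (EF.tv rfl q29_7 c6_29_7_7) (EF.tv rfl q30_7 c6_30_7_7) (EF.tv rfl q31_7 c6_31_7_7) (EF.tv rfl q32_7 c6_32_7_7) (EF.tv rfl q33_7 c6_33_7_7) (EF.tv rfl q34_7 c6_34_7_7) (EF.tv rfl q35_7 c6_35_7_7) (EF.tv rfl q36_7 c6_36_7_7) (EF.tv rfl q37_7 c6_37_7_7) (EF.tv rfl q38_7 c6_38_7_7) (EF.tv rfl q39_7 c6_39_7_7) (EF.tv rfl q40_7 c6_40_7_7) (EF.tv rfl q41_7 c6_41_7_7) (EF.tv rfl q42_7 c6_42_7_7) (EF.tv rfl q43_7 c6_43_7_7) (EF.tv rfl q44_7 c6_44_7_7) (EF.tv rfl q45_7 c6_45_7_7) (EF.tv rfl q46_7 c6_46_7_7)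

theorem f8_7_8 : ∀ tc ∈ tl, EF tc d7 e8_7_8 :=
  tl_forall (EF.tv rfl q0_7 c8_0_7_8) (EF.tv rfl q1_7 c8_1_7_8) (EF.tv rfl q2_7 c8_2_7_8) (EF.tv rfl q3_7 c8_3_7_8) (EF.tv rfl q4_7 c8_4_7_8) (EF.tv rfl q5_7 c8_5_7_8) (EF.tv rfl q6_7 c8_6_7_8) (EF.tv rfl q7_7 c8_7_7_8) (EF.tv rfl q8_7 c8_8_7_8) (EF.tv rfl q9_7 c8_9_7_8) (EF.tv rfl q10_7 c8_10_7_8) (EF.tv rfl q11_7 c8_11_7_8) (EF.tv rfl q12_7 c8_12_7_8) (EF.tv rfl q13_7 c8_13_7_8) (EF.tv rfl q14_7 c8_14_7_8) (EF.tv rfl q15_7 c8_15_7_8) (EF.tv rfl q16_7 c8_16_7_8) (EF.tv rfl q17_7 c8_17_7_8) (EF.tv rfl q18_7 c8_18_7_8) (EF.tv rfl q19_7 c8_19_7_8) (EF.tv rfl q20_7 c8_20_7_8) (EF.tv rfl q21_7 c8_21_7_8) (EF.tv rfl q22_7 c8_22_7_8) (EF.tv rfl q23_7 c8_23_7_8) (EF.tv rfl q24_7 c8_24_7_8) (EF.tv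 rfl q25_7 c8_25_7_8) (EF.tv rfl q26_7 c8_26_7_8) (EF.tv rfl q27_7 c8_27_7_8) (EF.tv rfl q28_7 c8_28_7_8) (EF.tv rfl q29_7 c8_29_7_8) (EF.tv rfl q30_7 c8_30_7_8) (EF.tv rfl q31_7 c8_31_7_8) (EF.tv rfl q32_7 c8_32_7_8) (EF.tv rfl q33_7 c8_33_7_8) (EF.tv rfl q34_7 c8_34_7_8) (EF.tv rfl q35_7 c8_35_7_8) (EF.tv rfl q36_7 c8_36_7_8) (EF.tv rfl q37_7 c8_37_7_8) (EF.tv rfl q38_7 c8_38_7_8) (EF.tv rfl q39_7 c8_39_7_8) (EF.tv rfl q40_7 c8_40_7_8) (EF.tv rfl q41_7 c8_41_7_8) (EF.tv rfl q42_7 c8_42_7_8) (EF.tv rfl q43_7 c8_43_7_8) (EF.tv rfl q44_7 c8_44_7_8) (EF.tv rfl q45_7 c8_45_7_8) (EF.tv rfl q46_7 c8_46_7_8)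

theorem f8_7_9 : ∀ tc ∈ tl, EF tc d7 e8_7_9 :=
  tl_forall (EF.tv rfl q0_7 c8_0_7_9) (EF.tv rfl q1_7 c8_1_7_9) (EF.tv rfl q2_7 c8_2_7_9) (EF.tv rfl q3_7 c8_3_7_9) (EF.tv rfl q4_7 c8_4_7_9) (EF.tv rfl q5_7 c8_5_7_9) (EF.tv rfl q6_7 c8_6_7_9) (EF.tv rfl q7_7 c8_7_7_9) (EF.tv rfl q8_7 c8_8_7_9) (EF.tv rfl q9_7 c8_9_7_9) (EF.tv rfl q10_7 c8_10_7_9) (EF.tv rfl q11_7 c8_11_7_9) (EF.tv rfl q12_7 c8_12_7_9) (EF.tv rfl q13_7 c8_13_7_9) (EF.tv rfl q14_7 c8_14_7_9) (EF.tv rfl q15_7 c8_15_7_9) (EF.tv rfl q16_7 c8_16_7_9) (EF.tv rfl q17_7 c8_17_7_9) (EF.tv rfl q18_7 c8_18_7_9) (EF.tv rfl q19_7 c8_19_7_9) (EF.tv rfl q20_7 c8_20_7_9) (EF.tv rfl q21_7 c8_21_7_9) (EF.tv rfl q22_7 c8_22_7_9) (EF.tv rfl q23_7 c8_23_7_9) (EF.tv rfl q24_7 c8_24_7_9) (EF.tv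 rfl q25_7 c8_25_7_9) (EF.tv rfl q26_7 c8_26_7_9) (EF.tv rfl q27_7 c8_27_7_9) (EF.tv rfl q28_7 c8_28_7_9) (EF.tv rfl q29_7 c8_29_7_9) (EF.tv rfl q30_7 c8_30_7_9) (EF.tv rfl q31_7 c8_31_7_9) (EF.tv rfl q32_7 c8_32_7_9) (EF.tv rfl q33_7 c8_33_7_9) (EF.tv rfl q34_7 c8_34_7_9) (EF.tv rfl q35_7 c8_35_7_9) (EF.tv rfl q36_7 c8_36_7_9) (EF.tv rfl q37_7 c8_37_7_9) (EF.tv rfl q38_7 c8_38_7_9) (EF.tv rfl q39_7 c8_39_7_9) (EF.tv rfl q40_7 c8_40_7_9) (EF.tv rfl q41_7 c8_41_7_9) (EF.tv rfl q42_7 c8_42_7_9) (EF.tv rfl q43_7 c8_43_7_9) (EF.tv rfl q44_7 c8_44_7_9) (EF.tv rfl q45_7 c8_45_7_9) (EF.tv rfl q46_7 c8_46_7_9)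

theorem h4_7 : EvC tl 4 (shK Dec.one 4) d7 :=
  EvC.of2 (tab := tabX 4) (Ls := [e4_7_0, e4_7_1, e4_7_2, e4_7_3]) (tabX_ok 4)
    (by decide +kernel) (by decide +kernel) (by
    intro L hL
    simp only [List.mem_cons, List.not_mem_nil, or_false] at hL
    rcases hL with rfl | rfl | rfl | rfl
    · exact f4_7_0
    · exact f4_7_1
    · exact f4_7_2
    · exact f4_7_3)

theorem h6_7 : EvC tl 6 (shK Dec.one 6) d7 :=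
  EvC.of2 (tab := tabX 6) (Ls := [e6_7_4, e6_7_5, e6_7_6, e6_7_7]) (tabX_ok 6)
    (by decide +kernel) (by decide +kernel) (by
    intro L hL
    simp only [List.mem_cons, List.not_mem_nil, or_false] at hL
    rcases hL with rfl | rfl | rfl | rfl
    · exact f6_7_4
    · exact f6_7_5
    · exact f6_7_6
    · exact f6_7_7)

theorem h8_7 : EvC tl 0 (shA Dec.one 106) d7 :=
  EvC.of2 (tab := tabX 0) (Ls := [e8_7_8, e8_7_9]) (tabX_ok 0)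
    (by decide +kernel) (by decide +kernel) (by
    intro L hL
    simp only [List.mem_cons, List.not_mem_nil, or_false] at hL
    rcases hL with rfl | rfl
    · exact f8_7_8
    · exact f8_7_9)

theorem hh_7 : EvC8 tl Dec.one d7 := EvC8.a h8_7

end Pool.Agent.TSE
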