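import Pool.Agent.TFin.Final

set_option autoImplicit false

/-!
# Minimal counterexamples (MP_d27362_co)

A tree without an anti-Sidorenko orientation contains such a tree of bounded size in which no
vertex has two isomorphic branches. Together with a class `P` of good trees, the small tree is not
in `P`.
-/

namespace Pool.Agent.TSE.MinC

open Pool.Agent.TFin

/-- a bad tree on `Fin k` inside `T` -/
def BadIn {V : Type} (T : SimpleGraph V) (k : ℕ) : Prop :=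
  ∃ T₀ : SimpleGraph (Fin k), T₀.IsTree ∧ ¬ Twin.AntiSidorenko T₀ ∧ Nonempty (T₀ ↪g T)

/-- a bad induced subtree gives a bad tree on `Fin k` -/
lemma badIn_of {V : Type} (T : SimpleGraph V) (W : Type) [Fintype W] (H : SimpleGraph W)
    (hH : H.IsTree) (hb : ¬ Twin.AntiSidorenko H) (f : H ↪g T) : BadIn T (Fintype.card W) := by
  classical
  let e : Fin (Fintype.card W) ≃ W := (Fintype.equivFin W).symm
  let H₀ : SimpleGraph (Fin (Fintype.card W)) := H.comap e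
  have iso : H₀ ≃g H := SimpleGraph.Iso.comap e H
  refine ⟨H₀, iso.isTree_iff.2 hH, ?_, ⟨f.comp iso.toEmbedding⟩⟩
  intro h
  exact hb (p_INV.1 (Fin (Fintype.card W)) W H₀ H ⟨iso⟩ h)

/-- **minimal counterexamples**: bounded size, no twin branches -/
theorem minimal : ∃ N : ℕ, ∀ (n : ℕ) (T : SimpleGraph (Fin n)), T.IsTree →
    ¬ Twin.AntiSidorenko T →
    ∃ k < N, ∃ T₀ : SimpleGraph (Fin k), T₀.IsTree ∧ ¬ Twin.AntiSidorenko T₀ ∧
      Nonempty (T₀ ↪g T) ∧ ∀ φ : T₀ ≃g T₀, (∃ v, φ v = v) → ∀ v, φ v = v := by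
  classical
  obtain ⟨-, -, N, -, h4⟩ := Pool.Agent.TFin.final
  refine ⟨N, fun n T hT hbad => ?_⟩
  have hex : ∃ k, BadIn T k := ⟨n, T, hT, hbad, ⟨SimpleGraph.Embedding.refl⟩⟩
  obtain ⟨T₀, hT₀, hb₀, ⟨f₀⟩⟩ := Nat.find_spec hex
  have hmin : ∀ k, BadIn T k → Nat.find hex ≤ k := fun k hk => Nat.find_min' hex hk
  refine ⟨Nat.find hex, ?_, T₀, hT₀, hb₀, ⟨f₀⟩, ?_⟩
  · obtain ⟨k, hk, T₁, hT₁, hb₁, ⟨f₁⟩⟩ := h4 _ T₀ hT₀ hb₀
    exact lt_of_le_of_lt (hmin k ⟨T₁, hT₁, hb₁, ⟨f₀.comp f₁⟩⟩) hk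
  · intro φ hv
    by_contra hcon
    push Not at hcon
    obtain ⟨w, hw⟩ := hcon
    obtain ⟨v, hv⟩ := hv
    obtain ⟨A, B, u, a, hA, hB, hTA, hTB, hiso⟩ := p_TWIN _ T₀ hT₀ φ v w hv hw
    have key : ∀ C : Set (Fin (Nat.find hex)), C.ncard < Fintype.card (Fin (Nat.find hex)) →
        (T₀.induce C).IsTree → Twin.AntiSidorenko (T₀.induce C) := by
      intro C hC hTC
      by_contra hb
      have h1 := hmin _ (badIn_of T C (T₀.induce C) hTC hb
        (f₀.comp (SimpleGraph.Embedding.induce C)))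
      rw [Fintype.card_fin, ← Nat.card_coe_set_eq, Nat.card_eq_fintype_card] at hC
      omega
    exact hb₀ (p_INV.1 _ _ _ _ hiso (Twin.closure (T₀.induce A) u (T₀.induce B) a
      (key A hA hTA) (key B hB hTB)))

end Pool.Agent.TSE.MinC
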