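import Pool.Agent.TSE.MinC

set_option autoImplicit false

/-!
# The structure of the counterexamples (MP_d27362_co)
-/

namespace Pool.Agent.TSE.MinC

open Pool.Agent.TFin

/-- two exceptional vertices -/
lemma two_of {V : Type} {q : V → Prop} (v₀ : V) (h : ¬ ∃ r : V, ∀ v, v ≠ r → q v) :
    ∃ x y : V, x ≠ y ∧ ¬ q x ∧ ¬ q y := by
  push Not at h
  obtain ⟨x, -, hx⟩ := h v₀
  obtain ⟨y, hy, hy'⟩ := h x
  exact ⟨x, y, hy.symm, hx, hy'⟩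

/-- **the structure of the counterexamples**, from a theorem for trees with at most one
exceptional vertex -/
theorem structure_of {q : ∀ (n : ℕ), SimpleGraph (Fin n) → Fin n → Prop}
    (H : ∀ (n : ℕ) (T : SimpleGraph (Fin n)), T.IsTree → (∃ r, ∀ v, v ≠ r → q n T v) →
      Twin.AntiSidorenko T) :
    ∃ N : ℕ, ∀ (n : ℕ) (T : SimpleGraph (Fin n)), T.IsTree → ¬ Twin.AntiSidorenko T →
      (∃ x y, x ≠ y ∧ ¬ q n T x ∧ ¬ q n T y) ∧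
      ∃ k < N, ∃ T₀ : SimpleGraph (Fin k), T₀.IsTree ∧ ¬ Twin.AntiSidorenko T₀ ∧
        Nonempty (T₀ ↪g T) ∧ (∀ φ : T₀ ≃g T₀, (∃ v, φ v = v) → ∀ v, φ v = v) ∧
        ∃ x y, x ≠ y ∧ ¬ q k T₀ x ∧ ¬ q k T₀ y := by
  obtain ⟨N, hN⟩ := minimal
  have key : ∀ (n : ℕ) (T : SimpleGraph (Fin n)), T.IsTree → ¬ Twin.AntiSidorenko T →
      ∃ x y, x ≠ y ∧ ¬ q n T x ∧ ¬ q n T y := by
    intro n T hT hb
    obtain ⟨v₀⟩ := hT.1.nonempty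
    exact two_of v₀ fun h => hb (H n T hT h)
  refine ⟨N, fun n T hT hb => ⟨key n T hT hb, ?_⟩⟩
  obtain ⟨k, hk, T₀, h1, h2, h3, h4⟩ := hN n T hT hb
  exact ⟨k, hk, T₀, h1, h2, h3, h4, key k T₀ h1 h2⟩

end Pool.Agent.TSE.MinC
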