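import Pool.Agent.TSE.Base
import Pool.Agent.TSG.DecE

set_option autoImplicit false

/-!
# The potentials of the other intervals do not matter for a cell (MP_d27362_co)
-/

namespace Pool.Agent.TSE

open Pool.Agent.TSC
open Pool.Agent.TSG
open Pool.Agent.TSK (KF KP items)

/-- other potentials -/
def tcs (tc : TC) (x : List (VD Dec × VD Dec)) : TC :=
  ⟨tc.a, tc.w, ⟨tc.x.th, tc.x.m, tc.x.ix, x⟩⟩

/-- `v` at the position `n` -/
def rep : ℕ → VD Dec × VD Dec → List (VD Dec × VD Dec)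
  | 0, v => [v]
  | n + 1, v => v :: rep n v

lemma sel_rep (v : VD Dec × VD Dec) : ∀ n, sel (rep n v) n = v
  | 0 => rfl
  | n + 1 => sel_rep v n

/-- an interval of `t` with one potential, at the position `n` -/
def tcv (a w th m : Dec) (n : ℕ) (v : VD Dec × VD Dec) : TC := ⟨a, w, ⟨th, m, 0, rep n v⟩⟩

variable {tc : TC} {dc : Seg (Kn Dec)} {x : List (VD Dec × VD Dec)}

lemma mkEn_tr {α : Type} [Ar α] (c : Dec → α) (lam mu : α)
    (h : sel x dc.x.ix = sel tc.x.x dc.x.ix) :
    mkEn c lam mu (tcs tc x) dc = mkEn c lam mu tc dc := by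
  unfold mkEn tcs
  simp only [h]

/-- the shapes in one cell -/
theorem EF.tr {L : List ES} (h : sel x dc.x.ix = sel tc.x.x dc.x.ix)
    (hE : EF (tcs tc x) dc L) : EF tc dc L := by
  intro hs E hL
  have key : ∀ {S : FS} {l : LD Dec} {s : S4 (PS Dec)}, CellF S l s (tcs tc x) dc →
      CellF S l s tc dc := by
    rintro S l s ⟨y, c2, c1, h1, h2⟩
    refine ⟨y, c2, c1, h1, fun lam mu l0 l1 m0 m1 => ?_⟩
    have h3 := h2 lam mu l0 l1 m0 m1
    have e : rFE lam mu (tcs tc x) dc l s y = rFE lam mu tc dc l s y := by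
      unfold rFE mkFE
      rw [mkEn_tr _ _ _ h]
      rfl
    rw [e] at h3
    exact h3
  have h4 := hE hs E hL
  exact ⟨key h4.1, key h4.2⟩

/-- the lists for `K ≤ 2` in one cell -/
theorem KF.tr (h : sel x dc.x.ix = sel tc.x.x dc.x.ix) (hK : KF (tcs tc x) dc) : KF tc dc := by
  intro hs p hp lam mu l0 l1 m0 m1
  have h1 := hK hs p hp lam mu l0 l1 m0 m1
  have e : rEn lam mu (tcs tc x) dc = rEn lam mu tc dc := by
    unfold rEn
    rw [mkEn_tr _ _ _ h]
  rw [e] at h1
  exact h1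

/-- the shapes in one cell, from the cell with one potential -/
theorem EF.tv {n : ℕ} {v : VD Dec × VD Dec} {L : List ES} (hn : dc.x.ix = n)
    (hv : sel tc.x.x n = v) (hE : EF (tcs tc (rep n v)) dc L) : EF tc dc L :=
  EF.tr (by rw [hn, hv, sel_rep]) hE

/-- the lists for `K ≤ 2` in one cell, from the cell with one potential -/
theorem KF.tv {n : ℕ} {v : VD Dec × VD Dec} (hn : dc.x.ix = n)
    (hv : sel tc.x.x n = v) (hK : KF (tcs tc (rep n v)) dc) : KF tc dc :=
  KF.tr (by rw [hn, hv, sel_rep]) hK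

end Pool.Agent.TSE
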